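import Pool.Agent.T3.Stmts2
import Pool.Agent.LibH11.GlFT

/-!
Finite type invariants of closed 3-braids: statements of the modules, third part: finite type
invariants determine the exponent sum up to stabilisation. See PAPER3.md in this folder.
-/

open Polynomial
open scoped BigOperators

namespace Pool.Agent.T3

open Pool.Agent.TB Pool.Agent.LibH11

/-- `[m]` -/
def qi {F : Type} [Field F] (q : Fˣ) (m : ℤ) : F :=
  (((q ^ m : Fˣ) : F) - ((q ^ (-m) : Fˣ) : F)) / ((q : F) - ((q⁻¹ : Fˣ) : F))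

/-- The reduced Burau representation, normalised: the eigenvalues of the generators are
`q`, `-q⁻¹`. -/
def IsHb {A : Type} [CommRing A] (q : Aˣ) (β : Br 2 →* (Matrix (Fin 2) (Fin 2) A)ˣ) : Prop :=
  ((β (sg 0) : (Matrix (Fin 2) (Fin 2) A)ˣ) : Matrix (Fin 2) (Fin 2) A) =
      !![-((q⁻¹ : Aˣ) : A), (q : A); 0, (q : A)] ∧
    ((β (sg 1) : (Matrix (Fin 2) (Fin 2) A)ˣ) : Matrix (Fin 2) (Fin 2) A) =
      !![(q : A), 0; ((q⁻¹ : Aˣ) : A), -((q⁻¹ : Aˣ) : A)]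

/-- The trace. -/
def tb {A : Type} [CommRing A] (β : Br 2 →* (Matrix (Fin 2) (Fin 2) A)ˣ) (b : Br 2) : A :=
  ((β b : (Matrix (Fin 2) (Fin 2) A)ˣ) : Matrix (Fin 2) (Fin 2) A).trace

/-- The mirror image. -/
def mir {n : ℕ} : Br n →* Br n :=
  liftBr (fun i => (sg i)⁻¹)
    (fun i j h => by rw [← mul_inv_rev, ← mul_inv_rev, sg_comm i j h])
    (fun i j h => by
      rw [← mul_inv_rev, ← mul_inv_rev, ← mul_inv_rev, ← mul_inv_rev, ← mul_assoc, ← mul_assoc,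
        sg_braid i j h])

/-- The word in `σ_0` (`false`) and `σ_1⁻¹` (`true`). -/
def pw : List Bool → Br 2
  | [] => 1
  | false :: l => sg 0 * pw l
  | true :: l => (sg 1)⁻¹ * pw l

/-- HBX: the representation exists, `(σ_0 σ_1)^3` acts as the identity. -/
def HBX_Stmt : Prop :=
  ∀ (A : Type) [CommRing A] (q : Aˣ),
    (∃ β : Br 2 →* (Matrix (Fin 2) (Fin 2) A)ˣ, IsHb q β) ∧
    ∀ β : Br 2 →* (Matrix (Fin 2) (Fin 2) A)ˣ, IsHb q β →
      β ((sg 0 * sg 1) ^ 3) = 1 ∧ tb β 1 = 2 ∧ tb β (sg 0) = (q : A) - ((q⁻¹ : Aˣ) : A) ∧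
      tb β (sg 0 * sg 1) = -1 ∧
      ∀ (a b : Br 2), tb β (a * b) = tb β (b * a) ∧
        ∀ i, tb β (a * sg i * b) = tb β (a * (sg i)⁻¹ * b) +
          ((q : A) - ((q⁻¹ : Aˣ) : A)) * tb β (a * b)

/-- HECU: trace functions with the Hecke relation are determined by three values. -/
def HECU_Stmt : Prop :=
  ∀ (A : Type) [CommRing A] (z : A) (f g : Br 2 → A),
    (∀ a b, f (a * b) = f (b * a)) → (∀ a b, g (a * b) = g (b * a)) →
    (∀ a b i, f (a * sg i * b) = f (a * (sg i)⁻¹ * b) + z * f (a * b)) →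
    (∀ a b i, g (a * sg i * b) = g (a * (sg i)⁻¹ * b) + z * g (a * b)) →
    f 1 = g 1 → f (sg 0) = g (sg 0) → f (sg 0 * sg 1) = g (sg 0 * sg 1) → ∀ b, f b = g b

/-- GL3: the `gl_N` invariants of closed 3-braids. -/
def GL3_Stmt : Prop :=
  ∀ (F : Type) [Field F] (q : Fˣ), (∀ m : ℤ, m ≠ 0 → q ^ m ≠ 1) →
    ∀ β : Br 2 →* (Matrix (Fin 2) (Fin 2) F)ˣ, IsHb q β → ∀ (N : ℕ) (b : Br 2),
      qtr q (q ^ N) (rep (Fin N) q (q ^ N) 2 b).val =
        (((q ^ N) ^ (-expSum b) : Fˣ) : F) *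
          (qi q N * qi q (N + 1) * qi q (N + 2) / (qi q 2 * qi q 3) *
              ((q ^ expSum b : Fˣ) : F) +
            qi q (N - 1) * qi q N * qi q (N + 1) / qi q 3 * tb β b +
            qi q (N - 2) * qi q (N - 1) * qi q N / (qi q 2 * qi q 3) *
              (((-q⁻¹) ^ expSum b : Fˣ) : F))

/-- KREL: if the exponent sums are different, the extreme coefficients in `a = q^N` vanish. -/
def KREL_Stmt : Prop :=
  ∀ (b b' : Br 2) (h : IsKnot b) (h' : IsKnot b'),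
    (∀ v : Knot → ℂ, IsFiniteType v → v (closure b h) = v (closure b' h')) →
    expSum b' < expSum b →
    ∃ (F : Type) (_ : Field F) (_ : CharZero F) (q : Fˣ), Transcendental ℤ (q : F) ∧
      (expSum b = expSum b' + 2 ∨ (expSum b = 2 ∧ expSum b' = -2)) ∧
      ∀ β : Br 2 →* (Matrix (Fin 2) (Fin 2) F)ˣ, IsHb q β →
        tb β b * ((q : F) + ((q⁻¹ : Fˣ) : F)) =
          -(((q ^ (expSum b - 3) : Fˣ) : F) + ((q ^ (3 - expSum b) : Fˣ) : F)) ∧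
        tb β b' * ((q : F) + ((q⁻¹ : Fˣ) : F)) =
          -(((q ^ (expSum b' + 3) : Fˣ) : F) + ((q ^ (-expSum b' - 3) : Fˣ) : F))

/-- The right hand side of GL3. -/
def glf {F : Type} [Field F] (q : Fˣ) (N : ℕ) (e : ℤ) (B : F) : F :=
  (((q ^ N) ^ (-e) : Fˣ) : F) *
    (qi q N * qi q (N + 1) * qi q (N + 2) / (qi q 2 * qi q 3) * ((q ^ e : Fˣ) : F) +
      qi q (N - 1) * qi q N * qi q (N + 1) / qi q 3 * B +
      qi q (N - 2) * qi q (N - 1) * qi q N / (qi q 2 * qi q 3) * (((-q⁻¹) ^ e : Fˣ) : F))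

/-- KRA: the `gl_N` invariants agree over a field where `q` is transcendental. -/
def KRA_Stmt : Prop :=
  ∀ (b b' : Br 2) (h : IsKnot b) (h' : IsKnot b'),
    (∀ v : Knot → ℂ, IsFiniteType v → v (closure b h) = v (closure b' h')) →
    ∃ (F : Type) (_ : Field F) (_ : CharZero F) (q : Fˣ), Transcendental ℤ (q : F) ∧
      ∀ N : ℕ, qtr q (q ^ N) (rep (Fin N) q (q ^ N) 2 b).val =
        qtr q (q ^ N) (rep (Fin N) q (q ^ N) 2 b').val

/-- KRB: comparison of the coefficients of the powers of `a = q^N`. -/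
def KRB_Stmt : Prop :=
  ∀ (F : Type) [Field F] [CharZero F] (q : Fˣ), Transcendental ℤ (q : F) →
    ∀ (e e' : ℤ) (B B' : F), Even e → Even e' → e' < e →
      (∀ N : ℕ, glf q N e B = glf q N e' B') →
      (e = e' + 2 ∨ (e = 2 ∧ e' = -2)) ∧
      B * ((q : F) + ((q⁻¹ : Fˣ) : F)) = -(((q ^ (e - 3) : Fˣ) : F) + ((q ^ (3 - e) : Fˣ) : F)) ∧
      B' * ((q : F) + ((q⁻¹ : Fˣ) : F)) =
        -(((q ^ (e' + 3) : Fˣ) : F) + ((q ^ (-e' - 3) : Fˣ) : F))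

/-- GENB: comparison of the coefficients of the powers of `q`. -/
def GENB_Stmt : Prop :=
  ∀ (F : Type) [Field F] [CharZero F] (q : Fˣ), Transcendental ℤ (q : F) →
    ∀ (P Q : ℕ) (τ : ℤ → ℕ) (n : ℤ), 1 ≤ P → 1 ≤ Q → Odd n → 1 ≤ τ P → 1 ≤ τ (-(Q : ℤ)) →
      2 + P * Q ≤ ∑ j ∈ Finset.Icc (-(Q : ℤ)) P, τ j →
      (∑ j ∈ Finset.Icc (-(Q : ℤ)) P,
          (τ j : F) * (((-1 : Fˣ) ^ j * q ^ ((P : ℤ) - Q - 2 * j) : Fˣ) : F)) *
        ((q : F) + ((q⁻¹ : Fˣ) : F)) = -(((q ^ n : Fˣ) : F) + ((q ^ (-n) : Fˣ) : F)) →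
      Odd P ∧ Odd Q ∧ (P = 1 ∨ Q = 1) ∧ (n = P + Q + 1 ∨ n = -(P + Q + 1))

/-- MIRR: mirror images. -/
def MIRR_Stmt : Prop :=
  (∀ b : Br 2, expSum (mir b) = -expSum b ∧ mir (mir b) = b ∧ (IsKnot b → IsKnot (mir b)) ∧
    (rho (mir b)).1.trace = (rho b).1.trace) ∧
  ∀ (A : Type) [CommRing A] (q : Aˣ) (β β' : Br 2 →* (Matrix (Fin 2) (Fin 2) A)ˣ),
    IsHb q β → IsHb q⁻¹ β' → ∀ b : Br 2, tb β' (mir b) = tb β b

/-- RED: a hyperbolic matrix of positive trace is conjugate to a positive one, which is a product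
of the two positive unipotent matrices. -/
def RED_Stmt : Prop :=
  ∀ M : Matrix.SpecialLinearGroup (Fin 2) ℤ, 2 < M.1.trace →
    ∃ w : List Bool, false ∈ w ∧ true ∈ w ∧ IsConj M (rho (pw w))

/-- NORM: Murasugi's normal form. -/
def NORM_Stmt : Prop :=
  ∀ b : Br 2, 2 < |(rho b).1.trace| →
    ∃ (k : ℤ) (w : List Bool), false ∈ w ∧ true ∈ w ∧ IsConj b ((sg 0 * sg 1) ^ (3 * k) * pw w)

/-- TPOS: the trace of a word in `σ_0`, `σ_1⁻¹`. -/
def TPOS_Stmt : Prop :=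
  ∀ w : List Bool, false ∈ w → true ∈ w →
    ∃ τ : ℤ → ℕ, 1 ≤ τ (w.count false) ∧ 1 ≤ τ (-(w.count true : ℤ)) ∧
      2 + w.count false * w.count true ≤
        ∑ j ∈ Finset.Icc (-(w.count true : ℤ)) (w.count false), τ j ∧
      ∀ (A : Type) [CommRing A] (q : Aˣ) (β : Br 2 →* (Matrix (Fin 2) (Fin 2) A)ˣ), IsHb q β →
        tb β (pw w) = ∑ j ∈ Finset.Icc (-(w.count true : ℤ)) (w.count false),
          (τ j : A) * (((-1 : Aˣ) ^ j * q ^ ((w.count false : ℤ) - w.count true - 2 * j) : Aˣ) : A)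

/-- GENU: if the lowest coefficient vanishes, the braid is a stabilisation or `6 ∣ e`. -/
def GENU_Stmt : Prop :=
  ∀ (F : Type) [Field F] [CharZero F] (q : Fˣ), Transcendental ℤ (q : F) →
    ∀ β : Br 2 →* (Matrix (Fin 2) (Fin 2) F)ˣ, IsHb q β → ∀ b : Br 2, IsKnot b →
      tb β b * ((q : F) + ((q⁻¹ : Fˣ) : F)) =
        -(((q ^ (expSum b - 3) : Fˣ) : F) + ((q ^ (3 - expSum b) : Fˣ) : F)) →
      IsConj b (sg 0 ^ (expSum b - 1) * sg 1) ∨ (6 : ℤ) ∣ expSum b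

/-- STB: closures. -/
def STB_Stmt : Prop :=
  (∀ (b b' : Br 2) (h : IsKnot b) (h' : IsKnot b'), IsConj b b' → closure b h = closure b' h') ∧
  (∀ (N : ℤ) (h : IsKnot (sg 0 ^ N * sg 1 : Br 2)) (h' : IsKnot (sg 0 ^ N * (sg 1)⁻¹ : Br 2)),
    closure (sg 0 ^ N * sg 1 : Br 2) h = closure (sg 0 ^ N * (sg 1)⁻¹ : Br 2) h') ∧
  (∀ N : ℤ, IsKnot (sg 0 ^ N * sg 1 : Br 2) ↔ Odd N) ∧
  (∀ N : ℤ, IsKnot (sg 0 ^ N * (sg 1)⁻¹ : Br 2) ↔ Odd N) ∧
  (∀ b b' : Br 2, IsConj b b' → IsKnot b → IsKnot b') ∧ (∀ b : Br 2, IsKnot b → IsKnot (rev b)) ∧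
  (∀ b : Br 2, IsKnot b → Even (expSum b))

/-- FIN4: finite type invariants separate closed 3-braids up to reversal of the orientation. -/
def FIN4_Stmt : Prop :=
  ∀ (b b' : Br 2) (h : IsKnot b) (h' : IsKnot b'),
    (∀ v : Knot → ℂ, IsFiniteType v → v (closure b h) = v (closure b' h')) →
    closure b h = closure b' h' ∨ ∃ hr : IsKnot (rev b), closure (rev b) hr = closure b' h'

end Pool.Agent.T3
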