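import Pool.Agent.IT.Coef

/-!
If complex valued finite type invariants separate two knots, so do finite type invariants with
values in any given nontrivial abelian group.
-/

namespace Pool.Agent.T3
open Pool.Agent.LibH11

/-- Values in a torsion free group can be replaced by values in any nontrivial abelian group. -/
theorem exists_separating_tf {B : Type*} [AddCommGroup B]
    (hB : ∀ (m : ℕ) (x : B), 0 < m → m • x = 0 → x = 0)
    {v : Knot → B} (hv : IsFiniteType v) {K K' : Knot} (h : v K ≠ v K')
    (A : Type*) [AddCommGroup A] [Nontrivial A] : ∃ w : Knot → A, IsFiniteType w ∧ w K ≠ w K' := by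
  obtain ⟨a, ha⟩ := exists_ne (0 : A)
  obtain ⟨d, hd⟩ := hv
  have hinf : ∀ m : ℕ, 0 < m → m • v K ≠ m • v K' := by
    intro m hm h1
    apply h
    rw [← sub_eq_zero, ← smul_sub] at h1
    exact sub_eq_zero.mp (hB m _ hm h1)
  by_cases h0 : addOrderOf a = 0
  · obtain ⟨S, v', hS, hv', hvv'⟩ := hd.restrict
    have := fg_instance hS
    have hδ : ∀ m : ℕ, 0 < m → m • (v' K - v' K') ≠ 0 := by
      intro m hm h0
      apply hinf m hm
      rw [smul_sub, sub_eq_zero] at h0
      have := congrArg (fun s : S => (s : B)) h0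
      simpa [hvv'] using this
    obtain ⟨φ, hφ⟩ := exists_hom_int hδ
    refine ⟨fun K => zmultiplesHom A a (φ (v' K)), ⟨d, (hv'.map φ).map (zmultiplesHom A a)⟩, ?_⟩
    intro h1
    apply hφ
    change (φ (v' K)) • a = (φ (v' K')) • a at h1
    rw [← sub_eq_zero, ← sub_smul] at h1
    have h2 := (addOrderOf_dvd_iff_zsmul_eq_zero (x := a)).mpr h1
    rw [h0, Nat.cast_zero, zero_dvd_iff] at h2
    rw [map_sub]
    exact h2
  · set n := addOrderOf a with hn
    have hn1 : n ≠ 1 := by
      intro h1
      exact ha (AddMonoid.addOrderOf_eq_one_iff.mp h1)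
    obtain ⟨p, hp, m, hm⟩ := Nat.exists_prime_and_dvd hn1
    have hb : addOrderOf (m • a) = p := by
      have hm0 : m ≠ 0 := by
        rintro rfl
        exact h0 (by rw [hm, mul_zero])
      rw [addOrderOf_nsmul' a hm0, ← hn, hm, Nat.gcd_eq_right (dvd_mul_left m p),
        Nat.mul_div_cancel _ (Nat.pos_of_ne_zero hm0)]
    obtain ⟨φ, hφ⟩ := IT.exists_zmod_embedding hb
    obtain ⟨D, -, hD⟩ := exists_separating_of_prime hd hinf
    obtain ⟨w, hw, hne⟩ := hD p hp
    exact ⟨fun K => φ (w K), ⟨_, hw.map φ⟩, fun h1 => hne (hφ h1)⟩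

/-- If the finite type invariants with values in the nontrivial abelian group `A` agree on two
knots, so do all complex valued ones. -/
theorem agree_of_agree (A : Type*) [AddCommGroup A] [Nontrivial A] {K K' : Knot}
    (h : ∀ v : Knot → A, IsFiniteType v → v K = v K') :
    ∀ v : Knot → ℂ, IsFiniteType v → v K = v K' := by
  intro v hv
  by_contra hne
  obtain ⟨w, hw, hne'⟩ := exists_separating_tf (fun m x hm hx => by
    rcases smul_eq_zero.mp hx with h0 | h0
    · omega
    · exact h0) hv hne A
  exact hne' (h w hw)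

end Pool.Agent.T3
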