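import Pool.Agent.T3.Stmts2
import Pool.Agent.LibH11.RMatrix

/-!
Every braid on three strands is a word; exponent sum, matrix, reversal.
-/

namespace Pool.Agent.T3

open Pool.Agent.TB Pool.Agent.LibH11

namespace WORD

/-- the braid is a word -/
def Wd (b : Br 2) : Prop := ∃ x : List ℤ, Even x.length ∧ b = bw false x

lemma wd_zero {b : Br 2} (hb : Wd b) (a : ℤ) : Wd (sg 0 ^ a * b) := by
  obtain ⟨x, hx, rfl⟩ := hb
  cases x with
  | nil =>
    refine ⟨[a, 0], ⟨1, rfl⟩, ?_⟩
    show sg 0 ^ a * 1 = sg 0 ^ a * (sg 1 ^ (0 : ℤ) * 1)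
    rw [zpow_zero, one_mul]
  | cons c l =>
    refine ⟨(a + c) :: l, by simpa using hx, ?_⟩
    show sg 0 ^ a * (sg 0 ^ c * bw true l) = sg 0 ^ (a + c) * bw true l
    rw [zpow_add, mul_assoc]

lemma wd_one {b : Br 2} (hb : Wd b) (a : ℤ) : Wd (sg 1 ^ a * b) := by
  obtain ⟨x, hx, rfl⟩ := hb
  refine ⟨0 :: a :: x, by simpa [Nat.even_add_one] using hx, ?_⟩
  show sg 1 ^ a * bw false x = sg 0 ^ (0 : ℤ) * (sg 1 ^ a * bw false x)
  rw [zpow_zero, one_mul]

lemma wd_sg (i : Fin 2) {b : Br 2} (hb : Wd b) (a : ℤ) : Wd (sg i ^ a * b) := by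
  fin_cases i
  · exact wd_zero hb a
  · exact wd_one hb a

lemma wd_all (b : Br 2) : Wd b := by
  have key : (∀ b', Wd b' → Wd (b * b')) ∧ (∀ b', Wd b' → Wd (b⁻¹ * b')) := by
    induction b using br_induction with
    | h1 =>
      refine ⟨fun b' h => ?_, fun b' h => ?_⟩
      · rwa [one_mul]
      · rwa [inv_one, one_mul]
    | hs i =>
      refine ⟨fun b' h => ?_, fun b' h => ?_⟩
      · have := wd_sg i h 1
        rwa [zpow_one] at this
      · have := wd_sg i h (-1)
        rwa [zpow_neg_one] at this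
    | hm x y hx hy =>
      refine ⟨fun b' h => ?_, fun b' h => ?_⟩
      · rw [mul_assoc]; exact hx.1 _ (hy.1 _ h)
      · rw [mul_inv_rev, mul_assoc]; exact hy.2 _ (hx.2 _ h)
    | hi x hx =>
      refine ⟨hx.2, fun b' h => ?_⟩
      rw [inv_inv]; exact hx.1 _ h
  have h1 := key.1 1 ⟨[], by decide, rfl⟩
  rwa [mul_one] at h1

lemma expSum_mul {n : ℕ} (b b' : Br n) : expSum (b * b') = expSum b + expSum b' := by
  unfold expSum
  rw [map_mul, toAdd_mul]

lemma expSum_one {n : ℕ} : expSum (1 : Br n) = 0 := by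
  unfold expSum
  rw [map_one, toAdd_one]

lemma expSum_inv {n : ℕ} (b : Br n) : expSum b⁻¹ = - expSum b := by
  unfold expSum
  rw [map_inv, toAdd_inv]

lemma expSum_sg_zpow {n : ℕ} (i : Fin n) (a : ℤ) : expSum (sg i ^ a : Br n) = a := by
  unfold expSum
  rw [map_zpow, liftBr_sg, toAdd_zpow, toAdd_ofAdd, smul_eq_mul, mul_one]

lemma expSum_sg {n : ℕ} (i : Fin n) : expSum (sg i : Br n) = 1 := by
  have := expSum_sg_zpow i 1
  rwa [zpow_one] at this

lemma expSum_bw (x : List ℤ) : ∀ c : Bool, expSum (bw c x) = x.sum := by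
  induction x with
  | nil => intro c; cases c <;> exact expSum_one
  | cons a l ih =>
    intro c
    cases c
    · show expSum (sg 0 ^ a * bw true l) = _
      rw [expSum_mul, expSum_sg_zpow, ih, List.sum_cons]
    · show expSum (sg 1 ^ a * bw false l) = _
      rw [expSum_mul, expSum_sg_zpow, ih, List.sum_cons]

lemma rho_zero : rho (sg 0) = mD := by
  unfold rho
  rw [liftBr_sg]
  rfl

lemma rho_one : rho (sg 1) = mC := by
  unfold rho
  rw [liftBr_sg]
  rfl

lemma rho_bw (x : List ℤ) : ∀ c : Bool, rho (bw c x) = mw c x := by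
  induction x with
  | nil => intro c; cases c <;> exact map_one _
  | cons a l ih =>
    intro c
    cases c
    · show rho (sg 0 ^ a * bw true l) = mD ^ a * mw true l
      rw [map_mul, map_zpow, rho_zero, ih]
    · show rho (sg 1 ^ a * bw false l) = mC ^ a * mw false l
      rw [map_mul, map_zpow, rho_one, ih]

lemma rev_one {n : ℕ} : rev (1 : Br n) = 1 := by
  unfold rev
  rw [map_one, MulOpposite.unop_one]

lemma rev_mul {n : ℕ} (x y : Br n) : rev (x * y) = rev y * rev x := by
  unfold rev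
  rw [map_mul, MulOpposite.unop_mul]

lemma rev_inv {n : ℕ} (x : Br n) : rev x⁻¹ = (rev x)⁻¹ := by
  unfold rev
  rw [map_inv, MulOpposite.unop_inv]

lemma rev_sg {n : ℕ} (i : Fin n) : rev (sg i) = sg i := by
  unfold rev revHom
  rw [liftBr_sg, MulOpposite.unop_op]

lemma expSum_rev {n : ℕ} (b : Br n) : expSum (rev b) = expSum b := by
  induction b using br_induction with
  | h1 => rw [rev_one]
  | hs i => rw [rev_sg]
  | hm x y hx hy => rw [rev_mul, expSum_mul, expSum_mul, hx, hy, add_comm]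
  | hi x hx => rw [rev_inv, expSum_inv, expSum_inv, hx]

lemma revM_mul (A B : Matrix.SpecialLinearGroup (Fin 2) ℤ) :
    revM (A * B) = revM B * revM A := by
  ext i j
  fin_cases i <;> fin_cases j <;>
    simp [revM, Matrix.mul_apply, Fin.sum_univ_two] <;> ring

lemma revM_one : revM 1 = 1 := by
  ext i j
  fin_cases i <;> fin_cases j <;> simp [revM]

lemma revM_inv (A : Matrix.SpecialLinearGroup (Fin 2) ℤ) : revM A⁻¹ = (revM A)⁻¹ := by
  rw [eq_inv_iff_mul_eq_one, ← revM_mul, mul_inv_cancel, revM_one]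

lemma rho_rev (b : Br 2) : rho (rev b) = revM (rho b) := by
  induction b using br_induction with
  | h1 => rw [rev_one, map_one, revM_one]
  | hs i =>
    rw [rev_sg]
    fin_cases i
    · show rho (sg 0) = revM (rho (sg 0))
      rw [rho_zero]
      ext i j
      fin_cases i <;> fin_cases j <;> simp [revM, mD]
    · show rho (sg 1) = revM (rho (sg 1))
      rw [rho_one]
      ext i j
      fin_cases i <;> fin_cases j <;> simp [revM, mC]
  | hm x y hx hy => rw [rev_mul, map_mul, map_mul, revM_mul, hx, hy]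
  | hi x hx => rw [rev_inv, map_inv, map_inv, revM_inv, hx]

end WORD

open WORD in
theorem word : WORD_Stmt :=
  ⟨wd_all, fun x => expSum_bw x false, fun x => rho_bw x false, expSum_rev, rho_rev,
    expSum_mul⟩

end Pool.Agent.T3
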