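import Pool.Agent.T3.Stmts3
import Pool.Agent.T3.WORD

/-!
Assembly of the theorem on closed 3-braids without a condition on the exponent sums.
-/

open scoped BigOperators

namespace Pool.Agent.T3.FIN4

open Pool.Agent.TB Pool.Agent.LibH11 WORD

theorem isConj_rev {b c : Br 2} (h : IsConj b c) : IsConj (rev b) (rev c) := by
  obtain ⟨g, hg⟩ := isConj_iff.1 h
  refine isConj_iff.2 ⟨(rev g)⁻¹, ?_⟩
  rw [← hg, rev_mul, rev_mul, rev_inv, inv_inv, mul_assoc]

theorem rev_rev (b : Br 2) : rev (rev b) = b := by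
  induction b using br_induction with
  | h1 => rw [rev_one, rev_one]
  | hs i => rw [rev_sg, rev_sg]
  | hm x y hx hy => rw [rev_mul, rev_mul, hx, hy]
  | hi x hx => rw [rev_inv, rev_inv, hx]

theorem rev_npow (x : Br 2) (n : ℕ) : rev (x ^ n) = rev x ^ n := by
  induction n with
  | zero => simp [rev_one]
  | succ n ih => rw [pow_succ, rev_mul, ih, ← pow_succ']

theorem rev_zpow (x : Br 2) (n : ℤ) : rev (x ^ n) = rev x ^ n := by
  cases n with
  | ofNat n => simpa using rev_npow x n
  | negSucc n => rw [zpow_negSucc, zpow_negSucc, rev_inv, rev_npow]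

theorem mir_sg (i : Fin 2) : mir (sg i : Br 2) = (sg i)⁻¹ := by
  unfold mir
  rw [liftBr_sg]

/-- A stabilisation is conjugate to its reversal. -/
theorem isConj_rev_stab (N M : ℤ) : IsConj (rev (sg 0 ^ N * sg 1 ^ M : Br 2)) (sg 0 ^ N * sg 1 ^ M) := by
  rw [rev_mul, rev_zpow, rev_zpow, rev_sg, rev_sg]
  exact isConj_iff.2 ⟨sg 0 ^ N, by group⟩

theorem isConj_mul_comm (x y : Br 2) : IsConj (x * y) (y * x) :=
  isConj_iff.2 ⟨x⁻¹, by group⟩

/-- Exchange of the generators. -/
theorem isConj_swap : IsConj (sg 0 * (sg 1)⁻¹ : Br 2) (sg 0 ^ (-1 : ℤ) * sg 1) := by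
  have hb : (sg 0 * sg 1 * sg 0 : Br 2) = sg 1 * sg 0 * sg 1 := sg_braid (0 : Fin 2) 1 (by decide)
  have h : IsConj (sg 0 * (sg 1)⁻¹ : Br 2) (sg 1 * (sg 0)⁻¹) := by
    refine isConj_iff.2 ⟨sg 0 * sg 1 * sg 0, ?_⟩
    have e0 : (sg 0 * sg 1 * sg 0 : Br 2) * sg 0 = sg 1 * (sg 0 * sg 1 * sg 0) := by
      conv_lhs => rw [hb]
      simp only [mul_assoc]
    have e1 : (sg 0 * sg 1 * sg 0 : Br 2) * sg 1 = sg 0 * (sg 0 * sg 1 * sg 0) := by
      conv_rhs => rw [hb]
      simp only [mul_assoc]
    have e2 : (sg 0 * sg 1 * sg 0 : Br 2) * (sg 1)⁻¹ = (sg 0)⁻¹ * (sg 0 * sg 1 * sg 0) := by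
      rw [mul_inv_eq_iff_eq_mul, mul_assoc (sg 0)⁻¹ (sg 0 * sg 1 * sg 0) (sg 1), e1,
        inv_mul_cancel_left]
    calc (sg 0 * sg 1 * sg 0 : Br 2) * (sg 0 * (sg 1)⁻¹) * (sg 0 * sg 1 * sg 0)⁻¹
        = sg 1 * ((sg 0 * sg 1 * sg 0 : Br 2) * (sg 1)⁻¹) * (sg 0 * sg 1 * sg 0)⁻¹ := by
          rw [← mul_assoc, e0, mul_assoc (sg 1)]
      _ = sg 1 * (sg 0)⁻¹ := by rw [e2]; group
  refine h.trans ?_
  rw [zpow_neg_one]
  exact isConj_mul_comm _ _

theorem fin4 (h3 : FIN3_Stmt) (hgl : GL3_Stmt) (hkra : KRA_Stmt) (hkrb : KRB_Stmt)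
    (hmir : MIRR_Stmt) (hhbx : HBX_Stmt) (hgen : GENU_Stmt) (hstb : STB_Stmt) : FIN4_Stmt := by
  obtain ⟨sconj, sstab, sk1, sk2, skc, skr, sev⟩ := hstb
  -- equal exponent sums
  have hE : ∀ (b b' : Br 2) (h : IsKnot b) (h' : IsKnot b'),
      (∀ v : Knot → ℂ, IsFiniteType v → v (closure b h) = v (closure b' h')) →
      expSum b = expSum b' → closure b h = closure b' h' ∨
        ∃ hr : IsKnot (rev b), closure (rev b) hr = closure b' h' := by
    intro b b' h h' hv he
    rcases h3 b b' h h' he hv with hc | hc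
    · exact Or.inl (sconj _ _ h h' hc)
    · exact Or.inr ⟨skr b h, sconj _ _ _ h' hc⟩
  -- a braid conjugate to a word with its reversal
  have hE' : ∀ (b b' : Br 2) (h : IsKnot b) (h' : IsKnot b') (N M : ℤ),
      b = sg 0 ^ N * sg 1 ^ M →
      (∀ v : Knot → ℂ, IsFiniteType v → v (closure b h) = v (closure b' h')) →
      expSum b = expSum b' → closure b h = closure b' h' := by
    intro b b' h h' N M hb hv he
    rcases h3 b b' h h' he hv with hc | hc
    · exact sconj _ _ h h' hc
    · refine sconj _ _ h h' (IsConj.trans ?_ hc)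
      rw [hb]
      exact (isConj_rev_stab N M).symm
  -- different exponent sums
  have hD : ∀ (b b' : Br 2) (h : IsKnot b) (h' : IsKnot b'),
      (∀ v : Knot → ℂ, IsFiniteType v → v (closure b h) = v (closure b' h')) →
      expSum b' < expSum b → closure b h = closure b' h' := by
    intro b b' h h' hv he
    obtain ⟨F, iF, iC, q, hq, hN⟩ := hkra b b' h h' hv
    have hq1 : ∀ m : ℤ, m ≠ 0 → q ^ m ≠ 1 := by
      have key : ∀ m : ℕ, m ≠ 0 → q ^ m ≠ 1 := by
        intro m hm h1
        apply hq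
        refine ⟨Polynomial.X ^ m - 1, ?_, ?_⟩
        · exact Polynomial.X_pow_sub_C_ne_zero (Nat.pos_of_ne_zero hm) 1
        · have := congrArg (fun u : Fˣ => (u : F)) h1
          simp only [Units.val_pow_eq_pow_val, Units.val_one] at this
          simp [this]
      intro m hm h1
      rcases Int.natAbs_eq m with e | e
      · rw [e, zpow_natCast] at h1
        exact key _ (Int.natAbs_ne_zero.2 hm) h1
      · rw [e, zpow_neg, zpow_natCast, inv_eq_one] at h1
        exact key _ (Int.natAbs_ne_zero.2 hm) h1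
    obtain ⟨⟨β, hβ⟩, -⟩ := hhbx F q
    have hg : ∀ N : ℕ, glf q N (expSum b) (tb β b) = glf q N (expSum b') (tb β b') := by
      intro N
      have e1 := hgl F q hq1 β hβ N b
      have e2 := hgl F q hq1 β hβ N b'
      unfold glf
      rw [← e1, ← e2, hN N]
    obtain ⟨hcase, hb, hb'⟩ := hkrb F q hq (expSum b) (expSum b') (tb β b) (tb β b')
      (sev b h) (sev b' h') he hg
    -- the braid b
    have g1 := hgen F q hq β hβ b h hb
    -- the mirror image of b'
    obtain ⟨⟨β', hβ'⟩, -⟩ := hhbx F q⁻¹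
    obtain ⟨hm, hm2⟩ := hmir
    have hq' : Transcendental ℤ ((q⁻¹ : Fˣ) : F) := by
      rw [Units.val_inv_eq_inv_val]
      intro hh
      apply hq
      have := hh.inv
      rwa [inv_inv] at this
    have g2 := hgen F q⁻¹ hq' β' hβ' (mir b') ((hm b').2.2.1 h') (by
      rw [hm2 F q β β' hβ hβ' b', inv_inv, (hm b').1, add_comm, hb']
      congr 2
      · rw [inv_zpow, ← zpow_neg]; congr 2; ring
      · rw [inv_zpow, ← zpow_neg]; congr 2; ring)
    rw [(hm b').1] at g2
    have g2' : IsConj b' (sg 0 ^ (expSum b' + 1) * (sg 1)⁻¹) ∨ (6 : ℤ) ∣ expSum b' := by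
      rcases g2 with g2 | g2
      · left
        have h4 := mir.map_isConj g2
        rw [(hm b').2.1, map_mul, map_zpow, mir_sg, mir_sg, inv_zpow, ← zpow_neg] at h4
        have e5 : -(-expSum b' - 1) = expSum b' + 1 := by ring
        rwa [e5] at h4
      · right
        exact (dvd_neg.1 g2)
    have eC : ∀ N M : ℤ, expSum (sg 0 ^ N * sg 1 ^ M : Br 2) = N + M := by
      intro N M
      rw [expSum_mul, expSum_sg_zpow, expSum_sg_zpow]
    rcases hcase with hc | ⟨hc1, hc2⟩
    · rcases g1 with g1 | g1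
      · have kc := skc _ _ g1 h
        have kc' := (sk2 _).2 ((sk1 _).1 kc)
        have e1 : closure b h = closure _ kc' := (sconj _ _ h kc g1).trans (sstab _ kc kc')
        have e2 := hE' _ b' kc' h' (expSum b - 1) (-1) (by rw [zpow_neg_one])
          (fun v hvv => by rw [← e1]; exact hv v hvv)
          (by rw [← zpow_neg_one, eC]; omega)
        rw [e1, e2]
      · rcases g2' with g2 | g2
        · have kc' := skc _ _ g2 h'
          have kc := (sk1 _).2 ((sk2 _).1 kc')
          have e1 : closure b' h' = closure _ kc :=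
            (sconj _ _ h' kc' g2).trans (sstab _ kc kc').symm
          have e2 := hE' _ b kc h (expSum b' + 1) 1 (by rw [zpow_one])
            (fun v hvv => by rw [← e1]; exact (hv v hvv).symm)
            (by
              have := eC (expSum b' + 1) 1
              rw [zpow_one] at this
              rw [this]; omega)
          rw [e1, e2]
        · omega
    · have g1' : IsConj b (sg 0 ^ (expSum b - 1) * sg 1) := by
        rcases g1 with g1 | g1
        · exact g1
        · omega
      have g2'' : IsConj b' (sg 0 ^ (expSum b' + 1) * (sg 1)⁻¹) := by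
        rcases g2' with g2 | g2
        · exact g2
        · omega
      have kc := skc _ _ g1' h
      have kc' := (sk2 _).2 ((sk1 _).1 kc)
      have kd' := skc _ _ g2'' h'
      have kd := (sk1 _).2 ((sk2 _).1 kd')
      have e1 : closure b h = closure _ kc' := (sconj _ _ h kc g1').trans (sstab _ kc kc')
      have e2 : closure b' h' = closure _ kd := (sconj _ _ h' kd' g2'').trans (sstab _ kd kd').symm
      rw [e1, e2]
      apply sconj
      rw [hc1, hc2]
      exact isConj_swap
  intro b b' h h' hv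
  rcases lt_trichotomy (expSum b) (expSum b') with he | he | he
  · exact Or.inl (hD b' b h' h (fun v hvv => (hv v hvv).symm) he).symm
  · exact hE b b' h h' hv he
  · exact Or.inl (hD b b' h h' hv he)

end Pool.Agent.T3.FIN4
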