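import Pool.Agent.T3.Stmts3

/-!
Finite type invariants of closed 3-braids: module GENB (comparison of the coefficients of the
powers of `q`).
-/

open scoped BigOperators

namespace Pool.Agent.T3.GENB

variable {F : Type} [Field F]

/-- The integral powers of a transcendental element are linearly independent. -/
theorem lin_indep (q : Fˣ) (hq : Transcendental ℤ (q : F)) :
    LinearIndependent ℤ (fun m : ℤ => ((q ^ m : Fˣ) : F)) := by
  classical
  rw [linearIndependent_iff']
  intro s g hg i hi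
  set K : ℕ := s.sup Int.natAbs with hK
  have hle : ∀ m ∈ s, m.natAbs ≤ K := fun m hm => Finset.le_sup (f := Int.natAbs) hm
  have hpos : ∀ m ∈ s, 0 ≤ m + (K : ℤ) := by
    intro m hm
    have := hle m hm
    omega
  let p : Polynomial ℤ := ∑ m ∈ s, Polynomial.monomial (m + (K : ℤ)).toNat (g m)
  have hp : Polynomial.aeval (q : F) p = 0 := by
    have h1 : Polynomial.aeval (q : F) p =
        (∑ m ∈ s, g m • ((q ^ m : Fˣ) : F)) * ((q ^ (K : ℤ) : Fˣ) : F) := by
      simp only [p, map_sum, Finset.sum_mul]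
      refine Finset.sum_congr rfl fun m hm => ?_
      rw [Polynomial.aeval_monomial]
      have h2 : (q : F) ^ (m + (K : ℤ)).toNat = ((q ^ m : Fˣ) : F) * ((q ^ (K : ℤ) : Fˣ) : F) := by
        rw [← Units.val_mul, ← zpow_add, ← Units.val_pow_eq_pow_val, ← zpow_natCast,
          Int.toNat_of_nonneg (hpos m hm)]
      rw [h2]
      simp [mul_assoc]
    rw [h1, hg, zero_mul]
  have hp0 : p = 0 := by
    by_contra hne
    exact hq ⟨p, hne, hp⟩
  have hc : p.coeff (i + (K : ℤ)).toNat = g i := by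
    simp only [p, Polynomial.finset_sum_coeff, Polynomial.coeff_monomial]
    rw [Finset.sum_eq_single i]
    · simp
    · intro m hm hne
      rw [if_neg]
      intro h
      have h1 := hpos m hm
      have h2 := hpos i hi
      exact hne (by omega)
    · intro h
      exact absurd hi h
  rw [← hc, hp0, Polynomial.coeff_zero]

/-- The coefficient of a sum of `single`s. -/
theorem sum_single (s : Finset ℤ) (a : ℤ → ℤ) (c m : ℤ) :
    (∑ j ∈ s, Finsupp.single (c - 2 * j) (a j)) m =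
      ∑ j ∈ s, if c - 2 * j = m then a j else 0 := by
  classical
  rw [Finsupp.finset_sum_apply]
  refine Finset.sum_congr rfl fun j _ => ?_
  rw [Finsupp.single_apply]

theorem sum_single_at (s : Finset ℤ) (a : ℤ → ℤ) (c i : ℤ) :
    (∑ j ∈ s, Finsupp.single (c - 2 * j) (a j)) (c - 2 * i) = if i ∈ s then a i else 0 := by
  classical
  rw [sum_single]
  by_cases hi : i ∈ s
  · rw [if_pos hi, Finset.sum_eq_single i]
    · simp
    · intro j _ hj
      rw [if_neg]
      intro h
      exact hj (by omega)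
    · intro h
      exact absurd hi h
  · rw [if_neg hi]
    refine Finset.sum_eq_zero fun j hj => ?_
    rw [if_neg]
    intro h
    have : j = i := by omega
    exact hi (this ▸ hj)

end Pool.Agent.T3.GENB

namespace Pool.Agent.T3

open GENB

theorem genb : GENB_Stmt := by
  classical
  intro F _ _ q hq P Q τ n hP hQ hn hτP hτQ hsum heq
  have hli := lin_indep q hq
  rw [linearIndependent_iff] at hli
  set s : Finset ℤ := Finset.Icc (-(Q : ℤ)) P with hs
  let a : ℤ → ℤ := fun j => (((-1 : ℤˣ) ^ j : ℤˣ) : ℤ) * (τ j : ℤ)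
  let c : ℤ →₀ ℤ :=
    (∑ j ∈ s, Finsupp.single (((P : ℤ) - Q + 1) - 2 * j) (a j)) +
      (∑ j ∈ s, Finsupp.single (((P : ℤ) - Q - 1) - 2 * j) (a j)) +
      Finsupp.single n 1 + Finsupp.single (-n) 1
  have hcast : ∀ j : ℤ, (((-1 : Fˣ) ^ j : Fˣ) : F) = ((((-1 : ℤˣ) ^ j : ℤˣ) : ℤ) : F) := by
    intro j
    rcases Int.even_or_odd j with h | h
    · rw [h.neg_one_zpow, h.neg_one_zpow]; simp
    · rw [h.neg_one_zpow, h.neg_one_zpow]; simp
  have hc0 : c = 0 := by
    apply hli
    simp only [c, map_add, map_sum, Finsupp.linearCombination_single]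
    have e1 : ∀ j : ℤ, ((q ^ (((P : ℤ) - Q + 1) - 2 * j) : Fˣ) : F) =
        ((q ^ ((P : ℤ) - Q - 2 * j) : Fˣ) : F) * (q : F) := by
      intro j
      rw [← Units.val_mul, ← zpow_add_one]
      congr 2
      ring
    have e2 : ∀ j : ℤ, ((q ^ (((P : ℤ) - Q - 1) - 2 * j) : Fˣ) : F) =
        ((q ^ ((P : ℤ) - Q - 2 * j) : Fˣ) : F) * ((q⁻¹ : Fˣ) : F) := by
      intro j
      rw [← Units.val_mul, ← zpow_sub_one]
      congr 2
      ring
    have e3 : ∀ j : ℤ, (τ j : F) * (((-1 : Fˣ) ^ j * q ^ ((P : ℤ) - Q - 2 * j) : Fˣ) : F) =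
        (a j : F) * ((q ^ ((P : ℤ) - Q - 2 * j) : Fˣ) : F) := by
      intro j
      rw [Units.val_mul, hcast]
      simp only [a]
      push_cast
      ring
    simp only [e1, e2, zsmul_eq_mul, Int.cast_one, one_mul]
    rw [Finset.sum_congr rfl (fun j _ => e3 j)] at heq
    have e4 : (∑ j ∈ s, (a j : F) * (((q ^ ((P : ℤ) - Q - 2 * j) : Fˣ) : F) * (q : F))) +
        (∑ j ∈ s, (a j : F) * (((q ^ ((P : ℤ) - Q - 2 * j) : Fˣ) : F) * ((q⁻¹ : Fˣ) : F))) =
        (∑ j ∈ s, (a j : F) * ((q ^ ((P : ℤ) - Q - 2 * j) : Fˣ) : F)) *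
          ((q : F) + ((q⁻¹ : Fˣ) : F)) := by
      rw [mul_add, Finset.sum_mul, Finset.sum_mul]
      congr 1
      · exact Finset.sum_congr rfl fun j _ => by ring
      · exact Finset.sum_congr rfl fun j _ => by ring
    rw [e4, heq]
    ring
  -- the coefficients
  have hcoef : ∀ i : ℤ, (if i ∈ s then a i else 0) + (if i - 1 ∈ s then a (i - 1) else 0) +
      (if n = (P : ℤ) - Q + 1 - 2 * i then 1 else 0) +
      (if -n = (P : ℤ) - Q + 1 - 2 * i then 1 else 0) = 0 := by
    intro i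
    have h1 : c ((P : ℤ) - Q + 1 - 2 * i) = 0 := by rw [hc0]; rfl
    simp only [c, Finsupp.add_apply] at h1
    rw [sum_single_at] at h1
    have h2 : (P : ℤ) - Q + 1 - 2 * i = ((P : ℤ) - Q - 1) - 2 * (i - 1) := by ring
    rw [h2, sum_single_at, ← h2, Finsupp.single_apply, Finsupp.single_apply] at h1
    exact h1
  have hn0 : n ≠ 0 := by rintro rfl; exact absurd hn (by decide)
  have hmem : ∀ i : ℤ, i ∈ s ↔ -(Q : ℤ) ≤ i ∧ i ≤ P := fun i => Finset.mem_Icc
  -- the first coefficient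
  have hQQ := hcoef (-(Q : ℤ))
  rw [if_pos ((hmem _).2 ⟨le_refl _, by omega⟩), if_neg (by rw [hmem]; omega)] at hQQ
  have hsgn : ∀ j : ℤ, (Even j ∧ a j = τ j) ∨ (Odd j ∧ a j = -(τ j : ℤ)) := by
    intro j
    rcases Int.even_or_odd j with h | h
    · exact Or.inl ⟨h, by simp only [a]; rw [h.neg_one_zpow]; simp⟩
    · exact Or.inr ⟨h, by simp only [a]; rw [h.neg_one_zpow]; simp⟩
  have hτQ' : (1 : ℤ) ≤ τ (-(Q : ℤ)) := by exact_mod_cast hτQ
  have key : (n = (P : ℤ) + Q + 1 ∨ n = -((P : ℤ) + Q + 1)) ∧ Odd (-(Q : ℤ)) ∧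
      τ (-(Q : ℤ)) = 1 := by
    rcases hsgn (-(Q : ℤ)) with ⟨_, h2⟩ | ⟨h1, h2⟩
    · rw [h2] at hQQ
      split_ifs at hQQ <;> omega
    · rw [h2] at hQQ
      refine ⟨?_, h1, ?_⟩
      · split_ifs at hQQ with h3 h4 h4
        · omega
        · left; omega
        · right; omega
        · omega
      · split_ifs at hQQ with h3 h4 h4
        · omega
        · omega
        · omega
        · omega
  obtain ⟨hnn, hQodd, hτ1⟩ := key
  have hQodd' : Odd Q := by
    rw [Int.odd_iff] at hQodd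
    rw [Nat.odd_iff]
    omega
  have hPodd : Odd P := by
    rw [Int.odd_iff] at hn hQodd
    rw [Nat.odd_iff]
    omega
  -- all the other coefficients
  have hstep : ∀ i : ℤ, -(Q : ℤ) < i → i ≤ P → τ i = τ (i - 1) := by
    intro i h1 h2
    have h3 := hcoef i
    rw [if_pos ((hmem _).2 ⟨by omega, h2⟩), if_pos ((hmem _).2 ⟨by omega, by omega⟩),
      if_neg (by omega), if_neg (by omega)] at h3
    rcases hsgn i with ⟨h4, h5⟩ | ⟨h4, h5⟩ <;>
      rcases hsgn (i - 1) with ⟨h6, h7⟩ | ⟨h6, h7⟩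
    · exfalso
      rw [Int.even_iff] at h4 h6
      omega
    · rw [h5, h7] at h3
      omega
    · rw [h5, h7] at h3
      omega
    · exfalso
      rw [Int.odd_iff] at h4 h6
      omega
  have hall : ∀ k : ℕ, (k : ℤ) ≤ P + Q → τ (-(Q : ℤ) + k) = 1 := by
    intro k
    induction k with
    | zero => intro _; simpa using hτ1
    | succ k ih =>
      intro hk
      push_cast at hk
      have h1 := hstep (-(Q : ℤ) + ((k + 1 : ℕ) : ℤ)) (by push_cast; omega) (by push_cast; omega)
      rw [h1]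
      have h2 : -(Q : ℤ) + ((k + 1 : ℕ) : ℤ) - 1 = -(Q : ℤ) + k := by push_cast; ring
      rw [h2]
      exact ih (by omega)
  have hsum1 : ∑ j ∈ s, τ j = P + Q + 1 := by
    have h1 : ∀ j ∈ s, τ j = 1 := by
      intro j hj
      rw [hmem] at hj
      have h2 := hall (j + Q).toNat (by omega)
      have h3 : -(Q : ℤ) + ((j + Q).toNat : ℤ) = j := by omega
      rwa [h3] at h2
    rw [Finset.sum_congr rfl h1]
    simp only [Finset.sum_const, smul_eq_mul, mul_one, hs, Int.card_Icc]
    omega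
  refine ⟨hPodd, hQodd', ?_, hnn⟩
  rw [hsum1] at hsum
  by_contra hcon
  push_neg at hcon
  have hP2 : 2 ≤ P := by omega
  have hQ2 : 2 ≤ Q := by omega
  nlinarith [Nat.mul_le_mul hP2 hQ2]

end Pool.Agent.T3
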