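import Pool.Agent.T3.Stmts2

/-!
ELL3: conjugacy of the braids whose matrix has trace `±1`.
-/

open Polynomial
open scoped BigOperators Real

namespace Pool.Agent.T3

open Pool.Agent.TB Pool.Agent.LibH11

namespace ELL3

/-- `(1 e; 0 1)` -/
def up (e : ℤ) : Matrix.SpecialLinearGroup (Fin 2) ℤ :=
  ⟨!![1, e; 0, 1], by simp [Matrix.det_fin_two]⟩

/-- `(1 0; e 1)` -/
def lo (e : ℤ) : Matrix.SpecialLinearGroup (Fin 2) ℤ :=
  ⟨!![1, 0; e, 1], by simp [Matrix.det_fin_two]⟩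

/-- the element of order 6 -/
def P6 : Matrix.SpecialLinearGroup (Fin 2) ℤ := mD * mC

lemma mk_val (A : Matrix.SpecialLinearGroup (Fin 2) ℤ) {a b c d : ℤ} (ha : A.1 0 0 = a)
    (hb : A.1 0 1 = b) (hc : A.1 1 0 = c) (hd : A.1 1 1 = d) : A.1 = !![a, b; c, d] := by
  rw [← ha, ← hb, ← hc, ← hd]
  exact Matrix.eta_fin_two A.1

lemma conj_up (A : Matrix.SpecialLinearGroup (Fin 2) ℤ) (e : ℤ) : (up e * A * (up e)⁻¹).1 =
    !![A.1 0 0 + e * A.1 1 0, A.1 0 1 + e * (A.1 1 1 - A.1 0 0) - e ^ 2 * A.1 1 0;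
      A.1 1 0, A.1 1 1 - e * A.1 1 0] := by
  rw [Matrix.SpecialLinearGroup.coe_mul, Matrix.SpecialLinearGroup.coe_mul,
    Matrix.SpecialLinearGroup.coe_inv, mk_val A rfl rfl rfl rfl]
  ext i j
  fin_cases i <;> fin_cases j <;>
    simp [up, Matrix.adjugate_fin_two, Matrix.mul_apply, Fin.sum_univ_two] <;> ring

lemma conj_lo (A : Matrix.SpecialLinearGroup (Fin 2) ℤ) (e : ℤ) : (lo e * A * (lo e)⁻¹).1 =
    !![A.1 0 0 - e * A.1 0 1, A.1 0 1;
      A.1 1 0 - e * (A.1 1 1 - A.1 0 0) - e ^ 2 * A.1 0 1, A.1 1 1 + e * A.1 0 1] := by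
  rw [Matrix.SpecialLinearGroup.coe_mul, Matrix.SpecialLinearGroup.coe_mul,
    Matrix.SpecialLinearGroup.coe_inv, mk_val A rfl rfl rfl rfl]
  ext i j
  fin_cases i <;> fin_cases j <;>
    simp [lo, Matrix.adjugate_fin_two, Matrix.mul_apply, Fin.sum_univ_two] <;> ring

lemma P6_val : P6.1 = !![1, -1; 1, 0] := by
  rw [P6, Matrix.SpecialLinearGroup.coe_mul]
  ext i j
  fin_cases i <;> fin_cases j <;> simp [mD, mC, Matrix.mul_apply, Fin.sum_univ_two]

lemma P6_sq : (P6 ^ 2).1 = !![0, -1; 1, -1] := by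
  rw [pow_two, Matrix.SpecialLinearGroup.coe_mul, P6_val]
  ext i j
  fin_cases i <;> fin_cases j <;> simp [Matrix.mul_apply, Fin.sum_univ_two]

lemma P6_four : (P6 ^ 4).1 = !![-1, 1; -1, 0] := by
  rw [show 4 = 2 + 2 from rfl, pow_add, Matrix.SpecialLinearGroup.coe_mul, P6_sq]
  ext i j
  fin_cases i <;> fin_cases j <;> simp [Matrix.mul_apply, Fin.sum_univ_two]

lemma P6_five : (P6 ^ 5).1 = !![0, 1; -1, 1] := by
  rw [show 5 = 4 + 1 from rfl, pow_add, pow_one, Matrix.SpecialLinearGroup.coe_mul, P6_four,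
    P6_val]
  ext i j
  fin_cases i <;> fin_cases j <;> simp [Matrix.mul_apply, Fin.sum_univ_two]

/-- size of the off-diagonal entries -/
def sz2 (A : Matrix.SpecialLinearGroup (Fin 2) ℤ) : ℕ := (A.1 0 1).natAbs + (A.1 1 0).natAbs

/-- the reduced matrices -/
lemma reduced {a b c d : ℤ} (hdet : a * d - b * c = 1) (htr : (a + d) ^ 2 = 1)
    (h1 : b.natAbs ≤ (b + (d - a) - c).natAbs) (h2 : b.natAbs ≤ (b - (d - a) - c).natAbs)
    (h3 : c.natAbs ≤ (c - (d - a) - b).natAbs) (h4 : c.natAbs ≤ (c + (d - a) - b).natAbs) :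
    b = -c ∧ (c = 1 ∨ c = -1) ∧ (d - a = 1 ∨ d - a = -1) := by
  obtain ⟨x, hx⟩ : ∃ x, x = d - a := ⟨_, rfl⟩
  rw [← hx] at h1 h2 h3 h4 ⊢
  have hq : x ^ 2 + 4 * (b * c) = -3 := by
    rw [hx]
    nlinarith
  have hbc : b * c < 0 := by nlinarith [sq_nonneg x]
  have key : ∀ u v : ℤ, 0 < u → 0 < v → 4 * (u * v) = 3 + x ^ 2 → x < u + v ∧ -x < u + v := by
    intro u v hu hv huv
    have : x ^ 2 < (u + v) ^ 2 := by nlinarith [sq_nonneg (u - v)]
    have h5 := abs_lt_of_sq_lt_sq this (by linarith)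
    rw [abs_lt] at h5
    constructor <;> linarith [h5.1, h5.2]
  have fin : ∀ u v : ℤ, 0 < u → 0 < v → 4 * (u * v) = 3 + x ^ 2 → x ≤ u → -x ≤ u → x ≤ v →
      -x ≤ v → u = 1 ∧ v = 1 ∧ (x = 1 ∨ x = -1) := by
    intro u v hu hv huv k1 k2 k3 k4
    have h5 : x ^ 2 ≤ u * v := by
      rcases le_total 0 x with h0 | h0
      · nlinarith
      · nlinarith
    have h6 : u * v ≤ 1 := by linarith
    have h7 : u = 1 := by nlinarith
    have h8 : v = 1 := by nlinarith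
    refine ⟨h7, h8, ?_⟩
    rw [h7, h8] at huv
    have h9 : (x - 1) * (x + 1) = 0 := by nlinarith
    rcases mul_eq_zero.mp h9 with h | h
    · left; linarith
    · right; linarith
  rcases lt_trichotomy c 0 with hc | hc | hc
  · have hb : 0 < b := by nlinarith
    have e1 : 4 * (b * -c) = 3 + x ^ 2 := by linarith
    have e2 := key b (-c) hb (by linarith) e1
    obtain ⟨k1, k2, k3⟩ := fin b (-c) hb (by linarith) e1 (by omega) (by omega) (by omega)
      (by omega)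
    exact ⟨by omega, by omega, k3⟩
  · rw [hc] at hbc
    simp at hbc
  · have hb : b < 0 := by nlinarith
    have e1 : 4 * (-b * c) = 3 + x ^ 2 := by linarith
    have e2 := key (-b) c (by linarith) hc e1
    obtain ⟨k1, k2, k3⟩ := fin (-b) c (by linarith) hc e1 (by omega) (by omega) (by omega)
      (by omega)
    exact ⟨by omega, by omega, k3⟩

lemma ext_val {A B : Matrix.SpecialLinearGroup (Fin 2) ℤ} (h : A.1 = B.1) : A = B := Subtype.ext h

/-- minimal matrices are conjugate to powers of `P6` -/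
lemma of_min (A : Matrix.SpecialLinearGroup (Fin 2) ℤ) (htr : (A.1 0 0 + A.1 1 1) ^ 2 = 1)
    (hm : ∀ g, sz2 A ≤ sz2 (g * A * g⁻¹)) : ∃ g, ∃ m : ℕ, g * A * g⁻¹ = P6 ^ m := by
  have hdet : A.1 0 0 * A.1 1 1 - A.1 0 1 * A.1 1 0 = 1 := by
    have := A.2
    rwa [Matrix.det_fin_two] at this
  have h1 := hm (up 1)
  have h2 := hm (up (-1))
  have h3 := hm (lo 1)
  have h4 := hm (lo (-1))
  unfold sz2 at h1 h2 h3 h4
  rw [conj_up] at h1 h2
  rw [conj_lo] at h3 h4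
  simp only [Matrix.of_apply, Matrix.cons_val', Matrix.cons_val_zero, Matrix.cons_val_one,
    Matrix.cons_val_fin_one, Matrix.empty_val'] at h1 h2 h3 h4
  obtain ⟨a, ha⟩ : ∃ a, a = A.1 0 0 := ⟨_, rfl⟩
  obtain ⟨b, hb⟩ : ∃ b, b = A.1 0 1 := ⟨_, rfl⟩
  obtain ⟨c, hc⟩ : ∃ c, c = A.1 1 0 := ⟨_, rfl⟩
  obtain ⟨d, hd⟩ : ∃ d, d = A.1 1 1 := ⟨_, rfl⟩
  rw [← ha, ← hb, ← hc, ← hd] at hdet h1 h2 h3 h4
  rw [← ha, ← hd] at htr
  obtain ⟨r1, r2, r3⟩ := reduced hdet htr
    (by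
      have : b + 1 * (d - a) - 1 ^ 2 * c = b + (d - a) - c := by ring
      rw [this] at h1
      omega)
    (by
      have : b + -1 * (d - a) - (-1) ^ 2 * c = b - (d - a) - c := by ring
      rw [this] at h2
      omega)
    (by
      have : c - 1 * (d - a) - 1 ^ 2 * b = c - (d - a) - b := by ring
      rw [this] at h3
      omega)
    (by
      have : c - -1 * (d - a) - (-1) ^ 2 * b = c + (d - a) - b := by ring
      rw [this] at h4
      omega)
  have ht : a + d = 1 ∨ a + d = -1 := by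
    have h9 : (a + d - 1) * (a + d + 1) = 0 := by nlinarith
    rcases mul_eq_zero.mp h9 with h | h
    · left; linarith
    · right; linarith
  have hAv := mk_val A ha.symm hb.symm hc.symm hd.symm
  rcases r2 with r2 | r2 <;> rcases r3 with r3 | r3 <;> rcases ht with ht | ht
  · -- c = 1, x = 1, t = 1
    refine ⟨up 1, 1, ext_val ?_⟩
    have e1 : a = 0 := by omega
    have e2 : d = 1 := by omega
    rw [conj_up, hAv, pow_one, P6_val, r1, r2, e1, e2]
    simp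
  · refine ⟨up 1, 2, ext_val ?_⟩
    have e1 : a = -1 := by omega
    have e2 : d = 0 := by omega
    rw [conj_up, hAv, P6_sq, r1, r2, e1, e2]
    simp
  · refine ⟨1, 1, ext_val ?_⟩
    have e1 : a = 1 := by omega
    have e2 : d = 0 := by omega
    rw [one_mul, inv_one, mul_one, hAv, pow_one, P6_val, r1, r2, e1, e2]
  · refine ⟨1, 2, ext_val ?_⟩
    have e1 : a = 0 := by omega
    have e2 : d = -1 := by omega
    rw [one_mul, inv_one, mul_one, hAv, P6_sq, r1, r2, e1, e2]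
  · refine ⟨1, 5, ext_val ?_⟩
    have e1 : a = 0 := by omega
    have e2 : d = 1 := by omega
    rw [one_mul, inv_one, mul_one, hAv, P6_five, r1, r2, e1, e2]
    simp
  · refine ⟨1, 4, ext_val ?_⟩
    have e1 : a = -1 := by omega
    have e2 : d = 0 := by omega
    rw [one_mul, inv_one, mul_one, hAv, P6_four, r1, r2, e1, e2]
    simp
  · refine ⟨up 1, 5, ext_val ?_⟩
    have e1 : a = 1 := by omega
    have e2 : d = 0 := by omega
    rw [conj_up, hAv, P6_five, r1, r2, e1, e2]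
    simp
  · refine ⟨up 1, 4, ext_val ?_⟩
    have e1 : a = 0 := by omega
    have e2 : d = -1 := by omega
    rw [conj_up, hAv, P6_four, r1, r2, e1, e2]
    simp

lemma trace_conj (A g : Matrix.SpecialLinearGroup (Fin 2) ℤ) :
    (g * A * g⁻¹).1.trace = A.1.trace := by
  rw [Matrix.SpecialLinearGroup.coe_mul, Matrix.trace_mul_comm,
    ← Matrix.SpecialLinearGroup.coe_mul, ← mul_assoc, inv_mul_cancel, one_mul]

/-- elements of trace `±1` are conjugate to powers of `P6` -/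
theorem elliptic (A : Matrix.SpecialLinearGroup (Fin 2) ℤ) (htr : |A.1.trace| = 1) :
    ∃ g, ∃ m : ℕ, g * A * g⁻¹ = P6 ^ m := by
  obtain ⟨g, -, hg⟩ := (measure fun g => sz2 (g * A * g⁻¹)).wf.has_min Set.univ ⟨1, trivial⟩
  have h1 : (g * A * g⁻¹).1.trace = A.1.trace := trace_conj A g
  obtain ⟨h, m, hm⟩ := of_min (g * A * g⁻¹) (by
    rw [Matrix.trace_fin_two] at h1
    rw [h1, ← sq_abs, htr, one_pow])
    (fun h => by
      have h2 := hg (h * g) trivial
      have h3 : h * (g * A * g⁻¹) * h⁻¹ = (h * g) * A * (h * g)⁻¹ := by group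
      rw [h3]
      exact not_lt.mp h2)
  refine ⟨h * g, m, ?_⟩
  rw [← hm]
  group

/-- the exponent sum as a homomorphism -/
def ex : Br 2 →* Multiplicative ℤ :=
  liftBr (fun _ => Multiplicative.ofAdd (1 : ℤ)) (fun _ _ _ => rfl) (fun _ _ _ => rfl)

lemma expSum_eq (b : Br 2) : expSum b = Multiplicative.toAdd (ex b) := rfl

lemma expSum_conj (g b : Br 2) : expSum (g * b * g⁻¹) = expSum b := by
  have h : ex (g * b * g⁻¹) = ex b := by
    rw [MonoidHom.map_mul, MonoidHom.map_mul, MonoidHom.map_inv, mul_comm, inv_mul_cancel_left]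
  rw [expSum_eq, expSum_eq, h]

lemma expSum_zpow (k : ℤ) : expSum ((sg 0 * sg 1 : Br 2) ^ k) = 2 * k := by
  rw [expSum_eq, map_zpow, toAdd_zpow, MonoidHom.map_mul]
  have h1 : ex (sg 0) = Multiplicative.ofAdd 1 := liftBr_sg _ _ _ _
  have h2 : ex (sg 1) = Multiplicative.ofAdd 1 := liftBr_sg _ _ _ _
  rw [h1, h2]
  simp
  ring

lemma rho_s : rho (sg 0 * sg 1) = P6 := by
  rw [map_mul]
  have h1 : rho (sg 0) = mD := by
    rw [rho, liftBr_sg]
    rfl
  have h2 : rho (sg 1) = mC := by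
    rw [rho, liftBr_sg]
    rfl
  rw [h1, h2]
  rfl

/-- a braid with matrix of trace `±1` is conjugate to a power of `σ_0 σ_1` -/
theorem normal (h1 : KER3_Stmt) (b : Br 2) (htr : |(rho b).1.trace| = 1) :
    ∃ (g : Br 2) (k : ℤ), g * b * g⁻¹ = (sg 0 * sg 1) ^ k := by
  obtain ⟨hker, -, hsurj⟩ := h1
  obtain ⟨g, m, hg⟩ := elliptic (rho b) htr
  obtain ⟨g, rfl⟩ := hsurj g
  have h2 : rho (g * b * g⁻¹ * ((sg 0 * sg 1) ^ m)⁻¹) = 1 := by
    rw [map_mul, map_mul, map_mul, map_inv, map_inv, map_pow, rho_s, hg, mul_inv_cancel]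
  obtain ⟨k, hk⟩ := hker _ h2
  refine ⟨g, 6 * k + m, ?_⟩
  rw [zpow_add, ← hk, zpow_natCast, inv_mul_cancel_right]

end ELL3

open ELL3 in
theorem ell3 (h1 : KER3_Stmt) (_h2 : WORD_Stmt) : ELL3_Stmt := by
  intro b b' he htr htr'
  obtain ⟨g, k, hg⟩ := normal h1 b htr
  obtain ⟨g', k', hg'⟩ := normal h1 b' (by rw [htr']; exact htr)
  have e1 : expSum b = 2 * k := by rw [← expSum_conj g b, hg, expSum_zpow]
  have e2 : expSum b' = 2 * k' := by rw [← expSum_conj g' b', hg', expSum_zpow]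
  have e3 : k = k' := by omega
  rw [isConj_iff]
  refine ⟨g'⁻¹ * g, ?_⟩
  have e4 : g * b * g⁻¹ = g' * b' * g'⁻¹ := by rw [hg, hg', e3]
  calc g'⁻¹ * g * b * (g'⁻¹ * g)⁻¹ = g'⁻¹ * (g * b * g⁻¹) * g' := by group
    _ = b' := by
      rw [e4]
      group

end Pool.Agent.T3
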