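import Pool.Agent.T3.Stmts3
import Pool.Agent.T3.ELL3

/-!
GENU: if the lowest coefficient of the `gl_N` invariant vanishes, the braid is a stabilisation or
the exponent sum is divisible by `6`.
-/

open Polynomial
open scoped BigOperators

namespace Pool.Agent.T3

open Pool.Agent.TB Pool.Agent.LibH11

namespace GENU

/-! ### Groups with the braid relation -/

section Grp

variable {G : Type*} [Group G] {x y : G}

lemma conj_two (h : x * y * x = y * x * y) : IsConj ((x * y) ^ (2 : ℤ)) (x ^ (3 : ℤ) * y) := by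
  rw [isConj_iff]
  refine ⟨x, ?_⟩
  have h1 : (x * y) ^ (2 : ℤ) = x * (x * y * x) := by
    rw [h, zpow_two]
    simp only [mul_assoc]
  have h2 : x ^ (3 : ℤ) = x * x * x := by
    rw [show (3 : ℤ) = ((3 : ℕ) : ℤ) from rfl, zpow_natCast, pow_succ, pow_two]
  rw [h1, h2]
  simp only [mul_assoc, mul_inv_cancel, mul_one]

lemma conj_full (h : x * y * x = y * x * y) (hc : ∀ b, (x * y) ^ 3 * b = b * (x * y) ^ 3)
    (a b : ℤ) : IsConj ((x * y) ^ (3 : ℤ) * (x ^ a * (y⁻¹ * x ^ b))) (x ^ (a + b + 4) * y) := by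
  rw [isConj_iff]
  refine ⟨x ^ (b + 2), ?_⟩
  have h0 : (x * y) ^ (3 : ℤ) = (x * y) ^ 3 := by
    rw [show (3 : ℤ) = ((3 : ℕ) : ℤ) from rfl, zpow_natCast]
  have h1 : (x * y) ^ (3 : ℤ) * (x ^ a * (y⁻¹ * x ^ b)) =
      x ^ a * ((x * y) ^ 3 * (y⁻¹ * x ^ b)) := by
    rw [h0, ← mul_assoc, hc, mul_assoc]
  have h2 : (x * y) ^ 3 * (y⁻¹ * x ^ b) = x * (x * y * x) * x * x ^ b := by
    rw [h]
    simp only [pow_succ, pow_zero]
    group
  rw [h1, h2]
  group

lemma conj_neg (h : x * y * x = y * x * y) (a b : ℤ) :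
    IsConj (y ^ (-a) * (x * y ^ (-b))) (x ^ (-(a + b)) * y) := by
  rw [isConj_iff]
  have hy : (x * y * x) * y * (x * y * x)⁻¹ = x := by
    rw [mul_inv_eq_iff_eq_mul]
    calc x * y * x * y = x * (y * x * y) := by group
      _ = x * (x * y * x) := by rw [h]
  have hx : (x * y * x) * x * (x * y * x)⁻¹ = y := by
    rw [mul_inv_eq_iff_eq_mul]
    calc x * y * x * x = y * x * y * x := by rw [h]
      _ = y * (x * y * x) := by group
  have hyp : ∀ n : ℤ, (x * y * x) * y ^ n * (x * y * x)⁻¹ = x ^ n := by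
    intro n
    rw [← conj_zpow, hy]
  refine ⟨x ^ (-b) * (x * y * x), ?_⟩
  have h1 : x ^ (-b) * (x * y * x) * (y ^ (-a) * (x * y ^ (-b))) * (x ^ (-b) * (x * y * x))⁻¹ =
      x ^ (-b) * (((x * y * x) * y ^ (-a) * (x * y * x)⁻¹) *
        (((x * y * x) * x * (x * y * x)⁻¹) * ((x * y * x) * y ^ (-b) * (x * y * x)⁻¹))) *
          x ^ b := by
    group
  rw [h1, hyp, hx, hyp]
  group

end Grp

/-! ### The exponent sum -/

lemma expSum_mul (b c : Br 2) : expSum (b * c) = expSum b + expSum c := by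
  unfold expSum
  rw [map_mul, toAdd_mul]

lemma expSum_one : expSum (1 : Br 2) = 0 := by
  unfold expSum
  rw [map_one, toAdd_one]

lemma expSum_inv (b : Br 2) : expSum b⁻¹ = -expSum b := by
  unfold expSum
  rw [map_inv, toAdd_inv]

lemma expSum_zpow (b : Br 2) (k : ℤ) : expSum (b ^ k) = k * expSum b := by
  unfold expSum
  rw [map_zpow, toAdd_zpow, smul_eq_mul]

lemma expSum_sg (i : Fin 2) : expSum (sg i : Br 2) = 1 := by
  unfold expSum
  rw [liftBr_sg, toAdd_ofAdd]

lemma expSum_isConj {b c : Br 2} (h : IsConj b c) : expSum b = expSum c := by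
  obtain ⟨g, rfl⟩ := isConj_iff.1 h
  rw [expSum_mul, expSum_mul, expSum_inv]
  ring

/-! ### Words -/

lemma pw_append (u v : List Bool) : pw (u ++ v) = pw u * pw v := by
  induction u with
  | nil => simp [pw]
  | cons c l ih =>
    cases c
    · show sg 0 * pw (l ++ v) = sg 0 * pw l * pw v
      rw [ih, mul_assoc]
    · show (sg 1)⁻¹ * pw (l ++ v) = (sg 1)⁻¹ * pw l * pw v
      rw [ih, mul_assoc]

lemma expSum_pw (w : List Bool) : expSum (pw w) = (w.count false : ℤ) - w.count true := by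
  induction w with
  | nil => simp [pw, expSum_one]
  | cons c l ih =>
    cases c
    · show expSum (sg 0 * pw l) = _
      rw [expSum_mul, expSum_sg, ih]
      simp
      ring
    · show expSum ((sg 1)⁻¹ * pw l) = _
      rw [expSum_mul, expSum_inv, expSum_sg, ih]
      simp
      ring

lemma pw_false (w : List Bool) (h : true ∉ w) : pw w = sg 0 ^ (w.count false : ℤ) := by
  induction w with
  | nil => simp [pw]
  | cons c l ih =>
    cases c
    · show sg 0 * pw l = _
      rw [ih (fun h' => h (List.mem_cons_of_mem _ h')), List.count_cons_self, Nat.cast_add,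
        Nat.cast_one, add_comm, zpow_add, zpow_one]
    · exact absurd List.mem_cons_self h

lemma pw_true (w : List Bool) (h : false ∉ w) : pw w = sg 1 ^ (-(w.count true : ℤ)) := by
  induction w with
  | nil => simp [pw]
  | cons c l ih =>
    cases c
    · exact absurd List.mem_cons_self h
    · show (sg 1)⁻¹ * pw l = _
      rw [ih (fun h' => h (List.mem_cons_of_mem _ h')), List.count_cons_self, Nat.cast_add,
        Nat.cast_one, neg_add, add_comm, zpow_add, zpow_neg_one]

/-- a word with one letter `true` -/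
lemma one_true (w : List Bool) (h : w.count true = 1) :
    ∃ a b : ℕ, a + b = w.count false ∧
      pw w = sg 0 ^ (a : ℤ) * ((sg 1)⁻¹ * sg 0 ^ (b : ℤ)) := by
  have hm : true ∈ w := List.count_pos_iff.1 (by omega)
  obtain ⟨u, v, rfl⟩ := List.append_of_mem hm
  rw [List.count_append, List.count_cons_self] at h
  have hu : true ∉ u := List.count_eq_zero.1 (by omega)
  have hv : true ∉ v := List.count_eq_zero.1 (by omega)
  refine ⟨u.count false, v.count false, ?_, ?_⟩
  · rw [List.count_append, List.count_cons_of_ne (by decide)]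
  · rw [pw_append, pw_false u hu]
    show _ * ((sg 1)⁻¹ * pw v) = _
    rw [pw_false v hv]

/-- a word with one letter `false` -/
lemma one_false (w : List Bool) (h : w.count false = 1) :
    ∃ a b : ℕ, a + b = w.count true ∧
      pw w = sg 1 ^ (-(a : ℤ)) * (sg 0 * sg 1 ^ (-(b : ℤ))) := by
  have hm : false ∈ w := List.count_pos_iff.1 (by omega)
  obtain ⟨u, v, rfl⟩ := List.append_of_mem hm
  rw [List.count_append, List.count_cons_self] at h
  have hu : false ∉ u := List.count_eq_zero.1 (by omega)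
  have hv : false ∉ v := List.count_eq_zero.1 (by omega)
  refine ⟨u.count true, v.count true, ?_, ?_⟩
  · rw [List.count_append, List.count_cons_of_ne (by decide)]
  · rw [pw_append, pw_true u hu]
    show _ * (sg 0 * pw v) = _
    rw [pw_true v hv]

/-! ### Transcendental units -/

lemma pow_ne {F : Type} [Field F] {q : Fˣ} (hq : Transcendental ℤ (q : F)) {m : ℕ} (hm : m ≠ 0) :
    q ^ m ≠ 1 := by
  intro h
  apply hq
  refine ⟨X ^ m - C 1, X_pow_sub_C_ne_zero (Nat.pos_of_ne_zero hm) 1, ?_⟩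
  have h1 : (q : F) ^ m = 1 := by
    rw [← Units.val_pow_eq_pow_val, h, Units.val_one]
  simp [h1]

lemma zpow_ne {F : Type} [Field F] {q : Fˣ} (hq : Transcendental ℤ (q : F)) {m : ℤ}
    (hm : m ≠ 0) : q ^ m ≠ 1 := by
  intro h
  have h1 : q ^ m.natAbs = 1 := by
    rcases Int.natAbs_eq m with h2 | h2
    · rw [← zpow_natCast, ← h2, h]
    · rw [← zpow_natCast, show ((m.natAbs : ℕ) : ℤ) = -m by omega, zpow_neg, h, inv_one]
  exact pow_ne hq (Int.natAbs_ne_zero.2 hm) h1

/-- `q + q⁻¹ = q^n + q^-n` only for `n = ±1` -/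
lemma eq_pm {F : Type} [Field F] {q : Fˣ} (hq : Transcendental ℤ (q : F)) (n : ℤ)
    (h : (q : F) + ((q⁻¹ : Fˣ) : F) = ((q ^ n : Fˣ) : F) + ((q ^ (-n) : Fˣ) : F)) :
    n = 1 ∨ n = -1 := by
  have h1 : (((q ^ n : Fˣ) : F) - (q : F)) *
      (1 - ((q ^ (-n) : Fˣ) : F) * ((q⁻¹ : Fˣ) : F)) = 0 := by
    have e1 : ((q ^ n : Fˣ) : F) * ((q ^ (-n) : Fˣ) : F) = 1 := by
      rw [← Units.val_mul, ← zpow_add, add_neg_cancel, zpow_zero, Units.val_one]
    have e2 : (q : F) * ((q⁻¹ : Fˣ) : F) = 1 := Units.mul_inv q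
    linear_combination ((q⁻¹ : Fˣ) : F) * (-e1) + ((q ^ (-n) : Fˣ) : F) * e2 - h
  rcases mul_eq_zero.1 h1 with h2 | h2
  · left
    have h3 : q ^ n = q := Units.ext (sub_eq_zero.1 h2)
    by_contra hn
    refine zpow_ne hq (sub_ne_zero.2 hn) ?_
    rw [zpow_sub, h3, zpow_one, mul_inv_cancel]
  · right
    have h3 : q ^ (-n) * q⁻¹ = 1 := by
      apply Units.ext
      rw [Units.val_mul, Units.val_one]
      exact (sub_eq_zero.1 h2).symm
    by_contra hn
    refine zpow_ne hq (show (-n - 1 : ℤ) ≠ 0 by omega) ?_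
    rw [zpow_sub, zpow_one, h3]

/-! ### Traces -/

lemma tb_isConj {A : Type} [CommRing A] {β : Br 2 →* (Matrix (Fin 2) (Fin 2) A)ˣ}
    (h : ∀ a b : Br 2, tb β (a * b) = tb β (b * a)) {b c : Br 2} (hc : IsConj b c) :
    tb β b = tb β c := by
  obtain ⟨g, rfl⟩ := isConj_iff.1 hc
  rw [h (g * b) g⁻¹, ← mul_assoc, inv_mul_cancel, one_mul]

lemma tb_mul {A : Type} [CommRing A] {β : Br 2 →* (Matrix (Fin 2) (Fin 2) A)ˣ} {x : Br 2}
    (h : β x = 1) (y : Br 2) : tb β (x * y) = tb β y := by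
  unfold tb
  rw [map_mul, h, one_mul]

lemma tb_sq {F : Type} [Field F] {q : Fˣ} {β : Br 2 →* (Matrix (Fin 2) (Fin 2) F)ˣ}
    (h : IsHb q β) : tb β (sg 0 * sg 1 * (sg 0 * sg 1)) = -1 := by
  obtain ⟨h0, h1⟩ := h
  have e2 : (q : F) * ((q⁻¹ : Fˣ) : F) = 1 := Units.mul_inv q
  have e3 : ((q⁻¹ : Fˣ) : F) * (q : F) = 1 := Units.inv_mul q
  have hM : ((β (sg 0 * sg 1) : (Matrix (Fin 2) (Fin 2) F)ˣ) : Matrix (Fin 2) (Fin 2) F) =
      !![0, -1; 1, -1] := by
    rw [map_mul, Units.val_mul, h0, h1]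
    ext i j
    fin_cases i <;> fin_cases j <;>
      simp [Matrix.mul_apply, Fin.sum_univ_two]
  unfold tb
  rw [map_mul, Units.val_mul, hM, Matrix.trace_fin_two]
  simp [Matrix.mul_apply, Fin.sum_univ_two]

/-! ### The matrix `P6` -/

lemma P6_three : (ELL3.P6 ^ 3).1 = !![-1, 0; 0, -1] := by
  rw [show 3 = 2 + 1 from rfl, pow_add, pow_one, Matrix.SpecialLinearGroup.coe_mul, ELL3.P6_sq,
    ELL3.P6_val]
  ext i j
  fin_cases i <;> fin_cases j <;> simp [Matrix.mul_apply, Fin.sum_univ_two]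

lemma P6_six : ELL3.P6 ^ 6 = 1 := by
  apply Subtype.ext
  rw [show 6 = 3 + 3 from rfl, pow_add, Matrix.SpecialLinearGroup.coe_mul, P6_three]
  ext i j
  fin_cases i <;> fin_cases j <;> simp [Matrix.mul_apply, Fin.sum_univ_two]

lemma P6_trace (j : ℤ) : |(ELL3.P6 ^ (3 * j)).1.trace| = 2 := by
  have h6 : ELL3.P6 ^ (6 : ℤ) = 1 := by
    rw [show (6 : ℤ) = ((6 : ℕ) : ℤ) from rfl, zpow_natCast, P6_six]
  rcases Int.even_or_odd' j with ⟨i, hi | hi⟩
  · rw [hi, show 3 * (2 * i) = 6 * i by ring, zpow_mul, h6, one_zpow]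
    simp
  · rw [hi, show 3 * (2 * i + 1) = 6 * i + 3 by ring, zpow_add, zpow_mul, h6, one_zpow, one_mul,
      show (3 : ℤ) = ((3 : ℕ) : ℤ) from rfl, zpow_natCast, P6_three]
    simp [Matrix.trace_fin_two]

lemma rho_isConj {b c : Br 2} (h : IsConj b c) : (rho b).1.trace = (rho c).1.trace := by
  obtain ⟨g, rfl⟩ := isConj_iff.1 h
  rw [map_mul, map_mul, map_inv, ELL3.trace_conj]

lemma br01 : (sg 0 * sg 1 * sg 0 : Br 2) = sg 1 * sg 0 * sg 1 := sg_braid 0 1 rfl

end GENU

open GENU in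
/-- **(GENU)** -/
theorem genu (h1 : NORM_Stmt) (h2 : TPOS_Stmt) (h3 : GENB_Stmt) (h4 : HBX_Stmt)
    (h5 : ODD3_Stmt) (_h6 : ELL3_Stmt) (h7 : KER3_Stmt) (h8 : STB_Stmt) : GENU_Stmt := by
  intro F _ _ q hq β hβ b hb heq
  obtain ⟨-, hF⟩ := h4 F q
  obtain ⟨hb3, -, -, hb01, hab⟩ := hF β hβ
  have htr : ∀ a c : Br 2, tb β (a * c) = tb β (c * a) := fun a c => (hab a c).1
  have hev : Even (expSum b) := h8.2.2.2.2.2.2 b hb
  have hodd := h5 b hb
  obtain ⟨e, he⟩ : ∃ e, e = expSum b := ⟨_, rfl⟩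
  rw [← he] at heq hev ⊢
  have hcen := h7.2.1
  have hb3' : ∀ k : ℤ, β ((sg 0 * sg 1) ^ (3 * k)) = 1 := by
    intro k
    rw [zpow_mul, show (3 : ℤ) = ((3 : ℕ) : ℤ) from rfl, zpow_natCast, map_zpow, hb3, one_zpow]
  by_cases ht : |(rho b).1.trace| = 1
  · -- the elliptic case
    left
    obtain ⟨g, m, hg⟩ := ELL3.normal h7 b ht
    have hc : IsConj b ((sg 0 * sg 1) ^ m) := isConj_iff.2 ⟨g, hg⟩
    have hem : e = 2 * m := by
      rw [he, expSum_isConj hc, expSum_zpow, expSum_mul, expSum_sg, expSum_sg]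
      ring
    have hm3 : ¬ (3 : ℤ) ∣ m := by
      rintro ⟨j, hj⟩
      have h9 := rho_isConj hc
      rw [map_zpow, ELL3.rho_s, hj] at h9
      have h10 := P6_trace j
      rw [← h9, ht] at h10
      norm_num at h10
    have htb : tb β b = -1 := by
      rw [tb_isConj htr hc]
      have h11 : m = 3 * (m / 3) + m % 3 := by omega
      have h12 : m % 3 = 1 ∨ m % 3 = 2 := by omega
      rcases h12 with h12 | h12
      · rw [h11, h12, zpow_add, zpow_one, tb_mul (hb3' _), hb01]
      · rw [h11, h12, zpow_add, zpow_two, tb_mul (hb3' _), tb_sq hβ]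
    have h13 : (q : F) + ((q⁻¹ : Fˣ) : F) =
        ((q ^ (e - 3) : Fˣ) : F) + ((q ^ (-(e - 3)) : Fˣ) : F) := by
      rw [htb, show (3 - e : ℤ) = -(e - 3) by ring] at heq
      linear_combination -heq
    rcases eq_pm hq _ h13 with h14 | h14
    · have h15 : m = 2 := by omega
      have h16 : e - 1 = 3 := by omega
      rw [h15] at hc
      rw [h16]
      exact hc.trans (conj_two br01)
    · have h15 : m = 1 := by omega
      have h16 : e - 1 = 1 := by omega
      rw [h15, zpow_one] at hc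
      rw [h16, zpow_one]
      exact hc
  · -- the hyperbolic case
    have ht2 : 2 < |(rho b).1.trace| := by
      have h9 : Odd |(rho b).1.trace| := odd_abs.2 hodd
      obtain ⟨j, hj⟩ := h9
      have h10 := abs_nonneg (rho b).1.trace
      omega
    obtain ⟨k, w, hwf, hwt, hc⟩ := h1 b ht2
    obtain ⟨τ, t1, t2, t3, t4⟩ := h2 w hwf hwt
    have hP : 1 ≤ w.count false := List.count_pos_iff.2 hwf
    have hQ : 1 ≤ w.count true := List.count_pos_iff.2 hwt
    have htb : tb β b = tb β (pw w) := by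
      rw [tb_isConj htr hc, tb_mul (hb3' _)]
    have hn : Odd (e - 3) := by
      obtain ⟨j, hj⟩ := hev
      exact ⟨j - 2, by omega⟩
    have hes : e = 6 * k + ((w.count false : ℤ) - w.count true) := by
      rw [he, expSum_isConj hc, expSum_mul, expSum_zpow, expSum_mul, expSum_sg, expSum_sg,
        expSum_pw]
      ring
    have h9 := h3 F q hq (w.count false) (w.count true) τ (e - 3) hP hQ hn t1 t2 t3 (by
      rw [← t4 F q β hβ, ← htb, heq, show (-(e - 3) : ℤ) = 3 - e by ring])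
    obtain ⟨oP, oQ, h10, h11⟩ := h9
    obtain ⟨i, hi⟩ := oP
    obtain ⟨j, hj⟩ := oQ
    rcases h10 with h10 | h10
    · -- `P = 1`
      rcases h11 with h11 | h11
      · right
        omega
      · left
        have hk : k = 0 := by omega
        obtain ⟨a, c, hac, hw⟩ := one_false w h10
        have h12 : e - 1 = -((a : ℤ) + c) := by omega
        rw [h12]
        rw [hk, mul_zero, zpow_zero, one_mul, hw] at hc
        exact hc.trans (conj_neg br01 a c)
    · -- `Q = 1`
      rcases h11 with h11 | h11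
      · left
        have hk : k = 1 := by omega
        obtain ⟨a, c, hac, hw⟩ := one_true w h10
        have h12 : e - 1 = (a : ℤ) + c + 4 := by omega
        rw [h12]
        rw [hk, mul_one, hw] at hc
        exact hc.trans (conj_full br01 hcen a c)
      · right
        omega

end Pool.Agent.T3
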