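import Pool.Agent.T3.Stmts3

/-!
Module GL3: the `gl_N` invariants of closed 3-braids. See PAPER3.md in this folder.
-/

open Polynomial
open scoped BigOperators

namespace Pool.Agent.T3

open Pool.Agent.TB Pool.Agent.LibH11

namespace GL3

theorem exp_mul {n : ℕ} (a b : Br n) : expSum (a * b) = expSum a + expSum b := by
  unfold expSum
  rw [map_mul, toAdd_mul]

theorem exp_inv {n : ℕ} (a : Br n) : expSum a⁻¹ = -expSum a := by
  unfold expSum
  rw [map_inv, toAdd_inv]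

theorem exp_one {n : ℕ} : expSum (1 : Br n) = 0 := by
  unfold expSum
  rw [map_one, toAdd_one]

theorem exp_sg {n : ℕ} (i : Fin n) : expSum (sg i) = 1 := by
  unfold expSum
  rw [liftBr_sg]
  rfl

section

variable {F : Type} [Field F] (q : Fˣ) (N : ℕ)

/-- the quantum trace of a braid -/
noncomputable def tr (n : ℕ) (b : Br n) : F := qtr q (q ^ N) (rep (Fin N) q (q ^ N) n b).val

/-- `[N]` -/
noncomputable def nn : F := ((q ^ N : Fˣ) : F) - (((q ^ N)⁻¹ : Fˣ) : F)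

theorem tr_incl (n : ℕ) (b : Br n) :
    zz q * tr q N (n + 1) (incl b) = nn q N * tr q N n b := qtr_incl q (q ^ N) rfl b

theorem tr_stab (n : ℕ) (b : Br n) :
    tr q N (n + 1) (incl b * sg (Fin.last n)) = tr q N n b := qtr_stab q (q ^ N) rfl b

theorem tr_zero : zz q * tr q N 0 1 = nn q N := by
  unfold tr nn
  rw [map_one, Units.val_one, qtr_eq]
  have h := sum_mu q (q ^ N) (N := N) rfl
  rw [← h, ← Finset.sum_mul, mul_comm]
  congr 1
  refine Fintype.sum_equiv (Equiv.funUnique (Fin 1) (Fin N)) _ _ fun s => ?_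
  simp [mus]

theorem tr_comm (x y : Br 2) : tr q N 2 (x * y) = tr q N 2 (y * x) := by
  unfold tr
  rw [map_mul, map_mul, Units.val_mul, Units.val_mul, qtr_comm]

theorem tr_hecke (x y : Br 2) (i : Fin 2) :
    ((q ^ N : Fˣ) : F) * ((q ^ N : Fˣ) : F) * tr q N 2 (x * sg i * y) =
      tr q N 2 (x * (sg i)⁻¹ * y) + ((q ^ N : Fˣ) : F) * zz q * tr q N 2 (x * y) := by
  unfold tr
  set a : Fˣ := q ^ N with ha
  have ha0 : (a : F) ≠ 0 := a.ne_zero
  simp only [map_mul, map_inv, Units.val_mul]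
  set X := (rep (Fin N) q a 2 x).val with hX
  set Y := (rep (Fin N) q a 2 y).val with hY
  rw [rep_sg]
  have h1 : ((opU q a i : (Module.End F ((Fin 3 → Fin N) → F))ˣ) :
      Module.End F ((Fin 3 → Fin N) → F)) =
      ((a⁻¹ : Fˣ) : F) • op (q : F) (zz q) i.castSucc i.succ := rfl
  have h2 : (((opU q a i)⁻¹ : (Module.End F ((Fin 3 → Fin N) → F))ˣ) :
      Module.End F ((Fin 3 → Fin N) → F)) =
      (a : F) • (op (q : F) (zz q) i.castSucc i.succ - zz q • 1) := rfl
  rw [h1, h2, mul_smul_comm, mul_smul_comm, smul_mul_assoc, smul_mul_assoc, qtr_smul, qtr_smul,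
    mul_sub, sub_mul, qtr_sub, mul_smul_comm, mul_one, smul_mul_assoc, qtr_smul]
  have h3 : (a : F) * ((a⁻¹ : Fˣ) : F) = 1 := Units.mul_inv a
  linear_combination ((a : F) * qtr q a (X * op (q : F) (zz q) i.castSucc i.succ * Y)) * h3

end

/-- The three identities. -/
theorem ident {F : Type} [Field F] (x y : F) (hx : x ≠ 0) (hy : y ≠ 0) (h2 : x ^ 2 - 1 ≠ 0)
    (h4 : x ^ 4 - 1 ≠ 0) (h6 : x ^ 6 - 1 ≠ 0) (d n0 n1 n2 m1 m2 t2 t3 : F)
    (hd : d = (x ^ 2 - 1) / x) (hn0 : n0 = (y ^ 2 - 1) / y / d)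
    (hn1 : n1 = (y ^ 2 * x ^ 2 - 1) / (y * x) / d)
    (hn2 : n2 = (y ^ 2 * x ^ 4 - 1) / (y * x ^ 2) / d)
    (hm1 : m1 = (y ^ 2 - x ^ 2) / (y * x) / d)
    (hm2 : m2 = (y ^ 2 - x ^ 4) / (y * x ^ 2) / d)
    (ht2 : t2 = (x ^ 4 - 1) / x ^ 2 / d) (ht3 : t3 = (x ^ 6 - 1) / x ^ 3 / d) :
    n0 ^ 3 = n0 * n1 * n2 / (t2 * t3) + m1 * n0 * n1 / t3 * 2 + m2 * m1 * n0 / (t2 * t3) ∧
    y * n0 ^ 2 = n0 * n1 * n2 / (t2 * t3) * x + m1 * n0 * n1 / t3 * (x - x⁻¹) +
      m2 * m1 * n0 / (t2 * t3) * (-x⁻¹) ∧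
    y ^ 2 * n0 = n0 * n1 * n2 / (t2 * t3) * x ^ 2 + m1 * n0 * n1 / t3 * (-1) +
      m2 * m1 * n0 / (t2 * t3) * (x⁻¹) ^ 2 := by
  subst hd hn0 hn1 hn2 hm1 hm2 ht2 ht3
  refine ⟨?_, ?_, ?_⟩
  · field_simp
    ring
  · field_simp
    ring
  · field_simp
    ring

theorem unit_ne {F : Type} [Field F] (q : Fˣ) (hq : ∀ m : ℤ, m ≠ 0 → q ^ m ≠ 1) (k : ℕ)
    (hk : k ≠ 0) : (q : F) ^ k - 1 ≠ 0 := by
  intro h
  refine hq k (by exact_mod_cast hk) (Units.ext ?_)
  rw [zpow_natCast, Units.val_pow_eq_pow_val, Units.val_one]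
  linear_combination h

theorem qi_eq {F : Type} [Field F] (q : Fˣ) (m : ℤ) :
    qi q m = (((q ^ m : Fˣ) : F) - ((q ^ m : Fˣ) : F)⁻¹) / ((q : F) - (q : F)⁻¹) := by
  unfold qi
  rw [zpow_neg, Units.val_inv_eq_inv_val, Units.val_inv_eq_inv_val]

theorem qi_shift {F : Type} [Field F] (q : Fˣ) (N : ℕ) (k : ℤ) :
    qi q (N + k) = ((q : F) ^ N * (q : F) ^ k - ((q : F) ^ N * (q : F) ^ k)⁻¹) /
      ((q : F) - (q : F)⁻¹) := by
  rw [qi_eq, zpow_add, Units.val_mul, Units.val_zpow_eq_zpow_val, Units.val_zpow_eq_zpow_val,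
    zpow_natCast]

end GL3

open GL3 in
/-- Module GL3. -/
theorem gl3 (h1 : HECU_Stmt) (h2 : HBX_Stmt) : GL3_Stmt := by
  intro F _ q hq β hβ N b
  obtain ⟨-, hβ1, hβ2, hβ3, hβ4⟩ := (h2 F q).2 β hβ
  have hx : (q : F) ≠ 0 := q.ne_zero
  have hy : ((q ^ N : Fˣ) : F) ≠ 0 := (q ^ N).ne_zero
  have u2 := unit_ne q hq 2 (by norm_num)
  have u4 := unit_ne q hq 4 (by norm_num)
  have u6 := unit_ne q hq 6 (by norm_num)
  have hyN : ((q ^ N : Fˣ) : F) = (q : F) ^ N := Units.val_pow_eq_pow_val q N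
  have hd : (q : F) - (q : F)⁻¹ = ((q : F) ^ 2 - 1) / (q : F) := by
    field_simp
  have hid := ident (q : F) ((q ^ N : Fˣ) : F) hx hy u2 u4 u6 ((q : F) - (q : F)⁻¹)
    (qi q N) (qi q (N + 1)) (qi q (N + 2)) (qi q (N - 1)) (qi q (N - 2)) (qi q 2) (qi q 3) hd
    (by
      rw [show ((N : ℤ)) = N + 0 by ring, qi_shift, ← hyN]
      congr 1
      field_simp)
    (by
      rw [qi_shift, ← hyN]
      congr 1
      field_simp)
    (by
      rw [qi_shift, ← hyN]
      congr 1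
      field_simp)
    (by
      rw [sub_eq_add_neg, qi_shift, ← hyN]
      congr 1
      field_simp)
    (by
      rw [sub_eq_add_neg, qi_shift, ← hyN]
      congr 1
      field_simp)
    (by
      rw [show (2 : ℤ) = (0 : ℕ) + 2 by norm_num, qi_shift]
      congr 1
      field_simp)
    (by
      rw [show (3 : ℤ) = (0 : ℕ) + 3 by norm_num, qi_shift]
      congr 1
      field_simp)
  obtain ⟨i1, i2, i3⟩ := hid
  set c3 : F := qi q N * qi q (N + 1) * qi q (N + 2) / (qi q 2 * qi q 3) with hc3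
  set c2 : F := qi q (N - 1) * qi q N * qi q (N + 1) / qi q 3 with hc2
  set c1 : F := qi q (N - 2) * qi q (N - 1) * qi q N / (qi q 2 * qi q 3) with hc1
  set a : Fˣ := q ^ N with ha
  have hzz : zz q = (q : F) - (q : F)⁻¹ := by
    unfold zz
    rw [Units.val_inv_eq_inv_val]
  have hz0 : zz q ≠ 0 := by
    rw [hzz, hd]
    exact div_ne_zero u2 hx
  have hnn : nn q N = zz q * qi q N := by
    unfold nn
    rw [hzz, qi_eq, mul_div_cancel₀ _ (by rw [← hzz]; exact hz0), zpow_natCast,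
      Units.val_inv_eq_inv_val]
  have t0 : tr q N 0 1 = qi q N := by
    have h := tr_zero q N
    rw [hnn] at h
    exact mul_left_cancel₀ hz0 h
  have tin : ∀ (n : ℕ) (x : Br n), tr q N (n + 1) (incl x) = qi q N * tr q N n x := by
    intro n x
    have h := tr_incl q N n x
    rw [hnn, mul_assoc] at h
    exact mul_left_cancel₀ hz0 h
  have t11 : tr q N 1 1 = qi q N ^ 2 := by
    have h := tin 0 1
    rw [map_one, t0] at h
    rw [h]
    ring
  have t21 : tr q N 2 1 = qi q N ^ 3 := by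
    have h := tin 1 1
    rw [map_one, t11] at h
    rw [h]
    ring
  have t1s : tr q N 1 (sg 0) = qi q N := by
    have h := tr_stab q N 0 1
    rw [map_one, one_mul, t0] at h
    exact h
  have e0 : (sg 0 : Br 2) = incl (sg 0 : Br 1) := by
    rw [incl_sg]
    rfl
  have t2s : tr q N 2 (sg 0) = qi q N ^ 2 := by
    rw [e0, tin, t1s]
    ring
  have t2ss : tr q N 2 (sg 0 * sg 1) = qi q N := by
    have h := tr_stab q N 1 (sg 0)
    rw [t1s, ← e0] at h
    exact h
  have hf : ∀ x y : Br 2, ((a ^ expSum (x * y) : Fˣ) : F) * tr q N 2 (x * y) =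
      ((a ^ expSum (y * x) : Fˣ) : F) * tr q N 2 (y * x) := by
    intro x y
    rw [tr_comm, exp_mul, exp_mul, add_comm]
  have key := h1 F (zz q) (fun b => ((a ^ expSum b : Fˣ) : F) * tr q N 2 b)
    (fun b => c3 * ((q ^ expSum b : Fˣ) : F) + c2 * tb β b + c1 * (((-q⁻¹) ^ expSum b : Fˣ) : F))
    hf
    (fun x y => by
      rw [(hβ4 x y).1, exp_mul, exp_mul, add_comm (expSum x)])
    (fun x y i => by
      have h := tr_hecke q N x y i
      rw [exp_mul, exp_mul, exp_mul, exp_mul, exp_mul, exp_inv, exp_sg,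
        show expSum x + 1 + expSum y = (expSum x + expSum y) + 1 by ring,
        show expSum x + -1 + expSum y = (expSum x + expSum y) - 1 by ring, zpow_add_one,
        zpow_sub_one, Units.val_mul, Units.val_mul]
      have h3 : (a : F) * ((a⁻¹ : Fˣ) : F) = 1 := Units.mul_inv a
      linear_combination (((a ^ (expSum x + expSum y) : Fˣ) : F) * ((a⁻¹ : Fˣ) : F)) * h -
        (((a ^ (expSum x + expSum y) : Fˣ) : F) * (a : F) * tr q N 2 (x * sg i * y) -
          ((a ^ (expSum x + expSum y) : Fˣ) : F) * zz q * tr q N 2 (x * y)) * h3)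
    (fun x y i => by
      have h := (hβ4 x y).2 i
      rw [exp_mul, exp_mul, exp_mul, exp_mul, exp_mul, exp_inv, exp_sg,
        show expSum x + 1 + expSum y = (expSum x + expSum y) + 1 by ring,
        show expSum x + -1 + expSum y = (expSum x + expSum y) - 1 by ring, zpow_add_one,
        zpow_sub_one, zpow_add_one, zpow_sub_one, Units.val_mul, Units.val_mul, Units.val_mul,
        Units.val_mul, h, Units.val_neg, inv_neg, inv_inv, Units.val_neg]
      unfold zz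
      ring)
    (by
      rw [exp_one, zpow_zero, zpow_zero, zpow_zero, Units.val_one, hβ1, t21, i1]
      ring)
    (by
      rw [exp_sg, zpow_one, zpow_one, zpow_one, hβ2, t2s, i2, Units.val_neg,
        Units.val_inv_eq_inv_val])
    (by
      rw [exp_mul, exp_sg, exp_sg, show (1 : ℤ) + 1 = (2 : ℕ) by norm_num, zpow_natCast,
        zpow_natCast, zpow_natCast, hβ3, t2ss, Units.val_pow_eq_pow_val, i3,
        Units.val_pow_eq_pow_val, Units.val_pow_eq_pow_val, Units.val_neg,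
        Units.val_inv_eq_inv_val]
      ring) b
  change tr q N 2 b = _
  have h5 : ((a ^ (-expSum b) : Fˣ) : F) * ((a ^ expSum b : Fˣ) : F) = 1 := by
    rw [← Units.val_mul, ← zpow_add, neg_add_cancel, zpow_zero, Units.val_one]
  rw [← key, ← mul_assoc, h5, one_mul]

end Pool.Agent.T3
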