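import Pool.Agent.T3.Stmts3

/-!
Closed 3-braids: the normalised Burau representation.
-/

open Polynomial
open scoped BigOperators

namespace Pool.Agent.T3

open Pool.Agent.TB Pool.Agent.LibH11

namespace HBX

variable {A : Type} [CommRing A]

/-- the first matrix -/
def U0 (q : Aˣ) : (Matrix (Fin 2) (Fin 2) A)ˣ where
  val := !![-((q⁻¹ : Aˣ) : A), (q : A); 0, (q : A)]
  inv := !![-(q : A), (q : A); 0, ((q⁻¹ : Aˣ) : A)]
  val_inv := by
    ext a b
    fin_cases a <;> fin_cases b <;> simp [Matrix.mul_apply, Fin.sum_univ_two]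
  inv_val := by
    ext a b
    fin_cases a <;> fin_cases b <;> simp [Matrix.mul_apply, Fin.sum_univ_two]

/-- the second matrix -/
def U1 (q : Aˣ) : (Matrix (Fin 2) (Fin 2) A)ˣ where
  val := !![(q : A), 0; ((q⁻¹ : Aˣ) : A), -((q⁻¹ : Aˣ) : A)]
  inv := !![((q⁻¹ : Aˣ) : A), 0; ((q⁻¹ : Aˣ) : A), -(q : A)]
  val_inv := by
    ext a b
    fin_cases a <;> fin_cases b <;> simp [Matrix.mul_apply, Fin.sum_univ_two]
  inv_val := by
    ext a b
    fin_cases a <;> fin_cases b <;> simp [Matrix.mul_apply, Fin.sum_univ_two]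

theorem prod01 (q : Aˣ) : ((U0 q : (Matrix (Fin 2) (Fin 2) A)ˣ) : Matrix (Fin 2) (Fin 2) A) *
    ((U1 q : (Matrix (Fin 2) (Fin 2) A)ˣ) : Matrix (Fin 2) (Fin 2) A) = !![0, -1; 1, -1] := by
  ext a b
  fin_cases a <;> fin_cases b <;> simp [U0, U1, Matrix.mul_apply, Fin.sum_univ_two]

theorem braid01 (q : Aˣ) : U0 q * U1 q * U0 q = U1 q * U0 q * U1 q := by
  apply Units.ext
  rw [Units.val_mul, Units.val_mul, prod01, mul_assoc, Units.val_mul, Units.val_mul, prod01]
  ext a b
  fin_cases a <;> fin_cases b <;> simp [U0, U1, Matrix.mul_apply, Fin.sum_univ_two]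

/-- the representation -/
def bur (q : Aˣ) : Br 2 →* (Matrix (Fin 2) (Fin 2) A)ˣ :=
  liftBr (fun i => if i = 0 then U0 q else U1 q)
    (fun i j h => by omega)
    (fun i j h => by
      have hi : i = 0 := by omega
      have hj : j = 1 := by omega
      subst hi hj
      simpa using braid01 q)

theorem bur_isHb (q : Aˣ) : IsHb q (bur q) := by
  constructor
  · simp [bur, U0]
  · simp [bur, U1]

end HBX

open HBX in
theorem hbx : HBX_Stmt := by
  intro A _ q
  refine ⟨⟨bur q, bur_isHb q⟩, ?_⟩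
  intro β hβ
  have h0 : β (sg 0) = U0 q := Units.ext hβ.1
  have h1 : β (sg 1) = U1 q := Units.ext hβ.2
  have h01 : ((β (sg 0 * sg 1) : (Matrix (Fin 2) (Fin 2) A)ˣ) : Matrix (Fin 2) (Fin 2) A) =
      !![0, -1; 1, -1] := by
    rw [map_mul, h0, h1, Units.val_mul, prod01]
  refine ⟨?_, ?_, ?_, ?_, ?_⟩
  · apply Units.ext
    rw [map_pow, Units.val_pow_eq_pow_val, h01]
    ext a b
    fin_cases a <;> fin_cases b <;> simp [pow_succ, Matrix.mul_apply, Fin.sum_univ_two]
  · simp [tb]
  · rw [tb, hβ.1, Matrix.trace_fin_two]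
    simp
    ring
  · rw [tb, h01, Matrix.trace_fin_two]
    simp
  · intro a b
    refine ⟨?_, ?_⟩
    · simp only [tb, map_mul, Units.val_mul]
      exact Matrix.trace_mul_comm _ _
    · intro i
      have key : ((β (sg i) : (Matrix (Fin 2) (Fin 2) A)ˣ) : Matrix (Fin 2) (Fin 2) A) =
          (((β (sg i))⁻¹ : (Matrix (Fin 2) (Fin 2) A)ˣ) : Matrix (Fin 2) (Fin 2) A) +
            ((q : A) - ((q⁻¹ : Aˣ) : A)) • (1 : Matrix (Fin 2) (Fin 2) A) := by
        have hi : i = 0 ∨ i = 1 := by omega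
        rcases hi with rfl | rfl
        · rw [h0]
          change (U0 q).val = (U0 q).inv + _
          ext a b
          fin_cases a <;> fin_cases b <;> simp [U0]
          ring
        · rw [h1]
          change (U1 q).val = (U1 q).inv + _
          ext a b
          fin_cases a <;> fin_cases b <;> simp [U1]
          ring
      simp only [tb, map_mul, map_inv, Units.val_mul]
      rw [key]
      rw [mul_add, add_mul, Matrix.trace_add]
      congr 1
      rw [mul_smul_comm, mul_one, smul_mul_assoc, Matrix.trace_smul, smul_eq_mul]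

end Pool.Agent.T3
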