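import Pool.Agent.T3.Stmts3

/-!
HECU: trace functions with the Hecke relation are determined by three values.
-/

namespace Pool.Agent.T3

open Pool.Agent.TB Pool.Agent.LibH11

namespace HECU

variable {A : Type} [CommRing A]

/-- `a ↦ h (a b)` -/
def ph (h : Br 2 → A) (b : Br 2) : Br 2 → A := fun a => h (a * b)

/-- `F ↦ (a ↦ F (c a))` -/
def tr (c : Br 2) : (Br 2 → A) →ₗ[A] (Br 2 → A) where
  toFun F := fun a => F (c * a)
  map_add' _ _ := rfl
  map_smul' _ _ := rfl

/-- The span of the six elements. -/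
def sp (h : Br 2 → A) : Submodule A (Br 2 → A) :=
  Submodule.span A (Set.range fun i : Fin 6 =>
    ph h (![1, sg 0, sg 1, sg 0 * sg 1, sg 1 * sg 0, sg 0 * sg 1 * sg 0] i))

theorem zero_of {z : A} {h : Br 2 → A} (ht : ∀ a b, h (a * b) = h (b * a))
    (hz : ∀ a b i, h (a * sg i * b) = h (a * (sg i)⁻¹ * b) + z * h (a * b))
    (h1 : h 1 = 0) (h2 : h (sg 0) = 0) (h3 : h (sg 0 * sg 1) = 0) (b : Br 2) : h b = 0 := by
  have hbr : (sg 0 * sg 1 * sg 0 : Br 2) = sg 1 * sg 0 * sg 1 := sg_braid 0 1 rfl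
  have hsq : ∀ a b i, h (a * sg i * sg i * b) = h (a * b) + z * h (a * sg i * b) := by
    intro a b i
    rw [hz (a * sg i) b i, mul_inv_cancel_right]
  have hsq' : ∀ x y : Br 2, ∀ i, ph h (x * sg i * sg i * y) = ph h (x * y) + z • ph h (x * sg i * y) := by
    intro x y i
    funext a
    simp only [ph, Pi.add_apply, Pi.smul_apply, smul_eq_mul]
    have := hsq (a * x) y i
    simpa only [mul_assoc] using this
  have hinv' : ∀ x : Br 2, ∀ i, ph h (x * (sg i)⁻¹) = ph h (x * sg i) - z • ph h x := by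
    intro x i
    funext a
    simp only [ph, Pi.sub_apply, Pi.smul_apply, smul_eq_mul]
    have := hz (a * x) 1 i
    simp only [mul_one, mul_assoc] at this
    rw [this]
    ring
  have htr : ∀ c b : Br 2, tr c (ph h b) = ph h (b * c) := by
    intro c b
    funext a
    show h (c * a * b) = h (a * (b * c))
    rw [mul_assoc, ht c (a * b), mul_assoc]
  have hmem : ∀ i : Fin 6, ph h (![1, sg 0, sg 1, sg 0 * sg 1, sg 1 * sg 0,
      sg 0 * sg 1 * sg 0] i) ∈ sp h := fun i => Submodule.subset_span ⟨i, rfl⟩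
  have m0 : ph h 1 ∈ sp h := hmem 0
  have m1 : ph h (sg 0) ∈ sp h := hmem 1
  have m2 : ph h (sg 1) ∈ sp h := hmem 2
  have m3 : ph h (sg 0 * sg 1) ∈ sp h := hmem 3
  have m4 : ph h (sg 1 * sg 0) ∈ sp h := hmem 4
  have m5 : ph h (sg 0 * sg 1 * sg 0) ∈ sp h := hmem 5
  have hgen : ∀ i : Fin 2, ∀ j : Fin 6, ph h ((![1, sg 0, sg 1, sg 0 * sg 1, sg 1 * sg 0,
      sg 0 * sg 1 * sg 0] : Fin 6 → Br 2) j * sg i) ∈ sp h := by
    intro i j
    fin_cases i <;> fin_cases j
    · show ph h (1 * sg 0) ∈ sp h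
      rw [one_mul]; exact m1
    · show ph h (sg 0 * sg 0) ∈ sp h
      have := hsq' 1 1 0
      simp only [one_mul, mul_one] at this
      rw [this]; exact (sp h).add_mem m0 ((sp h).smul_mem z m1)
    · exact m4
    · exact m5
    · show ph h (sg 1 * sg 0 * sg 0) ∈ sp h
      have := hsq' (sg 1) 1 0
      simp only [mul_one] at this
      rw [this]; exact (sp h).add_mem m2 ((sp h).smul_mem z m4)
    · show ph h (sg 0 * sg 1 * sg 0 * sg 0) ∈ sp h
      have := hsq' (sg 0 * sg 1) 1 0
      simp only [mul_one] at this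
      rw [this]; exact (sp h).add_mem m3 ((sp h).smul_mem z m5)
    · show ph h (1 * sg 1) ∈ sp h
      rw [one_mul]; exact m2
    · exact m3
    · show ph h (sg 1 * sg 1) ∈ sp h
      have := hsq' 1 1 1
      simp only [one_mul, mul_one] at this
      rw [this]; exact (sp h).add_mem m0 ((sp h).smul_mem z m2)
    · show ph h (sg 0 * sg 1 * sg 1) ∈ sp h
      have := hsq' (sg 0) 1 1
      simp only [mul_one] at this
      rw [this]; exact (sp h).add_mem m1 ((sp h).smul_mem z m3)
    · show ph h (sg 1 * sg 0 * sg 1) ∈ sp h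
      rw [← hbr]; exact m5
    · show ph h (sg 0 * sg 1 * sg 0 * sg 1) ∈ sp h
      have e : (sg 0 * sg 1 * sg 0 * sg 1 : Br 2) = 1 * sg 0 * sg 0 * (sg 1 * sg 0) := by
        calc (sg 0 * sg 1 * sg 0 * sg 1 : Br 2) = sg 0 * (sg 1 * sg 0 * sg 1) := by
              simp only [mul_assoc]
          _ = sg 0 * (sg 0 * sg 1 * sg 0) := by rw [hbr]
          _ = 1 * sg 0 * sg 0 * (sg 1 * sg 0) := by simp only [mul_assoc, one_mul]
      rw [e, hsq' 1 (sg 1 * sg 0) 0]
      simp only [one_mul]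
      rw [← mul_assoc]
      exact (sp h).add_mem m4 ((sp h).smul_mem z m5)
  have hstep : ∀ (i : Fin 2) (F : Br 2 → A), F ∈ sp h → tr (sg i) F ∈ sp h := by
    intro i F hF
    have : sp h ≤ (sp h).comap (tr (sg i)) := by
      rw [sp, Submodule.span_le]
      rintro _ ⟨j, rfl⟩
      show tr (sg i) (ph h _) ∈ sp h
      rw [htr]
      exact hgen i j
    exact this hF
  have hstep' : ∀ (i : Fin 2) (F : Br 2 → A), F ∈ sp h → tr (sg i)⁻¹ F ∈ sp h := by
    intro i F hF
    have : sp h ≤ (sp h).comap (tr (sg i)⁻¹) := by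
      rw [sp, Submodule.span_le]
      rintro _ ⟨j, rfl⟩
      show tr (sg i)⁻¹ (ph h _) ∈ sp h
      rw [htr, hinv']
      exact (sp h).sub_mem (hgen i j) ((sp h).smul_mem z (hmem j))
    exact this hF
  have hboth : ∀ b : Br 2, (∀ F ∈ sp h, tr b F ∈ sp h) ∧ (∀ F ∈ sp h, tr b⁻¹ F ∈ sp h) := by
    intro b
    refine br_induction (P := fun b => (∀ F ∈ sp h, tr b F ∈ sp h) ∧
      (∀ F ∈ sp h, tr b⁻¹ F ∈ sp h)) ?_ ?_ ?_ ?_ b
    · have e : ∀ F : Br 2 → A, tr 1 F = F := fun F => by
        funext a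
        show F (1 * a) = F a
        rw [one_mul]
      refine ⟨fun F hF => ?_, fun F hF => ?_⟩
      · rw [e]; exact hF
      · rw [inv_one, e]; exact hF
    · intro i
      exact ⟨hstep i, hstep' i⟩
    · intro x y hx hy
      refine ⟨fun F hF => ?_, fun F hF => ?_⟩
      · have e : tr (x * y) F = tr y (tr x F) := by
          funext a
          show F (x * y * a) = F (x * (y * a))
          rw [mul_assoc]
        rw [e]
        exact hy.1 _ (hx.1 F hF)
      · have e : tr (x * y)⁻¹ F = tr x⁻¹ (tr y⁻¹ F) := by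
          funext a
          show F ((x * y)⁻¹ * a) = F (y⁻¹ * (x⁻¹ * a))
          rw [mul_inv_rev, mul_assoc]
        rw [e]
        exact hx.2 _ (hy.2 F hF)
    · intro x hx
      refine ⟨hx.2, ?_⟩
      rw [inv_inv]
      exact hx.1
  have hall : ∀ b, ph h b ∈ sp h := by
    intro b
    have e : ph h b = tr b (ph h 1) := by
      rw [htr, one_mul]
    rw [e]
    exact (hboth b).1 _ m0
  have hker : sp h ≤ LinearMap.ker (LinearMap.proj (R := A) (φ := fun _ : Br 2 => A) 1) := by
    rw [sp, Submodule.span_le]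
    rintro _ ⟨j, rfl⟩
    show ph h _ 1 = 0
    have e1 : h (sg 1) = 0 := by
      have : (sg 1 : Br 2) = (sg 0 * sg 1) * sg 0 * (sg 0 * sg 1)⁻¹ := by
        rw [hbr, mul_assoc (sg 1) (sg 0) (sg 1)]
        group
      rw [this, ht, ← mul_assoc, inv_mul_cancel, one_mul]
      exact h2
    have e2 : h (sg 1 * sg 0) = 0 := by rw [ht]; exact h3
    have e3 : h (sg 0 * sg 1 * sg 0) = 0 := by
      rw [ht]
      have := hsq 1 (sg 1) 0
      simp only [one_mul, mul_assoc] at this
      rw [this, e1, h3]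
      ring
    fin_cases j
    · show h (1 * 1) = 0
      rw [mul_one]; exact h1
    · show h (1 * sg 0) = 0
      rw [one_mul]; exact h2
    · show h (1 * sg 1) = 0
      rw [one_mul]; exact e1
    · show h (1 * (sg 0 * sg 1)) = 0
      rw [one_mul]; exact h3
    · show h (1 * (sg 1 * sg 0)) = 0
      rw [one_mul]; exact e2
    · show h (1 * (sg 0 * sg 1 * sg 0)) = 0
      rw [one_mul]; exact e3
  have := hker (hall b)
  have h4 : ph h b 1 = 0 := this
  simpa [ph] using h4

end HECU

open HECU in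
/-- HECU: trace functions with the Hecke relation are determined by three values. -/
theorem hecu : HECU_Stmt := by
  intro A _ z f g hf hg hfz hgz h1 h2 h3 b
  have := zero_of (z := z) (h := fun x => f x - g x)
    (fun a b => by rw [hf, hg]) (fun a b i => by rw [hfz, hgz]; ring)
    (by rw [h1, sub_self]) (by rw [h2, sub_self]) (by rw [h3, sub_self]) b
  exact sub_eq_zero.1 this

end Pool.Agent.T3
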