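import Pool.Agent.T3.Stmts3
import Pool.Agent.LibH11.Coeff

/-!
If all complex valued finite type invariants agree on two closed 3-braids, then all `gl_N`
invariants agree over a field where `q` is transcendental (module KRA).
-/

namespace Pool.Agent.T3

open Pool.Agent.TB Pool.Agent.LibH11

namespace KRA

section Nat

variable {R S C : Type*} [CommRing R] [CommRing S] [LinearOrder C] {n : ℕ}

theorem map_inv' (φ : R →+* S) (q : Rˣ) :
    φ ((q⁻¹ : Rˣ) : R) = (((Units.map (φ : R →* S) q)⁻¹ : Sˣ) : S) := by
  rw [← map_inv]; rfl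

theorem map_zz (φ : R →+* S) (q : Rˣ) : φ (zz q) = zz (Units.map (φ : R →* S) q) := by
  unfold zz
  rw [map_sub, map_inv']; rfl

/-- Naturality of the representation. -/
theorem rep_nat (φ : R →+* S) (q a : Rˣ) (b : Br n) : ∀ f : (Fin (n + 1) → C) → R,
    (rep C (Units.map (φ : R →* S) q) (Units.map (φ : R →* S) a) n b).val (fun s => φ (f s)) =
      fun s => φ ((rep C q a n b).val f s) := by
  induction b using br_induction with
  | h1 => intro f; simp
  | hs i =>
    intro f
    funext s
    rw [rep_sg, rep_sg]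
    simp only [opU, LinearMap.smul_apply, Pi.smul_apply, smul_eq_mul, op_apply, map_mul,
      ← map_inv' φ a, ← map_zz φ q]
    split_ifs <;> simp
  | hm x y hx hy =>
    intro f
    rw [map_mul, map_mul, Units.val_mul, Units.val_mul, Module.End.mul_apply,
      Module.End.mul_apply, hy, hx]
  | hi x hx =>
    intro f
    rw [map_inv, map_inv]
    have h1 := hx (((rep C q a n x)⁻¹ : _).val f)
    have h2 : (rep C q a n x).val (((rep C q a n x)⁻¹ : _).val f) = f := by
      rw [← Module.End.mul_apply, Units.mul_inv, Module.End.one_apply]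
    rw [h2] at h1
    have h3 : (fun s => φ (f s)) = (rep C (Units.map (φ : R →* S) q)
        (Units.map (φ : R →* S) a) n x).val
        (fun s => φ ((((rep C q a n x)⁻¹ : _).val f) s)) := h1.symm
    rw [h3, ← Module.End.mul_apply, Units.inv_mul, Module.End.one_apply]

theorem qtr_nat {N : ℕ} (φ : R →+* S) (q a : Rˣ) (b : Br n) :
    φ (qtr q a (rep (Fin N) q a n b).val) =
      qtr (Units.map (φ : R →* S) q) (Units.map (φ : R →* S) a)
        (rep (Fin N) (Units.map (φ : R →* S) q) (Units.map (φ : R →* S) a) n b).val := by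
  rw [qtr_eq, qtr_eq, map_sum]
  refine Finset.sum_congr rfl fun s _ => ?_
  have h1 : (Pi.single s (1 : S) : (Fin (n + 1) → Fin N) → S) =
      fun t => φ ((Pi.single s (1 : R) : (Fin (n + 1) → Fin N) → R) t) := by
    funext t
    simp only [Pi.single_apply]
    split_ifs <;> simp
  rw [h1, rep_nat φ q a b, map_mul]
  congr 1
  unfold mus mu
  rw [map_prod]
  refine Finset.prod_congr rfl fun i _ => ?_
  rw [map_mul, map_pow, map_inv']
  rfl

end Nat

/-- The field. -/
abbrev FF : Type := FractionRing (PowerSeries ℤ)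

theorem inj : Function.Injective (algebraMap (PowerSeries ℤ) FF) :=
  IsFractionRing.injective (PowerSeries ℤ) FF

theorem eval_qq (p : Polynomial ℤ)
    (hp : p.eval₂ (Int.castRingHom (PowerSeries ℤ)) ((qq : PowerSeries ℤ)) = 0) : p = 0 := by
  have h1 : p.eval₂ (Int.castRingHom (PowerSeries ℤ)) ((qq : PowerSeries ℤ)) =
      Polynomial.coeToPowerSeries.ringHom (Polynomial.taylor 1 p : Polynomial ℤ) := by
    rw [Polynomial.taylor_apply, Polynomial.comp, Polynomial.hom_eval₂, qq_val]
    congr 1
    · exact RingHom.ext_int _ _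
    · simp [add_comm]
  rw [h1, Polynomial.coeToPowerSeries.ringHom_apply] at hp
  have h2 : (Polynomial.taylor 1 p : Polynomial ℤ) = 0 :=
    Polynomial.coe_eq_zero_iff.mp hp
  exact Polynomial.taylor_injective 1 (by rw [h2, map_zero])

theorem trans_map {F : Type} [Field F] (g : PowerSeries ℤ →+* F) (hg : Function.Injective g) :
    Transcendental ℤ (g (qq : PowerSeries ℤ)) := by
  rw [transcendental_iff]
  intro p hp
  rw [Polynomial.aeval_def] at hp
  apply eval_qq
  apply hg
  rw [Polynomial.hom_eval₂, map_zero, ← hp]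
  congr 1
  exact RingHom.ext_int _ _

end KRA

open KRA in
theorem kra : KRA_Stmt := by
  intro b b' h h' hft
  have hco : ∀ N k : ℕ, glCoeff N k (closure b h) = glCoeff N k (closure b' h') := by
    intro N k
    have h1 := hft (fun K => ((glCoeff N k K : ℤ) : ℂ))
      ⟨k, (glCoeff_order N k).map (Int.castAddHom ℂ)⟩
    exact_mod_cast h1
  have hps : ∀ N : ℕ, qtr qq (qq ^ N) (rep (Fin N) qq (qq ^ N) 2 b).val =
      qtr qq (qq ^ N) (rep (Fin N) qq (qq ^ N) 2 b').val := by
    intro N
    ext k
    exact hco N k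
  have hc : CharZero FF := by
    have h1 : Function.Injective ((algebraMap (PowerSeries ℤ) FF).comp
        (PowerSeries.C : ℤ →+* PowerSeries ℤ)) := inj.comp PowerSeries.C_injective
    exact charZero_of_injective_ringHom h1
  refine ⟨FF, inferInstance, hc,
    Units.map ((algebraMap (PowerSeries ℤ) FF : PowerSeries ℤ →+* FF) : PowerSeries ℤ →* FF) qq,
    ?_, fun N => ?_⟩
  · exact trans_map _ inj
  · have h1 := congrArg (algebraMap (PowerSeries ℤ) FF) (hps N)
    rw [qtr_nat, qtr_nat] at h1
    simpa only [map_pow] using h1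

end Pool.Agent.T3
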