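import Pool.Agent.T3.Stmts3

/-!
KRB: comparison of the coefficients of the powers of `a = q^N`.
-/

open Polynomial
open scoped BigOperators

namespace Pool.Agent.T3

namespace KRB

variable {F : Type} [Field F]

/-- Powers of a transcendental element are linearly independent over the integers. -/
theorem indepZ {x : F} (hx0 : x ≠ 0) (hx : Transcendental ℤ x) (S : Finset ℤ) (γ : ℤ → ℤ)
    (h : ∑ n ∈ S, (γ n : F) * x ^ n = 0) : ∀ n ∈ S, γ n = 0 := by
  classical
  obtain ⟨K, hK⟩ : ∃ K : ℕ, ∀ n ∈ S, 0 ≤ n + K := by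
    refine ⟨∑ n ∈ S, n.natAbs, ?_⟩
    intro n hn
    have h1 : n.natAbs ≤ ∑ n ∈ S, n.natAbs :=
      Finset.single_le_sum (f := fun n : ℤ => n.natAbs) (fun _ _ => Nat.zero_le _) hn
    omega
  obtain ⟨P, hP⟩ : ∃ P : ℤ[X], P = ∑ n ∈ S, C (γ n) * X ^ (n + K).toNat := ⟨_, rfl⟩
  have h0 : aeval x P = 0 := by
    rw [hP, map_sum]
    have h2 : ∑ n ∈ S, aeval x (C (γ n) * X ^ (n + K).toNat) =
        (∑ n ∈ S, (γ n : F) * x ^ n) * x ^ (K : ℤ) := by
      rw [Finset.sum_mul]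
      refine Finset.sum_congr rfl fun n hn => ?_
      rw [map_mul, map_pow, aeval_X, aeval_C, mul_assoc, ← zpow_add₀ hx0]
      have h3 : ((n + K).toNat : ℤ) = n + K := Int.toNat_of_nonneg (hK n hn)
      rw [← h3, zpow_natCast]
      rfl
    rw [h2, h, zero_mul]
  have hP0 : P = 0 := by
    by_contra hne
    exact hx ⟨P, hne, h0⟩
  intro n hn
  have h1 : P.coeff (n + K).toNat = γ n := by
    rw [hP, finsetSum_coeff, Finset.sum_eq_single n]
    · rw [coeff_C_mul, coeff_X_pow, if_pos rfl, mul_one]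
    · intro m hm hmn
      rw [coeff_C_mul, coeff_X_pow, if_neg, mul_zero]
      have h3 := Int.toNat_of_nonneg (hK n hn)
      have h4 := Int.toNat_of_nonneg (hK m hm)
      intro h5
      apply hmn
      omega
    · intro hn'
      exact absurd hn hn'
  rw [← h1, hP0, coeff_zero]

theorem zpow_ne_one {x : F} (hx0 : x ≠ 0) (hx : Transcendental ℤ x) (m : ℤ) (hm : m ≠ 0) :
    x ^ m ≠ 1 := by
  intro h
  have h1 := indepZ hx0 hx {m, 0} (fun n => (if n = m then 1 else 0) - (if n = 0 then 1 else 0))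
    (by
      rw [Finset.sum_pair hm]
      simp [hm, hm.symm, h]) m (by simp)
  simp [hm] at h1

/-- The functions `N ↦ (x^n)^N` are linearly independent. -/
theorem indepN {x : F} (hx0 : x ≠ 0) (hx : ∀ m : ℤ, m ≠ 0 → x ^ m ≠ 1) (S : Finset ℤ)
    (γ : ℤ → F) (h : ∀ N : ℕ, 1 ≤ N → ∑ n ∈ S, γ n * (x ^ n) ^ N = 0) : ∀ n ∈ S, γ n = 0 := by
  have hinj : Function.Injective fun n : ℤ => powersHom F (x ^ n) := by
    intro n m hnm
    have h1 : x ^ n = x ^ m := (powersHom F).injective hnm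
    by_contra hne
    apply hx (n - m) (sub_ne_zero.mpr hne)
    rw [zpow_sub₀ hx0, h1, div_self (zpow_ne_zero _ hx0)]
  have hli := (linearIndependent_monoidHom (Multiplicative ℕ) F).comp _ hinj
  rw [linearIndependent_iff'] at hli
  intro n hn
  have h2 := hli S (fun n => γ n * x ^ n) (by
    funext M
    have h3 := h (M.toAdd + 1) (by omega)
    rw [Finset.sum_apply, Pi.zero_apply, ← h3]
    refine Finset.sum_congr rfl fun n _ => ?_
    simp only [Function.comp, Pi.smul_apply, smul_eq_mul, powersHom_apply]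
    rw [pow_succ]
    ring) n hn
  exact (mul_eq_zero.mp h2).resolve_right (zpow_ne_zero _ hx0)

/-- Six term relations. -/
theorem six {x : F} (hx0 : x ≠ 0) (hx : ∀ m : ℤ, m ≠ 0 → x ^ m ≠ 1) (k : Fin 6 → ℤ)
    (c : Fin 6 → F) (h : ∀ N : ℕ, 1 ≤ N → ∑ i, c i * (x ^ k i) ^ N = 0) (n : ℤ) :
    ∑ i, (if k i = n then c i else 0) = 0 := by
  classical
  by_cases hn : n ∈ Finset.univ.image k
  · refine indepN hx0 hx (Finset.univ.image k) (fun n => ∑ i, (if k i = n then c i else 0)) ?_ n hn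
    intro N hN
    refine Eq.trans ?_ (h N hN)
    simp only [Finset.sum_mul]
    rw [Finset.sum_comm]
    refine Finset.sum_congr rfl fun i _ => ?_
    rw [Finset.sum_eq_single (k i)]
    · rw [if_pos rfl]
    · intro m _ hm
      rw [if_neg (Ne.symm hm), zero_mul]
    · intro hi
      exact absurd (Finset.mem_image_of_mem k (Finset.mem_univ i)) hi
  · apply Finset.sum_eq_zero
    intro i _
    rw [if_neg]
    intro hi
    exact hn (hi ▸ Finset.mem_image_of_mem k (Finset.mem_univ i))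

/-- `c_2 = q^(e+3) + q^(-e-3) + [2] B` -/
def cp (x : F) (e : ℤ) (B : F) : F := x ^ (e + 3) + x ^ (-e - 3) + (x + x⁻¹) * B

/-- `c_0` -/
def cz (x : F) (e : ℤ) (B : F) : F :=
  -(x + x⁻¹) * (x ^ e + x ^ (-e)) - (x ^ (2 : ℤ) + x ^ (-2 : ℤ)) * ((x + x⁻¹) * B)

/-- `c_(-2) = q^(e-3) + q^(3-e) + [2] B` -/
def cn (x : F) (e : ℤ) (B : F) : F := x ^ (e - 3) + x ^ (3 - e) + (x + x⁻¹) * B

theorem qi_eq (q : Fˣ) (m : ℤ) :
    qi q m = ((q : F) ^ m - (q : F) ^ (-m)) / ((q : F) - (q : F)⁻¹) := by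
  unfold qi
  rw [Units.val_zpow_eq_zpow_val, Units.val_zpow_eq_zpow_val, Units.val_inv_eq_inv_val]

theorem qi_mul {q : Fˣ} (hD : (q : F) - (q : F)⁻¹ ≠ 0) (m : ℤ) :
    qi q m * ((q : F) - (q : F)⁻¹) = (q : F) ^ m - (q : F) ^ (-m) := by
  rw [qi_eq, div_mul_cancel₀ _ hD]

theorem qi_ne {q : Fˣ} (hx : ∀ m : ℤ, m ≠ 0 → (q : F) ^ m ≠ 1)
    (hD : (q : F) - (q : F)⁻¹ ≠ 0) (m : ℤ) (hm : m ≠ 0) : qi q m ≠ 0 := by
  rw [qi_eq]
  refine div_ne_zero ?_ hD
  intro h
  apply hx (m + m) (by omega)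
  have h1 : (q : F) ^ m = (q : F) ^ (-m) := sub_eq_zero.mp h
  rw [zpow_add₀ q.ne_zero]
  nth_rw 1 [h1]
  rw [← zpow_add₀ q.ne_zero, neg_add_cancel, zpow_zero]

theorem qi_two {q : Fˣ} (hD : (q : F) - (q : F)⁻¹ ≠ 0) : qi q 2 = (q : F) + (q : F)⁻¹ := by
  have hq : (q : F) ≠ 0 := q.ne_zero
  rw [qi_eq, div_eq_iff hD, zpow_neg]
  have h2 : (q : F) ^ (2 : ℤ) = (q : F) ^ 2 := by norm_cast
  rw [h2, ← inv_pow]
  ring

theorem glf_mul {q : Fˣ} (hx : ∀ m : ℤ, m ≠ 0 → (q : F) ^ m ≠ 1)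
    (hD : (q : F) - (q : F)⁻¹ ≠ 0) (N : ℕ) (e : ℤ) (he : Even e) (B : F) :
    glf q N e B * (qi q 2 * qi q 3 * ((q : F) - (q : F)⁻¹) ^ 2) =
      qi q N * (cp (q : F) e B * ((q : F) ^ (2 - e)) ^ N + cz (q : F) e B * ((q : F) ^ (-e)) ^ N +
        cn (q : F) e B * ((q : F) ^ (-2 - e)) ^ N) := by
  have hq : (q : F) ≠ 0 := q.ne_zero
  have h2 : qi q 2 ≠ 0 := qi_ne hx hD 2 (by norm_num)
  have h3 : qi q 3 ≠ 0 := qi_ne hx hD 3 (by norm_num)
  have e1 : ((((-q⁻¹) ^ e : Fˣ)) : F) = (q : F) ^ (-e) := by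
    rw [he.neg_zpow, Units.val_zpow_eq_zpow_val, Units.val_inv_eq_inv_val, inv_zpow, zpow_neg]
  have e2 : (((q ^ e : Fˣ)) : F) = (q : F) ^ e := Units.val_zpow_eq_zpow_val q e
  have e3 : ((((q ^ N) ^ (-e) : Fˣ)) : F) = ((q : F) ^ N) ^ (-e) := by
    rw [Units.val_zpow_eq_zpow_val, Units.val_pow_eq_pow_val]
  unfold glf
  rw [e1, e2, e3]
  obtain ⟨x, hxx⟩ : ∃ x : F, x = (q : F) := ⟨_, rfl⟩
  obtain ⟨a, ha⟩ : ∃ a : F, a = (q : F) ^ (N : ℤ) := ⟨_, rfl⟩
  have hx0 : x ≠ 0 := by rw [hxx]; exact hq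
  have ha0 : a ≠ 0 := by rw [ha]; exact zpow_ne_zero _ hq
  have haN : (q : F) ^ N = a := by rw [ha, zpow_natCast]
  -- the quantum integers
  obtain ⟨D, hDD⟩ : ∃ D : F, D = (q : F) - (q : F)⁻¹ := ⟨_, rfl⟩
  rw [← hDD] at hD
  have k1 : qi q (N + 1) * D = a * x - a⁻¹ * x⁻¹ := by
    rw [hDD, qi_mul (by rw [← hDD]; exact hD), neg_add, zpow_add₀ hq, zpow_add₀ hq, zpow_neg,
      zpow_neg, ← ha, ← hxx, zpow_one]
  have k2 : qi q (N + 2) * D = a * x ^ 2 - a⁻¹ * (x ^ 2)⁻¹ := by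
    rw [hDD, qi_mul (by rw [← hDD]; exact hD), neg_add, zpow_add₀ hq, zpow_add₀ hq, zpow_neg,
      zpow_neg, ← ha, ← hxx]
    norm_cast
  have k3 : qi q (N - 1) * D = a * x⁻¹ - a⁻¹ * x := by
    rw [hDD, qi_mul (by rw [← hDD]; exact hD), neg_sub, zpow_sub₀ hq, zpow_sub₀ hq, ← ha, ← hxx,
      zpow_one, div_eq_mul_inv, div_eq_mul_inv]
    ring
  have k4 : qi q (N - 2) * D = a * (x ^ 2)⁻¹ - a⁻¹ * x ^ 2 := by
    have hx2 : x ^ (2 : ℤ) = x ^ 2 := by norm_cast
    rw [hDD, qi_mul (by rw [← hDD]; exact hD), neg_sub, zpow_sub₀ hq, zpow_sub₀ hq, ← ha, ← hxx,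
      hx2, div_eq_mul_inv, div_eq_mul_inv]
    ring
  have k5 : qi q 2 = x + x⁻¹ := by
    rw [qi_two (by rw [← hDD]; exact hD), hxx]
  -- the powers
  obtain ⟨y, hy⟩ : ∃ y : F, y = (q : F) ^ e := ⟨_, rfl⟩
  have hy0 : y ≠ 0 := by rw [hy]; exact zpow_ne_zero _ hq
  obtain ⟨w, hw⟩ : ∃ w : F, w = ((q : F) ^ N) ^ (-e) := ⟨_, rfl⟩
  have p0 : ((q : F) ^ (-e)) ^ N = w := by
    rw [hw, ← zpow_natCast ((q : F) ^ (-e)), ← zpow_natCast (q : F) N, ← zpow_mul, ← zpow_mul]
    congr 1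
    ring
  have p1 : ((q : F) ^ (2 - e)) ^ N = a ^ 2 * w := by
    rw [sub_eq_add_neg, zpow_add₀ hq, mul_pow, p0, ← haN]
    congr 1
    rw [← pow_mul, mul_comm N 2, pow_mul]
    norm_cast
  have p2 : ((q : F) ^ (-2 - e)) ^ N = (a ^ 2)⁻¹ * w := by
    rw [sub_eq_add_neg, zpow_add₀ hq, mul_pow, p0, ← haN]
    congr 1
    rw [← pow_mul, mul_comm N 2, pow_mul, zpow_neg, inv_pow]
    norm_cast
  have c1 : cp (q : F) e B = y * x ^ 3 + y⁻¹ * (x ^ 3)⁻¹ + (x + x⁻¹) * B := by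
    unfold cp
    have h1 : -e - 3 = -(e + 3) := by ring
    rw [h1, zpow_neg, zpow_add₀ hq, ← hy, ← hxx, mul_inv]
    norm_cast
  have c2 : cn (q : F) e B = y * (x ^ 3)⁻¹ + y⁻¹ * x ^ 3 + (x + x⁻¹) * B := by
    unfold cn
    have h1 : 3 - e = -(e - 3) := by ring
    rw [h1, zpow_neg, zpow_sub₀ hq, ← hy, ← hxx, div_eq_mul_inv, mul_inv, inv_inv]
    norm_cast
  have c3 : cz (q : F) e B = -(x + x⁻¹) * (y + y⁻¹) - (x ^ 2 + (x ^ 2)⁻¹) * ((x + x⁻¹) * B) := by
    unfold cz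
    rw [zpow_neg, zpow_neg, ← hy, ← hxx]
    norm_cast
  have hyi : (q : F) ^ (-e) = y⁻¹ := by rw [zpow_neg, ← hy]
  rw [p0, p1, p2, c1, c2, c3, ← hw, hyi, ← hy, ← hDD]
  -- clear the denominators
  have g1 : (qi q N * qi q (N + 1) * qi q (N + 2) / (qi q 2 * qi q 3) * y +
        qi q (N - 1) * qi q N * qi q (N + 1) / qi q 3 * B +
        qi q (N - 2) * qi q (N - 1) * qi q N / (qi q 2 * qi q 3) * y⁻¹) *
        (qi q 2 * qi q 3 * D ^ 2) =
      qi q N * ((qi q (N + 1) * D) * (qi q (N + 2) * D) * y +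
        (qi q (N - 1) * D) * (qi q (N + 1) * D) * (qi q 2 * B) +
        (qi q (N - 2) * D) * (qi q (N - 1) * D) * y⁻¹) := by
    field_simp
  rw [mul_assoc w, g1, k1, k2, k3, k4, k5]
  field_simp
  ring

theorem ends_two {x : F} (hx0 : x ≠ 0) (hx : Transcendental ℤ x) {e : ℤ} (he : Even e) {B : F}
    (h1 : cn x e B = 0) (h2 : cz x e B = 0) : e = 2 := by
  have hB : (x + x⁻¹) * B = -(x ^ (e - 3) + x ^ (3 - e)) := by
    unfold cn at h1
    linear_combination h1
  unfold cz at h2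
  rw [hB] at h2
  have hrel : -x ^ (e + 1) - x ^ (-e - 1) + x ^ (5 - e) + x ^ (e - 5) = 0 := by
    have a1 : x ^ (e + 1) = x * x ^ e := by rw [zpow_add₀ hx0, zpow_one, mul_comm]
    have a2 : x ^ (-e - 1) = x⁻¹ * x ^ (-e) := by
      rw [zpow_sub₀ hx0, zpow_one, div_eq_mul_inv, mul_comm]
    have a3 : x ^ (2 : ℤ) * x ^ (3 - e) = x ^ (5 - e) := by
      rw [← zpow_add₀ hx0]; congr 1; ring
    have a4 : x ^ (-2 : ℤ) * x ^ (e - 3) = x ^ (e - 5) := by
      rw [← zpow_add₀ hx0]; congr 1; ring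
    have a5 : x ^ (2 : ℤ) * x ^ (e - 3) = x⁻¹ * x ^ e := by
      rw [← zpow_add₀ hx0, ← zpow_neg_one, ← zpow_add₀ hx0]; congr 1; ring
    have a6 : x ^ (-2 : ℤ) * x ^ (3 - e) = x * x ^ (-e) := by
      rw [← zpow_add₀ hx0]
      nth_rw 2 [← zpow_one x]
      rw [← zpow_add₀ hx0]; congr 1; ring
    rw [a1, a2, ← a3, ← a4]
    linear_combination h2 - a5 - a6
  by_contra hne
  obtain ⟨k, hk⟩ := he
  have h := indepZ hx0 hx {e + 1, -e - 1, 5 - e, e - 5}
    (fun n => -(if n = e + 1 then 1 else 0) - (if n = -e - 1 then 1 else 0) +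
      (if n = 5 - e then 1 else 0) + (if n = e - 5 then 1 else 0)) (by
    have hsum : ∀ m ∈ ({e + 1, -e - 1, 5 - e, e - 5} : Finset ℤ),
        ∑ n ∈ ({e + 1, -e - 1, 5 - e, e - 5} : Finset ℤ),
          (((if n = m then 1 else 0 : ℤ)) : F) * x ^ n = x ^ m := by
      intro m hm
      rw [Finset.sum_eq_single m]
      · simp
      · intro n _ hn
        simp [hn]
      · intro hm'
        exact absurd hm hm'
    push_cast
    simp only [add_mul, sub_mul, neg_mul, Finset.sum_add_distrib, Finset.sum_sub_distrib,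
      Finset.sum_neg_distrib]
    have s1 := hsum (e + 1) (by simp)
    have s2 := hsum (-e - 1) (by simp)
    have s3 := hsum (5 - e) (by simp)
    have s4 := hsum (e - 5) (by simp)
    push_cast at s1 s2 s3 s4
    rw [s1, s2, s3, s4]
    exact hrel) (e + 1) (by simp)
  rw [if_pos rfl, if_neg (show ¬ e + 1 = -e - 1 by omega), if_neg (show ¬ e + 1 = 5 - e by omega),
    if_neg (show ¬ e + 1 = e - 5 by omega)] at h
  norm_num at h

end KRB

open KRB in
theorem krb : KRB_Stmt := by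
  intro F _ _ q htr e e' B B' he he' hlt h
  have hx0 : (q : F) ≠ 0 := q.ne_zero
  have hx := zpow_ne_one hx0 htr
  have hD : (q : F) - (q : F)⁻¹ ≠ 0 := by
    intro h0
    apply hx 2 (by norm_num)
    have h1 : (q : F) = (q : F)⁻¹ := sub_eq_zero.mp h0
    have h2 : (q : F) ^ (2 : ℤ) = (q : F) * (q : F) := by
      rw [zpow_two]
    rw [h2]
    nth_rw 2 [h1]
    exact mul_inv_cancel₀ hx0
  have key := six hx0 hx ![2 - e, -e, -2 - e, 2 - e', -e', -2 - e']
    ![cp (q : F) e B, cz (q : F) e B, cn (q : F) e B, -cp (q : F) e' B', -cz (q : F) e' B',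
      -cn (q : F) e' B'] (by
    intro N hN
    have h1 := glf_mul hx hD N e he B
    have h2 := glf_mul hx hD N e' he' B'
    rw [h N, h2] at h1
    have h3 := mul_left_cancel₀ (qi_ne hx hD N (by omega)) h1
    simp only [Fin.sum_univ_six, Matrix.cons_val_zero, Matrix.cons_val_one, Matrix.cons_val]
    linear_combination -h3)
  have r1 := key (-2 - e)
  have r2 := key (2 - e')
  have hcn : cn (q : F) e B = 0 := by
    rw [Fin.sum_univ_six] at r1
    change (if 2 - e = -2 - e then cp (q : F) e B else 0) +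
      (if -e = -2 - e then cz (q : F) e B else 0) +
      (if -2 - e = -2 - e then cn (q : F) e B else 0) +
      (if 2 - e' = -2 - e then -cp (q : F) e' B' else 0) +
      (if -e' = -2 - e then -cz (q : F) e' B' else 0) +
      (if -2 - e' = -2 - e then -cn (q : F) e' B' else 0) = 0 at r1
    rw [if_neg (by omega), if_neg (by omega), if_pos rfl, if_neg (by omega), if_neg (by omega),
      if_neg (by omega)] at r1
    simpa using r1
  have hcp : cp (q : F) e' B' = 0 := by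
    rw [Fin.sum_univ_six] at r2
    change (if 2 - e = 2 - e' then cp (q : F) e B else 0) +
      (if -e = 2 - e' then cz (q : F) e B else 0) +
      (if -2 - e = 2 - e' then cn (q : F) e B else 0) +
      (if 2 - e' = 2 - e' then -cp (q : F) e' B' else 0) +
      (if -e' = 2 - e' then -cz (q : F) e' B' else 0) +
      (if -2 - e' = 2 - e' then -cn (q : F) e' B' else 0) = 0 at r2
    rw [if_neg (by omega), if_neg (by omega), if_neg (by omega), if_pos rfl, if_neg (by omega),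
      if_neg (by omega)] at r2
    simpa using r2
  refine ⟨?_, ?_, ?_⟩
  · by_cases h2 : e = e' + 2
    · exact Or.inl h2
    · right
      obtain ⟨k, hk⟩ := he
      obtain ⟨k', hk'⟩ := he'
      have r3 := key (-e)
      have r4 := key (-e')
      have hcz : cz (q : F) e B = 0 := by
        rw [Fin.sum_univ_six] at r3
        change (if 2 - e = -e then cp (q : F) e B else 0) +
          (if -e = -e then cz (q : F) e B else 0) +
          (if -2 - e = -e then cn (q : F) e B else 0) +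
          (if 2 - e' = -e then -cp (q : F) e' B' else 0) +
          (if -e' = -e then -cz (q : F) e' B' else 0) +
          (if -2 - e' = -e then -cn (q : F) e' B' else 0) = 0 at r3
        rw [if_neg (by omega), if_pos rfl, if_neg (by omega), if_neg (by omega),
          if_neg (by omega), if_neg (by omega)] at r3
        simpa using r3
      have hcz' : cz (q : F) e' B' = 0 := by
        rw [Fin.sum_univ_six] at r4
        change (if 2 - e = -e' then cp (q : F) e B else 0) +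
          (if -e = -e' then cz (q : F) e B else 0) +
          (if -2 - e = -e' then cn (q : F) e B else 0) +
          (if 2 - e' = -e' then -cp (q : F) e' B' else 0) +
          (if -e' = -e' then -cz (q : F) e' B' else 0) +
          (if -2 - e' = -e' then -cn (q : F) e' B' else 0) = 0 at r4
        rw [if_neg (by omega), if_neg (by omega), if_neg (by omega), if_neg (by omega),
          if_pos rfl, if_neg (by omega)] at r4
        simpa using r4
      refine ⟨ends_two hx0 htr ⟨k, hk⟩ hcn hcz, ?_⟩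
      -- the mirror image
      have hcn' : cn (q : F) (-e') B' = 0 := by
        unfold cn
        unfold cp at hcp
        have e1 : 3 - -e' = e' + 3 := by ring
        rw [e1]
        linear_combination hcp
      have hcz'' : cz (q : F) (-e') B' = 0 := by
        unfold cz
        unfold cz at hcz'
        rw [neg_neg]
        linear_combination hcz'
      have h5 := ends_two hx0 htr (e := -e') ⟨-k', by omega⟩ hcn' hcz''
      omega
  · rw [Units.val_zpow_eq_zpow_val, Units.val_zpow_eq_zpow_val, Units.val_inv_eq_inv_val]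
    unfold cn at hcn
    linear_combination hcn
  · rw [Units.val_zpow_eq_zpow_val, Units.val_zpow_eq_zpow_val, Units.val_inv_eq_inv_val]
    unfold cp at hcp
    linear_combination hcp

end Pool.Agent.T3
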