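import Pool.Agent.T3.Stmts3

/-!
MIRR: mirror images of 3-braids.
-/

namespace Pool.Agent.T3

open Pool.Agent.TB Pool.Agent.LibH11

namespace MIRR

@[simp] theorem mir_sg {n : ℕ} (i : Fin n) : mir (sg i : Br n) = (sg i)⁻¹ := by
  simp [mir]

theorem hom_ext {n : ℕ} {G : Type} [Group G] {φ ψ : Br n →* G}
    (h : ∀ i, φ (sg i) = ψ (sg i)) : φ = ψ :=
  PresentedGroup.ext h

/-- the exponent sum as a homomorphism -/
def eh (n : ℕ) : Br n →* Multiplicative ℤ :=
  liftBr (fun _ => Multiplicative.ofAdd (1 : ℤ)) (fun _ _ _ => rfl) (fun _ _ _ => rfl)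

theorem expSum_eq {n : ℕ} (b : Br n) : expSum b = Multiplicative.toAdd (eh n b) := rfl

theorem expSum_mir {n : ℕ} (b : Br n) : expSum (mir b) = -expSum b := by
  have h : (eh n).comp mir = (eh n)⁻¹ := by
    apply hom_ext
    intro i
    simp
  have := DFunLike.congr_fun h b
  simp only [MonoidHom.comp_apply, MonoidHom.inv_apply] at this
  rw [expSum_eq, this, toAdd_inv, expSum_eq]

theorem mir_mir {n : ℕ} (b : Br n) : mir (mir b) = b := by
  have h : (mir (n := n)).comp mir = MonoidHom.id (Br n) := by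
    apply hom_ext
    intro i
    simp
  have := DFunLike.congr_fun h b
  simpa using this

theorem perm_mir {n : ℕ} (b : Br n) : perm (mir b) = perm b := by
  have h : (perm (n := n)).comp mir = perm := by
    apply hom_ext
    intro i
    simp [perm]
  have := DFunLike.congr_fun h b
  simpa using this

/-- conjugation with `diag(1,-1)` -/
def cj1 : Matrix.SpecialLinearGroup (Fin 2) ℤ →* Matrix.SpecialLinearGroup (Fin 2) ℤ where
  toFun M := ⟨!![M.1 0 0, -M.1 0 1; -M.1 1 0, M.1 1 1], by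
    have h := M.2
    rw [Matrix.det_fin_two] at h
    rw [Matrix.det_fin_two_of]
    linarith⟩
  map_one' := by
    ext a b
    fin_cases a <;> fin_cases b <;> simp
  map_mul' M N := by
    apply Subtype.ext
    show !![(M.1 * N.1) 0 0, -(M.1 * N.1) 0 1; -(M.1 * N.1) 1 0, (M.1 * N.1) 1 1] =
      !![M.1 0 0, -M.1 0 1; -M.1 1 0, M.1 1 1] * !![N.1 0 0, -N.1 0 1; -N.1 1 0, N.1 1 1]
    ext a b
    fin_cases a <;> fin_cases b <;> simp [Matrix.mul_apply, Fin.sum_univ_two] <;> ring

theorem trace_cj1 (M : Matrix.SpecialLinearGroup (Fin 2) ℤ) : (cj1 M).1.trace = M.1.trace := by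
  show Matrix.trace !![M.1 0 0, -M.1 0 1; -M.1 1 0, M.1 1 1] = _
  simp [Matrix.trace_fin_two]

theorem rho_mir (b : Br 2) : rho (mir b) = cj1 (rho b) := by
  have h : rho.comp mir = cj1.comp rho := by
    apply hom_ext
    intro i
    have e0 : mD⁻¹ = cj1 mD := by
      apply Subtype.ext
      show Matrix.adjugate !![(1 : ℤ), 0; 1, 1] = !![1, -0; -1, 1]
      rw [Matrix.adjugate_fin_two_of]
    have e1 : mC⁻¹ = cj1 mC := by
      apply Subtype.ext
      show Matrix.adjugate !![(1 : ℤ), -1; 0, 1] = !![1, - -1; -0, 1]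
      rw [Matrix.adjugate_fin_two_of]
    have hi : i = 0 ∨ i = 1 := by omega
    rcases hi with rfl | rfl
    · simpa [rho] using e0
    · simpa [rho] using e1
  exact DFunLike.congr_fun h b

end MIRR

open MIRR in
/-- MIRR: mirror images. -/
theorem mirr (h1 : HECU_Stmt) (h2 : HBX_Stmt) : MIRR_Stmt := by
  refine ⟨fun b => ⟨expSum_mir b, mir_mir b, ?_, ?_⟩, ?_⟩
  · intro h x y
    rw [perm_mir]
    exact h x y
  · rw [rho_mir, trace_cj1]
  · intro A _ q β β' hβ hβ' b
    obtain ⟨-, h3⟩ := h2 A q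
    obtain ⟨-, g1, g2, g3, g4⟩ := h3 β hβ
    obtain ⟨-, h4⟩ := h2 A q⁻¹
    obtain ⟨-, f1, f2, f3, f4⟩ := h4 β' hβ'
    rw [inv_inv] at f2 f4
    refine h1 A ((q : A) - ((q⁻¹ : Aˣ) : A)) (fun b => tb β' (mir b)) (tb β) ?_ (fun a b => (g4 a b).1)
      ?_ (fun a b i => (g4 a b).2 i) ?_ ?_ ?_ b
    · intro a b
      show tb β' (mir (a * b)) = tb β' (mir (b * a))
      rw [map_mul, map_mul, (f4 _ _).1]
    · intro a b i
      show tb β' (mir (a * sg i * b)) = tb β' (mir (a * (sg i)⁻¹ * b)) + _ * tb β' (mir (a * b))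
      simp only [map_mul, map_inv, mir_sg, inv_inv]
      rw [(f4 (mir a) (mir b)).2 i]
      ring
    · show tb β' (mir 1) = tb β 1
      rw [map_one, f1, g1]
    · show tb β' (mir (sg 0)) = tb β (sg 0)
      rw [mir_sg, g2]
      have := (f4 1 1).2 0
      simp only [one_mul, mul_one] at this
      rw [f1, f2] at this
      linear_combination -this
    · show tb β' (mir (sg 0 * sg 1)) = tb β (sg 0 * sg 1)
      rw [map_mul, mir_sg, mir_sg, g3]
      have e1 := (f4 1 (sg 1)⁻¹).2 0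
      have e2 := (f4 (sg 0) 1).2 1
      have e3 := (f4 1 1).2 1
      simp only [one_mul, mul_one] at e1 e2 e3
      have e4 : tb β' (sg 1) = ((q⁻¹ : Aˣ) : A) - (q : A) := by
        rw [tb, hβ'.2, Matrix.trace_fin_two]
        simp
        ring
      rw [f3, f2] at e2
      rw [f1, e4] at e3
      linear_combination -e1 - e2 + (((q⁻¹ : Aˣ) : A) - (q : A)) * e3

end Pool.Agent.T3
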