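import Pool.Agent.T3.Stmts3

/-!
Murasugi's normal form. See PAPER3.md in this folder, paragraph NORM.
-/

namespace Pool.Agent.T3.NORM

open Pool.Agent.TB Pool.Agent.LibH11

theorem rho_s0 : rho (sg 0) = mD := by
  rw [rho, liftBr_sg]
  simp

theorem rho_s1 : rho (sg 1) = mC := by
  rw [rho, liftBr_sg]
  simp

theorem rho_z : rho ((sg 0 * sg 1 : Br 2) ^ 3) = -1 := by
  rw [map_pow, map_mul, rho_s0, rho_s1]
  ext a b
  fin_cases a <;> fin_cases b <;>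
    simp [mD, mC, pow_succ, Matrix.mul_apply, Fin.sum_univ_two]

/-- Lifting a conjugation. -/
theorem lift (h2 : KER3_Stmt) {b : Br 2} {w : List Bool} {j : ℤ}
    (h : IsConj (rho ((sg 0 * sg 1 : Br 2) ^ (3 * j) * b)) (rho (pw w))) :
    ∃ k : ℤ, IsConj b ((sg 0 * sg 1 : Br 2) ^ (3 * k) * pw w) := by
  obtain ⟨hk, hz, hs⟩ := h2
  rw [isConj_iff] at h
  obtain ⟨c, hc⟩ := h
  obtain ⟨γ, rfl⟩ := hs c
  have h1 : rho (γ * ((sg 0 * sg 1 : Br 2) ^ (3 * j) * b) * γ⁻¹ * (pw w)⁻¹) = 1 := by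
    rw [map_mul, map_mul, map_mul, map_inv, map_inv, hc, mul_inv_cancel]
  obtain ⟨k, hk⟩ := hk _ h1
  have hzc : ∀ (m : ℤ) (g : Br 2), (sg 0 * sg 1 : Br 2) ^ (3 * m) * g = g * (sg 0 * sg 1 : Br 2) ^ (3 * m) := by
    intro m g
    have h3 : Commute ((sg 0 * sg 1 : Br 2) ^ 3) g := hz g
    have h4 := h3.zpow_left m
    rw [zpow_mul]
    exact h4
  refine ⟨2 * k - j, ?_⟩
  rw [isConj_iff]
  refine ⟨γ, ?_⟩
  have h5 : γ * ((sg 0 * sg 1 : Br 2) ^ (3 * j) * b) * γ⁻¹ = (sg 0 * sg 1 : Br 2) ^ (6 * k) * pw w := by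
    rw [← hk]
    group
  have h6 : γ * ((sg 0 * sg 1 : Br 2) ^ (3 * j) * b) * γ⁻¹ = (sg 0 * sg 1 : Br 2) ^ (3 * j) * (γ * b * γ⁻¹) := by
    rw [← mul_assoc γ, ← hzc j γ]
    simp only [mul_assoc]
  rw [h6] at h5
  have h7 : γ * b * γ⁻¹ = ((sg 0 * sg 1 : Br 2) ^ (3 * j))⁻¹ * ((sg 0 * sg 1 : Br 2) ^ (6 * k) * pw w) := by
    rw [← h5]
    group
  rw [h7, ← mul_assoc, ← zpow_neg, ← zpow_add]
  congr 2
  ring

end Pool.Agent.T3.NORM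

namespace Pool.Agent.T3

open Pool.Agent.TB Pool.Agent.LibH11

/-- Murasugi's normal form. -/
theorem norm (h1 : RED_Stmt) (h2 : KER3_Stmt) (_h3 : WORD_Stmt) : NORM_Stmt := by
  intro b hb
  rcases lt_abs.1 hb with h | h
  · obtain ⟨w, hf, ht, hc⟩ := h1 (rho b) h
    obtain ⟨k, hk⟩ := NORM.lift h2 (j := 0) (b := b) (w := w) (by simpa using hc)
    exact ⟨k, w, hf, ht, hk⟩
  · have h4 : rho ((sg 0 * sg 1) ^ (3 * (1 : ℤ)) * b) = -rho b := by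
      have h5 : ((sg 0 * sg 1 : Br 2) ^ (3 * (1 : ℤ))) = (sg 0 * sg 1 : Br 2) ^ 3 := by
        rw [mul_one]; rfl
      rw [h5, map_mul, NORM.rho_z, neg_one_mul]
    obtain ⟨w, hf, ht, hc⟩ := h1 (rho ((sg 0 * sg 1) ^ (3 * (1 : ℤ)) * b)) (by
      rw [h4, Matrix.SpecialLinearGroup.coe_neg, Matrix.trace_neg]
      exact h)
    obtain ⟨k, hk⟩ := NORM.lift h2 hc
    exact ⟨k, w, hf, ht, hk⟩

end Pool.Agent.T3
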