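import Pool.Agent.T3.Stmts3

/-!
RED: a hyperbolic matrix of positive trace is conjugate to a positive one, which is a product of
the two positive unipotent matrices. See PAPER3.md.
-/

namespace Pool.Agent.T3

open Pool.Agent.TB Pool.Agent.LibH11

namespace RED

abbrev SL := Matrix.SpecialLinearGroup (Fin 2) ℤ

/-- `(a b; c d)` -/
def mk (a b c d : ℤ) (h : a * d - b * c = 1) : SL :=
  ⟨!![a, b; c, d], by rw [Matrix.det_fin_two_of]; exact h⟩

theorem ext4 (M N : SL) (h00 : M.1 0 0 = N.1 0 0) (h01 : M.1 0 1 = N.1 0 1)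
    (h10 : M.1 1 0 = N.1 1 0) (h11 : M.1 1 1 = N.1 1 1) : M = N := by
  apply Subtype.ext
  ext i j
  fin_cases i <;> fin_cases j
  · exact h00
  · exact h01
  · exact h10
  · exact h11

theorem rho0 : rho (sg 0) = mD := by
  simp [rho]

theorem rho1 : rho (sg 1) = mC := by
  simp [rho]

/-- `(1 1; 0 1)` -/
def mU : SL := mk 1 1 0 1 (by norm_num)

theorem rho1i : rho (sg 1)⁻¹ = mU := by
  rw [map_inv, rho1, inv_eq_iff_mul_eq_one]
  apply Subtype.ext
  ext i j
  fin_cases i <;> fin_cases j <;>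
    simp [mC, mU, mk, Matrix.mul_apply, Fin.sum_univ_two]

theorem mulU (M : SL) : (mU * M).1 0 0 = M.1 0 0 + M.1 1 0 ∧ (mU * M).1 0 1 = M.1 0 1 + M.1 1 1 ∧
    (mU * M).1 1 0 = M.1 1 0 ∧ (mU * M).1 1 1 = M.1 1 1 := by
  refine ⟨?_, ?_, ?_, ?_⟩ <;>
    simp [mU, mk, Matrix.mul_apply, Fin.sum_univ_two]

theorem mulD (M : SL) : (mD * M).1 0 0 = M.1 0 0 ∧ (mD * M).1 0 1 = M.1 0 1 ∧
    (mD * M).1 1 0 = M.1 0 0 + M.1 1 0 ∧ (mD * M).1 1 1 = M.1 0 1 + M.1 1 1 := by
  refine ⟨?_, ?_, ?_, ?_⟩ <;>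
    simp [mD, Matrix.mul_apply, Fin.sum_univ_two]

theorem rho_pw_false (w : List Bool) : rho (pw (false :: w)) = mD * rho (pw w) := by
  rw [pw, map_mul, rho0]

theorem rho_pw_true (w : List Bool) : rho (pw (true :: w)) = mU * rho (pw w) := by
  rw [pw, map_mul, rho1i]

theorem rho_pw_nil : rho (pw []) = 1 := by
  rw [pw, map_one]

theorem euclid : ∀ (n : ℕ) (M : SL), 0 ≤ M.1 0 0 → 0 ≤ M.1 0 1 → 0 ≤ M.1 1 0 → 0 ≤ M.1 1 1 →
    M.1 0 0 + M.1 0 1 + M.1 1 0 + M.1 1 1 ≤ n → ∃ w : List Bool, rho (pw w) = M := by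
  intro n
  induction n using Nat.strong_induction_on with
  | _ n ih =>
    intro M ha hb hc hd hn
    have hdet : M.1 0 0 * M.1 1 1 - M.1 0 1 * M.1 1 0 = 1 := by
      rw [← Matrix.det_fin_two]; exact M.2
    by_cases h1 : M.1 1 0 ≤ M.1 0 0 ∧ M.1 1 1 ≤ M.1 0 1
    · have hpos : 0 < M.1 1 0 + M.1 1 1 := by
        rcases hc.lt_or_eq with h | h
        · linarith
        · rcases hd.lt_or_eq with h' | h'
          · linarith
          · rw [← h, ← h'] at hdet; norm_num at hdet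
      obtain ⟨w, hw⟩ := ih (M.1 0 0 - M.1 1 0 + (M.1 0 1 - M.1 1 1) + M.1 1 0 + M.1 1 1).toNat
        (by omega)
        (mk (M.1 0 0 - M.1 1 0) (M.1 0 1 - M.1 1 1) (M.1 1 0) (M.1 1 1) (by linarith))
        (by show 0 ≤ M.1 0 0 - M.1 1 0; linarith [h1.1])
        (by show 0 ≤ M.1 0 1 - M.1 1 1; linarith [h1.2])
        hc hd (by
          show M.1 0 0 - M.1 1 0 + (M.1 0 1 - M.1 1 1) + M.1 1 0 + M.1 1 1 ≤ _
          exact Int.self_le_toNat _)
      refine ⟨true :: w, ?_⟩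
      rw [rho_pw_true, hw]
      obtain ⟨h00, h01, h10, h11⟩ :=
        mulU (mk (M.1 0 0 - M.1 1 0) (M.1 0 1 - M.1 1 1) (M.1 1 0) (M.1 1 1) (by linarith))
      apply ext4
      · rw [h00]; show M.1 0 0 - M.1 1 0 + M.1 1 0 = M.1 0 0; ring
      · rw [h01]; show M.1 0 1 - M.1 1 1 + M.1 1 1 = M.1 0 1; ring
      · rw [h10]; rfl
      · rw [h11]; rfl
    · by_cases h2 : M.1 0 0 ≤ M.1 1 0 ∧ M.1 0 1 ≤ M.1 1 1
      · have hpos : 0 < M.1 0 0 + M.1 0 1 := by
          rcases ha.lt_or_eq with h | h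
          · linarith
          · rcases hb.lt_or_eq with h' | h'
            · linarith
            · rw [← h, ← h'] at hdet; norm_num at hdet
        obtain ⟨w, hw⟩ := ih (M.1 0 0 + M.1 0 1 + (M.1 1 0 - M.1 0 0) + (M.1 1 1 - M.1 0 1)).toNat
          (by omega)
          (mk (M.1 0 0) (M.1 0 1) (M.1 1 0 - M.1 0 0) (M.1 1 1 - M.1 0 1) (by linarith))
          ha hb
          (by show 0 ≤ M.1 1 0 - M.1 0 0; linarith [h2.1])
          (by show 0 ≤ M.1 1 1 - M.1 0 1; linarith [h2.2])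
          (by
            show M.1 0 0 + M.1 0 1 + (M.1 1 0 - M.1 0 0) + (M.1 1 1 - M.1 0 1) ≤ _
            exact Int.self_le_toNat _)
        refine ⟨false :: w, ?_⟩
        rw [rho_pw_false, hw]
        obtain ⟨h00, h01, h10, h11⟩ :=
          mulD (mk (M.1 0 0) (M.1 0 1) (M.1 1 0 - M.1 0 0) (M.1 1 1 - M.1 0 1) (by linarith))
        apply ext4
        · rw [h00]; rfl
        · rw [h01]; rfl
        · rw [h10]; show M.1 0 0 + (M.1 1 0 - M.1 0 0) = M.1 1 0; ring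
        · rw [h11]; show M.1 0 1 + (M.1 1 1 - M.1 0 1) = M.1 1 1; ring
      · -- the identity
        refine ⟨[], ?_⟩
        rw [rho_pw_nil]
        rcases lt_or_ge (M.1 1 0) (M.1 0 0) with h | h
        · have hbd : M.1 0 1 < M.1 1 1 := by
            by_contra hcon
            exact h1 ⟨h.le, not_lt.mp hcon⟩
          have key : (M.1 1 0 + 1) * (M.1 0 1 + 1) ≤ M.1 0 0 * M.1 1 1 :=
            mul_le_mul (by omega) (by omega) (by omega) ha
          have hb0 : M.1 0 1 = 0 := by nlinarith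
          have hc0 : M.1 1 0 = 0 := by nlinarith
          have had : M.1 0 0 * M.1 1 1 = 1 := by rw [hb0, hc0] at hdet; linarith
          have ha1 : M.1 0 0 = 1 := by nlinarith
          have hd1 : M.1 1 1 = 1 := by rw [ha1] at had; linarith
          symm
          apply ext4
          · rw [ha1]; rfl
          · rw [hb0]; rfl
          · rw [hc0]; rfl
          · rw [hd1]; rfl
        · exfalso
          have hbd : M.1 1 1 < M.1 0 1 := by
            by_contra hcon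
            exact h2 ⟨h, not_lt.mp hcon⟩
          nlinarith

theorem noFalse : ∀ w : List Bool, false ∉ w →
    (rho (pw w)).1 0 0 = 1 ∧ (rho (pw w)).1 1 0 = 0 ∧ (rho (pw w)).1 1 1 = 1 := by
  intro w
  induction w with
  | nil => intro _; rw [rho_pw_nil]; exact ⟨rfl, rfl, rfl⟩
  | cons x l ih =>
    intro h
    cases x with
    | false => exact absurd List.mem_cons_self h
    | true =>
      obtain ⟨h1, h2, h3⟩ := ih (fun hm => h (List.mem_cons_of_mem _ hm))
      rw [rho_pw_true]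
      obtain ⟨h00, h01, h10, h11⟩ := mulU (rho (pw l))
      rw [h00, h10, h11, h1, h2, h3]
      norm_num

theorem noTrue : ∀ w : List Bool, true ∉ w →
    (rho (pw w)).1 0 0 = 1 ∧ (rho (pw w)).1 0 1 = 0 ∧ (rho (pw w)).1 1 1 = 1 := by
  intro w
  induction w with
  | nil => intro _; rw [rho_pw_nil]; exact ⟨rfl, rfl, rfl⟩
  | cons x l ih =>
    intro h
    cases x with
    | true => exact absurd List.mem_cons_self h
    | false =>
      obtain ⟨h1, h2, h3⟩ := ih (fun hm => h (List.mem_cons_of_mem _ hm))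
      rw [rho_pw_false]
      obtain ⟨h00, h01, h10, h11⟩ := mulD (rho (pw l))
      rw [h00, h01, h11, h1, h2, h3]
      norm_num

/-- `(1 k; 0 1)` -/
def uu (k : ℤ) : SL := mk 1 k 0 1 (by ring)

/-- `(1 0; k 1)` -/
def ll (k : ℤ) : SL := mk 1 0 k 1 (by ring)

/-- `(0 -1; 1 0)` -/
def ss : SL := mk 0 (-1) 1 0 (by norm_num)

theorem conj_uu (M : SL) (k : ℤ) : ∃ N : SL, IsConj M N ∧ N.1 0 0 = M.1 0 0 + k * M.1 1 0 ∧
    N.1 1 0 = M.1 1 0 ∧ N.1 1 1 = M.1 1 1 - k * M.1 1 0 := by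
  have hdet : M.1 0 0 * M.1 1 1 - M.1 0 1 * M.1 1 0 = 1 := by
    rw [← Matrix.det_fin_two]; exact M.2
  refine ⟨mk (M.1 0 0 + k * M.1 1 0) (-k * (M.1 0 0 + k * M.1 1 0) + M.1 0 1 + k * M.1 1 1)
    (M.1 1 0) (M.1 1 1 - k * M.1 1 0) (by linear_combination hdet), ?_, rfl, rfl, rfl⟩
  rw [isConj_iff]
  refine ⟨uu k, ?_⟩
  rw [mul_inv_eq_iff_eq_mul]
  apply Subtype.ext
  ext i j
  fin_cases i <;> fin_cases j <;>
    simp [uu, mk, Matrix.mul_apply, Fin.sum_univ_two] <;> ring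

theorem conj_ll (M : SL) (k : ℤ) : ∃ N : SL, IsConj M N ∧ N.1 0 0 = M.1 0 0 - k * M.1 0 1 ∧
    N.1 0 1 = M.1 0 1 ∧ N.1 1 1 = M.1 1 1 + k * M.1 0 1 := by
  have hdet : M.1 0 0 * M.1 1 1 - M.1 0 1 * M.1 1 0 = 1 := by
    rw [← Matrix.det_fin_two]; exact M.2
  refine ⟨mk (M.1 0 0 - k * M.1 0 1) (M.1 0 1)
    (M.1 1 0 + k * M.1 0 0 - k * (M.1 1 1 + k * M.1 0 1)) (M.1 1 1 + k * M.1 0 1)
    (by linear_combination hdet), ?_, rfl, rfl, rfl⟩
  rw [isConj_iff]
  refine ⟨ll k, ?_⟩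
  rw [mul_inv_eq_iff_eq_mul]
  apply Subtype.ext
  ext i j
  fin_cases i <;> fin_cases j <;>
    simp [ll, mk, Matrix.mul_apply, Fin.sum_univ_two] <;> ring

theorem conj_ss (M : SL) : ∃ N : SL, IsConj M N ∧ N.1 0 0 = M.1 1 1 ∧
    N.1 0 1 = -M.1 1 0 ∧ N.1 1 0 = -M.1 0 1 ∧ N.1 1 1 = M.1 0 0 := by
  have hdet : M.1 0 0 * M.1 1 1 - M.1 0 1 * M.1 1 0 = 1 := by
    rw [← Matrix.det_fin_two]; exact M.2
  refine ⟨mk (M.1 1 1) (-M.1 1 0) (-M.1 0 1) (M.1 0 0)
    (by linear_combination hdet), ?_, rfl, rfl, rfl, rfl⟩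
  rw [isConj_iff]
  refine ⟨ss, ?_⟩
  rw [mul_inv_eq_iff_eq_mul]
  apply Subtype.ext
  ext i j
  fin_cases i <;> fin_cases j <;>
    simp [ss, mk, Matrix.mul_apply, Fin.sum_univ_two]

theorem trace_eq (M : SL) : M.1.trace = M.1 0 0 + M.1 1 1 := Matrix.trace_fin_two _

theorem shrink (D c : ℤ) (hc : c ≠ 0) (h : 4 * (c * c) < D * D) :
    ∃ k : ℤ, (D - 2 * (k * c)).natAbs < D.natAbs := by
  rcases lt_or_gt_of_ne hc with hc' | hc'
  · rcases le_or_gt 0 D with hD | hD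
    · refine ⟨-1, ?_⟩
      have : -(2 * c) < D := by nlinarith
      omega
    · refine ⟨1, ?_⟩
      have : D < 2 * c := by nlinarith
      omega
  · rcases le_or_gt 0 D with hD | hD
    · refine ⟨1, ?_⟩
      have : 2 * c < D := by nlinarith
      omega
    · refine ⟨-1, ?_⟩
      have : D < -(2 * c) := by nlinarith
      omega

theorem positive : ∀ (n : ℕ) (M : SL), 2 < M.1.trace → (M.1 1 1 - M.1 0 0).natAbs = n →
    ∃ N : SL, IsConj M N ∧ 2 < N.1.trace ∧ 0 ≤ N.1 0 0 ∧ 0 ≤ N.1 0 1 ∧ 0 ≤ N.1 1 0 ∧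
      0 ≤ N.1 1 1 := by
  intro n
  induction n using Nat.strong_induction_on with
  | _ n ih =>
    intro M ht hn
    have hdet : M.1 0 0 * M.1 1 1 - M.1 0 1 * M.1 1 0 = 1 := by
      rw [← Matrix.det_fin_two]; exact M.2
    have ht' : 2 < M.1 0 0 + M.1 1 1 := by rw [← trace_eq]; exact ht
    rcases lt_trichotomy (M.1 0 1 * M.1 1 0) 0 with hbc | hbc | hbc
    · -- opposite signs
      have hD : (M.1 1 1 - M.1 0 0) * (M.1 1 1 - M.1 0 0) >
          -(4 * (M.1 0 1 * M.1 1 0)) := by nlinarith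
      have hb0 : M.1 0 1 ≠ 0 := by
        intro h; rw [h] at hbc; simp at hbc
      have hc0 : M.1 1 0 ≠ 0 := by
        intro h; rw [h] at hbc; simp at hbc
      have habs : |M.1 0 1| * |M.1 1 0| = -(M.1 0 1 * M.1 1 0) := by
        rw [← abs_mul, abs_of_neg hbc]
      rcases le_total |M.1 1 0| |M.1 0 1| with hle | hle
      · have h4 : 4 * (M.1 1 0 * M.1 1 0) < (M.1 1 1 - M.1 0 0) * (M.1 1 1 - M.1 0 0) := by
          have h5 : |M.1 1 0| * |M.1 1 0| ≤ |M.1 0 1| * |M.1 1 0| :=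
            mul_le_mul_of_nonneg_right hle (abs_nonneg _)
          rw [abs_mul_abs_self] at h5
          linarith
        obtain ⟨k, hk⟩ := shrink _ _ hc0 h4
        obtain ⟨N, hN, h1, h2, h3⟩ := conj_uu M k
        have htN : 2 < N.1.trace := by rw [trace_eq, h1, h3]; linarith
        have hlt : (N.1 1 1 - N.1 0 0).natAbs < n := by
          rw [h1, h3, ← hn]
          have : M.1 1 1 - k * M.1 1 0 - (M.1 0 0 + k * M.1 1 0) =
            M.1 1 1 - M.1 0 0 - 2 * (k * M.1 1 0) := by ring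
          rw [this]; exact hk
        obtain ⟨N', hN', rest⟩ := ih _ hlt N htN rfl
        exact ⟨N', hN.trans hN', rest⟩
      · have h4 : 4 * (M.1 0 1 * M.1 0 1) < (M.1 1 1 - M.1 0 0) * (M.1 1 1 - M.1 0 0) := by
          have h5 : |M.1 0 1| * |M.1 0 1| ≤ |M.1 0 1| * |M.1 1 0| :=
            mul_le_mul_of_nonneg_left hle (abs_nonneg _)
          rw [abs_mul_abs_self] at h5
          linarith
        obtain ⟨k, hk⟩ := shrink _ _ hb0 h4
        obtain ⟨N, hN, h1, h2, h3⟩ := conj_ll M (-k)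
        have htN : 2 < N.1.trace := by rw [trace_eq, h1, h3]; linarith
        have hlt : (N.1 1 1 - N.1 0 0).natAbs < n := by
          rw [h1, h3, ← hn]
          have : M.1 1 1 + -k * M.1 0 1 - (M.1 0 0 - -k * M.1 0 1) =
            M.1 1 1 - M.1 0 0 - 2 * (k * M.1 0 1) := by ring
          rw [this]; exact hk
        obtain ⟨N', hN', rest⟩ := ih _ hlt N htN rfl
        exact ⟨N', hN.trans hN', rest⟩
    · exfalso
      have had : M.1 0 0 * M.1 1 1 = 1 := by linarith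
      rcases Int.mul_eq_one_iff_eq_one_or_neg_one.mp had with ⟨h1, h2⟩ | ⟨h1, h2⟩
      · rw [h1, h2] at ht'; norm_num at ht'
      · rw [h1, h2] at ht'; norm_num at ht'
    · have had : 0 < M.1 0 0 * M.1 1 1 := by linarith
      have hapos : 0 < M.1 0 0 := by
        rcases pos_and_pos_or_neg_and_neg_of_mul_pos had with h | h
        · exact h.1
        · linarith [h.1, h.2]
      have hdpos : 0 < M.1 1 1 := by
        rcases pos_and_pos_or_neg_and_neg_of_mul_pos had with h | h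
        · exact h.2
        · linarith [h.1, h.2]
      rcases pos_and_pos_or_neg_and_neg_of_mul_pos hbc with h | h
      · exact ⟨M, IsConj.refl M, ht, hapos.le, h.1.le, h.2.le, hdpos.le⟩
      · obtain ⟨N, hN, h1, h2, h3, h4⟩ := conj_ss M
        refine ⟨N, hN, ?_, ?_, ?_, ?_, ?_⟩
        · rw [trace_eq, h1, h4]; linarith
        · rw [h1]; exact hdpos.le
        · rw [h2]; linarith [h.2]
        · rw [h3]; linarith [h.1]
        · rw [h4]; exact hapos.le

end RED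

open RED in
/-- The module theorem. -/
theorem red : RED_Stmt := by
  intro M ht
  obtain ⟨N, hN, htN, ha, hb, hc, hd⟩ := positive _ M ht rfl
  obtain ⟨w, hw⟩ := euclid (N.1 0 0 + N.1 0 1 + N.1 1 0 + N.1 1 1).toNat N ha hb hc hd
    (Int.self_le_toNat _)
  refine ⟨w, ?_, ?_, ?_⟩
  · by_contra hf
    obtain ⟨h1, h2, h3⟩ := noFalse w hf
    rw [hw] at h1 h3
    rw [trace_eq, h1, h3] at htN
    norm_num at htN
  · by_contra hf
    obtain ⟨h1, h2, h3⟩ := noTrue w hf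
    rw [hw] at h1 h3
    rw [trace_eq, h1, h3] at htN
    norm_num at htN
  · rw [hw]; exact hN

end Pool.Agent.T3
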