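import Pool.Agent.T3.Stmts3
import Pool.Agent.LibH11.Fg

/-!
Finite type invariants of closed 3-braids, module STB: closures.
-/

open scoped BigOperators

namespace Pool.Agent.T3

open Pool.Agent.TB Pool.Agent.LibH11

namespace STB

theorem expSum_mul {n : ℕ} (a b : Br n) : expSum (a * b) = expSum a + expSum b := by
  unfold expSum
  rw [map_mul, toAdd_mul]

theorem isKnot_of_isConj {n : ℕ} {b b' : Br n} (hc : IsConj b b') (h : IsKnot b) : IsKnot b' := by
  obtain ⟨a, rfl⟩ := isConj_iff.mp hc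
  exact (isKnot_conj a b).mpr h

theorem closure_conj {n : ℕ} {b b' : Br n} (h : IsKnot b) (h' : IsKnot b') (hc : IsConj b b') :
    closure b h = closure b' h' := by
  obtain ⟨a, rfl⟩ := isConj_iff.mp hc
  exact Quot.sound (r := fun x y : KnotBraid => MarkovMove x.1 y.1)
    (a := ⟨⟨n, b⟩, h⟩) (b := ⟨⟨n, a * b * a⁻¹⟩, h'⟩) (MarkovMove.conj n a b)

theorem incl_pow (N : ℤ) : incl (sg 0 ^ N : Br 1) = (sg 0 ^ N : Br 2) := by
  rw [map_zpow]
  congr 1

theorem last_eq : (Fin.last 1 : Fin 2) = 1 := rfl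

theorem closure_pos (N : ℤ) (h : IsKnot (sg 0 ^ N * sg 1 : Br 2)) (h0 : IsKnot (sg 0 ^ N : Br 1)) :
    closure (sg 0 ^ N : Br 1) h0 = closure (sg 0 ^ N * sg 1 : Br 2) h := by
  have h1 : (sg 0 ^ N * sg 1 : Br 2) = incl (sg 0 ^ N : Br 1) * sg (Fin.last 1) := by
    rw [incl_pow, last_eq]
  have h2 : IsKnot (incl (sg 0 ^ N : Br 1) * sg (Fin.last 1)) := by
    rw [← h1]
    exact h
  have h3 : closure (sg 0 ^ N * sg 1 : Br 2) h =
      closure (incl (sg 0 ^ N : Br 1) * sg (Fin.last 1)) h2 := by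
    congr 1
  rw [h3]
  exact Quot.sound (r := fun x y : KnotBraid => MarkovMove x.1 y.1)
    (a := ⟨⟨1, sg 0 ^ N⟩, h0⟩) (b := ⟨⟨2, incl (sg 0 ^ N : Br 1) * sg (Fin.last 1)⟩, h2⟩)
    (MarkovMove.stabPos 1 _)

theorem closure_neg (N : ℤ) (h : IsKnot (sg 0 ^ N * (sg 1)⁻¹ : Br 2))
    (h0 : IsKnot (sg 0 ^ N : Br 1)) :
    closure (sg 0 ^ N : Br 1) h0 = closure (sg 0 ^ N * (sg 1)⁻¹ : Br 2) h := by
  have h1 : (sg 0 ^ N * (sg 1)⁻¹ : Br 2) = incl (sg 0 ^ N : Br 1) * (sg (Fin.last 1))⁻¹ := by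
    rw [incl_pow, last_eq]
  have h2 : IsKnot (incl (sg 0 ^ N : Br 1) * (sg (Fin.last 1))⁻¹) := by
    rw [← h1]
    exact h
  have h3 : closure (sg 0 ^ N * (sg 1)⁻¹ : Br 2) h =
      closure (incl (sg 0 ^ N : Br 1) * (sg (Fin.last 1))⁻¹) h2 := by
    congr 1
  rw [h3]
  exact Quot.sound (r := fun x y : KnotBraid => MarkovMove x.1 y.1)
    (a := ⟨⟨1, sg 0 ^ N⟩, h0⟩) (b := ⟨⟨2, incl (sg 0 ^ N : Br 1) * (sg (Fin.last 1))⁻¹⟩, h2⟩)
    (MarkovMove.stabNeg 1 _)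

theorem knot_one (N : ℤ) : IsKnot (sg 0 ^ N : Br 1) ↔ Odd N := by
  have h0 : perm (sg 0 : Br 1) = Equiv.swap 0 1 := by
    rw [perm_sg]
    rfl
  have h1 : (Equiv.swap (0 : Fin 2) 1) ^ (2 : ℤ) = 1 := by decide
  unfold IsKnot
  rw [map_zpow, h0]
  rcases Int.even_or_odd' N with ⟨k, rfl | rfl⟩
  · rw [zpow_mul, h1, one_zpow]
    constructor
    · intro h
      have h2 := h 0 1
      rw [Equiv.Perm.sameCycle_one] at h2
      exact absurd h2 (by decide)
    · intro h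
      exact absurd h (by simp)
  · rw [zpow_add, zpow_mul, h1, one_zpow, one_mul, zpow_one]
    constructor
    · intro _
      exact ⟨k, rfl⟩
    · intro _
      decide

theorem knot_pos (N : ℤ) : IsKnot (sg 0 ^ N * sg 1 : Br 2) ↔ Odd N := by
  rw [← knot_one, ← isKnot_stab (sg 0 ^ N : Br 1), incl_pow, last_eq]

theorem knot_neg (N : ℤ) : IsKnot (sg 0 ^ N * (sg 1)⁻¹ : Br 2) ↔ Odd N := by
  rw [← knot_one, ← isKnot_stabNeg (sg 0 ^ N : Br 1), incl_pow, last_eq]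

theorem perm_rev {n : ℕ} (b : Br n) : perm (rev b) = (perm b)⁻¹ := by
  let f : Br n →* (Equiv.Perm (Fin (n + 1)))ᵐᵒᵖ := (MonoidHom.op perm).comp revHom
  let g : Br n →* (Equiv.Perm (Fin (n + 1)))ᵐᵒᵖ :=
    ((MulEquiv.inv' (Equiv.Perm (Fin (n + 1)))).toMonoidHom).comp perm
  have h : f = g := by
    apply PresentedGroup.ext
    intro i
    change MulOpposite.op (perm (revHom (sg i)).unop) = MulOpposite.op (perm (sg i))⁻¹
    rw [revHom, liftBr_sg, MulOpposite.unop_op, perm_sg, Equiv.swap_inv]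
  have h1 := congrArg MulOpposite.unop (DFunLike.congr_fun h b)
  exact h1

theorem knot_rev {n : ℕ} (b : Br n) (h : IsKnot b) : IsKnot (rev b) := by
  intro x y
  rw [perm_rev, Equiv.Perm.sameCycle_inv]
  exact h x y

theorem sign_perm {n : ℕ} (b : Br n) :
    Equiv.Perm.sign (perm b) = (-1 : ℤˣ) ^ expSum b := by
  let f : Br n →* ℤˣ := Equiv.Perm.sign.comp perm
  let g : Br n →* ℤˣ := (zpowersHom ℤˣ (-1)).comp
    (liftBr (fun _ => Multiplicative.ofAdd (1 : ℤ)) (fun _ _ _ => rfl) (fun _ _ _ => rfl))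
  have h : f = g := by
    apply PresentedGroup.ext
    intro i
    change Equiv.Perm.sign (perm (sg i)) = (zpowersHom ℤˣ (-1)) (liftBr
      (fun _ => Multiplicative.ofAdd (1 : ℤ)) (fun _ _ _ => rfl) (fun _ _ _ => rfl) (sg i))
    rw [liftBr_sg, perm_sg, Equiv.Perm.sign_swap (by simp [Fin.ext_iff])]
    simp
  exact DFunLike.congr_fun h b

theorem sign_cycle : ∀ σ : Equiv.Perm (Fin 3), (∀ x y, σ.SameCycle x y) →
    Equiv.Perm.sign σ = 1 := by
  decide

theorem even_expSum (b : Br 2) (h : IsKnot b) : Even (expSum b) := by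
  have h1 := sign_cycle (perm b) h
  rw [sign_perm] at h1
  by_contra h2
  rw [Int.not_even_iff_odd] at h2
  rw [h2.neg_one_zpow] at h1
  exact absurd h1 (by decide)

end STB

/-- STB: closures. -/
theorem stb : STB_Stmt := by
  refine ⟨fun b b' h h' hc => STB.closure_conj h h' hc, ?_, STB.knot_pos, STB.knot_neg,
    fun b b' hc h => STB.isKnot_of_isConj hc h, fun b h => STB.knot_rev b h, STB.even_expSum⟩
  intro N h h'
  have h0 : IsKnot (sg 0 ^ N : Br 1) := (STB.knot_one N).mpr ((STB.knot_pos N).mp h)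
  rw [← STB.closure_pos N h h0, ← STB.closure_neg N h' h0]

end Pool.Agent.T3
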