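import Pool.Agent.T3.Stmts3

/-!
Closed 3-braids, TPOS: the trace of a word in `σ_0`, `σ_1⁻¹`.
-/

open scoped BigOperators

namespace Pool.Agent.T3

open Pool.Agent.TB Pool.Agent.LibH11

namespace TPOS

/-- The coefficients of a column of the product, as functions of the exponent. -/
def cc (f g : ℤ → ℕ) : List Bool → (ℤ → ℕ) × (ℤ → ℕ)
  | [] => (f, g)
  | false :: l => (fun k => (cc f g l).1 (k - 1) + (cc f g l).2 k, (cc f g l).2)
  | true :: l => ((cc f g l).1, fun k => (cc f g l).1 k + (cc f g l).2 (k + 1))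

/-- The function with the value `1` at `0`. -/
def dl0 (k : ℤ) : ℕ := if k = 0 then 1 else 0

/-- The zero function. -/
def zf (_ : ℤ) : ℕ := 0

/-- The support is contained in `[-Q, P]`. -/
def FS (h : ℤ → ℕ) (P Q : ℕ) : Prop := ∀ k, h k ≠ 0 → -(Q : ℤ) ≤ k ∧ k ≤ P

theorem FS.mono {h : ℤ → ℕ} {P Q P' Q' : ℕ} (hh : FS h P Q) (hP : P ≤ P') (hQ : Q ≤ Q') :
    FS h P' Q' := fun k hk => by
  have := hh k hk
  omega

theorem fs_dl0 : FS dl0 0 0 := by
  intro k hk
  unfold dl0 at hk
  split_ifs at hk with h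
  · omega
  · exact absurd rfl hk

theorem fs_zf : FS zf 0 0 := fun _ hk => absurd rfl hk

theorem fs_cc {f g : ℤ → ℕ} (hf : FS f 0 0) (hg : FS g 0 0) : ∀ w : List Bool,
    FS (cc f g w).1 (w.count false) (w.count true) ∧
      FS (cc f g w).2 (w.count false) (w.count true)
  | [] => by simpa [cc] using ⟨hf, hg⟩
  | false :: l => by
      obtain ⟨h1, h2⟩ := fs_cc hf hg l
      have e1 : (false :: l).count false = l.count false + 1 := by simp
      have e2 : (false :: l).count true = l.count true := by simp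
      rw [e1, e2]
      refine ⟨fun k hk => ?_, h2.mono (Nat.le_succ _) le_rfl⟩
      change (cc f g l).1 (k - 1) + (cc f g l).2 k ≠ 0 at hk
      by_cases h3 : (cc f g l).1 (k - 1) = 0
      · have := h2 k (by omega)
        push_cast
        omega
      · have := h1 (k - 1) h3
        push_cast
        omega
  | true :: l => by
      obtain ⟨h1, h2⟩ := fs_cc hf hg l
      have e1 : (true :: l).count false = l.count false := by simp
      have e2 : (true :: l).count true = l.count true + 1 := by simp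
      rw [e1, e2]
      refine ⟨h1.mono le_rfl (Nat.le_succ _), fun k hk => ?_⟩
      change (cc f g l).1 k + (cc f g l).2 (k + 1) ≠ 0 at hk
      by_cases h3 : (cc f g l).1 k = 0
      · have := h2 (k + 1) (by omega)
        push_cast
        omega
      · have := h1 k h3
        push_cast
        omega

section Ev

variable {A : Type} [CommRing A] (y : Aˣ)

/-- The evaluation. -/
noncomputable def ev (h : ℤ → ℕ) : A := ∑ᶠ k : ℤ, (h k : A) * ((y ^ k : Aˣ) : A)

theorem supp_sub {h : ℤ → ℕ} {P Q : ℕ} (hs : FS h P Q) (g : ℤ → A) :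
    (Function.support fun k : ℤ => (h k : A) * g k) ⊆ (Finset.Icc (-(Q : ℤ)) P : Finset ℤ) := by
  intro k hk
  rw [Function.mem_support] at hk
  have h1 : h k ≠ 0 := by
    intro h0
    apply hk
    rw [h0, Nat.cast_zero, zero_mul]
  rw [Finset.coe_Icc]
  exact hs k h1

theorem supp_fin {h : ℤ → ℕ} {P Q : ℕ} (hs : FS h P Q) (g : ℤ → A) :
    (Function.support fun k : ℤ => (h k : A) * g k).Finite :=
  (Finset.finite_toSet _).subset (supp_sub hs g)

theorem ev_eq {h : ℤ → ℕ} {P Q : ℕ} (hs : FS h P Q) :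
    ev y h = ∑ k ∈ Finset.Icc (-(Q : ℤ)) P, (h k : A) * ((y ^ k : Aˣ) : A) :=
  finsum_eq_sum_of_support_subset _ (supp_sub hs _)

theorem ev_add {h h' : ℤ → ℕ} {P Q : ℕ} (hs : FS h P Q) (hs' : FS h' P Q) :
    ev y (fun k => h k + h' k) = ev y h + ev y h' := by
  unfold ev
  rw [← finsum_add_distrib (supp_fin hs _) (supp_fin hs' _)]
  refine finsum_congr fun k => ?_
  push_cast
  ring

theorem ev_down {h : ℤ → ℕ} {P Q : ℕ} (hs : FS h P Q) :
    ev y (fun k => h (k - 1)) = (y : A) * ev y h := by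
  unfold ev
  rw [mul_finsum' _ _ (supp_fin hs _)]
  rw [← finsum_comp_equiv (Equiv.addRight (1 : ℤ))]
  refine finsum_congr fun k => ?_
  simp only [Equiv.coe_addRight, add_sub_cancel_right]
  rw [zpow_add, zpow_one, Units.val_mul]
  ring

theorem ev_up {h : ℤ → ℕ} {P Q : ℕ} (hs : FS h P Q) :
    ev y (fun k => h (k + 1)) = ((y⁻¹ : Aˣ) : A) * ev y h := by
  unfold ev
  rw [mul_finsum' _ _ (supp_fin hs _)]
  rw [← finsum_comp_equiv (Equiv.subRight (1 : ℤ))]
  refine finsum_congr fun k => ?_
  simp only [Equiv.subRight_apply, sub_add_cancel]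
  rw [zpow_sub, zpow_one, Units.val_mul]
  ring

theorem ev_zf : ev y zf = 0 := by
  unfold ev zf
  simp

theorem ev_dl0 : ev y dl0 = 1 := by
  rw [ev_eq y fs_dl0]
  simp [dl0]

/-- The product of the matrices. -/
def mp : List Bool → Matrix (Fin 2) (Fin 2) A
  | [] => 1
  | false :: l => !![(y : A), 1; 0, 1] * mp l
  | true :: l => !![1, 0; 1, ((y⁻¹ : Aˣ) : A)] * mp l

theorem ev_cc {f g : ℤ → ℕ} (hf : FS f 0 0) (hg : FS g 0 0) (l : List Bool) :
    ev y (cc f g (false :: l)).1 = (y : A) * ev y (cc f g l).1 + ev y (cc f g l).2 ∧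
    ev y (cc f g (false :: l)).2 = ev y (cc f g l).2 ∧
    ev y (cc f g (true :: l)).1 = ev y (cc f g l).1 ∧
    ev y (cc f g (true :: l)).2 = ev y (cc f g l).1 + ((y⁻¹ : Aˣ) : A) * ev y (cc f g l).2 := by
  obtain ⟨h1, h2⟩ := fs_cc hf hg l
  refine ⟨?_, rfl, rfl, ?_⟩
  · have h3 : FS (fun k => (cc f g l).1 (k - 1)) (l.count false + 1) (l.count true) := by
      intro k hk
      have := h1 (k - 1) hk
      push_cast
      omega
    change ev y (fun k => (cc f g l).1 (k - 1) + (cc f g l).2 k) = _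
    rw [ev_add y h3 (h2.mono (Nat.le_succ _) le_rfl), ev_down y h1]
  · have h3 : FS (fun k => (cc f g l).2 (k + 1)) (l.count false) (l.count true + 1) := by
      intro k hk
      have := h2 (k + 1) hk
      push_cast
      omega
    change ev y (fun k => (cc f g l).1 k + (cc f g l).2 (k + 1)) = _
    rw [ev_add y (h1.mono le_rfl (Nat.le_succ _)) h3, ev_up y h2]

theorem mp_eq : ∀ w : List Bool, mp y w =
    !![ev y (cc dl0 zf w).1, ev y (cc zf dl0 w).1; ev y (cc dl0 zf w).2, ev y (cc zf dl0 w).2]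
  | [] => by
      ext i j
      fin_cases i <;> fin_cases j <;> simp [mp, cc, ev_zf, ev_dl0]
  | false :: l => by
      obtain ⟨a1, a2, -, -⟩ := ev_cc y fs_dl0 fs_zf l
      obtain ⟨b1, b2, -, -⟩ := ev_cc y fs_zf fs_dl0 l
      rw [a1, a2, b1, b2, mp, mp_eq l]
      ext i j
      fin_cases i <;> fin_cases j <;> simp [Matrix.mul_apply, Fin.sum_univ_two]
  | true :: l => by
      obtain ⟨-, -, a1, a2⟩ := ev_cc y fs_dl0 fs_zf l
      obtain ⟨-, -, b1, b2⟩ := ev_cc y fs_zf fs_dl0 l
      rw [a1, a2, b1, b2, mp, mp_eq l]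
      ext i j
      fin_cases i <;> fin_cases j <;> simp [Matrix.mul_apply, Fin.sum_univ_two]

end Ev

/-- The integer matrices. -/
theorem mp_int : ∀ w : List Bool, ∃ a b c d : ℤ, mp (1 : ℤˣ) w = !![a, b; c, d] ∧ 1 ≤ a ∧ 1 ≤ d ∧
    (w.count false : ℤ) ≤ b ∧ (w.count true : ℤ) ≤ c ∧
    2 + (w.count false : ℤ) * w.count true ≤ a + d
  | [] => ⟨1, 0, 0, 1, by ext i j; fin_cases i <;> fin_cases j <;> simp [mp], by simp, by simp,
      by simp, by simp, by simp⟩
  | false :: l => by
      obtain ⟨a, b, c, d, h, ha, hd, hb, hc, ht⟩ := mp_int l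
      have e1 : (false :: l).count false = l.count false + 1 := by simp
      have e2 : (false :: l).count true = l.count true := by simp
      rw [e1, e2]
      refine ⟨a + c, b + d, c, d, ?_, ?_, hd, ?_, hc, ?_⟩
      · rw [mp, h]
        ext i j
        fin_cases i <;> fin_cases j <;> simp [Matrix.mul_apply, Fin.sum_univ_two]
      · omega
      · push_cast
        omega
      · push_cast
        nlinarith
  | true :: l => by
      obtain ⟨a, b, c, d, h, ha, hd, hb, hc, ht⟩ := mp_int l
      have e1 : (true :: l).count false = l.count false := by simp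
      have e2 : (true :: l).count true = l.count true + 1 := by simp
      rw [e1, e2]
      refine ⟨a, b, a + c, b + d, ?_, ha, ?_, hb, ?_, ?_⟩
      · rw [mp, h]
        ext i j
        fin_cases i <;> fin_cases j <;> simp [Matrix.mul_apply, Fin.sum_univ_two]
      · omega
      · push_cast
        omega
      · push_cast
        nlinarith

/-- The extreme coefficients. -/
theorem top_coeff : ∀ w : List Bool, 1 ≤ (cc dl0 zf w).1 (w.count false) ∧
    1 ≤ (cc zf dl0 w).2 (-(w.count true : ℤ))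
  | [] => by simp [cc, dl0]
  | false :: l => by
      obtain ⟨h1, h2⟩ := top_coeff l
      have e1 : (false :: l).count false = l.count false + 1 := by simp
      have e2 : (false :: l).count true = l.count true := by simp
      rw [e1, e2]
      refine ⟨?_, h2⟩
      change 1 ≤ (cc dl0 zf l).1 (((l.count false + 1 : ℕ) : ℤ) - 1) + _
      rw [show (((l.count false + 1 : ℕ) : ℤ) - 1) = l.count false by push_cast; ring]
      omega
  | true :: l => by
      obtain ⟨h1, h2⟩ := top_coeff l
      have e1 : (true :: l).count false = l.count false := by simp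
      have e2 : (true :: l).count true = l.count true + 1 := by simp
      rw [e1, e2]
      refine ⟨h1, ?_⟩
      change 1 ≤ _ + (cc zf dl0 l).2 (-((l.count true + 1 : ℕ) : ℤ) + 1)
      rw [show (-((l.count true + 1 : ℕ) : ℤ) + 1) = -(l.count true : ℤ) by push_cast; ring]
      omega

section Beta

variable {A : Type} [CommRing A] (q : Aˣ) (β : Br 2 →* (Matrix (Fin 2) (Fin 2) A)ˣ)

/-- `y = -q^-2` -/
def yy : Aˣ := -(q ^ (-2 : ℤ))

theorem beta_inv (hβ : IsHb q β) :
    ((β (sg 1)⁻¹ : (Matrix (Fin 2) (Fin 2) A)ˣ) : Matrix (Fin 2) (Fin 2) A) =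
      !![((q⁻¹ : Aˣ) : A), 0; ((q⁻¹ : Aˣ) : A), -(q : A)] := by
  have hq : (q : A) * ((q⁻¹ : Aˣ) : A) = 1 := Units.mul_inv q
  have h1 : ((β (sg 1) : (Matrix (Fin 2) (Fin 2) A)ˣ) : Matrix (Fin 2) (Fin 2) A) *
      !![((q⁻¹ : Aˣ) : A), 0; ((q⁻¹ : Aˣ) : A), -(q : A)] = 1 := by
    rw [hβ.2]
    ext i j
    fin_cases i <;> fin_cases j <;> simp [Matrix.mul_apply, Fin.sum_univ_two]
  rw [map_inv]
  exact Units.inv_eq_of_mul_eq_one_right h1

theorem beta_pw (hβ : IsHb q β) : ∀ w : List Bool,
    ((β (pw w) : (Matrix (Fin 2) (Fin 2) A)ˣ) : Matrix (Fin 2) (Fin 2) A) =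
      ((q ^ ((w.count false : ℤ) - w.count true) : Aˣ) : A) • mp (yy q) w
  | [] => by simp [pw, mp]
  | false :: l => by
      have e1 : (false :: l).count false = l.count false + 1 := by simp
      have e2 : (false :: l).count true = l.count true := by simp
      have h1 : !![-((q⁻¹ : Aˣ) : A), (q : A); 0, (q : A)] =
          (q : A) • !![((yy q : Aˣ) : A), 1; 0, 1] := by
        have h2 : (q : A) * ((yy q : Aˣ) : A) = -((q⁻¹ : Aˣ) : A) := by
          have h3 : q * yy q = -q⁻¹ := by
            unfold yy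
            rw [mul_neg, ← zpow_one_add]
            norm_num
          rw [← Units.val_mul, h3, Units.val_neg]
        ext i j
        fin_cases i <;> fin_cases j <;> simp [h2]
      have h4 : (q ^ (((l.count false + 1 : ℕ) : ℤ) - l.count true) : Aˣ) =
          q * q ^ ((l.count false : ℤ) - l.count true) := by
        rw [← zpow_one_add]
        congr 1
        push_cast
        ring
      rw [e1, e2, pw, map_mul, Units.val_mul, beta_pw hβ l, hβ.1, h1, h4, Units.val_mul, mp,
        smul_mul_smul_comm]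
  | true :: l => by
      have e1 : (true :: l).count false = l.count false := by simp
      have e2 : (true :: l).count true = l.count true + 1 := by simp
      have h1 : !![((q⁻¹ : Aˣ) : A), 0; ((q⁻¹ : Aˣ) : A), -(q : A)] =
          ((q⁻¹ : Aˣ) : A) • !![1, 0; 1, (((yy q)⁻¹ : Aˣ) : A)] := by
        have h2 : ((q⁻¹ : Aˣ) : A) * (((yy q)⁻¹ : Aˣ) : A) = -(q : A) := by
          have h3 : q⁻¹ * (yy q)⁻¹ = -q := by
            have h5 : q * yy q = -q⁻¹ := by
              unfold yy
              rw [mul_neg, ← zpow_one_add]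
              norm_num
            rw [← mul_inv, h5, inv_neg, inv_inv]
          rw [← Units.val_mul, h3, Units.val_neg]
        ext i j
        fin_cases i <;> fin_cases j <;> simp [h2]
      have h4 : (q ^ ((l.count false : ℤ) - ((l.count true + 1 : ℕ) : ℤ)) : Aˣ) =
          q⁻¹ * q ^ ((l.count false : ℤ) - l.count true) := by
        rw [← zpow_neg_one, ← zpow_add]
        congr 1
        push_cast
        ring
      rw [e1, e2, pw, map_mul, Units.val_mul, beta_pw hβ l, beta_inv q β hβ, h1, h4,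
        Units.val_mul, mp, smul_mul_smul_comm]

end Beta

end TPOS

open TPOS in
theorem tpos : TPOS_Stmt := by
  intro w hf ht
  obtain ⟨f1, -⟩ := fs_cc fs_dl0 fs_zf w
  obtain ⟨-, g2⟩ := fs_cc fs_zf fs_dl0 w
  obtain ⟨t1, t2⟩ := top_coeff w
  refine ⟨fun k => (cc dl0 zf w).1 k + (cc zf dl0 w).2 k, ?_, ?_, ?_, ?_⟩
  · exact t1.trans (Nat.le_add_right _ _)
  · exact t2.trans (Nat.le_add_left _ _)
  · obtain ⟨a, b, c, d, h, -, -, -, -, h6⟩ := mp_int w
    have h1 := mp_eq (1 : ℤˣ) w
    rw [h] at h1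
    have ha : a = ev (1 : ℤˣ) (cc dl0 zf w).1 := by
      have := congrFun (congrFun h1 0) 0
      simpa using this
    have hd : d = ev (1 : ℤˣ) (cc zf dl0 w).2 := by
      have := congrFun (congrFun h1 1) 1
      simpa using this
    rw [ev_eq _ f1] at ha
    rw [ev_eq _ g2] at hd
    have h7 : ((∑ j ∈ Finset.Icc (-(w.count true : ℤ)) (w.count false),
        ((cc dl0 zf w).1 j + (cc zf dl0 w).2 j) : ℕ) : ℤ) = a + d := by
      rw [ha, hd, ← Finset.sum_add_distrib]
      push_cast
      refine Finset.sum_congr rfl fun j _ => ?_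
      simp
    have h8 : ((2 + w.count false * w.count true : ℕ) : ℤ) ≤
        ((∑ j ∈ Finset.Icc (-(w.count true : ℤ)) (w.count false),
        ((cc dl0 zf w).1 j + (cc zf dl0 w).2 j) : ℕ) : ℤ) := by
      rw [h7]
      push_cast
      exact h6
    exact_mod_cast h8
  · intro A _ q β hβ
    unfold tb
    rw [beta_pw q β hβ w, mp_eq, Matrix.trace_smul, Matrix.trace_fin_two_of, ev_eq _ f1, ev_eq _ g2,
      ← Finset.sum_add_distrib, smul_eq_mul, Finset.mul_sum]
    refine Finset.sum_congr rfl fun j _ => ?_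
    have h1 : (yy q) ^ j = (-1 : Aˣ) ^ j * q ^ (-2 * j) := by
      unfold yy
      rw [← neg_one_mul, mul_zpow, ← zpow_mul]
    have h2 : ((-1 : Aˣ) ^ j * q ^ ((w.count false : ℤ) - w.count true - 2 * j) : Aˣ) =
        q ^ ((w.count false : ℤ) - w.count true) * (yy q) ^ j := by
      rw [h1, mul_left_comm, ← zpow_add]
      congr 2
      ring
    rw [h2, Units.val_mul]
    push_cast
    ring

end Pool.Agent.T3
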