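import Pool.Agent.T3.Final3
import Pool.Agent.T3.Fin4
import Pool.Agent.T3.HBX
import Pool.Agent.T3.HECU
import Pool.Agent.T3.GL3
import Pool.Agent.T3.KRA
import Pool.Agent.T3.KRB
import Pool.Agent.T3.MIRR
import Pool.Agent.T3.RED
import Pool.Agent.T3.NORM
import Pool.Agent.T3.TPOS
import Pool.Agent.T3.GENB
import Pool.Agent.T3.GENU
import Pool.Agent.T3.STB

/-!
Finite type invariants separate closed 3-braids up to the orientation: all modules together.
-/

namespace Pool.Agent.T3

theorem fin_all4 : FIN4_Stmt :=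
  FIN4.fin4 fin_all3 (gl3 hecu hbx) kra krb (mirr hecu hbx) hbx
    (genu (norm red ker3 word) tpos genb hbx odd3 (ell3 ker3 word) ker3 stb) stb

end Pool.Agent.T3
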