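import Pool.Agent.T3.Stmts
import Pool.Agent.TB.Fc
import Pool.Agent.TB.Brk

/-!
Closed 3-braids: spectral idempotents of `I_2` and the quadratic relation of the steps
(module T3_ADJ). See PAPER.md in this folder.
-/

open Polynomial
open scoped BigOperators

namespace Pool.Agent.T3

open Pool.Agent.TB

namespace ADJ

variable {F : Type} [Field F] {Q : QP F} {r : ℕ} {E : Type} [Ring E] [Algebra F E]

theorem em_in {I2 : E} {m : ℤ} (hm : m ∈ Finset.Icc (-(r : ℤ)) r) :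
    em Q r I2 m = aeval I2 (Q.basis r m) := by
  unfold em
  rw [if_pos hm]

theorem em_out {I2 : E} {m : ℤ} (hm : m ∉ Finset.Icc (-(r : ℤ)) r) :
    em Q r I2 m = 0 := by
  unfold em
  rw [if_neg hm]

section

variable (hG : Q.Gen r) {I2 : E} (hI : aeval I2 (Q.pol r) = 0)

include hG hI

theorem fcal (P P' : F[X])
    (h : ∀ m ∈ Finset.Icc (-(r : ℤ)) r, P.eval (Q.lam m) = P'.eval (Q.lam m)) :
    aeval I2 P = aeval I2 P' :=
  (fc F Q r hG).2 E I2 hI P P' h

theorem em_self (m : ℤ) : em Q r I2 m * em Q r I2 m = em Q r I2 m := by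
  by_cases hm : m ∈ Finset.Icc (-(r : ℤ)) r
  · rw [em_in hm, ← map_mul]
    refine fcal hG hI _ _ fun k hk => ?_
    rw [eval_mul]
    by_cases h : k = m
    · rw [h, FC.eval_basis_self Q hG hm, mul_one]
    · rw [FC.eval_basis_ne Q hk h, mul_zero]
  · rw [em_out hm, mul_zero]

theorem em_ne (m m' : ℤ) (hne : m ≠ m') : em Q r I2 m * em Q r I2 m' = 0 := by
  by_cases hm : m ∈ Finset.Icc (-(r : ℤ)) r
  · by_cases hm' : m' ∈ Finset.Icc (-(r : ℤ)) r
    · rw [em_in hm, em_in hm', ← map_mul, ← map_zero (aeval (R := F) I2)]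
      refine fcal hG hI _ _ fun k hk => ?_
      rw [eval_mul, eval_zero]
      by_cases h : k = m
      · rw [FC.eval_basis_ne Q hk (by rw [h]; exact hne : k ≠ m'), mul_zero]
      · rw [FC.eval_basis_ne Q hk h, zero_mul]
    · rw [em_out hm', mul_zero]
  · rw [em_out hm, zero_mul]

theorem em_sum : ∑ m ∈ Finset.Icc (-(r : ℤ)) r, em Q r I2 m = 1 := by
  have h1 : ∑ m ∈ Finset.Icc (-(r : ℤ)) r, em Q r I2 m =
      aeval I2 (∑ m ∈ Finset.Icc (-(r : ℤ)) r, Q.basis r m) := by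
    rw [map_sum]
    exact Finset.sum_congr rfl fun m hm => em_in hm
  rw [h1, ← map_one (aeval (R := F) I2)]
  refine fcal hG hI _ _ fun k hk => ?_
  rw [eval_finsetSum, eval_one, Finset.sum_eq_single k]
  · exact FC.eval_basis_self Q hG hk
  · intro b _ hb
    exact FC.eval_basis_ne Q hk (Ne.symm hb)
  · intro h
    exact absurd hk h

theorem I_em (m : ℤ) : I2 * em Q r I2 m = Q.lam m • em Q r I2 m := by
  by_cases hm : m ∈ Finset.Icc (-(r : ℤ)) r
  · rw [em_in hm]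
    have h := fcal hG hI (X * Q.basis r m) (C (Q.lam m) * Q.basis r m) fun k hk => by
      rw [eval_mul, eval_mul, eval_X, eval_C]
      by_cases h : k = m
      · rw [h]
      · rw [FC.eval_basis_ne Q hk h, mul_zero, mul_zero]
    rw [map_mul, map_mul, aeval_X, aeval_C] at h
    rw [Algebra.smul_def]
    exact h
  · rw [em_out hm, mul_zero, smul_zero]

theorem em_I (m : ℤ) : em Q r I2 m * I2 = Q.lam m • em Q r I2 m := by
  by_cases hm : m ∈ Finset.Icc (-(r : ℤ)) r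
  · rw [em_in hm]
    have h := fcal hG hI (Q.basis r m * X) (C (Q.lam m) * Q.basis r m) fun k hk => by
      rw [eval_mul, eval_mul, eval_X, eval_C]
      by_cases h : k = m
      · rw [h, mul_comm]
      · rw [FC.eval_basis_ne Q hk h, mul_zero, zero_mul]
    rw [map_mul, map_mul, aeval_X, aeval_C] at h
    rw [Algebra.smul_def]
    exact h
  · rw [em_out hm, zero_mul, smul_zero]

end

theorem sum_two (f : ℤ → E) (m : ℤ) (h1 : ∀ k, k ≠ m + 1 → k ≠ m - 1 → f k = 0)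
    (h2 : ∀ k, k ∉ Finset.Icc (-(r : ℤ)) r → f k = 0) :
    ∑ k ∈ Finset.Icc (-(r : ℤ)) r, f k = f (m + 1) + f (m - 1) := by
  rw [← Finset.sum_pair (f := f) (show m + 1 ≠ m - 1 by omega)]
  refine Finset.sum_congr_of_eq_on_inter ?_ ?_ ?_
  · intro a _ ha
    rw [Finset.mem_insert, Finset.mem_singleton, not_or] at ha
    exact h1 a ha.1 ha.2
  · intro a _ ha
    exact h2 a ha
  · intro a _ _
    rfl

theorem em_J_em (hG : Q.Gen r) (hlam : ∀ m m' : ℤ, m ≠ m' → Q.lam m ≠ Q.lam m') {I1 I2 : E}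
    (hR : Rels Q r I1 I2) (m m' : ℤ) (h1 : m' ≠ m + 1) (h2 : m' ≠ m - 1) :
    em Q r I2 m * I1 * em Q r I2 m' = 0 := by
  have heI := em_I hG hR.pol2
  have hIe := I_em hG hR.pol2
  have k1 : em Q r I2 m * (I2 * I1) * em Q r I2 m' =
      Q.lam m • (em Q r I2 m * I1 * em Q r I2 m') := by
    rw [← mul_assoc, heI, smul_mul_assoc, smul_mul_assoc]
  have k2 : em Q r I2 m * (I1 * I2) * em Q r I2 m' =
      Q.lam m' • (em Q r I2 m * I1 * em Q r I2 m') := by
    rw [← mul_assoc, mul_assoc, hIe, mul_smul_comm]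
  have h3 : em Q r I2 m * (I2 * I2 * I1 - Q.two • (I2 * I1 * I2) + I1 * I2 * I2) * em Q r I2 m' =
      em Q r I2 m * (-I1) * em Q r I2 m' := by rw [hR.rel2]
  have h4 : em Q r I2 m * (I2 * I2 * I1) * em Q r I2 m' =
      (Q.lam m ^ 2) • (em Q r I2 m * I1 * em Q r I2 m') := by
    rw [mul_assoc I2 I2 I1, ← mul_assoc (em Q r I2 m), heI, smul_mul_assoc, smul_mul_assoc, k1,
      smul_smul, pow_two]
  have h5 : em Q r I2 m * (I2 * I1 * I2) * em Q r I2 m' =
      (Q.lam m * Q.lam m') • (em Q r I2 m * I1 * em Q r I2 m') := by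
    rw [mul_assoc I2 I1 I2, ← mul_assoc (em Q r I2 m), heI, smul_mul_assoc, smul_mul_assoc, k2,
      smul_smul]
  have h6 : em Q r I2 m * (I1 * I2 * I2) * em Q r I2 m' =
      (Q.lam m' ^ 2) • (em Q r I2 m * I1 * em Q r I2 m') := by
    rw [← mul_assoc, mul_assoc _ I2, hIe, mul_smul_comm, k2, smul_smul, pow_two]
  rw [mul_add, mul_sub, add_mul, sub_mul, mul_smul_comm, smul_mul_assoc, h4, h5, h6, mul_neg,
    neg_mul] at h3
  have h7 : (Q.lam m ^ 2 - Q.two * Q.lam m * Q.lam m' + Q.lam m' ^ 2 + 1) •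
      (em Q r I2 m * I1 * em Q r I2 m') = 0 := by
    rw [add_smul, add_smul, sub_smul, one_smul, mul_assoc Q.two, mul_smul Q.two, h3,
      neg_add_cancel]
  have h8 : Q.lam m ^ 2 - Q.two * Q.lam m * Q.lam m' + Q.lam m' ^ 2 + 1 ≠ 0 := by
    obtain ⟨-, -, -, -, -, -, -, -, -, h⟩ := brk F Q
    rw [h]
    refine mul_ne_zero ?_ ?_
    · exact sub_ne_zero.2 (hlam _ _ (by omega))
    · exact sub_ne_zero.2 (hlam _ _ (by omega))
  exact (smul_eq_zero_iff_right h8).1 h7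

theorem quad (hG : Q.Gen r) (hlam : ∀ m m' : ℤ, m ≠ m' → Q.lam m ≠ Q.lam m') {I1 I2 : E}
    (hR : Rels Q r I1 I2) (m : ℤ) :
    cu Q (m + 1) • Xp Q r I1 I2 m - cu Q (m - 1) • Xn Q r I1 I2 m =
      Q.br m • em Q r I2 m := by
  have heI := em_I hG hR.pol2
  have hIe := I_em hG hR.pol2
  have hs := em_sum hG hR.pol2
  have hz := em_J_em hG hlam hR
  -- the two sums
  have s1 : em Q r I2 m * (I1 * I1) * em Q r I2 m = Xp Q r I1 I2 m + Xn Q r I1 I2 m := by
    have h : em Q r I2 m * (I1 * I1) * em Q r I2 m =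
        ∑ k ∈ Finset.Icc (-(r : ℤ)) r,
          em Q r I2 m * I1 * em Q r I2 k * I1 * em Q r I2 m := by
      rw [← Finset.sum_mul, ← Finset.sum_mul, ← Finset.mul_sum, hs, mul_one, ← mul_assoc]
    rw [h, sum_two _ m]
    · rfl
    · intro k h1 h2
      rw [hz m k h1 h2, zero_mul, zero_mul]
    · intro k hk
      rw [em_out hk, mul_zero, zero_mul, zero_mul]
  have s2 : em Q r I2 m * (I1 * I2 * I1) * em Q r I2 m =
      Q.lam (m + 1) • Xp Q r I1 I2 m + Q.lam (m - 1) • Xn Q r I1 I2 m := by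
    have h : em Q r I2 m * (I1 * I2 * I1) * em Q r I2 m =
        ∑ k ∈ Finset.Icc (-(r : ℤ)) r,
          Q.lam k • (em Q r I2 m * I1 * em Q r I2 k * I1 * em Q r I2 m) := by
      have h' : ∀ k ∈ Finset.Icc (-(r : ℤ)) r,
          Q.lam k • (em Q r I2 m * I1 * em Q r I2 k * I1 * em Q r I2 m) =
            em Q r I2 m * I1 * em Q r I2 k * I2 * I1 * em Q r I2 m := by
        intro k _
        rw [mul_assoc (em Q r I2 m * I1) (em Q r I2 k) I2, heI, mul_smul_comm, smul_mul_assoc,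
          smul_mul_assoc]
      rw [Finset.sum_congr rfl h', ← Finset.sum_mul, ← Finset.sum_mul, ← Finset.sum_mul,
        ← Finset.mul_sum, hs, mul_one]
      simp only [mul_assoc]
    rw [h, sum_two _ m]
    · rfl
    · intro k h1 h2
      rw [hz m k h1 h2, zero_mul, zero_mul, smul_zero]
    · intro k hk
      rw [em_out hk, mul_zero, zero_mul, zero_mul, smul_zero]
  have h3 : em Q r I2 m * (I1 * I1 * I2 - Q.two • (I1 * I2 * I1) + I2 * I1 * I1) * em Q r I2 m =
      em Q r I2 m * (-I2) * em Q r I2 m := by rw [hR.rel1]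
  have h4 : em Q r I2 m * (I1 * I1 * I2) * em Q r I2 m =
      Q.lam m • (Xp Q r I1 I2 m + Xn Q r I1 I2 m) := by
    rw [← mul_assoc, mul_assoc _ I2, hIe, mul_smul_comm, s1]
  have h6 : em Q r I2 m * (I2 * I1 * I1) * em Q r I2 m =
      Q.lam m • (Xp Q r I1 I2 m + Xn Q r I1 I2 m) := by
    rw [mul_assoc I2 I1 I1, ← mul_assoc (em Q r I2 m), heI, smul_mul_assoc, smul_mul_assoc, s1]
  have h7 : em Q r I2 m * (-I2) * em Q r I2 m = -(Q.lam m • em Q r I2 m) := by
    rw [mul_neg, neg_mul, heI, smul_mul_assoc, em_self hG hR.pol2]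
  rw [mul_add, mul_sub, add_mul, sub_mul, mul_smul_comm, smul_mul_assoc, h4, h6, h7, s2] at h3
  -- numbers
  obtain ⟨-, -, -, -, -, hb, -, -, hd, -⟩ := brk F Q
  have n1 : Q.two * Q.lam (m + 1) = 2 * Q.lam m + Q.i * cu Q (m + 1) := by
    have e1 := hb (m + 1)
    have e2 := hd (m + 1)
    rw [show m + 1 + 1 = m + 2 by ring, show m + 1 - 1 = m by ring] at e1 e2
    unfold QP.lam at e2 ⊢
    unfold cu
    linear_combination (-(Q.i : F)) * e1 + e2
  have n2 : Q.two * Q.lam (m - 1) = 2 * Q.lam m - Q.i * cu Q (m - 1) := by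
    have e1 := hb (m - 1)
    have e2 := hd (m - 1)
    rw [show m - 1 + 1 = m by ring, show m - 1 - 1 = m - 2 by ring] at e1 e2
    unfold QP.lam at e2 ⊢
    unfold cu
    linear_combination (-(Q.i : F)) * e1 - e2
  rw [smul_add Q.two, smul_smul, smul_smul, n1, n2] at h3
  have h8 : (Q.i : F) • (cu Q (m + 1) • Xp Q r I1 I2 m - cu Q (m - 1) • Xn Q r I1 I2 m) =
      (Q.i : F) • (Q.br m • em Q r I2 m) := by
    unfold QP.lam at h3
    have h9 : (Q.i : F) • (cu Q (m + 1) • Xp Q r I1 I2 m - cu Q (m - 1) • Xn Q r I1 I2 m) -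
      (Q.i : F) • (Q.br m • em Q r I2 m) = 0 := by
      rw [← sub_eq_zero] at h3
      rw [← neg_eq_zero, ← h3]
      module
    exact sub_eq_zero.1 h9
  have hi : (Q.i : F) ≠ 0 := Q.i.ne_zero
  have h10 := congrArg (fun z => (Q.i : F)⁻¹ • z) h8
  simpa only [inv_smul_smul₀ hi] using h10

end ADJ

open ADJ in
theorem adj (h : GENF_Stmt) : ADJ_Stmt := by
  intro F _ _ Q hN r E _ _ I1 I2 hR
  obtain ⟨hlam, hG, -⟩ := h F Q hN
  have hG := (hG r).1
  exact ⟨em_self hG hR.pol2, em_ne hG hR.pol2, em_sum hG hR.pol2,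
    fun m => ⟨I_em hG hR.pol2 m, em_I hG hR.pol2 m⟩,
    fun m m' h1 h2 => em_J_em hG hlam hR m m' h1 h2, fun m => quad hG hlam hR m⟩

end Pool.Agent.T3
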