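import Pool.Agent.T3.Stmts2
import Pool.Agent.C3A.Stmts

/-!
The arithmetic half, transported from `Pool.Agent.C3A`.
-/

namespace Pool.Agent.T3

open Pool.Agent.TB

theorem ari3 (h : Pool.Agent.C3A.ARITH_Stmt) : ARI3_Stmt := by
  intro A A' ht ho h2 hc
  rcases h A A' ht ho h2 (fun N _ hN => hc N hN) with ⟨g, hg⟩ | ⟨g, hg⟩
  · exact ⟨g, Or.inl hg⟩
  · exact ⟨g, Or.inr hg⟩

end Pool.Agent.T3
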