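import Pool.Agent.T3.Stmts

/-!
Module BURA: for `r = 2` the weighted trace is given by the Burau matrices.
-/

set_option autoImplicit false
set_option linter.unusedSimpArgs false

open Polynomial
open scoped BigOperators Real

namespace Pool.Agent.T3.BURA

open Pool.Agent.TB Pool.Agent.LibH11

variable {A : Type} [CommRing A] (Q : QP A)

/-! ### The labels -/

/-- The two even labels. -/
def ev (c : Bool) : Ev 2 := ⟨(((((), c) : Lb 1), c) : Lb 2), by cases c <;> rfl⟩

/-- The equivalence of `Bool` and the even labels. -/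
def evE : Bool ≃ Ev 2 where
  toFun := ev
  invFun x := x.1.2
  left_inv c := rfl
  right_inv x := by
    obtain ⟨⟨⟨⟨⟩, a⟩, b⟩, h⟩ := x
    have hab : a = b := by
      revert h
      cases a <;> cases b <;> simp [Lb.par]
    subst hab
    rfl

abbrev S : Type := Bool × Bool × Bool

/-- States of three strands. -/
def stE : S ≃ (Fin 3 → Ev 2) where
  toFun t := ![ev t.1, ev t.2.1, ev t.2.2]
  invFun s := (evE.symm (s 0), evE.symm (s 1), evE.symm (s 2))
  left_inv t := rfl
  right_inv s := by
    funext i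
    fin_cases i
    · exact evE.apply_symm_apply (s 0)
    · exact evE.apply_symm_apply (s 1)
    · exact evE.apply_symm_apply (s 2)

theorem sum_lb1 {M : Type} [AddCommMonoid M] (f : Lb 1 → M) :
    ∑ x, f x = f ((), true) + f ((), false) := by
  change ∑ x : Unit × Bool, f x = _
  rw [Fintype.sum_prod_type]
  simp only [Finset.univ_unique, Finset.sum_singleton, Fintype.sum_bool]
  rfl

/-! ### The R-matrix -/

/-- The table of the R-matrix. -/
def tab (q : A) : Bool → Bool → Bool → Bool → A
  | false, false, false, false => q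
  | true, true, true, true => q
  | false, true, true, false => q ^ 2
  | true, false, false, true => q ^ 2
  | false, true, false, true => q - q ^ 3
  | _, _, _, _ => 0

theorem qp_one_sq : ((Q.s : A)) * Q.s = Q.qp 1 := by
  unfold QP.qp
  rw [← Units.val_mul]
  congr 1
  rw [show (2 * 1 : ℤ) = ((2 : ℕ) : ℤ) by norm_num, zpow_natCast, sq]

theorem qp_inv : Q.qp 1 * Q.qp (-1) = 1 := by
  unfold QP.qp
  rw [← Units.val_mul, ← zpow_add]
  norm_num

theorem qp_two : Q.qp 2 = Q.qp 1 ^ 2 := by
  unfold QP.qp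
  rw [← Units.val_pow_eq_pow_val]
  congr 1
  group

theorem qp_neg_two : Q.qp (-2) = Q.qp (-1) ^ 2 := by
  unfold QP.qp
  rw [← Units.val_pow_eq_pow_val]
  congr 1
  group

theorem qp_zero : Q.qp 0 = 1 := by
  unfold QP.qp
  simp

theorem cr_two : (cr Q 2 : A) = Q.qp 1 := by
  unfold cr QP.qp
  norm_num

theorem one00 (x y : Lb 0 × Lb 0) : (1 : Matrix (Lb 0 × Lb 0) (Lb 0 × Lb 0) A) x y = 1 := by
  obtain ⟨⟨⟩, ⟨⟩⟩ := x
  obtain ⟨⟨⟩, ⟨⟩⟩ := y
  exact Matrix.one_apply_eq _

theorem rtab (a b c d : Bool) : (ybt Q 2).R (ev a, ev b) (ev c, ev d) = tab (Q.qp 1) a b c d := by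
  have h0 := qp_one_sq Q
  have h1 := qp_inv Q
  change (cr Q 2 : A) * Rm Q 2 _ _ = _
  rw [cr_two]
  cases a <;> cases b <;> cases c <;> cases d <;>
    simp [ev, tab, Rm, Im, bm, kinv, Matrix.mul_apply, Fintype.sum_prod_type, sum_lb1]
  · linear_combination (-(Q.qp 1 * (Q.qp 1 - Q.qp (-1)))) * h0 + Q.qp 1 * h1
  · rw [one00, mul_one, h0, sq]
  · rw [one00, mul_one, h0, sq]

/-! ### The matrices of the generators -/

/-- The matrix of `σ_0`. -/
def M0 (q : A) : Matrix S S A := fun s t => if s.2.2 = t.2.2 then tab q s.1 s.2.1 t.1 t.2.1 else 0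

/-- The matrix of `σ_1`. -/
def M1 (q : A) : Matrix S S A := fun s t => if s.1 = t.1 then tab q s.2.1 s.2.2 t.2.1 t.2.2 else 0

theorem opm0 : (opm (ybt Q 2).R (0 : Fin 2)).submatrix stE stE = M0 (Q.qp 1) := by
  ext s t
  rw [Matrix.submatrix_apply]
  unfold opm M0
  have h : (∀ j : Fin 3, j ≠ (0 : Fin 2).castSucc → j ≠ (0 : Fin 2).succ → stE s j = stE t j) ↔
      s.2.2 = t.2.2 := by
    constructor
    · intro h
      exact evE.injective (h 2 (by decide) (by decide))
    · intro h j h1 h2
      have : j = 2 := by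
        fin_cases j
        · exact absurd rfl h1
        · exact absurd rfl h2
        · rfl
      subst this
      exact congrArg ev h
  by_cases hs : s.2.2 = t.2.2
  · rw [if_pos (h.mpr hs), if_pos hs]
    exact rtab Q s.1 s.2.1 t.1 t.2.1
  · rw [if_neg (fun hh => hs (h.mp hh)), if_neg hs]

theorem opm1 : (opm (ybt Q 2).R (1 : Fin 2)).submatrix stE stE = M1 (Q.qp 1) := by
  ext s t
  rw [Matrix.submatrix_apply]
  unfold opm M1
  have h : (∀ j : Fin 3, j ≠ (1 : Fin 2).castSucc → j ≠ (1 : Fin 2).succ → stE s j = stE t j) ↔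
      s.1 = t.1 := by
    constructor
    · intro h
      exact evE.injective (h 0 (by decide) (by decide))
    · intro h j h1 h2
      have : j = 0 := by
        fin_cases j
        · rfl
        · exact absurd rfl h1
        · exact absurd rfl h2
      subst this
      exact congrArg ev h
  by_cases hs : s.1 = t.1
  · rw [if_pos (h.mpr hs), if_pos hs]
    exact rtab Q s.2.1 s.2.2 t.2.1 t.2.2
  · rw [if_neg (fun hh => hs (h.mp hh)), if_neg hs]

/-! ### The weight spaces -/

/-- The vector of a state. -/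
def sing (A : Type) [CommRing A] (s : S) : Matrix S (Fin 1) A := fun t _ => if t = s then 1 else 0

/-- The basis of the space with one `d`. -/
def E1 (q : A) : Matrix S (Fin 3) A := fun t j =>
  match t, j with
  | (true, false, false), 0 => q
  | (false, true, false), 0 => -q ^ 2
  | (false, true, false), 1 => 1
  | (false, false, true), 1 => -q
  | (false, false, true), 2 => 1
  | _, _ => 0

/-- The basis of the space with two letters `d`. -/
def E2 (q : A) : Matrix S (Fin 3) A := fun t j =>
  match t, j with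
  | (false, true, true), 0 => -q ^ 2
  | (true, false, true), 0 => q
  | (true, false, true), 1 => -q
  | (true, true, false), 1 => 1
  | (false, true, true), 2 => 1
  | _, _ => 0

/-- The block matrix. -/
def blk (B : Matrix (Fin 2) (Fin 2) A) (x : Fin 2 → A) : Matrix (Fin 3) (Fin 3) A :=
  !![B 0 0, B 0 1, x 0; B 1 0, B 1 1, x 1; 0, 0, 1]

theorem blk_mul (B B' : Matrix (Fin 2) (Fin 2) A) (x x' : Fin 2 → A) :
    blk B x * blk B' x' = blk (B * B') (fun i => (B.mulVec x') i + x i) := by
  ext i j
  fin_cases i <;> fin_cases j <;>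
    simp [blk, Matrix.mul_apply, Fin.sum_univ_three, Fin.sum_univ_two, Matrix.mulVec, dotProduct]

theorem blk_one : blk (1 : Matrix (Fin 2) (Fin 2) A) 0 = 1 := by
  ext i j
  fin_cases i <;> fin_cases j <;> simp [blk]

theorem blk_trace (B : Matrix (Fin 2) (Fin 2) A) (x : Fin 2 → A) :
    (blk B x).trace = 1 + B.trace := by
  simp [blk, Matrix.trace, Fin.sum_univ_three, Fin.sum_univ_two]
  ring

theorem M0_E1 (q : A) : M0 q * E1 q = q • (E1 q * blk !![-q ^ 2, 1; 0, 1] 0) := by
  ext i j
  obtain ⟨a, b, c⟩ := i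
  cases a <;> cases b <;> cases c <;> fin_cases j <;>
    simp [M0, E1, blk, tab, Matrix.mul_apply, Fin.sum_univ_three, Fintype.sum_prod_type] <;> ring

theorem M1_E1 (q : A) : M1 q * E1 q = q • (E1 q * blk !![1, 0; q ^ 2, -q ^ 2] ![0, q]) := by
  ext i j
  obtain ⟨a, b, c⟩ := i
  cases a <;> cases b <;> cases c <;> fin_cases j <;>
    simp [M1, E1, blk, tab, Matrix.mul_apply, Fin.sum_univ_three, Fintype.sum_prod_type] <;> ring

theorem M0_E2 (q : A) : M0 q * E2 q = q • (E2 q * blk !![-q ^ 2, 1; 0, 1] ![1, 0]) := by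
  ext i j
  obtain ⟨a, b, c⟩ := i
  cases a <;> cases b <;> cases c <;> fin_cases j <;>
    simp [M0, E2, blk, tab, Matrix.mul_apply, Fin.sum_univ_three, Fintype.sum_prod_type] <;> ring

theorem M1_E2 (q : A) : M1 q * E2 q = q • (E2 q * blk !![1, 0; q ^ 2, -q ^ 2] 0) := by
  ext i j
  obtain ⟨a, b, c⟩ := i
  cases a <;> cases b <;> cases c <;> fin_cases j <;>
    simp [M1, E2, blk, tab, Matrix.mul_apply, Fin.sum_univ_three, Fintype.sum_prod_type] <;> ring

/-- The state without `d`. -/
def su : S := (false, false, false)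

/-- The state with three letters `d`. -/
def sd : S := (true, true, true)

theorem M0_su (q : A) : M0 q * sing A su =
    q • sing A su := by
  ext i j
  obtain ⟨a, b, c⟩ := i
  cases a <;> cases b <;> cases c <;>
    simp [M0, sing, su, tab, Matrix.mul_apply]

theorem M1_su (q : A) : M1 q * sing A su =
    q • sing A su := by
  ext i j
  obtain ⟨a, b, c⟩ := i
  cases a <;> cases b <;> cases c <;>
    simp [M1, sing, su, tab, Matrix.mul_apply]

theorem M0_sd (q : A) : M0 q * sing A sd =
    q • sing A sd := by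
  ext i j
  obtain ⟨a, b, c⟩ := i
  cases a <;> cases b <;> cases c <;>
    simp [M0, sing, sd, tab, Matrix.mul_apply]

theorem M1_sd (q : A) : M1 q * sing A sd =
    q • sing A sd := by
  ext i j
  obtain ⟨a, b, c⟩ := i
  cases a <;> cases b <;> cases c <;>
    simp [M1, sing, sd, tab, Matrix.mul_apply]

/-! ### The dual bases -/

/-- The dual vector of a state. -/
def sinT (A : Type) [CommRing A] (s : S) : Matrix (Fin 1) S A := fun _ t => if t = s then 1 else 0

/-- The dual basis for one `d`. -/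
def F1 (q qi : A) : Matrix (Fin 3) S A := fun j t =>
  match j, t with
  | 0, (true, false, false) => qi
  | 1, (true, false, false) => q
  | 1, (false, true, false) => 1
  | 2, (true, false, false) => q ^ 2
  | 2, (false, true, false) => q
  | 2, (false, false, true) => 1
  | _, _ => 0

/-- The dual basis for two letters `d`. -/
def F2 (q qi : A) : Matrix (Fin 3) S A := fun j t =>
  match j, t with
  | 0, (true, false, true) => qi
  | 0, (true, true, false) => 1
  | 1, (true, true, false) => 1
  | 2, (false, true, true) => 1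
  | 2, (true, false, true) => q
  | 2, (true, true, false) => q ^ 2
  | _, _ => 0

theorem F1_E1 {q qi : A} (h : q * qi = 1) : F1 q qi * E1 q = 1 := by
  ext i j
  fin_cases i <;> fin_cases j <;>
    simp [F1, E1, Matrix.mul_apply, Fintype.sum_prod_type] <;>
    first
      | ring1
      | linear_combination h

theorem F2_E2 {q qi : A} (h : q * qi = 1) : F2 q qi * E2 q = 1 := by
  ext i j
  fin_cases i <;> fin_cases j <;>
    simp [F2, E2, Matrix.mul_apply, Fintype.sum_prod_type] <;>
    first
      | ring1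
      | linear_combination h
      | linear_combination (-1 : A) * h

theorem sinT_sing (s : S) : sinT A s * sing A s = 1 := by
  ext i j
  rw [Matrix.mul_apply, Subsingleton.elim i j, Matrix.one_apply_eq]
  simp [sinT, sing]

/-- The weights. -/
def kp (q qi : A) (t : S) : A :=
  (if t.1 then qi else q) * ((if t.2.1 then qi else q) * (if t.2.2 then qi else q))

theorem E1F1_apply (q qi : A) (s t : S) : (E1 q * F1 q qi) s t =
    E1 q s 0 * F1 q qi 0 t + E1 q s 1 * F1 q qi 1 t + E1 q s 2 * F1 q qi 2 t := by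
  rw [Matrix.mul_apply, Fin.sum_univ_three]

theorem E2F2_apply (q qi : A) (s t : S) : (E2 q * F2 q qi) s t =
    E2 q s 0 * F2 q qi 0 t + E2 q s 1 * F2 q qi 1 t + E2 q s 2 * F2 q qi 2 t := by
  rw [Matrix.mul_apply, Fin.sum_univ_three]

theorem sing_apply (r s t : S) : (sing A r * sinT A r) s t =
    if s = t ∧ t = r then 1 else 0 := by
  rw [Matrix.mul_apply, Finset.univ_unique, Finset.sum_singleton]
  unfold sing sinT
  by_cases h1 : s = r
  · by_cases h2 : t = r
    · rw [if_pos h1, if_pos h2, if_pos ⟨h1.trans h2.symm, h2⟩, mul_one]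
    · have h3 : ¬ (s = t ∧ t = r) := fun h => h2 h.2
      rw [if_neg h2, if_neg h3, mul_zero]
  · have h3 : ¬ (s = t ∧ t = r) := fun h => h1 (h.1.trans h.2)
    rw [if_neg h1, if_neg h3, zero_mul]

/-- The indicator of the states with one `d`. -/
def in1 : S → Bool
  | (true, false, false) => true
  | (false, true, false) => true
  | (false, false, true) => true
  | _ => false

/-- The indicator of the states with two letters `d`. -/
def in2 : S → Bool
  | (false, true, true) => true
  | (true, false, true) => true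
  | (true, true, false) => true
  | _ => false

theorem E1F1 {q qi : A} (h : q * qi = 1) (s t : S) : (E1 q * F1 q qi) s t =
    if s = t ∧ in1 t = true then 1 else 0 := by
  rw [E1F1_apply]
  obtain ⟨a, b, c⟩ := s
  obtain ⟨a', b', c'⟩ := t
  cases a <;> cases b <;> cases c <;> cases a' <;> cases b' <;> cases c' <;>
    simp only [E1, F1, in1, Prod.mk.injEq, and_true, and_false, false_and, true_and, if_true,
      if_false, mul_zero, zero_mul, add_zero, zero_add, reduceCtorEq, Bool.false_eq_true,
      Bool.true_eq_false, mul_one, one_mul] <;>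
    first
      | rfl
      | exact h
      | ring1
      | linear_combination (-q) * h

theorem E2F2 {q qi : A} (h : q * qi = 1) (s t : S) : (E2 q * F2 q qi) s t =
    if s = t ∧ in2 t = true then 1 else 0 := by
  rw [E2F2_apply]
  obtain ⟨a, b, c⟩ := s
  obtain ⟨a', b', c'⟩ := t
  cases a <;> cases b <;> cases c <;> cases a' <;> cases b' <;> cases c' <;>
    simp only [E2, F2, in2, Prod.mk.injEq, and_true, and_false, false_and, true_and, if_true,
      if_false, mul_zero, zero_mul, add_zero, zero_add, reduceCtorEq, Bool.false_eq_true,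
      Bool.true_eq_false, mul_one, one_mul] <;>
    first
      | rfl
      | exact h
      | ring1
      | linear_combination (-q) * h

theorem kp_eq {q qi : A} (h : q * qi = 1) (t : S) : kp q qi t =
    q ^ 3 * (if t = su then 1 else 0) + q * (if in1 t = true then 1 else 0)
      + qi * (if in2 t = true then 1 else 0) + qi ^ 3 * (if t = sd then 1 else 0) := by
  obtain ⟨a, b, c⟩ := t
  cases a <;> cases b <;> cases c <;>
    simp only [kp, su, sd, in1, in2, Prod.mk.injEq, and_true, and_false, false_and, true_and,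
      if_true, if_false, mul_zero, zero_mul, add_zero, zero_add, reduceCtorEq, Bool.false_eq_true,
      Bool.true_eq_false, mul_one, one_mul] <;>
    first
      | rfl
      | ring1
      | linear_combination q * h
      | linear_combination qi * h

theorem diag_eq {q qi : A} (h : q * qi = 1) : Matrix.diagonal (kp q qi) =
    q ^ 3 • (sing A su * sinT A su) + q • (E1 q * F1 q qi)
      + qi • (E2 q * F2 q qi) + qi ^ 3 • (sing A sd * sinT A sd) := by
  ext s t
  rw [Matrix.add_apply, Matrix.add_apply, Matrix.add_apply, Matrix.smul_apply, Matrix.smul_apply,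
    Matrix.smul_apply, Matrix.smul_apply, sing_apply, sing_apply, E1F1 h, E2F2 h]
  by_cases hst : s = t
  · subst hst
    rw [Matrix.diagonal_apply_eq, kp_eq h]
    simp only [true_and, smul_eq_mul]
  · rw [Matrix.diagonal_apply_ne _ hst]
    simp [hst]

/-! ### Invariance -/

/-- The matrix `M` acts by `c` and the matrix `B`. -/
structure Inv (q c : A) (B : Matrix (Fin 2) (Fin 2) A) (M : Matrix S S A) : Prop where
  e0 : M * sing A su = c • sing A su
  e3 : M * sing A sd = c • sing A sd
  e1 : ∃ x, M * E1 q = c • (E1 q * blk B x)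
  e2 : ∃ x, M * E2 q = c • (E2 q * blk B x)

theorem Inv.mul {q c c' : A} {B B' : Matrix (Fin 2) (Fin 2) A} {M M' : Matrix S S A}
    (h : Inv q c B M) (h' : Inv q c' B' M') : Inv q (c * c') (B * B') (M * M') := by
  refine ⟨?_, ?_, ?_, ?_⟩
  · rw [Matrix.mul_assoc, h'.e0, Matrix.mul_smul, h.e0, smul_smul, mul_comm c' c]
  · rw [Matrix.mul_assoc, h'.e3, Matrix.mul_smul, h.e3, smul_smul, mul_comm c' c]
  · obtain ⟨x, hx⟩ := h.e1
    obtain ⟨x', hx'⟩ := h'.e1
    refine ⟨fun i => (B.mulVec x') i + x i, ?_⟩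
    rw [Matrix.mul_assoc, hx', Matrix.mul_smul, ← Matrix.mul_assoc, hx, Matrix.smul_mul, smul_smul,
      Matrix.mul_assoc, blk_mul, mul_comm c' c]
  · obtain ⟨x, hx⟩ := h.e2
    obtain ⟨x', hx'⟩ := h'.e2
    refine ⟨fun i => (B.mulVec x') i + x i, ?_⟩
    rw [Matrix.mul_assoc, hx', Matrix.mul_smul, ← Matrix.mul_assoc, hx, Matrix.smul_mul, smul_smul,
      Matrix.mul_assoc, blk_mul, mul_comm c' c]

theorem inv_aux {n : ℕ} {c c' : A} {M M' : Matrix S S A} {E : Matrix S (Fin n) A}
    {N N' : Matrix (Fin n) (Fin n) A} (hM : M' * M = 1) (hc : c * c' = 1) (hN : N * N' = 1)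
    (h : M * E = c • (E * N)) : M' * E = c' • (E * N') := by
  have h1 : E = c • (M' * E * N) := by
    calc E = M' * M * E := by rw [hM, Matrix.one_mul]
      _ = M' * (c • (E * N)) := by rw [Matrix.mul_assoc, h]
      _ = c • (M' * E * N) := by rw [Matrix.mul_smul, Matrix.mul_assoc]
  calc M' * E = c' • c • (M' * E) := by rw [smul_smul, mul_comm c' c, hc, one_smul]
    _ = c' • (c • (M' * E * N) * N') := by
        rw [Matrix.smul_mul, Matrix.mul_assoc (M' * E), hN, Matrix.mul_one]
    _ = c' • (E * N') := by rw [← h1]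

theorem Inv.inv {q c c' : A} {B B' : Matrix (Fin 2) (Fin 2) A} {M M' : Matrix S S A}
    (h : Inv q c B M) (hc : c * c' = 1) (hB : B * B' = 1) (hM : M' * M = 1) :
    Inv q c' B' M' := by
  have hN : ∀ x, blk B x * blk B' (-(B'.mulVec x)) = 1 := by
    intro x
    rw [blk_mul, hB]
    have : (fun i => (B.mulVec (-(B'.mulVec x))) i + x i) = 0 := by
      funext i
      rw [Matrix.mulVec_neg, Matrix.mulVec_mulVec, hB, Matrix.one_mulVec]
      simp
    rw [this, blk_one]
  have h1 : ∀ s : S, M * sing A s = c • sing A s →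
      M' * sing A s = c' • sing A s := by
    intro s hs
    have := inv_aux (E := sing A s) (N := 1) (N' := 1) hM hc
      (Matrix.one_mul 1) (by rw [Matrix.mul_one]; exact hs)
    rwa [Matrix.mul_one] at this
  refine ⟨h1 _ h.e0, h1 _ h.e3, ?_, ?_⟩
  · obtain ⟨x, hx⟩ := h.e1
    exact ⟨_, inv_aux hM hc (hN x) hx⟩
  · obtain ⟨x, hx⟩ := h.e2
    exact ⟨_, inv_aux hM hc (hN x) hx⟩

theorem Inv.one {q : A} : Inv q 1 1 1 := by
  refine ⟨?_, ?_, ⟨0, ?_⟩, ⟨0, ?_⟩⟩ <;> simp [blk_one]

theorem Inv.trace {q qi c : A} {B : Matrix (Fin 2) (Fin 2) A} {M : Matrix S S A}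
    (h : Inv q c B M) (hq : q * qi = 1) : ∑ t, M t t * kp q qi t =
      c * ((q + qi) * (q ^ 2 + qi ^ 2 + B.trace)) := by
  have h1 : ∑ t, M t t * kp q qi t = (M * Matrix.diagonal (kp q qi)).trace := by
    simp [Matrix.trace, Matrix.mul_diagonal]
  have hb : ∀ {n : ℕ} (E : Matrix S (Fin n) A) (F : Matrix (Fin n) S A)
      (N : Matrix (Fin n) (Fin n) A), F * E = 1 → M * E = c • (E * N) →
      (M * (E * F)).trace = c * N.trace := by
    intro n E F N hFE hME
    rw [← Matrix.mul_assoc, Matrix.trace_mul_comm, hME, Matrix.mul_smul, ← Matrix.mul_assoc, hFE,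
      Matrix.one_mul, Matrix.trace_smul, smul_eq_mul]
  obtain ⟨x, hx⟩ := h.e1
  obtain ⟨y, hy⟩ := h.e2
  have e0 := hb (sing A su) (sinT A su) 1 (sinT_sing su) (by rw [Matrix.mul_one]; exact h.e0)
  have e3 := hb (sing A sd) (sinT A sd) 1 (sinT_sing sd) (by rw [Matrix.mul_one]; exact h.e3)
  have e1 := hb (E1 q) (F1 q qi) _ (F1_E1 hq) hx
  have e2 := hb (E2 q) (F2 q qi) _ (F2_E2 hq) hy
  rw [h1, diag_eq hq]
  simp only [Matrix.mul_add, Matrix.mul_smul, Matrix.trace_add, Matrix.trace_smul, e0, e1, e2, e3,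
    blk_trace, Matrix.trace_one, smul_eq_mul, Fintype.card_fin, Nat.cast_one]
  linear_combination (-(c * q) - c * qi) * hq

/-! ### The exponent sum -/

theorem expSum_one {n : ℕ} : expSum (1 : Br n) = 0 := by
  unfold expSum
  rw [map_one]
  rfl

theorem expSum_mul {n : ℕ} (x y : Br n) : expSum (x * y) = expSum x + expSum y := by
  unfold expSum
  rw [map_mul]
  rfl

theorem expSum_inv {n : ℕ} (x : Br n) : expSum x⁻¹ = -expSum x := by
  unfold expSum
  rw [map_inv]
  rfl

theorem expSum_sg {n : ℕ} (i : Fin n) : expSum (sg i) = 1 := by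
  unfold expSum
  rw [liftBr_sg]
  rfl

theorem br_ind {n : ℕ} {P : Br n → Prop} (h1 : P 1) (hs : ∀ i, P (sg i))
    (hm : ∀ x y, P x → P y → P (x * y)) (hi : ∀ x, P x → P x⁻¹) (b : Br n) : P b := by
  have : b ∈ Subgroup.closure (Set.range (PresentedGroup.of (rels := braidRels n))) := by
    rw [PresentedGroup.closure_range_of]; trivial
  induction this using Subgroup.closure_induction with
  | mem x hx => obtain ⟨i, rfl⟩ := hx; exact hs i
  | one => exact h1
  | mul x y _ _ hx hy => exact hm x y hx hy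
  | inv x _ hx => exact hi x hx

end Pool.Agent.T3.BURA

namespace Pool.Agent.T3

open Pool.Agent.TB Pool.Agent.LibH11 BURA

theorem bura : BURA_Stmt := by
  intro A _ Q ρ β hρ h0 h1 b
  set q := Q.qp 1 with hq
  have hqi := qp_inv Q
  rw [← hq] at hqi
  have key : ∀ b : Br 2, BURA.Inv q ((cr Q 2 ^ expSum b : Aˣ) : A)
      ((β b : (Matrix (Fin 2) (Fin 2) A)ˣ) : Matrix (Fin 2) (Fin 2) A)
      (((ρ b : (Matrix (Fin 3 → Ev 2) (Fin 3 → Ev 2) A)ˣ) :
        Matrix (Fin 3 → Ev 2) (Fin 3 → Ev 2) A).submatrix stE stE) := by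
    intro b
    induction b using br_ind with
    | h1 =>
      rw [map_one, map_one, expSum_one, zpow_zero, Units.val_one, Units.val_one, Units.val_one,
        Matrix.submatrix_one_equiv]
      exact Inv.one
    | hs i =>
      rw [hρ i, expSum_sg, zpow_one, cr_two, ← hq]
      fin_cases i
      · change BURA.Inv q q ((β (sg 0) : (Matrix (Fin 2) (Fin 2) A)ˣ) : Matrix (Fin 2) (Fin 2) A)
          ((opm (ybt Q 2).R (0 : Fin 2)).submatrix stE stE)
        rw [h0, opm0, qp_two, ← hq]
        exact ⟨M0_su q, M0_sd q, ⟨_, M0_E1 q⟩, ⟨_, M0_E2 q⟩⟩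
      · change BURA.Inv q q ((β (sg 1) : (Matrix (Fin 2) (Fin 2) A)ˣ) : Matrix (Fin 2) (Fin 2) A)
          ((opm (ybt Q 2).R (1 : Fin 2)).submatrix stE stE)
        rw [h1, opm1, qp_two, ← hq]
        exact ⟨M1_su q, M1_sd q, ⟨_, M1_E1 q⟩, ⟨_, M1_E2 q⟩⟩
    | hm x y hx hy =>
      have := hx.mul hy
      rw [map_mul, map_mul, expSum_mul, zpow_add, Units.val_mul, Units.val_mul, Units.val_mul,
        ← Matrix.submatrix_mul_equiv _ _ _ stE]
      exact this
    | hi x hx =>
      rw [map_inv, map_inv, expSum_inv, zpow_neg]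
      refine hx.inv (Units.mul_inv _) (Units.mul_inv _) ?_
      rw [Matrix.submatrix_mul_equiv, Units.inv_mul, Matrix.submatrix_one_equiv]
  have h2 := (key b).trace hqi
  have h3 : trw (ybt Q 2) ρ b = ∑ t : S, (((ρ b : (Matrix (Fin 3 → Ev 2) (Fin 3 → Ev 2) A)ˣ) :
        Matrix (Fin 3 → Ev 2) (Fin 3 → Ev 2) A).submatrix stE stE) t t * kp q (Q.qp (-1)) t := by
    unfold trw
    rw [← stE.sum_comp]
    refine Finset.sum_congr rfl fun t _ => ?_
    rw [Matrix.submatrix_apply]
    congr 1
    have hK : ∀ c : Bool, (ybt Q 2).K (ev c) = if c then Q.qp (-1) else q := by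
      intro c
      change Kw Q 2 _ = _
      cases c
      · simp [Kw, ev, qp_zero, hq]
      · simp [Kw, ev, qp_zero]
    rw [Fin.prod_univ_three]
    change (ybt Q 2).K (ev t.1) * (ybt Q 2).K (ev t.2.1) * (ybt Q 2).K (ev t.2.2) = _
    rw [hK, hK, hK, mul_assoc]
    rfl
  rw [h3, h2, qp_two, qp_neg_two, ← hq]
  rfl

end Pool.Agent.T3
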