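import Pool.Agent.T3.Stmts

/-!
BURE: finite type invariants and the exponent sum determine the trace in `SL(2,ℤ)`.
-/

open Polynomial
open scoped BigOperators Real

namespace Pool.Agent.T3

open Pool.Agent.TB Pool.Agent.LibH11

namespace BURE

/-- at `h = 0` all powers of `q` are `1` -/
lemma cc_qp (m : ℤ) : PowerSeries.constantCoeff (QPS.qp m) = 1 := by
  have h1 : Units.map ((PowerSeries.constantCoeff : PowerSeries ℂ →+* ℂ) : PowerSeries ℂ →* ℂ)
      QPS.s = 1 := by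
    ext
    simp [QPS]
  have h2 : PowerSeries.constantCoeff (QPS.qp m) =
      ((Units.map ((PowerSeries.constantCoeff : PowerSeries ℂ →+* ℂ) : PowerSeries ℂ →* ℂ)
        (QPS.s ^ (2 * m)) : ℂˣ) : ℂ) := rfl
  rw [h2, map_zpow, h1, one_zpow, Units.val_one]

lemma two_ne : QPS.two ≠ 0 := by
  intro h
  have h1 : PowerSeries.constantCoeff QPS.two = (0 : ℂ) := by
    rw [h, map_zero]
  rw [QP.two, map_add, cc_qp, cc_qp] at h1
  norm_num at h1

end BURE

theorem bure (h1 : RYB_Stmt) (h2 : YREP_Stmt) (h3 : YFTM_Stmt) (h4 : BURA_Stmt)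
    (h5 : BURT_Stmt) : BURE_Stmt := by
  intro b b' h h' he hv
  apply h5
  intro β hβ0 hβ1
  obtain ⟨ρ, hρ, -⟩ := h2 (PowerSeries ℂ) (Ev 2) (ybt QPS 2) (h1 2).1 2
  have e1 := h3 (Ev 2) (ybt QPS 2) (h1 2).1 (h1 2).2 2 2 b b' h h' hv ρ ρ hρ hρ
  rw [h4 (PowerSeries ℂ) QPS ρ β hρ hβ0 hβ1 b, h4 (PowerSeries ℂ) QPS ρ β hρ hβ0 hβ1 b', he] at e1
  have e2 := (Units.mul_right_inj _).mp e1
  have e3 := mul_left_cancel₀ BURE.two_ne e2
  exact add_left_cancel e3

end Pool.Agent.T3
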