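import Pool.Agent.T3.Stmts

/-!
# The Burau trace in the power series determines the trace in `SL(2, ℤ)`
-/

set_option autoImplicit false

open Polynomial
open scoped BigOperators Real LaurentPolynomial

namespace Pool.Agent.T3

open Pool.Agent.TB Pool.Agent.LibH11

namespace BURT

section Burau

variable {A : Type} [CommRing A] (x : Aˣ)

/-- The first Burau matrix. -/
def B0 : (Matrix (Fin 2) (Fin 2) A)ˣ where
  val := !![-(x : A), 1; 0, 1]
  inv := !![-((x⁻¹ : Aˣ) : A), ((x⁻¹ : Aˣ) : A); 0, 1]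
  val_inv := by
    ext a b
    fin_cases a <;> fin_cases b <;> simp [Matrix.mul_apply, Fin.sum_univ_two]
  inv_val := by
    ext a b
    fin_cases a <;> fin_cases b <;> simp [Matrix.mul_apply, Fin.sum_univ_two]

/-- The second Burau matrix. -/
def B1 : (Matrix (Fin 2) (Fin 2) A)ˣ where
  val := !![1, 0; (x : A), -(x : A)]
  inv := !![1, 0; 1, -((x⁻¹ : Aˣ) : A)]
  val_inv := by
    ext a b
    fin_cases a <;> fin_cases b <;> simp [Matrix.mul_apply, Fin.sum_univ_two]
  inv_val := by
    ext a b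
    fin_cases a <;> fin_cases b <;> simp [Matrix.mul_apply, Fin.sum_univ_two]

/-- The reduced Burau representation. -/
def bur : Br 2 →* (Matrix (Fin 2) (Fin 2) A)ˣ :=
  liftBr (fun i => if i = 0 then B0 x else B1 x)
    (fun i j h => by omega)
    (fun i j h => by
      have hi : i = 0 := by omega
      have hj : j = 1 := by omega
      subst hi hj
      apply Units.ext
      ext a b
      fin_cases a <;> fin_cases b <;>
        simp [B0, B1, Matrix.mul_apply, Fin.sum_univ_two])

theorem bur_zero : bur x (sg 0) = B0 x := by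
  unfold bur
  rw [liftBr_sg]
  rfl

theorem bur_one : bur x (sg 1) = B1 x := by
  unfold bur
  rw [liftBr_sg]
  rfl

theorem bur_map {B : Type} [CommRing B] (φ : A →+* B) (b : Br 2) :
    ((bur (Units.map (φ : A →* B) x) b : (Matrix (Fin 2) (Fin 2) B)ˣ) :
      Matrix (Fin 2) (Fin 2) B) = φ.mapMatrix (bur x b : (Matrix (Fin 2) (Fin 2) A)ˣ).1 := by
  have h : bur (Units.map (φ : A →* B) x)
      = (Units.map ((φ.mapMatrix : Matrix (Fin 2) (Fin 2) A →+* Matrix (Fin 2) (Fin 2) B) :
          Matrix (Fin 2) (Fin 2) A →* Matrix (Fin 2) (Fin 2) B)).comp (bur x) := by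
    refine PresentedGroup.ext fun i => ?_
    change bur _ (sg i) = Units.map _ (bur x (sg i))
    fin_cases i
    · rw [show (⟨0, by norm_num⟩ : Fin 2) = 0 from rfl, bur_zero, bur_zero]
      apply Units.ext
      ext a b
      fin_cases a <;> fin_cases b <;> simp [B0]
    · rw [show (⟨1, by norm_num⟩ : Fin 2) = 1 from rfl, bur_one, bur_one]
      apply Units.ext
      ext a b
      fin_cases a <;> fin_cases b <;> simp [B1]
  rw [h]
  rfl

theorem trace_map {B : Type} [CommRing B] (φ : A →+* B) (b : Br 2) :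
    (bur (Units.map (φ : A →* B) x) b : (Matrix (Fin 2) (Fin 2) B)ˣ).1.trace
      = φ (bur x b : (Matrix (Fin 2) (Fin 2) A)ˣ).1.trace := by
  rw [bur_map]
  simp [Matrix.trace_fin_two]

end Burau

/-- The variable. -/
noncomputable def tt : ℤ[T;T⁻¹]ˣ where
  val := LaurentPolynomial.T 1
  inv := LaurentPolynomial.T (-1)
  val_inv := by rw [← LaurentPolynomial.T_add]; simp
  inv_val := by rw [← LaurentPolynomial.T_add]; simp

/-- The parameter `(1 + h)^4`. -/
noncomputable def xP : (PowerSeries ℂ)ˣ := QPS.s ^ (4 : ℤ)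

theorem xP_eq : ((xP : (PowerSeries ℂ)ˣ) : PowerSeries ℂ) = QPS.qp 2 := rfl

theorem xP_val : ((xP : (PowerSeries ℂ)ˣ) : PowerSeries ℂ) = (1 + PowerSeries.X) ^ 4 := by
  unfold xP
  rw [show (4 : ℤ) = ((4 : ℕ) : ℤ) from rfl, zpow_natCast, Units.val_pow_eq_pow_val]
  rfl

/-- The expansion of a Laurent polynomial. -/
noncomputable def phi : ℤ[T;T⁻¹] →+* PowerSeries ℂ :=
  LaurentPolynomial.eval₂ (Int.castRingHom (PowerSeries ℂ)) xP

theorem phi_injective : Function.Injective phi := by
  rw [injective_iff_map_eq_zero]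
  intro f hf
  obtain ⟨n, p, hp⟩ := LaurentPolynomial.exists_T_pow f
  have h1 : phi (toLaurent p) = 0 := by rw [hp, map_mul, hf, zero_mul]
  unfold phi at h1
  rw [LaurentPolynomial.eval₂_toLaurent, xP_val] at h1
  have h2 : ((((p.map (Int.castRingHom ℂ)).comp ((1 + X) ^ 4) : ℂ[X]) : PowerSeries ℂ))
      = p.eval₂ (Int.castRingHom (PowerSeries ℂ)) ((1 + PowerSeries.X) ^ 4) := by
    rw [Polynomial.comp, Polynomial.eval₂_map]
    have h3 := Polynomial.hom_eval₂ p ((C : ℂ →+* ℂ[X]).comp (Int.castRingHom ℂ))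
      (Polynomial.coeToPowerSeries.ringHom (R := ℂ)) ((1 + X) ^ 4)
    rw [Polynomial.coeToPowerSeries.ringHom_apply] at h3
    rw [h3]
    congr 1
    · exact RingHom.ext_int _ _
    · simp
  rw [← h2] at h1
  have h4 : (p.map (Int.castRingHom ℂ)).comp ((1 + X) ^ 4) = 0 := by
    exact_mod_cast h1
  rw [Polynomial.comp_eq_zero_iff] at h4
  have h5 : p.map (Int.castRingHom ℂ) = 0 := by
    rcases h4 with h4 | ⟨_, h4⟩
    · exact h4
    · exfalso
      have h6 : ((1 + X : ℂ[X]) ^ 4).natDegree = 4 := by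
        rw [Polynomial.natDegree_pow, show (1 + X : ℂ[X]) = X + C 1 by rw [add_comm]; simp,
          Polynomial.natDegree_X_add_C]
      rw [h4, Polynomial.natDegree_C] at h6
      exact absurd h6 (by norm_num)
  have h7 : p = 0 := by
    refine Polynomial.map_injective (Int.castRingHom ℂ) ?_ ?_
    · exact (Int.castRingHom ℂ).injective_int
    · rw [h5, Polynomial.map_zero]
  rw [h7, map_zero] at hp
  have h8 : f * LaurentPolynomial.T n * LaurentPolynomial.T (-n) = 0 := by rw [← hp, zero_mul]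
  rw [mul_assoc, ← LaurentPolynomial.T_add] at h8
  simpa using h8

/-- The matrix exchanging the basis vectors. -/
def Wu : (Matrix (Fin 2) (Fin 2) ℤ)ˣ where
  val := !![0, 1; 1, 0]
  inv := !![0, 1; 1, 0]
  val_inv := by decide
  inv_val := by decide

theorem rho_eq (b : Br 2) : Matrix.SpecialLinearGroup.toGL (rho b) = Wu * bur (-1) b * Wu⁻¹ := by
  have h : (Matrix.SpecialLinearGroup.toGL : Matrix.SpecialLinearGroup (Fin 2) ℤ →* _).comp rho
      = (MulAut.conj Wu).toMonoidHom.comp (bur (-1)) := by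
    refine PresentedGroup.ext fun i => ?_
    change Matrix.SpecialLinearGroup.toGL (rho (sg i)) = Wu * bur (-1) (sg i) * Wu⁻¹
    unfold rho
    rw [liftBr_sg]
    fin_cases i
    · rw [show (⟨0, by norm_num⟩ : Fin 2) = 0 from rfl, bur_zero]
      apply Units.ext
      ext a b
      fin_cases a <;> fin_cases b <;>
        simp [B0, Wu, mD, Matrix.mul_apply, Fin.sum_univ_two] <;> rfl
    · rw [show (⟨1, by norm_num⟩ : Fin 2) = 1 from rfl, bur_one]
      apply Units.ext
      ext a b
      fin_cases a <;> fin_cases b <;>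
        simp [B1, Wu, mC, Matrix.mul_apply, Fin.sum_univ_two] <;> rfl
  exact DFunLike.congr_fun h b

theorem trace_rho (b : Br 2) :
    (rho b).1.trace = (bur (-1 : ℤˣ) b : (Matrix (Fin 2) (Fin 2) ℤ)ˣ).1.trace := by
  have h := congrArg (fun u : (Matrix (Fin 2) (Fin 2) ℤ)ˣ => u.1.trace) (rho_eq b)
  have h2 : (Wu * bur (-1) b * Wu⁻¹ : (Matrix (Fin 2) (Fin 2) ℤ)ˣ).1.trace
      = (bur (-1 : ℤˣ) b : (Matrix (Fin 2) (Fin 2) ℤ)ˣ).1.trace := by
    rw [Units.val_mul, Units.val_mul, Matrix.trace_mul_comm, ← mul_assoc]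
    simp
  rw [← h2]
  exact h

end BURT

open BURT in
theorem burt : BURT_Stmt := by
  intro b b' h
  have h0 : Units.map (phi : ℤ[T;T⁻¹] →* PowerSeries ℂ) tt = xP := by
    apply Units.ext
    change phi (LaurentPolynomial.T 1) = _
    unfold phi
    rw [LaurentPolynomial.eval₂_T, zpow_one]
  have h1 : Units.map ((LaurentPolynomial.eval₂ (Int.castRingHom ℤ) (-1) : ℤ[T;T⁻¹] →+* ℤ) :
      ℤ[T;T⁻¹] →* ℤ) tt = -1 := by
    apply Units.ext
    change LaurentPolynomial.eval₂ (Int.castRingHom ℤ) (-1) (LaurentPolynomial.T 1) = _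
    rw [LaurentPolynomial.eval₂_T, zpow_one]
  have h2 := h (bur xP) (by rw [bur_zero]; rfl) (by rw [bur_one]; rfl)
  rw [← h0, trace_map, trace_map] at h2
  have h3 := phi_injective h2
  rw [trace_rho, trace_rho, ← h1, trace_map, trace_map, h3]

end Pool.Agent.T3
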