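import Pool.Agent.T3.Stmts
import Pool.Agent.TB.Brk

/-!
CAS: the Casimir element is central and determines the steps.
-/

open Polynomial
open scoped BigOperators

namespace Pool.Agent.T3

open Pool.Agent.TB

namespace CAS

section Abs

variable {F : Type} [Field F] {E : Type} [Ring E] [Algebra F E]

/-- `e_m I_1 e_(m+1) I_1 e_m` -/
def xp (e : ℤ → E) (I1 : E) (m : ℤ) : E := e m * I1 * e (m + 1) * I1 * e m

/-- `e_m I_1 e_(m-1) I_1 e_m` -/
def xn (e : ℤ → E) (I1 : E) (m : ℤ) : E := e m * I1 * e (m - 1) * I1 * e m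

/-- The element `∑ (c_m e_m - k_m X_m)`. -/
def cc (S : Finset ℤ) (e : ℤ → E) (I1 : E) (c k : ℤ → F) : E :=
  ∑ m ∈ S, (c m • e m - k m • xp e I1 m)

variable {S : Finset ℤ} {e : ℤ → E} {I1 : E} {c k : ℤ → F}

theorem cc_mul (h0 : ∀ m, m ∉ S → e m = 0) (h1 : ∀ m, e m * e m = e m)
    (h2 : ∀ m m', m ≠ m' → e m * e m' = 0) (m : ℤ) :
    cc S e I1 c k * e m = c m • e m - k m • xp e I1 m := by
  unfold cc
  rw [Finset.sum_mul, Finset.sum_eq_single m]
  · rw [sub_mul, smul_mul_assoc, smul_mul_assoc, h1]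
    congr 2
    unfold xp
    rw [mul_assoc _ (e m) (e m), h1]
  · intro m' _ hne
    rw [sub_mul, smul_mul_assoc, smul_mul_assoc, h2 m' m hne]
    have : xp e I1 m' * e m = 0 := by
      unfold xp
      rw [mul_assoc _ (e m') (e m), h2 m' m hne, mul_zero]
    rw [this, smul_zero, smul_zero, sub_zero]
  · intro hm
    unfold xp
    rw [h0 m hm]
    simp

theorem mul_cc (h0 : ∀ m, m ∉ S → e m = 0) (h1 : ∀ m, e m * e m = e m)
    (h2 : ∀ m m', m ≠ m' → e m * e m' = 0) (m : ℤ) :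
    e m * cc S e I1 c k = c m • e m - k m • xp e I1 m := by
  unfold cc
  rw [Finset.mul_sum, Finset.sum_eq_single m]
  · rw [mul_sub, mul_smul_comm, mul_smul_comm, h1]
    congr 2
    unfold xp
    simp only [← mul_assoc, h1]
  · intro m' _ hne
    rw [mul_sub, mul_smul_comm, mul_smul_comm, h2 m m' hne.symm]
    have : e m * xp e I1 m' = 0 := by
      unfold xp
      simp only [← mul_assoc, h2 m m' hne.symm, zero_mul]
    rw [this, smul_zero, smul_zero, sub_zero]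
  · intro hm
    unfold xp
    rw [h0 m hm]
    simp

theorem cc_mul' (h0 : ∀ m, m ∉ S → e m = 0) (h1 : ∀ m, e m * e m = e m)
    (h2 : ∀ m m', m ≠ m' → e m * e m' = 0)
    (h5 : ∀ m, k m • xp e I1 m - k (m - 1) • xn e I1 m = (c m - c (m - 1)) • e m) (m : ℤ) :
    cc S e I1 c k * e m = c (m - 1) • e m - k (m - 1) • xn e I1 m := by
  rw [cc_mul h0 h1 h2]
  have h := h5 m
  rw [sub_smul] at h
  have h' : k m • xp e I1 m = c m • e m - c (m - 1) • e m + k (m - 1) • xn e I1 m := by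
    rw [← h]
    abel
  rw [h']
  abel

theorem mul_cc' (h0 : ∀ m, m ∉ S → e m = 0) (h1 : ∀ m, e m * e m = e m)
    (h2 : ∀ m m', m ≠ m' → e m * e m' = 0)
    (h5 : ∀ m, k m • xp e I1 m - k (m - 1) • xn e I1 m = (c m - c (m - 1)) • e m) (m : ℤ) :
    e m * cc S e I1 c k = c (m - 1) • e m - k (m - 1) • xn e I1 m := by
  rw [mul_cc h0 h1 h2, ← cc_mul h0 h1 h2, cc_mul' h0 h1 h2 h5]

theorem cc_comm (h0 : ∀ m, m ∉ S → e m = 0) (h1 : ∀ m, e m * e m = e m)
    (h2 : ∀ m m', m ≠ m' → e m * e m' = 0) (h3 : ∑ m ∈ S, e m = 1)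
    (h4 : ∀ m m', m' ≠ m + 1 → m' ≠ m - 1 → e m * I1 * e m' = 0)
    (h5 : ∀ m, k m • xp e I1 m - k (m - 1) • xn e I1 m = (c m - c (m - 1)) • e m) :
    cc S e I1 c k * I1 = I1 * cc S e I1 c k := by
  obtain ⟨C, hC⟩ : ∃ C, C = cc S e I1 c k := ⟨_, rfl⟩
  have hterm : ∀ m m', C * e m * I1 * e m' = e m * I1 * (e m' * C) := by
    intro m m'
    by_cases hp : m' = m + 1
    · subst hp
      have e1 : C * e m = c m • e m - k m • xp e I1 m := by rw [hC, cc_mul h0 h1 h2]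
      have e2 : e (m + 1) * C = c m • e (m + 1) - k m • xn e I1 (m + 1) := by
        have := mul_cc' h0 h1 h2 h5 (m + 1)
        rw [add_sub_cancel_right] at this
        rw [hC, this]
      rw [e1, e2]
      unfold xp xn
      rw [add_sub_cancel_right]
      simp only [sub_mul, mul_sub, smul_mul_assoc, mul_smul_comm, mul_assoc]
    · by_cases hn : m' = m - 1
      · subst hn
        have e1 : C * e m = c (m - 1) • e m - k (m - 1) • xn e I1 m := by
          rw [hC, cc_mul' h0 h1 h2 h5]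
        have e2 : e (m - 1) * C = c (m - 1) • e (m - 1) - k (m - 1) • xp e I1 (m - 1) := by
          rw [hC, mul_cc h0 h1 h2]
        rw [e1, e2]
        unfold xp xn
        rw [sub_add_cancel]
        simp only [sub_mul, mul_sub, smul_mul_assoc, mul_smul_comm, mul_assoc]
      · have e1 : C * e m * I1 * e m' = C * (e m * I1 * e m') := by simp only [mul_assoc]
        have e2 : e m * I1 * (e m' * C) = e m * I1 * e m' * C := by simp only [mul_assoc]
        rw [e1, e2, h4 m m' hp hn, mul_zero, zero_mul]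
  rw [← hC]
  calc C * I1 = C * (∑ m ∈ S, e m) * I1 * (∑ m' ∈ S, e m') := by rw [h3, mul_one, mul_one]
    _ = ∑ m ∈ S, ∑ m' ∈ S, C * e m * I1 * e m' := by
        rw [Finset.mul_sum _ _ C, Finset.sum_mul, Finset.sum_mul]
        refine Finset.sum_congr rfl fun m _ => ?_
        rw [Finset.mul_sum]
    _ = ∑ m ∈ S, ∑ m' ∈ S, e m * I1 * (e m' * C) :=
        Finset.sum_congr rfl fun m _ => Finset.sum_congr rfl fun m' _ => hterm m m'
    _ = (∑ m ∈ S, e m) * I1 * ((∑ m' ∈ S, e m') * C) := by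
        rw [Finset.sum_mul, Finset.sum_mul]
        refine Finset.sum_congr rfl fun m _ => ?_
        rw [Finset.sum_mul, Finset.mul_sum]
    _ = I1 * C := by rw [h3, one_mul, one_mul]

theorem cc_comm_diag {I2 : E} {lam : ℤ → F}
    (h6 : ∀ m, I2 * e m = lam m • e m ∧ e m * I2 = lam m • e m) :
    cc S e I1 c k * I2 = I2 * cc S e I1 c k := by
  unfold cc
  rw [Finset.sum_mul, Finset.mul_sum]
  refine Finset.sum_congr rfl fun m _ => ?_
  have e1 : xp e I1 m * I2 = lam m • xp e I1 m := by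
    unfold xp
    rw [mul_assoc _ (e m) I2, (h6 m).2, mul_smul_comm]
  have e2 : I2 * xp e I1 m = lam m • xp e I1 m := by
    unfold xp
    simp only [← mul_assoc, (h6 m).1, smul_mul_assoc]
  rw [sub_mul, mul_sub, smul_mul_assoc, smul_mul_assoc, mul_smul_comm, mul_smul_comm, e1, e2,
    (h6 m).1, (h6 m).2]

end Abs

end CAS

open CAS in
theorem cas_thm (h1 : GENF_Stmt) (h2 : ADJ_Stmt) : CAS_Stmt := by
  intro F _ _ Q hQ r E _ _ I1 I2 hR
  obtain ⟨a1, a2, a3, a4, a5, a6⟩ := h2 F Q hQ r E I1 I2 hR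
  obtain ⟨k, hk⟩ : ∃ k : ℤ → F, k = fun m => (Q.qp 1 - Q.qp (-1)) ^ 2 * cu Q m * cu Q (m + 1) :=
    ⟨_, rfl⟩
  have hkm : ∀ m, k (m - 1) = (Q.qp 1 - Q.qp (-1)) ^ 2 * cu Q m * cu Q (m - 1) := by
    intro m
    rw [hk]
    simp only [sub_add_cancel]
    ring
  have b0 : ∀ m, m ∉ Finset.Icc (-(r : ℤ)) r → em Q r I2 m = 0 := by
    intro m hm
    unfold em
    rw [if_neg hm]
  have hXp : ∀ m, xp (em Q r I2) I1 m = Xp Q r I1 I2 m := fun m => rfl
  have hXn : ∀ m, xn (em Q r I2) I1 m = Xn Q r I1 I2 m := fun m => rfl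
  have hcas : cas Q r I1 I2 = CAS.cc (Finset.Icc (-(r : ℤ)) r) (em Q r I2) I1 (cj Q) k := by
    unfold cas CAS.cc
    rw [hk]
    rfl
  have hdiff : ∀ m, cj Q m - cj Q (m - 1) = (Q.qp 1 - Q.qp (-1)) ^ 2 * cu Q m * Q.br m := by
    intro m
    have e1 := BRK.diff Q m
    have e2 : (Q.qp 1 - Q.qp (-1)) ^ 2 * cu Q m * Q.br m =
        (Q.qp 1 - Q.qp (-1)) * cu Q m * ((Q.qp 1 - Q.qp (-1)) * Q.br m) := by ring
    rw [e2, e1]
    unfold cj cu
    have f1 : Q.qp (2 * m + 1) = Q.qp m * Q.qp m * Q.qp 1 := by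
      rw [← BRK.qp_add, ← BRK.qp_add]
      congr 1
      ring
    have f2 : Q.qp (-2 * m - 1) = Q.qp (-m) * Q.qp (-m) * Q.qp (-1) := by
      rw [← BRK.qp_add, ← BRK.qp_add]
      congr 1
      ring
    have f3 : Q.qp (2 * (m - 1) + 1) = Q.qp m * Q.qp m * Q.qp (-1) := by
      rw [← BRK.qp_add, ← BRK.qp_add]
      congr 1
      ring
    have f4 : Q.qp (-2 * (m - 1) - 1) = Q.qp (-m) * Q.qp (-m) * Q.qp 1 := by
      rw [← BRK.qp_add, ← BRK.qp_add]
      congr 1
      ring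
    rw [f1, f2, f3, f4]
    ring
  have b5 : ∀ m, k m • xp (em Q r I2) I1 m - k (m - 1) • xn (em Q r I2) I1 m =
      (cj Q m - cj Q (m - 1)) • em Q r I2 m := by
    intro m
    rw [hXp, hXn, hdiff, hkm, hk]
    have e := congrArg (fun x => ((Q.qp 1 - Q.qp (-1)) ^ 2 * cu Q m) • x) (a6 m)
    simp only [smul_sub, smul_smul] at e
    exact e
  have c1 := cc_comm b0 a1 a2 a3 a5 b5
  have c2 := cc_comm_diag (S := Finset.Icc (-(r : ℤ)) r) (e := em Q r I2) (I1 := I1) (c := cj Q)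
    (k := k) (I2 := I2) (lam := Q.lam) a4
  refine ⟨by rw [hcas]; exact c1, by rw [hcas]; exact c2, ?_, ?_⟩
  · intro m
    have e1 := cc_mul (I1 := I1) (c := cj Q) (k := k) b0 a1 a2 m
    rw [hcas, sub_mul, e1, smul_mul_assoc, one_mul, hXp, hk]
    abel
  · intro m
    have e1 := cc_mul' b0 a1 a2 b5 m
    rw [hcas, sub_mul, e1, smul_mul_assoc, one_mul, hXn, hkm]
    abel

end Pool.Agent.T3
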