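import Pool.Agent.T3.Stmts
import Pool.Agent.TB.Brk

/-!
Closed 3-braids. CASW: the Casimir element and the idempotents in the modules `W_j`.
-/

open Polynomial
open scoped BigOperators

namespace Pool.Agent.T3

open Pool.Agent.TB

namespace CASW

variable {F : Type} [Field F] (Q : QP F)

/-- the values of the Lagrange polynomials -/
lemma basis_eval (hlam : ∀ m m' : ℤ, m ≠ m' → Q.lam m ≠ Q.lam m') (r : ℕ) (m m' : ℤ)
    (hm' : m' ∈ Finset.Icc (-(r : ℤ)) r) :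
    (Q.basis r m).eval (Q.lam m') = if m' = m then 1 else 0 := by
  unfold QP.basis
  rw [eval_prod]
  split_ifs with h
  · subst h
    refine Finset.prod_eq_one fun k hk => ?_
    have hne : Q.lam m' - Q.lam k ≠ 0 := sub_ne_zero.mpr (hlam _ _ (Finset.ne_of_mem_erase hk).symm)
    simp only [eval_mul, eval_C, eval_sub, eval_X]
    rw [Ring.inverse_eq_inv', inv_mul_cancel₀ hne]
  · refine Finset.prod_eq_zero (Finset.mem_erase.mpr ⟨h, hm'⟩) ?_
    simp

lemma em_eq (h2 : WREL_Stmt) (hlam : ∀ m m' : ℤ, m ≠ m' → Q.lam m ≠ Q.lam m') (j : ℕ)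
    (hg : Q.Gen j) (m : Nd j) : em Q j (Iw2 Q j) m = Matrix.single m m 1 := by
  unfold em
  rw [if_pos m.2, (h2 F Q j hg).2.2.2]
  ext a b
  rw [Matrix.diagonal_apply, Matrix.single_apply]
  by_cases hab : a = b
  · subst hab
    rw [if_pos rfl, basis_eval Q hlam j m a a.2]
    by_cases h : a = m
    · subst h
      simp
    · have h' : (a : ℤ) ≠ m := fun h' => h (Subtype.ext h')
      have h'' : ¬ (m = a) := fun h'' => h h''.symm
      rw [if_neg h', if_neg (fun hh => h'' hh.1)]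
  · rw [if_neg hab, if_neg]
    rintro ⟨h3, h4⟩
    exact hab (h3.symm.trans h4)

lemma dbl (hD : Q.qp 1 - Q.qp (-1) ≠ 0) (m : ℤ) : Q.br m * cu Q m = Q.br (2 * m) := by
  apply mul_left_cancel₀ hD
  rw [← mul_assoc, BRK.diff, BRK.diff]
  unfold cu
  have h1 := BRK.qp_add Q m m
  have h2 := BRK.qp_add Q (-m) (-m)
  rw [show 2 * m = m + m by ring, h1, show -(m + m) = -m + -m by ring, h2]
  ring

lemma cu_neg (m : ℤ) : cu Q (-m) = cu Q m := by
  unfold cu
  rw [neg_neg, add_comm]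

lemma up_eq (hD : Q.qp 1 - Q.qp (-1) ≠ 0) (hcu : ∀ m, cu Q m ≠ 0) (j : ℕ) (m : ℤ)
    (h2 : m < j) : cu Q m * upc Q j m = Q.i * Q.br (j - m) := by
  unfold upc
  by_cases h : m = -(j : ℤ)
  · subst h
    rw [if_pos rfl, cu_neg]
    have h3 := dbl Q hD (j : ℤ)
    rw [show (j : ℤ) - -(j : ℤ) = 2 * j by ring, ← h3]
    unfold QP.lam
    ring
  · rw [if_neg h, if_neg h2.ne, Ring.inverse_eq_inv']
    change cu Q m * (Q.i * Q.br (j - m) * (cu Q m)⁻¹) = _
    field_simp [hcu m]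

lemma dn_eq (hD : Q.qp 1 - Q.qp (-1) ≠ 0) (hcu : ∀ m, cu Q m ≠ 0) (j : ℕ) (m : ℤ)
    (h1 : -(j : ℤ) < m) : cu Q m * dnc Q j m = Q.i * Q.br (j + m) := by
  unfold dnc
  by_cases h : m = (j : ℤ)
  · subst h
    rw [if_pos rfl]
    have h3 := dbl Q hD (j : ℤ)
    rw [show (j : ℤ) + (j : ℤ) = 2 * j by ring, ← h3]
    unfold QP.lam
    ring
  · rw [if_neg h, if_neg h1.ne', Ring.inverse_eq_inv']
    change cu Q m * (Q.i * Q.br (j + m) * (cu Q m)⁻¹) = _
    field_simp [hcu m]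

lemma cj_diff (a b : ℤ) : (Q.qp 1 - Q.qp (-1)) ^ 2 * (Q.br (a - b) * Q.br (a + (b + 1)))
    = cj Q a - cj Q b := by
  have e : (Q.qp 1 - Q.qp (-1)) ^ 2 * (Q.br (a - b) * Q.br (a + (b + 1)))
      = ((Q.qp 1 - Q.qp (-1)) * Q.br (a - b)) * ((Q.qp 1 - Q.qp (-1)) * Q.br (a + (b + 1))) := by
    ring
  rw [e, BRK.diff, BRK.diff]
  unfold cj
  have h1 : Q.qp (2 * a + 1) = Q.qp (a - b) * Q.qp (a + (b + 1)) := by
    rw [← BRK.qp_add]
    congr 1
    ring
  have h2 : Q.qp (-2 * a - 1) = Q.qp (-(a - b)) * Q.qp (-(a + (b + 1))) := by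
    rw [← BRK.qp_add]
    congr 1
    ring
  have h3 : Q.qp (2 * b + 1) = Q.qp (-(a - b)) * Q.qp (a + (b + 1)) := by
    rw [← BRK.qp_add]
    congr 1
    ring
  have h4 : Q.qp (-2 * b - 1) = Q.qp (a - b) * Q.qp (-(a + (b + 1))) := by
    rw [← BRK.qp_add]
    congr 1
    ring
  rw [h1, h2, h3, h4]
  ring

end CASW

open CASW in
/-- **CASW**: in the modules `W_j` the Casimir element is the scalar `c_j`, the idempotents are the
matrix units. -/
theorem casw (h1 : GENF_Stmt) (h2 : WREL_Stmt) : CASW_Stmt := by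
  intro F _ _ Q hQ j
  obtain ⟨hlam, hgr, hcu, hD, -, -⟩ := h1 F Q hQ
  have hg := (hgr j).1
  have hem := em_eq Q h2 hlam j hg
  refine ⟨?_, hem⟩
  have hone : (1 : Matrix (Nd j) (Nd j) F) = ∑ m : Nd j, Matrix.single m m 1 := by
    ext a b
    rw [Matrix.sum_apply, Matrix.one_apply]
    simp only [Matrix.single_apply]
    by_cases hab : a = b
    · subst hab
      simp
    · rw [if_neg hab]
      symm
      refine Finset.sum_eq_zero fun m _ => if_neg ?_
      rintro ⟨h3, h4⟩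
      exact hab (h3.symm.trans h4)
  unfold cas
  rw [← Finset.sum_coe_sort (Finset.Icc (-(j : ℤ)) j), hone, Finset.smul_sum]
  refine Finset.sum_congr rfl fun m _ => ?_
  unfold Xp
  rw [hem m]
  have hm := Finset.mem_Icc.mp m.2
  rcases hm.2.lt_or_eq with h | h
  · have hm1 : (m : ℤ) + 1 ∈ Finset.Icc (-(j : ℤ)) j := Finset.mem_Icc.mpr (by omega)
    have h3 := hem ⟨(m : ℤ) + 1, hm1⟩
    change em Q j (Iw2 Q j) ((m : ℤ) + 1) = _ at h3
    rw [h3, Matrix.single_mul_mul_single, Matrix.mul_assoc, ← Matrix.mul_assoc,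
      Matrix.single_mul_mul_single]
    have e1 : Iw1 Q j m ⟨(m : ℤ) + 1, hm1⟩ = upc Q j m := by
      unfold Iw1
      rw [if_pos rfl]
    have e2 : Iw1 Q j ⟨(m : ℤ) + 1, hm1⟩ m = dnc Q j ((m : ℤ) + 1) := by
      unfold Iw1
      rw [if_neg (by simp; omega), if_pos (by simp)]
    have h4 := up_eq Q hD hcu j m h
    have h5 := dn_eq Q hD hcu j ((m : ℤ) + 1) (by omega)
    have h6 := cj_diff Q j m
    have h7 := Q.hi
    have h8 : (Q.qp 1 - Q.qp (-1)) ^ 2 * cu Q m * cu Q ((m : ℤ) + 1) *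
        (upc Q j m * dnc Q j ((m : ℤ) + 1)) =
        (Q.qp 1 - Q.qp (-1)) ^ 2 * ((cu Q m * upc Q j m) * (cu Q ((m : ℤ) + 1) *
          dnc Q j ((m : ℤ) + 1))) := by ring
    have hs : cj Q j = cj Q m - (Q.qp 1 - Q.qp (-1)) ^ 2 * cu Q m * cu Q ((m : ℤ) + 1) *
        (upc Q j m * dnc Q j ((m : ℤ) + 1)) := by
      rw [h8, h4, h5]
      linear_combination ((Q.qp 1 - Q.qp (-1)) ^ 2 * (Q.br (j - m) * Q.br (j + (m + 1)))) * h7 - h6
    rw [e1, e2, hs]
    ext a b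
    simp only [Matrix.sub_apply, Matrix.smul_apply, Matrix.single_apply, smul_eq_mul]
    split_ifs
    · ring
    · ring
  · have h3 : em Q j (Iw2 Q j) ((m : ℤ) + 1) = 0 := by
      unfold em
      rw [if_neg]
      rw [Finset.mem_Icc]
      omega
    rw [h3, mul_zero, zero_mul, zero_mul, smul_zero, sub_zero, h]

end Pool.Agent.T3
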