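import Pool.Agent.T3.Stmts2
import Pool.Agent.TB.Zt

/-!
Finite type invariants of closed 3-braids: module CHF, the chirp function.
-/

open Polynomial Filter Topology
open scoped BigOperators Real

namespace Pool.Agent.T3.CHF

open Pool.Agent.TB Pool.Agent.LibH11

variable (n : ℕ) [NeZero n] (ι : ℤ)

theorem s1_sq : s1 n ι ^ (2 : ℤ) = sz n ι ^ (2 : ℤ) := by
  unfold s1
  split_ifs
  · rfl
  · exact Even.neg_zpow (by decide) _

theorem s1_even (k : ℤ) : s1 n ι ^ (2 * k) = sz n ι ^ (2 * k) := by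
  rw [zpow_mul, s1_sq, ← zpow_mul]

theorem zt_eq (h : IsCoprime ι (2 * n : ℤ)) (a : ℤ) :
    zt n ι (a : ZMod (2 * n)) = ((s1 n ι ^ (2 * a) : ℂˣ) : ℂ) := by
  rw [s1_even]
  exact (zt_basic n ι h).2.2.1 a

theorem s1_per (h : IsCoprime ι (2 * n : ℤ)) (t : ℤ) : s1 n ι ^ (4 * n * t) = 1 := by
  have h1 := zt_eq n ι h (2 * n * t)
  have h2 : ((2 * n * t : ℤ) : ZMod (2 * n)) = 0 := by
    have h3 : ((2 * n : ℕ) : ZMod (2 * n)) = 0 := ZMod.natCast_self _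
    push_cast at h3 ⊢
    rw [h3, zero_mul]
  rw [h2, (zt_basic n ι h).1] at h1
  have h4 : (2 * (2 * n * t) : ℤ) = 4 * n * t := by ring
  rw [h4] at h1
  apply Units.ext
  rw [← h1]
  rfl

theorem chf_int (h : IsCoprime ι (2 * n : ℤ)) (k : ℤ) :
    chf n ι (k : ZMod (2 * n)) = s1 n ι ^ (k ^ 2) := by
  unfold chf
  have hv : (((k : ZMod (2 * n)).val : ℕ) : ℤ) = k % ((2 * n : ℕ) : ℤ) := ZMod.val_intCast k
  set v : ℤ := (((k : ZMod (2 * n)).val : ℕ) : ℤ) with hvdef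
  have hk : k = v + 2 * n * (k / ((2 * n : ℕ) : ℤ)) := by
    rw [hv]
    have h1 := Int.emod_add_mul_ediv k ((2 * n : ℕ) : ℤ)
    conv_lhs => rw [← h1]
    push_cast
    ring
  have h2 : k ^ 2 = v ^ 2 + 4 * n * (v * (k / ((2 * n : ℕ) : ℤ)) +
      n * (k / ((2 * n : ℕ) : ℤ)) ^ 2) := by
    generalize k / ((2 * n : ℕ) : ℤ) = t at hk ⊢
    rw [hk]
    ring
  rw [h2, zpow_add, s1_per n ι h, mul_one]

theorem norm_s1 : ‖((s1 n ι : ℂˣ) : ℂ)‖ = 1 := by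
  have h : ‖((sz n ι : ℂˣ) : ℂ)‖ = 1 := by
    have h1 : ((sz n ι : ℂˣ) : ℂ) = Complex.exp (((π * ι / (2 * n) : ℝ) : ℂ) * Complex.I) := by
      simp only [sz, Units.val_mk0]
      congr 1
      push_cast
      ring
    rw [h1]
    exact Complex.norm_exp_ofReal_mul_I _
  unfold s1
  split_ifs
  · exact h
  · rw [Units.val_neg, norm_neg]
    exact h

end Pool.Agent.T3.CHF

namespace Pool.Agent.T3

open Pool.Agent.TB Pool.Agent.LibH11

open CHF in
theorem chf_thm : CHF_Stmt := by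
  intro n _ ι h _
  have hint := chf_int n ι h
  have hsurj : ∀ u : ZMod (2 * n), ∃ k : ℤ, (k : ZMod (2 * n)) = u :=
    fun u => ZMod.intCast_surjective u
  refine ⟨hint, fun u => ?_, fun u v => ?_, fun u => ?_, fun u => ?_, ?_⟩
  · obtain ⟨k, rfl⟩ := hsurj u
    have h1 : ((k : ZMod (2 * n)) ^ 2) = ((k ^ 2 : ℤ) : ZMod (2 * n)) := by push_cast; rfl
    rw [h1, zt_eq n ι h, hint, mul_comm 2, zpow_mul, Units.val_zpow_eq_zpow_val _ (2 : ℤ)]
    rfl
  · obtain ⟨a, rfl⟩ := hsurj u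
    obtain ⟨b, rfl⟩ := hsurj v
    have h1 : ((a : ZMod (2 * n)) * b) = ((a * b : ℤ) : ZMod (2 * n)) := by push_cast; rfl
    have h2 : ((a : ZMod (2 * n)) + b) = ((a + b : ℤ) : ZMod (2 * n)) := by push_cast; rfl
    rw [h1, h2, zt_eq n ι h, hint, hint, hint, ← Units.val_mul, ← Units.val_mul, ← zpow_add,
      ← zpow_add]
    congr 2
    ring
  · obtain ⟨a, rfl⟩ := hsurj u
    have h2 : -(a : ZMod (2 * n)) = ((-a : ℤ) : ZMod (2 * n)) := by push_cast; rfl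
    rw [h2, hint, hint, neg_sq]
  · obtain ⟨a, rfl⟩ := hsurj u
    rw [hint, Units.val_zpow_eq_zpow_val, norm_zpow, norm_s1, one_zpow]
  · have h1 := hint 0
    rw [Int.cast_zero] at h1
    rw [h1]
    simp

end Pool.Agent.T3
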