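import Pool.Agent.T3.Stmts2
import Pool.Agent.TB.Lft

/-!
Finite type invariants of closed 3-braids: CHID, the trace on `W_r` over the dual numbers in the
torus model. See PAPER.md in this folder.
-/

open Polynomial Filter Topology
open scoped BigOperators Real

namespace Pool.Agent.T3

open Pool.Agent.TB Pool.Agent.LibH11

namespace CHID

variable {n r : ℕ} [NeZero n] {ι : ℤ}

/-- the word on `W_r` corresponds to the word in the torus model -/
theorem word
    (Φ : (Nd r → DualNumber ℂ) →ₗ[DualNumber ℂ] (ZMod (2 * n) → DualNumber ℂ))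
    (hC : ∀ (a : ℤ) (g : Nd r → DualNumber ℂ),
        Φ (Matrix.mulVec (Matrix.diagonal fun m : Nd r =>
            (((QD (sz n ι)).fu m ^ a : (DualNumber ℂ)ˣ) : DualNumber ℂ)) g) =
          (((QD (sz n ι)).fu r ^ a : (DualNumber ℂ)ˣ) : DualNumber ℂ) • LC n ι a (Φ g))
    (hD : ∀ (a : ℤ) (g : Nd r → DualNumber ℂ),
        Φ (Matrix.mulVec (aeval (Iw1 (QD (sz n ι)) r) ((QD (sz n ι)).interp r fun m =>
            (((QD (sz n ι)).fu m ^ a : (DualNumber ℂ)ˣ) : DualNumber ℂ))) g) =
          (((QD (sz n ι)).fu r ^ a : (DualNumber ℂ)ˣ) : DualNumber ℂ) • LD n ι a (Φ g))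
    (x : List ℤ) : ∀ (b : Bool) (g : Nd r → DualNumber ℂ),
      Φ (Matrix.mulVec (wm (QD (sz n ι)) r b x) g) =
        (((QD (sz n ι)).fu r ^ x.sum : (DualNumber ℂ)ˣ) : DualNumber ℂ) •
          wd n ι b x (Φ g) := by
  induction x with
  | nil =>
    intro b g
    cases b
    · simp [wm, wd]
    · simp [wm, wd]
  | cons a l ih =>
    intro b g
    cases b
    · have e1 : wm (QD (sz n ι)) r false (a :: l) =
          aeval (Iw1 (QD (sz n ι)) r) ((QD (sz n ι)).interp r fun m =>
            (((QD (sz n ι)).fu m ^ a : (DualNumber ℂ)ˣ) : DualNumber ℂ)) *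
            wm (QD (sz n ι)) r true l := rfl
      have e2 : wd n ι false (a :: l) = LD n ι a * wd n ι true l := rfl
      rw [e1, e2, ← Matrix.mulVec_mulVec, hD, ih true g, map_smul, smul_smul, List.sum_cons,
        zpow_add, Units.val_mul, Module.End.mul_apply]
    · have e1 : wm (QD (sz n ι)) r true (a :: l) =
          Matrix.diagonal (fun m : Nd r =>
            (((QD (sz n ι)).fu m ^ a : (DualNumber ℂ)ˣ) : DualNumber ℂ)) *
            wm (QD (sz n ι)) r false l := rfl
      have e2 : wd n ι true (a :: l) = LC n ι a * wd n ι false l := rfl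
      rw [e1, e2, ← Matrix.mulVec_mulVec, hC, ih false g, map_smul, smul_smul, List.sum_cons,
        zpow_add, Units.val_mul, Module.End.mul_apply]

end CHID

/-- CHID: the trace on `W_r` over the dual numbers in the torus model. -/
theorem chid (h1 : PHI3_Stmt) (h2 : TRD_Stmt) (h3 : DER3_Stmt) (_h4 : EGO3_Stmt) : CHID_Stmt := by
  intro n r _ ι hn hr hι x hx
  obtain ⟨Φ, Ψ, hΨΦ, hΦΨ, hC, hD⟩ := h1 n r ι hn hr hι
  have heven : Even n := by
    rw [hn]
    exact even_two_mul r
  set c : DualNumber ℂ := (((QD (sz n ι)).fu r ^ x.sum : (DualNumber ℂ)ˣ) : DualNumber ℂ) with hc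
  have hw := CHID.word (ι := ι) Φ hC hD x false
  set L : (Nd r → DualNumber ℂ) →ₗ[DualNumber ℂ] (Nd r → DualNumber ℂ) :=
    Matrix.toLin' (wm (QD (sz n ι)) r false x) with hL
  have e1 : Φ ∘ₗ L = c • (wd n ι false x ∘ₗ Φ) := by
    apply LinearMap.ext
    intro g
    rw [LinearMap.comp_apply, hL, Matrix.toLin'_apply, hw, LinearMap.smul_apply,
      LinearMap.comp_apply]
  have e2 : L = Ψ ∘ₗ (Φ ∘ₗ L) := by
    rw [← LinearMap.comp_assoc, hΨΦ, LinearMap.id_comp]
  have e3 : chi (QD (sz n ι)) r x = LinearMap.trace (DualNumber ℂ) (Nd r → DualNumber ℂ) L := by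
    rw [hL, Matrix.trace_toLin'_eq]
    rfl
  have e4 : LinearMap.trace (DualNumber ℂ) (Nd r → DualNumber ℂ) L =
      c * LinearMap.trace (DualNumber ℂ) (ZMod (2 * n) → DualNumber ℂ)
        (wd n ι false x * lift2 n (Pev n) 0) := by
    rw [e2, LinearMap.trace_comp_comm', e1, LinearMap.smul_comp, map_smul, smul_eq_mul,
      LinearMap.comp_assoc, hΦΨ]
    rfl
  rw [e3, e4, h3 n ι hι heven x hx, LFT.lift2_mul, mul_zero, zero_add, h2, J0, J1, tre, tre,
    LinearMap.trace_mul_comm ℂ (ww n ι false x), LinearMap.trace_mul_comm ℂ (w1 n ι x)]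

end Pool.Agent.T3
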