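import Pool.Agent.T3.Stmts2

/-!
CHN3: elementary facts on the chain, the matrix and the quadratic form of a word.
-/

namespace Pool.Agent.T3

open Pool.Agent.TB Pool.Agent.LibH11

namespace CHN3

lemma ch3_succ (x : List ℤ) (i : ℕ) :
    ch3 x (i + 2) = ch3 x i + ((-1) ^ i * x.getD i 0) • ch3 x (i + 1) := rfl

lemma det_ch3 (x : List ℤ) (j : ℕ) : det2 (ch3 x j) (ch3 x (j + 1)) = (-1) ^ j := by
  induction j with
  | zero => simp [ch3, det2]
  | succ j ih =>
    rw [ch3_succ]
    unfold det2 at ih ⊢
    simp only [Prod.fst_add, Prod.snd_add, Prod.smul_fst, Prod.smul_snd, smul_eq_mul]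
    rw [pow_succ, ← ih]
    ring

lemma ch3_append (x : List ℤ) (a : ℤ) : ∀ j, j ≤ x.length + 1 → ch3 (x ++ [a]) j = ch3 x j := by
  intro j
  induction j using Nat.strong_induction_on with
  | _ j ih =>
    intro hj
    match j with
    | 0 => rfl
    | 1 => rfl
    | i + 2 =>
      rw [ch3_succ, ch3_succ, ih i (by omega) (by omega), ih (i + 1) (by omega) (by omega)]
      congr 3
      rw [List.getD_eq_getElem?_getD, List.getD_eq_getElem?_getD, List.getElem?_append_left
        (by omega)]

lemma mD_pow (a : ℤ) : (mD ^ a).1 = !![1, 0; a, 1] := by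
  have h : ∀ n : ℕ, (mD ^ n).1 = !![1, 0; (n : ℤ), 1] := by
    intro n
    induction n with
    | zero => ext i j; fin_cases i <;> fin_cases j <;> simp
    | succ n ih =>
      rw [pow_succ, Matrix.SpecialLinearGroup.coe_mul, ih]
      ext i j
      fin_cases i <;> fin_cases j <;> simp [mD, Matrix.mul_apply, Fin.sum_univ_two]
  rcases Int.eq_nat_or_neg a with ⟨n, rfl | rfl⟩
  · rw [zpow_natCast]
    exact h n
  · rw [zpow_neg, zpow_natCast, Matrix.SpecialLinearGroup.coe_inv, h n, Matrix.adjugate_fin_two_of]
    simp

lemma mC_pow (a : ℤ) : (mC ^ a).1 = !![1, -a; 0, 1] := by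
  have h : ∀ n : ℕ, (mC ^ n).1 = !![1, -(n : ℤ); 0, 1] := by
    intro n
    induction n with
    | zero => ext i j; fin_cases i <;> fin_cases j <;> simp
    | succ n ih =>
      rw [pow_succ, Matrix.SpecialLinearGroup.coe_mul, ih]
      ext i j
      fin_cases i <;> fin_cases j <;> simp [mC, Matrix.mul_apply, Fin.sum_univ_two]
  rcases Int.eq_nat_or_neg a with ⟨n, rfl | rfl⟩
  · rw [zpow_natCast]
    exact h n
  · rw [zpow_neg, zpow_natCast, Matrix.SpecialLinearGroup.coe_inv, h n, Matrix.adjugate_fin_two_of]
    simp

/-- The letter after a word of length `n` that starts with `b`. -/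
def letter (b : Bool) (n : ℕ) (a : ℤ) : Matrix.SpecialLinearGroup (Fin 2) ℤ :=
  if xor b (decide (Odd n)) then mC ^ a else mD ^ a

lemma mw_append (x : List ℤ) : ∀ (b : Bool) (a : ℤ),
    mw b (x ++ [a]) = mw b x * letter b x.length a := by
  induction x with
  | nil =>
    intro b a
    cases b <;> simp [mw, letter]
  | cons c l ih =>
    intro b a
    cases b
    · show mD ^ c * mw true (l ++ [a]) = mD ^ c * mw true l * letter false (l.length + 1) a
      rw [ih, mul_assoc]
      congr 2
      unfold letter
      rcases Nat.even_or_odd l.length with h | h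
      · have h1 : ¬ Odd l.length := by simpa using h
        have h2 : Odd (l.length + 1) := h.add_one
        simp [h1, h2]
      · have h2 : ¬ Odd (l.length + 1) := by simpa using h.add_one
        simp [h, h2]
    · show mC ^ c * mw false (l ++ [a]) = mC ^ c * mw false l * letter true (l.length + 1) a
      rw [ih, mul_assoc]
      congr 2
      unfold letter
      rcases Nat.even_or_odd l.length with h | h
      · have h1 : ¬ Odd l.length := by simpa using h
        have h2 : Odd (l.length + 1) := h.add_one
        simp [h1, h2]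
      · have h2 : ¬ Odd (l.length + 1) := by simpa using h.add_one
        simp [h, h2]

/-- The products of the first letters. -/
lemma mw_val (x : List ℤ) : (mw false x).1 =
    if Even x.length then !![(ch3 x x.length).1, (ch3 x (x.length + 1)).1;
      (ch3 x x.length).2, (ch3 x (x.length + 1)).2]
    else !![(ch3 x (x.length + 1)).1, (ch3 x x.length).1;
      (ch3 x (x.length + 1)).2, (ch3 x x.length).2] := by
  induction x using List.reverseRecOn with
  | nil => ext i j; fin_cases i <;> fin_cases j <;> simp [mw, ch3]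
  | append_singleton x a ih =>
    have hlen : (x ++ [a]).length = x.length + 1 := by simp
    have hget : (x ++ [a]).getD x.length 0 = a := by
      rw [List.getD_eq_getElem?_getD]
      simp
    have h1 : ch3 (x ++ [a]) (x.length + 1) = ch3 x (x.length + 1) :=
      ch3_append x a _ le_rfl
    have h2 : ch3 (x ++ [a]) (x.length + 1 + 1) =
        ch3 x x.length + ((-1) ^ x.length * a) • ch3 x (x.length + 1) := by
      show ch3 (x ++ [a]) (x.length + 2) = _
      rw [ch3_succ, hget, ch3_append x a _ (by omega), h1]
    rw [mw_append, Matrix.SpecialLinearGroup.coe_mul, ih, hlen, h1, h2]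
    unfold letter
    rcases Nat.even_or_odd x.length with h | h
    · have h3 : ¬ Odd x.length := by simpa using h
      have h4 : ¬ Even (x.length + 1) := by simpa using h.add_one
      rw [if_pos h, if_neg h4]
      simp only [h3, decide_false, Bool.xor_false, Bool.false_eq_true, if_false]
      rw [mD_pow]
      ext i j
      fin_cases i <;> fin_cases j <;>
        simp [Matrix.mul_apply, Fin.sum_univ_two, h.neg_one_pow, mul_comm]
    · have h3 : ¬ Even x.length := by simpa using h
      have h4 : Even (x.length + 1) := h.add_one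
      rw [if_neg h3, if_pos h4]
      simp only [h, decide_true, Bool.xor_true, Bool.not_false, if_true]
      rw [mC_pow]
      ext i j
      fin_cases i <;> fin_cases j <;>
        simp [Matrix.mul_apply, Fin.sum_univ_two, h.neg_one_pow, mul_comm, add_comm]

lemma odd_form {p q r s u v : ℤ} (hr : Odd r) (hq : Odd q) (hs : Odd (s - p))
    (huv : ¬ (Even u ∧ Even v)) : Odd (u ^ 2 * r + u * v * (s - p) - v ^ 2 * q) := by
  rcases Int.even_or_odd u with hu | hu <;> rcases Int.even_or_odd v with hv | hv
  · exact absurd ⟨hu, hv⟩ huv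
  · have h1 : Even (u ^ 2 * r) := (hu.pow_of_ne_zero (by norm_num)).mul_right _
    have h2 : Even (u * v * (s - p)) := (hu.mul_right _).mul_right _
    exact (h1.add h2).sub_odd ((hv.pow).mul hq)
  · have h1 : Odd (u ^ 2 * r) := hu.pow.mul hr
    have h2 : Even (u * v * (s - p)) := (hv.mul_left _).mul_right _
    have h3 : Even (v ^ 2 * q) := (hv.pow_of_ne_zero (by norm_num)).mul_right _
    exact (h1.add_even h2).sub_even h3
  · have h1 : Odd (u ^ 2 * r) := hu.pow.mul hr
    have h2 : Odd (u * v * (s - p)) := (hu.mul hv).mul hs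
    exact (h1.add_odd h2).sub_odd (hv.pow.mul hq)

end CHN3

open CHN3 in
theorem chn3 : CHN3_Stmt := by
  intro x hx
  have hdet := det_ch3 x
  have hm : det2 (ch3 x x.length) (ch3 x (x.length + 1)) = 1 := by
    rw [hdet, hx.neg_one_pow]
  have hval := mw_val x
  rw [if_pos hx] at hval
  have hform : ∀ R, Qw x R = R.1 ^ 2 * (ch3 x x.length).2 +
      R.1 * R.2 * ((ch3 x (x.length + 1)).2 - (ch3 x x.length).1) -
        R.2 ^ 2 * (ch3 x (x.length + 1)).1 := by
    intro R
    simp only [Qw, Aw, det2, Prod.fst_add, Prod.snd_add, Prod.smul_fst, Prod.smul_snd, smul_eq_mul]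
    ring
  have hAdet : ∀ R R' : ℤ × ℤ, det2 (Aw x R) (Aw x R') = det2 R R' := by
    intro R R'
    have e : det2 (Aw x R) (Aw x R') =
        det2 R R' * det2 (ch3 x x.length) (ch3 x (x.length + 1)) := by
      simp only [Aw, det2, Prod.fst_add, Prod.snd_add, Prod.smul_fst, Prod.smul_snd, smul_eq_mul]
      ring
    rw [e, hm, mul_one]
  refine ⟨hdet, ?_, ?_, ?_, hform, ?_, ?_, ?_, ?_, ⟨?_, ?_⟩, hAdet⟩
  · intro R
    unfold act
    rw [hval]
    ext <;> simp [Aw, mul_comm]
  · rw [hval, Matrix.trace_fin_two]
    simp [tw3]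
  · intro R
    unfold qf
    rw [hval]
    simp only [Qw, Aw, det2, Prod.fst_add, Prod.snd_add, Prod.smul_fst, Prod.smul_snd, smul_eq_mul,
      Matrix.mulVec, dotProduct, Fin.sum_univ_two, Matrix.of_apply, Matrix.cons_val_zero,
      Matrix.cons_val_one, Matrix.cons_val', Matrix.cons_val_fin_one]
    ring
  · intro n R
    rw [hform]
    unfold Qm
    push_cast
    ring
  · intro R
    show det2 (Aw x R) (Aw x (Aw x R)) = det2 R (Aw x R)
    exact hAdet _ _
  · intro j a b
    rw [hform, hform, hform, hform]
    simp only [Prod.fst_add, Prod.snd_add, Prod.fst_sub, Prod.snd_sub, Prod.smul_fst,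
      Prod.smul_snd, smul_eq_mul]
    ring
  · intro ht
    have hm' := hm
    unfold det2 at hm'
    unfold tw3 at ht
    set p := (ch3 x x.length).1
    set r := (ch3 x x.length).2
    set q := (ch3 x (x.length + 1)).1
    set s := (ch3 x (x.length + 1)).2
    have hps : Even (p * s) := by
      rcases Int.even_or_odd p with h | h
      · exact h.mul_right _
      · have : Even s := by
          rcases Int.even_or_odd s with h' | h'
          · exact h'
          · exact absurd ht (by simpa using h.add_odd h')
        exact this.mul_left _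
    have hqr : Odd (r * q) := by
      have e : r * q = p * s - 1 := by linarith
      rw [e]
      exact hps.sub_odd odd_one
    obtain ⟨hr, hq⟩ := Int.odd_mul.1 hqr
    have hsp : Odd (s - p) := by
      have e : s - p = (p + s) - 2 * p := by ring
      rw [e]
      exact ht.sub_even (even_two_mul p)
    have hodd : ∀ R : ℤ × ℤ, ¬ (Even R.1 ∧ Even R.2) → Odd (Qw x R) := by
      intro R hR
      rw [hform]
      exact odd_form hr hq hsp hR
    have hprim : ∀ R R' : ℤ × ℤ, Odd (det2 R R') → ¬ (Even R.1 ∧ Even R.2) := by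
      rintro R R' h ⟨h1, h2⟩
      unfold det2 at h
      have h3 : Even (R.1 * R'.2 - R.2 * R'.1) := (h1.mul_right _).sub (h2.mul_right _)
      exact absurd h (by simpa using h3)
    have hneg : ∀ j : ℕ, Odd ((-1 : ℤ) ^ j) := fun j => (odd_neg_one).pow
    have hg : ∀ j, Odd (Qw x (ch3 x j)) := fun j =>
      hodd _ (hprim _ (ch3 x (j + 1)) (by rw [hdet]; exact hneg j))
    intro j
    refine ⟨hg j, ?_⟩
    have h5 : Odd (Qw x (ch3 x j + ch3 x (j + 1))) := by
      refine hodd _ (hprim _ (ch3 x (j + 1)) ?_)
      have e : det2 (ch3 x j + ch3 x (j + 1)) (ch3 x (j + 1)) =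
          det2 (ch3 x j) (ch3 x (j + 1)) := by
        simp only [det2, Prod.fst_add, Prod.snd_add]
        ring
      rw [e, hdet]
      exact hneg j
    exact (h5.sub_odd (hg j)).sub_odd (hg (j + 1))
  · show (1 : ℤ) • ch3 x x.length + (0 : ℤ) • ch3 x (x.length + 1) = _
    simp
  · show (0 : ℤ) • ch3 x x.length + (1 : ℤ) • ch3 x (x.length + 1) = _
    simp

end Pool.Agent.T3
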