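import Pool.Agent.T3.Stmts2

/-!
# T3, module CNJ3: conjugacy in `B_3` from conjugacy in `SL(2,ℤ)`
-/

namespace Pool.Agent.T3

open Pool.Agent.TB Pool.Agent.LibH11

namespace CNJ3

/-- The exponent sum as a homomorphism. -/
def eh (n : ℕ) : Br n →* Multiplicative ℤ :=
  liftBr (fun _ => Multiplicative.ofAdd (1 : ℤ)) (fun _ _ _ => rfl) (fun _ _ _ => rfl)

lemma expSum_eq {n : ℕ} (b : Br n) : expSum b = Multiplicative.toAdd (eh n b) := rfl

lemma expSum_mul {n : ℕ} (b c : Br n) : expSum (b * c) = expSum b + expSum c := by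
  rw [expSum_eq, map_mul, toAdd_mul]
  rfl

lemma expSum_inv {n : ℕ} (b : Br n) : expSum b⁻¹ = -expSum b := by
  rw [expSum_eq, map_inv, toAdd_inv]
  rfl

lemma expSum_zpow {n : ℕ} (b : Br n) (k : ℤ) : expSum (b ^ k) = k * expSum b := by
  rw [expSum_eq, map_zpow, toAdd_zpow, smul_eq_mul]
  rfl

lemma expSum_sg {n : ℕ} (i : Fin n) : expSum (sg i) = 1 := by
  rw [expSum_eq]
  simp [eh]

end CNJ3

open CNJ3 in
/-- **(CNJ3)** -/
theorem cnj3 (h1 : KER3_Stmt) (_h2 : WORD_Stmt) : CNJ3_Stmt := by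
  intro b b' he hc
  obtain ⟨hk, -, hs⟩ := h1
  obtain ⟨c, hc⟩ := isConj_iff.1 hc
  obtain ⟨g, rfl⟩ := hs c
  have hr : rho (g * b * g⁻¹ * b'⁻¹) = 1 := by
    rw [map_mul, map_mul, map_mul, map_inv, map_inv, hc, mul_inv_cancel]
  obtain ⟨k, hk⟩ := hk _ hr
  have h3 := congrArg expSum hk
  rw [expSum_mul, expSum_mul, expSum_mul, expSum_inv, expSum_inv, expSum_zpow, expSum_mul,
    expSum_sg, expSum_sg, he] at h3
  have h4 : k = 0 := by linarith
  rw [h4, mul_zero, zpow_zero, mul_inv_eq_one] at hk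
  exact isConj_iff.2 ⟨g, hk⟩

end Pool.Agent.T3
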