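import Pool.Agent.T3.Stmts2

/-!
CSC3: the limit of the sums of `1/sin²`.
-/

open Filter Topology
open scoped BigOperators Real

namespace Pool.Agent.T3

open Pool.Agent.TB

namespace CSC3

/-- the summand -/
noncomputable def fs (s : ℕ) (m : ℤ) : ℝ := (π / 2 ^ s) ^ 2 / Real.sin (π * m / 2 ^ s) ^ 2

lemma fs_nonneg (s : ℕ) (m : ℤ) : 0 ≤ fs s m := by unfold fs; positivity

lemma fs_add (s : ℕ) (m k : ℤ) : fs s (m + k * 2 ^ s) = fs s m := by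
  unfold fs
  have h1 : π * ((m + k * 2 ^ s : ℤ) : ℝ) / 2 ^ s = π * m / 2 ^ s + k * π := by
    push_cast
    field_simp
  rw [h1, Real.sin_add_int_mul_pi, mul_pow]
  have h2 : (((-1 : ℝ) ^ k) ^ 2) = 1 := by
    rw [← zpow_natCast, ← zpow_mul, mul_comm, zpow_mul]
    norm_num
  rw [h2, one_mul]

lemma fs_congr (s : ℕ) {m m' : ℤ} (h : m ≡ m' [ZMOD (2 ^ s : ℕ)]) : fs s m = fs s m' := by
  obtain ⟨k, hk⟩ := h.dvd
  have h1 : m' = m + k * 2 ^ s := by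
    push_cast at hk
    linarith
  rw [h1, fs_add]

lemma fs_le {s : ℕ} {m : ℤ} (hm : |m| * 2 ≤ 2 ^ s) (h0 : m ≠ 0) :
    fs s m ≤ π ^ 2 / (4 * (m : ℝ) ^ 2) := by
  have hp := Real.pi_pos
  have hm' : |(m : ℝ)| * 2 ≤ 2 ^ s := by exact_mod_cast hm
  have hm0 : 0 < |(m : ℝ)| := abs_pos.2 (by exact_mod_cast h0)
  have h1 : |π * (m : ℝ) / 2 ^ s| ≤ π / 2 := by
    rw [abs_div, abs_mul, abs_of_pos hp, abs_of_pos (by positivity : (0 : ℝ) < 2 ^ s),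
      div_le_iff₀ (by positivity)]
    nlinarith
  have h2 := Real.mul_abs_le_abs_sin h1
  have h3 : 2 / π * |π * (m : ℝ) / 2 ^ s| = 2 * |(m : ℝ)| / 2 ^ s := by
    rw [abs_div, abs_mul, abs_of_pos hp, abs_of_pos (by positivity : (0 : ℝ) < 2 ^ s)]
    field_simp
  rw [h3] at h2
  have h4 : (2 * |(m : ℝ)| / 2 ^ s) ^ 2 ≤ Real.sin (π * m / 2 ^ s) ^ 2 := by
    rw [← sq_abs (Real.sin _)]
    gcongr
  unfold fs
  calc (π / 2 ^ s) ^ 2 / Real.sin (π * m / 2 ^ s) ^ 2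
      ≤ (π / 2 ^ s) ^ 2 / (2 * |(m : ℝ)| / 2 ^ s) ^ 2 :=
        div_le_div_of_nonneg_left (by positivity) (by positivity) h4
    _ = π ^ 2 / (4 * (m : ℝ) ^ 2) := by
        rw [← sq_abs (m : ℝ)]
        field_simp
        ring

lemma tend_pow (c : ℝ) : Tendsto (fun s : ℕ => c / (2 : ℝ) ^ s) atTop (𝓝 0) := by
  have h1 : Tendsto (fun s : ℕ => (2 : ℝ) ^ s) atTop atTop :=
    tendsto_pow_atTop_atTop_of_one_lt (by norm_num)
  exact Tendsto.const_div_atTop h1 c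

lemma fs_tend {m : ℤ} (hm : m ≠ 0) :
    Tendsto (fun s => fs s m) atTop (𝓝 (1 / (m : ℝ) ^ 2)) := by
  have hm' : (m : ℝ) ≠ 0 := by exact_mod_cast hm
  have h1 : ∀ s, fs s m = 1 / (m : ℝ) ^ 2 * (1 / Real.sinc (π * m / 2 ^ s) ^ 2) := by
    intro s
    have hx : π * (m : ℝ) / 2 ^ s ≠ 0 := by positivity
    rw [Real.sinc_of_ne_zero hx]
    unfold fs
    by_cases hs : Real.sin (π * m / 2 ^ s) = 0
    · rw [hs]; simp
    · field_simp
  have h2 : Tendsto (fun s : ℕ => Real.sinc (π * m / 2 ^ s)) atTop (𝓝 1) := by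
    have := (Real.continuous_sinc.tendsto 0).comp (tend_pow (π * m))
    rwa [Real.sinc_zero] at this
  have h3 : Tendsto (fun s : ℕ => 1 / (m : ℝ) ^ 2 * (1 / Real.sinc (π * m / 2 ^ s) ^ 2)) atTop
      (𝓝 (1 / (m : ℝ) ^ 2 * (1 / 1 ^ 2))) :=
    (tendsto_const_nhds.div (h2.pow 2) (by norm_num)).const_mul _
  rw [show (1 / (m : ℝ) ^ 2 * (1 / 1 ^ 2)) = 1 / (m : ℝ) ^ 2 by norm_num] at h3
  exact h3.congr fun s => (h1 s).symm

/-! ### The solutions -/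

lemma card_sol (hM : MULT_Stmt) {q N : ℤ} (hq : Odd q) (hN : Odd N) (s : ℕ) :
    Nat.card {b : ZMod (2 ^ s) // 2 * (b ^ 2 * (q : ZMod (2 ^ s)) - N) = 0} ≤ 8 := by
  have hq0 : q ≠ 0 := by rintro rfl; simp at hq
  have hN0 : N ≠ 0 := by rintro rfl; simp at hN
  have hqN : q * N ≠ 0 := mul_ne_zero hq0 hN0
  have h1 := hM s 1 1 q N 0 odd_one odd_one hq hN (by
    intro h
    apply hqN
    linarith)
  have h2 : padicValInt 2 ((1 ^ 2 - 4 * 1 * q) * 0 ^ 2 + 4 * (q * N)) = 2 := by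
    have e1 : (1 ^ 2 - 4 * 1 * q) * 0 ^ 2 + 4 * (q * N) = 4 * (q * N) := by ring
    rw [e1, padicValInt.mul (by norm_num) hqN]
    have e2 : padicValInt 2 4 = 2 := by
      have : (4 : ℤ) = ((2 ^ 2 : ℕ) : ℤ) := by norm_num
      rw [this, padicValInt.of_nat, padicValNat.prime_pow]
    have e3 : padicValInt 2 (q * N) = 0 := by
      refine padicValInt.eq_zero_of_not_dvd ?_
      have := hq.mul hN
      intro h
      exact (Int.not_even_iff_odd.2 this) (even_iff_two_dvd.2 (by exact_mod_cast h))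
    rw [e2, e3]
  rw [h2] at h1
  refine le_trans (le_of_eq ?_) (h1.trans (by norm_num))
  refine Nat.card_congr (Equiv.subtypeEquivRight fun b => ?_)
  push_cast
  have e : (1 : ZMod (2 ^ s)) * 0 ^ 2 + 1 * 0 * b + q * b ^ 2 - N = b ^ 2 * q - N := by ring
  rw [e]

lemma nonint_le (hM : MULT_Stmt) {q N : ℤ} (hq : Odd q) (hN : Odd N) {s : ℕ}
    (hN2 : |N| * 4 ≤ 2 ^ s) (P : ℕ → Prop) [DecidablePred P]
    (hP : ∀ ρ : ℕ, P ρ → 2 * ((ρ : ZMod (2 ^ s)) ^ 2 * (q : ZMod (2 ^ s)) - N) = 0) :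
    ∑ ρ ∈ Finset.Ico 1 ((2 : ℕ) ^ s), (if P ρ ∧ ((ρ : ℕ) : ZMod (2 ^ s)).valMinAbs ^ 2 * q ≠ N
      then fs s ρ else 0) ≤ 8 * (π ^ 2 * |(q : ℝ)| / 2 ^ s) := by
  have : NeZero (2 ^ s) := ⟨by positivity⟩
  have hq0 : q ≠ 0 := by rintro rfl; simp at hq
  have hN0 : N ≠ 0 := by rintro rfl; simp at hN
  rw [← Finset.sum_filter]
  set S := (Finset.Ico 1 (2 ^ s)).filter
    (fun ρ : ℕ => P ρ ∧ (ρ : ZMod (2 ^ s)).valMinAbs ^ 2 * q ≠ N) with hS
  have hcard : S.card ≤ 8 := by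
    refine le_trans ?_ (card_sol hM hq hN s)
    rw [Nat.card_eq_fintype_card, ← Fintype.card_coe]
    refine Fintype.card_le_of_injective (fun ρ : S => (⟨((ρ : ℕ) : ZMod (2 ^ s)), ?_⟩ :
      {b : ZMod (2 ^ s) // 2 * (b ^ 2 * (q : ZMod (2 ^ s)) - N) = 0})) ?_
    · have := (Finset.mem_filter.1 ρ.2).2.1
      exact hP _ this
    · intro ρ ρ' h
      have h1 : ((ρ : ℕ) : ZMod (2 ^ s)) = ((ρ' : ℕ) : ZMod (2 ^ s)) := congrArg Subtype.val h
      have h2 := (Finset.mem_Ico.1 (Finset.mem_filter.1 ρ.2).1).2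
      have h3 := (Finset.mem_Ico.1 (Finset.mem_filter.1 ρ'.2).1).2
      rw [ZMod.natCast_eq_natCast_iff] at h1
      exact Subtype.ext (Nat.ModEq.eq_of_lt_of_lt h1 h2 h3)
  have hterm : ∀ ρ ∈ S, fs s ρ ≤ π ^ 2 * |(q : ℝ)| / 2 ^ s := by
    intro ρ hρ
    obtain ⟨-, hPρ, hne⟩ := Finset.mem_filter.1 hρ
    set m := (ρ : ZMod (2 ^ s)).valMinAbs with hm
    have hcast : (m : ZMod (2 ^ s)) = ρ := ZMod.coe_valMinAbs _
    have hmod : (ρ : ℤ) ≡ m [ZMOD (2 ^ s : ℕ)] := by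
      rw [← ZMod.intCast_eq_intCast_iff, hcast]
      push_cast
      rfl
    rw [fs_congr s hmod]
    have hr := ZMod.valMinAbs_mem_Ioc (ρ : ZMod (2 ^ s))
    rw [← hm] at hr
    have hm2 : |m| * 2 ≤ 2 ^ s := by
      obtain ⟨h1, h2⟩ := hr
      push_cast at h1 h2
      rcases abs_cases m with ⟨h3, _⟩ | ⟨h3, _⟩ <;> rw [h3] <;> linarith
    -- the difference is a nonzero multiple of `2 ^ (s - 1)`
    have hdvd : ((2 ^ s : ℕ) : ℤ) ∣ 2 * (m ^ 2 * q - N) := by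
      rw [← ZMod.intCast_zmod_eq_zero_iff_dvd]
      push_cast
      rw [hcast]
      exact hP ρ hPρ
    have hbig : (2 : ℤ) ^ s ≤ |2 * (m ^ 2 * q - N)| := by
      have h4 : 2 * (m ^ 2 * q - N) ≠ 0 := by
        intro h5
        exact hne (by linarith)
      have h6 := Int.le_of_dvd (abs_pos.2 h4) ((dvd_abs _ _).2 hdvd)
      push_cast at h6
      exact h6
    have hbig2 : (2 : ℤ) ^ s ≤ 4 * (m ^ 2 * |q|) := by
      have h7 : |2 * (m ^ 2 * q - N)| ≤ 2 * (m ^ 2 * |q|) + 2 * |N| := by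
        rw [abs_mul, abs_two]
        have := abs_sub (m ^ 2 * q) N
        rw [abs_mul, abs_of_nonneg (sq_nonneg m)] at this
        linarith
      linarith
    have hm0 : m ≠ 0 := by
      rintro h8
      rw [h8] at hbig2
      have : (0 : ℤ) < 2 ^ s := by positivity
      simp at hbig2
      omega
    refine (fs_le hm2 hm0).trans ?_
    have hbig3 : (2 : ℝ) ^ s ≤ 4 * ((m : ℝ) ^ 2 * |(q : ℝ)|) := by exact_mod_cast hbig2
    have hmr : 0 < (m : ℝ) ^ 2 := by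
      have : (m : ℝ) ≠ 0 := by exact_mod_cast hm0
      positivity
    rw [div_le_div_iff₀ (by positivity) (by positivity)]
    have hpi : 0 < π ^ 2 := by positivity
    nlinarith
  refine (Finset.sum_le_card_nsmul S _ _ hterm).trans ?_
  rw [nsmul_eq_mul]
  have h9 : ((S.card : ℕ) : ℝ) ≤ 8 := by exact_mod_cast hcard
  exact mul_le_mul_of_nonneg_right h9 (by positivity)

/-- the integral solutions -/
noncomputable def sol (q N : ℤ) : Finset ℤ := (Finset.Icc (-|N|) |N|).filter fun m => m ^ 2 * q = N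

lemma mem_sol {q N m : ℤ} (hq : q ≠ 0) : m ∈ sol q N ↔ m ^ 2 * q = N := by
  unfold sol
  rw [Finset.mem_filter, Finset.mem_Icc]
  refine ⟨fun h => h.2, fun h => ⟨?_, h⟩⟩
  have h1 : |m| ≤ |N| := by
    rw [← h, abs_mul, abs_pow]
    have h2 : 1 ≤ |q| := Int.one_le_abs hq
    have h3 : 0 ≤ |m| := abs_nonneg m
    nlinarith [sq_nonneg (|m| - 1)]
  exact abs_le.1 h1

lemma int_eq {q N : ℤ} (hq : q ≠ 0) (hN0 : N ≠ 0) {s : ℕ} (hN2 : |N| * 4 ≤ 2 ^ s) :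
    ∑ ρ ∈ Finset.Ico 1 ((2 : ℕ) ^ s), (if ((ρ : ℕ) : ZMod (2 ^ s)).valMinAbs ^ 2 * q = N then
      fs s ρ else 0) = ∑ m ∈ sol q N, fs s m := by
  have : NeZero (2 ^ s) := ⟨by positivity⟩
  rw [← Finset.sum_filter]
  refine Finset.sum_bij' (fun ρ _ => (ρ : ZMod (2 ^ s)).valMinAbs)
    (fun m _ => (m : ZMod (2 ^ s)).val) ?_ ?_ ?_ ?_ ?_
  · intro ρ hρ
    exact (mem_sol hq).2 (Finset.mem_filter.1 hρ).2
  · intro m hm
    have hm' := (mem_sol hq).1 hm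
    have hmb : |m| ≤ |N| := abs_le.2 (Finset.mem_Icc.1 (Finset.mem_filter.1 hm).1)
    have hm0 : m ≠ 0 := by
      rintro rfl
      apply hN0
      rw [← hm']
      ring
    have hN1 : 0 < |N| := abs_pos.2 hN0
    have hv : ((m : ZMod (2 ^ s)).val : ZMod (2 ^ s)).valMinAbs = m := by
      rw [ZMod.natCast_zmod_val, ZMod.valMinAbs_spec]
      refine ⟨rfl, ?_⟩
      obtain ⟨h1, h2⟩ := abs_le.1 hmb
      push_cast
      constructor <;> linarith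
    rw [Finset.mem_filter, Finset.mem_Ico]
    refine ⟨⟨?_, ZMod.val_lt _⟩, ?_⟩
    · rw [Nat.one_le_iff_ne_zero]
      intro h3
      rw [h3] at hv
      simp at hv
      exact hm0 hv.symm
    · rw [hv]
      exact hm'
  · intro ρ hρ
    show (((ρ : ZMod (2 ^ s)).valMinAbs : ZMod (2 ^ s))).val = ρ
    rw [ZMod.coe_valMinAbs, ZMod.val_natCast]
    exact Nat.mod_eq_of_lt (Finset.mem_Ico.1 (Finset.mem_filter.1 hρ).1).2
  · intro m hm
    have hmb : |m| ≤ |N| := abs_le.2 (Finset.mem_Icc.1 (Finset.mem_filter.1 hm).1)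
    have hN1 : 0 < |N| := abs_pos.2 hN0
    show ((m : ZMod (2 ^ s)).val : ZMod (2 ^ s)).valMinAbs = m
    rw [ZMod.natCast_zmod_val, ZMod.valMinAbs_spec]
    refine ⟨rfl, ?_⟩
    obtain ⟨h1, h2⟩ := abs_le.1 hmb
    push_cast
    constructor <;> linarith
  · intro ρ hρ
    refine fs_congr s ?_
    rw [← ZMod.intCast_eq_intCast_iff, ZMod.coe_valMinAbs]
    push_cast
    rfl

lemma int_tend {q N : ℤ} (hq : q ≠ 0) (hN0 : N ≠ 0) :
    Tendsto (fun s => ∑ m ∈ sol q N, fs s m) atTop (𝓝 (∑ m ∈ sol q N, 1 / (m : ℝ) ^ 2)) := by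
  refine tendsto_finsetSum _ fun m hm => fs_tend ?_
  rintro rfl
  apply hN0
  rw [← (mem_sol hq).1 hm]
  ring

lemma tsum_eq {q N : ℤ} (hq : q ≠ 0) :
    (∑' ρ : {ρ : ℤ // ρ ^ 2 * q = N}, 1 / (ρ.1 : ℂ) ^ 2) =
      ((∑ m ∈ sol q N, 1 / (m : ℝ) ^ 2 : ℝ) : ℂ) := by
  have h1 : (∑' ρ : {ρ : ℤ // ρ ^ 2 * q = N}, 1 / (ρ.1 : ℂ) ^ 2) =
      ∑' ρ : (sol q N), 1 / ((ρ : ℤ) : ℂ) ^ 2 := by
    have e : {ρ : ℤ // ρ ^ 2 * q = N} ≃ (sol q N) :=
      Equiv.subtypeEquivRight fun ρ => (mem_sol hq).symm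
    refine (Equiv.tsum_eq (Equiv.subtypeEquivRight fun ρ => (mem_sol (N := N) hq).symm :
      {ρ : ℤ // ρ ^ 2 * q = N} ≃ (sol q N)) (fun ρ => 1 / ((ρ : ℤ) : ℂ) ^ 2)).symm.symm
  rw [h1, Finset.tsum_subtype (sol q N) (fun ρ : ℤ => 1 / (ρ : ℂ) ^ 2)]
  push_cast
  rfl

/-- the complex sums are the real sums -/
lemma cast_sum (s : ℕ) (P : ℕ → Prop) [DecidablePred P] :
    ((π : ℂ) / 2 ^ s) ^ 2 * ∑ ρ ∈ Finset.Ico 1 ((2 : ℕ) ^ s),
      (if P ρ then ((1 / Real.sin (π * ρ / (2 ^ s : ℕ)) ^ 2 : ℝ) : ℂ) else 0) =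
    ((∑ ρ ∈ Finset.Ico 1 ((2 : ℕ) ^ s), (if P ρ then fs s ρ else 0) : ℝ) : ℂ) := by
  rw [Finset.mul_sum, Complex.ofReal_sum]
  refine Finset.sum_congr rfl fun ρ _ => ?_
  by_cases h : P ρ
  · rw [if_pos h, if_pos h]
    unfold fs
    push_cast
    ring
  · rw [if_neg h, if_neg h, mul_zero]
    simp

lemma split (s : ℕ) (P I : ℕ → Prop) [DecidablePred P] [DecidablePred I] :
    ∑ ρ ∈ Finset.Ico 1 ((2 : ℕ) ^ s), (if P ρ then fs s ρ else 0) =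
      ∑ ρ ∈ Finset.Ico 1 ((2 : ℕ) ^ s), (if P ρ ∧ I ρ then fs s ρ else 0) +
        ∑ ρ ∈ Finset.Ico 1 ((2 : ℕ) ^ s), (if P ρ ∧ ¬ I ρ then fs s ρ else 0) := by
  rw [← Finset.sum_add_distrib]
  refine Finset.sum_congr rfl fun ρ _ => ?_
  by_cases h : P ρ <;> by_cases h' : I ρ <;> simp [h, h']

lemma nonint_tend (hM : MULT_Stmt) {q N : ℤ} (hq : Odd q) (hN : Odd N)
    (P : (s : ℕ) → ℕ → Prop) [∀ s, DecidablePred (P s)]
    (hP : ∀ (s ρ : ℕ), P s ρ → 2 * ((ρ : ZMod (2 ^ s)) ^ 2 * (q : ZMod (2 ^ s)) - N) = 0) :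
    Tendsto (fun s : ℕ => ∑ ρ ∈ Finset.Ico 1 ((2 : ℕ) ^ s),
      (if P s ρ ∧ ¬ (((ρ : ℕ) : ZMod (2 ^ s)).valMinAbs ^ 2 * q = N) then fs s ρ else 0)) atTop
      (𝓝 0) := by
  have h1 : Tendsto (fun s : ℕ => 8 * (π ^ 2 * |(q : ℝ)| / 2 ^ s)) atTop (𝓝 (8 * 0)) :=
    (tend_pow _).const_mul 8
  rw [mul_zero] at h1
  refine tendsto_of_tendsto_of_tendsto_of_le_of_le' tendsto_const_nhds h1 ?_ ?_
  · refine Filter.Eventually.of_forall fun s => Finset.sum_nonneg fun ρ _ => ?_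
    split_ifs
    · exact fs_nonneg _ _
    · exact le_rfl
  · have h2 : Tendsto (fun s : ℕ => (2 : ℤ) ^ s) atTop atTop :=
      tendsto_pow_atTop_atTop_of_one_lt (by norm_num)
    filter_upwards [h2.eventually_ge_atTop (|N| * 4)] with s hs
    exact nonint_le hM hq hN hs (P s) (hP s)

end CSC3

open CSC3 in
theorem csc3 (hM : MULT_Stmt) : CSC3_Stmt := by
  intro q N hq hN
  have hq0 : q ≠ 0 := by rintro rfl; simp at hq
  have hN0 : N ≠ 0 := by rintro rfl; simp at hN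
  have h2 : Tendsto (fun s : ℕ => (2 : ℤ) ^ s) atTop atTop :=
    tendsto_pow_atTop_atTop_of_one_lt (by norm_num)
  have hhalf : ∀ s : ℕ, (2 : ZMod (2 ^ s)) * ((2 ^ s / 2 : ℕ) : ZMod (2 ^ s)) = 0 := by
    intro s
    rcases Nat.eq_zero_or_pos s with rfl | hs
    · have : Subsingleton (ZMod (2 ^ 0)) := by
        rw [pow_zero]
        infer_instance
      exact Subsingleton.elim _ _
    · have h3 : 2 * (2 ^ s / 2) = 2 ^ s := Nat.mul_div_cancel' (dvd_pow_self 2 hs.ne')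
      have h4 : ((2 * (2 ^ s / 2) : ℕ) : ZMod (2 ^ s)) = 0 := by
        rw [h3]
        exact ZMod.natCast_self _
      rw [Nat.cast_mul] at h4
      exact_mod_cast h4
  have valcast : ∀ (s ρ : ℕ), ((ρ : ZMod (2 ^ s)).valMinAbs ^ 2 * q = N) →
      (ρ : ZMod (2 ^ s)) ^ 2 * (q : ZMod (2 ^ s)) = N := by
    intro s ρ h
    have h5 : (((ρ : ZMod (2 ^ s)).valMinAbs ^ 2 * q : ℤ) : ZMod (2 ^ s)) = N := by rw [h]
    push_cast at h5
    exact h5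
  constructor
  · rw [tsum_eq hq0]
    simp_rw [cast_sum]
    refine (Complex.continuous_ofReal.tendsto _).comp ?_
    have h6 := (int_tend hq0 hN0 (q := q) (N := N)).add (nonint_tend hM hq hN
      (fun s ρ => (ρ : ZMod (2 ^ s)) ^ 2 * (q : ZMod (2 ^ s)) = N)
      (fun s ρ h => by rw [h, sub_self, mul_zero]))
    rw [add_zero] at h6
    refine h6.congr' ?_
    filter_upwards [h2.eventually_ge_atTop (|N| * 4)] with s hs
    rw [split s (fun ρ => (ρ : ZMod (2 ^ s)) ^ 2 * (q : ZMod (2 ^ s)) = N)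
      (fun ρ => ((ρ : ℕ) : ZMod (2 ^ s)).valMinAbs ^ 2 * q = N), ← int_eq hq0 hN0 hs]
    congr 1
    refine Finset.sum_congr rfl fun ρ _ => ?_
    by_cases h7 : (ρ : ZMod (2 ^ s)).valMinAbs ^ 2 * q = N
    · rw [if_pos h7, if_pos ⟨valcast s ρ h7, h7⟩]
    · rw [if_neg h7, if_neg fun h8 => h7 h8.2]
  · simp_rw [cast_sum]
    rw [← Complex.ofReal_zero]
    refine (Complex.continuous_ofReal.tendsto _).comp ?_
    have h6 := nonint_tend hM hq hN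
      (fun s ρ => (ρ : ZMod (2 ^ s)) ^ 2 * (q : ZMod (2 ^ s)) =
        N + ((2 ^ s / 2 : ℕ) : ZMod (2 ^ s)))
      (fun s ρ h => by rw [h, add_sub_cancel_left, hhalf])
    refine h6.congr' ?_
    filter_upwards [eventually_ge_atTop 1] with s hs
    refine Finset.sum_congr rfl fun ρ _ => ?_
    by_cases h7 : (ρ : ZMod (2 ^ s)) ^ 2 * (q : ZMod (2 ^ s)) =
        N + ((2 ^ s / 2 : ℕ) : ZMod (2 ^ s))
    · have h8 : ¬ ((ρ : ZMod (2 ^ s)).valMinAbs ^ 2 * q = N) := by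
        intro h9
        have h10 := valcast s ρ h9
        rw [h7] at h10
        have h11 : ((2 ^ s / 2 : ℕ) : ZMod (2 ^ s)) = 0 := by
          rwa [add_eq_left] at h10
        rw [ZMod.natCast_eq_zero_iff] at h11
        have h12 : 0 < 2 ^ s / 2 := by
          have : 2 ^ 1 ≤ 2 ^ s := Nat.pow_le_pow_right (by norm_num) hs
          omega
        have h13 := Nat.le_of_dvd h12 h11
        have h14 : 0 < 2 ^ s := by positivity
        omega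
      rw [if_pos h7, if_pos ⟨h7, h8⟩]
    · rw [if_neg h7, if_neg fun h8 => h7 h8.1]

end Pool.Agent.T3
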