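import Pool.Agent.T3.Stmts

/-!
Finite type invariants of closed 3-braids: the spectrum of the Casimir element (module CVAL).
See PAPER.md in this folder.
-/

open Polynomial
open scoped BigOperators

namespace Pool.Agent.T3

open Pool.Agent.TB Pool.Agent.LibH11

namespace CVAL

variable {F : Type} [Field F] {E : Type} [Ring E] [Algebra F E]

lemma em_zero (Q : QP F) (r : ℕ) (I2 : E) {m : ℤ} (h : (r : ℤ) < |m|) : em Q r I2 m = 0 := by
  unfold em
  rw [if_neg]
  intro hm
  rw [Finset.mem_Icc] at hm
  have := abs_le.2 hm
  omega

/-- What commutes with `x` commutes with the polynomials in `x`. -/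
lemma comm_aeval {c x : E} (h : Commute c x) (P : F[X]) : Commute c (aeval x P) := by
  induction P using Polynomial.induction_on with
  | C a =>
    rw [aeval_C]
    exact (Algebra.commutes a c).symm
  | add p q hp hq =>
    rw [map_add]
    exact hp.add_right hq
  | monomial n a _ =>
    rw [map_mul, aeval_C, map_pow, aeval_X]
    exact Commute.mul_right (Algebra.commutes a c).symm (h.pow_right _)

lemma comm_em (Q : QP F) (r : ℕ) {c I2 : E} (h : Commute c I2) (m : ℤ) :
    Commute c (em Q r I2 m) := by
  unfold em
  split_ifs
  · exact comm_aeval h _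
  · exact Commute.zero_right _

/-- One step of the descent. -/
lemma step {C' I1 e e' : E} {c κ : F} (P : F[X]) (h1 : Commute C' I1) (he : Commute C' e)
    (hk : κ • (e * I1 * e' * I1 * e) = (c • (1 : E) - C') * e)
    (hY : aeval C' P * e' = 0) : aeval C' ((X - C c) * P) * e = 0 := by
  have c1 : Commute (aeval C' P) I1 := (comm_aeval h1.symm P).symm
  have c2 : Commute (aeval C' P) e := (comm_aeval he.symm P).symm
  have e1 : aeval C' ((X - C c) * P) * e = aeval C' P * ((C' - c • (1 : E)) * e) := by
    rw [mul_comm, map_mul, map_sub, aeval_X, aeval_C, Algebra.algebraMap_eq_smul_one, mul_assoc]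
  have e2 : (C' - c • (1 : E)) * e = -(κ • (e * I1 * e' * I1 * e)) := by
    rw [hk, ← neg_mul, neg_sub]
  have e3 : aeval C' P * (e * I1 * e' * I1 * e) = 0 := by
    have : aeval C' P * (e * I1 * e' * I1 * e) = e * I1 * (aeval C' P * e') * I1 * e := by
      calc aeval C' P * (e * I1 * e' * I1 * e)
          = (aeval C' P * e) * I1 * e' * I1 * e := by noncomm_ring
        _ = (e * aeval C' P) * I1 * e' * I1 * e := by rw [c2.eq]
        _ = e * (aeval C' P * I1) * e' * I1 * e := by noncomm_ring
        _ = e * (I1 * aeval C' P) * e' * I1 * e := by rw [c1.eq]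
        _ = e * I1 * (aeval C' P * e') * I1 * e := by noncomm_ring
    rw [this, hY]
    simp
  rw [e1, e2, mul_neg, mul_smul_comm, e3, smul_zero, neg_zero]

end CVAL

theorem cval (h1 : GENF_Stmt) (h2 : ADJ_Stmt) (h3 : CAS_Stmt) : CVAL_Stmt := by
  have _ := h2
  intro F _ _ Q hq r E _ _ I1 I2 hR
  obtain ⟨cI1, cI2, hp, hn⟩ := h3 F Q hq r E I1 I2 hR
  obtain ⟨-, -, -, -, -, hc⟩ := h1 F Q hq
  have main : ∀ (d k : ℕ), r + 1 ≤ k + d → ∀ m : ℤ, (k : ℤ) ≤ |m| →
      aeval (cas Q r I1 I2) (∏ j ∈ Finset.Icc k r, (X - C (cj Q (j : ℤ)))) * em Q r I2 m = 0 := by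
    intro d
    induction d with
    | zero =>
      intro k hk m hm
      rw [CVAL.em_zero Q r I2 (by omega), mul_zero]
    | succ d ih =>
      intro k hk m hm
      by_cases hkr : r < k
      · rw [CVAL.em_zero Q r I2 (by omega), mul_zero]
      · have hIcc : Finset.Icc k r = insert k (Finset.Icc (k + 1) r) := by
          ext j
          simp only [Finset.mem_Icc, Finset.mem_insert]
          omega
        have hnot : k ∉ Finset.Icc (k + 1) r := by
          simp
        rw [hIcc, Finset.prod_insert hnot]
        have ih' := ih (k + 1) (by omega)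
        by_cases hlt : ((k + 1 : ℕ) : ℤ) ≤ |m|
        · rw [map_mul, mul_assoc, ih' m hlt, mul_zero]
        · have habs : |m| = (k : ℤ) := by
            push_cast at hlt
            omega
          have he : Commute (cas Q r I1 I2) (em Q r I2 m) := CVAL.comm_em Q r cI2 m
          rcases abs_choice m with h | h
          · have hmk : m = (k : ℤ) := by rw [← h, habs]
            have hk := hp m
            rw [← hmk]
            refine CVAL.step _ cI1 he hk (ih' (m + 1) ?_)
            rw [hmk]
            push_cast
            exact le_abs_self _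
          · have hmk : m = -(k : ℤ) := by
              have : -m = (k : ℤ) := by rw [← h, habs]
              omega
            have hk := hn m
            have hck : cj Q (m - 1) = cj Q (k : ℤ) := by
              rw [hc (k : ℤ), hmk]
            rw [← hck]
            refine CVAL.step _ cI1 he hk (ih' (m - 1) ?_)
            rw [hmk]
            push_cast
            have : -(k : ℤ) - 1 = -((k : ℤ) + 1) := by ring
            rw [this, abs_neg]
            exact le_abs_self _
  intro k m hm
  exact main (r + 1) k (by omega) m hm

end Pool.Agent.T3
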