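import Pool.Agent.T3.Stmts2
import Pool.Agent.TB.Lft
import Pool.Agent.TB.Zt

/-!
# Module T3_DER3 (MP_31fd3b_gt): the product of the letters over the dual numbers
-/

open Polynomial
open scoped BigOperators Real

namespace Pool.Agent.T3

open Pool.Agent.TB Pool.Agent.LibH11

namespace DER3

section

variable (n : ℕ) [NeZero n] (ι : ℤ)

theorem mulo_mul (g g' : Fn n) : mulo n (g * g') = mulo n g * mulo n g' := by
  apply LinearMap.ext
  intro f
  funext u
  show (g * g') u * f u = g u * (g' u * f u)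
  rw [Pi.mul_apply, mul_assoc]

theorem mulo_smul (c : ℂ) (g : Fn n) : mulo n (c • g) = c • mulo n g := by
  apply LinearMap.ext
  intro f
  funext u
  show (c • g) u * f u = c * (g u * f u)
  rw [Pi.smul_apply, smul_eq_mul, mul_assoc]

theorem LC_eq (a : ℤ) : LC n ι a = lift2 n (Ch n ι a) (((a : ℂ) / 2) • (mulo n (bq n) * Ch n ι a)) := by
  unfold LC Ch
  rw [← mulo_mul, ← mulo_smul]
  congr 2
  funext k
  simp only [Pi.smul_apply, Pi.mul_apply, smul_eq_mul]
  ring

theorem LD_eq (hι : IsCoprime ι (2 * n : ℤ)) (a : ℤ) :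
    LD n ι a = lift2 n (Dh n ι a) (Dh n ι a * Th n ι - Th n ι * Dh n ι a +
      ((a : ℂ) / 2) • (cono n ι (bq n) * Dh n ι a)) := by
  obtain ⟨h0, hadd, -, -, hort, -, -, -⟩ := zt_basic n ι hι
  have h1 : (cono n ι fun k => ((chf n ι k ^ a : ℂˣ) : ℂ) * ((a : ℂ) * bq n k / 2)) =
      ((a : ℂ) / 2) • (cono n ι (bq n) * Dh n ι a) := by
    unfold Dh
    rw [← LFT.cono_mul n ι hadd hort, ← LFT.cono_smul]
    congr 1
    funext k
    simp only [Pi.smul_apply, Pi.mul_apply, smul_eq_mul]
    ring
  unfold LD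
  have h2 : -Th n ι * Dh n ι a = -(Th n ι * Dh n ι a) := LinearMap.ext fun f => rfl
  rw [h1, LFT.lift2_mul, LFT.lift2_mul, one_mul, one_mul, mul_one, mul_one, h2]
  congr 1
  refine LinearMap.ext fun f => funext fun u => ?_
  simp only [LinearMap.add_apply, LinearMap.sub_apply, LinearMap.neg_apply, Pi.add_apply,
    Pi.sub_apply, Pi.neg_apply]
  ring

/-- Two letters. -/
theorem wi_succ_succ (O : Module.End ℂ (Fn n)) (a b : ℤ) (l : List ℤ) (j : ℕ) :
    wi n ι O false (a :: b :: l) (j + 2) = Dh n ι a * (Ch n ι b * wi n ι O false l j) := rfl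

theorem wi_zero (O : Module.End ℂ (Fn n)) (x : List ℤ) :
    wi n ι O false x 0 = O * ww n ι false x := by
  cases x <;> rfl

theorem wi_one (O : Module.End ℂ (Fn n)) (a b : ℤ) (l : List ℤ) :
    wi n ι O false (a :: b :: l) 1 = Dh n ι a * (O * (Ch n ι b * ww n ι false l)) := rfl

theorem ww_cons_cons (a b : ℤ) (l : List ℤ) :
    ww n ι false (a :: b :: l) = Dh n ι a * (Ch n ι b * ww n ι false l) := rfl

theorem wd_cons_cons (a b : ℤ) (l : List ℤ) :
    wd n ι false (a :: b :: l) = LD n ι a * (LC n ι b * wd n ι false l) := rfl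

theorem w1_cons_cons (a b : ℤ) (l : List ℤ) :
    w1 n ι (a :: b :: l) =
      ((a : ℂ) / 2) • (cono n ι (bq n) * (Dh n ι a * (Ch n ι b * ww n ι false l))) +
      ((b : ℂ) / 2) • (Dh n ι a * (mulo n (bq n) * (Ch n ι b * ww n ι false l))) -
      Th n ι * (Dh n ι a * (Ch n ι b * ww n ι false l)) +
      Dh n ι a * (Th n ι * (Ch n ι b * ww n ι false l)) +
      Dh n ι a * (Ch n ι b * w1 n ι l) := by
  have hlen : (a :: b :: l).length = l.length + 1 + 1 := rfl
  have hA : ∑ i ∈ Finset.range (a :: b :: l).length, ((((a :: b :: l).getD i 0 : ℤ) : ℂ) / 2) •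
      wi n ι (if Even i then cono n ι (bq n) else mulo n (bq n)) false (a :: b :: l) i =
      Dh n ι a * (Ch n ι b * ∑ i ∈ Finset.range l.length, (((l.getD i 0 : ℤ) : ℂ) / 2) •
        wi n ι (if Even i then cono n ι (bq n) else mulo n (bq n)) false l i) +
      ((b : ℂ) / 2) • (Dh n ι a * (mulo n (bq n) * (Ch n ι b * ww n ι false l))) +
      ((a : ℂ) / 2) • (cono n ι (bq n) * (Dh n ι a * (Ch n ι b * ww n ι false l))) := by
    rw [hlen, Finset.sum_range_succ', Finset.sum_range_succ']
    congr 1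
    · congr 1
      rw [Finset.mul_sum, Finset.mul_sum]
      refine Finset.sum_congr rfl fun i _ => ?_
      have hev : (Even (i + 1 + 1)) = (Even i) := by
        apply propext
        rw [show i + 1 + 1 = i + 2 from rfl, Nat.even_add]
        simp
      rw [show i + 1 + 1 = i + 2 from rfl] at *
      rw [wi_succ_succ, mul_smul_comm, mul_smul_comm]
      simp only [hev]
      rfl
  have hB : ∑ j ∈ Finset.range (a :: b :: l).length, (-1 : ℂ) ^ j •
      wi n ι (Th n ι) false (a :: b :: l) j =
      Dh n ι a * (Ch n ι b * ∑ j ∈ Finset.range l.length, (-1 : ℂ) ^ j •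
        wi n ι (Th n ι) false l j) +
      -(Dh n ι a * (Th n ι * (Ch n ι b * ww n ι false l))) +
      Th n ι * (Dh n ι a * (Ch n ι b * ww n ι false l)) := by
    rw [hlen, Finset.sum_range_succ', Finset.sum_range_succ']
    congr 1
    · congr 1
      · rw [Finset.mul_sum, Finset.mul_sum]
        refine Finset.sum_congr rfl fun j _ => ?_
        rw [show j + 1 + 1 = j + 2 from rfl, wi_succ_succ, mul_smul_comm, mul_smul_comm, pow_add]
        norm_num
      · rw [zero_add, pow_one, wi_one]
        refine LinearMap.ext fun f => funext fun u => ?_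
        rw [LinearMap.smul_apply, LinearMap.neg_apply, Pi.smul_apply, Pi.neg_apply, smul_eq_mul]
        ring
    · rw [pow_zero, one_smul, wi_zero, ww_cons_cons]
  unfold w1
  rw [hA, hB, mul_sub, mul_sub]
  abel

theorem main (hι : IsCoprime ι (2 * n : ℤ)) : ∀ (k : ℕ) (x : List ℤ), x.length = 2 * k →
    wd n ι false x = lift2 n (ww n ι false x) (w1 n ι x) := by
  intro k
  induction k with
  | zero =>
    intro x hx
    have hx' : x = [] := List.length_eq_zero_iff.1 (by omega)
    subst hx'
    have h1 : w1 n ι [] = 0 := by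
      unfold w1
      simp
    rw [h1]
    show (1 : Module.End (DualNumber ℂ) (ZMod (2 * n) → DualNumber ℂ)) = lift2 n 1 0
    rw [LFT.lift2_one]
  | succ k ih =>
    intro x hx
    match x, hx with
    | a :: b :: l, hx =>
      have hl : l.length = 2 * k := by
        simp only [List.length_cons] at hx
        omega
      rw [wd_cons_cons, ih l hl, LD_eq n ι hι, LC_eq, LFT.lift2_mul, LFT.lift2_mul,
        ww_cons_cons, w1_cons_cons]
      congr 1
      simp only [mul_add, add_mul, sub_mul, smul_mul_assoc, mul_smul_comm, mul_assoc]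
      abel

end

end DER3

/-- DER3: the product of the letters over the dual numbers. -/
theorem der3 (_h1 : CHF_Stmt) (_h2 : EGO3_Stmt) : DER3_Stmt := by
  intro n _ ι hι _ x hx
  obtain ⟨k, hk⟩ := hx
  exact DER3.main n ι hι k x (by omega)

end Pool.Agent.T3
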