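import Pool.Agent.T3.Stmts
import Pool.Agent.TB.Brk
import Pool.Agent.TB.Emb
import Pool.Agent.TB.Fc
import Pool.Agent.TB.Spec
import Pool.Agent.TB.Top
import Pool.Agent.TB.Gps

/-!
DRR: the top coefficient does not vanish.
-/

open Polynomial
open scoped BigOperators Matrix

namespace Pool.Agent.T3

open Pool.Agent.TB

namespace DRR

section Gen

variable {A : Type} [CommRing A]

/-- total parity -/
def tp {r : ℕ} (l : Lb r × Lb r × Lb r) : Bool := xor l.1.par (xor l.2.1.par l.2.2.par)

/-- the indicator of total even parity -/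
def D2 (A : Type) [CommRing A] (r : ℕ) :
    Matrix (Lb r × Lb r × Lb r) (Lb r × Lb r × Lb r) A :=
  Matrix.diagonal fun l => if tp l = false then 1 else 0

theorem D2_sq (r : ℕ) : D2 A r * D2 A r = D2 A r := by
  unfold D2
  rw [Matrix.diagonal_mul_diagonal]
  congr 1
  funext l
  split_ifs <;> simp

theorem comm_Im (h : KCOM_Stmt) (Q : QP A) (r : ℕ) :
    Commute (D2 A r) (emb23 (Im Q r)) := by
  unfold Commute SemiconjBy D2
  ext l l'
  rw [Matrix.diagonal_mul, Matrix.mul_diagonal]
  by_cases h0 : emb23 (Im Q r) l l' = 0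
  · rw [h0]; simp
  · have h1 : l.1 = l'.1 := by
      by_contra hne
      exact h0 (by unfold emb23; rw [if_neg hne])
    have h2 : Im Q r l.2 l'.2 ≠ 0 := by
      intro hz
      exact h0 (by unfold emb23; rw [if_pos h1, hz])
    obtain ⟨h3, h4⟩ := (h A Q r l.2.1 l.2.2 l'.2.1 l'.2.2).2.2 h2
    have h5 : tp l = tp l' := by
      unfold tp
      rw [h1, h3, h4]
      cases l'.1.par <;> cases l'.2.1.par <;> cases l'.2.2.par <;> rfl
    rw [h5, mul_comm]

theorem comm_aeval {n : Type} [Fintype n] [DecidableEq n] {D M : Matrix n n A} (h : Commute D M)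
    (P : A[X]) : Commute D (aeval M P) := by
  induction P using Polynomial.induction_on' with
  | add p q hp hq => rw [map_add]; exact hp.add_right hq
  | monomial k a =>
    rw [aeval_monomial]
    exact (Algebra.commute_algebraMap_right a D).mul_right (h.pow_right k)

theorem aeval_mulVec {n : Type} [Fintype n] [DecidableEq n] {M : Matrix n n A} {v : n → A} {c : A}
    (h : M *ᵥ v = c • v) (P : A[X]) : aeval M P *ᵥ v = P.eval c • v := by
  have hpow : ∀ k : ℕ, (M ^ k) *ᵥ v = c ^ k • v := by
    intro k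
    induction k with
    | zero => simp
    | succ k ih => rw [pow_succ, ← Matrix.mulVec_mulVec, h, Matrix.mulVec_smul, ih, smul_smul,
        pow_succ, mul_comm]
  induction P using Polynomial.induction_on' with
  | add p q hp hq => rw [map_add, Matrix.add_mulVec, hp, hq, eval_add, add_smul]
  | monomial k a =>
    rw [aeval_monomial, eval_monomial, ← Algebra.smul_def, Matrix.smul_mulVec, hpow, smul_smul]

theorem emb23_mulVec {L : Type} [Fintype L] [DecidableEq L] (M : Matrix (L × L) (L × L) A)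
    (v : L × L × L → A) (a b c : L) :
    (emb23 M *ᵥ v) (a, b, c) = ∑ b', ∑ c', M (b, c) (b', c') * v (a, b', c') := by
  rw [Matrix.mulVec, dotProduct, Fintype.sum_prod_type, Finset.sum_eq_single a]
  · rw [Fintype.sum_prod_type]
    simp [emb23]
  · intro a' _ h
    refine Finset.sum_eq_zero fun t _ => ?_
    simp [emb23, Ne.symm h]
  · intro h
    exact (h (Finset.mem_univ a)).elim

/-- the full subset -/
def full : ∀ r, Lb r
  | 0 => ()
  | r + 1 => (full r, true)

theorem cupv_full (Q : QP A) : ∀ r, cupv Q r (full r) (Lb.zero r) = 1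
  | 0 => rfl
  | r + 1 => by
    show cupv Q r (full r) (Lb.zero r) = 1
    exact cupv_full Q r

/-- the eigenvector -/
def vv (Q : QP A) (r : ℕ) (l : Lb r × Lb r × Lb r) : A :=
  if l.1 = full r then cupv Q r l.2.1 l.2.2 else 0

theorem Im_vv (Q : QP A) (r : ℕ) (htop : ∀ x y, ∑ a, ∑ b, Im Q r (x, y) (a, b) * cupv Q r a b =
    Q.lam r * cupv Q r x y) : emb23 (Im Q r) *ᵥ vv Q r = Q.lam r • vv Q r := by
  funext ⟨a, b, c⟩
  rw [emb23_mulVec, Pi.smul_apply, smul_eq_mul]
  unfold vv
  by_cases h : a = full r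
  · simp only [h, if_true]
    exact htop b c
  · simp only [h, if_false, mul_zero, Finset.sum_const_zero]

end Gen

/-- the constant coefficient -/
noncomputable abbrev kc : PowerSeries ℂ →+* ℂ := PowerSeries.constantCoeff

theorem kc_Kw : ∀ r (x : Lb r), kc (Kw QPS r x) = 1
  | 0, _ => by simp [Kw]
  | r + 1, x => by
    show kc ((if x.2 then QPS.qp (-(r : ℤ)) else QPS.qp r) * Kw QPS r x.1) = 1
    rw [map_mul, kc_Kw r x.1, mul_one]
    split_ifs <;> exact GPS.kc_qp _

theorem kc_K3 (r : ℕ) (l : Lb r × Lb r × Lb r) :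
    kc (K3 QPS r l) = if tp l = false then 1 else 0 := by
  unfold K3 tp
  split_ifs
  · rw [map_mul, map_mul, kc_Kw, kc_Kw, kc_Kw]; norm_num
  · exact map_zero _

end DRR

open DRR in
/-- DRR -/
theorem drr (h : KCOM_Stmt) : DRR_Stmt := by
  intro r hsum
  have hgen := (gps brk r).1
  have hfc := fc (PowerSeries ℂ) QPS r hgen
  have hemb := emb (PowerSeries ℂ) (Lb r)
  have hspec := spec brk (PowerSeries ℂ) QPS r hgen
  have htop := (top brk (spec brk) fc (PowerSeries ℂ) QPS r).1
  set M := emb23 (Im QPS r) with hM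
  set P : (PowerSeries ℂ)[X] := QPS.basis r r with hP
  set e := aeval M P with he
  have hrmem : (r : ℤ) ∈ Finset.Icc (-(r : ℤ)) r := by
    rw [Finset.mem_Icc]; constructor <;> linarith [Int.natCast_nonneg r]
  have hPint : QPS.interp r (fun m => if m = (r : ℤ) then 1 else 0) = P := by
    unfold QP.interp
    rw [Finset.sum_eq_single (r : ℤ)]
    · simp [hP]
    · intro b _ hb
      simp [hb]
    · intro hn; exact absurd hrmem hn
  have hPe : ∀ m ∈ Finset.Icc (-(r : ℤ)) r, P.eval (QPS.lam m) = if m = (r : ℤ) then 1 else 0 := by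
    intro m hm
    rw [← hPint]
    exact hfc.1 _ m hm
  have hpol : aeval M (QPS.pol r) = 0 := by
    rw [hM, (hemb.2.2.2.2 (Im QPS r) (QPS.pol r)).2, hspec.1]
    ext a b
    simp [emb23]
  have hidem : e * e = e := by
    have := hfc.2 _ M hpol (P * P) P (fun m hm => by
      rw [eval_mul, hPe m hm]; split_ifs <;> simp)
    rwa [map_mul] at this
  have hcomm : Commute (D2 (PowerSeries ℂ) r) e := comm_aeval (comm_Im h QPS r) P
  have hev : e *ᵥ vv QPS r = vv QPS r := by
    rw [he, aeval_mulVec (Im_vv QPS r htop) P, hPe _ hrmem, if_pos rfl, one_smul]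
  -- reduction
  set N : Matrix (Lb r × Lb r × Lb r) (Lb r × Lb r × Lb r) ℂ := (e * D2 (PowerSeries ℂ) r).map kc
    with hN
  have hN1 : N * N = N := by
    rw [hN, ← Matrix.map_mul]
    congr 1
    calc e * D2 (PowerSeries ℂ) r * (e * D2 (PowerSeries ℂ) r)
        = e * (D2 (PowerSeries ℂ) r * e) * D2 (PowerSeries ℂ) r := by simp only [mul_assoc]
      _ = e * (e * D2 (PowerSeries ℂ) r) * D2 (PowerSeries ℂ) r := by rw [hcomm.eq]
      _ = (e * e) * (D2 (PowerSeries ℂ) r * D2 (PowerSeries ℂ) r) := by simp only [mul_assoc]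
      _ = e * D2 (PowerSeries ℂ) r := by rw [hidem, D2_sq]
  have htr : N.trace = 0 := by
    have h1 := congrArg kc hsum
    rw [map_sum, map_zero] at h1
    rw [← h1, Matrix.trace]
    refine Finset.sum_congr rfl fun l _ => ?_
    rw [map_mul, kc_K3, Matrix.diag_apply, hN, Matrix.map_apply]
    unfold D2
    rw [Matrix.mul_diagonal, map_mul]
    congr 1
    split_ifs
    · exact map_one _
    · exact map_zero _
  have hN0 : N = 0 := by
    have h1 : IsIdempotentElem (Matrix.toLin' N) := by
      show Matrix.toLin' N * Matrix.toLin' N = Matrix.toLin' N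
      rw [Module.End.mul_eq_comp, ← Matrix.toLin'_mul, hN1]
    have h2 : LinearMap.trace ℂ _ (Matrix.toLin' N) = 0 := by
      rw [Matrix.trace_toLin'_eq, htr]
    have h3 := LinearMap.IsIdempotentElem.eq_zero_of_trace_eq_zero h1 h2
    exact Matrix.toLin'.map_eq_zero_iff.mp h3
  set w := D2 (PowerSeries ℂ) r *ᵥ vv QPS r with hw
  have h1 : (e * D2 (PowerSeries ℂ) r) *ᵥ w = w := by
    calc (e * D2 (PowerSeries ℂ) r) *ᵥ w
        = (e * (D2 (PowerSeries ℂ) r * D2 (PowerSeries ℂ) r)) *ᵥ vv QPS r := by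
          rw [hw, Matrix.mulVec_mulVec, mul_assoc]
      _ = (D2 (PowerSeries ℂ) r * e) *ᵥ vv QPS r := by rw [D2_sq, hcomm.eq]
      _ = w := by rw [← Matrix.mulVec_mulVec, hev, hw]
  have h2 : ∀ l, kc (w l) = (N *ᵥ (kc ∘ w)) l := by
    intro l
    rw [hN, ← RingHom.map_mulVec, h1]
  have h3 := h2 (full r, full r, Lb.zero r)
  rw [hN0, Matrix.zero_mulVec, Pi.zero_apply] at h3
  have h4 : w (full r, full r, Lb.zero r) = 1 := by
    have htp : tp ((full r, full r, Lb.zero r) : Lb r × Lb r × Lb r) = false := by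
      unfold tp
      simp only [Lb.par_zero]
      cases (full r).par <;> rfl
    rw [hw]
    unfold D2
    rw [Matrix.mulVec_diagonal, if_pos htp, one_mul]
    unfold vv
    rw [if_pos rfl]
    exact cupv_full QPS r
  rw [h4, map_one] at h3
  exact one_ne_zero h3

end Pool.Agent.T3
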