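import Pool.Agent.TB.Defs2
import Pool.Agent.LibH11.BraidKnots

/-!
Finite type invariants of closed 3-braids: definitions.
See PAPER.md in this folder.
-/

open Polynomial
open scoped BigOperators Real

namespace Pool.Agent.T3

open Pool.Agent.TB Pool.Agent.LibH11

/-! ### 1. Braids -/

/-- The exponent sum of a braid. -/
def expSum {n : ℕ} (b : Br n) : ℤ :=
  Multiplicative.toAdd (liftBr (fun _ => Multiplicative.ofAdd (1 : ℤ))
    (fun _ _ _ => rfl) (fun _ _ _ => rfl) b)

/-- The anti-automorphism of the braid group that fixes the generators, as a homomorphism into the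
opposite group. -/
def revHom {n : ℕ} : Br n →* (Br n)ᵐᵒᵖ :=
  liftBr (fun i => MulOpposite.op (sg i))
    (fun i j h => by rw [← MulOpposite.op_mul, ← MulOpposite.op_mul, sg_comm i j h])
    (fun i j h => by
      rw [← MulOpposite.op_mul, ← MulOpposite.op_mul, ← MulOpposite.op_mul, ← MulOpposite.op_mul,
        ← mul_assoc, ← mul_assoc, sg_braid i j h])

/-- The braid read backwards. Its closure is the closure of `b` with the reversed orientation. -/
def rev {n : ℕ} (b : Br n) : Br n := (revHom b).unop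

/-- The braid `σ_0^{x_1} σ_1^{x_2} σ_0^{x_3} ...` (`false`: start with `σ_0`; `true`: start with
`σ_1`). -/
def bw : Bool → List ℤ → Br 2
  | _, [] => 1
  | false, a :: l => sg 0 ^ a * bw true l
  | true, a :: l => sg 1 ^ a * bw false l

/-- `(1 0; 1 1)` -/
def mD : Matrix.SpecialLinearGroup (Fin 2) ℤ := ⟨!![1, 0; 1, 1], by simp [Matrix.det_fin_two]⟩

/-- `(1 -1; 0 1)` -/
def mC : Matrix.SpecialLinearGroup (Fin 2) ℤ := ⟨!![1, -1; 0, 1], by simp [Matrix.det_fin_two]⟩

/-- The homomorphism `B_3 → SL(2,ℤ)`. -/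
def rho : Br 2 →* Matrix.SpecialLinearGroup (Fin 2) ℤ :=
  liftBr (fun i => if i = 0 then mD else mC)
    (fun i j h => by omega)
    (fun i j h => by
      have hi : i = 0 := by omega
      have hj : j = 1 := by omega
      subst hi hj
      ext a b
      fin_cases a <;> fin_cases b <;>
        simp [mD, mC, Matrix.mul_apply, Fin.sum_univ_two])

/-! ### 2. Markov traces of solutions of the Yang-Baxter equation -/

/-- A matrix `R`, its inverse and weights `K`. -/
structure YB (A L : Type) where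
  R : Matrix (L × L) (L × L) A
  Ri : Matrix (L × L) (L × L) A
  K : L → A

/-- The relations making the trace invariant under the Markov moves. -/
structure YB.Good {A L : Type} [CommRing A] [Fintype L] [DecidableEq L] (T : YB A L) : Prop where
  mul_inv : T.R * T.Ri = 1
  inv_mul : T.Ri * T.R = 1
  braid : emb12 T.R * emb23 T.R * emb12 T.R = emb23 T.R * emb12 T.R * emb23 T.R
  wt : ∀ x y a b, T.R (x, y) (a, b) * (T.K a * T.K b) = T.R (x, y) (a, b) * (T.K x * T.K y)
  ptr : ∀ x z, ∑ y, T.R (x, y) (z, y) * T.K y = if x = z then 1 else 0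
  ptri : ∀ x z, ∑ y, T.Ri (x, y) (z, y) * T.K y = if x = z then 1 else 0

/-- The matrix `M` acting on the strands `i`, `i + 1`. -/
def opm {A L : Type} [CommRing A] [DecidableEq L] {n : ℕ} (M : Matrix (L × L) (L × L) A)
    (i : Fin n) : Matrix (Fin (n + 1) → L) (Fin (n + 1) → L) A :=
  fun s t =>
    if ∀ j, j ≠ i.castSucc → j ≠ i.succ → s j = t j then
      M (s i.castSucc, s i.succ) (t i.castSucc, t i.succ) else 0

/-- `ρ` is the representation of the braid group given by `T`. -/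
def IsRep {A L : Type} [CommRing A] [Fintype L] [DecidableEq L] (T : YB A L) {n : ℕ}
    (ρ : Br n →* (Matrix (Fin (n + 1) → L) (Fin (n + 1) → L) A)ˣ) : Prop :=
  ∀ i, ((ρ (sg i) : (Matrix (Fin (n + 1) → L) (Fin (n + 1) → L) A)ˣ) :
    Matrix (Fin (n + 1) → L) (Fin (n + 1) → L) A) = opm T.R i

/-- The weighted trace. -/
def trw {A L : Type} [CommRing A] [Fintype L] [DecidableEq L] (T : YB A L) {n : ℕ}
    (ρ : Br n →* (Matrix (Fin (n + 1) → L) (Fin (n + 1) → L) A)ˣ) (b : Br n) : A :=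
  ∑ s, ((ρ b : (Matrix (Fin (n + 1) → L) (Fin (n + 1) → L) A)ˣ) :
    Matrix (Fin (n + 1) → L) (Fin (n + 1) → L) A) s s * ∏ i, T.K (s i)

section Half

variable {A : Type} [CommRing A] (Q : QP A)

/-- The weights `∏_j q^((j-1)(1-2a_j))`. -/
def Kw : ∀ r, Lb r → A
  | 0, _ => 1
  | r + 1, x => (if x.2 then Q.qp (-(r : ℤ)) else Q.qp r) * Kw r x.1

/-- `s^(r(r-1))` -/
def cr (r : ℕ) : Aˣ := Q.s ^ ((r : ℤ) * (r - 1))

/-- The normalised half spin R-matrix on even labels. -/
def ybt (r : ℕ) : YB A (Ev r) where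
  R := fun p c => (cr Q r : A) * Rm Q r (p.1.1, p.2.1) (c.1.1, c.2.1)
  Ri := fun p c => (((cr Q r)⁻¹ : Aˣ) : A) * Rn Q r (p.1.1, p.2.1) (c.1.1, c.2.1)
  K := fun x => Kw Q r x.1

/-- The product of `f(I_1)^{x_1} f(I_2)^{x_2} ...` on three strands (all labels). -/
noncomputable def wl (r : ℕ) : Bool → List ℤ →
    Matrix (Lb r × Lb r × Lb r) (Lb r × Lb r × Lb r) A
  | _, [] => 1
  | false, a :: l =>
      aeval (emb12 (Im Q r)) (Q.interp r fun m => ((Q.fu m ^ a : Aˣ) : A)) * wl r true l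
  | true, a :: l =>
      aeval (emb23 (Im Q r)) (Q.interp r fun m => ((Q.fu m ^ a : Aˣ) : A)) * wl r false l

/-- The weights on three strands, restricted to total even parity. -/
def K3 (r : ℕ) (l : Lb r × Lb r × Lb r) : A :=
  if xor l.1.par (xor l.2.1.par l.2.2.par) = false then
    Kw Q r l.1 * (Kw Q r l.2.1 * Kw Q r l.2.2) else 0

/-! ### 3. The modules `W_r` on the nodes `-r, ..., r` -/

/-- The nodes. -/
abbrev Nd (r : ℕ) : Type := {m : ℤ // m ∈ Finset.Icc (-(r : ℤ)) r}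

/-- The coefficient of `f(m+1)` in `(I_1 f)(m)`: `i [r-m] / (q^m + q^-m)`, and `λ_r` for `m = -r`. -/
noncomputable def upc (r : ℕ) (m : ℤ) : A :=
  if m = -(r : ℤ) then Q.lam r else if m = r then 0
  else Q.i * Q.br (r - m) * Ring.inverse (Q.qp m + Q.qp (-m))

/-- The coefficient of `f(m-1)` in `(I_1 f)(m)`: `i [r+m] / (q^m + q^-m)`, and `λ_r` for `m = r`. -/
noncomputable def dnc (r : ℕ) (m : ℤ) : A :=
  if m = (r : ℤ) then Q.lam r else if m = -(r : ℤ) then 0
  else Q.i * Q.br (r + m) * Ring.inverse (Q.qp m + Q.qp (-m))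

/-- The operator `I_1` on `W_r`. -/
noncomputable def Iw1 (r : ℕ) : Matrix (Nd r) (Nd r) A :=
  fun m m' => if (m' : ℤ) = m + 1 then upc Q r m else if (m' : ℤ) = m - 1 then dnc Q r m else 0

/-- The operator `I_2` on `W_r`. -/
def Iw2 (r : ℕ) : Matrix (Nd r) (Nd r) A := Matrix.diagonal fun m => Q.lam m

/-- The product of `f(I_1)^{x_1} f(I_2)^{x_2} ...` on `W_r`. -/
noncomputable def wm (r : ℕ) : Bool → List ℤ → Matrix (Nd r) (Nd r) A
  | _, [] => 1
  | false, a :: l => aeval (Iw1 Q r) (Q.interp r fun m => ((Q.fu m ^ a : Aˣ) : A)) * wm r true l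
  | true, a :: l => Matrix.diagonal (fun m : Nd r => ((Q.fu m ^ a : Aˣ) : A)) * wm r false l

/-- The trace of the word on `W_r`. -/
noncomputable def chi (r : ℕ) (x : List ℤ) : A := (wm Q r false x).trace

end Half

/-! ### 4. Chains of vectors, the matrix of a word, and its quadratic form -/

/-- `g_0 = (1,0)`, `g_1 = (0,1)`, `g_(i+2) = g_i + (-1)^i x_(i+1) g_(i+1)`
(here `x_(i+1) = x.getD i 0`). -/
def ch3 (x : List ℤ) : ℕ → ℤ × ℤ
  | 0 => (1, 0)
  | 1 => (0, 1)
  | i + 2 => ch3 x i + ((-1) ^ i * x.getD i 0) • ch3 x (i + 1)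

/-- The matrix `A` of the word (of even length) with the columns `g_m`, `g_(m+1)`. -/
def Aw (x : List ℤ) (R : ℤ × ℤ) : ℤ × ℤ := R.1 • ch3 x x.length + R.2 • ch3 x (x.length + 1)

/-- The trace of `A`. -/
def tw3 (x : List ℤ) : ℤ := (ch3 x x.length).1 + (ch3 x (x.length + 1)).2

/-- `Q(R) = ⟨R, A R⟩` -/
def Qw (x : List ℤ) (R : ℤ × ℤ) : ℤ := det2 R (Aw x R)

/-- The quadratic form modulo `n`. -/
def Qm (n : ℕ) (x : List ℤ) (R : ZMod n × ZMod n) : ZMod n :=
  R.1 ^ 2 * ((ch3 x x.length).2 : ℤ) +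
    R.1 * R.2 * (((ch3 x (x.length + 1)).2 - (ch3 x x.length).1 : ℤ) : ZMod n) -
    R.2 ^ 2 * ((ch3 x (x.length + 1)).1 : ℤ)

end Pool.Agent.T3
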