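import Pool.Agent.T3.Defs

/-!
Finite type invariants of closed 3-braids: definitions, second part (general trace functionals,
the model at a root of unity, cotangent sums, orbits).
See PAPER.md in this folder.
-/

open Polynomial
open scoped BigOperators Real

namespace Pool.Agent.T3

open Pool.Agent.TB Pool.Agent.LibH11

/-! ### 5. Algebras with the relations of `U'_q(so_3)` -/

section Alg

variable {F : Type} [Field F] (Q : QP F)

/-- `q` is not a root of unity. -/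
def Nru : Prop := ∀ m : ℤ, m ≠ 0 → Q.qp m ≠ 1

/-- `{m} = q^m + q^-m` -/
def cu (m : ℤ) : F := Q.qp m + Q.qp (-m)

/-- `c_j = q^(2j+1) + q^(-2j-1)`, the value of the Casimir element on `W_j` -/
def cj (m : ℤ) : F := Q.qp (2 * m + 1) + Q.qp (-2 * m - 1)

variable {E : Type} [Ring E] [Algebra F E]

/-- The relations. -/
structure Rels (r : ℕ) (I1 I2 : E) : Prop where
  rel1 : I1 * I1 * I2 - Q.two • (I1 * I2 * I1) + I2 * I1 * I1 = -I2
  rel2 : I2 * I2 * I1 - Q.two • (I2 * I1 * I2) + I1 * I2 * I2 = -I1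
  pol2 : aeval I2 (Q.pol r) = 0

/-- The spectral idempotents of `I_2`. -/
noncomputable def em (r : ℕ) (I2 : E) (m : ℤ) : E :=
  if m ∈ Finset.Icc (-(r : ℤ)) r then aeval I2 (Q.basis r m) else 0

/-- `e_m I_1 e_(m+1) I_1 e_m` -/
noncomputable def Xp (r : ℕ) (I1 I2 : E) (m : ℤ) : E :=
  em Q r I2 m * I1 * em Q r I2 (m + 1) * I1 * em Q r I2 m

/-- `e_m I_1 e_(m-1) I_1 e_m` -/
noncomputable def Xn (r : ℕ) (I1 I2 : E) (m : ℤ) : E :=
  em Q r I2 m * I1 * em Q r I2 (m - 1) * I1 * em Q r I2 m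

/-- The Casimir element. -/
noncomputable def cas (r : ℕ) (I1 I2 : E) : E :=
  ∑ m ∈ Finset.Icc (-(r : ℤ)) r, (cj Q m • em Q r I2 m -
    ((Q.qp 1 - Q.qp (-1)) ^ 2 * cu Q m * cu Q (m + 1)) • Xp Q r I1 I2 m)

/-- Evaluation of a noncommutative polynomial at `(I_1, I_2)` (`false ↦ I_1`, `true ↦ I_2`). -/
noncomputable def evf (F : Type) [Field F] {E : Type} [Ring E] [Algebra F E] (I1 I2 : E)
    (w : FreeAlgebra F Bool) : E :=
  FreeAlgebra.lift F (fun b => if b then I2 else I1) w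

/-- `τ` is a trace functional on the subalgebra generated by `I_1`, `I_2`. -/
def IsTr (I1 I2 : E) (τ : E →ₗ[F] F) : Prop :=
  ∀ x ∈ Algebra.adjoin F {I1, I2}, ∀ y ∈ Algebra.adjoin F {I1, I2}, τ (x * y) = τ (y * x)

end Alg

/-! ### 6. Functions on `ℤ/2n` -/

section Torus

variable (n : ℕ) [NeZero n] (ι : ℤ)

/-- The square root `s_1` of `ζ`: it is `s_0` if `ι = 3 mod 4`, otherwise `-s_0`. -/
noncomputable def s1 : ℂˣ := if ι % 4 = 3 then sz n ι else -sz n ι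

/-- `s_1^(u²)` -/
noncomputable def chf (u : ZMod (2 * n)) : ℂˣ := s1 n ι ^ ((u.val : ℤ) ^ 2)

/-- the chirp -/
noncomputable def Ch (a : ℤ) : Module.End ℂ (Fn n) := mulo n fun u => ((chf n ι u ^ a : ℂˣ) : ℂ)

/-- the chirp in the Fourier transform -/
noncomputable def Dh (a : ℤ) : Module.End ℂ (Fn n) :=
  cono n ι fun k => ((chf n ι k ^ a : ℂˣ) : ℂ)

/-- `f(u) ↦ f(-u)` -/
def par0 : Module.End ℂ (Fn n) where
  toFun f := fun u => f (-u)
  map_add' _ _ := rfl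
  map_smul' _ _ := rfl

/-- the projection onto the even functions -/
noncomputable def Pev : Module.End ℂ (Fn n) := (1 / 2 : ℂ) • (1 + par0 n)

/-- the product `D^(x_1) C^(x_2) D^(x_3) ...` -/
noncomputable def ww : Bool → List ℤ → Module.End ℂ (Fn n)
  | _, [] => 1
  | false, a :: l => Dh n ι a * ww true l
  | true, a :: l => Ch n ι a * ww false l

/-- the product with `O` inserted after `j` letters -/
noncomputable def wi (O : Module.End ℂ (Fn n)) : Bool → List ℤ → ℕ → Module.End ℂ (Fn n)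
  | b, l, 0 => O * ww n ι b l
  | _, [], _ + 1 => 0
  | false, a :: l, j + 1 => Dh n ι a * wi O true l j
  | true, a :: l, j + 1 => Ch n ι a * wi O false l j

/-- the trace on even functions -/
noncomputable def tre (T : Module.End ℂ (Fn n)) : ℂ := LinearMap.trace ℂ (Fn n) (Pev n * T)

/-- the value -/
noncomputable def J0 (x : List ℤ) : ℂ := tre n (ww n ι false x)

/-- the derivative, as an operator -/
noncomputable def w1 (x : List ℤ) : Module.End ℂ (Fn n) :=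
  (∑ i ∈ Finset.range x.length, (((x.getD i 0 : ℤ) : ℂ) / 2) •
      wi n ι (if Even i then cono n ι (bq n) else mulo n (bq n)) false x i) -
    ∑ j ∈ Finset.range x.length, (-1 : ℂ) ^ j • wi n ι (Th n ι) false x j

/-- the derivative -/
noncomputable def J1 (x : List ℤ) : ℂ := tre n (w1 n ι x)

/-- the letters over the dual numbers -/
noncomputable def LD (a : ℤ) : Module.End (DualNumber ℂ) (ZMod (2 * n) → DualNumber ℂ) :=
  lift2 n 1 (-Th n ι) * lift2 n (Dh n ι a)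
    (cono n ι fun k => ((chf n ι k ^ a : ℂˣ) : ℂ) * ((a : ℂ) * bq n k / 2)) * lift2 n 1 (Th n ι)

/-- the letters over the dual numbers -/
noncomputable def LC (a : ℤ) : Module.End (DualNumber ℂ) (ZMod (2 * n) → DualNumber ℂ) :=
  lift2 n (Ch n ι a) (mulo n fun k => ((chf n ι k ^ a : ℂˣ) : ℂ) * ((a : ℂ) * bq n k / 2))

/-- the product over the dual numbers -/
noncomputable def wd : Bool → List ℤ →
    Module.End (DualNumber ℂ) (ZMod (2 * n) → DualNumber ℂ)
  | _, [] => 1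
  | false, a :: l => LD n ι a * wd true l
  | true, a :: l => LC n ι a * wd false l

end Torus

/-! ### 7. Cotangent sums -/

section Sums

variable (n : ℕ) [NeZero n]

/-- The sums `Ψ_x(n, κ)`. -/
noncomputable def Psi3 (x : List ℤ) (κ : ZMod n) : ℂ :=
  (1 / 4) * ∑ i ∈ Finset.range x.length, ((x.getD i 0 : ℤ) : ℂ) *
      ∑ ρ ∈ Finset.Ico 1 n, ((1 / Real.sin (π * ρ / n) ^ 2 : ℝ) : ℂ) *
        ZMod.stdAddChar (κ * (ρ : ZMod n) ^ 2 * (Qw x (ch3 x (i + 1)) : ZMod n)) +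
  (1 / 4) * ∑ j ∈ Finset.range x.length, (-1 : ℂ) ^ j *
      ∑ R : ZMod n × ZMod n, ct n (detm n R (ch3 x j)) * ct n (detm n R (ch3 x (j + 1))) *
        ZMod.stdAddChar (κ * Qm n x R)

/-- The sums over `Q(R) = N` modulo `n`. -/
noncomputable def Zx (x : List ℤ) (N : ZMod n) : ℂ :=
  (1 / 4) * ∑ i ∈ Finset.range x.length, ((x.getD i 0 : ℤ) : ℂ) *
      ∑ ρ ∈ Finset.Ico 1 n, (if (ρ : ZMod n) ^ 2 * (Qw x (ch3 x (i + 1)) : ZMod n) = N then
        ((1 / Real.sin (π * ρ / n) ^ 2 : ℝ) : ℂ) else 0) +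
  (1 / 4) * ∑ j ∈ Finset.range x.length, (-1 : ℂ) ^ j *
      ∑ R : ZMod n × ZMod n, if Qm n x R = N then
        ct n (detm n R (ch3 x j)) * ct n (detm n R (ch3 x (j + 1))) else 0

/-- `Z(N) - Z(N + n/2)` -/
noncomputable def Zo (x : List ℤ) (N : ZMod n) : ℂ :=
  Zx n x N - Zx n x (N + ((n / 2 : ℕ) : ZMod n))

end Sums

/-- The summand of the limit. -/
noncomputable def F3 (x : List ℤ) (R : ℤ × ℤ) : ℝ :=
  (1 / 4) * ((∑ j ∈ Finset.range x.length,
      (-1 : ℝ) ^ j / ((det2 R (ch3 x j) : ℝ) * (det2 R (ch3 x (j + 1)) : ℝ))) +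
    ∑ i ∈ Finset.range x.length, if det2 R (ch3 x (i + 1)) = 0 then
      ((x.getD i 0 : ℤ) : ℝ) * (Qw x (ch3 x (i + 1)) : ℝ) / (Qw x R : ℝ) else 0)

/-! ### 8. The matrix group -/

/-- The product of the matrices of the letters. -/
def mw : Bool → List ℤ → Matrix.SpecialLinearGroup (Fin 2) ℤ
  | _, [] => 1
  | false, a :: l => mD ^ a * mw true l
  | true, a :: l => mC ^ a * mw false l

/-- The action on pairs. -/
def act (A : Matrix.SpecialLinearGroup (Fin 2) ℤ) (R : ℤ × ℤ) : ℤ × ℤ :=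
  (A.1 0 0 * R.1 + A.1 0 1 * R.2, A.1 1 0 * R.1 + A.1 1 1 * R.2)

/-- `⟨R, A R⟩` -/
def qf (A : Matrix.SpecialLinearGroup (Fin 2) ℤ) (R : Fin 2 → ℤ) : ℤ :=
  R 0 * (A.1.mulVec R) 1 - R 1 * (A.1.mulVec R) 0

/-- The orbit of `R` under the powers of `A`. -/
def orb (A : Matrix.SpecialLinearGroup (Fin 2) ℤ) (R : Fin 2 → ℤ) : Set (Fin 2 → ℤ) :=
  {R' | ∃ k : ℤ, R' = (A ^ k).1.mulVec R}

/-- The number of orbits of solutions of `⟨R, A R⟩ = N`. -/
noncomputable def cnt (A : Matrix.SpecialLinearGroup (Fin 2) ℤ) (N : ℤ) : ℕ :=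
  {S : Set (Fin 2 → ℤ) | ∃ R, qf A R = N ∧ S = orb A R}.ncard

/-- The matrix of the reversed braid: `(a b; c d) ↦ (d b; c a)`. -/
def revM (A : Matrix.SpecialLinearGroup (Fin 2) ℤ) : Matrix.SpecialLinearGroup (Fin 2) ℤ :=
  ⟨!![A.1 1 1, A.1 0 1; A.1 1 0, A.1 0 0], by
    have h := A.2
    rw [Matrix.det_fin_two] at h
    rw [Matrix.det_fin_two_of]
    linarith⟩

/-- `sign(t) sqrt(t² - 4) = λ - λ⁻¹`, `λ` the eigenvalue with `|λ| > 1` of a matrix of trace `t`. -/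
noncomputable def dl (t : ℤ) : ℝ := (Int.sign t : ℝ) * Real.sqrt ((t : ℝ) ^ 2 - 4)

end Pool.Agent.T3
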