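import Pool.Agent.T3.Stmts2
import Pool.Agent.TB.Zt
import Pool.Agent.TB.Ego

/-!
Finite type invariants of closed 3-braids: chirps, Weyl operators, parity (module EGO3).
-/

open Polynomial
open scoped BigOperators Real

namespace Pool.Agent.T3.EGO3

open Pool.Agent.TB Pool.Agent.LibH11 Pool.Agent.TB.EGO

section

set_option linter.unusedSectionVars false

variable (n : ℕ) [NeZero n] (ι : ℤ)

theorem zt_zpow (k : ZMod (2 * n)) (x : ℤ) : zt n ι k ^ x = zt n ι (x * k) := by
  unfold zt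
  rw [← AddChar.map_zsmul_eq_zpow]
  congr 1
  rw [zsmul_eq_mul]
  ring

theorem zt_npow (k : ZMod (2 * n)) (x : ℕ) : zt n ι k ^ x = zt n ι (x * k) := by
  have := zt_zpow n ι k (x : ℤ)
  rw [zpow_natCast] at this
  rw [this]
  norm_cast

theorem par0_apply (f : Fn n) (u : ZMod (2 * n)) : par0 n f u = f (-u) := rfl

/-- the chirp function at a shifted point -/
theorem chf_shift
    (hc : ∀ u v : ZMod (2 * n), (chf n ι (u + v) : ℂ) = chf n ι u * chf n ι v * zt n ι (u * v))
    (hsq : ∀ u : ZMod (2 * n), (chf n ι u : ℂ) ^ 2 = zt n ι (u ^ 2))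
    (hadd : ∀ a b, zt n ι (a + b) = zt n ι a * zt n ι b)
    (u b : ZMod (2 * n)) (x : ℤ) :
    ((chf n ι (u + 2 * b) ^ x : ℂˣ) : ℂ) =
      ((chf n ι u ^ x : ℂˣ) : ℂ) * zt n ι (x * (2 * b ^ 2 + 2 * b * u)) := by
  have h1 : (chf n ι (2 * b) : ℂ) = zt n ι (2 * b ^ 2) := by
    rw [two_mul, hc b b, ← sq, hsq, ← hadd]
    congr 1
    ring
  have h2 : (chf n ι (u + 2 * b) : ℂ) = chf n ι u * zt n ι (2 * b ^ 2 + 2 * b * u) := by
    rw [hc, h1, mul_assoc, ← hadd]
    congr 2
    ring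
  rw [Units.val_zpow_eq_zpow_val, Units.val_zpow_eq_zpow_val, h2, mul_zpow, zt_zpow]

theorem Ch_apply (x : ℤ) (f : Fn n) (u : ZMod (2 * n)) :
    Ch n ι x f u = ((chf n ι u ^ x : ℂˣ) : ℂ) * f u := rfl

theorem Dh_apply (x : ℤ) (f : Fn n) (u : ZMod (2 * n)) : Dh n ι x f u =
    (1 / (2 * n : ℂ)) * ∑ k, ∑ v, ((chf n ι k ^ x : ℂˣ) : ℂ) * zt n ι (k * (u - v)) * f v := rfl

theorem Ch_Tt
    (hc : ∀ u v : ZMod (2 * n), (chf n ι (u + v) : ℂ) = chf n ι u * chf n ι v * zt n ι (u * v))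
    (hsq : ∀ u : ZMod (2 * n), (chf n ι u : ℂ) ^ 2 = zt n ι (u ^ 2))
    (hadd : ∀ a b, zt n ι (a + b) = zt n ι a * zt n ι b) (x a b : ℤ) :
    Ch n ι x * Tt n ι a b = Tt n ι (a - x * b) b * Ch n ι x := by
  apply ext_end
  intro f u
  rw [Module.End.mul_apply, Module.End.mul_apply, Ch_apply, Tt_apply, Tt_apply, Ch_apply,
    chf_shift n ι hc hsq hadd]
  have h1 : zt n ι (2 * a * b + 2 * a * u) =
      zt n ι (2 * ((a - x * b : ℤ) : ZMod (2 * n)) * b + 2 * ((a - x * b : ℤ) : ZMod (2 * n)) * u) *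
        zt n ι (x * (2 * (b : ZMod (2 * n)) ^ 2 + 2 * b * u)) := by
    rw [← hadd]
    congr 1
    push_cast
    ring
  rw [h1]
  ring

theorem Dh_Tt
    (hc : ∀ u v : ZMod (2 * n), (chf n ι (u + v) : ℂ) = chf n ι u * chf n ι v * zt n ι (u * v))
    (hsq : ∀ u : ZMod (2 * n), (chf n ι u : ℂ) ^ 2 = zt n ι (u ^ 2))
    (hadd : ∀ a b, zt n ι (a + b) = zt n ι a * zt n ι b) (x a b : ℤ) :
    Dh n ι x * Tt n ι a b = Tt n ι a (b + x * a) * Dh n ι x := by
  apply ext_end
  intro f u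
  rw [Module.End.mul_apply, Module.End.mul_apply, Dh_apply, Tt_apply, Dh_apply]
  have hk := (Equiv.subRight (2 * (a : ZMod (2 * n)))).sum_comp (fun k : ZMod (2 * n) =>
    (∑ v : ZMod (2 * n), ((chf n ι k ^ x : ℂˣ) : ℂ) *
      zt n ι (k * (u + 2 * ((b + x * a : ℤ) : ZMod (2 * n)) - v)) * f v : ℂ))
  rw [mul_left_comm (zt n ι _) (1 / (2 * n : ℂ))]
  refine congrArg (fun z : ℂ => 1 / (2 * n : ℂ) * z) ?_
  rw [← hk, Finset.mul_sum]
  refine Finset.sum_congr rfl fun k _ => ?_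
  have hv := Equiv.sum_comp (Equiv.addRight (2 * (b : ZMod (2 * n)))) (fun v : ZMod (2 * n) =>
    (((chf n ι (Equiv.subRight (2 * (a : ZMod (2 * n))) k) ^ x : ℂˣ) : ℂ) *
      zt n ι ((Equiv.subRight (2 * (a : ZMod (2 * n))) k) *
        (u + 2 * ((b + x * a : ℤ) : ZMod (2 * n)) - v)) * f v : ℂ))
  rw [← hv, Finset.mul_sum]
  refine Finset.sum_congr rfl fun v _ => ?_
  simp only [Equiv.coe_addRight, Equiv.subRight_apply, Tt_apply]
  have h0 : ((chf n ι k ^ x : ℂˣ) : ℂ) = ((chf n ι (k - 2 * a) ^ x : ℂˣ) : ℂ) *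
      zt n ι (x * (2 * (a : ZMod (2 * n)) ^ 2 + 2 * a * (k - 2 * a))) := by
    rw [← chf_shift n ι hc hsq hadd, sub_add_cancel]
  have h1 : zt n ι (x * (2 * (a : ZMod (2 * n)) ^ 2 + 2 * a * (k - 2 * a))) *
      zt n ι (k * (u - v)) * zt n ι (2 * a * b + 2 * a * v) =
      zt n ι (2 * a * ((b + x * a : ℤ) : ZMod (2 * n)) + 2 * a * u) *
        zt n ι ((k - 2 * a) * (u + 2 * ((b + x * a : ℤ) : ZMod (2 * n)) - (v + 2 * b))) := by
    rw [← hadd, ← hadd, ← hadd]
    congr 1
    push_cast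
    ring
  rw [h0]
  linear_combination (((chf n ι (k - 2 * a) ^ x : ℂˣ) : ℂ) * f (v + 2 * b)) * h1

theorem par0_mulo (g : Fn n) (hg : ∀ u, g (-u) = g u) :
    par0 n * mulo n g = mulo n g * par0 n := by
  apply ext_end
  intro f u
  rw [Module.End.mul_apply, Module.End.mul_apply, par0_apply, mulo_apply, mulo_apply, par0_apply,
    hg]

theorem par0_cono (g : Fn n) (hg : ∀ u, g (-u) = g u) :
    par0 n * cono n ι g = cono n ι g * par0 n := by
  apply ext_end
  intro f u
  rw [Module.End.mul_apply, Module.End.mul_apply, par0_apply, cono_apply, cono_apply]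
  congr 1
  have hk := Equiv.sum_comp (Equiv.neg (ZMod (2 * n))) (fun k : ZMod (2 * n) =>
    (∑ v : ZMod (2 * n), g k * zt n ι (k * (u - v)) * par0 n f v : ℂ))
  rw [← hk]
  refine Finset.sum_congr rfl fun k _ => ?_
  have hv := Equiv.sum_comp (Equiv.neg (ZMod (2 * n))) (fun v : ZMod (2 * n) =>
    (g (Equiv.neg (ZMod (2 * n)) k) * zt n ι (Equiv.neg (ZMod (2 * n)) k * (u - v)) *
      par0 n f v : ℂ))
  rw [← hv]
  refine Finset.sum_congr rfl fun v _ => ?_
  simp only [Equiv.neg_apply, par0_apply, neg_neg, hg]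
  congr 3
  ring

theorem par0_Tt (a b : ℤ) : par0 n * Tt n ι a b = Tt n ι (-a) (-b) * par0 n := by
  apply ext_end
  intro f u
  rw [Module.End.mul_apply, Module.End.mul_apply, par0_apply, Tt_apply, Tt_apply, par0_apply]
  congr 2
  · push_cast
    ring
  · push_cast
    ring

theorem par0_par0 : par0 n * par0 n = 1 := by
  apply ext_end
  intro f u
  rw [Module.End.mul_apply, par0_apply, par0_apply, neg_neg, Module.End.one_apply]

theorem mulo_mul' (g g' : Fn n) : mulo n g * mulo n g' = mulo n (g * g') := by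
  apply ext_end
  intro f u
  rw [Module.End.mul_apply, mulo_apply, mulo_apply, mulo_apply, Pi.mul_apply, mul_assoc]

/-- reindexing -/
theorem sum_neg_range {M : Type*} [AddCommMonoid M] (F : ℤ → M)
    (hF : ∀ a : ℤ, F (a + n) = F a) :
    ∑ a ∈ Finset.range n, F (-(a : ℤ)) = ∑ a ∈ Finset.range n, F a := by
  have hn : 0 < n := Nat.pos_of_ne_zero (NeZero.ne n)
  have key : ∀ a : ℕ, a < n → F (-(a : ℤ)) = F (((n - a) % n : ℕ) : ℤ) := by
    intro a ha
    rcases Nat.eq_zero_or_pos a with h | h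
    · subst h
      simp
    · rw [Nat.mod_eq_of_lt (by omega), ← hF, Nat.cast_sub ha.le]
      congr 1
      ring
  refine Finset.sum_nbij' (fun a => (n - a) % n) (fun a => (n - a) % n) ?_ ?_ ?_ ?_ ?_
  · intro a _
    exact Finset.mem_range.2 (Nat.mod_lt _ hn)
  · intro a _
    exact Finset.mem_range.2 (Nat.mod_lt _ hn)
  · intro a ha
    rw [Finset.mem_range] at ha
    rcases Nat.eq_zero_or_pos a with h | h
    · subst h
      simp
    · have h1 : (n - a) % n = n - a := Nat.mod_eq_of_lt (by omega)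
      simp only [h1]
      rw [Nat.sub_sub_self ha.le, Nat.mod_eq_of_lt ha]
  · intro a ha
    rw [Finset.mem_range] at ha
    rcases Nat.eq_zero_or_pos a with h | h
    · subst h
      simp
    · have h1 : (n - a) % n = n - a := Nat.mod_eq_of_lt (by omega)
      simp only [h1]
      rw [Nat.sub_sub_self ha.le, Nat.mod_eq_of_lt ha]
  · intro a ha
    exact key a (Finset.mem_range.1 ha)

theorem saw_add (a : ℤ) : saw n (a + n) = saw n a := by
  unfold saw
  by_cases h : (n : ℤ) ∣ a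
  · rw [if_pos h, if_pos ((dvd_add_right h).2 dvd_rfl)]
  · rw [if_neg h, if_neg (fun h' => h ((dvd_add_left (dvd_refl (n : ℤ))).1 h')),
      Int.add_emod_right]

theorem saw_neg (a : ℤ) : saw n (-a) = -saw n a := by
  have hn : (n : ℤ) ≠ 0 := by exact_mod_cast NeZero.ne n
  have hn' : (n : ℂ) ≠ 0 := by exact_mod_cast NeZero.ne n
  unfold saw
  by_cases h : (n : ℤ) ∣ a
  · rw [if_pos h, if_pos (by rwa [dvd_neg]), neg_zero]
  · rw [if_neg h, if_neg (by rwa [dvd_neg])]
    have h1 : (-a) % (n : ℤ) = n - a % n := by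
      have h2 : a % (n : ℤ) ≠ 0 := fun h' => h (Int.dvd_of_emod_eq_zero h')
      have h3 := Int.emod_nonneg a hn
      have h4 := Int.emod_lt_of_pos a (by positivity : (0 : ℤ) < n)
      have h5 : (-a) % (n : ℤ) = (n - a % n) % n := by
        rw [Int.sub_emod, Int.emod_self, Int.emod_emod_of_dvd a dvd_rfl, ← Int.zero_sub,
          Int.sub_emod 0 a, Int.zero_emod]
      rw [h5, Int.emod_eq_of_lt (by omega) (by omega)]
    rw [h1]
    push_cast
    field_simp
    ring

theorem bq_neg (u : ZMod (2 * n)) : bq n (-u) = bq n u := by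
  have hn : 0 < n := Nat.pos_of_ne_zero (NeZero.ne n)
  unfold bq
  by_cases hu : u = 0
  · rw [hu, neg_zero]
  · rw [ZMod.neg_val, if_neg hu]
    have h1 : u.val < 2 * n := ZMod.val_lt u
    have h2 : u.val % n < n := Nat.mod_lt _ hn
    by_cases hc : u.val % n = 0
    · have h3 : (2 * n - u.val) % n = 0 := by
        obtain ⟨e, he⟩ := Nat.dvd_of_mod_eq_zero hc
        have : 2 * n - u.val = n * (2 - e) := by
          rw [he, Nat.mul_sub]
          ring_nf
        rw [this, Nat.mul_mod_right]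
      rw [hc, h3]
    · have h3 : (2 * n - u.val) % n = n - u.val % n := by
        have h4 : (2 * n - u.val) % n + u.val % n = n := by
          have h5 := Nat.div_add_mod u.val n
          have h6 : u.val / n < 2 := by
            rw [Nat.div_lt_iff_lt_mul hn]
            linarith
          have h7 : 2 * n - u.val = n * (1 - u.val / n) + (n - u.val % n) := by
            generalize u.val / n = q at h5 h6 ⊢
            generalize u.val % n = r at h5 h2 ⊢
            generalize u.val = w at h5 h1 ⊢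
            have h8 : q = 0 ∨ q = 1 := by omega
            rcases h8 with h8 | h8
            · subst h8
              rw [Nat.mul_zero, Nat.zero_add] at h5
              rw [Nat.sub_zero, Nat.mul_one]
              omega
            · subst h8
              rw [Nat.mul_one] at h5
              rw [Nat.sub_self, Nat.mul_zero, Nat.zero_add]
              omega
          rw [h7, Nat.mul_add_mod, Nat.mod_eq_of_lt (by omega)]
          omega
        omega
      rw [h3, Nat.cast_sub h2.le]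
      ring

theorem two_mul_eq_zero (b : ℕ) (u : ZMod (2 * n)) :
    (2 * b + 2 * u : ZMod (2 * n)) = 0 ↔ n ∣ b + u.val := by
  have h1 : (2 * b + 2 * u : ZMod (2 * n)) = ((2 * (b + u.val) : ℕ) : ZMod (2 * n)) := by
    push_cast
    rw [ZMod.natCast_zmod_val]
    ring
  rw [h1, ZMod.natCast_eq_zero_iff, Nat.mul_dvd_mul_iff_left two_pos]

theorem geo_sum (h0 : zt n ι 0 = 1) (hne : ∀ u : ZMod (2 * n), u ≠ 0 → zt n ι u ≠ 1)
    (b : ℕ) (u : ZMod (2 * n)) :
    ∑ a ∈ Finset.range n, zt n ι (2 * (a : ZMod (2 * n)) * b + 2 * a * u) =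
      if n ∣ b + u.val then (n : ℂ) else 0 := by
  have h1 : ∀ a ∈ Finset.range n, zt n ι (2 * (a : ZMod (2 * n)) * b + 2 * a * u) =
      zt n ι (2 * b + 2 * u) ^ a := by
    intro a _
    rw [zt_npow]
    congr 1
    ring
  rw [Finset.sum_congr rfl h1]
  by_cases h : n ∣ b + u.val
  · rw [if_pos h, (two_mul_eq_zero n b u).2 h, h0]
    simp
  · rw [if_neg h]
    have h2 : zt n ι (2 * b + 2 * u) ≠ 1 := hne _ fun h' => h ((two_mul_eq_zero n b u).1 h')
    rw [geom_sum_eq h2]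
    have h3 : zt n ι (2 * b + 2 * u) ^ n = 1 := by
      rw [zt_npow]
      have h4 : ((n : ℕ) : ZMod (2 * n)) * (2 * b + 2 * u) = ((2 * n : ℕ) : ZMod (2 * n)) * (b + u) := by
        push_cast
        ring
      rw [h4, ZMod.natCast_self, zero_mul, h0]
    rw [h3, sub_self, zero_div]

theorem par0_sum (h0 : zt n ι 0 = 1) (hne : ∀ u : ZMod (2 * n), u ≠ 0 → zt n ι u ≠ 1) :
    (n : ℂ) • par0 n = ∑ a ∈ Finset.range n, ∑ b ∈ Finset.range n, Tt n ι a b := by
  have hn : 0 < n := Nat.pos_of_ne_zero (NeZero.ne n)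
  apply ext_end
  intro f u
  have h1 : (∑ a ∈ Finset.range n, ∑ b ∈ Finset.range n, Tt n ι a b) f u =
      ∑ b ∈ Finset.range n, ∑ a ∈ Finset.range n,
        zt n ι (2 * (a : ZMod (2 * n)) * b + 2 * a * u) * f (u + 2 * b) := by
    rw [Finset.sum_comm]
    simp only [LinearMap.sum_apply, Finset.sum_apply, Tt_apply, Int.cast_natCast]
  rw [h1]
  have h2 : ∀ b ∈ Finset.range n, ∑ a ∈ Finset.range n,
      zt n ι (2 * (a : ZMod (2 * n)) * b + 2 * a * u) * f (u + 2 * b) =
        if n ∣ b + u.val then (n : ℂ) * f (-u) else 0 := by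
    intro b _
    rw [← Finset.sum_mul, geo_sum n ι h0 hne]
    by_cases h : n ∣ b + u.val
    · rw [if_pos h, if_pos h]
      have h3 := (two_mul_eq_zero n b u).2 h
      congr 2
      linear_combination h3
    · rw [if_neg h, if_neg h, zero_mul]
  rw [Finset.sum_congr rfl h2]
  have hb0 : n ∣ (n - u.val % n) % n + u.val := by
    have h5 := Nat.div_add_mod u.val n
    have h6 : u.val % n < n := Nat.mod_lt _ hn
    rcases Nat.eq_zero_or_pos (u.val % n) with h | h
    · rw [h, Nat.sub_zero, Nat.mod_self, Nat.zero_add]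
      exact Nat.dvd_of_mod_eq_zero h
    · rw [Nat.mod_eq_of_lt (by omega : n - u.val % n < n)]
      have h7 : n - u.val % n + u.val = n * (1 + u.val / n) := by
        rw [Nat.mul_add, Nat.mul_one]
        omega
      rw [h7]
      exact Dvd.intro _ rfl
  rw [Finset.sum_eq_single ((n - u.val % n) % n)]
  · rw [if_pos hb0, LinearMap.smul_apply, Pi.smul_apply, par0_apply, smul_eq_mul]
  · intro b hb hne'
    rw [Finset.mem_range] at hb
    refine if_neg fun h => hne' ?_
    have h6 : (n - u.val % n) % n < n := Nat.mod_lt _ hn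
    generalize (n - u.val % n) % n = c at hb0 h6 ⊢
    have h7 : (b : ℤ) ≡ c [ZMOD n] := by
      have e1 : ((b : ℤ) + u.val) ≡ 0 [ZMOD n] :=
        (Int.modEq_zero_iff_dvd).2 (by exact_mod_cast h)
      have e2 : ((c : ℤ) + u.val) ≡ 0 [ZMOD n] :=
        (Int.modEq_zero_iff_dvd).2 (by exact_mod_cast hb0)
      exact Int.ModEq.add_right_cancel' _ (e1.trans e2.symm)
    have h8 : b ≡ c [MOD n] := Int.natCast_modEq_iff.1 h7
    exact Nat.ModEq.eq_of_lt_of_lt h8 hb h6
  · intro h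
    exact absurd (Finset.mem_range.2 (Nat.mod_lt _ hn)) h

theorem par0_Th (hT : ∀ a b c d : ℤ, (a : ZMod n) = c → (b : ZMod n) = d →
    Tt n ι a b = Tt n ι c d) : par0 n * Th n ι = Th n ι * par0 n := by
  unfold Th
  rw [mul_smul_comm, smul_mul_assoc]
  congr 1
  have e1 : par0 n * ∑ a ∈ Finset.range n, ∑ b ∈ Finset.range n,
      (saw n a * saw n b) • Tt n ι a b =
      (∑ a ∈ Finset.range n, ∑ b ∈ Finset.range n,
        (saw n (-(a : ℤ)) * saw n (-(b : ℤ))) • Tt n ι (-(a : ℤ)) (-(b : ℤ))) * par0 n := by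
    rw [Finset.mul_sum, Finset.sum_mul]
    refine Finset.sum_congr rfl fun a _ => ?_
    rw [Finset.mul_sum, Finset.sum_mul]
    refine Finset.sum_congr rfl fun b _ => ?_
    rw [mul_smul_comm, smul_mul_assoc, par0_Tt, saw_neg, saw_neg, neg_mul_neg]
  rw [e1]
  congr 1
  have e2 : ∀ a : ℤ, ∑ b ∈ Finset.range n,
      (saw n a * saw n (-(b : ℤ))) • Tt n ι a (-(b : ℤ)) =
      ∑ b ∈ Finset.range n, (saw n a * saw n (b : ℤ)) • Tt n ι a (b : ℤ) := by
    intro a
    refine sum_neg_range n (fun b : ℤ => (saw n a * saw n b) • Tt n ι a b) ?_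
    intro b
    have h1 : Tt n ι a (b + n) = Tt n ι a b := hT _ _ _ _ rfl (by push_cast; simp)
    simp only [saw_add, h1]
  have e3 : ∀ a ∈ Finset.range n, ∑ b ∈ Finset.range n,
        (saw n (-(a : ℤ)) * saw n (-(b : ℤ))) • Tt n ι (-(a : ℤ)) (-(b : ℤ)) =
      ∑ b ∈ Finset.range n, (saw n (-(a : ℤ)) * saw n (b : ℤ)) • Tt n ι (-(a : ℤ)) (b : ℤ) :=
    fun a _ => e2 _
  rw [Finset.sum_congr rfl e3]
  refine sum_neg_range n (fun a : ℤ => ∑ b ∈ Finset.range n,
    (saw n a * saw n (b : ℤ)) • Tt n ι a (b : ℤ)) ?_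
  intro a
  refine Finset.sum_congr rfl fun b _ => ?_
  have h1 : Tt n ι (a + n) b = Tt n ι a b := hT _ _ _ _ (by push_cast; simp) rfl
  rw [saw_add, h1]

theorem Pev_Pev : Pev n * Pev n = Pev n := by
  unfold Pev
  rw [smul_mul_smul_comm, add_mul, mul_add, mul_add, par0_par0, one_mul, mul_one, one_mul]
  have h1 : (1 + par0 n + (par0 n + 1) : Module.End ℂ (Fn n)) = (2 : ℂ) • (1 + par0 n) := by
    rw [two_smul]
    abel
  rw [h1, smul_smul]
  norm_num

end

end Pool.Agent.T3.EGO3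

namespace Pool.Agent.T3

open Pool.Agent.TB Pool.Agent.LibH11 Pool.Agent.TB.EGO EGO3

theorem ego3 (h : CHF_Stmt) : EGO3_Stmt := by
  intro n _ ι hι hev
  obtain ⟨-, hsq, hc, heven, -, -⟩ := h n ι hι hev
  obtain ⟨h0, hadd, -, -, hort, hne, -, -⟩ := zt_basic n ι hι
  obtain ⟨-, -, -, -, hT, -, -⟩ := ego zt_basic n ι hι
  have hevx : ∀ (x : ℤ) (u : ZMod (2 * n)),
      ((chf n ι (-u) ^ x : ℂˣ) : ℂ) = ((chf n ι u ^ x : ℂˣ) : ℂ) := by
    intro x u
    rw [heven]
  refine ⟨Ch_Tt n ι hc hsq hadd, Dh_Tt n ι hc hsq hadd, ?_, ?_, ?_, ?_, par0_Tt n ι, ?_,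
    par0_Th n ι hT, par0_par0 n, par0_mulo n _ (bq_neg n), par0_cono n ι _ (bq_neg n),
    Pev_Pev n, par0_sum n ι h0 hne⟩
  · intro x y
    have hxy : ((fun u => ((chf n ι u ^ x : ℂˣ) : ℂ)) * (fun u => ((chf n ι u ^ y : ℂˣ) : ℂ)) :
        Fn n) = fun u => ((chf n ι u ^ (x + y) : ℂˣ) : ℂ) := by
      funext u
      rw [Pi.mul_apply, zpow_add, Units.val_mul]
    constructor
    · unfold Ch
      rw [mulo_mul', hxy]
    · unfold Dh
      rw [cono_mul n ι hadd hort, hxy]
  · apply ext_end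
    intro f u
    rw [Ch_apply, zpow_zero, Units.val_one, one_mul, Module.End.one_apply]
  · unfold Dh
    have h1 : (fun k => ((chf n ι k ^ (0 : ℤ) : ℂˣ) : ℂ) : Fn n) = 1 := by
      funext k
      rw [zpow_zero, Units.val_one, Pi.one_apply]
    rw [h1, cono_one n ι hort]
  · intro x
    exact ⟨par0_mulo n _ (hevx x), par0_cono n ι _ (hevx x)⟩
  · intro x
    constructor
    · unfold Ch
      rw [mulo_mul', mulo_mul']
      exact congrArg (mulo n) (mul_comm _ _)
    · unfold Dh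
      rw [cono_mul n ι hadd hort, cono_mul n ι hadd hort]
      exact congrArg (cono n ι) (mul_comm _ _)

end Pool.Agent.T3
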