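import Pool.Agent.T3.Stmts2
import Pool.Agent.TB.Eig

/-!
EIG3: the eigenvalues `f_(r-c)` over the dual numbers.
-/

open Polynomial
open scoped BigOperators Real

namespace Pool.Agent.T3

open Pool.Agent.TB Pool.Agent.LibH11

namespace EIG3

theorem bq_eq (n r : ℕ) [NeZero n] (hn : n = 2 * r) (u : ZMod (2 * n)) :
    bq n u = ((cc n u : ℤ) : ℂ) * ((cc n u : ℤ) - 2 * r) := by
  obtain ⟨v, hv, hv2, h | h⟩ := Pool.Agent.TB.EIG.cc_cases n u
  · obtain ⟨h1, h2, h3⟩ := h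
    rw [h3]
    have h8 : ((u.val % n : ℕ) : ℤ) = (u.val : ℤ) % n := by push_cast; rfl
    rcases eq_or_lt_of_le h2 with h5 | h5
    · have h9 : u.val % n = 0 := by
        have : u.val = n := by omega
        rw [this, Nat.mod_self]
      rw [bq, h9, h5, hn]
      push_cast
      ring
    · have h9 : ((u.val % n : ℕ) : ℤ) = v := by
        rw [h8, ← hv2]
        exact Int.emod_eq_of_lt h1 h5
      have h10 : ((u.val % n : ℕ) : ℂ) = (v : ℂ) := by
        rw [← h9]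
        push_cast
        rfl
      rw [bq, h10, hn]
      push_cast
      ring
  · obtain ⟨h1, h2, h3⟩ := h
    rw [h3]
    have h6 : ((u.val : ℤ) % n) = v - n := by
      rw [← hv2]
      rw [Int.emod_eq_iff (by omega)]
      refine ⟨by omega, by rw [Int.natAbs_natCast]; omega, ?_⟩
      exact ⟨-1, by ring⟩
    have h8 : ((u.val % n : ℕ) : ℤ) = v - n := by
      rw [← h6]
      push_cast
      rfl
    have h10 : ((u.val % n : ℕ) : ℂ) = (v : ℂ) - n := by
      have := congrArg (fun t : ℤ => (t : ℂ)) h8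
      push_cast at this ⊢
      exact this
    rw [bq, h10, hn]
    push_cast
    ring

theorem cc_sq (n : ℕ) [NeZero n] (u : ZMod (2 * n)) :
    ∃ k : ℤ, ((k : ℤ) : ZMod (2 * n)) = u ∧ k ^ 2 = cc n u ^ 2 := by
  obtain ⟨v, hv, hv2, h | h⟩ := Pool.Agent.TB.EIG.cc_cases n u
  · exact ⟨v, hv, by rw [h.2.2]⟩
  · refine ⟨-(2 * n - v), ?_, by rw [h.2.2]; ring⟩
    have h8 : ((2 * (n : ℤ) : ℤ) : ZMod (2 * n)) = 0 := by
      have := ZMod.natCast_self (2 * n)
      push_cast at this ⊢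
      exact this
    rw [Int.cast_neg, Int.cast_sub, h8, hv, zero_sub, neg_neg]

theorem iC_four : iC ^ (4 : ℤ) = 1 := by
  apply Units.ext
  rw [zpow_ofNat, Units.val_pow_eq_pow_val]
  show Complex.I ^ 4 = 1
  exact Complex.I_pow_four

theorem iC_two : iC ^ (2 : ℤ) = -1 := by
  apply Units.ext
  rw [zpow_ofNat, Units.val_pow_eq_pow_val]
  show Complex.I ^ 2 = _
  rw [Complex.I_sq]
  simp

theorem sz_pow (n : ℕ) [NeZero n] (ι : ℤ) : sz n ι ^ (n : ℤ) = iC ^ ι := by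
  have hn0 : (n : ℂ) ≠ 0 := Nat.cast_ne_zero.2 (NeZero.ne n)
  apply Units.ext
  rw [zpow_natCast, Units.val_pow_eq_pow_val, Units.val_zpow_eq_zpow_val]
  show Complex.exp (π * Complex.I * ι / (2 * n)) ^ n = Complex.I ^ ι
  rw [← Complex.exp_nat_mul]
  have h1 : (n : ℂ) * (π * Complex.I * ι / (2 * n)) = ι * (π / 2 * Complex.I) := by
    field_simp
  rw [h1, Complex.exp_int_mul, Complex.exp_pi_div_two_mul_I]

/-- The leading coefficient. -/
theorem lead (n : ℕ) [NeZero n] (ι c : ℤ) (hι : ι % 2 = 1) :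
    iC ^ (-c) * sz n ι ^ (c ^ 2 - n * c) = s1 n ι ^ (c ^ 2) := by
  have h0 : sz n ι ^ (c ^ 2 - n * c) = sz n ι ^ (c ^ 2) * iC ^ (-(ι * c)) := by
    rw [sub_eq_add_neg, zpow_add]
    congr 1
    have : -((n : ℤ) * c) = n * (-c) := by ring
    rw [this, zpow_mul, sz_pow, ← zpow_mul]
    congr 1
    ring
  have h1 : iC ^ (-c) * sz n ι ^ (c ^ 2 - n * c) = sz n ι ^ (c ^ 2) * iC ^ (-((1 + ι) * c)) := by
    rw [h0]
    have : -((1 + ι) * c) = -c + -(ι * c) := by ring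
    rw [this, zpow_add]
    exact mul_left_comm _ _ _
  rw [h1]
  by_cases h4 : ι % 4 = 3
  · rw [s1, if_pos h4]
    obtain ⟨k, hk⟩ : ∃ k, 1 + ι = 4 * k := ⟨(1 + ι) / 4, by omega⟩
    have h5 : -((1 + ι) * c) = 4 * (-(k * c)) := by
      rw [hk]
      ring
    rw [h5, zpow_mul, iC_four, one_zpow, mul_one]
  · rw [s1, if_neg h4]
    obtain ⟨k, hk⟩ : ∃ k, 1 + ι = 4 * k + 2 := ⟨(1 + ι) / 4, by omega⟩
    have h5 : -((1 + ι) * c) = 4 * (-(k * c)) + 2 * (-c) := by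
      rw [hk]
      ring
    rw [h5, zpow_add, zpow_mul, iC_four, one_zpow, one_mul, zpow_mul, iC_two]
    have h6 : (-sz n ι) ^ (c ^ 2) = (-1) ^ (c ^ 2) * sz n ι ^ (c ^ 2) := by
      rw [← mul_zpow, neg_one_mul]
    rw [h6, mul_comm]
    congr 1
    rcases Int.even_or_odd c with hc | hc
    · have h7 : Even (c ^ 2) := by
        rw [sq]
        exact hc.mul_left c
      rw [Even.neg_one_zpow hc.neg, Even.neg_one_zpow h7]
    · have h7 : Odd (c ^ 2) := hc.pow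
      rw [Odd.neg_one_zpow hc.neg, Odd.neg_one_zpow h7]

end EIG3

open EIG3 in
theorem eig3 (h : CHF_Stmt) : EIG3_Stmt := by
  intro n r _ ι hn hr hι u a
  have hn2 : Even n := ⟨r, by omega⟩
  obtain ⟨hc1, -⟩ := h n ι hι hn2
  have hιodd : ι % 2 = 1 := by
    have h1 : IsCoprime ι 2 := IsCoprime.of_mul_right_left hι
    obtain ⟨x, y, hxy⟩ := h1
    rcases Int.emod_two_eq_zero_or_one ι with h2 | h2
    · exfalso
      obtain ⟨k, hk⟩ : ∃ k, ι = 2 * k := ⟨ι / 2, by omega⟩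
      rw [hk] at hxy
      have : x * (2 * k) + y * 2 = 2 * (x * k + y) := by ring
      omega
    · exact h2
  set c : ℤ := cc n u with hc
  have hchf : chf n ι u = s1 n ι ^ (c ^ 2) := by
    obtain ⟨k, hk1, hk2⟩ := cc_sq n u
    rw [← hk1, hc1, hk2]
  have hfu : (QD (sz n ι)).fu (r - c) = (QD (sz n ι)).fu r *
      Pool.Agent.TB.EIG.PL (chf n ι u, Multiplicative.ofAdd (bq n u / 2)) := by
    rw [Pool.Agent.TB.EIG.fu_eq, Pool.Agent.TB.EIG.fu_eq, ← map_mul]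
    congr 1
    refine Prod.ext ?_ ?_
    · show iC ^ ((r : ℤ) - c) * sz n ι ^ (((r : ℤ) - c) ^ 2) =
        iC ^ (r : ℤ) * sz n ι ^ ((r : ℤ) ^ 2) * chf n ι u
      rw [hchf, ← lead n ι c hιodd]
      have h2 : ((r : ℤ) - c) ^ 2 = (r : ℤ) ^ 2 + (c ^ 2 - n * c) := by
        rw [hn]
        push_cast
        ring
      rw [h2, zpow_add, sub_eq_add_neg, zpow_add]
      exact mul_mul_mul_comm _ _ _ _
    · show Multiplicative.ofAdd ((((r : ℤ) - c : ℤ) : ℂ) ^ 2 * (1 / 2)) =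
        Multiplicative.ofAdd ((((r : ℤ) : ℤ) : ℂ) ^ 2 * (1 / 2)) *
          Multiplicative.ofAdd (bq n u / 2)
      rw [← ofAdd_add, bq_eq n r hn u, ← hc]
      congr 1
      push_cast
      ring
  have hcomm : Commute ((QD (sz n ι)).fu r)
      (Pool.Agent.TB.EIG.PL (chf n ι u, Multiplicative.ofAdd (bq n u / 2))) :=
    Units.ext (mul_comm _ _)
  rw [hfu, hcomm.mul_zpow, Units.val_mul, ← map_zpow, Pool.Agent.TB.EIG.zpow_pair,
    Pool.Agent.TB.EIG.PL_coe]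
  have hb : (a : ℂ) * (bq n u / 2) = (a : ℂ) * bq n u / 2 := by ring
  rw [hb]

end Pool.Agent.T3
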