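import Pool.Agent.T3.Stmts2
import Pool.Agent.TB.Lim

/-!
The solutions with a fixed coordinate that are not integral solutions (module FIX).
-/

open Filter Topology
open scoped Real BigOperators

namespace Pool.Agent.T3

namespace FIX

/-- Sums of inverses of distinct nonzero integers. -/
theorem sum_inv_le {ι : Type*} [DecidableEq ι] (T : Finset ι) (g : ι → ℤ)
    (hinj : Set.InjOn g (T : Set ι)) (W : ℕ) (h0 : ∀ a ∈ T, g a ≠ 0)
    (hW : ∀ a ∈ T, |g a| ≤ W) : ∑ a ∈ T, 1 / |(g a : ℝ)| ≤ 2 * (1 + Real.log W) := by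
  have hharm : ∑ k ∈ Finset.range W, (1 : ℝ) / ((k : ℝ) + 1) ≤ 1 + Real.log W := by
    have h1 := harmonic_le_one_add_log W
    have h2 : ((harmonic W : ℚ) : ℝ) = ∑ k ∈ Finset.range W, (1 : ℝ) / ((k : ℝ) + 1) := by
      rw [harmonic]
      push_cast
      exact Finset.sum_congr rfl fun k _ => by rw [one_div]
    rw [← h2]
    exact h1
  have hkey : ∀ T' : Finset ι, T' ⊆ T → Set.InjOn (fun a => (g a).natAbs - 1) (T' : Set ι) →
      ∑ a ∈ T', 1 / |(g a : ℝ)| ≤ ∑ k ∈ Finset.range W, (1 : ℝ) / ((k : ℝ) + 1) := by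
    intro T' hT' hi
    have h1 : ∑ a ∈ T', 1 / |(g a : ℝ)| =
        ∑ k ∈ T'.image (fun a => (g a).natAbs - 1), (1 : ℝ) / ((k : ℝ) + 1) := by
      rw [Finset.sum_image hi]
      refine Finset.sum_congr rfl fun a ha => ?_
      have h2 := Int.natAbs_pos.2 (h0 a (hT' ha))
      have h3 : (((g a).natAbs - 1 : ℕ) : ℝ) + 1 = |(g a : ℝ)| := by
        rw [Nat.cast_sub h2]
        push_cast
        ring_nf
        rw [Nat.cast_natAbs]
        push_cast
        rfl
      rw [h3]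
    rw [h1]
    refine Finset.sum_le_sum_of_subset_of_nonneg ?_ fun k _ _ => by positivity
    intro k hk
    obtain ⟨a, ha, rfl⟩ := Finset.mem_image.1 hk
    rw [Finset.mem_range]
    have h2 := Int.natAbs_pos.2 (h0 a (hT' ha))
    have h3 := hW a (hT' ha)
    rw [Int.abs_eq_natAbs] at h3
    omega
  have hsplit : ∑ a ∈ T, 1 / |(g a : ℝ)| = ∑ a ∈ T.filter (fun a => 0 < g a), 1 / |(g a : ℝ)|
      + ∑ a ∈ T.filter (fun a => ¬ 0 < g a), 1 / |(g a : ℝ)| :=
    (Finset.sum_filter_add_sum_filter_not _ _ _).symm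
  have hp := hkey (T.filter fun a => 0 < g a) (Finset.filter_subset _ _) (by
    intro a ha b hb hab
    rw [Finset.mem_coe, Finset.mem_filter] at ha hb
    refine hinj (Finset.mem_coe.2 ha.1) (Finset.mem_coe.2 hb.1) ?_
    have : (g a).natAbs - 1 = (g b).natAbs - 1 := hab
    omega)
  have hn := hkey (T.filter fun a => ¬ 0 < g a) (Finset.filter_subset _ _) (by
    intro a ha b hb hab
    rw [Finset.mem_coe, Finset.mem_filter] at ha hb
    refine hinj (Finset.mem_coe.2 ha.1) (Finset.mem_coe.2 hb.1) ?_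
    have h1 : (g a).natAbs - 1 = (g b).natAbs - 1 := hab
    have h2 := h0 a ha.1
    have h3 := h0 b hb.1
    omega)
  rw [hsplit]
  linarith

theorem term_eq {s : ℕ} (a : ZMod (2 ^ s)) : (π / 2 ^ s) * |Real.cot (π * a.val / 2 ^ s)| =
    |TB.LIM.w s a.valMinAbs| := by
  have h : ((2 ^ s : ℕ) : ℤ) ∣ (a.val : ℤ) - a.valMinAbs := by
    rw [← ZMod.intCast_zmod_eq_zero_iff_dvd]
    push_cast
    rw [ZMod.natCast_val, ZMod.cast_id, sub_self]
  push_cast at h
  have h2 := TB.LIM.w_congr s _ _ h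
  rw [← h2]
  unfold TB.LIM.w
  rw [abs_mul, abs_of_pos (div_pos Real.pi_pos (by positivity : (0 : ℝ) < 2 ^ s))]
  push_cast
  rfl

end FIX

open FIX in
theorem fix (h : MULT_Stmt) : FIX_Stmt := by
  classical
  intro A B C N b hA hB hC hN
  have hA0 : A ≠ 0 := by
    rintro rfl
    exact absurd hA (by decide)
  have hA1 : 1 ≤ |A| := Int.one_le_abs hA0
  obtain ⟨M, hM⟩ : ∃ M : ℤ, M = (B ^ 2 - 4 * C * A) * b ^ 2 + 4 * (A * N) := ⟨_, rfl⟩
  -- the set of the solutions
  obtain ⟨T, hT⟩ : ∃ T : ∀ s : ℕ, Finset (ZMod (2 ^ s)), ∀ s, T s = Finset.univ.filter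
      (fun a : ZMod (2 ^ s) => 2 * ((A : ZMod (2 ^ s)) * a ^ 2 + B * a * b + C * b ^ 2 - N) = 0 ∧
        A * a.valMinAbs ^ 2 + B * a.valMinAbs * b + C * b ^ 2 ≠ N) := ⟨_, fun s => rfl⟩
  have hfun : ∀ s : ℕ, (π / 2 ^ s) * ∑ a : ZMod (2 ^ s),
      (if 2 * ((A : ZMod (2 ^ s)) * a ^ 2 + B * a * b + C * b ^ 2 - N) = 0 ∧
          A * a.valMinAbs ^ 2 + B * a.valMinAbs * b + C * b ^ 2 ≠ N then
        |Real.cot (π * a.val / 2 ^ s)| else 0) = ∑ a ∈ T s, |TB.LIM.w s a.valMinAbs| := by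
    intro s
    rw [hT, Finset.sum_filter, Finset.mul_sum]
    refine Finset.sum_congr rfl fun a _ => ?_
    split_ifs
    · exact term_eq a
    · rw [mul_zero]
  -- the integers `X` and `w`
  have hX : ∀ s, ∀ a ∈ T s, ∃ X : ℤ, X ≠ 0 ∧ (2 ^ s : ℤ) ∣ 2 * X ∧
      (2 * A * a.valMinAbs + B * b) ^ 2 = 4 * A * X + M := by
    intro s a ha
    rw [hT, Finset.mem_filter] at ha
    obtain ⟨-, h1, h2⟩ := ha
    refine ⟨A * a.valMinAbs ^ 2 + B * a.valMinAbs * b + C * b ^ 2 - N, sub_ne_zero.2 h2, ?_, ?_⟩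
    · have h3 := ZMod.intCast_zmod_eq_zero_iff_dvd
        (2 * (A * a.valMinAbs ^ 2 + B * a.valMinAbs * b + C * b ^ 2 - N)) (2 ^ s)
      push_cast at h3
      rw [← h3]
      exact h1
    · rw [hM]
      ring
  -- estimates for large `s`
  obtain ⟨s0, hs0⟩ : ∃ s0 : ℕ, |M| + (2 * |B * b|) ^ 2 ≤ 2 ^ s0 := by
    obtain ⟨k, hk⟩ := pow_unbounded_of_one_lt (|M| + (2 * |B * b|) ^ 2) (by norm_num : (1 : ℤ) < 2)
    exact ⟨k, hk.le⟩
  have hlarge : ∀ s, s0 ≤ s → ∀ a ∈ T s,
      (2 ^ s : ℤ) ≤ (2 * A * a.valMinAbs + B * b) ^ 2 ∧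
      |2 * A * a.valMinAbs + B * b| ≤ 4 * |A| * |a.valMinAbs| ∧ a.valMinAbs ≠ 0 := by
    intro s hs a ha
    obtain ⟨X, hX0, hXd, hXe⟩ := hX s a ha
    have hpow : (2 : ℤ) ^ s0 ≤ 2 ^ s := pow_le_pow_right₀ (by norm_num) hs
    have hMs : |M| ≤ 2 ^ s := by nlinarith [sq_nonneg (2 * |B * b|)]
    have hBs : (2 * |B * b|) ^ 2 ≤ 2 ^ s := by linarith [abs_nonneg M]
    have h1 : (2 ^ s : ℤ) ≤ 2 * |X| := by
      have h2 : (2 ^ s : ℤ) ∣ |2 * X| := (dvd_abs _ _).2 hXd
      have h3 : 0 < |2 * X| := abs_pos.2 (mul_ne_zero two_ne_zero hX0)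
      have h4 := Int.le_of_dvd h3 h2
      rwa [abs_mul, abs_two] at h4
    have h5 : 2 * 2 ^ s ≤ |4 * A * X| := by
      rw [abs_mul, abs_mul]
      have : |(4 : ℤ)| = 4 := by norm_num
      rw [this]
      nlinarith [abs_nonneg X]
    have h6 : |4 * A * X| ≤ (2 * A * a.valMinAbs + B * b) ^ 2 + |M| := by
      have h7 : 4 * A * X = (2 * A * a.valMinAbs + B * b) ^ 2 - M := by linarith
      rw [h7]
      refine (abs_sub _ _).trans ?_
      rw [abs_of_nonneg (sq_nonneg (2 * A * a.valMinAbs + B * b))]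
    have h8 : (2 ^ s : ℤ) ≤ (2 * A * a.valMinAbs + B * b) ^ 2 := by linarith
    have h9 : 2 * |B * b| ≤ |2 * A * a.valMinAbs + B * b| := by
      have h10 : (2 * |B * b|) ^ 2 ≤ |2 * A * a.valMinAbs + B * b| ^ 2 := by
        rw [sq_abs (2 * A * a.valMinAbs + B * b)]
        linarith
      exact (pow_le_pow_iff_left₀ (by positivity) (abs_nonneg _) two_ne_zero).1 h10
    have h11 : |2 * A * a.valMinAbs + B * b| ≤ 2 * |A| * |a.valMinAbs| + |B * b| := by
      refine (abs_add_le _ _).trans ?_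
      rw [abs_mul, abs_mul, abs_two]
    refine ⟨h8, by linarith, ?_⟩
    intro h12
    have h14 : |a.valMinAbs| = 0 := by rw [h12, abs_zero]
    rw [h14, mul_zero] at h11
    have h13 : |2 * A * a.valMinAbs + B * b| = 0 := by
      have := abs_nonneg (2 * A * a.valMinAbs + B * b)
      linarith
    rw [abs_eq_zero] at h13
    rw [h13] at h8
    have : (0 : ℤ) < 2 ^ s := by positivity
    linarith
  have hterm : ∀ s, s0 ≤ s → ∀ a ∈ T s, |TB.LIM.w s a.valMinAbs| ≤
      4 * |(A : ℝ)| * (1 / |((2 * A * a.valMinAbs + B * b : ℤ) : ℝ)|) := by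
    intro s hs a ha
    obtain ⟨h1, h2, h3⟩ := hlarge s hs a ha
    refine (TB.LIM.abs_w_le s _ h3 (TB.LIM.abs_le_half a)).trans ?_
    have h4 : 0 < |((a.valMinAbs : ℤ) : ℝ)| := abs_pos.2 (by exact_mod_cast h3)
    have h5 : 0 < |((2 * A * a.valMinAbs + B * b : ℤ) : ℝ)| := by
      rw [abs_pos]
      intro h6
      have h7 : (2 * A * a.valMinAbs + B * b : ℤ) = 0 := by exact_mod_cast h6
      rw [h7] at h1
      have : (0 : ℤ) < 2 ^ s := by positivity
      linarith
    have h6 : |((2 * A * a.valMinAbs + B * b : ℤ) : ℝ)| ≤ 4 * |(A : ℝ)| * |((a.valMinAbs : ℤ) : ℝ)| := by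
      exact_mod_cast h2
    rw [mul_one_div, div_le_div_iff₀ h4 h5]
    linarith
  -- the rate
  obtain ⟨q, hq⟩ : ∃ q : ℝ, q = Real.sqrt 2 := ⟨_, rfl⟩
  have hq1 : 1 < q := by
    rw [hq, Real.lt_sqrt (by norm_num)]
    norm_num
  have hq2 : q ^ 2 = 2 := by
    rw [hq]
    exact Real.sq_sqrt (by norm_num)
  have hqs : ∀ s : ℕ, (q ^ s) ^ 2 = 2 ^ s := by
    intro s
    rw [← pow_mul, mul_comm, pow_mul, hq2]
  have hq0 : 0 < q := by linarith
  have hr0 : 0 ≤ q⁻¹ := by positivity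
  have hr1 : q⁻¹ < 1 := inv_lt_one_of_one_lt₀ hq1
  have hlim0 : Tendsto (fun s : ℕ => (q⁻¹) ^ s) atTop (𝓝 0) :=
    tendsto_pow_atTop_nhds_zero_of_lt_one hr0 hr1
  have hlim1 : Tendsto (fun s : ℕ => (s : ℝ) * (q⁻¹) ^ s) atTop (𝓝 0) :=
    tendsto_self_mul_const_pow_of_lt_one hr0 hr1
  have hmain : ∃ c1 c2 : ℝ, ∀ s, s0 ≤ s →
      ∑ a ∈ T s, |TB.LIM.w s a.valMinAbs| ≤ c1 * (q⁻¹) ^ s + c2 * (s * (q⁻¹) ^ s) := by
    by_cases hM0 : M = 0
    · -- the case `M = 0`
      obtain ⟨c, hc⟩ : ∃ c : ℕ, c = A.natAbs + (B * b).natAbs := ⟨_, rfl⟩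
      have hcA : (|A| : ℤ) + |B * b| = c := by
        rw [hc]
        push_cast
        rw [Int.abs_eq_natAbs, Int.abs_eq_natAbs]
      have hc1 : 1 ≤ c := by
        have h1 := abs_nonneg (B * b)
        have : (1 : ℤ) ≤ c := by rw [← hcA]; linarith
        exact_mod_cast this
      refine ⟨8 * |(A : ℝ)| * (1 + Real.log c), 8 * |(A : ℝ)| * Real.log 2, fun s hs => ?_⟩
      -- divisibility
      have hdiv : ∀ a ∈ T s, (2 ^ ((s + 1) / 2) : ℤ) ∣ 2 * A * a.valMinAbs + B * b := by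
        intro a ha
        obtain ⟨X, hX0, hXd, hXe⟩ := hX s a ha
        rw [hM0, add_zero] at hXe
        have h1 : ((2 : ℤ) ^ ((s + 1) / 2)) ^ 2 ∣ (2 * A * a.valMinAbs + B * b) ^ 2 := by
          rw [hXe, ← pow_mul]
          have h2 : (2 : ℤ) ^ ((s + 1) / 2 * 2) ∣ 2 ^ (s + 1) := pow_dvd_pow _ (by omega)
          refine h2.trans ?_
          obtain ⟨k, hk⟩ := hXd
          refine ⟨A * k, ?_⟩
          have h3 : 4 * A * X = 2 * A * (2 * X) := by ring
          rw [h3, hk, pow_succ]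
          ring
        exact (Int.pow_dvd_pow_iff two_ne_zero).1 h1
      have hpos : (0 : ℤ) < 2 ^ ((s + 1) / 2) := by positivity
      have hdv : ∀ a ∈ T s, (2 * A * a.valMinAbs + B * b : ℤ) =
          2 ^ ((s + 1) / 2) * ((2 * A * a.valMinAbs + B * b) / 2 ^ ((s + 1) / 2)) := fun a ha =>
        (Int.mul_ediv_cancel' (hdiv a ha)).symm
      have hw0 : ∀ a ∈ T s, (2 * A * a.valMinAbs + B * b : ℤ) ≠ 0 := by
        intro a ha h6
        have h1 := (hlarge s hs a ha).1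
        rw [h6] at h1
        have : (0 : ℤ) < 2 ^ s := by positivity
        linarith
      have hsum := sum_inv_le (T s)
        (fun a => (2 * A * a.valMinAbs + B * b) / 2 ^ ((s + 1) / 2)) (by
          intro a ha a' ha' haa
          have haa' : (2 * A * a.valMinAbs + B * b) / 2 ^ ((s + 1) / 2) =
            (2 * A * a'.valMinAbs + B * b) / 2 ^ ((s + 1) / 2) := haa
          have h1 := hdv a (Finset.mem_coe.1 ha)
          rw [haa', ← hdv a' (Finset.mem_coe.1 ha')] at h1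
          have h2 : 2 * A * (a.valMinAbs - a'.valMinAbs) = 0 := by linarith
          have h3 : a.valMinAbs - a'.valMinAbs = 0 := by
            rcases mul_eq_zero.1 h2 with h4 | h4
            · exact absurd h4 (mul_ne_zero two_ne_zero hA0)
            · exact h4
          have h4 : a.valMinAbs = a'.valMinAbs := by linarith
          exact ZMod.injective_valMinAbs h4) (c * 2 ^ s) (by
          intro a ha h1
          apply hw0 a ha
          rw [hdv a ha]
          have h2 : (2 * A * a.valMinAbs + B * b) / 2 ^ ((s + 1) / 2) = 0 := h1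
          rw [h2, mul_zero]) (by
          intro a ha
          have h1 : |(2 * A * a.valMinAbs + B * b) / 2 ^ ((s + 1) / 2)| ≤
              |2 * A * a.valMinAbs + B * b| := by
            conv_rhs => rw [hdv a ha]
            rw [abs_mul, abs_of_pos hpos]
            have : (1 : ℤ) ≤ 2 ^ ((s + 1) / 2) := hpos
            nlinarith [abs_nonneg ((2 * A * a.valMinAbs + B * b) / 2 ^ ((s + 1) / 2))]
          have h2 : |2 * A * a.valMinAbs + B * b| ≤ |A| * (2 * |a.valMinAbs|) + |B * b| := by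
            refine (abs_add_le _ _).trans ?_
            rw [abs_mul, abs_mul, abs_two]
            linarith
          have h3 := TB.LIM.abs_le_half a
          have h4 : |A| * (2 * |a.valMinAbs|) ≤ |A| * 2 ^ s :=
            mul_le_mul_of_nonneg_left h3 (abs_nonneg _)
          have h5 : |B * b| ≤ |B * b| * 2 ^ s := by
            have : (1 : ℤ) ≤ 2 ^ s := one_le_pow₀ (by norm_num)
            nlinarith [abs_nonneg (B * b)]
          have h6 : |A| * 2 ^ s + |B * b| * 2 ^ s = ((c * 2 ^ s : ℕ) : ℤ) := by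
            push_cast
            rw [← hcA]
            ring
          show |(2 * A * a.valMinAbs + B * b) / 2 ^ ((s + 1) / 2)| ≤ ((c * 2 ^ s : ℕ) : ℤ)
          linarith)
      have hlog : Real.log ((c * 2 ^ s : ℕ) : ℝ) = Real.log c + s * Real.log 2 := by
        push_cast
        rw [Real.log_mul (by positivity) (by positivity), Real.log_pow]
      rw [hlog] at hsum
      have h2h : q ^ s ≤ (2 : ℝ) ^ ((s + 1) / 2) := by
        have h1 : (q ^ s) ^ 2 ≤ ((2 : ℝ) ^ ((s + 1) / 2)) ^ 2 := by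
          rw [hqs, ← pow_mul]
          exact pow_le_pow_right₀ (by norm_num) (by omega)
        exact (pow_le_pow_iff_left₀ (by positivity) (by positivity) two_ne_zero).1 h1
      have h2h' : ((2 : ℝ) ^ ((s + 1) / 2))⁻¹ ≤ (q⁻¹) ^ s := by
        rw [inv_pow]
        exact inv_anti₀ (by positivity) h2h
      have hstep : ∑ a ∈ T s, |TB.LIM.w s a.valMinAbs| ≤
          4 * |(A : ℝ)| * (((2 : ℝ) ^ ((s + 1) / 2))⁻¹ *
            ∑ a ∈ T s, 1 / |(((2 * A * a.valMinAbs + B * b) / 2 ^ ((s + 1) / 2) : ℤ) : ℝ)|) := by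
        rw [Finset.mul_sum, Finset.mul_sum]
        refine Finset.sum_le_sum fun a ha => (hterm s hs a ha).trans (le_of_eq ?_)
        congr 1
        conv_lhs => rw [hdv a ha]
        push_cast
        rw [abs_mul, abs_of_pos (by positivity : (0 : ℝ) < 2 ^ ((s + 1) / 2))]
        rw [one_div, mul_inv, one_div]
      have hlogc : 0 ≤ Real.log c := Real.log_nonneg (by exact_mod_cast hc1)
      have hlog2 : 0 ≤ Real.log 2 := Real.log_nonneg (by norm_num)
      have hS0 : 0 ≤ 2 * (1 + (Real.log c + s * Real.log 2)) := by positivity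
      refine hstep.trans ?_
      have h5 : ((2 : ℝ) ^ ((s + 1) / 2))⁻¹ *
            ∑ a ∈ T s, 1 / |(((2 * A * a.valMinAbs + B * b) / 2 ^ ((s + 1) / 2) : ℤ) : ℝ)| ≤
          (q⁻¹) ^ s * (2 * (1 + (Real.log c + s * Real.log 2))) := by
        refine mul_le_mul h2h' hsum ?_ (by positivity)
        exact Finset.sum_nonneg fun a _ => by positivity
      calc 4 * |(A : ℝ)| * (((2 : ℝ) ^ ((s + 1) / 2))⁻¹ *
            ∑ a ∈ T s, 1 / |(((2 * A * a.valMinAbs + B * b) / 2 ^ ((s + 1) / 2) : ℤ) : ℝ)|)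
          ≤ 4 * |(A : ℝ)| * ((q⁻¹) ^ s * (2 * (1 + (Real.log c + s * Real.log 2)))) :=
            mul_le_mul_of_nonneg_left h5 (by positivity)
        _ = _ := by ring
    · -- the case `M ≠ 0`
      refine ⟨4 * |(A : ℝ)| * (4 * 2 ^ (padicValInt 2 M / 2)), 0, fun s hs => ?_⟩
      have hcard : (T s).card ≤ 4 * 2 ^ (padicValInt 2 M / 2) := by
        have h1 := h s C B A N b hC hB hA hN (by rw [← hM]; exact hM0)
        rw [← hM] at h1
        refine le_trans ?_ h1
        rw [Nat.card_eq_fintype_card, Fintype.card_subtype]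
        refine Finset.card_le_card ?_
        intro a ha
        rw [hT, Finset.mem_filter] at ha
        rw [Finset.mem_filter]
        refine ⟨Finset.mem_univ _, ?_⟩
        rw [← ha.2.1]
        ring
      have hb : ∀ a ∈ T s, |TB.LIM.w s a.valMinAbs| ≤ 4 * |(A : ℝ)| * (q⁻¹) ^ s := by
        intro a ha
        refine (hterm s hs a ha).trans ?_
        have h1 : q ^ s ≤ |((2 * A * a.valMinAbs + B * b : ℤ) : ℝ)| := by
          have h2 : (q ^ s) ^ 2 ≤ |((2 * A * a.valMinAbs + B * b : ℤ) : ℝ)| ^ 2 := by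
            rw [hqs, sq_abs]
            exact_mod_cast (hlarge s hs a ha).1
          exact (pow_le_pow_iff_left₀ (by positivity) (abs_nonneg _) two_ne_zero).1 h2
        rw [one_div, inv_pow]
        exact mul_le_mul_of_nonneg_left (inv_anti₀ (by positivity) h1) (by positivity)
      have h1 : ∑ a ∈ T s, |TB.LIM.w s a.valMinAbs| ≤
          (T s).card • (4 * |(A : ℝ)| * (q⁻¹) ^ s) := Finset.sum_le_card_nsmul _ _ _ hb
      rw [nsmul_eq_mul] at h1
      refine h1.trans ?_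
      have h2 : ((T s).card : ℝ) ≤ 4 * 2 ^ (padicValInt 2 M / 2) := by exact_mod_cast hcard
      have h3 : 0 ≤ 4 * |(A : ℝ)| * (q⁻¹) ^ s := by positivity
      calc ((T s).card : ℝ) * (4 * |(A : ℝ)| * (q⁻¹) ^ s)
          ≤ (4 * 2 ^ (padicValInt 2 M / 2)) * (4 * |(A : ℝ)| * (q⁻¹) ^ s) :=
            mul_le_mul_of_nonneg_right h2 h3
        _ = _ := by ring
  obtain ⟨c1, c2, hc⟩ := hmain
  have hlim : Tendsto (fun s : ℕ => c1 * (q⁻¹) ^ s + c2 * (s * (q⁻¹) ^ s)) atTop (𝓝 0) := by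
    have := (hlim0.const_mul c1).add (hlim1.const_mul c2)
    simpa using this
  refine squeeze_zero' ?_ ?_ hlim
  · refine Filter.Eventually.of_forall fun s => ?_
    rw [hfun]
    exact Finset.sum_nonneg fun a _ => abs_nonneg _
  · filter_upwards [eventually_ge_atTop s0] with s hs
    rw [hfun]
    exact hc s hs

end Pool.Agent.T3
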