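import Pool.Agent.T3.Stmts2

/-!
FOU3: finite Fourier analysis modulo `4^k`.
-/

open Polynomial Filter Topology
open scoped BigOperators Real

namespace Pool.Agent.T3

open Pool.Agent.TB Pool.Agent.LibH11

namespace FOU3

/-- A sum over the fibres of a function. -/
theorem sum_fibre {n : ℕ} [NeZero n] {α : Type*} (S : Finset α) (M : α → ZMod n) (s : α → ℂ)
    (E : ZMod n → ℂ) :
    ∑ N, (∑ ρ ∈ S, if M ρ = N then s ρ else 0) * E N = ∑ ρ ∈ S, s ρ * E (M ρ) := by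
  simp only [Finset.sum_mul]
  rw [Finset.sum_comm]
  refine Finset.sum_congr rfl fun ρ _ => ?_
  simp only [ite_mul, zero_mul]
  rw [Finset.sum_ite_eq]
  simp

theorem sum_lin {n : ℕ} [NeZero n] {β : Type*} (T : Finset β) (c : β → ℂ) (A : β → ZMod n → ℂ)
    (E : ZMod n → ℂ) (q : ℂ) :
    ∑ N, (q * ∑ i ∈ T, c i * A i N) * E N = q * ∑ i ∈ T, c i * ∑ N, A i N * E N := by
  simp only [Finset.mul_sum, Finset.sum_mul]
  rw [Finset.sum_comm]
  refine Finset.sum_congr rfl fun i _ => Finset.sum_congr rfl fun N _ => ?_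
  ring

/-- `Ψ` is the Fourier transform of `Z`. -/
theorem psi_eq (n : ℕ) [NeZero n] (x : List ℤ) (κ : ZMod n) :
    Psi3 n x κ = ∑ N, Zx n x N * ZMod.stdAddChar (κ * N) := by
  unfold Zx
  simp only [add_mul, Finset.sum_add_distrib]
  rw [sum_lin (Finset.range x.length) (fun i => ((x.getD i 0 : ℤ) : ℂ))
      (fun i N => ∑ ρ ∈ Finset.Ico 1 n, (if (ρ : ZMod n) ^ 2 * (Qw x (ch3 x (i + 1)) : ZMod n) = N
        then ((1 / Real.sin (π * ρ / n) ^ 2 : ℝ) : ℂ) else 0))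
      (fun N => ZMod.stdAddChar (κ * N)) (1 / 4),
    sum_lin (Finset.range x.length) (fun j => (-1 : ℂ) ^ j)
      (fun j N => ∑ R : ZMod n × ZMod n, if Qm n x R = N then
        ct n (detm n R (ch3 x j)) * ct n (detm n R (ch3 x (j + 1))) else 0)
      (fun N => ZMod.stdAddChar (κ * N)) (1 / 4)]
  unfold Psi3
  congr 1
  · congr 1
    refine Finset.sum_congr rfl fun i _ => ?_
    rw [sum_fibre (Finset.Ico 1 n)
      (fun ρ : ℕ => (ρ : ZMod n) ^ 2 * (Qw x (ch3 x (i + 1)) : ZMod n))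
      (fun ρ : ℕ => ((1 / Real.sin (π * ρ / n) ^ 2 : ℝ) : ℂ))
      (fun N => ZMod.stdAddChar (κ * N))]
    congr 1
    refine Finset.sum_congr rfl fun ρ _ => ?_
    rw [mul_assoc]
  · congr 1
    refine Finset.sum_congr rfl fun j _ => ?_
    rw [sum_fibre Finset.univ (fun R : ZMod n × ZMod n => Qm n x R)
      (fun R => ct n (detm n R (ch3 x j)) * ct n (detm n R (ch3 x (j + 1))))
      (fun N => ZMod.stdAddChar (κ * N))]

/-- A function with Fourier transform vanishing at the units has period `n / 2`. -/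
theorem period (k : ℕ) (hk : 0 < k) (f : ZMod (4 ^ k) → ℂ)
    (hf : ∀ u : ZMod (4 ^ k), IsUnit u → ∑ N, f N * ZMod.stdAddChar (u * N) = 0)
    (ν : ZMod (4 ^ k)) : f ν = f (ν + ((4 ^ k / 2 : ℕ) : ZMod (4 ^ k))) := by
  set h : ZMod (4 ^ k) := ((4 ^ k / 2 : ℕ) : ZMod (4 ^ k)) with hh
  have h2n : 2 * (4 ^ k / 2) = 4 ^ k := by
    obtain ⟨m, rfl⟩ : ∃ m, k = m + 1 := ⟨k - 1, by omega⟩
    rw [pow_succ]
    omega
  have h2 : (2 : ZMod (4 ^ k)) * h = 0 := by
    have h3 : ((2 * (4 ^ k / 2) : ℕ) : ZMod (4 ^ k)) = 0 := by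
      rw [h2n]
      exact ZMod.natCast_self _
    rw [Nat.cast_mul, Nat.cast_ofNat] at h3
    exact h3
  have key : (fun N => f N - f (N + h)) = 0 := by
    apply ZMod.dft.injective
    rw [map_zero]
    funext u
    rw [ZMod.dft_apply, Pi.zero_apply]
    simp only [smul_eq_mul]
    have e1 : ∑ N, ZMod.stdAddChar (-(N * u)) * (f N - f (N + h)) =
        (1 - ZMod.stdAddChar (h * u)) * ∑ N, f N * ZMod.stdAddChar (-u * N) := by
      have e2 : ∑ N, ZMod.stdAddChar (-(N * u)) * f (N + h) =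
          ZMod.stdAddChar (h * u) * ∑ N, f N * ZMod.stdAddChar (-u * N) := by
        rw [Finset.mul_sum, ← Equiv.sum_comp (Equiv.addRight (-h))]
        refine Finset.sum_congr rfl fun N _ => ?_
        rw [Equiv.coe_addRight]
        have e3 : N + -h + h = N := by ring
        have e4 : -((N + -h) * u) = h * u + -u * N := by ring
        rw [e3, e4, AddChar.map_add_eq_mul]
        ring
      simp only [mul_sub, Finset.sum_sub_distrib]
      rw [e2, sub_mul, one_mul]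
      congr 1
      refine Finset.sum_congr rfl fun N _ => ?_
      have e4 : -(N * u) = -u * N := by ring
      rw [e4, mul_comm]
    rw [e1]
    rcases Nat.even_or_odd u.val with he | ho
    · have e5 : h * u = 0 := by
        obtain ⟨w, hw⟩ := he
        have e6 : u = 2 * (w : ZMod (4 ^ k)) := by
          rw [← ZMod.natCast_zmod_val u, hw]
          push_cast
          ring
        rw [e6]
        have e7 : h * (2 * (w : ZMod (4 ^ k))) = (2 * h) * w := by ring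
        rw [e7, h2, zero_mul]
      rw [e5, AddChar.map_zero_eq_one, sub_self, zero_mul]
    · have e6 : IsUnit u := by
        rw [← ZMod.natCast_zmod_val u, ZMod.isUnit_iff_coprime]
        apply Nat.Coprime.pow_right
        have e8 : Nat.Coprime u.val 2 := Nat.coprime_two_right.mpr ho
        exact Nat.Coprime.pow_right 2 e8
      rw [hf (-u) e6.neg, mul_zero]
  have h4 := congrFun key ν
  simp only [Pi.zero_apply] at h4
  exact sub_eq_zero.mp h4

end FOU3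

open FOU3 in
theorem fou3 : FOU3_Stmt := by
  intro k hk x y t ht hyp ν
  have hodd : ∀ a : ℤ, Odd a → IsUnit (a : ZMod (4 ^ k)) := by
    intro a ha
    rw [ZMod.coe_int_isUnit_iff_isCoprime]
    push_cast
    apply IsCoprime.pow_left
    have h1 : IsCoprime (2 : ℤ) a := by
      rw [Int.isCoprime_iff_gcd_eq_one]
      have h2 := Int.odd_iff.mp ha
      have h3 : Int.gcd 2 a ∣ 2 := Int.natCast_dvd_natCast.mp (Int.gcd_dvd_left 2 a)
      rcases (Nat.dvd_prime Nat.prime_two).mp h3 with h4 | h4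
      · exact h4
      · exfalso
        have h5 : (Int.gcd 2 a : ℤ) ∣ a := Int.gcd_dvd_right 2 a
        rw [h4] at h5
        have h6 : (2 : ℤ) ∣ a := h5
        omega
    have h3 : (4 : ℤ) = 2 ^ 2 := by norm_num
    rw [h3]
    exact h1.pow_left
  have ha1 : Odd (t + 2) := by
    obtain ⟨m, hm⟩ := ht
    exact ⟨m + 1, by rw [hm]; ring⟩
  have ha2 : Odd (t - 2) := by
    obtain ⟨m, hm⟩ := ht
    exact ⟨m - 1, by rw [hm]; ring⟩
  obtain ⟨a1, h1⟩ := hodd _ ha1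
  obtain ⟨a2, h2⟩ := hodd _ ha2
  -- the function
  set W : ZMod (4 ^ k) → ℂ := fun N => Zx (4 ^ k) x N - Zx (4 ^ k) y N with hW
  have hF : ∀ u : ZMod (4 ^ k), IsUnit u →
      ∑ N, (W (a1 * N) + W (a2 * N)) * ZMod.stdAddChar (u * N) = 0 := by
    intro u hu
    obtain ⟨v, rfl⟩ := hu
    have e1 : ∀ a : (ZMod (4 ^ k))ˣ, ∑ N, W (a * N) * ZMod.stdAddChar ((v : ZMod (4 ^ k)) * N) =
        Psi3 (4 ^ k) x (v * (a⁻¹ : (ZMod (4 ^ k))ˣ)) - Psi3 (4 ^ k) y (v * (a⁻¹ : (ZMod (4 ^ k))ˣ)) := by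
      intro a
      rw [psi_eq, psi_eq, ← Finset.sum_sub_distrib]
      symm
      rw [← Equiv.sum_comp a.mulLeft]
      refine Finset.sum_congr rfl fun N _ => ?_
      have e2 : (v : ZMod (4 ^ k)) * (a⁻¹ : (ZMod (4 ^ k))ˣ) * (Units.mulLeft a N) = v * N := by
        rw [Units.mulLeft_apply]
        have e3 : (v : ZMod (4 ^ k)) * (a⁻¹ : (ZMod (4 ^ k))ˣ) * (a * N) =
            v * ((a⁻¹ : (ZMod (4 ^ k))ˣ) * a) * N := by ring
        rw [e3, Units.inv_mul, mul_one]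
      rw [e2, Units.mulLeft_apply]
      simp only [hW]
      ring
    simp only [add_mul, Finset.sum_add_distrib]
    rw [e1, e1]
    -- the integer `ι`
    obtain ⟨ι, hι, hιv⟩ : ∃ ι : ℤ, Odd ι ∧ (ι : ZMod (4 ^ k)) = ((v⁻¹ : (ZMod (4 ^ k))ˣ) : ZMod (4 ^ k)) := by
      refine ⟨(((v⁻¹ : (ZMod (4 ^ k))ˣ) : ZMod (4 ^ k)).val : ℤ), ?_, by simp⟩
      have h3 : Nat.Coprime ((v⁻¹ : (ZMod (4 ^ k))ˣ) : ZMod (4 ^ k)).val (4 ^ k) := ZMod.val_coe_unit_coprime _
      have h4 : Nat.Coprime ((v⁻¹ : (ZMod (4 ^ k))ˣ) : ZMod (4 ^ k)).val 2 := by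
        apply Nat.Coprime.coprime_dvd_right _ h3
        exact dvd_pow (by norm_num) hk.ne'
      exact_mod_cast Nat.coprime_two_right.mp h4
    have h5 := hyp ι hι (v * (a1⁻¹ : (ZMod (4 ^ k))ˣ)) (v * (a2⁻¹ : (ZMod (4 ^ k))ˣ)) (by
        have e4 : (2 + (t : ZMod (4 ^ k))) = a1 := by
          rw [h1]
          push_cast
          ring
        rw [e4, hιv]
        have e5 : (v : ZMod (4 ^ k)) * (a1⁻¹ : (ZMod (4 ^ k))ˣ) * (v⁻¹ : (ZMod (4 ^ k))ˣ) * a1 =
          (v * (v⁻¹ : (ZMod (4 ^ k))ˣ)) * ((a1⁻¹ : (ZMod (4 ^ k))ˣ) * a1) := by ring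
        rw [e5, Units.inv_mul, Units.mul_inv, mul_one]) (by
        have e4 : (2 - (t : ZMod (4 ^ k))) = -a2 := by
          rw [h2]
          push_cast
          ring
        rw [e4, hιv]
        have e5 : (v : ZMod (4 ^ k)) * (a2⁻¹ : (ZMod (4 ^ k))ˣ) * (v⁻¹ : (ZMod (4 ^ k))ˣ) * -a2 =
          -((v * (v⁻¹ : (ZMod (4 ^ k))ˣ)) * ((a2⁻¹ : (ZMod (4 ^ k))ˣ) * a2)) := by ring
        rw [e5, Units.inv_mul, Units.mul_inv, mul_one])
    linear_combination h5
  have h6 := period k hk (fun N => W (a1 * N) + W (a2 * N)) hF ν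
  simp only [hW] at h6
  have h2n : 2 * (4 ^ k / 2) = 4 ^ k := by
    obtain ⟨m, rfl⟩ : ∃ m, k = m + 1 := ⟨k - 1, by omega⟩
    rw [pow_succ]
    omega
  have h2z : (2 : ZMod (4 ^ k)) * ((4 ^ k / 2 : ℕ) : ZMod (4 ^ k)) = 0 := by
    have h3 : ((2 * (4 ^ k / 2) : ℕ) : ZMod (4 ^ k)) = 0 := by
      rw [h2n]
      exact ZMod.natCast_self _
    rw [Nat.cast_mul, Nat.cast_ofNat] at h3
    exact h3
  have hshift : ∀ a : ℤ, Odd a → (a : ZMod (4 ^ k)) * (ν + ((4 ^ k / 2 : ℕ) : ZMod (4 ^ k))) =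
      ν * a + ((4 ^ k / 2 : ℕ) : ZMod (4 ^ k)) := by
    intro a ha
    obtain ⟨m, rfl⟩ := ha
    push_cast
    linear_combination (m : ZMod (4 ^ k)) * h2z
  have g1 : (t : ZMod (4 ^ k)) + 2 = a1 := by
    rw [h1]
    push_cast
    ring
  have g2 : (t : ZMod (4 ^ k)) - 2 = a2 := by
    rw [h2]
    push_cast
    ring
  have g3 := hshift (t + 2) ha1
  have g4 := hshift (t - 2) ha2
  rw [← h1] at g3
  rw [← h2] at g4
  rw [g3, g4] at h6
  unfold Zo
  rw [g1, g2]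
  rw [mul_comm (a1 : ZMod (4 ^ k)) ν, mul_comm (a2 : ZMod (4 ^ k)) ν] at h6
  linear_combination h6

end Pool.Agent.T3
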