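import Pool.Agent.T3.Stmts2
import Pool.Agent.TB.Stmts2

/-!
Assembly of the theorem on closed 3-braids.
-/

open Polynomial
open scoped BigOperators Real

namespace Pool.Agent.T3.FIN3

open Pool.Agent.TB Pool.Agent.LibH11

/-- Equality of the values and of the derivatives at a root of unity. -/
theorem jj (hgrt : GRT_Stmt) (hot : OT3_Stmt) (hch : CHID_Stmt) {x y : List ℤ}
    (hx : Even x.length) (hy : Even y.length) (hs : x.sum = y.sum)
    (hchi : ∀ r : ℕ, chi QPS r x = chi QPS r y) (k : ℕ) (hk : 0 < k) (ι : ℤ) (hι : Odd ι) :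
    J0 (4 ^ k) ι x = J0 (4 ^ k) ι y ∧ J1 (4 ^ k) ι x = J1 (4 ^ k) ι y := by
  have key : ∀ (n r : ℕ) [NeZero n], n = 2 * r → Even r → 0 < r → IsCoprime ι (2 * n : ℤ) →
      J0 n ι x = J0 n ι y ∧ J1 n ι x = J1 n ι y := by
    intro n r _ hn hr hr0 hco
    have hcx := hch n r ι hn hr hco x hx
    have hcy := hch n r ι hn hr hco y hy
    have hco' : IsCoprime ι (4 * r : ℤ) := by
      have : (4 * r : ℤ) = 2 * n := by rw [hn]; push_cast; ring
      rw [this]; exact hco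
    have hG : (QC (sz n ι)).Gen r := by
      subst hn
      exact (hgrt r ι hr0 hco').1
    have he := hot r (sz n ι) hG x y (hchi r)
    rw [hcx, hcy, hs] at he
    have he2 := (Units.mul_right_inj _).1 he
    constructor
    · have := congrArg TrivSqZeroExt.fst he2
      simpa using this
    · have := congrArg TrivSqZeroExt.snd he2
      simpa using this
  obtain ⟨k, rfl⟩ : ∃ j, k = j + 1 := ⟨k - 1, by omega⟩
  refine key (4 ^ (k + 1)) (2 * 4 ^ k) (by rw [pow_succ]; ring) (even_two_mul _) (by positivity) ?_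
  have h2 : IsCoprime ι (2 : ℤ) := by
    obtain ⟨m, hm⟩ := hι
    exact ⟨1, -m, by rw [hm]; ring⟩
  have h4 : IsCoprime ι (4 : ℤ) := by
    have := IsCoprime.mul_right h2 h2
    norm_num at this
    exact this
  push_cast
  exact IsCoprime.mul_right h2 (IsCoprime.pow_right h4)

theorem fin3 (hgrt : GRT_Stmt) (hbure : BURE_Stmt) (hodd : ODD3_Stmt) (hell : ELL3_Stmt)
    (hword : WORD_Stmt) (hkeq : KEQ_Stmt) (hot : OT3_Stmt) (hch : CHID_Stmt) (htre : TRE_Stmt)
    (hlam : LAM3_Stmt) (hfou : FOU3_Stmt) (hiso : ISO3_Stmt) (hchn : CHN3_Stmt)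
    (hari : ARI3_Stmt) (hcnj : CNJ3_Stmt) : FIN3_Stmt := by
  intro b b' h h' he hv
  have ht := hbure b b' h h' he hv
  have ho := hodd b h
  by_cases h1 : |(rho b).1.trace| = 1
  · exact Or.inl (hell b b' he h1 ht.symm)
  have h2 : 2 < |(rho b).1.trace| := by
    obtain ⟨m, hm⟩ := ho
    rw [hm] at h1 ⊢
    rcases abs_cases (2 * m + 1) with ⟨e, _⟩ | ⟨e, _⟩ <;> rw [e] at h1 ⊢ <;> omega
  obtain ⟨hw, hes, hrho, hrev, hrevM, -⟩ := hword
  obtain ⟨x, hx, rfl⟩ := hw b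
  obtain ⟨y, hy, rfl⟩ := hw b'
  have hs : x.sum = y.sum := by rw [← hes, ← hes, he]
  have hchi := hkeq x y h h' hs hv
  have hcx := hchn x hx
  have hcy := hchn y hy
  have htx : (rho (bw false x)).1.trace = tw3 x := by rw [hrho]; exact hcx.2.2.1
  have hty : (rho (bw false y)).1.trace = tw3 y := by rw [hrho]; exact hcy.2.2.1
  have hxy : tw3 x = tw3 y := by rw [← htx, ← hty, ht]
  rw [htx] at ho h2
  have hoy : Odd (tw3 y) := by rw [← hxy]; exact ho
  have hZ : ∀ k : ℕ, 0 < k → ∀ ν : ZMod (4 ^ k),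
      Zo (4 ^ k) x (ν * (tw3 x + 2)) + Zo (4 ^ k) x (ν * (tw3 x - 2)) =
        Zo (4 ^ k) y (ν * (tw3 x + 2)) + Zo (4 ^ k) y (ν * (tw3 x - 2)) := by
    intro k hk ν
    refine hfou k hk x y (tw3 x) ho ?_ ν
    intro ι hι κ κ' hκ hκ'
    obtain ⟨e0, e1⟩ := jj hgrt hot hch hx hy hs hchi k hk ι hι
    have lx := hlam k hk ι hι x hx ho κ κ' hκ hκ'
    have ly := hlam k hk ι hι y hy hoy κ κ' (by rw [← hxy]; exact hκ) (by rw [← hxy]; exact hκ')
    have hne := (htre k hk ι hι x hx ho).1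
    rw [← e0, ← hs, ← e1, lx] at ly
    have l2 := mul_left_cancel₀ hne ly
    linear_combination 2 * l2
  have hcnt := hiso x y hx hy ho hxy h2 hZ
  obtain ⟨g, hg⟩ := hari (rho (bw false x)) (rho (bw false y)) ht (by rw [htx]; exact ho)
    (by rw [htx]; exact h2) (by intro N hN; rw [hrho, hrho]; exact hcnt N hN)
  rcases hg with hg | hg
  · exact Or.inl (hcnj _ _ he (isConj_iff.2 ⟨g, hg.symm⟩))
  · refine Or.inr (hcnj _ _ (by rw [hrev]; exact he) ?_)
    rw [hrevM]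
    exact isConj_iff.2 ⟨g, hg.symm⟩

end Pool.Agent.T3.FIN3
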