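import Pool.Agent.T3.Stmts2

/-!
GAU: the Gauss sum of a binary form with odd coefficients.
-/

open Finset

namespace Pool.Agent.T3

namespace GAU

lemma sum_zmod (n : ℕ) [NeZero n] (f : ZMod n → ℂ) :
    ∑ z, f z = ∑ i ∈ range n, f (i : ZMod n) := by
  refine Finset.sum_nbij' (fun z => z.val) (fun i => (i : ZMod n)) ?_ ?_ ?_ ?_ ?_
  · intro z _
    exact mem_range.2 (ZMod.val_lt z)
  · intro i _
    exact mem_univ _
  · intro z _
    exact ZMod.natCast_zmod_val z
  · intro i hi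
    exact ZMod.val_cast_of_lt (mem_range.1 hi)
  · intro z _
    rw [ZMod.natCast_zmod_val]

lemma sum_even (g : ℕ → ℂ) (N : ℕ) :
    ∑ i ∈ range (2 * N), g i * (1 + (-1) ^ i) = 2 * ∑ i ∈ range N, g (2 * i) := by
  induction N with
  | zero => simp
  | succ N ih =>
    rw [show 2 * (N + 1) = 2 * N + 1 + 1 by ring, sum_range_succ, sum_range_succ, ih,
      sum_range_succ (fun i => g (2 * i))]
    have h1 : (-1 : ℂ) ^ (2 * N) = 1 := Even.neg_one_pow ⟨N, by ring⟩
    have h2 : (-1 : ℂ) ^ (2 * N + 1) = -1 := Odd.neg_one_pow ⟨N, rfl⟩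
    rw [h1, h2]
    ring

lemma sum_periodic (g : ℕ → ℂ) (m : ℕ) (hg : ∀ i, g (m + i) = g i) :
    ∑ i ∈ range (2 * m), g i = 2 * ∑ i ∈ range m, g i := by
  rw [two_mul m, sum_range_add]
  simp only [hg]
  ring

/-- The character `z ↦ ψ(h z)`. -/
noncomputable def chi (n : ℕ) [NeZero n] (h : ZMod n) (z : ZMod n) : ℂ := ZMod.stdAddChar (h * z)

/-- The summand. -/
noncomputable def ff (n : ℕ) [NeZero n] (A B C κ : ℤ) (x y : ZMod n) : ℂ :=
  ZMod.stdAddChar ((κ : ZMod n) * ((A : ZMod n) * x ^ 2 + (B : ZMod n) * x * y +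
    (C : ZMod n) * y ^ 2))

/-- The Gauss sum. -/
noncomputable def SS (n : ℕ) [NeZero n] (A B C κ : ℤ) : ℂ := ∑ x, ∑ y, ff n A B C κ x y

lemma step1 (n : ℕ) [NeZero n] (h : ZMod n) (h2 : 2 * h = 0) (hh : h * h = 0)
    (A B C κ : ℤ) (hB : Odd B) (hκ : Odd κ) :
    4 * SS n A B C κ = ∑ x, ∑ y, ff n A B C κ x y * (1 + chi n h x) * (1 + chi n h y) := by
  have hodd : ∀ z : ZMod n, h * ((κ : ZMod n) * (B : ZMod n) * z) = h * z := by
    intro z
    obtain ⟨b, rfl⟩ := hB
    obtain ⟨k, rfl⟩ := hκ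
    push_cast
    linear_combination ((2 * b * k + b + k : ZMod n) * z) * h2
  have hx : ∀ x y : ZMod n, ff n A B C κ (x + h) y = ff n A B C κ x y * chi n h y := by
    intro x y
    unfold ff chi
    rw [← AddChar.map_add_eq_mul]
    congr 1
    have := hodd y
    linear_combination this + (κ * A : ZMod n) * x * h2 + (κ * A : ZMod n) * hh
  have hy : ∀ x y : ZMod n, ff n A B C κ x (y + h) = ff n A B C κ x y * chi n h x := by
    intro x y
    unfold ff chi
    rw [← AddChar.map_add_eq_mul]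
    congr 1
    have := hodd x
    linear_combination this + (κ * C : ZMod n) * y * h2 + (κ * C : ZMod n) * hh
  have hchi : ∀ x : ZMod n, chi n h (x + h) = chi n h x := by
    intro x
    unfold chi
    congr 1
    linear_combination hh
  have e1 : SS n A B C κ = ∑ x, ∑ y, ff n A B C κ x y * chi n h y := by
    unfold SS
    rw [← Equiv.sum_comp (Equiv.addRight h)]
    simp only [Equiv.coe_addRight, hx]
  have e2 : SS n A B C κ = ∑ x, ∑ y, ff n A B C κ x y * chi n h x := by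
    unfold SS
    refine sum_congr rfl fun x _ => ?_
    rw [← Equiv.sum_comp (Equiv.addRight h)]
    simp only [Equiv.coe_addRight, hy]
  have e3 : SS n A B C κ = ∑ x, ∑ y, ff n A B C κ x y * chi n h x * chi n h y := by
    rw [e2, ← Equiv.sum_comp (Equiv.addRight h)]
    simp only [Equiv.coe_addRight, hx, hchi]
    refine sum_congr rfl fun x _ => sum_congr rfl fun y _ => ?_
    ring
  have e4 : ∑ x, ∑ y, ff n A B C κ x y * (1 + chi n h x) * (1 + chi n h y) =
      (∑ x, ∑ y, ff n A B C κ x y) + (∑ x, ∑ y, ff n A B C κ x y * chi n h y) +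
      (∑ x, ∑ y, ff n A B C κ x y * chi n h x) +
      ∑ x, ∑ y, ff n A B C κ x y * chi n h x * chi n h y := by
    simp only [← sum_add_distrib]
    refine sum_congr rfl fun x _ => sum_congr rfl fun y _ => ?_
    ring
  rw [e4, ← e1, ← e2, ← e3]
  change 4 * SS n A B C κ = SS n A B C κ + _ + _ + _
  ring

lemma add_char_four (m : ℕ) [NeZero m] [NeZero (4 * m)] (a : ℤ) :
    (ZMod.stdAddChar ((4 * a : ℤ) : ZMod (4 * m)) : ℂ) = ZMod.stdAddChar ((a : ℤ) : ZMod m) := by
  rw [ZMod.stdAddChar_coe, ZMod.stdAddChar_coe]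
  congr 1
  have : (m : ℂ) ≠ 0 := Nat.cast_ne_zero.2 (NeZero.ne m)
  push_cast
  field_simp

lemma chi_cast (m : ℕ) [NeZero m] [NeZero (4 * m)] (i : ℕ) :
    chi (4 * m) ((2 * m : ℕ) : ZMod (4 * m)) (i : ZMod (4 * m)) = (-1) ^ i := by
  unfold chi
  have e : ((2 * m : ℕ) : ZMod (4 * m)) * (i : ZMod (4 * m)) =
      (((2 * m * i : ℕ) : ℤ) : ZMod (4 * m)) := by
    push_cast
    ring
  rw [e, ZMod.stdAddChar_coe]
  have hm : (m : ℂ) ≠ 0 := Nat.cast_ne_zero.2 (NeZero.ne m)
  have e2 : 2 * (Real.pi : ℂ) * Complex.I * (((2 * m * i : ℕ) : ℤ) : ℂ) / ((4 * m : ℕ) : ℂ) =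
      (i : ℂ) * (Real.pi * Complex.I) := by
    push_cast
    field_simp
    ring
  rw [e2, Complex.exp_nat_mul, Complex.exp_pi_mul_I]

lemma step2 (m : ℕ) [NeZero m] [NeZero (4 * m)] (A B C κ : ℤ) (hB : Odd B) (hκ : Odd κ) :
    SS (4 * m) A B C κ = 4 * SS m A B C κ := by
  set h : ZMod (4 * m) := ((2 * m : ℕ) : ZMod (4 * m)) with hh
  have h2 : 2 * h = 0 := by
    have : (2 : ZMod (4 * m)) * h = ((4 * m : ℕ) : ZMod (4 * m)) := by
      rw [hh]
      push_cast
      ring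
    rw [this, ZMod.natCast_self]
  have h3 : h * h = 0 := by
    have : h * h = ((4 * m : ℕ) : ZMod (4 * m)) * (m : ZMod (4 * m)) := by
      rw [hh]
      push_cast
      ring
    rw [this, ZMod.natCast_self, zero_mul]
  have e1 := step1 (4 * m) h h2 h3 A B C κ hB hκ
  -- the right side in terms of natural numbers
  let G : ℕ → ℕ → ℂ := fun i j => ff (4 * m) A B C κ (i : ZMod (4 * m)) (j : ZMod (4 * m))
  let G' : ℕ → ℕ → ℂ := fun i j => ff m A B C κ (i : ZMod m) (j : ZMod m)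
  have hG : ∀ i j, G (2 * i) (2 * j) = G' i j := by
    intro i j
    simp only [G, G', ff]
    have a1 : ((κ : ZMod (4 * m)) * ((A : ZMod (4 * m)) * ((2 * i : ℕ) : ZMod (4 * m)) ^ 2 +
        (B : ZMod (4 * m)) * ((2 * i : ℕ) : ZMod (4 * m)) * ((2 * j : ℕ) : ZMod (4 * m)) +
        (C : ZMod (4 * m)) * ((2 * j : ℕ) : ZMod (4 * m)) ^ 2)) =
        ((4 * (κ * (A * i ^ 2 + B * i * j + C * j ^ 2)) : ℤ) : ZMod (4 * m)) := by
      push_cast
      ring
    have a2 : ((κ : ZMod m) * ((A : ZMod m) * (i : ZMod m) ^ 2 +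
        (B : ZMod m) * (i : ZMod m) * (j : ZMod m) + (C : ZMod m) * (j : ZMod m) ^ 2)) =
        ((κ * (A * i ^ 2 + B * i * j + C * j ^ 2) : ℤ) : ZMod m) := by
      push_cast
      ring
    rw [a1, a2, add_char_four]
  have hp1 : ∀ i j, G' (m + i) j = G' i j := by
    intro i j
    simp only [G']
    rw [Nat.cast_add, ZMod.natCast_self, zero_add]
  have hp2 : ∀ i j, G' i (m + j) = G' i j := by
    intro i j
    simp only [G']
    rw [Nat.cast_add, ZMod.natCast_self, zero_add]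
  have e2 : ∑ x, ∑ y, ff (4 * m) A B C κ x y * (1 + chi (4 * m) h x) * (1 + chi (4 * m) h y) =
      ∑ i ∈ range (2 * (2 * m)), (∑ j ∈ range (2 * (2 * m)), G i j * (1 + (-1) ^ j)) *
        (1 + (-1) ^ i) := by
    rw [sum_zmod, show 2 * (2 * m) = 4 * m by ring]
    refine sum_congr rfl fun i _ => ?_
    rw [sum_zmod, sum_mul]
    refine sum_congr rfl fun j _ => ?_
    rw [hh, chi_cast, chi_cast]
    simp only [G]
    ring
  have e3 : ∑ i ∈ range (2 * (2 * m)), (∑ j ∈ range (2 * (2 * m)), G i j * (1 + (-1) ^ j)) *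
        (1 + (-1) ^ i) = 4 * ∑ i ∈ range (2 * m), ∑ j ∈ range (2 * m), G' i j := by
    rw [sum_even (fun i => ∑ j ∈ range (2 * (2 * m)), G i j * (1 + (-1) ^ j))]
    simp only [sum_even, ← mul_sum, hG]
    ring
  have e4 : ∑ i ∈ range (2 * m), ∑ j ∈ range (2 * m), G' i j =
      4 * ∑ i ∈ range m, ∑ j ∈ range m, G' i j := by
    rw [sum_periodic (fun i => ∑ j ∈ range (2 * m), G' i j) m
      (fun i => sum_congr rfl fun j _ => hp1 i j)]
    have : ∀ i, ∑ j ∈ range (2 * m), G' i j = 2 * ∑ j ∈ range m, G' i j := fun i =>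
      sum_periodic (fun j => G' i j) m (fun j => hp2 i j)
    simp only [this, ← mul_sum]
    ring
  have e5 : SS m A B C κ = ∑ i ∈ range m, ∑ j ∈ range m, G' i j := by
    unfold SS
    rw [sum_zmod]
    refine sum_congr rfl fun i _ => ?_
    rw [sum_zmod]
  rw [e2, e3, e4, ← e5] at e1
  have h4 : (4 : ℂ) ≠ 0 := by norm_num
  exact mul_left_cancel₀ h4 e1

lemma main (k : ℕ) (A B C κ : ℤ) (hB : Odd B) (hκ : Odd κ) :
    SS (4 ^ k) A B C κ = (4 : ℂ) ^ k := by
  induction k with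
  | zero =>
    have key : ∀ (n : ℕ) [NeZero n], n = 1 → SS n A B C κ = 1 := by
      intro n _ h
      subst h
      have h1 : ∀ x y : ZMod 1, ff 1 A B C κ x y = 1 := by
        intro x y
        unfold ff
        rw [Subsingleton.elim ((κ : ZMod 1) * ((A : ZMod 1) * x ^ 2 + (B : ZMod 1) * x * y +
          (C : ZMod 1) * y ^ 2)) 0, AddChar.map_zero_eq_one]
      unfold SS
      simp only [h1]
      simp
    rw [key (4 ^ 0) (by norm_num), pow_zero]
  | succ k ih =>
    have key : ∀ (n m : ℕ) [NeZero n] [NeZero m], n = 4 * m →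
        SS n A B C κ = 4 * SS m A B C κ := by
      intro n m _ _ h
      subst h
      exact step2 m A B C κ hB hκ
    rw [key (4 ^ (k + 1)) (4 ^ k) (by ring), ih]
    ring

end GAU

theorem gau : GAU_Stmt := by
  intro k A B C κ _ hB _ hκ
  rw [Fintype.sum_prod_type]
  exact GAU.main k A B C κ hB hκ

end Pool.Agent.T3
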