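import Pool.Agent.T3.Stmts2

/-!
GAU2: the Gauss sum of the form of a word with a linear term.
-/

open scoped BigOperators

namespace Pool.Agent.T3

open Pool.Agent.TB Pool.Agent.LibH11

namespace GAU2

/-- A unit modulo `4^k` has an odd representative. -/
theorem odd_rep (k : ℕ) (κ : ZMod (4 ^ k)) (h : IsUnit κ) :
    ∃ m : ℤ, Odd m ∧ ((m : ℤ) : ZMod (4 ^ k)) = κ := by
  rcases Nat.eq_zero_or_pos k with hk | hk
  · subst hk
    refine ⟨1, odd_one, ?_⟩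
    have : Subsingleton (ZMod (4 ^ 0)) := by rw [pow_zero]; infer_instance
    exact Subsingleton.elim _ _
  · have : NeZero (4 ^ k) := ⟨by positivity⟩
    refine ⟨(κ.val : ℤ), ?_, by simp⟩
    have h1 : IsUnit ((κ.val : ℕ) : ZMod (4 ^ k)) := by simpa using h
    rw [ZMod.isUnit_iff_coprime] at h1
    have h2 : Nat.Coprime κ.val 2 := by
      refine Nat.Coprime.coprime_dvd_right ?_ h1
      exact dvd_pow (by norm_num) hk.ne'
    have h3 : Odd κ.val := by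
      rw [Nat.coprime_comm, Nat.coprime_two_left] at h2
      exact h2
    exact_mod_cast h3

/-- Completing the square. -/
theorem square {F : Type} [CommRing F] (a b c κ κ' D R₁ R₂ S₁ S₂ : F) (hD : 4 * a * c - b ^ 2 = D)
    (hk : κ * κ' * D = 1) :
    κ * (a * S₁ ^ 2 + b * S₁ * S₂ + c * S₂ ^ 2) + (R₁ * S₂ - R₂ * S₁)
      = κ * (a * (S₁ + -κ' * (b * R₁ + 2 * c * R₂)) ^ 2
          + b * (S₁ + -κ' * (b * R₁ + 2 * c * R₂)) * (S₂ + κ' * (2 * a * R₁ + b * R₂))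
          + c * (S₂ + κ' * (2 * a * R₁ + b * R₂)) ^ 2)
        + -(κ' * (a * R₁ ^ 2 + b * R₁ * R₂ + c * R₂ ^ 2)) := by
  subst hD
  linear_combination (-(R₁ * S₂ - R₂ * S₁) - κ' * (a * R₁ ^ 2 + b * R₁ * R₂ + c * R₂ ^ 2)) * hk

end GAU2

open GAU2 in
/-- GAU2: the Gauss sum of the form of a word with a linear term. -/
theorem gau2 (h1 : GAU_Stmt) (h2 : CHN3_Stmt) : GAU2_Stmt := by
  intro k x hx ht κ κ' hκ hκ' R
  have : NeZero (4 ^ k) := ⟨by positivity⟩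
  obtain ⟨hdet, -, -, -, hQw, -, -, -, hodd, -, -⟩ := h2 x hx
  have hodd0 := hodd ht 0
  have hodd1 := hodd ht 1
  have hd := hdet x.length
  rw [hx.neg_one_pow] at hd
  obtain ⟨p, hp⟩ : ∃ p, (ch3 x x.length).1 = p := ⟨_, rfl⟩
  obtain ⟨q, hq⟩ : ∃ q, (ch3 x x.length).2 = q := ⟨_, rfl⟩
  obtain ⟨r, hr⟩ : ∃ r, (ch3 x (x.length + 1)).1 = r := ⟨_, rfl⟩
  obtain ⟨s, hs⟩ : ∃ s, (ch3 x (x.length + 1)).2 = s := ⟨_, rfl⟩
  have ht2 : tw3 x = p + s := by rw [tw3, hp, hs]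
  have hA : Odd q := by
    have := hodd0.1
    rw [hQw] at this
    simpa [ch3, hq] using this
  have hC : Odd (-r) := by
    have := hodd1.1
    rw [hQw] at this
    simpa [ch3, hr] using this
  have hB : Odd (s - p) := by
    have := hodd0.2
    rw [hQw, hQw, hQw] at this
    have h3 : ch3 x 0 = (1, 0) := rfl
    have h4 : ch3 x (0 + 1) = (0, 1) := rfl
    rw [h3, h4, hp, hq, hr, hs] at this
    simp only [Prod.mk_add_mk] at this
    ring_nf at this ⊢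
    exact this
  have hQm : ∀ S : ZMod (4 ^ k) × ZMod (4 ^ k), Qm (4 ^ k) x S
      = ((q : ℤ) : ZMod (4 ^ k)) * S.1 ^ 2 + ((s - p : ℤ) : ZMod (4 ^ k)) * S.1 * S.2
        + ((-r : ℤ) : ZMod (4 ^ k)) * S.2 ^ 2 := by
    intro S
    rw [Qm, hp, hq, hr, hs]
    push_cast
    ring
  obtain ⟨m, hm, hmκ⟩ := odd_rep k κ hκ
  have hG := h1 k q (s - p) (-r) m hA hB hC hm
  rw [hmκ] at hG
  have hD : 4 * ((q : ℤ) : ZMod (4 ^ k)) * ((-r : ℤ) : ZMod (4 ^ k))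
      - ((s - p : ℤ) : ZMod (4 ^ k)) ^ 2 = 4 - (tw3 x : ZMod (4 ^ k)) ^ 2 := by
    rw [ht2]
    have h5 : p * s - q * r = 1 := by
      have h6 := hd
      simp only [det2, hp, hq, hr, hs] at h6
      linarith
    have h7 : 4 * q * (-r) - (s - p) ^ 2 = 4 - (p + s) ^ 2 := by
      linear_combination (4 : ℤ) * h5
    exact_mod_cast congrArg (fun z : ℤ => (z : ZMod (4 ^ k))) h7
  obtain ⟨f, hf⟩ : ∃ f : ZMod (4 ^ k) × ZMod (4 ^ k) → ℂ, f = fun T =>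
      (ZMod.stdAddChar (κ * (((q : ℤ) : ZMod (4 ^ k)) * T.1 ^ 2
        + ((s - p : ℤ) : ZMod (4 ^ k)) * T.1 * T.2
        + ((-r : ℤ) : ZMod (4 ^ k)) * T.2 ^ 2)) : ℂ) := ⟨_, rfl⟩
  obtain ⟨v, hv⟩ : ∃ v : ZMod (4 ^ k) × ZMod (4 ^ k), v =
      (-κ' * (((s - p : ℤ) : ZMod (4 ^ k)) * R.1 + 2 * ((-r : ℤ) : ZMod (4 ^ k)) * R.2),
        κ' * (2 * ((q : ℤ) : ZMod (4 ^ k)) * R.1 + ((s - p : ℤ) : ZMod (4 ^ k)) * R.2)) :=
    ⟨_, rfl⟩
  have hsum : ∀ S : ZMod (4 ^ k) × ZMod (4 ^ k),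
      (ZMod.stdAddChar (κ * Qm (4 ^ k) x S + (R.1 * S.2 - R.2 * S.1)) : ℂ)
      = (ZMod.stdAddChar (-(κ' * Qm (4 ^ k) x R)) : ℂ) * f (S + v) := by
    intro S
    rw [hQm, hQm, square _ _ _ κ κ' _ R.1 R.2 S.1 S.2 hD hκ', AddChar.map_add_eq_mul, mul_comm,
      hf, hv]
    rfl
  have hshift : ∑ S, f (S + v) = ∑ S, f S := Equiv.sum_comp (Equiv.addRight v) f
  have hG' : ∑ S, f S = (4 : ℂ) ^ k := by rw [hf]; exact hG
  rw [Finset.sum_congr rfl (fun S _ => hsum S), ← Finset.mul_sum, hshift, hG', mul_comm]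

end Pool.Agent.T3
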