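import Pool.Agent.T3.Stmts
import Pool.Agent.TB.Brk

/-!
Finite type invariants of closed 3-braids: module GENF (genericity over a field when `q` is not a
root of unity). See PAPER.md in this folder.
-/

namespace Pool.Agent.T3

open Pool.Agent.TB

namespace GENF

variable {F : Type} [Field F] (Q : QP F)

theorem qp_inj (h : Nru Q) {a b : ℤ} (hab : Q.qp a = Q.qp b) : a = b := by
  by_contra hne
  apply h (a - b) (sub_ne_zero.2 hne)
  have h1 : Q.qp (a - b) = Q.qp a * Q.qp (-b) := by rw [sub_eq_add_neg, BRK.qp_add]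
  rw [h1, hab, BRK.qp_neg]

theorem one_add_ne (h : Nru Q) [CharZero F] (a : ℤ) : 1 + Q.qp a ≠ 0 := by
  intro h0
  by_cases ha : a = 0
  · rw [ha, BRK.qp_zero] at h0
    norm_num at h0
  · apply h (a + a) (by omega)
    rw [BRK.qp_add]
    linear_combination (Q.qp a - 1) * h0

theorem cu_ne (h : Nru Q) [CharZero F] (m : ℤ) : cu Q m ≠ 0 := by
  intro h0
  unfold cu at h0
  apply one_add_ne Q h (-m + -m)
  have h1 := BRK.qp_neg Q m
  rw [BRK.qp_add]
  linear_combination Q.qp (-m) * h0 - h1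

theorem diff_ne (h : Nru Q) : Q.qp 1 - Q.qp (-1) ≠ 0 := by
  intro h0
  have := qp_inj Q h (sub_eq_zero.1 h0)
  omega

theorem lam_ne (h : Nru Q) [CharZero F] {m m' : ℤ} (hm : m ≠ m') : Q.lam m ≠ Q.lam m' := by
  intro h0
  unfold QP.lam at h0
  have h1 : Q.br m = Q.br m' := Q.i.isUnit.mul_left_cancel h0
  have h2 := BRK.diff Q m
  have h3 := BRK.diff Q m'
  have h4 : (Q.qp m - Q.qp m') * (1 + Q.qp (-m + -m')) = 0 := by
    rw [BRK.qp_add]
    have k1 := BRK.qp_neg Q m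
    have k2 := BRK.qp_neg Q m'
    linear_combination (Q.qp 1 - Q.qp (-1)) * h1 - h2 + h3 + Q.qp (-m') * k1 - Q.qp (-m) * k2
  rcases mul_eq_zero.1 h4 with h5 | h5
  · exact hm (qp_inj Q h (sub_eq_zero.1 h5))
  · exact one_add_ne Q h _ h5

theorem cj_ne (h : Nru Q) {i j : ℕ} (hij : i ≠ j) : cj Q i ≠ cj Q j := by
  intro h0
  unfold cj at h0
  have e1 : (-2 * (i : ℤ) - 1) = -(2 * (i : ℤ) + 1) := by ring
  have e2 : (-2 * (j : ℤ) - 1) = -(2 * (j : ℤ) + 1) := by ring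
  rw [e1, e2] at h0
  set a : ℤ := 2 * (i : ℤ) + 1 with ha
  set b : ℤ := 2 * (j : ℤ) + 1 with hb
  have h4 : (Q.qp a - Q.qp b) * (1 - Q.qp (-a + -b)) = 0 := by
    rw [BRK.qp_add Q (-a) (-b)]
    have k1 := BRK.qp_neg Q a
    have k2 := BRK.qp_neg Q b
    linear_combination h0 - Q.qp (-b) * k1 + Q.qp (-a) * k2
  rcases mul_eq_zero.1 h4 with h5 | h5
  · have := qp_inj Q h (sub_eq_zero.1 h5)
    omega
  · exact h (-a + -b) (by omega) (sub_eq_zero.1 h5).symm

end GENF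

open GENF

/-- GENF: genericity over a field when `q` is not a root of unity. -/
theorem genf : GENF_Stmt := by
  intro F _ _ Q h
  refine ⟨fun m m' hm => lam_ne Q h hm, fun r => ⟨?_, ?_⟩, cu_ne Q h, diff_ne Q h,
    fun i j hij => cj_ne Q h hij, fun m => ?_⟩
  · intro m _ m' _ hm
    exact (sub_ne_zero.2 (lam_ne Q h hm)).isUnit
  · intro m hm
    rw [Finset.mem_Icc] at hm
    exact ⟨lam_ne Q h (by omega), lam_ne Q h (by omega)⟩
  · unfold cj
    have e1 : 2 * (-m - 1) + 1 = -2 * m - 1 := by ring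
    have e2 : -2 * (-m - 1) - 1 = 2 * m + 1 := by ring
    rw [e1, e2, add_comm]

end Pool.Agent.T3
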