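import Pool.Agent.T3.Stmts
import Pool.Agent.TB.Brk
import Pool.Agent.TB.Gps

/-!
# IND: from the weighted traces to the traces on the modules `W_r`
-/

open Polynomial
open scoped BigOperators

namespace Pool.Agent.T3

open Pool.Agent.TB

namespace IND

/-- the linear coefficient of `(1+h)^n` -/
lemma coeff_oneAddX (n : ℕ) :
    PowerSeries.constantCoeff ((1 + PowerSeries.X : PowerSeries ℂ) ^ n) = 1 ∧
    PowerSeries.coeff 1 ((1 + PowerSeries.X : PowerSeries ℂ) ^ n) = (n : ℂ) := by
  induction n with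
  | zero =>
    constructor
    · simp
    · simp [PowerSeries.coeff_one]
  | succ n ih =>
    constructor
    · simp
    · rw [pow_succ, mul_add, mul_one, map_add, ih.2, Nat.cast_succ]
      congr 1
      have h := PowerSeries.coeff_succ_mul_X 0 ((1 + PowerSeries.X : PowerSeries ℂ) ^ n)
      rw [zero_add] at h
      rw [h, PowerSeries.coeff_zero_eq_constantCoeff]
      exact ih.1

/-- positive powers of `s` are different from `1` -/
lemma s_pow_ne (n : ℕ) (hn : n ≠ 0) : QPS.s ^ n ≠ 1 := by
  intro h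
  have h1 : ((QPS.s ^ n : (PowerSeries ℂ)ˣ) : PowerSeries ℂ) = 1 := by rw [h]; rfl
  have h2 : ((QPS.s ^ n : (PowerSeries ℂ)ˣ) : PowerSeries ℂ) =
      (1 + PowerSeries.X : PowerSeries ℂ) ^ n := by
    rw [Units.val_pow_eq_pow_val]
    rfl
  rw [h2] at h1
  have h3 := congrArg (PowerSeries.coeff 1) h1
  rw [(coeff_oneAddX n).2, PowerSeries.coeff_one, if_neg one_ne_zero] at h3
  exact hn (by exact_mod_cast h3)

/-- `q` is not a root of unity in the power series -/
lemma qp_ne (m : ℤ) (hm : m ≠ 0) : QPS.qp m ≠ 1 := by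
  intro h
  have h1 : QPS.s ^ (2 * m) = 1 := Units.ext h
  rcases Int.lt_or_gt_of_ne hm with h0 | h0
  · obtain ⟨k, hk⟩ := Int.eq_ofNat_of_zero_le (show 0 ≤ -(2 * m) by omega)
    have h2 : QPS.s ^ (-(2 * m)) = 1 := by rw [zpow_neg, h1, inv_one]
    rw [hk, zpow_natCast] at h2
    exact s_pow_ne k (by omega) h2
  · obtain ⟨k, hk⟩ := Int.eq_ofNat_of_zero_le (show 0 ≤ 2 * m by omega)
    rw [hk, zpow_natCast] at h1
    exact s_pow_ne k (by omega) h1

/-- base change of `q^m` -/
lemma map_qp {A B : Type} [CommRing A] [CommRing B] (φ : A →+* B) (Q : QP A) (m : ℤ) :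
    (Q.map φ).qp m = φ (Q.qp m) := by
  unfold QP.qp QP.map
  rw [← map_zpow]
  rfl

/-- `q` is not a root of unity after an injective base change -/
lemma nru {F : Type} [Field F] (φ : PowerSeries ℂ →+* F) (hφ : Function.Injective φ) :
    Nru (QPS.map φ) := by
  intro m hm h
  rw [map_qp] at h
  exact qp_ne m hm (hφ (by rw [h, map_one]))

end IND

open IND in
/-- IND: from the weighted traces to the traces on the `W_r`. -/
theorem ind (h1 : TRL_Stmt) (h2 : DRR_Stmt) (h3 : NAT3_Stmt) : IND_Stmt := by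
  intro x y hxy
  let F := FractionRing (PowerSeries ℂ)
  let φ : PowerSeries ℂ →+* F := algebraMap (PowerSeries ℂ) F
  have hφ : Function.Injective φ := IsFractionRing.injective (PowerSeries ℂ) F
  have hc : CharZero F :=
    charZero_of_injective_ringHom (φ.comp (PowerSeries.C : ℂ →+* PowerSeries ℂ)).injective
  have hgen : ∀ r, QPS.Gen r := fun r => (gps brk r).1
  have hnru : Nru (QPS.map φ) := nru φ hφ
  have key : ∀ r, chi (QPS.map φ) r x = chi (QPS.map φ) r y := by
    intro r
    induction r using Nat.strong_induction_on with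
    | _ r ih =>
      obtain ⟨D, hD, hw⟩ := h1 F (QPS.map φ) hnru r
      obtain ⟨-, -, hn3, hn4⟩ := h3 (PowerSeries ℂ) F φ QPS r (hgen r)
      have hD0 : D r ≠ 0 := by
        rw [hD]
        have hmem : (r : ℤ) ∈ Finset.Icc (-(r : ℤ)) r := by
          rw [Finset.mem_Icc]; omega
        unfold em
        rw [if_pos hmem, ← hn4]
        intro h0
        exact h2 r (hφ (by rw [h0, map_zero]))
      have he : ∑ j ∈ Finset.range (r + 1), D j * chi (QPS.map φ) j x =
          ∑ j ∈ Finset.range (r + 1), D j * chi (QPS.map φ) j y := by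
        rw [← hw x, ← hw y, ← hn3 x, ← hn3 y, hxy r]
      rw [Finset.sum_range_succ, Finset.sum_range_succ,
        Finset.sum_congr rfl (fun j hj => by rw [ih j (Finset.mem_range.1 hj)])] at he
      exact mul_left_cancel₀ hD0 (add_left_cancel he)
  intro r
  obtain ⟨-, hn2, -, -⟩ := h3 (PowerSeries ℂ) F φ QPS r (hgen r)
  exact hφ (by rw [hn2 x, hn2 y, key r])

end Pool.Agent.T3
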