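import Pool.Agent.T3.Stmts2

/-!
Module ISO3: the counting functions of two words agree.
-/

open Polynomial Filter Topology
open scoped BigOperators Real

namespace Pool.Agent.T3

open Pool.Agent.TB Pool.Agent.LibH11

namespace ISO3

/-- The arithmetic induction. -/
theorem descent (a b : ℤ) (hab : IsCoprime a b) (ha : 1 < a.natAbs) (hb : b ≠ 0) (δ : ℤ → ℝ)
    (hao : Odd a) (hbo : Odd b) (h1 : ∀ N, Odd N → ¬ a ∣ N → δ N = 0)
    (h2 : ∀ N, Odd N → (b : ℝ) * δ (a * N) + (a : ℝ) * δ (b * N) = 0) :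
    ∀ N, Odd N → δ N = 0 := by
  have key : ∀ m : ℕ, ∀ N, Odd N → ¬ a ^ (m + 1) ∣ N → δ N = 0 := by
    intro m
    induction m with
    | zero =>
      intro N hN h
      refine h1 N hN ?_
      rwa [zero_add, pow_one] at h
    | succ m ih =>
      intro N hN h
      by_cases hd : a ∣ N
      · obtain ⟨N1, rfl⟩ := hd
        have hN1 : Odd N1 := (Int.odd_mul.mp hN).2
        have h3 : ¬ a ^ (m + 1) ∣ b * N1 := by
          intro h4
          have h5 : a ^ (m + 1) ∣ N1 := (hab.pow_left).dvd_of_dvd_mul_left h4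
          apply h
          rw [pow_succ', pow_succ'] at *
          exact mul_dvd_mul_left a h5
        have h4 : δ (b * N1) = 0 := ih _ (hbo.mul hN1) h3
        have h5 := h2 N1 hN1
        rw [h4, mul_zero, add_zero] at h5
        exact (mul_eq_zero.mp h5).resolve_left (Int.cast_ne_zero.mpr hb)
      · exact h1 N hN hd
  intro N hN
  refine key N.natAbs N hN ?_
  intro h
  have hN0 : N ≠ 0 := by
    rintro rfl
    exact absurd hN (by decide)
  have h3 := Int.natAbs_dvd_natAbs.mpr h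
  rw [Int.natAbs_pow] at h3
  have h4 := Nat.le_of_dvd (Int.natAbs_pos.mpr hN0) h3
  have h5 : N.natAbs + 1 < a.natAbs ^ (N.natAbs + 1) := Nat.lt_pow_self ha
  omega

theorem dl_ne_zero {t : ℤ} (ht : 2 < |t|) : dl t ≠ 0 := by
  have h1 : (0 : ℝ) < (t : ℝ) ^ 2 - 4 := by
    have h2 : (2 : ℝ) < |(t : ℝ)| := by exact_mod_cast ht
    have h3 : (t : ℝ) ^ 2 = |(t : ℝ)| ^ 2 := (sq_abs _).symm
    rw [h3]
    nlinarith
  have h2 : t ≠ 0 := by
    rintro rfl
    simp at ht
  unfold dl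
  refine mul_ne_zero ?_ (Real.sqrt_pos.mpr h1).ne'
  exact Int.cast_ne_zero.mpr (by rwa [Ne, Int.sign_eq_zero_iff_zero])

/-- Solutions as functions and as pairs. -/
def solEquiv (x : List ℤ) (hQ : ∀ R : Fin 2 → ℤ, qf (mw false x) R = Qw x (R 0, R 1))
    (d N : ℤ) (hd : d ≠ 0) :
    {R : Fin 2 → ℤ // qf (mw false x) R = N} ≃ {p : ℤ × ℤ // d * Qw x p = d * N} :=
  (finTwoArrowEquiv ℤ).subtypeEquiv (by
    intro R
    rw [hQ R]
    exact (mul_right_inj' hd).symm)

variable (h1 : LIMZ_Stmt) (h2 : TELO_Stmt) (h3 : ORB3_Stmt) (h4 : CHN3_Stmt)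

include h1 h2 h3 h4 in
/-- The value of the limit. -/
theorem value (x : List ℤ) (hx : Even x.length) (ho : Odd (tw3 x)) (ht : 2 < |tw3 x|) (d N : ℤ)
    (hd : Odd d) (hN : Odd N) :
    ∑' p : {p : ℤ × ℤ // d * Qw x p = d * N}, F3 x p.1 =
      cnt (mw false x) N * (-(dl (tw3 x) / (4 * N))) := by
  obtain ⟨_, _, htr, hQ, _⟩ := h4 x hx
  have hN0 : N ≠ 0 := by
    rintro rfl
    exact absurd hN (by decide)
  have hd0 : d ≠ 0 := by
    rintro rfl
    exact absurd hd (by decide)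
  obtain ⟨G, hG⟩ := h2 x hx ht
  have hc : (-(dl (tw3 x) / (4 * N)) : ℝ) ≠ 0 := by
    rw [neg_ne_zero]
    exact div_ne_zero (dl_ne_zero ht) (mul_ne_zero four_ne_zero (Int.cast_ne_zero.mpr hN0))
  have hsum : Summable (fun R : {R : Fin 2 → ℤ // qf (mw false x) R = N} =>
      F3 x (R.1 0, R.1 1)) := by
    have h := (h1 x hx ho d (d * N) hd (hd.mul hN)).1
    exact (solEquiv x hQ d N hd0).summable_iff.mpr h
  have h5 := h3 (mw false x) (by rw [htr]; exact ht) N hN0 (F3 x) G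
    (-(dl (tw3 x) / (4 * N))) hc (by
      intro R hR
      have hRQ : Qw x (R 0, R 1) = N := by rw [← hQ R, hR]
      have h6 := hG (R 0, R 1) (by rw [hRQ]; exact hN0)
      rw [hRQ] at h6
      exact h6) hsum
  rw [← h5.2]
  exact ((solEquiv x hQ d N hd0).tsum_eq (fun p : {p : ℤ × ℤ // d * Qw x p = d * N} =>
    F3 x p.1)).symm

theorem value_zero (x : List ℤ) (d N : ℤ) (hd : ¬ d ∣ N) :
    ∑' p : {p : ℤ × ℤ // d * Qw x p = N}, F3 x p.1 = 0 := by
  have : IsEmpty {p : ℤ × ℤ // d * Qw x p = N} := ⟨fun p => hd ⟨_, p.2.symm⟩⟩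
  exact tsum_empty

include h1 in
theorem relation (x y : List ℤ) (hx : Even x.length) (hy : Even y.length) (ho : Odd (tw3 x))
    (hxy : tw3 x = tw3 y)
    (h : ∀ k : ℕ, 0 < k → ∀ ν : ZMod (4 ^ k),
      Zo (4 ^ k) x (ν * (tw3 x + 2)) + Zo (4 ^ k) x (ν * (tw3 x - 2)) =
        Zo (4 ^ k) y (ν * (tw3 x + 2)) + Zo (4 ^ k) y (ν * (tw3 x - 2)))
    (d N : ℤ) (hd : Odd d) (hN : Odd N) :
    (∑' p : {p : ℤ × ℤ // d * Qw x p = N * (tw3 x + 2)}, F3 x p.1) +
      ∑' p : {p : ℤ × ℤ // d * Qw x p = N * (tw3 x - 2)}, F3 x p.1 =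
    (∑' p : {p : ℤ × ℤ // d * Qw y p = N * (tw3 x + 2)}, F3 y p.1) +
      ∑' p : {p : ℤ × ℤ // d * Qw y p = N * (tw3 x - 2)}, F3 y p.1 := by
  have o1 : Odd (N * (tw3 x + 2)) := hN.mul (ho.add_even (by decide))
  have o2 : Odd (N * (tw3 x - 2)) := hN.mul (ho.sub_even (by decide))
  have ho' : Odd (tw3 y) := hxy ▸ ho
  have t1 := (h1 x hx ho d _ hd o1).2
  have t2 := (h1 x hx ho d _ hd o2).2
  have t3 := (h1 y hy ho' d _ hd o1).2
  have t4 := (h1 y hy ho' d _ hd o2).2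
  have t5 := t1.add t2
  have t6 := t3.add t4
  have t7 := tendsto_nhds_unique_of_eventuallyEq t5 t6 (by
    filter_upwards [eventually_gt_atTop 0] with k hk
    have h5 := h k hk ((N : ZMod (4 ^ k)) * (d : ZMod (4 ^ k))⁻¹)
    have e1 : ((N * (tw3 x + 2) : ℤ) : ZMod (4 ^ k)) * (d : ZMod (4 ^ k))⁻¹ =
        (N : ZMod (4 ^ k)) * (d : ZMod (4 ^ k))⁻¹ * (tw3 x + 2) := by
      push_cast
      ring
    have e2 : ((N * (tw3 x - 2) : ℤ) : ZMod (4 ^ k)) * (d : ZMod (4 ^ k))⁻¹ =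
        (N : ZMod (4 ^ k)) * (d : ZMod (4 ^ k))⁻¹ * (tw3 x - 2) := by
      push_cast
      ring
    rw [e1, e2, ← mul_add, ← mul_add, h5])
  exact_mod_cast t7

end ISO3

open ISO3 in
/-- **Module ISO3.** -/
theorem iso3 (h1 : LIMZ_Stmt) (h2 : TELO_Stmt) (h3 : ORB3_Stmt) (h4 : CHN3_Stmt) : ISO3_Stmt := by
  intro x y hx hy ho hxy ht h
  have ho' : Odd (tw3 y) := hxy ▸ ho
  have ht' : 2 < |tw3 y| := hxy ▸ ht
  have vx := value h1 h2 h3 h4 x hx ho ht
  have vy := value h1 h2 h3 h4 y hy ho' ht'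
  rw [← hxy] at vy
  have rel := relation h1 x y hx hy ho hxy h
  have hdl := dl_ne_zero ht
  set t : ℤ := tw3 x with htdef
  have op : Odd (t + 2) := ho.add_even (by decide)
  have om : Odd (t - 2) := ho.sub_even (by decide)
  have ne : ∀ N : ℤ, Odd N → (N : ℝ) ≠ 0 := by
    intro N hN
    refine Int.cast_ne_zero.mpr ?_
    rintro rfl
    exact absurd hN (by decide)
  have hcop : IsCoprime (t + 2) (t - 2) := by
    obtain ⟨m, hm⟩ := ho
    -- t = 2 m + 1; (t+2) - (t-2) = 4, combination with an odd number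
    rw [Int.isCoprime_iff_gcd_eq_one]
    have h5 : (Int.gcd (t + 2) (t - 2) : ℤ) ∣ 4 := by
      have e : (4 : ℤ) = (t + 2) - (t - 2) := by ring
      rw [e]
      exact dvd_sub (Int.gcd_dvd_left ..) (Int.gcd_dvd_right ..)
    have h6 : Int.gcd (t + 2) (t - 2) ∣ 4 := by exact_mod_cast h5
    have h7 : ¬ 2 ∣ Int.gcd (t + 2) (t - 2) := by
      intro h8
      have h9 : (2 : ℤ) ∣ t + 2 := dvd_trans (by exact_mod_cast h8) (Int.gcd_dvd_left ..)
      omega
    have h8 : Int.gcd (t + 2) (t - 2) ≤ 4 := Nat.le_of_dvd (by norm_num) h6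
    interval_cases hg : Int.gcd (t + 2) (t - 2)
    · omega
    · rfl
    · omega
    · omega
    · omega
  -- the difference of the counting functions
  have hcard : ∀ N, Odd N → (cnt (mw false x) N : ℝ) - cnt (mw false y) N = 0 := by
    have r1 : ∀ N, Odd N → ¬ (t + 2) ∣ N → (cnt (mw false x) N : ℝ) - cnt (mw false y) N = 0 := by
      intro N hN hdvd
      have h5 := rel (t + 2) N op hN
      have h6 : ¬ (t + 2) ∣ N * (t - 2) := fun h7 => hdvd (hcop.dvd_of_dvd_mul_right h7)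
      rw [value_zero x _ _ h6, value_zero y _ _ h6, add_zero, add_zero,
        mul_comm N (t + 2), vx (t + 2) N op hN, vy (t + 2) N op hN] at h5
      have h7 : (-(dl t / (4 * (N : ℝ)))) ≠ 0 :=
        neg_ne_zero.mpr (div_ne_zero hdl (mul_ne_zero four_ne_zero (ne N hN)))
      rw [mul_right_cancel₀ h7 h5, sub_self]
    have r2 : ∀ N, Odd N → ¬ (t - 2) ∣ N → (cnt (mw false x) N : ℝ) - cnt (mw false y) N = 0 := by
      intro N hN hdvd
      have h5 := rel (t - 2) N om hN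
      have h6 : ¬ (t - 2) ∣ N * (t + 2) := fun h7 => hdvd (hcop.symm.dvd_of_dvd_mul_right h7)
      rw [value_zero x _ _ h6, value_zero y _ _ h6, zero_add, zero_add,
        mul_comm N (t - 2), vx (t - 2) N om hN, vy (t - 2) N om hN] at h5
      have h7 : (-(dl t / (4 * (N : ℝ)))) ≠ 0 :=
        neg_ne_zero.mpr (div_ne_zero hdl (mul_ne_zero four_ne_zero (ne N hN)))
      rw [mul_right_cancel₀ h7 h5, sub_self]
    have r3 : ∀ N, Odd N →
        ((t - 2 : ℤ) : ℝ) * ((cnt (mw false x) ((t + 2) * N) : ℝ) -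
          cnt (mw false y) ((t + 2) * N)) +
        ((t + 2 : ℤ) : ℝ) * ((cnt (mw false x) ((t - 2) * N) : ℝ) -
          cnt (mw false y) ((t - 2) * N)) = 0 := by
      intro N hN
      have h5 := rel 1 N odd_one hN
      rw [show N * (t + 2) = 1 * ((t + 2) * N) by ring,
        show N * (t - 2) = 1 * ((t - 2) * N) by ring,
        vx 1 _ odd_one (op.mul hN), vx 1 _ odd_one (om.mul hN),
        vy 1 _ odd_one (op.mul hN), vy 1 _ odd_one (om.mul hN)] at h5
      have n1 := ne _ op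
      have n2 := ne _ om
      have n3 := ne _ hN
      rw [Int.cast_mul, Int.cast_mul] at h5
      field_simp at h5
      have h6 : dl t * (((t - 2 : ℤ) : ℝ) * ((cnt (mw false x) ((t + 2) * N) : ℝ) -
          cnt (mw false y) ((t + 2) * N)) +
        ((t + 2 : ℤ) : ℝ) * ((cnt (mw false x) ((t - 2) * N) : ℝ) -
          cnt (mw false y) ((t - 2) * N))) = 0 := by
        linear_combination (-dl t) * h5
      exact (mul_eq_zero.mp h6).resolve_left hdl
    rcases lt_or_ge 0 t with hpos | hneg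
    · rw [abs_of_pos hpos] at ht
      exact descent (t + 2) (t - 2) hcop (by omega) (by omega) _ op om r1 r3
    · rw [abs_of_nonpos hneg] at ht
      refine descent (t - 2) (t + 2) hcop.symm (by omega) (by omega) _ om op r2 ?_
      intro N hN
      rw [add_comm]
      exact r3 N hN
  intro N hN
  have h5 := hcard N hN
  rw [sub_eq_zero] at h5
  exact_mod_cast h5

end Pool.Agent.T3
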