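import Pool.Agent.T3.Stmts

/-!
# T3, module KCOM: the weights commute with `I` and with the R-matrix
-/

open Polynomial
open scoped BigOperators

namespace Pool.Agent.T3

open Pool.Agent.TB

namespace KCOM

variable {A : Type} [CommRing A] (Q : QP A)

/-- The matrix commutes with the weights. -/
def Cm (r : ℕ) (M : Matrix (Lb r × Lb r) (Lb r × Lb r) A) : Prop :=
  ∀ x y a b : Lb r, M (x, y) (a, b) * (Kw Q r a * Kw Q r b) =
    M (x, y) (a, b) * (Kw Q r x * Kw Q r y)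

lemma Cm.mul {r : ℕ} {M N : Matrix (Lb r × Lb r) (Lb r × Lb r) A} (hM : Cm Q r M)
    (hN : Cm Q r N) : Cm Q r (M * N) := by
  intro x y a b
  simp only [Matrix.mul_apply, Finset.sum_mul]
  refine Finset.sum_congr rfl fun c _ => ?_
  obtain ⟨u, v⟩ := c
  have h1 := hM x y u v
  have h2 := hN u v a b
  linear_combination M (x, y) (u, v) * h2 + N (u, v) (a, b) * h1

lemma Kw_succ (r : ℕ) (x : Lb r) (u : Bool) :
    Kw Q (r + 1) ((x, u) : Lb r × Bool) = (if u then Q.qp (-(r : ℤ)) else Q.qp r) * Kw Q r x :=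
  rfl

lemma Im_succ (r : ℕ) (x y a b : Lb r) (x2 y2 a2 b2 : Bool) :
    Im Q (r + 1) (((x, x2) : Lb r × Bool), ((y, y2) : Lb r × Bool))
      (((a, a2) : Lb r × Bool), ((b, b2) : Lb r × Bool)) =
      (if x2 = a2 ∧ y2 = b2 then kinv Q x2 y2 * Im Q r (x, y) (a, b) else 0) +
        (if x = a ∧ y = b then bm A x2 y2 a2 b2 else 0) := rfl

lemma Im_com (r : ℕ) : Cm Q r (Im Q r) := by
  induction r with
  | zero =>
    intro x y a b
    simp [Im]
  | succ r ih =>
    rintro ⟨x, x2⟩ ⟨y, y2⟩ ⟨a, a2⟩ ⟨b, b2⟩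
    have h := ih x y a b
    rw [Im_succ, Kw_succ, Kw_succ, Kw_succ, Kw_succ]
    by_cases h1 : x = a ∧ y = b
    · obtain ⟨rfl, rfl⟩ := h1
      cases x2 <;> cases y2 <;> cases a2 <;> cases b2 <;> simp [bm, kinv] <;> ring
    · rw [if_neg h1, add_zero]
      by_cases h2 : x2 = a2 ∧ y2 = b2
      · obtain ⟨rfl, rfl⟩ := h2
        rw [if_pos ⟨rfl, rfl⟩]
        linear_combination (kinv Q x2 y2 * (if x2 then Q.qp (-(r : ℤ)) else Q.qp r)
          * (if y2 then Q.qp (-(r : ℤ)) else Q.qp r)) * h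
      · rw [if_neg h2]
        ring

lemma Rm_com (r : ℕ) : Cm Q r (Rm Q r) := by
  induction r with
  | zero =>
    intro x y a b
    simp [Kw]
  | succ r ih =>
    rintro ⟨x, x2⟩ ⟨y, y2⟩ ⟨a, a2⟩ ⟨b, b2⟩
    have h := ih x y a b
    have h' := (ih.mul Q (Im_com Q r)) x y a b
    rw [Kw_succ, Kw_succ, Kw_succ, Kw_succ]
    cases x2 <;> cases y2 <;> cases a2 <;> cases b2 <;> simp only [Rm] <;>
      simp only [Bool.false_eq_true, if_false, if_true, zero_mul]
    · linear_combination (Q.qp r * Q.qp r) * h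
    · linear_combination ((Q.s : A) * (Q.qp 1 - Q.qp (-1)) * Q.qp r * Q.qp (-(r : ℤ))) * h'
    · linear_combination ((Q.s : A) * Q.qp r * Q.qp (-(r : ℤ))) * h
    · linear_combination (-(Q.s : A) * Q.qp r * Q.qp (-(r : ℤ))) * h
    · linear_combination (Q.qp (-(r : ℤ)) * Q.qp (-(r : ℤ))) * h

lemma Im_par (r : ℕ) : ∀ x y a b : Lb r, Im Q r (x, y) (a, b) ≠ 0 →
    x.par = !a.par ∧ y.par = !b.par := by
  induction r with
  | zero =>
    intro x y a b h
    simp [Im] at h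
  | succ r ih =>
    rintro ⟨x, x2⟩ ⟨y, y2⟩ ⟨a, a2⟩ ⟨b, b2⟩ h
    rw [Im_succ] at h
    show xor x.par x2 = !(xor a.par a2) ∧ xor y.par y2 = !(xor b.par b2)
    by_cases h1 : x2 = a2 ∧ y2 = b2 ∧ Im Q r (x, y) (a, b) ≠ 0
    · obtain ⟨rfl, rfl, h3⟩ := h1
      obtain ⟨h4, h5⟩ := ih x y a b h3
      rw [h4, h5]
      cases x2 <;> cases y2 <;> cases a.par <;> cases b.par <;> simp
    · have h2 : (if x2 = a2 ∧ y2 = b2 then kinv Q x2 y2 * Im Q r (x, y) (a, b) else 0) = 0 := by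
        split_ifs with h3
        · have h4 : Im Q r (x, y) (a, b) = 0 := by
            by_contra h5
            exact h1 ⟨h3.1, h3.2, h5⟩
          rw [h4, mul_zero]
        · rfl
      rw [h2, zero_add] at h
      by_cases h3 : x = a ∧ y = b
      · obtain ⟨rfl, rfl⟩ := h3
        rw [if_pos ⟨rfl, rfl⟩] at h
        revert h
        cases x2 <;> cases y2 <;> cases a2 <;> cases b2 <;> simp [bm]
      · rw [if_neg h3] at h
        exact absurd rfl h

end KCOM

/-- **(KCOM)** -/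
theorem kcom : KCOM_Stmt := fun _ _ Q r x y a b =>
  ⟨KCOM.Im_com Q r x y a b, KCOM.Rm_com Q r x y a b, KCOM.Im_par Q r x y a b⟩

end Pool.Agent.T3
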