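import Pool.Agent.T3.Stmts

/-!
KEQ: finite type invariants and the exponent sum determine all traces `χ_r`.
-/

open Polynomial
open scoped BigOperators Real

namespace Pool.Agent.T3

open Pool.Agent.TB Pool.Agent.LibH11

theorem keq (h1 : RYB_Stmt) (h2 : YREP_Stmt) (h3 : YFTM_Stmt) (h4 : LINK_Stmt) (h5 : IND_Stmt) :
    KEQ_Stmt := by
  intro x y hx hy hs hv
  apply h5
  intro r
  obtain ⟨hg, h0⟩ := h1 r
  obtain ⟨ρ, hρ, -⟩ := h2 (PowerSeries ℂ) (Ev r) (ybt QPS r) hg 2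
  have e := h3 (Ev r) (ybt QPS r) hg h0 2 2 (bw false x) (bw false y) hx hy hv ρ ρ hρ hρ
  rw [h4 r x hx ρ hρ, h4 r y hy ρ hρ, hs] at e
  exact (Units.mul_right_inj _).mp e

end Pool.Agent.T3
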