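import Pool.Agent.T3.Stmts2

/-!
Finite type invariants of closed 3-braids: KER3, the kernel of `B_3 → SL(2,ℤ)`.
-/

open scoped BigOperators

namespace Pool.Agent.T3

open Pool.Agent.TB Pool.Agent.LibH11

namespace KER3

/-- the first generator -/
def ga : Br 2 := sg 0

/-- the second generator -/
def gb : Br 2 := sg 1

theorem braid : ga * gb * ga = gb * ga * gb := sg_braid 0 1 rfl

/-- `y = a b` -/
def yy : Br 2 := ga * gb

/-- `x = a b a` -/
def xx : Br 2 := ga * gb * ga

/-- `z = y³` -/
def zz : Br 2 := yy * yy * yy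

theorem xx_sq : xx * xx = zz := by
  have h := braid
  unfold xx zz yy
  calc ga * gb * ga * (ga * gb * ga) = ga * gb * ga * (gb * ga * gb) := by rw [h]
    _ = ga * gb * (ga * gb) * (ga * gb) := by group

theorem ga_eq : ga = yy⁻¹ * xx := by
  unfold xx yy
  group

theorem gb_eq : gb = xx * yy⁻¹ := by
  have h := braid
  unfold xx yy
  rw [h]
  group

theorem comm_x : zz * xx = xx * zz := by
  rw [← xx_sq, mul_assoc]

theorem comm_y : zz * yy = yy * zz := by
  unfold zz
  group

/-- two elements commuting with everything in sight -/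
theorem closure_gens : Subgroup.closure ({xx, yy} : Set (Br 2)) = ⊤ := by
  rw [eq_top_iff, ← PresentedGroup.closure_range_of, Subgroup.closure_le]
  rintro _ ⟨i, rfl⟩
  have hx : xx ∈ Subgroup.closure ({xx, yy} : Set (Br 2)) := Subgroup.subset_closure (by simp)
  have hy : yy ∈ Subgroup.closure ({xx, yy} : Set (Br 2)) := Subgroup.subset_closure (by simp)
  have h0 : ga ∈ Subgroup.closure ({xx, yy} : Set (Br 2)) := by
    rw [ga_eq]
    exact mul_mem (inv_mem hy) hx
  have h1 : gb ∈ Subgroup.closure ({xx, yy} : Set (Br 2)) := by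
    rw [gb_eq]
    exact mul_mem hx (inv_mem hy)
  fin_cases i
  · exact h0
  · exact h1

theorem central (g : Br 2) : zz * g = g * zz := by
  have hg : g ∈ Subgroup.closure ({xx, yy} : Set (Br 2)) := by
    rw [closure_gens]
    trivial
  induction hg using Subgroup.closure_induction with
  | mem x hx =>
    rcases hx with rfl | hx
    · exact comm_x
    · rw [Set.mem_singleton_iff] at hx
      subst hx
      exact comm_y
  | one => simp
  | mul x y _ _ h1 h2 => rw [← mul_assoc, h1, mul_assoc, h2, mul_assoc]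
  | inv x _ h => exact ((show Commute zz x from h).inv_right).eq

theorem zcomm (k : ℤ) (g : Br 2) : g * zz ^ k = zz ^ k * g :=
  ((show Commute zz g from central g).zpow_left k).eq.symm

/-- alternating words -/
def wd : List Bool → Br 2
  | [] => 1
  | true :: l => xx * yy * wd l
  | false :: l => xx * yy⁻¹ * wd l

/-- normal forms -/
def T (g : Br 2) : Prop :=
  ∃ (k : ℤ) (l : List Bool) (e : Bool),
    g = zz ^ k * (wd l * if e then xx else 1) ∨
    g = zz ^ k * (yy * (wd l * if e then xx else 1)) ∨
    g = zz ^ k * (yy⁻¹ * (wd l * if e then xx else 1))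

theorem T_z (j : ℤ) {g : Br 2} (h : T g) : T (zz ^ j * g) := by
  obtain ⟨k, l, e, h | h | h⟩ := h
  · exact ⟨j + k, l, e, Or.inl (by rw [h, ← mul_assoc, zpow_add])⟩
  · exact ⟨j + k, l, e, Or.inr (Or.inl (by rw [h, ← mul_assoc, zpow_add]))⟩
  · exact ⟨j + k, l, e, Or.inr (Or.inr (by rw [h, ← mul_assoc, zpow_add]))⟩

theorem yy_sq : yy * yy = zz * yy⁻¹ := by
  unfold zz
  group

theorem T_y {g : Br 2} (h : T g) : T (yy * g) := by
  obtain ⟨k, l, e, h | h | h⟩ := h
  · exact ⟨k, l, e, Or.inr (Or.inl (by rw [h, ← mul_assoc, zcomm, mul_assoc]))⟩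
  · refine ⟨k + 1, l, e, Or.inr (Or.inr ?_)⟩
    rw [h, ← mul_assoc, zcomm, mul_assoc, ← mul_assoc yy yy, yy_sq, zpow_add, zpow_one]
    simp only [mul_assoc]
  · refine ⟨k, l, e, Or.inl ?_⟩
    rw [h, ← mul_assoc, zcomm, mul_assoc, mul_inv_cancel_left]

theorem T_x {g : Br 2} (h : T g) : T (xx * g) := by
  obtain ⟨k, l, e, h | h | h⟩ := h
  · rw [h, ← mul_assoc, zcomm, mul_assoc]
    apply T_z
    match l with
    | [] =>
      cases e with
      | false => exact ⟨0, [], true, Or.inl (by simp [wd])⟩
      | true => exact ⟨1, [], false, Or.inl (by simp [wd, xx_sq])⟩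
    | true :: l =>
      refine ⟨1, l, e, Or.inr (Or.inl ?_)⟩
      rw [wd, zpow_one, ← xx_sq]
      simp only [mul_assoc]
    | false :: l =>
      refine ⟨1, l, e, Or.inr (Or.inr ?_)⟩
      rw [wd, zpow_one, ← xx_sq]
      simp only [mul_assoc]
  · refine ⟨k, true :: l, e, Or.inl ?_⟩
    rw [h, ← mul_assoc, zcomm, wd]
    simp only [mul_assoc]
  · refine ⟨k, false :: l, e, Or.inl ?_⟩
    rw [h, ← mul_assoc, zcomm, wd]
    simp only [mul_assoc]

theorem T_all (g : Br 2) : T g := by
  have key : ∀ g ∈ Subgroup.closure ({xx, yy} : Set (Br 2)), ∀ h, T h → T (g * h) ∧ T (g⁻¹ * h) := by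
    intro g hg
    induction hg using Subgroup.closure_induction with
    | mem x hx =>
      intro h hh
      rcases hx with rfl | hx
      · refine ⟨T_x hh, ?_⟩
        have : xx⁻¹ * h = zz ^ (-1 : ℤ) * (xx * h) := by
          rw [zpow_neg_one, ← xx_sq]
          group
        rw [this]
        exact T_z _ (T_x hh)
      · rw [Set.mem_singleton_iff] at hx
        subst hx
        refine ⟨T_y hh, ?_⟩
        have : yy⁻¹ * h = zz ^ (-1 : ℤ) * (yy * (yy * h)) := by
          unfold zz
          group
        rw [this]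
        exact T_z _ (T_y (T_y hh))
    | one =>
      intro h hh
      simpa using hh
    | mul x y _ _ h1 h2 =>
      intro h hh
      refine ⟨?_, ?_⟩
      · rw [mul_assoc]
        exact (h1 _ (h2 _ hh).1).1
      · rw [mul_inv_rev, mul_assoc]
        exact (h2 _ (h1 _ hh).2).2
    | inv x _ h =>
      intro h' hh
      rw [inv_inv]
      exact ⟨(h _ hh).2, (h _ hh).1⟩
  have h1 : T 1 := ⟨0, [], false, Or.inl (by simp [wd])⟩
  have h2 := (key g (by rw [closure_gens]; trivial) 1 h1).1
  rwa [mul_one] at h2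

/-! ### Matrices -/

theorem rho_ga : (rho ga).1 = !![1, 0; 1, 1] := by
  unfold rho ga
  rw [liftBr_sg]
  rfl

theorem rho_gb : (rho gb).1 = !![1, -1; 0, 1] := by
  unfold rho gb
  rw [liftBr_sg]
  rfl

theorem rho_yy : (rho yy).1 = !![1, -1; 1, 0] := by
  unfold yy
  rw [map_mul, Matrix.SpecialLinearGroup.coe_mul, rho_ga, rho_gb]
  simp

theorem rho_xx : (rho xx).1 = !![0, -1; 1, 0] := by
  unfold xx
  rw [map_mul, map_mul, Matrix.SpecialLinearGroup.coe_mul, Matrix.SpecialLinearGroup.coe_mul,
    rho_ga, rho_gb]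
  simp

theorem rho_zz : rho zz = -1 := by
  apply Subtype.ext
  rw [← xx_sq, map_mul, Matrix.SpecialLinearGroup.coe_mul, rho_xx]
  ext i j
  fin_cases i <;> fin_cases j <;> simp

theorem rho_yinv : (rho yy⁻¹).1 = !![0, 1; -1, 1] := by
  rw [map_inv, Matrix.SpecialLinearGroup.coe_inv, rho_yy]
  simp [Matrix.adjugate_fin_two]

theorem rho_zpow (k : ℤ) : rho (zz ^ k) = 1 ∧ Even k ∨ rho (zz ^ k) = -1 ∧ ¬ Even k := by
  rw [map_zpow, rho_zz]
  rcases Int.even_or_odd k with h | h
  · exact Or.inl ⟨h.neg_one_zpow, h⟩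
  · exact Or.inr ⟨h.neg_one_zpow, Int.not_even_iff_odd.2 h⟩

/-- the matrices of words are, up to sign, of one type -/
theorem wd_type (l : List Bool) : ∃ (e : ℤ) (p q r s : ℤ), (e = 1 ∨ e = -1) ∧
    (rho (wd l)).1 = !![e * p, -(e * q); -(e * r), e * s] ∧ 0 < p ∧ 0 ≤ q ∧ 0 ≤ r ∧ 0 < s ∧
    (l ≠ [] → 0 < q + r) := by
  induction l with
  | nil =>
    refine ⟨1, 1, 0, 0, 1, Or.inl rfl, ?_, by norm_num, le_refl _, le_refl _, by norm_num,
      fun h => absurd rfl h⟩
    simp only [wd, map_one]
    ext i j
    fin_cases i <;> fin_cases j <;> simp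
  | cons b l ih =>
    obtain ⟨e, p, q, r, s, he, hm, hp, hq, hr, hs, -⟩ := ih
    cases b with
    | true =>
      refine ⟨-e, p, q, p + r, q + s, ?_, ?_, hp, hq, by omega, by omega, fun _ => by omega⟩
      · rcases he with rfl | rfl
        · right; rfl
        · left; rfl
      · rw [wd, map_mul, map_mul, Matrix.SpecialLinearGroup.coe_mul,
          Matrix.SpecialLinearGroup.coe_mul, hm, rho_xx, rho_yy]
        ext i j
        fin_cases i <;> fin_cases j <;> simp <;> ring
    | false =>
      refine ⟨e, p + r, q + s, r, s, he, ?_, by omega, by omega, hr, hs, fun _ => by omega⟩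
      rw [wd, map_mul, map_mul, Matrix.SpecialLinearGroup.coe_mul,
          Matrix.SpecialLinearGroup.coe_mul, hm, rho_xx, rho_yinv]
      ext i j
      fin_cases i <;> fin_cases j <;> simp <;> ring

theorem ker (g : Br 2) (hg : rho g = 1) : ∃ k : ℤ, g = zz ^ (2 * k) := by
  obtain ⟨k, l, e, h⟩ := T_all g
  obtain ⟨f, p, q, r, s, hf, hm, hp, hq, hr, hs, hne⟩ := wd_type l
  have hz : ∃ c : ℤ, (c = 1 ∨ c = -1) ∧ ∀ g' : Br 2, (rho (zz ^ k * g')).1 = c • (rho g').1 := by
    rcases rho_zpow k with ⟨h1, -⟩ | ⟨h1, -⟩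
    · exact ⟨1, Or.inl rfl, fun g' => by rw [map_mul, h1, one_mul, one_smul]⟩
    · exact ⟨-1, Or.inr rfl, fun g' => by
        rw [map_mul, h1, neg_one_mul, Matrix.SpecialLinearGroup.coe_neg, neg_smul, one_smul]⟩
  obtain ⟨c, hc, hz⟩ := hz
  have h1 : (rho g).1 = 1 := by rw [hg]; rfl
  rcases h with h | h | h
  · cases e with
    | false =>
      have hl : l = [] := by
        by_contra hl
        have h2 := hne hl
        rw [h, hz] at h1
        simp only [Bool.false_eq_true, if_false, mul_one] at h1
        rw [hm] at h1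
        have e01 := congrFun (congrFun h1 0) 1
        have e10 := congrFun (congrFun h1 1) 0
        simp at e01 e10
        rcases hc with rfl | rfl <;> rcases hf with rfl | rfl <;> simp at e01 e10 <;> omega
      subst hl
      rw [h]
      rcases rho_zpow k with ⟨-, j, hj⟩ | ⟨h3, -⟩
      · exact ⟨j, by rw [hj, two_mul]; simp [wd]⟩
      · exfalso
        rw [h] at hg
        simp only [wd, Bool.false_eq_true, if_false, mul_one] at hg
        rw [hg] at h3
        have := congrArg (fun M : Matrix.SpecialLinearGroup (Fin 2) ℤ => M.1 0 0) h3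
        simp at this
    | true =>
      exfalso
      rw [h, hz] at h1
      simp only [if_true] at h1
      rw [map_mul, Matrix.SpecialLinearGroup.coe_mul, hm, rho_xx] at h1
      have e00 := congrFun (congrFun h1 0) 0
      have e11 := congrFun (congrFun h1 1) 1
      have e01 := congrFun (congrFun h1 0) 1
      have e10 := congrFun (congrFun h1 1) 0
      simp at e00 e01 e10 e11
      rcases hc with rfl | rfl <;> rcases hf with rfl | rfl <;> simp at e00 e01 e10 e11 <;> omega
  · exfalso
    rw [h, hz] at h1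
    cases e with
    | false =>
      simp only [Bool.false_eq_true, if_false, mul_one] at h1
      rw [map_mul, Matrix.SpecialLinearGroup.coe_mul, hm, rho_yy] at h1
      have e00 := congrFun (congrFun h1 0) 0
      have e11 := congrFun (congrFun h1 1) 1
      have e01 := congrFun (congrFun h1 0) 1
      have e10 := congrFun (congrFun h1 1) 0
      simp at e00 e01 e10 e11
      rcases hc with rfl | rfl <;> rcases hf with rfl | rfl <;> simp at e00 e01 e10 e11 <;> omega
    | true =>
      simp only [if_true] at h1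
      rw [map_mul, map_mul, Matrix.SpecialLinearGroup.coe_mul, Matrix.SpecialLinearGroup.coe_mul,
        hm, rho_yy, rho_xx] at h1
      have e00 := congrFun (congrFun h1 0) 0
      have e11 := congrFun (congrFun h1 1) 1
      have e01 := congrFun (congrFun h1 0) 1
      have e10 := congrFun (congrFun h1 1) 0
      simp at e00 e01 e10 e11
      rcases hc with rfl | rfl <;> rcases hf with rfl | rfl <;> simp at e00 e01 e10 e11 <;> omega
  · exfalso
    rw [h, hz] at h1
    cases e with
    | false =>
      simp only [Bool.false_eq_true, if_false, mul_one] at h1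
      rw [map_mul, Matrix.SpecialLinearGroup.coe_mul, hm, rho_yinv] at h1
      have e00 := congrFun (congrFun h1 0) 0
      have e11 := congrFun (congrFun h1 1) 1
      have e01 := congrFun (congrFun h1 0) 1
      have e10 := congrFun (congrFun h1 1) 0
      simp at e00 e01 e10 e11
      rcases hc with rfl | rfl <;> rcases hf with rfl | rfl <;> simp at e00 e01 e10 e11 <;> omega
    | true =>
      simp only [if_true] at h1
      rw [map_mul, map_mul, Matrix.SpecialLinearGroup.coe_mul, Matrix.SpecialLinearGroup.coe_mul,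
        hm, rho_yinv, rho_xx] at h1
      have e00 := congrFun (congrFun h1 0) 0
      have e11 := congrFun (congrFun h1 1) 1
      have e01 := congrFun (congrFun h1 0) 1
      have e10 := congrFun (congrFun h1 1) 0
      simp at e00 e01 e10 e11
      rcases hc with rfl | rfl <;> rcases hf with rfl | rfl <;> simp at e00 e01 e10 e11 <;> omega

theorem surj : Function.Surjective rho := by
  rw [← MonoidHom.range_eq_top, eq_top_iff,
    ← SpecialLinearGroup.SL2Z_generators, Subgroup.closure_le]
  rintro M (rfl | hM)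
  · refine ⟨xx, Subtype.ext ?_⟩
    rw [rho_xx]
    rfl
  · rw [Set.mem_singleton_iff] at hM
    subst hM
    refine ⟨gb⁻¹, Subtype.ext ?_⟩
    rw [map_inv, Matrix.SpecialLinearGroup.coe_inv, rho_gb, ModularGroup.coe_T]
    simp [Matrix.adjugate_fin_two]

end KER3

open KER3 in
/-- KER3. -/
theorem ker3 : KER3_Stmt := by
  have hz : ((sg 0 * sg 1) ^ 3 : Br 2) = zz := by
    show yy ^ 3 = zz
    unfold zz
    rw [pow_succ, pow_two]
  refine ⟨fun b hb => ?_, fun b => ?_, surj⟩
  · obtain ⟨k, hk⟩ := ker b hb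
    refine ⟨k, ?_⟩
    rw [hk, ← hz, ← zpow_natCast, ← zpow_mul]
    congr 1
    push_cast
    ring
  · rw [hz]
    exact central b

end Pool.Agent.T3
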