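import Pool.Agent.T3.Stmts2
import Pool.Agent.TB.Lam
import Pool.Agent.TB.Fou
import Pool.Agent.TB.Zt

/-!
LAM3: the logarithmic derivative (see PAPER.md, section F).
-/

open Polynomial
open scoped BigOperators Real

namespace Pool.Agent.T3.LAM3

open Pool.Agent.TB Pool.Agent.T3

set_option linter.unusedSectionVars false

section Ins

variable (n : ℕ) [NeZero n] (ι : ℤ)

theorem wi_add (O P : Module.End ℂ (Fn n)) (l : List ℤ) : ∀ (b : Bool) (j : ℕ),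
    wi n ι (O + P) b l j = wi n ι O b l j + wi n ι P b l j := by
  induction l with
  | nil =>
    intro b j
    cases j with
    | zero => simp [wi, add_mul]
    | succ j => simp [wi]
  | cons a l ih =>
    intro b j
    cases j with
    | zero => simp [wi, add_mul]
    | succ j => cases b <;> simp [wi, ih, mul_add]

theorem wi_smul (c : ℂ) (O : Module.End ℂ (Fn n)) (l : List ℤ) : ∀ (b : Bool) (j : ℕ),
    wi n ι (c • O) b l j = c • wi n ι O b l j := by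
  induction l with
  | nil =>
    intro b j
    cases j with
    | zero => simp [wi]
    | succ j => simp [wi]
  | cons a l ih =>
    intro b j
    cases j with
    | zero => simp [wi]
    | succ j => cases b <;> simp [wi, ih]

/-- `tre (wi ...)` as a linear functional of the operator -/
noncomputable def wiL (b : Bool) (l : List ℤ) (j : ℕ) : Module.End ℂ (Fn n) →ₗ[ℂ] ℂ where
  toFun O := tre n (wi n ι O b l j)
  map_add' O P := by rw [wi_add, tre, mul_add, map_add]; rfl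
  map_smul' c O := by rw [wi_smul, tre, mul_smul_comm, map_smul]; rfl

theorem wiL_apply (b : Bool) (l : List ℤ) (j : ℕ) (O : Module.End ℂ (Fn n)) :
    wiL n ι b l j O = tre n (wi n ι O b l j) := rfl

/-- `tre` is linear -/
noncomputable def treL : Module.End ℂ (Fn n) →ₗ[ℂ] ℂ where
  toFun O := tre n O
  map_add' O P := by rw [tre, mul_add, map_add]; rfl
  map_smul' c O := by rw [tre, mul_smul_comm, map_smul]; rfl

theorem treL_apply (O : Module.End ℂ (Fn n)) : treL n O = tre n O := rfl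

end Ins

section Main

variable {n : ℕ} [NeZero n] {ι : ℤ}

/-- the terms of `Θ` -/
theorem thTerm (hz2 : ∀ a : ℤ, zt n ι (2 * a) = ZMod.stdAddChar ((ι * a : ℤ) : ZMod n))
    (hf1 : ∀ a : ℤ, saw n a = (Complex.I / (2 * n)) * ∑ ρ : ZMod n, ct n ρ *
      ZMod.stdAddChar (ρ * (a : ZMod n)))
    (x : List ℤ)
    (hQ : ∀ R : ℤ × ℤ, ((Qw x R : ℤ) : ZMod n) = Qm n x ((R.1 : ZMod n), (R.2 : ZMod n)))
    (κ κ₀ : ZMod n)
    (hg2 : ∀ R : ZMod n × ZMod n,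
      ∑ S : ZMod n × ZMod n, (ZMod.stdAddChar
        (κ₀ * Qm n x S + (R.1 * S.2 - R.2 * S.1)) : ℂ) =
        (n : ℂ) * ZMod.stdAddChar (κ * Qm n x R))
    (δ : ℤ) (hδ : (ι : ZMod n) * (δ : ZMod n) = κ₀) (j : ℕ)
    (hdet : det2 (ch3 x j) (ch3 x (j + 1)) = (-1) ^ j) :
    (n : ℂ) * ∑ a ∈ Finset.range n, ∑ b ∈ Finset.range n, (saw n a * saw n b) *
        zt n ι (2 * δ * Qw x ((a : ℤ) • ch3 x j + (b : ℤ) • ch3 x (j + 1)) : ℤ) =
      -(1 / 4) * ∑ R : ZMod n × ZMod n, ct n (detm n R (ch3 x j)) *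
        ct n (detm n R (ch3 x (j + 1))) * ZMod.stdAddChar (κ * Qm n x R) := by
  set g := ch3 x j with hg
  set g' := ch3 x (j + 1) with hg'
  have hn : (n : ℂ) ≠ 0 := by exact_mod_cast NeZero.ne n
  have hε : ((-1 : ZMod n) ^ j) * (-1) ^ j = 1 := by
    rw [← mul_pow]; simp
  have hd : ((g.1 : ZMod n) * g'.2 - g.2 * g'.1) = (-1) ^ j := by
    have := congrArg (fun z : ℤ => (z : ZMod n)) hdet
    simpa [det2] using this
  -- the summand as a function on `ZMod n`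
  let F : ZMod n → ZMod n → ℂ := fun a b =>
    ((Complex.I / (2 * n)) * ∑ ρ : ZMod n, ct n ρ * ZMod.stdAddChar (ρ * a)) *
      ((Complex.I / (2 * n)) * ∑ σ : ZMod n, ct n σ * ZMod.stdAddChar (σ * b)) *
      ZMod.stdAddChar (κ₀ * Qm n x (a * (g.1 : ZMod n) + b * (g'.1 : ZMod n),
        a * (g.2 : ZMod n) + b * (g'.2 : ZMod n)))
  have h1 : ∀ a b : ℕ, (saw n a * saw n b) *
      zt n ι (2 * δ * Qw x ((a : ℤ) • g + (b : ℤ) • g') : ℤ) = F a b := by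
    intro a b
    have h2 : (((2 * δ * Qw x ((a : ℤ) • g + (b : ℤ) • g') : ℤ)) : ZMod (2 * n)) =
        2 * ((δ * Qw x ((a : ℤ) • g + (b : ℤ) • g') : ℤ) : ZMod (2 * n)) := by
      push_cast; ring
    rw [h2, hz2, hf1, hf1]
    simp only [F]
    have h3 : (((ι * (δ * Qw x ((a : ℤ) • g + (b : ℤ) • g')) : ℤ)) : ZMod n) =
        κ₀ * Qm n x ((a : ZMod n) * (g.1 : ZMod n) + (b : ZMod n) * (g'.1 : ZMod n),
          (a : ZMod n) * (g.2 : ZMod n) + (b : ZMod n) * (g'.2 : ZMod n)) := by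
      rw [← hδ]
      push_cast
      rw [hQ]
      simp only [Prod.fst_add, Prod.snd_add, Prod.smul_fst, Prod.smul_snd, smul_eq_mul]
      push_cast
      ring
    rw [h3]
    push_cast
    rfl
  have h4 : ∑ a ∈ Finset.range n, ∑ b ∈ Finset.range n, (saw n a * saw n b) *
      zt n ι (2 * δ * Qw x ((a : ℤ) • g + (b : ℤ) • g') : ℤ) = ∑ a : ZMod n, ∑ b : ZMod n, F a b := by
    rw [← LAM.sum_range_zmod]
    refine Finset.sum_congr rfl fun a _ => ?_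
    rw [← LAM.sum_range_zmod]
    exact Finset.sum_congr rfl fun b _ => h1 a b
  rw [h4]
  -- exchange the sums
  have h5 : ∀ a b : ZMod n, F a b = -(1 / (4 * (n : ℂ) ^ 2)) * ∑ p : ZMod n × ZMod n,
      ct n p.1 * ct n p.2 * ZMod.stdAddChar (p.1 * a + p.2 * b +
        κ₀ * Qm n x (a * (g.1 : ZMod n) + b * (g'.1 : ZMod n),
          a * (g.2 : ZMod n) + b * (g'.2 : ZMod n))) := by
    intro a b
    simp only [F]
    rw [Fintype.sum_prod_type]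
    have h6 : (Complex.I / (2 * n) : ℂ) * (Complex.I / (2 * n)) = -(1 / (4 * (n : ℂ) ^ 2)) := by
      have := Complex.I_mul_I
      field_simp
      rw [Complex.I_sq]
      norm_num
    rw [mul_mul_mul_comm, h6, Finset.sum_mul_sum, mul_assoc, Finset.sum_mul]
    congr 1
    refine Finset.sum_congr rfl fun ρ _ => ?_
    rw [Finset.sum_mul]
    refine Finset.sum_congr rfl fun σ _ => ?_
    rw [AddChar.map_add_eq_mul, AddChar.map_add_eq_mul]
    ring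
  simp only [h5]
  rw [← Fintype.sum_prod_type' (f := fun a b : ZMod n => -(1 / (4 * (n : ℂ) ^ 2)) *
    ∑ p : ZMod n × ZMod n, ct n p.1 * ct n p.2 * ZMod.stdAddChar (p.1 * a + p.2 * b +
        κ₀ * Qm n x (a * (g.1 : ZMod n) + b * (g'.1 : ZMod n),
          a * (g.2 : ZMod n) + b * (g'.2 : ZMod n))))]
  rw [← Finset.mul_sum, Finset.sum_comm]
  rw [← (LAM.dual g g' ((-1) ^ j) hd hε).sum_comp]
  have h7 : ∀ R : ZMod n × ZMod n, ∑ q : ZMod n × ZMod n,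
      ct n ((LAM.dual g g' ((-1) ^ j) hd hε) R).1 * ct n ((LAM.dual g g' ((-1) ^ j) hd hε) R).2 *
        ZMod.stdAddChar (((LAM.dual g g' ((-1) ^ j) hd hε) R).1 * q.1 +
          ((LAM.dual g g' ((-1) ^ j) hd hε) R).2 * q.2 +
          κ₀ * Qm n x (q.1 * (g.1 : ZMod n) + q.2 * (g'.1 : ZMod n),
            q.1 * (g.2 : ZMod n) + q.2 * (g'.2 : ZMod n))) =
      ct n (detm n R g) * ct n (detm n R g') * (n * ZMod.stdAddChar (κ * Qm n x R)) := by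
    intro R
    have h9 := (LAM.lin g g' ((-1) ^ j) hd hε).sum_comp (fun V : ZMod n × ZMod n =>
      (ZMod.stdAddChar (κ₀ * Qm n x V + (R.1 * V.2 - R.2 * V.1)) : ℂ))
    rw [← hg2 R, ← h9, Finset.mul_sum]
    refine Finset.sum_congr rfl fun q _ => ?_
    simp only [LAM.dual, LAM.lin, Equiv.coe_fn_mk, detm]
    congr 2
    ring
  simp only [h7]
  have h8 : ∀ R : ZMod n × ZMod n, ct n (detm n R g) * ct n (detm n R g') *
      ((n : ℂ) * ZMod.stdAddChar (κ * Qm n x R)) = n * (ct n (detm n R g) * ct n (detm n R g') *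
      ZMod.stdAddChar (κ * Qm n x R)) := by
    intro R; ring
  simp only [h8]
  rw [← Finset.mul_sum]
  field_simp

theorem Qw_smul (x : List ℤ) (m : ℤ) (v : ℤ × ℤ) : Qw x (m • v) = m ^ 2 * Qw x v := by
  simp only [Qw, Aw, det2, Prod.smul_fst, Prod.smul_snd, Prod.fst_add, Prod.snd_add, smul_eq_mul]
  ring

/-- the terms of the letters -/
theorem bqTerm (hz2 : ∀ a : ℤ, zt n ι (2 * a) = ZMod.stdAddChar ((ι * a : ℤ) : ZMod n))
    (x : List ℤ) (κ : ZMod n) (δ : ℤ) {ι' : ℤ}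
    (hι : (ι : ZMod n) * ι' = 1) (hδ : (δ : ZMod n) * (ι' : ZMod n) = κ) (v : ℤ × ℤ) (ρ : ℤ) :
    zt n ι (2 * δ * Qw x ((ι' * ρ) • v) : ℤ) =
      ZMod.stdAddChar (κ * (ρ : ZMod n) ^ 2 * (Qw x v : ZMod n)) := by
  have h2 : (((2 * δ * Qw x ((ι' * ρ) • v) : ℤ)) : ZMod (2 * n)) =
      2 * ((δ * Qw x ((ι' * ρ) • v) : ℤ) : ZMod (2 * n)) := by
    push_cast; ring
  rw [h2, hz2, Qw_smul]
  congr 1
  push_cast
  rw [← hδ]
  linear_combination (δ * ι' * ρ ^ 2 * (Qw x v : ZMod n)) * hι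

end Main

/-- the value at one insertion of `Θ` -/
theorem thSum {n : ℕ} [NeZero n] {ι : ℤ} (x : List ℤ) (J : ℂ) (δ δ' : ℤ)
    (hE : ∀ j ≤ x.length, ∀ a b : ℤ,
        tre n (wi n ι (Tt n ι a b) false x j) = J *
          ((zt n ι (-2 * δ * Qw x (if Even j then a • ch3 x j + b • ch3 x (j + 1)
              else a • ch3 x (j + 1) + b • ch3 x j) : ℤ) +
            zt n ι (2 * δ' * Qw x (if Even j then a • ch3 x j + b • ch3 x (j + 1)
              else a • ch3 x (j + 1) + b • ch3 x j) : ℤ)) / 2)) (j : ℕ) (hj : j ≤ x.length) :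
    tre n (wi n ι (Th n ι) false x j) = J *
      (((n : ℂ) * ∑ a ∈ Finset.range n, ∑ b ∈ Finset.range n, (saw n a * saw n b) *
        zt n ι (2 * (-δ) * Qw x ((a : ℤ) • ch3 x j + (b : ℤ) • ch3 x (j + 1)) : ℤ) +
       (n : ℂ) * ∑ a ∈ Finset.range n, ∑ b ∈ Finset.range n, (saw n a * saw n b) *
        zt n ι (2 * δ' * Qw x ((a : ℤ) • ch3 x j + (b : ℤ) • ch3 x (j + 1)) : ℤ)) / 2) := by
  have e0 : ∀ m : ℤ, -2 * δ * m = 2 * (-δ) * m := fun m => by ring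
  rw [← wiL_apply, Th, map_smul, map_sum]
  simp only [map_sum, map_smul, wiL_apply, smul_eq_mul]
  have h2 : ∀ a b : ℕ, tre n (wi n ι (Tt n ι a b) false x j) = J *
      ((zt n ι (-2 * δ * Qw x (if Even j then (a : ℤ) • ch3 x j + (b : ℤ) • ch3 x (j + 1)
          else (a : ℤ) • ch3 x (j + 1) + (b : ℤ) • ch3 x j) : ℤ) +
        zt n ι (2 * δ' * Qw x (if Even j then (a : ℤ) • ch3 x j + (b : ℤ) • ch3 x (j + 1)
          else (a : ℤ) • ch3 x (j + 1) + (b : ℤ) • ch3 x j) : ℤ)) / 2) :=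
    fun a b => hE j hj a b
  simp only [h2, e0]
  rw [← mul_add, ← Finset.sum_add_distrib]
  simp only [← Finset.sum_add_distrib]
  by_cases hev : Even j
  · simp only [if_pos hev]
    simp only [Finset.mul_sum, Finset.sum_div]
    refine Finset.sum_congr rfl fun a _ => Finset.sum_congr rfl fun b _ => ?_
    ring
  · simp only [if_neg hev]
    rw [Finset.sum_comm]
    simp only [Finset.mul_sum, Finset.sum_div]
    refine Finset.sum_congr rfl fun a _ => Finset.sum_congr rfl fun b _ => ?_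
    rw [add_comm ((b : ℤ) • ch3 x (j + 1)) ((a : ℤ) • ch3 x j)]
    ring

/-- the value at one insertion of `bq` -/
theorem bqSum {n : ℕ} [NeZero n] {ι : ℤ}
    (hz0 : zt n ι 0 = 1) (hza : ∀ a b, zt n ι (a + b) = zt n ι a * zt n ι b)
    (hzs : ∀ u : ZMod (2 * n), ∑ k, zt n ι (k * u) = if u = 0 then (2 * n : ℂ) else 0)
    (hz2 : ∀ a : ℤ, zt n ι (2 * a) = ZMod.stdAddChar ((ι * a : ℤ) : ZMod n))
    (hf2 : ∀ u : ZMod (2 * n), bq n u = -((n : ℂ) ^ 2 - 1) / 6 + (1 / 2) *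
      ∑ ρ ∈ Finset.Ico 1 n, ((1 / Real.sin (π * ρ / n) ^ 2 : ℝ) : ℂ) *
        ZMod.stdAddChar ((ρ : ZMod n) * (u.val : ZMod n)))
    (x : List ℤ) (J : ℂ) (δ δ' : ℤ)
    (hE : ∀ j ≤ x.length, ∀ a b : ℤ,
        tre n (wi n ι (Tt n ι a b) false x j) = J *
          ((zt n ι (-2 * δ * Qw x (if Even j then a • ch3 x j + b • ch3 x (j + 1)
              else a • ch3 x (j + 1) + b • ch3 x j) : ℤ) +
            zt n ι (2 * δ' * Qw x (if Even j then a • ch3 x j + b • ch3 x (j + 1)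
              else a • ch3 x (j + 1) + b • ch3 x j) : ℤ)) / 2))
    {ι' : ℤ} (hι : (ι : ZMod n) * ι' = 1) (κ κ' : ZMod n)
    (hδ' : (δ' : ZMod n) * (ι' : ZMod n) = κ) (hδ : ((-δ : ℤ) : ZMod n) * (ι' : ZMod n) = κ')
    (i : ℕ) (hi : i ≤ x.length) :
    tre n (wi n ι (if Even i then cono n ι (bq n) else mulo n (bq n)) false x i) =
      J * (-((n : ℂ) ^ 2 - 1) / 6 + (1 / 4) * ((∑ ρ ∈ Finset.Ico 1 n,
        ((1 / Real.sin (π * ρ / n) ^ 2 : ℝ) : ℂ) *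
        ZMod.stdAddChar (κ * (ρ : ZMod n) ^ 2 * (Qw x (ch3 x (i + 1)) : ZMod n))) +
        ∑ ρ ∈ Finset.Ico 1 n,
        ((1 / Real.sin (π * ρ / n) ^ 2 : ℝ) : ℂ) *
        ZMod.stdAddChar (κ' * (ρ : ZMod n) ^ 2 * (Qw x (ch3 x (i + 1)) : ZMod n)))) := by
  have e0 : ∀ m : ℤ, -2 * δ * m = 2 * (-δ) * m := fun m => by ring
  have hg : bq n = (-((n : ℂ) ^ 2 - 1) / 6) • LAM.gr n 0 + (1 / 2 : ℂ) •
      ∑ ρ ∈ Finset.Ico 1 n, ((1 / Real.sin (π * ρ / n) ^ 2 : ℝ) : ℂ) • LAM.gr n (ρ : ℤ) := by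
    funext u
    rw [hf2 u]
    simp only [Pi.add_apply, Pi.smul_apply, Finset.sum_apply, smul_eq_mul, LAM.gr]
    rw [Int.cast_zero, zero_mul, AddChar.map_zero_eq_one, mul_one]
    simp only [Int.cast_natCast]
  have h4 : ∀ ρ : ℤ, wiL n ι false x i
      (if Even i then LAM.conoL n ι (LAM.gr n ρ) else LAM.muloL n (LAM.gr n ρ)) =
      J * ((ZMod.stdAddChar (κ' * (ρ : ZMod n) ^ 2 * (Qw x (ch3 x (i + 1)) : ZMod n)) +
        ZMod.stdAddChar (κ * (ρ : ZMod n) ^ 2 * (Qw x (ch3 x (i + 1)) : ZMod n))) / 2) := by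
    intro ρ
    rw [← bqTerm hz2 x κ δ' hι hδ', ← bqTerm hz2 x κ' (-δ) hι hδ, wiL_apply]
    by_cases hev : Even i
    · rw [if_pos hev, LAM.cono_gr hz0 hza hzs hz2 hι, hE i hi, if_pos hev, zero_smul, zero_add, e0]
    · rw [if_neg hev, LAM.mulo_gr hz2 hι, hE i hi, if_neg hev, zero_smul, add_zero, e0]
  have h5 : (if Even i then cono n ι (bq n) else mulo n (bq n)) =
      (-((n : ℂ) ^ 2 - 1) / 6) •
        (if Even i then LAM.conoL n ι (LAM.gr n 0) else LAM.muloL n (LAM.gr n 0)) +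
      (1 / 2 : ℂ) • ∑ ρ ∈ Finset.Ico 1 n, ((1 / Real.sin (π * ρ / n) ^ 2 : ℝ) : ℂ) •
        (if Even i then LAM.conoL n ι (LAM.gr n (ρ : ℤ)) else LAM.muloL n (LAM.gr n (ρ : ℤ))) := by
    by_cases hev : Even i
    · simp only [if_pos hev]
      simp only [← map_smul, ← map_sum, ← map_add]
      rw [← hg]
      rfl
    · simp only [if_neg hev]
      simp only [← map_smul, ← map_sum, ← map_add]
      rw [← hg]
      rfl
  rw [← wiL_apply, h5]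
  simp only [map_add, map_smul, map_sum, h4, smul_eq_mul]
  rw [Int.cast_zero, zero_pow two_ne_zero, mul_zero, zero_mul, mul_zero, zero_mul,
    AddChar.map_zero_eq_one]
  simp only [Int.cast_natCast]
  rw [← Finset.sum_add_distrib, mul_add, Finset.mul_sum, Finset.mul_sum, Finset.mul_sum]
  congr 1
  · ring
  · refine Finset.sum_congr rfl fun ρ _ => ?_
    ring

/-- assembly -/
theorem core {n : ℕ} [NeZero n] {ι : ℤ}
    (hz0 : zt n ι 0 = 1) (hza : ∀ a b, zt n ι (a + b) = zt n ι a * zt n ι b)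
    (hzs : ∀ u : ZMod (2 * n), ∑ k, zt n ι (k * u) = if u = 0 then (2 * n : ℂ) else 0)
    (hz2 : ∀ a : ℤ, zt n ι (2 * a) = ZMod.stdAddChar ((ι * a : ℤ) : ZMod n))
    (hf1 : ∀ a : ℤ, saw n a = (Complex.I / (2 * n)) * ∑ ρ : ZMod n, ct n ρ *
      ZMod.stdAddChar (ρ * (a : ZMod n)))
    (hf2 : ∀ u : ZMod (2 * n), bq n u = -((n : ℂ) ^ 2 - 1) / 6 + (1 / 2) *
      ∑ ρ ∈ Finset.Ico 1 n, ((1 / Real.sin (π * ρ / n) ^ 2 : ℝ) : ℂ) *
        ZMod.stdAddChar ((ρ : ZMod n) * (u.val : ZMod n)))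
    (x : List ℤ)
    (hdet : ∀ j, det2 (ch3 x j) (ch3 x (j + 1)) = (-1) ^ j)
    (hQ : ∀ R : ℤ × ℤ, ((Qw x R : ℤ) : ZMod n) = Qm n x ((R.1 : ZMod n), (R.2 : ZMod n)))
    (J : ℂ) (δ δ' : ℤ)
    (hE : ∀ j ≤ x.length, ∀ a b : ℤ,
        tre n (wi n ι (Tt n ι a b) false x j) = J *
          ((zt n ι (-2 * δ * Qw x (if Even j then a • ch3 x j + b • ch3 x (j + 1)
              else a • ch3 x (j + 1) + b • ch3 x j) : ℤ) +
            zt n ι (2 * δ' * Qw x (if Even j then a • ch3 x j + b • ch3 x (j + 1)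
              else a • ch3 x (j + 1) + b • ch3 x j) : ℤ)) / 2))
    {ι' : ℤ} (hι : (ι : ZMod n) * ι' = 1) (κ κ' κ₁ κ₂ : ZMod n)
    (hδ' : (δ' : ZMod n) * (ι' : ZMod n) = κ) (hδ : ((-δ : ℤ) : ZMod n) * (ι' : ZMod n) = κ')
    (hd1 : (ι : ZMod n) * ((-δ : ℤ) : ZMod n) = κ₁) (hd2 : (ι : ZMod n) * (δ' : ZMod n) = κ₂)
    (hg1 : ∀ R : ZMod n × ZMod n,
      ∑ S : ZMod n × ZMod n, (ZMod.stdAddChar
        (κ₁ * Qm n x S + (R.1 * S.2 - R.2 * S.1)) : ℂ) =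
        (n : ℂ) * ZMod.stdAddChar (κ * Qm n x R))
    (hg2 : ∀ R : ZMod n × ZMod n,
      ∑ S : ZMod n × ZMod n, (ZMod.stdAddChar
        (κ₂ * Qm n x S + (R.1 * S.2 - R.2 * S.1)) : ℂ) =
        (n : ℂ) * ZMod.stdAddChar (κ' * Qm n x R)) :
    J1 n ι x = J * (-((n : ℂ) ^ 2 - 1) / 12 * (x.sum : ℤ) + (Psi3 n x κ + Psi3 n x κ') / 2) := by
  have hT : ∀ j ∈ Finset.range x.length, tre n (wi n ι (Th n ι) false x j) =
      J * ((-(1 / 4) * (∑ R : ZMod n × ZMod n, ct n (detm n R (ch3 x j)) *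
        ct n (detm n R (ch3 x (j + 1))) * ZMod.stdAddChar (κ * Qm n x R)) +
        -(1 / 4) * ∑ R : ZMod n × ZMod n, ct n (detm n R (ch3 x j)) *
        ct n (detm n R (ch3 x (j + 1))) * ZMod.stdAddChar (κ' * Qm n x R)) / 2) := by
    intro j hj
    rw [thSum x J δ δ' hE j (Finset.mem_range.1 hj).le,
      thTerm hz2 hf1 x hQ κ κ₁ hg1 (-δ) hd1 j (hdet j),
      thTerm hz2 hf1 x hQ κ' κ₂ hg2 δ' hd2 j (hdet j)]
  have hB : ∀ i ∈ Finset.range x.length,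
      tre n (wi n ι (if Even i then cono n ι (bq n) else mulo n (bq n)) false x i) =
      J * (-((n : ℂ) ^ 2 - 1) / 6 + (1 / 4) * ((∑ ρ ∈ Finset.Ico 1 n,
        ((1 / Real.sin (π * ρ / n) ^ 2 : ℝ) : ℂ) *
        ZMod.stdAddChar (κ * (ρ : ZMod n) ^ 2 * (Qw x (ch3 x (i + 1)) : ZMod n))) +
        ∑ ρ ∈ Finset.Ico 1 n,
        ((1 / Real.sin (π * ρ / n) ^ 2 : ℝ) : ℂ) *
        ZMod.stdAddChar (κ' * (ρ : ZMod n) ^ 2 * (Qw x (ch3 x (i + 1)) : ZMod n)))) := by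
    intro i hi
    exact bqSum hz0 hza hzs hz2 hf2 x J δ δ' hE hι κ κ' hδ' hδ i (Finset.mem_range.1 hi).le
  have hJ1 : J1 n ι x = (∑ i ∈ Finset.range x.length, (((x.getD i 0 : ℤ) : ℂ) / 2) *
      tre n (wi n ι (if Even i then cono n ι (bq n) else mulo n (bq n)) false x i)) -
      ∑ j ∈ Finset.range x.length, (-1 : ℂ) ^ j * tre n (wi n ι (Th n ι) false x j) := by
    rw [J1, w1, ← treL_apply, map_sub, map_sum, map_sum]
    simp only [map_smul, treL_apply, smul_eq_mul]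
  rw [hJ1]
  refine (congrArg₂ (fun A B : ℂ => A - B)
    (Finset.sum_congr rfl fun i hi => congrArg (fun z : ℂ => ((x.getD i 0 : ℤ) : ℂ) / 2 * z)
      (hB i hi))
    (Finset.sum_congr rfl fun j hj => congrArg (fun z : ℂ => (-1 : ℂ) ^ j * z)
      (hT j hj))).trans ?_
  have e3 : ∀ RR SS : ℕ → ℂ, ∑ j ∈ Finset.range x.length,
      (-1 : ℂ) ^ j * (J * ((-(1 / 4) * RR j + -(1 / 4) * SS j) / 2)) =
      -(J * (((1 / 4) * (∑ j ∈ Finset.range x.length, (-1 : ℂ) ^ j * RR j) +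
        (1 / 4) * (∑ j ∈ Finset.range x.length, (-1 : ℂ) ^ j * SS j)) / 2)) := by
    intro RR SS
    simp only [Finset.mul_sum, ← Finset.sum_add_distrib, Finset.sum_div,
      ← Finset.sum_neg_distrib]
    refine Finset.sum_congr rfl fun j _ => ?_
    ring
  have e4 : ∀ (c : ℂ) (S T : ℕ → ℂ), ∑ i ∈ Finset.range x.length,
      (((x.getD i 0 : ℤ) : ℂ) / 2) * (J * (c + (1 / 4) * (S i + T i))) =
      J * (c / 2 * (∑ i ∈ Finset.range x.length, ((x.getD i 0 : ℤ) : ℂ)) +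
        ((1 / 4) * (∑ i ∈ Finset.range x.length, ((x.getD i 0 : ℤ) : ℂ) * S i) +
        (1 / 4) * (∑ i ∈ Finset.range x.length, ((x.getD i 0 : ℤ) : ℂ) * T i)) / 2) := by
    intro c S T
    simp only [Finset.mul_sum, mul_add, ← Finset.sum_add_distrib, Finset.sum_div]
    refine Finset.sum_congr rfl fun i _ => ?_
    ring
  rw [e3, e4, Psi3, Psi3, ← LAM.sum_getD]
  ring

end LAM3

open Pool.Agent.TB LAM3 in
theorem lam3 (h1 : TRE_Stmt) (h2 : GAU2_Stmt) (h3 : CHN3_Stmt) (h4 : EGO3_Stmt) :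
    LAM3_Stmt := by
  intro k hk ι hodd x hx ht κ κ' hκ hκ'
  clear h4
  have hk4 : 1 < 4 ^ k := Nat.one_lt_pow hk.ne' (by norm_num)
  have hι : IsCoprime ι (2 * (4 ^ k : ℕ) : ℤ) := by
    obtain ⟨m, hm⟩ := hodd
    have h2 : IsCoprime ι 2 := ⟨1, -m, by rw [hm]; ring⟩
    have h4 : IsCoprime ι 4 := by
      have : (4 : ℤ) = 2 * 2 := by norm_num
      rw [this]
      exact IsCoprime.mul_right h2 h2
    have h5 : IsCoprime ι ((4 : ℤ) ^ k) := h4.pow_right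
    push_cast
    exact IsCoprime.mul_right h2 h5
  obtain ⟨hz0, hza, -, -, hzs, -, hz2, -⟩ := zt_basic (4 ^ k) ι hι
  obtain ⟨hf1, hf2, -⟩ := fou (4 ^ k) hk4
  obtain ⟨hdet, -, -, -, -, hQ, -⟩ := h3 x hx
  obtain ⟨-, hE⟩ := h1 k hk ι hodd x hx ht
  obtain ⟨ι', hι'⟩ : ∃ m : ℤ, (m : ZMod (4 ^ k)) = κ * (2 + tw3 x) :=
    ⟨((κ * (2 + tw3 x) : ZMod (4 ^ k))).val, by rw [Int.cast_natCast, ZMod.natCast_zmod_val]⟩
  obtain ⟨δ, hδ⟩ : ∃ m : ℤ, (m : ZMod (4 ^ k)) = -(κ' * ι) :=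
    ⟨((-(κ' * ι) : ZMod (4 ^ k))).val, by rw [Int.cast_natCast, ZMod.natCast_zmod_val]⟩
  obtain ⟨δ', hδ'⟩ : ∃ m : ℤ, (m : ZMod (4 ^ k)) = κ * ι :=
    ⟨((κ * ι : ZMod (4 ^ k))).val, by rw [Int.cast_natCast, ZMod.natCast_zmod_val]⟩
  have hιι : (ι : ZMod (4 ^ k)) * ι' = 1 := by
    rw [hι']; linear_combination hκ
  have hE' := hE δ δ' (by rw [hδ]; linear_combination -hκ') (by rw [hδ']; exact hκ)
  have hg1 : ∀ R : ZMod (4 ^ k) × ZMod (4 ^ k),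
      ∑ S : ZMod (4 ^ k) × ZMod (4 ^ k), (ZMod.stdAddChar
        ((κ' * (ι : ZMod (4 ^ k)) ^ 2) * Qm (4 ^ k) x S + (R.1 * S.2 - R.2 * S.1)) : ℂ) =
        ((4 ^ k : ℕ) : ℂ) * ZMod.stdAddChar (κ * Qm (4 ^ k) x R) := by
    intro R
    have e1 : (κ' * (ι : ZMod (4 ^ k)) ^ 2) * (-κ) * (4 - (tw3 x : ZMod (4 ^ k)) ^ 2) = 1 := by
      linear_combination (-(κ * (ι : ZMod (4 ^ k)) * (2 + tw3 x))) * hκ' + hκ
    have e2 := h2 k x hx ht (κ' * (ι : ZMod (4 ^ k)) ^ 2) (-κ)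
      (IsUnit.of_mul_eq_one ((-κ) * (4 - (tw3 x : ZMod (4 ^ k)) ^ 2)) (by rw [← e1]; ring)) e1 R
    rw [e2]
    push_cast
    congr 2
    ring
  have hg2 : ∀ R : ZMod (4 ^ k) × ZMod (4 ^ k),
      ∑ S : ZMod (4 ^ k) × ZMod (4 ^ k), (ZMod.stdAddChar
        ((κ * (ι : ZMod (4 ^ k)) ^ 2) * Qm (4 ^ k) x S + (R.1 * S.2 - R.2 * S.1)) : ℂ) =
        ((4 ^ k : ℕ) : ℂ) * ZMod.stdAddChar (κ' * Qm (4 ^ k) x R) := by
    intro R
    have e1 : (κ * (ι : ZMod (4 ^ k)) ^ 2) * (-κ') * (4 - (tw3 x : ZMod (4 ^ k)) ^ 2) = 1 := by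
      linear_combination (-(κ * (ι : ZMod (4 ^ k)) * (2 + tw3 x))) * hκ' + hκ
    have e2 := h2 k x hx ht (κ * (ι : ZMod (4 ^ k)) ^ 2) (-κ')
      (IsUnit.of_mul_eq_one ((-κ') * (4 - (tw3 x : ZMod (4 ^ k)) ^ 2)) (by rw [← e1]; ring)) e1 R
    rw [e2]
    push_cast
    congr 2
    ring
  exact core hz0 hza hzs hz2 hf1 hf2 x hdet (hQ (4 ^ k)) (J0 (4 ^ k) ι x) δ δ' hE' hιι κ κ'
    (κ' * (ι : ZMod (4 ^ k)) ^ 2) (κ * (ι : ZMod (4 ^ k)) ^ 2)
    (by rw [hδ', hι']; linear_combination κ * hκ)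
    (by push_cast; rw [hδ, hι']; linear_combination κ' * hκ)
    (by push_cast; rw [hδ]; ring) (by rw [hδ']; ring) hg1 hg2

end Pool.Agent.T3
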