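import Pool.Agent.T3.Stmts2
import Pool.Agent.TB.Lim

/-!
The limit of the cot sums of one quadratic form with odd coefficients (module LIM3).
-/

open Filter Topology
open scoped Real BigOperators

namespace Pool.Agent.T3.LIM3

open Pool.Agent.TB Pool.Agent.TB.LIM

/-- the weight of a residue -/
noncomputable def wt (s : ℕ) (a : ZMod (2 ^ s)) : ℝ := w s a.valMinAbs

theorem w_zero (s : ℕ) : w s 0 = 0 := by
  simp [w, Real.cot_eq_cos_div_sin]

theorem tendsto_w' (m : ℤ) : Tendsto (fun s => w s m) atTop (𝓝 (1 / (m : ℝ))) := by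
  rcases eq_or_ne m 0 with h | h
  · subst h
    simp [w_zero]
  · exact tendsto_w m h

theorem wt_le (s : ℕ) (a : ZMod (2 ^ s)) (h : a.valMinAbs ≠ 0) :
    |wt s a| ≤ 1 / |(a.valMinAbs : ℝ)| :=
  abs_w_le s _ h (abs_le_half a)

theorem wt_le_one (s : ℕ) (a : ZMod (2 ^ s)) : |wt s a| ≤ 1 := by
  rcases eq_or_ne a.valMinAbs 0 with h | h
  · unfold wt
    rw [h, w_zero]
    simp
  · refine (wt_le s a h).trans ?_
    have h1 : (1 : ℝ) ≤ |(a.valMinAbs : ℝ)| := by exact_mod_cast Int.one_le_abs h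
    rw [div_le_one (by linarith)]
    exact h1

theorem wt_abs (s : ℕ) (a : ZMod (2 ^ s)) :
    |wt s a| = (π / 2 ^ s) * |Real.cot (π * a.val / 2 ^ s)| := by
  have h : ((2 ^ s : ℕ) : ℤ) ∣ (a.val : ℤ) - a.valMinAbs := by
    rw [← ZMod.intCast_zmod_eq_zero_iff_dvd]
    push_cast
    rw [ZMod.natCast_val, ZMod.cast_id, sub_self]
  push_cast at h
  have h2 := w_congr s _ _ h
  unfold wt
  rw [← h2]
  unfold w
  rw [abs_mul, abs_of_pos (div_pos Real.pi_pos (by positivity)), Int.cast_natCast]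

/-- the sum in FIX -/
noncomputable def fs (A B C N b : ℤ) (s : ℕ) : ℝ := (π / 2 ^ s) * ∑ a : ZMod (2 ^ s),
      if 2 * ((A : ZMod (2 ^ s)) * a ^ 2 + B * a * b + C * b ^ 2 - N) = 0 ∧
          A * a.valMinAbs ^ 2 + B * a.valMinAbs * b + C * b ^ 2 ≠ N then
        |Real.cot (π * a.val / 2 ^ s)| else 0

theorem fs_eq (A B C N b : ℤ) (s : ℕ) : fs A B C N b s = ∑ a : ZMod (2 ^ s),
      if 2 * ((A : ZMod (2 ^ s)) * a ^ 2 + B * a * b + C * b ^ 2 - N) = 0 ∧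
          A * a.valMinAbs ^ 2 + B * a.valMinAbs * b + C * b ^ 2 ≠ N then |wt s a| else 0 := by
  unfold fs
  rw [Finset.mul_sum]
  refine Finset.sum_congr rfl fun a _ => ?_
  rw [wt_abs, mul_ite, mul_zero]

theorem fs_nonneg (A B C N b : ℤ) (s : ℕ) : 0 ≤ fs A B C N b s := by
  rw [fs_eq]
  refine Finset.sum_nonneg fun a _ => ?_
  split_ifs
  · exact abs_nonneg _
  · exact le_refl _

/-- the part with small second coordinate -/
theorem smallB (A B C N : ℤ) (K s : ℕ) :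
    ∑ a : ZMod (2 ^ s), ∑ b : ZMod (2 ^ s),
      (if 2 * ((A : ZMod (2 ^ s)) * a ^ 2 + B * a * b + C * b ^ 2 - N) = 0 ∧
          (|b.valMinAbs| ≤ (K : ℤ) ∧
            A * a.valMinAbs ^ 2 + B * a.valMinAbs * b.valMinAbs + C * b.valMinAbs ^ 2 ≠ N)
        then |wt s a| else 0) ≤ ∑ b ∈ Finset.Icc (-(K : ℤ)) K, fs A B C N b s := by
  classical
  rw [Finset.sum_comm]
  have h1 : ∀ b : ZMod (2 ^ s), ∑ a : ZMod (2 ^ s),
      (if 2 * ((A : ZMod (2 ^ s)) * a ^ 2 + B * a * b + C * b ^ 2 - N) = 0 ∧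
          (|b.valMinAbs| ≤ (K : ℤ) ∧
            A * a.valMinAbs ^ 2 + B * a.valMinAbs * b.valMinAbs + C * b.valMinAbs ^ 2 ≠ N)
        then |wt s a| else 0) =
      if |b.valMinAbs| ≤ (K : ℤ) then fs A B C N b.valMinAbs s else 0 := by
    intro b
    by_cases hb : |b.valMinAbs| ≤ (K : ℤ)
    · rw [if_pos hb, fs_eq]
      refine Finset.sum_congr rfl fun a _ => ?_
      refine if_congr ?_ rfl rfl
      rw [ZMod.coe_valMinAbs]
      simp only [hb, true_and]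
    · rw [if_neg hb]
      refine Finset.sum_eq_zero fun a _ => ?_
      rw [if_neg]
      rintro ⟨_, h, _⟩
      exact hb h
  rw [Finset.sum_congr rfl fun b _ => h1 b, ← Finset.sum_filter]
  have h2 : ∑ b ∈ (Finset.univ : Finset (ZMod (2 ^ s))).filter
        (fun b => |b.valMinAbs| ≤ (K : ℤ)), fs A B C N b.valMinAbs s =
      ∑ m ∈ ((Finset.univ : Finset (ZMod (2 ^ s))).filter
        (fun b => |b.valMinAbs| ≤ (K : ℤ))).image ZMod.valMinAbs, fs A B C N m s := by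
    rw [Finset.sum_image]
    intro x _ y _ hxy
    exact ZMod.injective_valMinAbs hxy
  rw [h2]
  refine Finset.sum_le_sum_of_subset_of_nonneg ?_ fun m _ _ => fs_nonneg _ _ _ _ _ _
  intro m hm
  rw [Finset.mem_image] at hm
  obtain ⟨b, hb, rfl⟩ := hm
  rw [Finset.mem_Icc]
  exact abs_le.1 (Finset.mem_filter.1 hb).2

theorem smallA (A B C N : ℤ) (K s : ℕ) :
    ∑ a : ZMod (2 ^ s), ∑ b : ZMod (2 ^ s),
      (if 2 * ((A : ZMod (2 ^ s)) * a ^ 2 + B * a * b + C * b ^ 2 - N) = 0 ∧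
          (|a.valMinAbs| ≤ (K : ℤ) ∧
            A * a.valMinAbs ^ 2 + B * a.valMinAbs * b.valMinAbs + C * b.valMinAbs ^ 2 ≠ N)
        then |wt s b| else 0) ≤ ∑ b ∈ Finset.Icc (-(K : ℤ)) K, fs C B A N b s := by
  refine le_trans (le_of_eq ?_) (smallB C B A N K s)
  rw [Finset.sum_comm]
  refine Finset.sum_congr rfl fun a _ => Finset.sum_congr rfl fun b _ => ?_
  refine if_congr ?_ rfl rfl
  have e1 : (A : ZMod (2 ^ s)) * b ^ 2 + B * b * a + C * a ^ 2 =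
    (C : ZMod (2 ^ s)) * a ^ 2 + B * a * b + A * b ^ 2 := by ring
  have e2 : A * b.valMinAbs ^ 2 + B * b.valMinAbs * a.valMinAbs + C * a.valMinAbs ^ 2 =
    C * a.valMinAbs ^ 2 + B * a.valMinAbs * b.valMinAbs + A * b.valMinAbs ^ 2 := by ring
  rw [e1, e2]

/-- the part with large first coordinate -/
theorem bigA (h1 : MULT_Stmt) (h2 : TAILA_Stmt) (A B C N : ℤ) (hA : Odd A) (hB : Odd B)
    (hC : Odd C) (hN : Odd N) : ∃ c : ℝ, ∀ K : ℕ, 1 ≤ K → |4 * (C * N)| ≤ K → ∀ s : ℕ,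
    ∑ a : ZMod (2 ^ s), ∑ b : ZMod (2 ^ s),
      (if 2 * ((A : ZMod (2 ^ s)) * a ^ 2 + B * a * b + C * b ^ 2 - N) = 0 ∧
          (K : ℤ) < |a.valMinAbs| then 1 / (a.valMinAbs : ℝ) ^ 2 else 0) ≤ c / K := by
  classical
  have hD : Odd (B ^ 2 - 4 * A * C) :=
    (hB.pow).sub_even ⟨2 * A * C, by ring⟩
  have hCN : Odd (C * N) := hC.mul hN
  obtain ⟨c, hc⟩ := h2 (B ^ 2 - 4 * A * C) (C * N) hD hCN
  refine ⟨4 * c, fun K hK hKN s => ?_⟩
  have hM : ∀ a : ℤ, (K : ℤ) < |a| → (B ^ 2 - 4 * A * C) * a ^ 2 + 4 * (C * N) ≠ 0 := by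
    intro a ha h
    have h3 : 1 ≤ |B ^ 2 - 4 * A * C| := Int.one_le_abs (by
      rintro h0
      rw [h0] at hD
      exact absurd hD (by decide))
    have h4 : |B ^ 2 - 4 * A * C| * a ^ 2 = |4 * (C * N)| := by
      have h5 : (B ^ 2 - 4 * A * C) * a ^ 2 = -(4 * (C * N)) := by linarith
      rw [← abs_neg (4 * (C * N)), ← h5, abs_mul, abs_of_nonneg (sq_nonneg a)]
    have h6 : a ^ 2 = |a| ^ 2 := (sq_abs a).symm
    have h7 : (1 : ℤ) ≤ K := by exact_mod_cast hK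
    have h8 : a ^ 2 ≤ |B ^ 2 - 4 * A * C| * a ^ 2 := by nlinarith [sq_nonneg a]
    nlinarith
  have inner : ∀ a : ZMod (2 ^ s), ∑ b : ZMod (2 ^ s),
      (if 2 * ((A : ZMod (2 ^ s)) * a ^ 2 + B * a * b + C * b ^ 2 - N) = 0 ∧
          (K : ℤ) < |a.valMinAbs| then 1 / (a.valMinAbs : ℝ) ^ 2 else 0) ≤
      if (K : ℤ) < |a.valMinAbs| then 4 * ((2 : ℝ) ^ (padicValInt 2
        ((B ^ 2 - 4 * A * C) * a.valMinAbs ^ 2 + 4 * (C * N)) / 2) / (a.valMinAbs : ℝ) ^ 2)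
        else 0 := by
    intro a
    by_cases ha : (K : ℤ) < |a.valMinAbs|
    · rw [if_pos ha]
      have h3 := h1 s A B C N a.valMinAbs hA hB hC hN (hM _ ha)
      rw [Nat.card_eq_fintype_card, Fintype.card_subtype, ZMod.coe_valMinAbs] at h3
      have h4 : ∑ b : ZMod (2 ^ s),
          (if 2 * ((A : ZMod (2 ^ s)) * a ^ 2 + B * a * b + C * b ^ 2 - N) = 0 ∧
              (K : ℤ) < |a.valMinAbs| then 1 / (a.valMinAbs : ℝ) ^ 2 else 0) =
          ((Finset.univ.filter fun b : ZMod (2 ^ s) =>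
            2 * ((A : ZMod (2 ^ s)) * a ^ 2 + B * a * b + C * b ^ 2 - N) = 0).card : ℝ) *
              (1 / (a.valMinAbs : ℝ) ^ 2) := by
        simp only [ha, and_true]
        rw [← Finset.sum_filter, Finset.sum_const, nsmul_eq_mul]
      rw [h4]
      have h5 : ((Finset.univ.filter fun b : ZMod (2 ^ s) =>
            2 * ((A : ZMod (2 ^ s)) * a ^ 2 + B * a * b + C * b ^ 2 - N) = 0).card : ℝ) ≤
          4 * (2 : ℝ) ^ (padicValInt 2
            ((B ^ 2 - 4 * A * C) * a.valMinAbs ^ 2 + 4 * (C * N)) / 2) := by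
        exact_mod_cast h3
      calc _ ≤ 4 * (2 : ℝ) ^ (padicValInt 2
            ((B ^ 2 - 4 * A * C) * a.valMinAbs ^ 2 + 4 * (C * N)) / 2) *
              (1 / (a.valMinAbs : ℝ) ^ 2) := mul_le_mul_of_nonneg_right h5 (by positivity)
        _ = _ := by ring
    · rw [if_neg ha]
      refine le_of_eq (Finset.sum_eq_zero fun b _ => ?_)
      rw [if_neg]
      rintro ⟨_, h⟩
      exact ha h
  refine (Finset.sum_le_sum fun a _ => inner a).trans ?_
  rw [← Finset.sum_filter]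
  have h5 : ∑ a ∈ (Finset.univ : Finset (ZMod (2 ^ s))).filter
        (fun a => (K : ℤ) < |a.valMinAbs|), 4 * ((2 : ℝ) ^ (padicValInt 2
          ((B ^ 2 - 4 * A * C) * a.valMinAbs ^ 2 + 4 * (C * N)) / 2) / (a.valMinAbs : ℝ) ^ 2) =
      4 * ∑ m ∈ ((Finset.univ : Finset (ZMod (2 ^ s))).filter
        (fun a => (K : ℤ) < |a.valMinAbs|)).image ZMod.valMinAbs, (2 : ℝ) ^ (padicValInt 2
          ((B ^ 2 - 4 * A * C) * m ^ 2 + 4 * (C * N)) / 2) / (m : ℝ) ^ 2 := by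
    rw [Finset.sum_image, Finset.mul_sum]
    intro x _ y _ hxy
    exact ZMod.injective_valMinAbs hxy
  rw [h5]
  have h6 := hc K hK (((Finset.univ : Finset (ZMod (2 ^ s))).filter
        (fun a => (K : ℤ) < |a.valMinAbs|)).image ZMod.valMinAbs) (by
    intro m hm
    rw [Finset.mem_image] at hm
    obtain ⟨a, ha, rfl⟩ := hm
    have h7 := (Finset.mem_filter.1 ha).2
    exact ⟨h7, hM _ h7⟩)
  rw [mul_div_assoc]
  linarith

theorem bigB (h1 : MULT_Stmt) (h2 : TAILA_Stmt) (A B C N : ℤ) (hA : Odd A) (hB : Odd B)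
    (hC : Odd C) (hN : Odd N) : ∃ c : ℝ, ∀ K : ℕ, 1 ≤ K → |4 * (A * N)| ≤ K → ∀ s : ℕ,
    ∑ a : ZMod (2 ^ s), ∑ b : ZMod (2 ^ s),
      (if 2 * ((A : ZMod (2 ^ s)) * a ^ 2 + B * a * b + C * b ^ 2 - N) = 0 ∧
          (K : ℤ) < |b.valMinAbs| then 1 / (b.valMinAbs : ℝ) ^ 2 else 0) ≤ c / K := by
  obtain ⟨c, hc⟩ := bigA h1 h2 C B A N hC hB hA hN
  refine ⟨c, fun K hK hKN s => ?_⟩
  refine le_trans (le_of_eq ?_) (hc K hK hKN s)
  rw [Finset.sum_comm]
  refine Finset.sum_congr rfl fun a _ => Finset.sum_congr rfl fun b _ => ?_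
  have e1 : (A : ZMod (2 ^ s)) * b ^ 2 + B * b * a + C * a ^ 2 =
    (C : ZMod (2 ^ s)) * a ^ 2 + B * a * b + A * b ^ 2 := by ring
  rw [e1]

theorem amgm (x y : ℝ) : |1 / (x * y)| ≤ (1 / 2) * (1 / x ^ 2) + (1 / 2) * (1 / y ^ 2) := by
  have h1 : |1 / (x * y)| = |1 / x| * |1 / y| := by
    rw [← one_div_mul_one_div, abs_mul]
  have h2 : 1 / x ^ 2 = |1 / x| ^ 2 := by rw [sq_abs, div_pow, one_pow]
  have h3 : 1 / y ^ 2 = |1 / y| ^ 2 := by rw [sq_abs, div_pow, one_pow]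
  rw [h1, h2, h3]
  nlinarith [sq_nonneg (|1 / x| - |1 / y|)]

/-- the error bound -/
theorem main (h1 : MULT_Stmt) (h2 : TAILA_Stmt) (A B C N : ℤ) (hA : Odd A) (hB : Odd B)
    (hC : Odd C) (hN : Odd N) : ∃ c : ℝ, ∀ K : ℕ, 1 ≤ K → |4 * (C * N)| ≤ K →
    |4 * (A * N)| ≤ K → ∀ s : ℕ, ∀ (P : ZMod (2 ^ s) → ZMod (2 ^ s) → Prop)
      [∀ a b, Decidable (P a b)],
    (∀ a b, P a b → 2 * ((A : ZMod (2 ^ s)) * a ^ 2 + B * a * b + C * b ^ 2 - N) = 0) →
    |∑ a : ZMod (2 ^ s), ∑ b : ZMod (2 ^ s), (if P a b then wt s a * wt s b else 0) -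
      ∑ a : ZMod (2 ^ s), ∑ b : ZMod (2 ^ s),
        (if P a b ∧ ((|a.valMinAbs| ≤ (K : ℤ) ∨ |b.valMinAbs| ≤ (K : ℤ)) ∧
            A * a.valMinAbs ^ 2 + B * a.valMinAbs * b.valMinAbs + C * b.valMinAbs ^ 2 = N)
          then wt s a * wt s b else 0)| ≤
      c / K + (∑ b ∈ Finset.Icc (-(K : ℤ)) K, fs A B C N b s +
        ∑ b ∈ Finset.Icc (-(K : ℤ)) K, fs C B A N b s) := by
  classical
  obtain ⟨c1, hc1⟩ := bigA h1 h2 A B C N hA hB hC hN
  obtain ⟨c2, hc2⟩ := bigB h1 h2 A B C N hA hB hC hN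
  refine ⟨(c1 + c2) / 2, fun K hK hK1 hK2 s P _ hP => ?_⟩
  have b1 := hc1 K hK hK1 s
  have b2 := hc2 K hK hK2 s
  have b3 := smallB A B C N K s
  have b4 := smallA A B C N K s
  have hpt : ∀ a b : ZMod (2 ^ s),
      |(if P a b then wt s a * wt s b else 0) -
        (if P a b ∧ ((|a.valMinAbs| ≤ (K : ℤ) ∨ |b.valMinAbs| ≤ (K : ℤ)) ∧
            A * a.valMinAbs ^ 2 + B * a.valMinAbs * b.valMinAbs + C * b.valMinAbs ^ 2 = N)
          then wt s a * wt s b else 0)| ≤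
      (1 / 2) * (if 2 * ((A : ZMod (2 ^ s)) * a ^ 2 + B * a * b + C * b ^ 2 - N) = 0 ∧
          (K : ℤ) < |a.valMinAbs| then 1 / (a.valMinAbs : ℝ) ^ 2 else 0) +
      (1 / 2) * (if 2 * ((A : ZMod (2 ^ s)) * a ^ 2 + B * a * b + C * b ^ 2 - N) = 0 ∧
          (K : ℤ) < |b.valMinAbs| then 1 / (b.valMinAbs : ℝ) ^ 2 else 0) +
      (if 2 * ((A : ZMod (2 ^ s)) * a ^ 2 + B * a * b + C * b ^ 2 - N) = 0 ∧
          (|b.valMinAbs| ≤ (K : ℤ) ∧
            A * a.valMinAbs ^ 2 + B * a.valMinAbs * b.valMinAbs + C * b.valMinAbs ^ 2 ≠ N)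
        then |wt s a| else 0) +
      (if 2 * ((A : ZMod (2 ^ s)) * a ^ 2 + B * a * b + C * b ^ 2 - N) = 0 ∧
          (|a.valMinAbs| ≤ (K : ℤ) ∧
            A * a.valMinAbs ^ 2 + B * a.valMinAbs * b.valMinAbs + C * b.valMinAbs ^ 2 ≠ N)
        then |wt s b| else 0) := by
    intro a b
    have n1 : 0 ≤ (1 / 2) * (if 2 * ((A : ZMod (2 ^ s)) * a ^ 2 + B * a * b + C * b ^ 2 - N) = 0 ∧
          (K : ℤ) < |a.valMinAbs| then 1 / (a.valMinAbs : ℝ) ^ 2 else 0) := by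
      split_ifs <;> positivity
    have n2 : 0 ≤ (1 / 2) * (if 2 * ((A : ZMod (2 ^ s)) * a ^ 2 + B * a * b + C * b ^ 2 - N) = 0 ∧
          (K : ℤ) < |b.valMinAbs| then 1 / (b.valMinAbs : ℝ) ^ 2 else 0) := by
      split_ifs <;> positivity
    have n3 : 0 ≤ (if 2 * ((A : ZMod (2 ^ s)) * a ^ 2 + B * a * b + C * b ^ 2 - N) = 0 ∧
          (|b.valMinAbs| ≤ (K : ℤ) ∧
            A * a.valMinAbs ^ 2 + B * a.valMinAbs * b.valMinAbs + C * b.valMinAbs ^ 2 ≠ N)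
        then |wt s a| else 0) := by
      split_ifs <;> positivity
    have n4 : 0 ≤ (if 2 * ((A : ZMod (2 ^ s)) * a ^ 2 + B * a * b + C * b ^ 2 - N) = 0 ∧
          (|a.valMinAbs| ≤ (K : ℤ) ∧
            A * a.valMinAbs ^ 2 + B * a.valMinAbs * b.valMinAbs + C * b.valMinAbs ^ 2 ≠ N)
        then |wt s b| else 0) := by
      split_ifs <;> positivity
    by_cases hPab : P a b
    swap
    · rw [if_neg hPab, if_neg (fun h => hPab h.1), sub_zero, abs_zero]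
      linarith
    have hE := hP a b hPab
    rw [if_pos hPab]
    by_cases hg : (|a.valMinAbs| ≤ (K : ℤ) ∨ |b.valMinAbs| ≤ (K : ℤ)) ∧
            A * a.valMinAbs ^ 2 + B * a.valMinAbs * b.valMinAbs + C * b.valMinAbs ^ 2 = N
    · rw [if_pos ⟨hPab, hg⟩, sub_self, abs_zero]
      linarith
    rw [if_neg (fun h => hg h.2), sub_zero, abs_mul]
    by_cases ha : |a.valMinAbs| ≤ (K : ℤ)
    · have hn : A * a.valMinAbs ^ 2 + B * a.valMinAbs * b.valMinAbs + C * b.valMinAbs ^ 2 ≠ N :=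
        fun h => hg ⟨Or.inl ha, h⟩
      rw [if_pos (show 2 * ((A : ZMod (2 ^ s)) * a ^ 2 + B * a * b + C * b ^ 2 - N) = 0 ∧
          (|a.valMinAbs| ≤ (K : ℤ) ∧
            A * a.valMinAbs ^ 2 + B * a.valMinAbs * b.valMinAbs + C * b.valMinAbs ^ 2 ≠ N) from
            ⟨hE, ha, hn⟩)]
      have h5 : |wt s a| * |wt s b| ≤ 1 * |wt s b| :=
        mul_le_mul_of_nonneg_right (wt_le_one s a) (abs_nonneg _)
      linarith
    by_cases hb : |b.valMinAbs| ≤ (K : ℤ)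
    · have hn : A * a.valMinAbs ^ 2 + B * a.valMinAbs * b.valMinAbs + C * b.valMinAbs ^ 2 ≠ N :=
        fun h => hg ⟨Or.inr hb, h⟩
      rw [if_pos (show 2 * ((A : ZMod (2 ^ s)) * a ^ 2 + B * a * b + C * b ^ 2 - N) = 0 ∧
          (|b.valMinAbs| ≤ (K : ℤ) ∧
            A * a.valMinAbs ^ 2 + B * a.valMinAbs * b.valMinAbs + C * b.valMinAbs ^ 2 ≠ N) from
            ⟨hE, hb, hn⟩)]
      have h5 : |wt s a| * |wt s b| ≤ |wt s a| * 1 :=
        mul_le_mul_of_nonneg_left (wt_le_one s b) (abs_nonneg _)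
      linarith
    push Not at ha hb
    rw [if_pos (show 2 * ((A : ZMod (2 ^ s)) * a ^ 2 + B * a * b + C * b ^ 2 - N) = 0 ∧
          (K : ℤ) < |a.valMinAbs| from ⟨hE, ha⟩),
      if_pos (show 2 * ((A : ZMod (2 ^ s)) * a ^ 2 + B * a * b + C * b ^ 2 - N) = 0 ∧
          (K : ℤ) < |b.valMinAbs| from ⟨hE, hb⟩)]
    have ha0 : a.valMinAbs ≠ 0 := by
      rintro h
      rw [h, abs_zero] at ha
      omega
    have hb0 : b.valMinAbs ≠ 0 := by
      rintro h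
      rw [h, abs_zero] at hb
      omega
    have h5 : |wt s a| * |wt s b| ≤ (1 / |(a.valMinAbs : ℝ)|) * (1 / |(b.valMinAbs : ℝ)|) :=
      mul_le_mul (wt_le s a ha0) (wt_le s b hb0) (abs_nonneg _) (by positivity)
    have h6 := amgm (a.valMinAbs : ℝ) (b.valMinAbs : ℝ)
    have h7 : |1 / ((a.valMinAbs : ℝ) * (b.valMinAbs : ℝ))| =
        (1 / |(a.valMinAbs : ℝ)|) * (1 / |(b.valMinAbs : ℝ)|) := by
      rw [abs_div, abs_one, abs_mul, one_div_mul_one_div]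
    rw [h7] at h6
    linarith
  rw [← Finset.sum_sub_distrib]
  have e1 : ∀ a : ZMod (2 ^ s), ∑ b : ZMod (2 ^ s), (if P a b then wt s a * wt s b else 0) -
      ∑ b : ZMod (2 ^ s),
        (if P a b ∧ ((|a.valMinAbs| ≤ (K : ℤ) ∨ |b.valMinAbs| ≤ (K : ℤ)) ∧
            A * a.valMinAbs ^ 2 + B * a.valMinAbs * b.valMinAbs + C * b.valMinAbs ^ 2 = N)
          then wt s a * wt s b else 0) = ∑ b : ZMod (2 ^ s),
      ((if P a b then wt s a * wt s b else 0) -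
        (if P a b ∧ ((|a.valMinAbs| ≤ (K : ℤ) ∨ |b.valMinAbs| ≤ (K : ℤ)) ∧
            A * a.valMinAbs ^ 2 + B * a.valMinAbs * b.valMinAbs + C * b.valMinAbs ^ 2 = N)
          then wt s a * wt s b else 0)) := fun a => (Finset.sum_sub_distrib _ _).symm
  rw [Finset.sum_congr rfl fun a _ => e1 a]
  refine (Finset.abs_sum_le_sum_abs _ _).trans ?_
  refine (Finset.sum_le_sum fun a _ => Finset.abs_sum_le_sum_abs _ _).trans ?_
  refine (Finset.sum_le_sum fun a _ => Finset.sum_le_sum fun b _ => hpt a b).trans ?_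
  simp only [Finset.sum_add_distrib, ← Finset.mul_sum]
  have e3 : (c1 + c2) / 2 / K = (1 / 2) * (c1 / K) + (1 / 2) * (c2 / K) := by ring
  rw [e3]
  linarith

/-! ### integral solutions -/

theorem bound_right {A B C N : ℤ} (hC : C ≠ 0) (hN : N ≠ 0) {K : ℤ} (hK : 0 ≤ K) {a b : ℤ}
    (h : A * a ^ 2 + B * a * b + C * b ^ 2 = N) (ha : |a| ≤ K) :
    |b| ≤ |B| * K + |A| * K ^ 2 + |N| := by
  by_contra hlt
  push Not at hlt
  have h1 : C * b ^ 2 = N - A * a ^ 2 - B * a * b := by linarith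
  have h2 : |C| * b ^ 2 = |N - A * a ^ 2 - B * a * b| := by
    rw [← h1, abs_mul, abs_of_nonneg (sq_nonneg b)]
  have h3 : |N - A * a ^ 2 - B * a * b| ≤ |N| + |A| * a ^ 2 + |B| * |a| * |b| := by
    have e1 := abs_sub (N - A * a ^ 2) (B * a * b)
    have e2 := abs_sub N (A * a ^ 2)
    have e3 : |A * a ^ 2| = |A| * a ^ 2 := by rw [abs_mul, abs_of_nonneg (sq_nonneg a)]
    have e4 : |B * a * b| = |B| * |a| * |b| := by rw [abs_mul, abs_mul]
    rw [e3] at e2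
    rw [e4] at e1
    linarith
  have h4 : 1 ≤ |C| := Int.one_le_abs hC
  have h5 : 1 ≤ |N| := Int.one_le_abs hN
  have h6 : b ^ 2 = |b| ^ 2 := (sq_abs b).symm
  have h7 : a ^ 2 ≤ K ^ 2 := by
    rw [← sq_abs a]
    exact pow_le_pow_left₀ (abs_nonneg _) ha 2
  have h8 : |A| * a ^ 2 ≤ |A| * K ^ 2 := mul_le_mul_of_nonneg_left h7 (abs_nonneg _)
  have h9 : |B| * |a| * |b| ≤ |B| * K * |b| :=
    mul_le_mul_of_nonneg_right (mul_le_mul_of_nonneg_left ha (abs_nonneg _)) (abs_nonneg _)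
  have h10 : b ^ 2 ≤ |C| * b ^ 2 := by nlinarith [sq_nonneg b]
  have h11 : 0 ≤ |B| * K := mul_nonneg (abs_nonneg _) hK
  have h12 : 0 ≤ |A| * K ^ 2 := by positivity
  have h13 : 1 ≤ |b| := by linarith
  nlinarith [mul_le_mul_of_nonneg_left h13 (by linarith : 0 ≤ |A| * K ^ 2 + |N|)]

/-- the size of the solutions with a small coordinate -/
noncomputable def LL (A B C N : ℤ) (K : ℕ) : ℤ := |B| * K + (|A| + |C|) * K ^ 2 + |N|

/-- the solutions with a small coordinate -/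
noncomputable def ZK (A B C N : ℤ) (K : ℕ) : Finset (ℤ × ℤ) :=
  ((Finset.Icc (-LL A B C N K) (LL A B C N K)) ×ˢ
    (Finset.Icc (-LL A B C N K) (LL A B C N K))).filter fun p =>
      A * p.1 ^ 2 + B * p.1 * p.2 + C * p.2 ^ 2 = N ∧ (|p.1| ≤ (K : ℤ) ∨ |p.2| ≤ (K : ℤ))

theorem mem_ZK {A B C N : ℤ} (hA : Odd A) (hB : Odd B) (hC : Odd C) (hN : Odd N) (K : ℕ)
    (p : ℤ × ℤ) : p ∈ ZK A B C N K ↔
      A * p.1 ^ 2 + B * p.1 * p.2 + C * p.2 ^ 2 = N ∧ (|p.1| ≤ (K : ℤ) ∨ |p.2| ≤ (K : ℤ)) := by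
  have hne : ∀ {X : ℤ}, Odd X → X ≠ 0 := by
    rintro X hX rfl
    exact absurd hX (by decide)
  unfold ZK
  rw [Finset.mem_filter, Finset.mem_product, Finset.mem_Icc, Finset.mem_Icc]
  constructor
  · exact fun h => h.2
  · rintro ⟨h, hs⟩
    refine ⟨?_, h, hs⟩
    rw [← abs_le, ← abs_le]
    have hK0 : (0 : ℤ) ≤ K := by positivity
    have hB1 : 1 ≤ |B| := Int.one_le_abs (hne hB)
    have hKL : (K : ℤ) ≤ |B| * K := by nlinarith
    have hA0 : 0 ≤ |A| * (K : ℤ) ^ 2 := by positivity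
    have hC0 : 0 ≤ |C| * (K : ℤ) ^ 2 := by positivity
    have hN0 : 0 ≤ |N| := abs_nonneg _
    have hLe : LL A B C N K = |B| * K + |A| * (K : ℤ) ^ 2 + |C| * (K : ℤ) ^ 2 + |N| := by
      unfold LL; ring
    rcases hs with hs | hs
    · have h1 := bound_right (hne hC) (hne hN) hK0 h hs
      constructor <;> rw [hLe] <;> linarith
    · have h' : C * p.2 ^ 2 + B * p.2 * p.1 + A * p.1 ^ 2 = N := by linarith
      have h1 := bound_right (hne hA) (hne hN) hK0 h' hs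
      constructor <;> rw [hLe] <;> linarith

theorem sum_eq_ZK {A B C N : ℤ} (hA : Odd A) (hB : Odd B) (hC : Odd C) (hN : Odd N) (K s : ℕ)
    (hs : 2 * LL A B C N K < 2 ^ s) :
    ∑ a : ZMod (2 ^ s), ∑ b : ZMod (2 ^ s),
        (if (A : ZMod (2 ^ s)) * a ^ 2 + B * a * b + C * b ^ 2 = N ∧
          ((|a.valMinAbs| ≤ (K : ℤ) ∨ |b.valMinAbs| ≤ (K : ℤ)) ∧
            A * a.valMinAbs ^ 2 + B * a.valMinAbs * b.valMinAbs + C * b.valMinAbs ^ 2 = N)
          then wt s a * wt s b else 0) = ∑ p ∈ ZK A B C N K, w s p.1 * w s p.2 := by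
  classical
  have hsmall : ∀ p ∈ ZK A B C N K, ((p.1 : ℤ) : ZMod (2 ^ s)).valMinAbs = p.1 ∧
      ((p.2 : ℤ) : ZMod (2 ^ s)).valMinAbs = p.2 := by
    intro p hp
    unfold ZK at hp
    rw [Finset.mem_filter, Finset.mem_product, Finset.mem_Icc, Finset.mem_Icc, ← abs_le,
      ← abs_le] at hp
    exact ⟨val_of_small (by linarith [hp.1.1]), val_of_small (by linarith [hp.1.2])⟩
  rw [← Fintype.sum_prod_type' (f := fun a b : ZMod (2 ^ s) =>
      (if (A : ZMod (2 ^ s)) * a ^ 2 + B * a * b + C * b ^ 2 = N ∧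
          ((|a.valMinAbs| ≤ (K : ℤ) ∨ |b.valMinAbs| ≤ (K : ℤ)) ∧
            A * a.valMinAbs ^ 2 + B * a.valMinAbs * b.valMinAbs + C * b.valMinAbs ^ 2 = N)
          then wt s a * wt s b else 0)), ← Finset.sum_filter]
  refine Finset.sum_nbij' (i := fun e : ZMod (2 ^ s) × ZMod (2 ^ s) =>
    (e.1.valMinAbs, e.2.valMinAbs)) (j := fun p : ℤ × ℤ =>
      ((p.1 : ZMod (2 ^ s)), (p.2 : ZMod (2 ^ s)))) ?_ ?_ ?_ ?_ ?_
  · intro e he
    rw [Finset.mem_filter] at he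
    rw [mem_ZK hA hB hC hN]
    exact ⟨he.2.2.2, he.2.2.1⟩
  · intro p hp
    have h1 := hsmall p hp
    have h2 := (mem_ZK hA hB hC hN K p).1 hp
    rw [Finset.mem_filter]
    refine ⟨Finset.mem_univ _, ?_, ?_, ?_⟩
    · have h3 := congrArg (fun z : ℤ => (z : ZMod (2 ^ s))) h2.1
      push_cast at h3
      exact h3
    · show |((p.1 : ℤ) : ZMod (2 ^ s)).valMinAbs| ≤ (K : ℤ) ∨
        |((p.2 : ℤ) : ZMod (2 ^ s)).valMinAbs| ≤ (K : ℤ)
      rw [h1.1, h1.2]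
      exact h2.2
    · show A * ((p.1 : ℤ) : ZMod (2 ^ s)).valMinAbs ^ 2 +
        B * ((p.1 : ℤ) : ZMod (2 ^ s)).valMinAbs * ((p.2 : ℤ) : ZMod (2 ^ s)).valMinAbs +
          C * ((p.2 : ℤ) : ZMod (2 ^ s)).valMinAbs ^ 2 = N
      rw [h1.1, h1.2]
      exact h2.1
  · intro e _
    simp only [ZMod.coe_valMinAbs]
  · intro p hp
    have h1 := hsmall p hp
    simp only [h1.1, h1.2]
  · intro e _
    rfl

/-! ### summability -/

theorem sum_fst {A B C N : ℤ} (hC : C ≠ 0) (u : Finset (ℤ × ℤ))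
    (hu : ∀ p ∈ u, A * p.1 ^ 2 + B * p.1 * p.2 + C * p.2 ^ 2 = N) :
    ∑ p ∈ u, 1 / (p.1 : ℝ) ^ 2 ≤ 8 := by
  classical
  have key : ∀ v : Finset (ℤ × ℤ), Set.InjOn Prod.fst (v : Set (ℤ × ℤ)) →
      ∑ p ∈ v, 1 / (p.1 : ℝ) ^ 2 ≤ 4 := by
    intro v hv
    have h1 : ∑ p ∈ v, 1 / (p.1 : ℝ) ^ 2 = ∑ m ∈ v.image Prod.fst, 1 / (m : ℝ) ^ 2 := by
      rw [Finset.sum_image hv]
    have h2 : ∑ m ∈ v.image Prod.fst, 1 / (m : ℝ) ^ 2 =
        ∑ m ∈ (v.image Prod.fst).filter (fun m => m ≠ 0), 1 / (m : ℝ) ^ 2 := by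
      rw [Finset.sum_filter]
      refine Finset.sum_congr rfl fun m _ => ?_
      by_cases hm : m = 0
      · rw [if_neg (not_not.2 hm), hm]
        simp
      · rw [if_pos hm]
    have h3 := sum_inv_sq 0 ((v.image Prod.fst).filter (fun m => m ≠ 0)) (by
      intro m hm
      have := (Finset.mem_filter.1 hm).2
      exact_mod_cast abs_pos.2 this)
    rw [h1, h2]
    simpa using h3
  have hsq : ∀ p ∈ u, (2 * C * p.2 + B * p.1) ^ 2 = (B ^ 2 - 4 * A * C) * p.1 ^ 2 + 4 * C * N := by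
    intro p hp
    rw [← hu p hp]
    ring
  have i1 : Set.InjOn Prod.fst ((u.filter fun p => 0 ≤ 2 * C * p.2 + B * p.1 : Finset (ℤ × ℤ)) :
      Set (ℤ × ℤ)) := by
    intro p hp r hr hpr
    rw [Finset.mem_coe, Finset.mem_filter] at hp hr
    have h1 := hsq p hp.1
    have h2 := hsq r hr.1
    rw [← hpr, ← h1] at h2
    have h3 : 2 * C * r.2 + B * p.1 = 2 * C * p.2 + B * p.1 := by
      refine (pow_left_inj₀ ?_ hp.2 two_ne_zero).1 h2
      rw [hpr]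
      exact hr.2
    have h4 : C * (r.2 - p.2) = 0 := by linarith
    rcases mul_eq_zero.1 h4 with h5 | h5
    · exact absurd h5 hC
    · exact Prod.ext hpr (by linarith)
  have i2 : Set.InjOn Prod.fst ((u.filter fun p => ¬ 0 ≤ 2 * C * p.2 + B * p.1 : Finset (ℤ × ℤ)) :
      Set (ℤ × ℤ)) := by
    intro p hp r hr hpr
    rw [Finset.mem_coe, Finset.mem_filter] at hp hr
    have h1 := hsq p hp.1
    have h2 := hsq r hr.1
    rw [← hpr, ← h1] at h2
    have hr2 := hr.2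
    rw [← hpr] at hr2
    have hp2 := hp.2
    have h3 : -(2 * C * r.2 + B * p.1) = -(2 * C * p.2 + B * p.1) := by
      refine (pow_left_inj₀ ?_ ?_ two_ne_zero).1 ?_
      · linarith
      · linarith
      · rw [neg_sq, neg_sq]; exact h2
    have h4 : C * (r.2 - p.2) = 0 := by linarith
    rcases mul_eq_zero.1 h4 with h5 | h5
    · exact absurd h5 hC
    · exact Prod.ext hpr (by linarith)
  rw [← Finset.sum_filter_add_sum_filter_not u (fun p => 0 ≤ 2 * C * p.2 + B * p.1)]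
  have := key _ i1
  have := key _ i2
  linarith

theorem sum_snd {A B C N : ℤ} (hA : A ≠ 0) (u : Finset (ℤ × ℤ))
    (hu : ∀ p ∈ u, A * p.1 ^ 2 + B * p.1 * p.2 + C * p.2 ^ 2 = N) :
    ∑ p ∈ u, 1 / (p.2 : ℝ) ^ 2 ≤ 8 := by
  classical
  have h1 := sum_fst (A := C) (B := B) (C := A) (N := N) hA (u.image Prod.swap) (by
    intro p hp
    rw [Finset.mem_image] at hp
    obtain ⟨r, hr, rfl⟩ := hp
    have := hu r hr
    show C * r.2 ^ 2 + B * r.2 * r.1 + A * r.1 ^ 2 = N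
    linarith)
  rw [Finset.sum_image Prod.swap_injective.injOn] at h1
  exact h1

theorem summ {A B C N : ℤ} (hA : A ≠ 0) (hC : C ≠ 0) :
    Summable (fun p : {p : ℤ × ℤ // A * p.1 ^ 2 + B * p.1 * p.2 + C * p.2 ^ 2 = N} =>
      (1 / ((p.1.1 : ℝ) * p.1.2) : ℝ)) := by
  classical
  refine Summable.of_abs (summable_of_sum_le (c := 8) (fun _ => abs_nonneg _) fun u => ?_)
  have h0 : ∀ p ∈ u.map (Function.Embedding.subtype _),
      A * p.1 ^ 2 + B * p.1 * p.2 + C * p.2 ^ 2 = N := by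
    intro p hp
    rw [Finset.mem_map] at hp
    obtain ⟨r, _, rfl⟩ := hp
    exact r.2
  have h1 := sum_fst hC _ h0
  have h2 := sum_snd hA _ h0
  rw [Finset.sum_map] at h1 h2
  calc ∑ p ∈ u, |1 / ((p.1.1 : ℝ) * p.1.2)| ≤
      ∑ p ∈ u, ((1 / 2) * (1 / (p.1.1 : ℝ) ^ 2) + (1 / 2) * (1 / (p.1.2 : ℝ) ^ 2)) :=
        Finset.sum_le_sum fun p _ => amgm _ _
    _ = (1 / 2) * ∑ p ∈ u, 1 / (p.1.1 : ℝ) ^ 2 + (1 / 2) * ∑ p ∈ u, 1 / (p.1.2 : ℝ) ^ 2 := by
        rw [Finset.sum_add_distrib, Finset.mul_sum, Finset.mul_sum]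
    _ ≤ (1 / 2) * 8 + (1 / 2) * 8 :=
        add_le_add (mul_le_mul_of_nonneg_left h1 (by norm_num))
          (mul_le_mul_of_nonneg_left h2 (by norm_num))
    _ = 8 := by norm_num

/-! ### the limits -/

theorem tendsto_err (h3 : FIX_Stmt) {A B C N : ℤ} (hA : Odd A) (hB : Odd B) (hC : Odd C)
    (hN : Odd N) (K : ℕ) : Tendsto (fun s : ℕ => ∑ b ∈ Finset.Icc (-(K : ℤ)) K, fs A B C N b s +
        ∑ b ∈ Finset.Icc (-(K : ℤ)) K, fs C B A N b s) atTop (𝓝 0) := by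
  have h1 : Tendsto (fun s : ℕ => ∑ b ∈ Finset.Icc (-(K : ℤ)) K, fs A B C N b s) atTop
      (𝓝 (∑ b ∈ Finset.Icc (-(K : ℤ)) K, (0 : ℝ))) :=
    tendsto_finsetSum _ fun b _ => h3 A B C N b hA hB hC hN
  have h2 : Tendsto (fun s : ℕ => ∑ b ∈ Finset.Icc (-(K : ℤ)) K, fs C B A N b s) atTop
      (𝓝 (∑ b ∈ Finset.Icc (-(K : ℤ)) K, (0 : ℝ))) :=
    tendsto_finsetSum _ fun b _ => h3 C B A N b hC hB hA hN
  have h4 := h1.add h2
  rwa [Finset.sum_const_zero, add_zero] at h4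

theorem toC {s : ℕ} (P : ZMod (2 ^ s) → ZMod (2 ^ s) → Prop) [∀ a b, Decidable (P a b)] :
    ((∑ a : ZMod (2 ^ s), ∑ b : ZMod (2 ^ s), (if P a b then wt s a * wt s b else 0) : ℝ) : ℂ) =
    ((π : ℂ) / 2 ^ s) ^ 2 * ∑ a : ZMod (2 ^ s), ∑ b : ZMod (2 ^ s),
        if P a b then ct (2 ^ s) a * ct (2 ^ s) b else 0 := by
  rw [Complex.ofReal_sum, Finset.mul_sum]
  refine Finset.sum_congr rfl fun a _ => ?_
  rw [Complex.ofReal_sum, Finset.mul_sum]
  refine Finset.sum_congr rfl fun b _ => ?_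
  by_cases h : P a b
  · rw [if_pos h, if_pos h]
    unfold wt
    rw [Complex.ofReal_mul, ← ct_eq, ← ct_eq]
    ring
  · rw [if_neg h, if_neg h, Complex.ofReal_zero, mul_zero]

/-- large `K` -/
theorem exists_K (A C N : ℤ) (c ε : ℝ) (hε : 0 < ε) (K0 : ℕ) : ∃ K : ℕ, K0 ≤ K ∧ 1 ≤ K ∧
    |4 * (C * N)| ≤ K ∧ |4 * (A * N)| ≤ K ∧ c / K < ε := by
  obtain ⟨K1, hK1⟩ := exists_nat_gt (c / ε)
  refine ⟨K0 + K1 + 1 + (4 * (C * N)).natAbs + (4 * (A * N)).natAbs, by omega, by omega, ?_, ?_, ?_⟩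
  · rw [Int.abs_eq_natAbs]
    push_cast
    have h1 : (0 : ℤ) ≤ K0 := by positivity
    have h2 : (0 : ℤ) ≤ K1 := by positivity
    have h3 : (0 : ℤ) ≤ |4 * (A * N)| := abs_nonneg _
    linarith
  · rw [Int.abs_eq_natAbs]
    push_cast
    have h1 : (0 : ℤ) ≤ K0 := by positivity
    have h2 : (0 : ℤ) ≤ K1 := by positivity
    have h3 : (0 : ℤ) ≤ |4 * (C * N)| := abs_nonneg _
    linarith
  · have h4 : (K1 : ℝ) < ((K0 + K1 + 1 + (4 * (C * N)).natAbs + (4 * (A * N)).natAbs : ℕ) : ℝ) := by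
      exact_mod_cast (by omega : K1 < K0 + K1 + 1 + (4 * (C * N)).natAbs + (4 * (A * N)).natAbs)
    have h5 : (0 : ℝ) ≤ K1 := by positivity
    rw [div_lt_iff₀ (by linarith)]
    rw [div_lt_iff₀ hε] at hK1
    nlinarith

end Pool.Agent.T3.LIM3

namespace Pool.Agent.T3

open Pool.Agent.TB Pool.Agent.TB.LIM LIM3

/-- The limit of the cot sums of one quadratic form with odd coefficients. -/
theorem lim3 (h1 : MULT_Stmt) (h2 : TAILA_Stmt) (h3 : FIX_Stmt) : LIM3_Stmt := by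
  classical
  intro A B C N hA hB hC hN
  have hne : ∀ {X : ℤ}, Odd X → X ≠ 0 := by
    rintro X hX rfl
    exact absurd hX (by decide)
  have hsum := summ (A := A) (B := B) (C := C) (N := N) (hne hA) (hne hC)
  have hC1 : (fun p : {p : ℤ × ℤ // A * p.1 ^ 2 + B * p.1 * p.2 + C * p.2 ^ 2 = N} =>
      (1 / ((p.1.1 : ℂ) * p.1.2) : ℂ)) =
      fun p => (((1 / ((p.1.1 : ℝ) * p.1.2) : ℝ)) : ℂ) := by
    funext p
    push_cast
    rfl
  obtain ⟨c, hc⟩ := main h1 h2 A B C N hA hB hC hN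
  refine ⟨?_, ?_, ?_⟩
  · rw [hC1]
    exact Complex.summable_ofReal.2 hsum
  · rw [hC1, ← Complex.ofReal_tsum]
    have hreal : Tendsto (fun s : ℕ => ∑ a : ZMod (2 ^ s), ∑ b : ZMod (2 ^ s),
        (if (A : ZMod (2 ^ s)) * a ^ 2 + B * a * b + C * b ^ 2 = N then
          wt s a * wt s b else 0)) atTop
        (𝓝 (∑' p : {p : ℤ × ℤ // A * p.1 ^ 2 + B * p.1 * p.2 + C * p.2 ^ 2 = N},
          1 / ((p.1.1 : ℝ) * p.1.2))) := by
      rw [Metric.tendsto_atTop]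
      intro ε hε
      have hs := hsum.hasSum
      rw [HasSum, SummationFilter.unconditional_filter, Metric.tendsto_atTop] at hs
      obtain ⟨F0, hF0⟩ := hs (ε / 4) (by positivity)
      obtain ⟨K, hK0, hK1, hK2, hK3, hK4⟩ := exists_K A C N c (ε / 4) (by positivity)
        (F0.sup fun p => p.1.1.natAbs)
      -- the finite set
      have hsub : F0 ⊆ (ZK A B C N K).subtype
          (fun p => A * p.1 ^ 2 + B * p.1 * p.2 + C * p.2 ^ 2 = N) := by
        intro p hp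
        rw [Finset.mem_subtype, mem_ZK hA hB hC hN]
        refine ⟨p.2, Or.inl ?_⟩
        have h4 := Finset.le_sup (f := fun p : {p : ℤ × ℤ //
          A * p.1 ^ 2 + B * p.1 * p.2 + C * p.2 ^ 2 = N} => p.1.1.natAbs) hp
        rw [Int.abs_eq_natAbs]
        exact_mod_cast h4.trans hK0
      have e1 := hF0 _ hsub
      have e2 : ∑ p ∈ (ZK A B C N K).subtype
          (fun p => A * p.1 ^ 2 + B * p.1 * p.2 + C * p.2 ^ 2 = N),
            (1 / ((p.1.1 : ℝ) * p.1.2)) = ∑ p ∈ ZK A B C N K, 1 / ((p.1 : ℝ) * p.2) := by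
        rw [Finset.sum_subtype_of_mem (f := fun p : ℤ × ℤ => 1 / ((p.1 : ℝ) * p.2))]
        intro p hp
        exact ((mem_ZK hA hB hC hN K p).1 hp).1
      rw [e2] at e1
      have hlim : Tendsto (fun s : ℕ => ∑ p ∈ ZK A B C N K, w s p.1 * w s p.2) atTop
          (𝓝 (∑ p ∈ ZK A B C N K, 1 / ((p.1 : ℝ) * p.2))) := by
        refine tendsto_finsetSum _ fun p _ => ?_
        have := (tendsto_w' p.1).mul (tendsto_w' p.2)
        rwa [one_div_mul_one_div] at this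
      rw [Metric.tendsto_atTop] at hlim
      obtain ⟨s1, hs1⟩ := hlim (ε / 4) (by positivity)
      have herr := tendsto_err h3 hA hB hC hN K
      rw [Metric.tendsto_atTop] at herr
      obtain ⟨s2, hs2⟩ := herr (ε / 4) (by positivity)
      obtain ⟨s3, hs3⟩ : ∃ s3 : ℕ, 2 * LL A B C N K < 2 ^ s3 := by
        refine ⟨(2 * LL A B C N K).natAbs, ?_⟩
        have h4 : (2 * LL A B C N K).natAbs < 2 ^ (2 * LL A B C N K).natAbs := Nat.lt_two_pow_self
        have h5 : 2 * LL A B C N K ≤ (2 * LL A B C N K).natAbs := Int.le_natAbs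
        have h6 : ((2 * LL A B C N K).natAbs : ℤ) < 2 ^ (2 * LL A B C N K).natAbs := by
          exact_mod_cast h4
        linarith
      refine ⟨max s1 (max s2 s3), fun s hs => ?_⟩
      have g1 : s1 ≤ s := le_trans (le_max_left _ _) hs
      have g2 : s2 ≤ s := le_trans (le_trans (le_max_left _ _) (le_max_right _ _)) hs
      have g3 : s3 ≤ s := le_trans (le_trans (le_max_right _ _) (le_max_right _ _)) hs
      have f1 := hs1 s g1
      have f2 := hs2 s g2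
      have f3 := hc K hK1 hK2 hK3 s
        (fun a b => (A : ZMod (2 ^ s)) * a ^ 2 + B * a * b + C * b ^ 2 = N) (by
          intro a b h
          rw [h, sub_self, mul_zero])
      have f4 := sum_eq_ZK hA hB hC hN K s
        (lt_of_lt_of_le hs3 (pow_le_pow_right₀ (by norm_num) g3))
      rw [f4] at f3
      rw [Real.dist_eq] at e1 f1 f2 ⊢
      rw [sub_zero] at f2
      have f5 := le_abs_self (∑ b ∈ Finset.Icc (-(K : ℤ)) K, fs A B C N b s +
        ∑ b ∈ Finset.Icc (-(K : ℤ)) K, fs C B A N b s)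
      have f6 := abs_sub_le (∑ a : ZMod (2 ^ s), ∑ b : ZMod (2 ^ s),
        (if (A : ZMod (2 ^ s)) * a ^ 2 + B * a * b + C * b ^ 2 = N then
          wt s a * wt s b else 0)) (∑ p ∈ ZK A B C N K, w s p.1 * w s p.2)
          (∑' p : {p : ℤ × ℤ // A * p.1 ^ 2 + B * p.1 * p.2 + C * p.2 ^ 2 = N},
            1 / ((p.1.1 : ℝ) * p.1.2))
      have f7 := abs_sub_le (∑ p ∈ ZK A B C N K, w s p.1 * w s p.2)
          (∑ p ∈ ZK A B C N K, 1 / ((p.1 : ℝ) * p.2))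
          (∑' p : {p : ℤ × ℤ // A * p.1 ^ 2 + B * p.1 * p.2 + C * p.2 ^ 2 = N},
            1 / ((p.1.1 : ℝ) * p.1.2))
      linarith
    refine ((Complex.continuous_ofReal.tendsto _).comp hreal).congr fun s => ?_
    exact toC (fun a b : ZMod (2 ^ s) => (A : ZMod (2 ^ s)) * a ^ 2 + B * a * b + C * b ^ 2 = N)
  · have hreal : Tendsto (fun s : ℕ => ∑ a : ZMod (2 ^ s), ∑ b : ZMod (2 ^ s),
        (if (A : ZMod (2 ^ s)) * a ^ 2 + B * a * b + C * b ^ 2 =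
            N + ((2 ^ s / 2 : ℕ) : ZMod (2 ^ s)) then
          wt s a * wt s b else 0)) atTop (𝓝 0) := by
      rw [Metric.tendsto_atTop]
      intro ε hε
      obtain ⟨K, hK0, hK1, hK2, hK3, hK4⟩ := exists_K A C N c (ε / 2) (by positivity) 0
      have herr := tendsto_err h3 hA hB hC hN K
      rw [Metric.tendsto_atTop] at herr
      obtain ⟨s2, hs2⟩ := herr (ε / 2) (by positivity)
      refine ⟨max s2 1, fun s hs => ?_⟩
      have g2 : s2 ≤ s := le_trans (le_max_left _ _) hs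
      have g3 : 1 ≤ s := le_trans (le_max_right _ _) hs
      obtain ⟨t, rfl⟩ : ∃ t, s = t + 1 := ⟨s - 1, by omega⟩
      have half : 2 ^ (t + 1) / 2 = 2 ^ t := by
        rw [pow_succ, Nat.mul_div_cancel _ (by norm_num)]
      have hne0 : ((2 ^ (t + 1) / 2 : ℕ) : ZMod (2 ^ (t + 1))) ≠ 0 := by
        rw [half]
        intro h
        rw [ZMod.natCast_eq_zero_iff] at h
        have h5 := Nat.le_of_dvd (by positivity) h
        rw [pow_succ] at h5
        have h6 : 0 < 2 ^ t := by positivity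
        omega
      have h20 : (2 : ZMod (2 ^ (t + 1))) * ((2 ^ (t + 1) / 2 : ℕ) : ZMod (2 ^ (t + 1))) = 0 := by
        rw [half]
        have h5 : ((2 * 2 ^ t : ℕ) : ZMod (2 ^ (t + 1))) = 0 := by
          rw [ZMod.natCast_eq_zero_iff, pow_succ, mul_comm]
        rw [← h5]
        push_cast
        rfl
      have f2 := hs2 (t + 1) g2
      have f3 := hc K hK1 hK2 hK3 (t + 1)
        (fun a b => (A : ZMod (2 ^ (t + 1))) * a ^ 2 + B * a * b + C * b ^ 2 =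
            N + ((2 ^ (t + 1) / 2 : ℕ) : ZMod (2 ^ (t + 1)))) (by
          intro a b h
          rw [h, add_sub_cancel_left, h20])
      have f4 : ∑ a : ZMod (2 ^ (t + 1)), ∑ b : ZMod (2 ^ (t + 1)),
        (if (A : ZMod (2 ^ (t + 1))) * a ^ 2 + B * a * b + C * b ^ 2 =
            N + ((2 ^ (t + 1) / 2 : ℕ) : ZMod (2 ^ (t + 1))) ∧
          ((|a.valMinAbs| ≤ (K : ℤ) ∨ |b.valMinAbs| ≤ (K : ℤ)) ∧
            A * a.valMinAbs ^ 2 + B * a.valMinAbs * b.valMinAbs + C * b.valMinAbs ^ 2 = N)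
          then wt (t + 1) a * wt (t + 1) b else 0) = 0 := by
        refine Finset.sum_eq_zero fun a _ => Finset.sum_eq_zero fun b _ => ?_
        rw [if_neg]
        rintro ⟨h4, _, h5⟩
        have h6 := congrArg (fun z : ℤ => (z : ZMod (2 ^ (t + 1)))) h5
        push_cast at h6
        rw [h4] at h6
        exact hne0 (by simpa using h6)
      rw [f4, sub_zero] at f3
      rw [Real.dist_eq, sub_zero] at f2 ⊢
      have f5 := le_abs_self (∑ b ∈ Finset.Icc (-(K : ℤ)) K, fs A B C N b (t + 1) +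
        ∑ b ∈ Finset.Icc (-(K : ℤ)) K, fs C B A N b (t + 1))
      linarith
    have hc0 := (Complex.continuous_ofReal.tendsto _).comp hreal
    rw [Complex.ofReal_zero] at hc0
    refine hc0.congr fun s => ?_
    exact toC (fun a b : ZMod (2 ^ s) => (A : ZMod (2 ^ s)) * a ^ 2 + B * a * b + C * b ^ 2 =
            N + ((2 ^ s / 2 : ℕ) : ZMod (2 ^ s)))

end Pool.Agent.T3
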