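import Pool.Agent.T3.Stmts2
import Pool.Agent.TB.Tel

/-!
The limit of the sums over `d Q(R) = N`.
-/

open Polynomial Filter Topology
open scoped BigOperators Real

namespace Pool.Agent.T3

open Pool.Agent.TB Pool.Agent.LibH11

namespace LIMZ

/-- the cot sums of a quadratic form -/
noncomputable def SL (n : ℕ) [NeZero n] (A B C : ℤ) (M : ZMod n) : ℂ :=
  ∑ a : ZMod n, ∑ b : ZMod n,
    if (A : ZMod n) * a ^ 2 + B * a * b + C * b ^ 2 = M then ct n a * ct n b else 0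

/-- the sums of `1/sin²` -/
noncomputable def SC (n : ℕ) (q : ℤ) (M : ZMod n) : ℂ :=
  ∑ ρ ∈ Finset.Ico 1 n, if ((ρ : ℕ) : ZMod n) ^ 2 * (q : ZMod n) = M then
    ((1 / Real.sin (π * ρ / n) ^ 2 : ℝ) : ℂ) else 0

/-- a subsequence -/
lemma sub_seq (g : (n : ℕ) → [NeZero n] → ℂ) {L : ℂ}
    (h : Tendsto (fun s : ℕ => ((π : ℂ) / 2 ^ s) ^ 2 * g (2 ^ s)) atTop (𝓝 L)) :
    Tendsto (fun k : ℕ => ((π : ℂ) / 4 ^ k) ^ 2 * g (4 ^ k)) atTop (𝓝 L) := by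
  have h2 : Tendsto (fun k : ℕ => 2 * k) atTop atTop :=
    tendsto_atTop_mono (fun k => by simp only [id]; omega) tendsto_id
  refine (h.comp h2).congr fun k => ?_
  have hg : ∀ (n n' : ℕ) [NeZero n] [NeZero n'], n = n' → g n = g n' := by
    intro n n' _ _ e
    subst e
    rfl
  have e1 : (2 : ℕ) ^ (2 * k) = 4 ^ k := by rw [pow_mul]; norm_num
  have e2 : (2 : ℂ) ^ (2 * k) = 4 ^ k := by rw [pow_mul]; norm_num
  show ((π : ℂ) / 2 ^ (2 * k)) ^ 2 * g (2 ^ (2 * k)) = _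
  rw [e2, hg _ _ e1]

lemma isUnit_odd {d : ℤ} (hd : Odd d) (k : ℕ) : IsUnit (d : ZMod (4 ^ k)) := by
  rw [ZMod.coe_int_isUnit_iff_isCoprime]
  obtain ⟨t, rfl⟩ := hd
  have h1 : IsCoprime (2 : ℤ) (2 * t + 1) := ⟨-t, 1, by ring⟩
  have h2 : IsCoprime ((2 : ℤ) ^ 2) (2 * t + 1) := h1.pow_left
  have h3 : IsCoprime (((2 : ℤ) ^ 2) ^ k) (2 * t + 1) := h2.pow_left
  have e : (((4 ^ k : ℕ)) : ℤ) = ((2 : ℤ) ^ 2) ^ k := by push_cast; norm_num
  rw [e]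
  exact h3

lemma half_mul {d : ℤ} (hd : Odd d) (k : ℕ) :
    (d : ZMod (4 ^ k)) * ((4 ^ k / 2 : ℕ) : ZMod (4 ^ k)) = ((4 ^ k / 2 : ℕ) : ZMod (4 ^ k)) := by
  obtain ⟨t, rfl⟩ := hd
  cases k with
  | zero => simp
  | succ k =>
    have e1 : 2 * (4 ^ (k + 1) / 2) = 4 ^ (k + 1) := by
      have : 2 ∣ 4 ^ (k + 1) := ⟨2 * 4 ^ k, by ring⟩
      omega
    have e2 : (2 : ZMod (4 ^ (k + 1))) * ((4 ^ (k + 1) / 2 : ℕ) : ZMod (4 ^ (k + 1))) = 0 := by
      have h := congrArg (fun m : ℕ => (m : ZMod (4 ^ (k + 1)))) e1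
      simp only [Nat.cast_mul, Nat.cast_ofNat] at h
      rw [h]
      exact ZMod.natCast_self _
    push_cast
    linear_combination (t : ZMod (4 ^ (k + 1))) * e2

lemma cond1 {R : Type} [CommRing R] {d di N y : R} (h : d * di = 1) :
    y = N * di ↔ d * y = N := by
  constructor
  · rintro rfl
    linear_combination N * h
  · rintro rfl
    linear_combination (-y) * h

lemma cond2 {R : Type} [CommRing R] {d di N y e : R} (h : d * di = 1) (he : d * e = e) :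
    y = N * di + e ↔ d * y = N + e := by
  constructor
  · rintro rfl
    linear_combination N * h + he
  · intro h1
    linear_combination (-y) * h + di * h1 - di * he + e * h

lemma comb (P : ℂ) (m : ℕ) (u v a b c e : ℕ → ℂ) :
    (1 / 4) * ∑ i ∈ Finset.range m, u i * (P * a i - P * b i) +
      (1 / 4) * ∑ j ∈ Finset.range m, v j * (P * c j - P * e j) =
    P * (((1 / 4) * ∑ i ∈ Finset.range m, u i * a i +
      (1 / 4) * ∑ j ∈ Finset.range m, v j * c j) -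
      ((1 / 4) * ∑ i ∈ Finset.range m, u i * b i +
      (1 / 4) * ∑ j ∈ Finset.range m, v j * e j)) := by
  have h : ∀ u a b : ℕ → ℂ, ∑ i ∈ Finset.range m, u i * (P * a i - P * b i) =
      P * ∑ i ∈ Finset.range m, u i * a i - P * ∑ i ∈ Finset.range m, u i * b i := by
    intro u a b
    rw [Finset.mul_sum, Finset.mul_sum, ← Finset.sum_sub_distrib]
    exact Finset.sum_congr rfl fun i _ => by ring
  rw [h, h]
  ring

section Chain

variable {x : List ℤ} {N d : ℤ}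

/-- the middle coefficient -/
def Bj (x : List ℤ) (j : ℕ) : ℤ :=
  Qw x (ch3 x j + ch3 x (j + 1)) - Qw x (ch3 x j) - Qw x (ch3 x (j + 1))

lemma Qw_smul (hq : ∀ R, Qw x R = R.1 ^ 2 * (ch3 x x.length).2 +
      R.1 * R.2 * ((ch3 x (x.length + 1)).2 - (ch3 x x.length).1) -
        R.2 ^ 2 * (ch3 x (x.length + 1)).1) (c : ℤ) (R : ℤ × ℤ) :
    Qw x (c • R) = c ^ 2 * Qw x R := by
  rw [hq, hq]
  simp only [Prod.smul_fst, Prod.smul_snd, smul_eq_mul]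
  ring

lemma sum_form (h3 : CHN3_Stmt) (hx : Even x.length) (n : ℕ) [NeZero n] (j : ℕ) (M : ZMod n) :
    ∑ R : ZMod n × ZMod n, (if (d : ZMod n) * Qm n x R = M then
      ct n (detm n R (ch3 x j)) * ct n (detm n R (ch3 x (j + 1))) else 0) =
    SL n (d * Qw x (ch3 x (j + 1))) (-(d * Bj x j)) (d * Qw x (ch3 x j)) M := by
  obtain ⟨c1, -, -, -, c5, c6, -, c8, -⟩ := h3 x hx
  have hε : ((-1 : ℤ) ^ j) * (-1) ^ j = 1 := by rw [← mul_pow]; simp
  rw [TEL.sum_change n (ch3 x j) (ch3 x (j + 1)) ((-1) ^ j) hε (c1 j) (fun a b R =>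
      if (d : ZMod n) * Qm n x R = M then ct n a * ct n b else 0)]
  unfold SL
  refine Finset.sum_congr rfl fun a _ => Finset.sum_congr rfl fun b _ => ?_
  obtain ⟨a', rfl⟩ := ZMod.intCast_surjective a
  obtain ⟨b', rfl⟩ := ZMod.intCast_surjective b
  have h5 : Qm n x (((((-1) ^ j : ℤ)) : ZMod n) * ((b' : ZMod n) * (ch3 x j).1 -
        (a' : ZMod n) * (ch3 x (j + 1)).1), ((((-1) ^ j : ℤ)) : ZMod n) * ((b' : ZMod n) *
        (ch3 x j).2 - (a' : ZMod n) * (ch3 x (j + 1)).2)) =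
        ((Qw x (b' • ch3 x j - a' • ch3 x (j + 1)) : ℤ) : ZMod n) := by
    have e1 : Qw x (b' • ch3 x j - a' • ch3 x (j + 1)) =
        Qw x (((-1 : ℤ) ^ j) • (b' • ch3 x j - a' • ch3 x (j + 1))) := by
      rw [Qw_smul c5, pow_two, hε, one_mul]
    rw [e1, c6]
    congr 1
    ext <;> simp
  rw [h5, c8]
  congr 1
  push_cast
  rw [eq_iff_iff]
  unfold Bj
  push_cast
  constructor
  · intro h6
    rw [← h6]
    ring
  · intro h6
    rw [← h6]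
    ring

/-- the change of variables over `ℤ` -/
noncomputable def eqv (h3 : CHN3_Stmt) (hx : Even x.length) (j : ℕ) :
    {R : ℤ × ℤ // d * Qw x R = N} ≃
      {p : ℤ × ℤ // (d * Qw x (ch3 x (j + 1))) * p.1 ^ 2 + (-(d * Bj x j)) * p.1 * p.2 +
        (d * Qw x (ch3 x j)) * p.2 ^ 2 = N} := by
  have c1 := (h3 x hx).1 j
  have c5 := (h3 x hx).2.2.2.2.1
  have c8 := (h3 x hx).2.2.2.2.2.2.2.1 j
  have hε : ((-1 : ℤ) ^ j) * (-1) ^ j = 1 := by rw [← mul_pow]; simp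
  have c1' : (ch3 x j).1 * (ch3 x (j + 1)).2 - (ch3 x j).2 * (ch3 x (j + 1)).1 = (-1) ^ j := c1
  have hinv : ∀ R : ℤ × ℤ, ((-1 : ℤ) ^ j) • ((det2 R (ch3 x (j + 1))) • ch3 x j -
      (det2 R (ch3 x j)) • ch3 x (j + 1)) = R := by
    rintro ⟨r1, r2⟩
    ext
    · simp only [det2, Prod.smul_fst, Prod.fst_sub, smul_eq_mul]
      linear_combination ((-1) ^ j * r1) * c1' + r1 * hε
    · simp only [det2, Prod.smul_snd, Prod.snd_sub, smul_eq_mul]
      linear_combination ((-1) ^ j * r2) * c1' + r2 * hε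
  have hinv2 : ∀ a b : ℤ, det2 (((-1 : ℤ) ^ j) • (b • ch3 x j - a • ch3 x (j + 1))) (ch3 x j) = a ∧
      det2 (((-1 : ℤ) ^ j) • (b • ch3 x j - a • ch3 x (j + 1))) (ch3 x (j + 1)) = b := by
    intro a b
    simp only [det2, Prod.smul_fst, Prod.smul_snd, Prod.fst_sub, Prod.snd_sub, smul_eq_mul]
    constructor
    · linear_combination ((-1) ^ j * a) * c1' + a * hε
    · linear_combination ((-1) ^ j * b) * c1' + b * hε
  have hform : ∀ a b : ℤ, Qw x (((-1 : ℤ) ^ j) • (b • ch3 x j - a • ch3 x (j + 1))) =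
      b ^ 2 * Qw x (ch3 x j) + a ^ 2 * Qw x (ch3 x (j + 1)) - a * b * Bj x j := by
    intro a b
    rw [Qw_smul c5, pow_two, hε, one_mul, c8]
    rfl
  refine
    { toFun := fun R => ⟨(det2 R.1 (ch3 x j), det2 R.1 (ch3 x (j + 1))), ?_⟩
      invFun := fun p => ⟨((-1 : ℤ) ^ j) • (p.1.2 • ch3 x j - p.1.1 • ch3 x (j + 1)), ?_⟩
      left_inv := ?_
      right_inv := ?_ }
  · have h1 := hform (det2 R.1 (ch3 x j)) (det2 R.1 (ch3 x (j + 1)))
    rw [hinv] at h1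
    have h2 := R.2
    rw [h1] at h2
    simp only
    linear_combination h2
  · rw [hform]
    have h2 := p.2
    linear_combination h2
  · intro R
    exact Subtype.ext (hinv R.1)
  · intro p
    refine Subtype.ext (Prod.ext ?_ ?_)
    · exact (hinv2 _ _).1
    · exact (hinv2 _ _).2

/-- the cot sums modulo `4^k` -/
lemma key1 (h1 : LIM3_Stmt) (h3 : CHN3_Stmt) (hx : Even x.length) (ht : Odd (tw3 x))
    (hd : Odd d) (hN : Odd N) (j : ℕ) :
    Summable (fun R : {R : ℤ × ℤ // d * Qw x R = N} =>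
      (1 / ((det2 R.1 (ch3 x j) : ℂ) * (det2 R.1 (ch3 x (j + 1)) : ℂ)) : ℂ)) ∧
    Tendsto (fun k : ℕ => ((π : ℂ) / 4 ^ k) ^ 2 * ∑ R : ZMod (4 ^ k) × ZMod (4 ^ k),
        if Qm (4 ^ k) x R = (N : ZMod (4 ^ k)) * (d : ZMod (4 ^ k))⁻¹ then
          ct (4 ^ k) (detm (4 ^ k) R (ch3 x j)) *
            ct (4 ^ k) (detm (4 ^ k) R (ch3 x (j + 1))) else 0) atTop
      (𝓝 (∑' R : {R : ℤ × ℤ // d * Qw x R = N},
        1 / ((det2 R.1 (ch3 x j) : ℂ) * (det2 R.1 (ch3 x (j + 1)) : ℂ)))) ∧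
    Tendsto (fun k : ℕ => ((π : ℂ) / 4 ^ k) ^ 2 * ∑ R : ZMod (4 ^ k) × ZMod (4 ^ k),
        if Qm (4 ^ k) x R = (N : ZMod (4 ^ k)) * (d : ZMod (4 ^ k))⁻¹ +
            ((4 ^ k / 2 : ℕ) : ZMod (4 ^ k)) then
          ct (4 ^ k) (detm (4 ^ k) R (ch3 x j)) *
            ct (4 ^ k) (detm (4 ^ k) R (ch3 x (j + 1))) else 0) atTop (𝓝 0) := by
  have c9 := (h3 x hx).2.2.2.2.2.2.2.2.1 ht
  obtain ⟨hs, ht1, ht2⟩ := h1 (d * Qw x (ch3 x (j + 1))) (-(d * Bj x j)) (d * Qw x (ch3 x j)) N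
    (hd.mul (c9 (j + 1)).1) (hd.mul (c9 j).2).neg (hd.mul (c9 j).1) hN
  have hu : ∀ k : ℕ, (d : ZMod (4 ^ k)) * (d : ZMod (4 ^ k))⁻¹ = 1 := fun k =>
    ZMod.mul_inv_of_unit _ (isUnit_odd hd k)
  refine ⟨?_, ?_, ?_⟩
  · exact (eqv (x := x) (N := N) (d := d) h3 hx j).summable_iff.2 hs
  · have h5 := sub_seq (fun n _ => SL n (d * Qw x (ch3 x (j + 1))) (-(d * Bj x j))
      (d * Qw x (ch3 x j)) (N : ZMod n)) ht1
    have h6 := (eqv (x := x) (N := N) (d := d) h3 hx j).tsum_eq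
      (fun p => (1 / ((p.1.1 : ℂ) * p.1.2) : ℂ))
    rw [← h6] at h5
    refine h5.congr fun k => ?_
    rw [← sum_form h3 hx]
    congr 1
    refine Finset.sum_congr rfl fun R _ => ?_
    simp only [cond1 (hu k)]
  · have h5 := sub_seq (fun n _ => SL n (d * Qw x (ch3 x (j + 1))) (-(d * Bj x j))
      (d * Qw x (ch3 x j)) ((N : ZMod n) + ((n / 2 : ℕ) : ZMod n))) ht2
    refine h5.congr fun k => ?_
    rw [← sum_form h3 hx]
    congr 1
    refine Finset.sum_congr rfl fun R _ => ?_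
    simp only [cond2 (hu k) (half_mul hd k)]

/-- the term of a multiple of a vector of the chain -/
noncomputable def Tm (x : List ℤ) (i : ℕ) (R : ℤ × ℤ) : ℂ :=
  if det2 R (ch3 x (i + 1)) = 0 then (Qw x (ch3 x (i + 1)) : ℂ) / (Qw x R : ℂ) else 0

lemma finite_sq (q N : ℤ) (hN : Odd N) : Finite {ρ : ℤ // ρ ^ 2 * q = N} := by
  have hN0 : N ≠ 0 := by
    rintro rfl
    simp at hN
  have : Set.Finite {ρ : ℤ | ρ ^ 2 * q = N} := by
    refine (Set.finite_Icc (-|N|) |N|).subset ?_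
    intro ρ hρ
    have h1 : ρ ∣ N := ⟨ρ * q, by rw [← show ρ ^ 2 * q = N from hρ]; ring⟩
    have h2 : |ρ| ≤ |N| := Int.le_of_dvd (abs_pos.2 hN0) ((abs_dvd_abs _ _).2 h1)
    exact ⟨(abs_le.1 h2).1, (abs_le.1 h2).2⟩
  exact this

/-- the multiples of a vector of the chain -/
lemma key2 (h3 : CHN3_Stmt) (hx : Even x.length) (ht : Odd (tw3 x))
    (hN : Odd N) (i : ℕ) :
    Summable (fun R : {R : ℤ × ℤ // d * Qw x R = N} => Tm x i R.1) ∧
    ∑' ρ : {ρ : ℤ // ρ ^ 2 * (d * Qw x (ch3 x (i + 1))) = N}, (1 / (ρ.1 : ℂ) ^ 2 : ℂ) =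
      ∑' R : {R : ℤ × ℤ // d * Qw x R = N}, Tm x i R.1 := by
  have c1 := (h3 x hx).1 i
  have c5 := (h3 x hx).2.2.2.2.1
  have c9 := ((h3 x hx).2.2.2.2.2.2.2.2.1 ht (i + 1)).1
  set g := ch3 x (i + 1) with hg
  have hN0 : N ≠ 0 := by
    rintro rfl
    simp at hN
  have hQ0 : Qw x g ≠ 0 := by
    intro h
    rw [h] at c9
    simp at c9
  have hε : ((-1 : ℤ) ^ i) * (-1) ^ i = 1 := by rw [← mul_pow]; simp
  have c1' : (ch3 x i).1 * g.2 - (ch3 x i).2 * g.1 = (-1) ^ i := c1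
  let φ : {ρ : ℤ // ρ ^ 2 * (d * Qw x g) = N} → {R : ℤ × ℤ // d * Qw x R = N} := fun ρ =>
    ⟨ρ.1 • g, by
      rw [Qw_smul c5]
      have := ρ.2
      linear_combination this⟩
  have hdet : ∀ ρ : ℤ, det2 (ch3 x i) (ρ • g) = ρ * (-1) ^ i := by
    intro ρ
    rw [← c1']
    simp only [det2, Prod.smul_fst, Prod.smul_snd, smul_eq_mul]
    ring
  have hφ : Function.Injective φ := by
    intro ρ σ hρσ
    have h1 : ρ.1 • g = σ.1 • g := congrArg Subtype.val hρσ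
    have h2 : ρ.1 * (-1) ^ i = σ.1 * (-1) ^ i := by rw [← hdet, ← hdet, h1]
    have h4 : (((-1 : ℤ)) ^ i) ≠ 0 := pow_ne_zero _ (by norm_num)
    exact Subtype.ext (mul_right_cancel₀ h4 h2)
  have hval : ∀ ρ : {ρ : ℤ // ρ ^ 2 * (d * Qw x g) = N},
      Tm x i (φ ρ).1 = 1 / (ρ.1 : ℂ) ^ 2 := by
    intro ρ
    have hρ0 : ρ.1 ≠ 0 := by
      intro h
      have := ρ.2
      rw [h] at this
      apply hN0
      rw [← this]
      ring
    have h1 : det2 (ρ.1 • g) g = 0 := by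
      simp only [det2, Prod.smul_fst, Prod.smul_snd, smul_eq_mul]
      ring
    show Tm x i (ρ.1 • g) = _
    unfold Tm
    rw [← hg, if_pos h1, Qw_smul c5]
    push_cast
    have e1 : (Qw x g : ℂ) ≠ 0 := by exact_mod_cast hQ0
    have e2 : (ρ.1 : ℂ) ≠ 0 := by exact_mod_cast hρ0
    field_simp
  have hout : ∀ R : {R : ℤ × ℤ // d * Qw x R = N}, R ∉ Set.range φ → Tm x i R.1 = 0 := by
    intro R hR
    unfold Tm
    rw [← hg]
    refine if_neg ?_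
    intro h0
    apply hR
    set ρ : ℤ := (-1) ^ i * det2 (ch3 x i) R.1 with hρ
    have h0' : R.1.1 * g.2 - R.1.2 * g.1 = 0 := h0
    have hR1 : ρ • g = R.1 := by
      ext
      · simp only [hρ, det2, Prod.smul_fst, smul_eq_mul]
        linear_combination ((-1) ^ i * R.1.1) * c1' + R.1.1 * hε -
          ((-1) ^ i * (ch3 x i).1) * h0'
      · simp only [hρ, det2, Prod.smul_snd, smul_eq_mul]
        linear_combination ((-1) ^ i * R.1.2) * c1' + R.1.2 * hε -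
          ((-1) ^ i * (ch3 x i).2) * h0'
    refine ⟨⟨ρ, ?_⟩, Subtype.ext hR1⟩
    have h2 := R.2
    rw [← hR1, Qw_smul c5] at h2
    linear_combination h2
  have := finite_sq (d * Qw x g) N hN
  constructor
  · rw [← hφ.summable_iff hout]
    exact Summable.of_finite
  · rw [← hφ.tsum_eq (f := fun R : {R : ℤ × ℤ // d * Qw x R = N} => Tm x i R.1)]
    · exact tsum_congr fun ρ => (hval ρ).symm
    · intro R hR
      by_contra h
      exact hR (hout R h)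

/-- the sums of `1/sin²` modulo `4^k` -/
lemma key3 (h2 : CSC3_Stmt) (h3 : CHN3_Stmt) (hx : Even x.length) (ht : Odd (tw3 x))
    (hd : Odd d) (hN : Odd N) (i : ℕ) :
    Tendsto (fun k : ℕ => ((π : ℂ) / 4 ^ k) ^ 2 * ∑ ρ ∈ Finset.Ico 1 ((4 : ℕ) ^ k),
        if ((ρ : ℕ) : ZMod (4 ^ k)) ^ 2 * (Qw x (ch3 x (i + 1)) : ZMod (4 ^ k)) =
            (N : ZMod (4 ^ k)) * (d : ZMod (4 ^ k))⁻¹ then
          ((1 / Real.sin (π * ρ / (4 ^ k : ℕ)) ^ 2 : ℝ) : ℂ) else 0) atTop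
      (𝓝 (∑' R : {R : ℤ × ℤ // d * Qw x R = N}, Tm x i R.1)) ∧
    Tendsto (fun k : ℕ => ((π : ℂ) / 4 ^ k) ^ 2 * ∑ ρ ∈ Finset.Ico 1 ((4 : ℕ) ^ k),
        if ((ρ : ℕ) : ZMod (4 ^ k)) ^ 2 * (Qw x (ch3 x (i + 1)) : ZMod (4 ^ k)) =
            (N : ZMod (4 ^ k)) * (d : ZMod (4 ^ k))⁻¹ + ((4 ^ k / 2 : ℕ) : ZMod (4 ^ k)) then
          ((1 / Real.sin (π * ρ / (4 ^ k : ℕ)) ^ 2 : ℝ) : ℂ) else 0) atTop (𝓝 0) := by
  have c9 := ((h3 x hx).2.2.2.2.2.2.2.2.1 ht (i + 1)).1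
  obtain ⟨ht1, ht2⟩ := h2 (d * Qw x (ch3 x (i + 1))) N (hd.mul c9) hN
  have hu : ∀ k : ℕ, (d : ZMod (4 ^ k)) * (d : ZMod (4 ^ k))⁻¹ = 1 := fun k =>
    ZMod.mul_inv_of_unit _ (isUnit_odd hd k)
  have hc : ∀ (k : ℕ) (ρ : ZMod (4 ^ k)), ρ ^ 2 * ((d * Qw x (ch3 x (i + 1)) : ℤ) : ZMod (4 ^ k)) =
      (d : ZMod (4 ^ k)) * (ρ ^ 2 * (Qw x (ch3 x (i + 1)) : ZMod (4 ^ k))) := by
    intro k ρ
    push_cast
    ring
  constructor
  · rw [← (key2 h3 hx ht hN i).2]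
    have h5 := sub_seq (fun n _ => SC n (d * Qw x (ch3 x (i + 1))) (N : ZMod n)) ht1
    refine h5.congr fun k => ?_
    congr 1
    unfold SC
    refine Finset.sum_congr rfl fun ρ _ => ?_
    simp only [hc, cond1 (hu k)]
  · have h5 := sub_seq (fun n _ => SC n (d * Qw x (ch3 x (i + 1)))
      ((N : ZMod n) + ((n / 2 : ℕ) : ZMod n))) ht2
    refine h5.congr fun k => ?_
    congr 1
    unfold SC
    refine Finset.sum_congr rfl fun ρ _ => ?_
    simp only [hc, cond2 (hu k) (half_mul hd k)]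

end Chain

end LIMZ

open LIMZ in
theorem limz (h1 : LIM3_Stmt) (h2 : CSC3_Stmt) (h3 : CHN3_Stmt) : LIMZ_Stmt := by
  intro x hx ht d N hd hN
  -- the summand, over the complex numbers
  have hF : ∀ R : ℤ × ℤ, ((F3 x R : ℝ) : ℂ) =
      (1 / 4) * ∑ i ∈ Finset.range x.length, ((x.getD i 0 : ℤ) : ℂ) * Tm x i R +
      (1 / 4) * ∑ j ∈ Finset.range x.length, (-1 : ℂ) ^ j *
        (1 / ((det2 R (ch3 x j) : ℂ) * (det2 R (ch3 x (j + 1)) : ℂ))) := by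
    intro R
    unfold F3 Tm
    push_cast
    rw [mul_add, add_comm]
    congr 2
    · refine Finset.sum_congr rfl fun i _ => ?_
      split_ifs
      · push_cast
        ring
      · simp
    · refine Finset.sum_congr rfl fun j _ => ?_
      ring
  have hs1 : HasSum (fun R : {R : ℤ × ℤ // d * Qw x R = N} =>
      (1 / 4 : ℂ) * ∑ i ∈ Finset.range x.length, ((x.getD i 0 : ℤ) : ℂ) * Tm x i R.1)
      ((1 / 4 : ℂ) * ∑ i ∈ Finset.range x.length, ((x.getD i 0 : ℤ) : ℂ) *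
        ∑' R : {R : ℤ × ℤ // d * Qw x R = N}, Tm x i R.1) :=
    HasSum.mul_left _ (hasSum_sum fun i _ => HasSum.mul_left _ (key2 h3 hx ht hN i).1.hasSum)
  have hs2 : HasSum (fun R : {R : ℤ × ℤ // d * Qw x R = N} =>
      (1 / 4 : ℂ) * ∑ j ∈ Finset.range x.length, (-1 : ℂ) ^ j *
        (1 / ((det2 R.1 (ch3 x j) : ℂ) * (det2 R.1 (ch3 x (j + 1)) : ℂ))))
      ((1 / 4 : ℂ) * ∑ j ∈ Finset.range x.length, (-1 : ℂ) ^ j *
        ∑' R : {R : ℤ × ℤ // d * Qw x R = N},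
          1 / ((det2 R.1 (ch3 x j) : ℂ) * (det2 R.1 (ch3 x (j + 1)) : ℂ))) :=
    HasSum.mul_left _ (hasSum_sum fun j _ =>
      HasSum.mul_left _ (key1 h1 h3 hx ht hd hN j).1.hasSum)
  have hs := hs1.add hs2
  have hs' : HasSum (fun R : {R : ℤ × ℤ // d * Qw x R = N} => ((F3 x R.1 : ℝ) : ℂ)) _ :=
    hs.congr_fun (fun R => hF R.1)
  constructor
  · exact Complex.summable_ofReal.1 hs'.summable
  · rw [Complex.ofReal_tsum, hs'.tsum_eq]
    have hl1 := (tendsto_finsetSum (Finset.range x.length) fun i _ =>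
      ((key3 h2 h3 hx ht hd hN i).1.sub (key3 h2 h3 hx ht hd hN i).2).const_mul
        ((x.getD i 0 : ℤ) : ℂ)).const_mul (1 / 4 : ℂ)
    have hl2 := (tendsto_finsetSum (Finset.range x.length) fun j _ =>
      ((key1 h1 h3 hx ht hd hN j).2.1.sub (key1 h1 h3 hx ht hd hN j).2.2).const_mul
        ((-1 : ℂ) ^ j)).const_mul (1 / 4 : ℂ)
    have hl := hl1.add hl2
    simp only [sub_zero] at hl
    refine hl.congr fun k => ?_
    unfold Zo Zx
    exact comb _ _ _ _ _ _ _ _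

end Pool.Agent.T3
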