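import Pool.Agent.T3.Stmts2
import Pool.Agent.TB.Emb
import Pool.Agent.TB.Fc
import Pool.Agent.TB.Spec
import Pool.Agent.TB.Rpr
import Pool.Agent.TB.Gps
import Pool.Agent.TB.Brk

/-!
Module LINK: for knots, the weighted trace on even labels is the weighted trace of the word on all
labels of total even parity.
-/

open Polynomial
open scoped BigOperators Real

namespace Pool.Agent.T3

open Pool.Agent.TB Pool.Agent.LibH11

namespace LINK

section

variable {A : Type} [CommRing A] {r : ℕ}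

/-- the parities -/
def pv (l : Lb r × Lb r × Lb r) : Fin 3 → Bool := ![l.1.par, l.2.1.par, l.2.2.par]

/-- nonzero entries permute the parities -/
def PP (σ : Equiv.Perm (Fin 3))
    (N : Matrix (Lb r × Lb r × Lb r) (Lb r × Lb r × Lb r) A) : Prop :=
  ∀ p c, N p c ≠ 0 → ∀ i, pv p i = pv c (σ⁻¹ i)

theorem PP.mul {σ τ : Equiv.Perm (Fin 3)}
    {N N' : Matrix (Lb r × Lb r × Lb r) (Lb r × Lb r × Lb r) A} (h : PP σ N) (h' : PP τ N') :
    PP (σ * τ) (N * N') := by
  intro p c hpc i
  rw [Matrix.mul_apply] at hpc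
  obtain ⟨u, -, hu⟩ := Finset.exists_ne_zero_of_sum_ne_zero hpc
  rw [h p u (left_ne_zero_of_mul hu) i, h' u c (right_ne_zero_of_mul hu), mul_inv_rev,
    Equiv.Perm.mul_apply]

theorem PP.one : PP 1 (1 : Matrix (Lb r × Lb r × Lb r) (Lb r × Lb r × Lb r) A) := by
  intro p c hpc i
  have h : p = c := by
    by_contra h
    exact hpc (Matrix.one_apply_ne h)
  rw [h]
  rfl

theorem PP.pow {σ : Equiv.Perm (Fin 3)}
    {N : Matrix (Lb r × Lb r × Lb r) (Lb r × Lb r × Lb r) A} (h : PP σ N) (k : ℕ) :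
    PP (σ ^ k) (N ^ k) := by
  induction k with
  | zero => rw [pow_zero, pow_zero]; exact PP.one
  | succ k ih => rw [pow_succ, pow_succ]; exact ih.mul h

/-- the triple of a state -/
def trip (s : Fin 3 → Ev r) : Lb r × Lb r × Lb r := ((s 0).1, (s 1).1, (s 2).1)

theorem pv_trip (s : Fin 3 → Ev r) (i : Fin 3) : pv (trip s) i = false := by
  fin_cases i
  · exact (s 0).2
  · exact (s 1).2
  · exact (s 2).2

theorem trip_inj : Function.Injective (trip (r := r)) := by
  intro s t h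
  have h0 : (s 0).1 = (t 0).1 := congrArg Prod.fst h
  have h1 : (s 1).1 = (t 1).1 := congrArg (fun l => l.2.1) h
  have h2 : (s 2).1 = (t 2).1 := congrArg (fun l => l.2.2) h
  funext i
  fin_cases i
  · exact Subtype.ext h0
  · exact Subtype.ext h1
  · exact Subtype.ext h2

theorem trip_surj (l : Lb r × Lb r × Lb r) (h : ∀ i, pv l i = false) : ∃ s, trip s = l :=
  ⟨![⟨l.1, h 0⟩, ⟨l.2.1, h 1⟩, ⟨l.2.2, h 2⟩], rfl⟩

/-- sums over even triples -/
theorem sum_trip (g : Lb r × Lb r × Lb r → A) (h : ∀ l, g l ≠ 0 → ∀ i, pv l i = false) :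
    ∑ l, g l = ∑ s, g (trip s) := by
  refine (Fintype.sum_of_injective trip trip_inj _ _ ?_ (fun s => rfl)).symm
  intro l hl
  by_contra hg
  exact hl (trip_surj l (h l hg))

/-- restriction to even states -/
def res (N : Matrix (Lb r × Lb r × Lb r) (Lb r × Lb r × Lb r) A) :
    Matrix (Fin 3 → Ev r) (Fin 3 → Ev r) A := fun s t => N (trip s) (trip t)

theorem res_mul {τ : Equiv.Perm (Fin 3)}
    {N N' : Matrix (Lb r × Lb r × Lb r) (Lb r × Lb r × Lb r) A} (h' : PP τ N') :
    res (N * N') = res N * res N' := by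
  ext s t
  show (N * N') (trip s) (trip t) = _
  rw [Matrix.mul_apply, Matrix.mul_apply]
  rw [sum_trip]
  · rfl
  · intro l hl i
    rw [h' l (trip t) (right_ne_zero_of_mul hl) i, pv_trip]

theorem res_one : res (1 : Matrix (Lb r × Lb r × Lb r) (Lb r × Lb r × Lb r) A) = 1 := by
  ext s t
  show (1 : Matrix (Lb r × Lb r × Lb r) (Lb r × Lb r × Lb r) A) (trip s) (trip t) = _
  rw [Matrix.one_apply, Matrix.one_apply]
  by_cases h : s = t
  · rw [if_pos h, if_pos (by rw [h])]
  · rw [if_neg h, if_neg (fun h' => h (trip_inj h'))]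

theorem res_pow {σ : Equiv.Perm (Fin 3)}
    {N : Matrix (Lb r × Lb r × Lb r) (Lb r × Lb r × Lb r) A} (h : PP σ N) (k : ℕ) :
    res (N ^ k) = res N ^ k := by
  induction k with
  | zero => rw [pow_zero, pow_zero, res_one]
  | succ k ih => rw [pow_succ, pow_succ, res_mul h, ih]

theorem res_smul (c : A) (N : Matrix (Lb r × Lb r × Lb r) (Lb r × Lb r × Lb r) A) :
    res (c • N) = c • res N := rfl

end

section

variable {A : Type} [CommRing A] (Q : QP A) (r : ℕ)

/-- the operators on two of the three strands -/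
def eb (i : Fin 2) (M : Matrix (Lb r × Lb r) (Lb r × Lb r) A) :
    Matrix (Lb r × Lb r × Lb r) (Lb r × Lb r × Lb r) A :=
  if i = 0 then emb12 M else emb23 M

theorem eb_zero (M : Matrix (Lb r × Lb r) (Lb r × Lb r) A) : eb r 0 M = emb12 M := rfl

theorem eb_one (M : Matrix (Lb r × Lb r) (Lb r × Lb r) A) : eb r 1 M = emb23 M := rfl

theorem eb_mul (i : Fin 2) (M N : Matrix (Lb r × Lb r) (Lb r × Lb r) A) :
    eb r i (M * N) = eb r i M * eb r i N := by
  have h := (emb A (Lb r)).1 M N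
  fin_cases i
  · exact h.1
  · exact h.2

theorem eb_id (i : Fin 2) : eb r i (1 : Matrix (Lb r × Lb r) (Lb r × Lb r) A) = 1 := by
  have h := (emb A (Lb r)).2.2.1
  fin_cases i
  · exact h.1
  · exact h.2

theorem eb_pow (i : Fin 2) (M : Matrix (Lb r × Lb r) (Lb r × Lb r) A) (k : ℕ) :
    eb r i (M ^ k) = eb r i M ^ k := by
  induction k with
  | zero => rw [pow_zero, pow_zero, eb_id]
  | succ k ih => rw [pow_succ, pow_succ, eb_mul, ih]

theorem eb_aeval (i : Fin 2) (M : Matrix (Lb r × Lb r) (Lb r × Lb r) A) (P : A[X]) :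
    aeval (eb r i M) P = eb r i (aeval M P) := by
  have h := (emb A (Lb r)).2.2.2.2 M P
  fin_cases i
  · exact h.1
  · exact h.2

/-- the generating permutations -/
def sw (i : Fin 2) : Equiv.Perm (Fin 3) := Equiv.swap i.castSucc i.succ

theorem sw_inv (i : Fin 2) : (sw i)⁻¹ = sw i := Equiv.swap_inv _ _

theorem perm_sg (i : Fin 2) : perm (sg i : Br 2) = sw i := liftBr_sg _ _ _ i

/-- a matrix on two strands whose nonzero entries exchange the parities -/
def Ex (M : Matrix (Lb r × Lb r) (Lb r × Lb r) A) : Prop :=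
  ∀ x y a b : Lb r, x.par ≠ b.par ∨ y.par ≠ a.par → M (x, y) (a, b) = 0

theorem eb_PP (i : Fin 2) {M : Matrix (Lb r × Lb r) (Lb r × Lb r) A} (h : Ex r M) :
    PP (sw i) (eb r i M) := by
  intro p c hpc j
  rw [sw_inv]
  fin_cases i
  · have h1 : p.2.2 = c.2.2 := by
      by_contra h1
      exact hpc (if_neg h1)
    have h2 : M (p.1, p.2.1) (c.1, c.2.1) ≠ 0 := by
      have h3 : emb12 M p c ≠ 0 := hpc
      unfold emb12 at h3
      rwa [if_pos h1] at h3
    have h3 : p.1.par = c.2.1.par ∧ p.2.1.par = c.1.par := by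
      by_contra h3
      rw [not_and_or] at h3
      exact h2 (h _ _ _ _ h3)
    fin_cases j
    · exact h3.1
    · exact h3.2
    · show p.2.2.par = c.2.2.par
      rw [h1]
  · have h1 : p.1 = c.1 := by
      by_contra h1
      exact hpc (if_neg h1)
    have h2 : M (p.2.1, p.2.2) (c.2.1, c.2.2) ≠ 0 := by
      have h3 : emb23 M p c ≠ 0 := hpc
      unfold emb23 at h3
      rwa [if_pos h1] at h3
    have h3 : p.2.1.par = c.2.2.par ∧ p.2.2.par = c.2.1.par := by
      by_contra h3
      rw [not_and_or] at h3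
      exact h2 (h _ _ _ _ h3)
    fin_cases j
    · show p.1.par = c.1.par
      rw [h1]
    · exact h3.1
    · exact h3.2

theorem ex_Rm : Ex r (Rm Q r) := fun x y a b h => ((rpr brk A Q r).2.1 x y a b h).1

theorem ex_Rn : Ex r (Rn Q r) := fun x y a b h => ((rpr brk A Q r).2.1 x y a b h).2

theorem mul_inv' : Rm Q r * Rn Q r = 1 := (rpr brk A Q r).1.2.2.1

theorem inv_mul' : Rn Q r * Rm Q r = 1 := (rpr brk A Q r).1.2.2.2

/-- the R-matrix as a unit -/
def Ru : (Matrix (Lb r × Lb r) (Lb r × Lb r) A)ˣ :=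
  ⟨Rm Q r, Rn Q r, mul_inv' Q r, inv_mul' Q r⟩

/-- the letters -/
noncomputable def Fa (a : ℤ) : Matrix (Lb r × Lb r) (Lb r × Lb r) A :=
  aeval (Im Q r) (Q.interp r fun m => ((Q.fu m ^ a : Aˣ) : A))

variable {Q r}

theorem Fa_nat (hg : Q.Gen r) (k : ℕ) : Fa Q r (k : ℤ) = Rm Q r ^ k := by
  obtain ⟨h1, h2⟩ := fc A Q r hg
  obtain ⟨s1, s2, -⟩ := spec brk A Q r hg
  unfold Fa
  conv_rhs => rw [← s2, ← map_pow]
  refine h2 _ (Im Q r) s1 _ _ fun m hm => ?_
  rw [h1 _ m hm, eval_pow, h1 _ m hm, zpow_natCast, Units.val_pow_eq_pow_val]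

theorem Fa_neg (hg : Q.Gen r) (k : ℕ) : Fa Q r (-(k : ℤ)) = Rn Q r ^ k := by
  obtain ⟨h1, h2⟩ := fc A Q r hg
  obtain ⟨s1, -, s3⟩ := spec brk A Q r hg
  unfold Fa
  conv_rhs => rw [← s3, ← map_pow]
  refine h2 _ (Im Q r) s1 _ _ fun m hm => ?_
  rw [h1 _ m hm, eval_pow, h1 _ m hm, zpow_neg, zpow_natCast, ← inv_pow,
    Units.val_pow_eq_pow_val]

theorem eb_Fa_PP (hg : Q.Gen r) (i : Fin 2) (a : ℤ) : PP (sw i ^ a) (eb r i (Fa Q r a)) := by
  obtain ⟨k, rfl | rfl⟩ := a.eq_nat_or_neg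
  · rw [Fa_nat hg, eb_pow, zpow_natCast]
    exact (eb_PP r i (ex_Rm Q r)).pow k
  · rw [Fa_neg hg, eb_pow, zpow_neg, zpow_natCast, ← inv_pow, sw_inv]
    exact (eb_PP r i (ex_Rn Q r)).pow k

/-- the word in the letters `(i, a)` -/
theorem wl_PP (hg : Q.Gen r) : ∀ (x : List ℤ) (b : Bool), PP (perm (bw b x)) (wl Q r b x) := by
  intro x
  induction x with
  | nil =>
    intro b
    cases b
    · show PP (perm 1) 1
      rw [map_one]
      exact PP.one
    · show PP (perm 1) 1
      rw [map_one]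
      exact PP.one
  | cons a l ih =>
    intro b
    cases b
    · have e1 : perm (bw false (a :: l)) = sw 0 ^ a * perm (bw true l) := by
        show perm (sg 0 ^ a * bw true l) = _
        rw [map_mul, map_zpow, perm_sg]
      have e2 : wl Q r false (a :: l) = eb r 0 (Fa Q r a) * wl Q r true l := by
        show aeval (emb12 (Im Q r)) _ * _ = _
        have := eb_aeval r 0 (Im Q r) (Q.interp r fun m => ((Q.fu m ^ a : Aˣ) : A))
        rw [eb_zero] at this
        rw [this]
        rfl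
      rw [e1, e2]
      exact (eb_Fa_PP hg 0 a).mul (ih true)
    · have e1 : perm (bw true (a :: l)) = sw 1 ^ a * perm (bw false l) := by
        show perm (sg 1 ^ a * bw false l) = _
        rw [map_mul, map_zpow, perm_sg]
      have e2 : wl Q r true (a :: l) = eb r 1 (Fa Q r a) * wl Q r false l := by
        show aeval (emb23 (Im Q r)) _ * _ = _
        have := eb_aeval r 1 (Im Q r) (Q.interp r fun m => ((Q.fu m ^ a : Aˣ) : A))
        rw [eb_one] at this
        rw [this]
        rfl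
      rw [e1, e2]
      exact (eb_Fa_PP hg 1 a).mul (ih false)

theorem opm_eq (i : Fin 2) :
    opm (ybt Q r).R i = ((cr Q r : Aˣ) : A) • res (eb r i (Rm Q r)) := by
  ext s t
  fin_cases i
  · show (if ∀ j : Fin 3, j ≠ 0 → j ≠ 1 → s j = t j then
      ((cr Q r : Aˣ) : A) * Rm Q r ((s 0).1, (s 1).1) ((t 0).1, (t 1).1) else 0) =
      ((cr Q r : Aˣ) : A) * (if (s 2).1 = (t 2).1 then
        Rm Q r ((s 0).1, (s 1).1) ((t 0).1, (t 1).1) else 0)
    by_cases h : s 2 = t 2
    · rw [if_pos, if_pos (congrArg Subtype.val h)]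
      intro j h0 h1
      have hj : j = 2 := by
        fin_cases j
        · exact absurd rfl h0
        · exact absurd rfl h1
        · rfl
      rw [hj, h]
    · rw [if_neg, if_neg (fun h' => h (Subtype.ext h')), mul_zero]
      intro h'
      exact h (h' 2 (by decide) (by decide))
  · show (if ∀ j : Fin 3, j ≠ 1 → j ≠ 2 → s j = t j then
      ((cr Q r : Aˣ) : A) * Rm Q r ((s 1).1, (s 2).1) ((t 1).1, (t 2).1) else 0) =
      ((cr Q r : Aˣ) : A) * (if (s 0).1 = (t 0).1 then
        Rm Q r ((s 1).1, (s 2).1) ((t 1).1, (t 2).1) else 0)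
    by_cases h : s 0 = t 0
    · rw [if_pos, if_pos (congrArg Subtype.val h)]
      intro j h0 h1
      have hj : j = 0 := by
        fin_cases j
        · rfl
        · exact absurd rfl h0
        · exact absurd rfl h1
      rw [hj, h]
    · rw [if_neg, if_neg (fun h' => h (Subtype.ext h')), mul_zero]
      intro h'
      exact h (h' 0 (by decide) (by decide))

/-- the unit of a generator -/
noncomputable def Vu (Q : QP A) (r : ℕ) (i : Fin 2) :
    (Matrix (Fin 3 → Ev r) (Fin 3 → Ev r) A)ˣ where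
  val := ((cr Q r : Aˣ) : A) • res (eb r i (Rm Q r))
  inv := (((cr Q r)⁻¹ : Aˣ) : A) • res (eb r i (Rn Q r))
  val_inv := by
    rw [smul_mul_smul_comm, ← res_mul (eb_PP r i (ex_Rn Q r)), ← eb_mul, mul_inv', eb_id,
      res_one, Units.mul_inv, one_smul]
  inv_val := by
    rw [smul_mul_smul_comm, ← res_mul (eb_PP r i (ex_Rm Q r)), ← eb_mul, inv_mul', eb_id,
      res_one, Units.inv_mul, one_smul]

theorem rho_zpow (hg : Q.Gen r) (ρ : Br 2 →* (Matrix (Fin 3 → Ev r) (Fin 3 → Ev r) A)ˣ)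
    (hρ : IsRep (ybt Q r) ρ) (i : Fin 2) (a : ℤ) :
    ((ρ (sg i) ^ a : (Matrix (Fin 3 → Ev r) (Fin 3 → Ev r) A)ˣ) :
      Matrix (Fin 3 → Ev r) (Fin 3 → Ev r) A)
      = ((cr Q r ^ a : Aˣ) : A) • res (eb r i (Fa Q r a)) := by
  have h1 : ρ (sg i) = Vu Q r i := by
    apply Units.ext
    rw [hρ i, opm_eq]
    rfl
  rw [h1]
  obtain ⟨k, rfl | rfl⟩ := a.eq_nat_or_neg
  · rw [zpow_natCast, zpow_natCast, Units.val_pow_eq_pow_val, Units.val_pow_eq_pow_val,
      Fa_nat hg, eb_pow, res_pow (eb_PP r i (ex_Rm Q r)), ← _root_.smul_pow]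
    rfl
  · rw [zpow_neg, zpow_neg, zpow_natCast, zpow_natCast, ← inv_pow, ← inv_pow,
      Units.val_pow_eq_pow_val, Units.val_pow_eq_pow_val,
      Fa_neg hg, eb_pow, res_pow (eb_PP r i (ex_Rn Q r)), ← _root_.smul_pow]
    rfl

theorem word (hg : Q.Gen r) (ρ : Br 2 →* (Matrix (Fin 3 → Ev r) (Fin 3 → Ev r) A)ˣ)
    (hρ : IsRep (ybt Q r) ρ) : ∀ (x : List ℤ) (b : Bool),
    ((ρ (bw b x) : (Matrix (Fin 3 → Ev r) (Fin 3 → Ev r) A)ˣ) :
      Matrix (Fin 3 → Ev r) (Fin 3 → Ev r) A)
      = ((cr Q r ^ x.sum : Aˣ) : A) • res (wl Q r b x) := by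
  intro x
  induction x with
  | nil =>
    intro b
    have e1 : ((ρ (bw b []) : (Matrix (Fin 3 → Ev r) (Fin 3 → Ev r) A)ˣ) :
        Matrix (Fin 3 → Ev r) (Fin 3 → Ev r) A) = 1 := by
      cases b
      · show ((ρ 1 : (Matrix (Fin 3 → Ev r) (Fin 3 → Ev r) A)ˣ) :
          Matrix (Fin 3 → Ev r) (Fin 3 → Ev r) A) = 1
        rw [map_one, Units.val_one]
      · show ((ρ 1 : (Matrix (Fin 3 → Ev r) (Fin 3 → Ev r) A)ˣ) :
          Matrix (Fin 3 → Ev r) (Fin 3 → Ev r) A) = 1
        rw [map_one, Units.val_one]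
    have e2 : res (wl Q r b []) = 1 := by
      cases b
      · exact res_one
      · exact res_one
    rw [e1, e2, List.sum_nil, zpow_zero, Units.val_one, one_smul]
  | cons a l ih =>
    intro b
    cases b
    · have e1 : bw false (a :: l) = sg 0 ^ a * bw true l := rfl
      have e2 : wl Q r false (a :: l) = eb r 0 (Fa Q r a) * wl Q r true l := by
        show aeval (emb12 (Im Q r)) _ * _ = _
        have := eb_aeval r 0 (Im Q r) (Q.interp r fun m => ((Q.fu m ^ a : Aˣ) : A))
        rw [eb_zero] at this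
        rw [this]
        rfl
      rw [e1, e2, map_mul, map_zpow, Units.val_mul, rho_zpow hg ρ hρ, ih, res_mul (wl_PP hg l true),
        smul_mul_smul_comm, List.sum_cons, zpow_add, Units.val_mul]
    · have e1 : bw true (a :: l) = sg 1 ^ a * bw false l := rfl
      have e2 : wl Q r true (a :: l) = eb r 1 (Fa Q r a) * wl Q r false l := by
        show aeval (emb23 (Im Q r)) _ * _ = _
        have := eb_aeval r 1 (Im Q r) (Q.interp r fun m => ((Q.fu m ^ a : Aˣ) : A))
        rw [eb_one] at this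
        rw [this]
        rfl
      rw [e1, e2, map_mul, map_zpow, Units.val_mul, rho_zpow hg ρ hρ, ih,
        res_mul (wl_PP hg l false), smul_mul_smul_comm, List.sum_cons, zpow_add, Units.val_mul]

/-- a function which is constant along a permutation is constant on its cycles -/
theorem same {σ : Equiv.Perm (Fin 3)} {f : Fin 3 → Bool} (hf : ∀ i, f i = f (σ⁻¹ i))
    {x y : Fin 3} (h : σ.SameCycle x y) : f x = f y := by
  have h1 : ∀ i, f (σ i) = f i := by
    intro i
    rw [hf (σ i), ← Equiv.Perm.mul_apply, inv_mul_cancel, Equiv.Perm.one_apply]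
  have h2 : ∀ (k : ℕ) i, f ((σ ^ k) i) = f i := by
    intro k
    induction k with
    | zero => intro i; rfl
    | succ k ih =>
      intro i
      rw [pow_succ', Equiv.Perm.mul_apply, h1, ih]
  obtain ⟨k, hk⟩ := h
  obtain ⟨m, rfl | rfl⟩ := k.eq_nat_or_neg
  · rw [zpow_natCast] at hk
    rw [← hk, h2]
  · rw [zpow_neg, zpow_natCast] at hk
    rw [← hk, ← h2 m ((σ ^ m)⁻¹ x), ← Equiv.Perm.mul_apply, mul_inv_cancel, Equiv.Perm.one_apply]

end

end LINK

open LINK in
theorem link : LINK_Stmt := by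
  intro r x hk ρ hρ
  have hg : QPS.Gen r := (gps brk r).1
  have h1 := word hg ρ hρ x false
  unfold trw
  rw [h1, sum_trip, Finset.mul_sum]
  · refine Finset.sum_congr rfl fun s _ => ?_
    have e1 : K3 QPS r (trip s) = ∏ i, (ybt QPS r).K (s i) := by
      rw [Fin.prod_univ_three]
      unfold K3
      have h0 : (trip s).1.par = false := (s 0).2
      have h1 : (trip s).2.1.par = false := (s 1).2
      have h2 : (trip s).2.2.par = false := (s 2).2
      rw [h0, h1, h2, if_pos (by decide), mul_assoc]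
      rfl
    rw [e1, ← mul_assoc]
    rfl
  · intro l hl i
    have hw := left_ne_zero_of_mul hl
    have hK := right_ne_zero_of_mul hl
    have hp : ∀ i, pv l i = pv l ((perm (bw false x))⁻¹ i) := wl_PP hg x false l l hw
    have h01 : pv l 0 = pv l 1 := same hp (hk 0 1)
    have h02 : pv l 0 = pv l 2 := same hp (hk 0 2)
    have hi : pv l i = pv l 0 := same hp (hk i 0)
    have h3 : xor l.1.par (xor l.2.1.par l.2.2.par) = false := by
      by_contra h3
      exact hK (if_neg h3)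
    have a0 : pv l 0 = l.1.par := rfl
    have a1 : pv l 1 = l.2.1.par := rfl
    have a2 : pv l 2 = l.2.2.par := rfl
    rw [← a0, ← a1, ← a2, ← h01, ← h02] at h3
    rw [hi]
    cases hc : pv l 0
    · rfl
    · rw [hc] at h3
      exact absurd h3 (by decide)

end Pool.Agent.T3
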