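import Pool.Agent.T3.Stmts2

/-!
Multiplicities: the number of solutions of a binary quadratic congruence modulo a power of two with
one fixed coordinate.
-/

namespace Pool.Agent.T3

namespace MULT

/-- Counting by residues modulo a smaller power of two. -/
theorem count {s k : ℕ} (hk : k ≤ s) (S : Finset (ZMod (2 ^ s))) (R : Finset ℕ)
    (hR : ∀ b ∈ S, b.val % 2 ^ k ∈ R) : S.card ≤ R.card * 2 ^ (s - k) := by
  have h1 : (R ×ˢ Finset.range (2 ^ (s - k))).card = R.card * 2 ^ (s - k) := by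
    rw [Finset.card_product, Finset.card_range]
  rw [← h1]
  refine Finset.card_le_card_of_injOn (fun b => (b.val % 2 ^ k, b.val / 2 ^ k)) ?_ ?_
  · intro b hb
    have h2 : b.val < 2 ^ s := ZMod.val_lt b
    have h3 : b.val / 2 ^ k < 2 ^ (s - k) := by
      apply Nat.div_lt_of_lt_mul
      rwa [← pow_add, Nat.add_sub_cancel' hk]
    exact Finset.mem_coe.mpr (Finset.mem_product.mpr ⟨hR b hb, Finset.mem_range.mpr h3⟩)
  · intro b _ b' _ hbb
    have h4 := congrArg Prod.fst hbb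
    have h5 := congrArg Prod.snd hbb
    simp only at h4 h5
    apply ZMod.val_injective
    rw [← Nat.mod_add_div b.val (2 ^ k), ← Nat.mod_add_div b'.val (2 ^ k), h4, h5]

/-- The odd part. -/
theorem decomp {M : ℤ} (hM : M ≠ 0) : ∃ m : ℤ, Odd m ∧ M = 2 ^ (padicValInt 2 M) * m := by
  obtain ⟨m, hm⟩ : (2 : ℤ) ^ (padicValInt 2 M) ∣ M := by
    have := padicValInt_dvd (p := 2) M
    exact_mod_cast this
  refine ⟨m, ?_, hm⟩
  rw [← Int.not_even_iff_odd]
  rintro ⟨l, hl⟩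
  have h1 : (2 : ℤ) ^ (padicValInt 2 M + 1) ∣ M := ⟨l, by rw [pow_succ]; rw [hl] at hm; linarith⟩
  have h2 := (padicValInt_dvd_iff (p := 2) (padicValInt 2 M + 1) M).mp (by exact_mod_cast h1)
  rcases h2 with h2 | h2
  · exact hM h2
  · omega

/-- A square which is a power of two times an odd number. -/
theorem sq_val {v : ℕ} {w m : ℤ} (hm : Odd m) (h : w ^ 2 = 2 ^ v * m) :
    ∃ (e : ℕ) (x : ℤ), v = 2 * e ∧ w = 2 ^ e * x ∧ Odd x := by
  have hm0 : m ≠ 0 := by
    rintro rfl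
    simp at hm
  have hw : w ≠ 0 := by
    rintro rfl
    have h1 : (2 : ℤ) ^ v * m ≠ 0 := mul_ne_zero (by positivity) hm0
    exact h1 (by rw [← h]; ring)
  obtain ⟨x, hx, hwx⟩ := decomp hw
  set e := padicValInt 2 w with he
  have h2 : (2 : ℤ) ^ (2 * e) * x ^ 2 = 2 ^ v * m := by
    rw [← h, hwx]; ring
  refine ⟨e, x, ?_, hwx, hx⟩
  rcases lt_trichotomy v (2 * e) with hlt | heq | hgt
  · exfalso
    obtain ⟨d, hd⟩ := Nat.exists_eq_add_of_lt hlt
    rw [hd] at h2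
    have h3 : (2 : ℤ) ^ v * (2 * (2 ^ d * x ^ 2)) = 2 ^ v * m := by
      rw [← h2]; ring
    have h4 : 2 * (2 ^ d * x ^ 2) = m := mul_left_cancel₀ (by positivity) h3
    rw [← h4] at hm
    exact (Int.not_even_iff_odd.mpr hm) (even_two_mul _)
  · exact heq
  · exfalso
    obtain ⟨d, hd⟩ := Nat.exists_eq_add_of_lt hgt
    rw [hd] at h2
    have h3 : (2 : ℤ) ^ (2 * e) * x ^ 2 = 2 ^ (2 * e) * (2 * (2 ^ d * m)) := by
      rw [h2]; ring
    have h4 : x ^ 2 = 2 * (2 ^ d * m) := mul_left_cancel₀ (by positivity) h3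
    have h5 : Odd (x ^ 2) := hx.pow
    rw [h4] at h5
    exact (Int.not_even_iff_odd.mpr h5) (even_two_mul _)

/-- Two square roots of the same number modulo `2^(s+1)`. -/
theorem roots {s v : ℕ} {M m w1 w2 : ℤ} (hm : Odd m) (hM : M = 2 ^ v * m) (hv : v ≤ s)
    (h1 : (2 : ℤ) ^ (s + 1) ∣ w1 ^ 2 - M) (h2 : (2 : ℤ) ^ (s + 1) ∣ w2 ^ 2 - M) :
    ∃ e : ℕ, v = 2 * e ∧ ((2 : ℤ) ^ (s - e) ∣ w1 - w2 ∨ (2 : ℤ) ^ (s - e) ∣ w1 + w2) := by
  have key : ∀ w : ℤ, (2 : ℤ) ^ (s + 1) ∣ w ^ 2 - M →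
      ∃ (e : ℕ) (x : ℤ), v = 2 * e ∧ w = 2 ^ e * x ∧ Odd x := by
    rintro w ⟨y, hy⟩
    obtain ⟨d, hd⟩ := Nat.exists_eq_add_of_le hv
    refine sq_val (m := m + 2 * (2 ^ d * y)) (hm.add_even (even_two_mul _)) ?_
    rw [hd, hM] at hy
    have : (2 : ℤ) ^ (v + d + 1) = 2 ^ v * (2 * 2 ^ d) := by ring
    rw [this] at hy
    linarith
  obtain ⟨e, x1, he, hx1, ho1⟩ := key w1 h1
  obtain ⟨e', x2, he', hx2, ho2⟩ := key w2 h2
  have hee : e' = e := by omega
  subst hee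
  refine ⟨e', he, ?_⟩
  obtain ⟨p, hp⟩ := (ho1.sub_odd ho2)
  obtain ⟨q, hq⟩ := (ho1.add_odd ho2)
  have hpq : x1 = p + q := by linarith
  have h3 : (2 : ℤ) ^ (s + 1) ∣ w1 ^ 2 - w2 ^ 2 := by
    have := dvd_sub h1 h2
    rwa [sub_sub_sub_cancel_right] at this
  have h4 : w1 ^ 2 - w2 ^ 2 = 2 ^ (2 * e') * (4 * (p * q)) := by
    have : x1 ^ 2 - x2 ^ 2 = 4 * (p * q) := by
      have : x1 ^ 2 - x2 ^ 2 = (x1 - x2) * (x1 + x2) := by ring
      rw [this, hp, hq]; ring
    rw [hx1, hx2, ← this]; ring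
  -- a power of two dividing `p q` divides `p` or `q`
  have h5 : ∀ n : ℕ, (2 : ℤ) ^ n ∣ p * q → (2 : ℤ) ^ n ∣ p ∨ (2 : ℤ) ^ n ∣ q := by
    intro n hn
    rcases Int.even_or_odd p with hpe | hpo
    · left
      have hqo : Odd q := by
        rw [hpq] at ho1
        exact (Int.odd_add.mp (by rw [add_comm]; exact ho1)).mpr hpe
      have hc : IsCoprime ((2 : ℤ) ^ n) q := by
        apply IsCoprime.pow_left
        exact Int.isCoprime_two_left.mpr hqo
      exact hc.dvd_of_dvd_mul_right hn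
    · right
      have hc : IsCoprime ((2 : ℤ) ^ n) p := by
        apply IsCoprime.pow_left
        exact Int.isCoprime_two_left.mpr hpo
      exact hc.dvd_of_dvd_mul_left hn
  rcases Nat.lt_or_ge (2 * e') s with hlt | hge
  · obtain ⟨d, hd⟩ := Nat.exists_eq_add_of_lt hlt
    have h6 : (2 : ℤ) ^ d ∣ p * q := by
      rw [h4, hd] at h3
      have h7 : (2 : ℤ) ^ (2 * e' + d + 1 + 1) = 2 ^ (2 * e') * (4 * 2 ^ d) := by ring
      rw [h7] at h3
      have h8 := (mul_dvd_mul_iff_left (by positivity : (2 : ℤ) ^ (2 * e') ≠ 0)).mp h3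
      exact (mul_dvd_mul_iff_left (by norm_num : (4 : ℤ) ≠ 0)).mp h8
    have h9 : s - e' = e' + (d + 1) := by omega
    rw [h9]
    rcases h5 d h6 with ⟨y, hy⟩ | ⟨y, hy⟩
    · left
      refine ⟨y, ?_⟩
      have : x1 - x2 = 2 * p := by linarith
      rw [hx1, hx2, ← mul_sub, this, hy]; ring
    · right
      refine ⟨y, ?_⟩
      have : x1 + x2 = 2 * q := by linarith
      rw [hx1, hx2, ← mul_add, this, hy]; ring
  · left
    have h9 : s - e' ≤ e' := by omega
    refine (pow_dvd_pow 2 h9).trans ?_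
    rw [hx1, hx2, ← mul_sub]
    exact dvd_mul_right _ _

end MULT

open MULT in
theorem mult : MULT_Stmt := by
  classical
  intro s A B C N a hA hB hC hN hM
  set M : ℤ := (B ^ 2 - 4 * A * C) * a ^ 2 + 4 * (C * N) with hMdef
  obtain ⟨m, hm, hMm⟩ := decomp hM
  set v := padicValInt 2 M with hv
  have h2v : ∀ n : ℕ, n ≤ v / 2 → 2 ^ n ≤ 2 ^ (v / 2) := fun n hn =>
    Nat.pow_le_pow_right (by norm_num) hn
  -- the solutions
  set S : Finset (ZMod (2 ^ s)) := Finset.univ.filter (fun b : ZMod (2 ^ s) =>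
    2 * ((A : ZMod (2 ^ s)) * a ^ 2 + B * a * b + C * b ^ 2 - N) = 0) with hS
  have hcard : Nat.card {b : ZMod (2 ^ s) //
      2 * ((A : ZMod (2 ^ s)) * a ^ 2 + B * a * b + C * b ^ 2 - N) = 0} = S.card := by
    rw [Nat.card_eq_fintype_card, Fintype.card_subtype]
  rw [hcard]
  -- the square roots
  let w : ZMod (2 ^ s) → ℤ := fun b => 2 * C * (b.val : ℤ) + B * a
  have hw : ∀ b ∈ S, (2 : ℤ) ^ (s + 1) ∣ w b ^ 2 - M := by
    intro b hb
    have h1 := (Finset.mem_filter.mp hb).2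
    have h2 : ((2 * (A * a ^ 2 + B * a * (b.val : ℤ) + C * (b.val : ℤ) ^ 2 - N) : ℤ) :
        ZMod (2 ^ s)) = 0 := by
      push_cast
      rw [ZMod.natCast_zmod_val]
      exact h1
    rw [ZMod.intCast_zmod_eq_zero_iff_dvd] at h2
    obtain ⟨y, hy⟩ := h2
    push_cast at hy
    refine ⟨C * y, ?_⟩
    change (2 * C * (b.val : ℤ) + B * a) ^ 2 - M = _
    rw [hMdef]
    have : (2 : ℤ) ^ (s + 1) * (C * y) = 2 * C * (2 ^ s * y) := by ring
    rw [this, ← hy]
    ring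
  have hcop : ∀ n : ℕ, IsCoprime ((2 : ℤ) ^ n) C := fun n =>
    IsCoprime.pow_left (Int.isCoprime_two_left.mpr hC)
  -- from divisibility to residues
  have hres : ∀ (k : ℕ) (b b' : ZMod (2 ^ s)), (2 : ℤ) ^ k ∣ C * ((b.val : ℤ) - b'.val) →
      b.val % 2 ^ k = b'.val % 2 ^ k := by
    intro k b b' h
    have h1 : (2 : ℤ) ^ k ∣ (b.val : ℤ) - b'.val := (hcop k).dvd_of_dvd_mul_left h
    have h2 : ((b'.val : ℕ) : ℤ) ≡ ((b.val : ℕ) : ℤ) [ZMOD ((2 ^ k : ℕ) : ℤ)] := by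
      rw [Int.modEq_iff_dvd]
      exact_mod_cast h1
    exact ((Int.natCast_modEq_iff.mp h2).symm : b.val ≡ b'.val [MOD 2 ^ k])
  rcases S.eq_empty_or_nonempty with hemp | ⟨b0, hb0⟩
  · rw [hemp]; simp
  rcases Nat.lt_or_ge s v with hsv | hvs
  · -- large valuation
    have hd0 : ∀ b ∈ S, (2 : ℤ) ^ ((s + 2) / 2) ∣ w b := by
      intro b hb
      have h1 : (2 : ℤ) ^ (s + 1) ∣ w b ^ 2 := by
        have h2 : (2 : ℤ) ^ (s + 1) ∣ M := by
          rw [hMm]
          exact (pow_dvd_pow 2 hsv).mul_right m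
        have := dvd_add (hw b hb) h2
        rwa [sub_add_cancel] at this
      by_cases hz : w b = 0
      · rw [hz]; exact dvd_zero _
      obtain ⟨x, hx, hwx⟩ := decomp hz
      set e := padicValInt 2 (w b)
      have h3 : s + 1 ≤ 2 * e := by
        by_contra hlt
        push Not at hlt
        obtain ⟨d, hd⟩ := Nat.exists_eq_add_of_lt hlt
        rw [hwx, hd] at h1
        have h4 : ((2 : ℤ) ^ e * x) ^ 2 = 2 ^ (2 * e) * x ^ 2 := by ring
        have h5 : (2 : ℤ) ^ (2 * e + d + 1) = 2 ^ (2 * e) * (2 * 2 ^ d) := by ring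
        rw [h4, h5] at h1
        have h6 := (mul_dvd_mul_iff_left (by positivity : (2 : ℤ) ^ (2 * e) ≠ 0)).mp h1
        have h7 : (2 : ℤ) ∣ x ^ 2 := (dvd_mul_right 2 _).trans h6
        exact (Int.not_even_iff_odd.mpr (hx.pow (n := 2))) (even_iff_two_dvd.mpr h7)
      rw [hwx]
      exact (pow_dvd_pow 2 (by omega)).mul_right x
    have hk : s / 2 ≤ s := Nat.div_le_self s 2
    have h1 := count hk S {b0.val % 2 ^ (s / 2)} (by
      intro b hb
      rw [Finset.mem_singleton]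
      apply hres
      have h2 := dvd_sub (hd0 b hb) (hd0 b0 hb0)
      have h3 : w b - w b0 = 2 * (C * ((b.val : ℤ) - b0.val)) := by
        change 2 * C * (b.val : ℤ) + B * a - (2 * C * (b0.val : ℤ) + B * a) = _
        ring
      have h4 : (s + 2) / 2 = s / 2 + 1 := by omega
      rw [h3, h4, pow_succ, mul_comm ((2 : ℤ) ^ (s / 2)) 2] at h2
      exact (mul_dvd_mul_iff_left (by norm_num : (2 : ℤ) ≠ 0)).mp h2)
    rw [Finset.card_singleton, one_mul] at h1
    have h2 : 2 ^ (s - s / 2) ≤ 2 ^ (v / 2) := h2v _ (by omega)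
    omega
  · -- small valuation
    obtain ⟨e, he, -⟩ := roots hm hMm hvs (hw b0 hb0) (hw b0 hb0)
    rcases Nat.eq_zero_or_pos s with hs0 | hs0
    · have h1 := count (s := s) (k := 0) (Nat.zero_le s) S {0} (by
        intro b _
        rw [Finset.mem_singleton, pow_zero, Nat.mod_one])
      have h3 : 2 ^ (s - 0) = 1 := by rw [hs0]; norm_num
      rw [Finset.card_singleton, h3] at h1
      have h2 : 1 ≤ 2 ^ (v / 2) := Nat.one_le_two_pow
      omega
    have hes : e < s := by omega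
    have hk : s - e - 1 ≤ s := by omega
    have hse : s - e = s - e - 1 + 1 := by omega
    -- a second residue
    obtain ⟨r, hr⟩ : ∃ r : ℕ, ∀ b ∈ S, (2 : ℤ) ^ (s - e) ∣ w b + w b0 →
        b.val % 2 ^ (s - e - 1) = r := by
      by_cases hex : ∃ b1 ∈ S, (2 : ℤ) ^ (s - e) ∣ w b1 + w b0
      · obtain ⟨b1, hb1, h1⟩ := hex
        refine ⟨b1.val % 2 ^ (s - e - 1), fun b hb h2 => ?_⟩
        apply hres
        have h3 := dvd_sub h2 h1
        have h4 : w b + w b0 - (w b1 + w b0) = 2 * (C * ((b.val : ℤ) - b1.val)) := by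
          change 2 * C * (b.val : ℤ) + B * a + w b0 - (2 * C * (b1.val : ℤ) + B * a + w b0) = _
          ring
        rw [h4, hse, pow_succ, mul_comm ((2 : ℤ) ^ (s - e - 1)) 2] at h3
        exact (mul_dvd_mul_iff_left (by norm_num : (2 : ℤ) ≠ 0)).mp h3
      · exact ⟨0, fun b hb h2 => absurd ⟨b, hb, h2⟩ hex⟩
    have h1 := count hk S {b0.val % 2 ^ (s - e - 1), r} (by
      intro b hb
      obtain ⟨e', he', h2⟩ := roots hm hMm hvs (hw b hb) (hw b0 hb0)
      have hee : e' = e := by omega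
      rw [hee] at h2
      rw [Finset.mem_insert, Finset.mem_singleton]
      rcases h2 with h2 | h2
      · left
        apply hres
        have h4 : w b - w b0 = 2 * (C * ((b.val : ℤ) - b0.val)) := by
          change 2 * C * (b.val : ℤ) + B * a - (2 * C * (b0.val : ℤ) + B * a) = _
          ring
        rw [h4, hse, pow_succ, mul_comm ((2 : ℤ) ^ (s - e - 1)) 2] at h2
        exact (mul_dvd_mul_iff_left (by norm_num : (2 : ℤ) ≠ 0)).mp h2
      · right
        exact hr b hb h2)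
    have h2 : ({b0.val % 2 ^ (s - e - 1), r} : Finset ℕ).card ≤ 2 := Finset.card_le_two
    have h3 : s - (s - e - 1) = e + 1 := by omega
    rw [h3] at h1
    have h4 : v / 2 = e := by omega
    rw [h4]
    calc S.card ≤ _ := h1
      _ ≤ 2 * 2 ^ (e + 1) := Nat.mul_le_mul_right _ h2
      _ = 4 * 2 ^ e := by ring

end Pool.Agent.T3
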