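import Pool.Agent.T3.Stmts
import Pool.Agent.TB.Nat
import Pool.Agent.TB.Brk

/-!
Module NAT3: base change of the traces of words.
-/

open Polynomial
open scoped BigOperators

namespace Pool.Agent.T3

open Pool.Agent.TB

namespace NAT3

variable {A B : Type} [CommRing A] [CommRing B] (φ : A →+* B)

theorem kinv_map (Q : QP A) : ∀ u v : Bool, kinv (Q.map φ) u v = φ (kinv Q u v)
  | true, false => TB.NAT.qp_map φ Q _
  | false, true => TB.NAT.qp_map φ Q _
  | true, true => (map_one φ).symm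
  | false, false => (map_one φ).symm

theorem bm_map : ∀ u v a b : Bool, bm B u v a b = φ (bm A u v a b) := by
  intro u v a b
  cases u <;> cases v <;> cases a <;> cases b <;> simp [bm]

theorem Im_map (Q : QP A) : ∀ r, Im (Q.map φ) r = (Im Q r).map φ
  | 0 => by
      ext p c
      simp [Im]
  | r + 1 => by
      ext p c
      have h := congrFun (congrFun (Im_map Q r) (p.1.1, p.2.1)) (c.1.1, c.2.1)
      rw [Matrix.map_apply] at h
      rw [Matrix.map_apply, Im, Im]
      simp only [map_add]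
      congr 1
      · split_ifs
        · rw [map_mul, kinv_map, h]
        · rw [map_zero]
      · split_ifs
        · exact bm_map φ _ _ _ _
        · rw [map_zero]

theorem emb12_map {L : Type} [DecidableEq L] (M : Matrix (L × L) (L × L) A) :
    emb12 (M.map φ) = (emb12 M).map φ := by
  ext p c
  rw [Matrix.map_apply, emb12, emb12]
  split_ifs
  · rfl
  · rw [map_zero]

theorem emb23_map {L : Type} [DecidableEq L] (M : Matrix (L × L) (L × L) A) :
    emb23 (M.map φ) = (emb23 M).map φ := by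
  ext p c
  rw [Matrix.map_apply, emb23, emb23]
  split_ifs
  · rfl
  · rw [map_zero]

theorem aeval_map {n : Type} [Fintype n] [DecidableEq n] (M : Matrix n n A) (P : A[X]) :
    aeval (M.map φ) (P.map φ) = (aeval M P).map φ := by
  have h : (algebraMap B (Matrix n n B)).comp φ =
      (φ.mapMatrix : Matrix n n A →+* Matrix n n B).comp (algebraMap A (Matrix n n A)) := by
    ext a i j
    simp only [RingHom.comp_apply, RingHom.mapMatrix_apply, Matrix.map_apply,
      Matrix.algebraMap_matrix_apply]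
    split_ifs
    · rfl
    · rw [map_zero]
  exact (Polynomial.map_aeval_eq_aeval_map h P M).symm

theorem Kw_map (Q : QP A) : ∀ (r : ℕ) (x : Lb r), Kw (Q.map φ) r x = φ (Kw Q r x)
  | 0, _ => (map_one φ).symm
  | r + 1, x => by
      rw [Kw, Kw, map_mul, Kw_map Q r x.1]
      congr 1
      split_ifs
      · exact TB.NAT.qp_map φ Q _
      · exact TB.NAT.qp_map φ Q _

theorem K3_map (Q : QP A) (r : ℕ) (l : Lb r × Lb r × Lb r) :
    K3 (Q.map φ) r l = φ (K3 Q r l) := by
  rw [K3, K3]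
  split_ifs
  · rw [map_mul, map_mul, Kw_map, Kw_map, Kw_map]
  · rw [map_zero]

theorem fu_interp_map (Q : QP A) (r : ℕ) (h : Q.Gen r) (a : ℤ) :
    ((Q.map φ).interp r fun m => (((Q.map φ).fu m ^ a : Bˣ) : B)) =
      (Q.interp r fun m => ((Q.fu m ^ a : Aˣ) : A)).map φ := by
  refine TB.NAT.interp_map φ Q r h _ _ fun m => ?_
  rw [TB.NAT.fu_map, ← map_zpow]
  rfl

theorem wl_map (Q : QP A) (r : ℕ) (h : Q.Gen r) : ∀ (b : Bool) (l : List ℤ),
    wl (Q.map φ) r b l = (wl Q r b l).map φ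
  | b, [] => by
      cases b
      · rw [wl, wl, Matrix.map_one φ (map_zero φ) (map_one φ)]
      · rw [wl, wl, Matrix.map_one φ (map_zero φ) (map_one φ)]
  | false, a :: l => by
      rw [wl, wl, wl_map Q r h true l, fu_interp_map φ Q r h a, Im_map, emb12_map, aeval_map,
        Matrix.map_mul]
  | true, a :: l => by
      rw [wl, wl, wl_map Q r h false l, fu_interp_map φ Q r h a, Im_map, emb23_map, aeval_map,
        Matrix.map_mul]

/-! ### The modules `W_r` -/

theorem isUnit_cu (Q : QP A) (r : ℕ) (h : Q.Gen r) (m : ℤ) (h1 : -(r : ℤ) < m)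
    (h2 : m < (r : ℤ)) : IsUnit (Q.qp m + Q.qp (-m)) := by
  have h3 := h (m + 1) (Finset.mem_Icc.mpr ⟨by omega, by omega⟩) (m - 1)
    (Finset.mem_Icc.mpr ⟨by omega, by omega⟩) (by omega)
  obtain ⟨_, _, _, _, _, _, _, _, h4, _⟩ := brk A Q
  rw [h4 m] at h3
  exact (Q.i.isUnit_units_mul _).mp h3

theorem upc_map (Q : QP A) (r : ℕ) (h : Q.Gen r) (m : ℤ) (hm : m ∈ Finset.Icc (-(r : ℤ)) r) :
    upc (Q.map φ) r m = φ (upc Q r m) := by
  rw [Finset.mem_Icc] at hm
  rw [upc, upc]
  split_ifs with h1 h2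
  · exact TB.NAT.lam_map φ Q _
  · rw [map_zero]
  · rw [map_mul, map_mul, TB.NAT.br_map, TB.NAT.inverse_map φ _ (isUnit_cu Q r h m (by omega) (by omega)),
      map_add, TB.NAT.qp_map, TB.NAT.qp_map]
    rfl

theorem dnc_map (Q : QP A) (r : ℕ) (h : Q.Gen r) (m : ℤ) (hm : m ∈ Finset.Icc (-(r : ℤ)) r) :
    dnc (Q.map φ) r m = φ (dnc Q r m) := by
  rw [Finset.mem_Icc] at hm
  rw [dnc, dnc]
  split_ifs with h1 h2
  · exact TB.NAT.lam_map φ Q _
  · rw [map_zero]
  · rw [map_mul, map_mul, TB.NAT.br_map, TB.NAT.inverse_map φ _ (isUnit_cu Q r h m (by omega) (by omega)),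
      map_add, TB.NAT.qp_map, TB.NAT.qp_map]
    rfl

theorem Iw1_map (Q : QP A) (r : ℕ) (h : Q.Gen r) : Iw1 (Q.map φ) r = (Iw1 Q r).map φ := by
  ext m m'
  rw [Matrix.map_apply, Iw1, Iw1]
  split_ifs
  · exact upc_map φ Q r h m m.2
  · exact dnc_map φ Q r h m m.2
  · rw [map_zero]

theorem wm_map (Q : QP A) (r : ℕ) (h : Q.Gen r) : ∀ (b : Bool) (l : List ℤ),
    wm (Q.map φ) r b l = (wm Q r b l).map φ
  | b, [] => by
      cases b
      · rw [wm, wm, Matrix.map_one φ (map_zero φ) (map_one φ)]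
      · rw [wm, wm, Matrix.map_one φ (map_zero φ) (map_one φ)]
  | false, a :: l => by
      rw [wm, wm, wm_map Q r h true l, fu_interp_map φ Q r h a, Iw1_map φ Q r h, aeval_map,
        Matrix.map_mul]
  | true, a :: l => by
      rw [wm, wm, wm_map Q r h false l, Matrix.map_mul, Matrix.diagonal_map (map_zero φ)]
      congr 2
      funext m
      rw [TB.NAT.fu_map, ← map_zpow]
      rfl

end NAT3

open NAT3 in
/-- **Module NAT3.** -/
theorem nat3 : NAT3_Stmt := by
  intro A B _ _ φ Q r h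
  refine ⟨TB.NAT.gen_map φ Q r h, fun x => ?_, fun x => ?_, ?_⟩
  · rw [chi, chi, wm_map φ Q r h, Matrix.trace, Matrix.trace, map_sum]
    rfl
  · rw [map_sum]
    refine Finset.sum_congr rfl fun l _ => ?_
    rw [map_mul, wl_map φ Q r h, K3_map, Matrix.map_apply]
  · rw [map_sum]
    refine Finset.sum_congr rfl fun l _ => ?_
    rw [map_mul, K3_map, TB.NAT.basis_map φ Q r h r (Finset.mem_Icc.mpr ⟨by omega, le_refl _⟩),
      Im_map, emb23_map, aeval_map, Matrix.map_apply]

end Pool.Agent.T3
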