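import Pool.Agent.T3.Stmts2

/-!
Finite type invariants of closed 3-braids: module ODD3 (the trace of the matrix of a knot is odd).
See PAPER.md in this folder, section I.
-/

namespace Pool.Agent.T3

open Pool.Agent.TB Pool.Agent.LibH11

namespace ODD3

/-- The characteristic function of the set `{a, b}`, as a vector over `ZMod 2`, evaluated at `c`. -/
def chv (a b c : Fin 3) : ZMod 2 := (if c = a then 1 else 0) + (if c = b then 1 else 0)

/-- The action of a permutation on the sum-zero vectors of `(ZMod 2)^3` in the basis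
`e_1 + e_2, e_0 + e_1`. A vector `x` of sum zero is `x_2 (e_1 + e_2) + x_0 (e_0 + e_1)`. -/
def TM (σ : Equiv.Perm (Fin 3)) : Matrix (Fin 2) (Fin 2) (ZMod 2) :=
  !![chv (σ 1) (σ 2) 2, chv (σ 0) (σ 1) 2; chv (σ 1) (σ 2) 0, chv (σ 0) (σ 1) 0]

theorem TM_one : TM 1 = 1 := by decide

theorem TM_mul : ∀ σ τ : Equiv.Perm (Fin 3), TM (σ * τ) = TM σ * TM τ := by decide

theorem TM_det : ∀ σ : Equiv.Perm (Fin 3), (TM σ).det = 1 := by decide

theorem TM_tr : ∀ σ : Equiv.Perm (Fin 3), (∀ x, σ x ≠ x) → (TM σ).trace = 1 := by decide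

/-- the isomorphism -/
def TH : Equiv.Perm (Fin 3) →* Matrix.SpecialLinearGroup (Fin 2) (ZMod 2) where
  toFun σ := ⟨TM σ, TM_det σ⟩
  map_one' := Subtype.ext TM_one
  map_mul' σ τ := Subtype.ext (TM_mul σ τ)

/-- reduction modulo 2 -/
def red : Matrix.SpecialLinearGroup (Fin 2) ℤ →* Matrix.SpecialLinearGroup (Fin 2) (ZMod 2) :=
  Matrix.SpecialLinearGroup.map (Int.castRingHom (ZMod 2))

theorem red_rho : red.comp rho = TH.comp (perm (n := 2)) := by
  apply PresentedGroup.ext
  intro i
  show red (rho (sg i)) = TH (perm (sg i))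
  unfold rho perm
  rw [liftBr_sg, liftBr_sg]
  apply Subtype.ext
  fin_cases i
  · show (mD.1.map (Int.castRingHom (ZMod 2)) : Matrix (Fin 2) (Fin 2) (ZMod 2)) =
      TM (Equiv.swap 0 1)
    decide
  · show (mC.1.map (Int.castRingHom (ZMod 2)) : Matrix (Fin 2) (Fin 2) (ZMod 2)) =
      TM (Equiv.swap 1 2)
    decide

end ODD3

open ODD3

/-- ODD3: the trace of the matrix of a knot is odd. -/
theorem odd3 : ODD3_Stmt := by
  intro b hb
  have hfix : ∀ x : Fin 3, perm b x ≠ x := by
    intro x hx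
    have h1 : ∀ y, x = y := fun y => (hb x y).eq_of_left hx
    have h2 := h1 0
    have h3 := h1 1
    rw [h2] at h3
    exact absurd h3 (by decide)
  have h1 : (TM (perm b)).trace = 1 := TM_tr _ hfix
  have h2 : red (rho b) = TH (perm b) := DFunLike.congr_fun red_rho b
  have h3 : ((rho b).1.map (Int.castRingHom (ZMod 2))).trace = 1 := by
    rw [← h1]
    exact congrArg Matrix.trace (congrArg Subtype.val h2)
  have h4 : (((rho b).1.trace : ℤ) : ZMod 2) = 1 := by
    rw [← h3, Matrix.trace_fin_two, Matrix.trace_fin_two]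
    push_cast
    rfl
  rw [← Int.not_even_iff_odd]
  intro h5
  have h6 : (((rho b).1.trace : ℤ) : ZMod 2) = 0 := by
    rw [ZMod.intCast_zmod_eq_zero_iff_dvd]
    exact h5.two_dvd
  rw [h6] at h4
  exact absurd h4 (by decide)

end Pool.Agent.T3
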