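import Pool.Agent.T3.Stmts2

/-!
Finite type invariants of closed 3-braids: module ORB3 (the sum over all orbits).
See PAPER.md in this folder.
-/

open Filter Topology
open scoped BigOperators

namespace Pool.Agent.T3.ORB3

open Pool.Agent.T3

/-- the action of the powers of `M` -/
def pw (M : Matrix.SpecialLinearGroup (Fin 2) ℤ) (k : ℤ) (R : Fin 2 → ℤ) : Fin 2 → ℤ :=
  (M ^ k).1.mulVec R

variable (M : Matrix.SpecialLinearGroup (Fin 2) ℤ)

theorem pw_zero (R : Fin 2 → ℤ) : pw M 0 R = R := by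
  simp [pw]

theorem pw_add (k l : ℤ) (R : Fin 2 → ℤ) : pw M (k + l) R = pw M k (pw M l R) := by
  unfold pw
  rw [zpow_add, Matrix.mulVec_mulVec]
  rfl

theorem act_eq (A : Matrix.SpecialLinearGroup (Fin 2) ℤ) (R : Fin 2 → ℤ) :
    act A (R 0, R 1) = ((A.1.mulVec R) 0, (A.1.mulVec R) 1) := by
  simp [act, Matrix.mulVec, dotProduct, Fin.sum_univ_two]

theorem det_mul (B : Matrix.SpecialLinearGroup (Fin 2) ℤ) (u w : Fin 2 → ℤ) :
    (B.1.mulVec u) 0 * (B.1.mulVec w) 1 - (B.1.mulVec u) 1 * (B.1.mulVec w) 0 =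
      u 0 * w 1 - u 1 * w 0 := by
  have h := B.2
  rw [Matrix.det_fin_two] at h
  simp only [Matrix.mulVec, dotProduct, Fin.sum_univ_two]
  linear_combination (u 0 * w 1 - u 1 * w 0) * h

theorem qf_pw (k : ℤ) (R : Fin 2 → ℤ) : qf M (pw M k R) = qf M R := by
  have h : M.1.mulVec (pw M k R) = (M ^ k).1.mulVec (M.1.mulVec R) := by
    have h1 : pw M (1 + k) R = pw M (k + 1) R := by rw [add_comm]
    rw [pw_add, pw_add] at h1
    simpa [pw] using h1
  unfold qf
  rw [h]
  exact det_mul (M ^ k) R (M.1.mulVec R)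

theorem orb_pw (k : ℤ) (R : Fin 2 → ℤ) : orb M (pw M k R) = orb M R := by
  ext R'
  constructor
  · rintro ⟨l, hl⟩
    exact ⟨l + k, by rw [hl]; exact (pw_add M l k R).symm⟩
  · rintro ⟨l, hl⟩
    refine ⟨l - k, ?_⟩
    rw [hl]
    have := pw_add M (l - k) k R
    rw [sub_add_cancel] at this
    exact this

theorem mem_orb_self (R : Fin 2 → ℤ) : R ∈ orb M R := ⟨0, (pw_zero M R).symm⟩

theorem sum_tel (g : ℤ → ℝ) (n : ℕ) :
    ∑ k ∈ Finset.Icc (-(n : ℤ)) n, (g k - g (k - 1)) = g n - g (-(n : ℤ) - 1) := by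
  induction n with
  | zero => simp
  | succ n ih =>
    have h : Finset.Icc (-((n + 1 : ℕ) : ℤ)) ((n + 1 : ℕ) : ℤ) =
        insert (-((n + 1 : ℕ) : ℤ)) (insert ((n + 1 : ℕ) : ℤ) (Finset.Icc (-(n : ℤ)) n)) := by
      ext k
      simp only [Finset.mem_Icc, Finset.mem_insert]
      push_cast
      omega
    rw [h, Finset.sum_insert, Finset.sum_insert, ih]
    · push_cast
      have e1 : ((n : ℤ) + 1 - 1) = n := by ring
      have e2 : (-(n : ℤ) - 1) = -((n : ℤ) + 1) := by ring
      rw [e1, e2]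
      ring
    · simp only [Finset.mem_Icc]
      push_cast
      omega
    · simp only [Finset.mem_Icc, Finset.mem_insert]
      push_cast
      omega

theorem tsum_tel (g : ℤ → ℝ) (c : ℝ) (hs : Summable fun k : ℤ => g k - g (k - 1))
    (h1 : Tendsto (fun n : ℕ => g n) atTop (𝓝 c))
    (h2 : Tendsto (fun n : ℕ => g (-(n : ℤ))) atTop (𝓝 0)) :
    ∑' k : ℤ, (g k - g (k - 1)) = c := by
  have h3 : Tendsto (fun n : ℕ => ∑ k ∈ Finset.Icc (-(n : ℤ)) n, (g k - g (k - 1))) atTop
      (𝓝 (∑' k : ℤ, (g k - g (k - 1)))) := by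
    have hh : Tendsto (fun n : ℕ => Finset.Icc (-(n : ℤ)) n) atTop atTop := by
      apply tendsto_atTop_finset_of_monotone
      · intro a b hab
        apply Finset.Icc_subset_Icc <;> omega
      · intro x
        exact ⟨x.natAbs, by rw [Finset.mem_Icc]; omega⟩
    exact hs.hasSum.comp hh
  simp_rw [sum_tel] at h3
  have h4 : Tendsto (fun n : ℕ => g n - g (-(n : ℤ) - 1)) atTop (𝓝 (c - 0)) := by
    apply h1.sub
    have h5 := h2.comp (tendsto_add_atTop_nat 1)
    refine h5.congr fun n => ?_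
    simp only [Function.comp_apply]
    congr 1
    push_cast
    ring
  have := tendsto_nhds_unique h3 h4
  rw [this, sub_zero]

end Pool.Agent.T3.ORB3

namespace Pool.Agent.T3

open Pool.Agent.T3.ORB3

theorem orb3 : ORB3_Stmt := by
  intro M _ N _ F G c hc hFG hsum
  -- the function along an orbit
  have hF : ∀ R : Fin 2 → ℤ, qf M R = N → ∀ k : ℤ,
      F ((pw M k R) 0, (pw M k R) 1) =
        G ((pw M k R) 0, (pw M k R) 1) - G ((pw M (k - 1) R) 0, (pw M (k - 1) R) 1) := by
    intro R hR k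
    have h := (hFG (pw M k R) (by rw [qf_pw, hR])).1
    rw [h, act_eq]
    have e : (M⁻¹ : Matrix.SpecialLinearGroup (Fin 2) ℤ).1.mulVec (pw M k R) =
        pw M (k - 1) R := by
      have := pw_add M (-1) k R
      rw [show (-1 + k : ℤ) = k - 1 by ring] at this
      rw [this]
      simp [pw]
    rw [e]
  have hG1 : ∀ R : Fin 2 → ℤ, qf M R = N →
      Tendsto (fun k : ℕ => G ((pw M (k : ℤ) R) 0, (pw M (k : ℤ) R) 1)) atTop (𝓝 c) := by
    intro R hR
    refine (hFG R hR).2.1.congr fun k => ?_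
    rw [act_eq]
    simp [pw]
  have hG2 : ∀ R : Fin 2 → ℤ, qf M R = N →
      Tendsto (fun k : ℕ => G ((pw M (-(k : ℤ)) R) 0, (pw M (-(k : ℤ)) R) 1)) atTop (𝓝 0) := by
    intro R hR
    refine (hFG R hR).2.2.congr fun k => ?_
    rw [act_eq]
    simp [pw]
  -- freeness
  have hfree0 : ∀ R : Fin 2 → ℤ, qf M R = N → ∀ k : ℕ, 0 < k → pw M (k : ℤ) R ≠ R := by
    intro R hR k hk he
    have h1 : ∀ j : ℕ, pw M ((j * k : ℕ) : ℤ) R = R := by
      intro j
      induction j with
      | zero => simpa using pw_zero M R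
      | succ j ih =>
        have : (((j + 1) * k : ℕ) : ℤ) = ((j * k : ℕ) : ℤ) + (k : ℤ) := by push_cast; ring
        rw [this, pw_add, he, ih]
    have h2 : ∀ j : ℕ, pw M (-((j * k : ℕ) : ℤ)) R = R := by
      intro j
      have := pw_add M (-((j * k : ℕ) : ℤ)) ((j * k : ℕ) : ℤ) R
      rw [neg_add_cancel, pw_zero, h1 j] at this
      exact this.symm
    have ht : Tendsto (fun j : ℕ => j * k) atTop atTop :=
      tendsto_id.atTop_mul_const' hk
    have c1 := (hG1 R hR).comp ht
    have c2 := (hG2 R hR).comp ht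
    have c1' : Tendsto (fun _ : ℕ => G (R 0, R 1)) atTop (𝓝 c) := by
      refine c1.congr fun j => ?_
      simp only [Function.comp_apply]
      rw [h1 j]
    have c2' : Tendsto (fun _ : ℕ => G (R 0, R 1)) atTop (𝓝 0) := by
      refine c2.congr fun j => ?_
      simp only [Function.comp_apply]
      rw [h2 j]
    have e1 := tendsto_nhds_unique c1' tendsto_const_nhds
    have e2 := tendsto_nhds_unique c2' tendsto_const_nhds
    exact hc (by rw [e1, ← e2])
  have hfree : ∀ R : Fin 2 → ℤ, qf M R = N → ∀ k l : ℤ, pw M k R = pw M l R → k = l := by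
    intro R hR
    have key : ∀ k l : ℤ, k < l → pw M k R ≠ pw M l R := by
      intro k l hkl he
      obtain ⟨m, hm⟩ := Int.eq_ofNat_of_zero_le (by omega : 0 ≤ l - k)
      apply hfree0 R hR m (by omega)
      rw [← hm, sub_eq_neg_add, pw_add, ← he, ← pw_add, neg_add_cancel, pw_zero]
    intro k l he
    rcases lt_trichotomy k l with h | h | h
    · exact absurd he (key k l h)
    · exact h
    · exact absurd he.symm (key l k h)
  -- representatives
  set Ω : Set (Set (Fin 2 → ℤ)) := {S | ∃ R, qf M R = N ∧ S = orb M R} with hΩ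
  have hrep : ∀ S : Ω, ∃ R, qf M R = N ∧ S.1 = orb M R := fun S => S.2
  choose rep hrep1 hrep2 using hrep
  let e0 : Ω × ℤ → {R : Fin 2 → ℤ // qf M R = N} := fun p =>
    ⟨pw M p.2 (rep p.1), by rw [qf_pw, hrep1]⟩
  have he0 : Function.Bijective e0 := by
    constructor
    · rintro ⟨S, k⟩ ⟨S', l⟩ h
      have h1 : pw M k (rep S) = pw M l (rep S') := congrArg Subtype.val h
      have hS : S = S' := by
        apply Subtype.ext
        rw [hrep2 S, hrep2 S', ← orb_pw M k (rep S), h1, orb_pw]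
      subst hS
      rw [hfree (rep S) (hrep1 S) k l h1]
    · rintro ⟨R, hR⟩
      let S : Ω := ⟨orb M R, R, hR, rfl⟩
      have hm : R ∈ orb M (rep S) := by
        rw [← hrep2 S]
        exact mem_orb_self M R
      obtain ⟨k, hk⟩ := hm
      exact ⟨(S, k), Subtype.ext hk.symm⟩
  let e := Equiv.ofBijective e0 he0
  have hs1 : Summable fun p : Ω × ℤ => F ((e p).1 0, (e p).1 1) :=
    (e.summable_iff (f := fun R : {R : Fin 2 → ℤ // qf M R = N} => F (R.1 0, R.1 1))).2 hsum
  have hs2 : ∀ S : Ω, ∑' k : ℤ, F ((e (S, k)).1 0, (e (S, k)).1 1) = c := by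
    intro S
    have hk : ∀ k : ℤ, F ((e (S, k)).1 0, (e (S, k)).1 1) =
        (fun k : ℤ => G ((pw M k (rep S)) 0, (pw M k (rep S)) 1)) k -
        (fun k : ℤ => G ((pw M k (rep S)) 0, (pw M k (rep S)) 1)) (k - 1) := fun k =>
      hF (rep S) (hrep1 S) k
    have hsS : Summable fun k : ℤ => F ((e (S, k)).1 0, (e (S, k)).1 1) :=
      hs1.comp_injective (i := fun k : ℤ => (S, k)) (fun a b h => (Prod.mk.inj h).2)
    rw [tsum_congr hk]
    apply tsum_tel
    · exact hsS.congr hk
    · exact hG1 (rep S) (hrep1 S)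
    · exact hG2 (rep S) (hrep1 S)
  have hs3 : Summable fun _ : Ω => c := by
    have := hs1.prod
    simpa only [hs2] using this
  have hfin : Finite Ω := by
    by_contra hinf
    rw [not_finite_iff_infinite] at hinf
    exact hc ((summable_const_iff c).1 hs3)
  refine ⟨Set.toFinite Ω, ?_⟩
  rw [← e.tsum_eq (fun R : {R : Fin 2 → ℤ // qf M R = N} => F (R.1 0, R.1 1)),
    hs1.tsum_prod]
  simp only [hs2]
  rw [tsum_const, nsmul_eq_mul]
  rfl

end Pool.Agent.T3
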