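import Pool.Agent.T3.Stmts
import Pool.Agent.TB.Ot
import Pool.Agent.TB.Brk

/-!
Finite type invariants of closed 3-braids: OT3, transfer of the equality of the traces on `W_r`
from the power series to the dual numbers.
-/

open Polynomial
open scoped BigOperators Real

namespace Pool.Agent.T3

open Pool.Agent.TB

/-- OT3. -/
theorem ot3 (h : NAT3_Stmt) : OT3_Stmt := by
  intro r s0 hG x y hxy
  have hGO := OT.gen s0 brk r hG
  have e1 : (OT.QO s0).map (OT.lft s0 OT.g1 (OT.g1_unit s0)) = QPS := by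
    refine OT.map_eq s0 _ _ _ ?_ ?_
    · show eval₂ _ _ X = _
      rw [eval₂_X]
      rfl
    · show eval₂ _ _ (C Complex.I) = _
      rw [eval₂_C]
      rfl
  have e2 : (OT.QO s0).map (OT.lft s0 (OT.g2 s0) (OT.g2_unit s0)) = QD s0 := by
    refine OT.map_eq s0 _ _ _ ?_ ?_
    · show eval₂ _ _ X = _
      rw [eval₂_X]
    · show eval₂ _ _ (C Complex.I) = _
      rw [eval₂_C]
      rfl
  have hinj : Function.Injective (OT.lft s0 OT.g1 (OT.g1_unit s0)) := by
    rw [injective_iff_map_eq_zero]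
    intro u hu
    obtain ⟨⟨a, b⟩, hab⟩ := IsLocalization.surj (OT.MM s0) u
    have h := congrArg (OT.lft s0 OT.g1 (OT.g1_unit s0)) hab
    rw [map_mul, hu, zero_mul, OT.lft_alg] at h
    have ha : a = 0 := OT.g1_inj (by rw [← h, map_zero])
    simp only at hab
    rw [ha, map_zero] at hab
    exact (IsUnit.mul_left_eq_zero (IsLocalization.map_units (OT.OO s0) b)).1 hab
  have n1 := (h _ _ (OT.lft s0 OT.g1 (OT.g1_unit s0)) (OT.QO s0) r hGO).2.1
  have n2 := (h _ _ (OT.lft s0 (OT.g2 s0) (OT.g2_unit s0)) (OT.QO s0) r hGO).2.1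
  rw [e1] at n1
  rw [e2] at n2
  rw [← n1, ← n1] at hxy
  rw [← n2, ← n2, hinj hxy]

end Pool.Agent.T3
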