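import Pool.Agent.T3.Stmts

/-!
Finite type invariants of closed 3-braids: universal reduction of words to polynomials in the
Casimir element.
-/

open Polynomial
open scoped BigOperators

namespace Pool.Agent.T3

open Pool.Agent.TB

namespace PATH

section defs

variable {F : Type} [Field F] (Q : QP F) {E : Type} [Ring E] [Algebra F E]

/-- The path from `m` up to `m + k`. -/
noncomputable def up (r : ℕ) (I1 I2 : E) : ℕ → ℤ → E
  | 0, m => em Q r I2 m
  | k + 1, m => em Q r I2 (m + (k + 1 : ℕ)) * I1 * up r I1 I2 k m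

/-- The path from `m` down to `m - k`. -/
noncomputable def dn (r : ℕ) (I1 I2 : E) : ℕ → ℤ → E
  | 0, m => em Q r I2 m
  | k + 1, m => em Q r I2 (m - (k + 1 : ℕ)) * I1 * dn r I1 I2 k m

/-- The monotone path from `m` to `m'`. -/
noncomputable def pth (r : ℕ) (I1 I2 : E) (m' m : ℤ) : E :=
  if m ≤ m' then up Q r I1 I2 (m' - m).toNat m else dn Q r I1 I2 (m - m').toNat m

variable (r : ℕ) (I1 I2 : E)

theorem pth_self (m : ℤ) : pth Q r I1 I2 m m = em Q r I2 m := by
  rw [pth, if_pos le_rfl, sub_self]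
  rfl

theorem pth_up {m' m : ℤ} (h : m ≤ m') :
    pth Q r I1 I2 (m' + 1) m = em Q r I2 (m' + 1) * I1 * pth Q r I1 I2 m' m := by
  obtain ⟨k, rfl⟩ := Int.le.dest h
  rw [pth, pth, if_pos (by omega), if_pos (by omega)]
  have h1 : (m + (k : ℤ) + 1 - m).toNat = k + 1 := by omega
  have h2 : (m + (k : ℤ) - m).toNat = k := by omega
  rw [h1, h2, up]
  congr 3
  push_cast
  ring

theorem pth_dn {m' m : ℤ} (h : m' ≤ m) :
    pth Q r I1 I2 (m' - 1) m = em Q r I2 (m' - 1) * I1 * pth Q r I1 I2 m' m := by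
  obtain ⟨k, rfl⟩ : ∃ k : ℕ, m' = m - k := ⟨(m - m').toNat, by omega⟩
  have h0 : pth Q r I1 I2 (m - k) m = dn Q r I1 I2 k m := by
    rw [pth]
    split_ifs with h1
    · have hk : k = 0 := by omega
      subst hk
      have h2 : (m - ((0 : ℕ) : ℤ) - m).toNat = 0 := by omega
      rw [h2]
      rfl
    · have h2 : (m - (m - (k : ℤ))).toNat = k := by omega
      rw [h2]
  rw [h0, pth, if_neg (by omega)]
  have h1 : (m - (m - (k : ℤ) - 1)).toNat = k + 1 := by omega
  rw [h1, dn]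
  congr 3
  push_cast
  ring

theorem em_pth (hid : ∀ m, em Q r I2 m * em Q r I2 m = em Q r I2 m) (m' m : ℤ) :
    em Q r I2 m' * pth Q r I1 I2 m' m = pth Q r I1 I2 m' m := by
  rcases lt_trichotomy m m' with h | h | h
  · have h1 := pth_up Q r I1 I2 (m' := m' - 1) (m := m) (by omega)
    rw [sub_add_cancel] at h1
    rw [h1, ← mul_assoc, ← mul_assoc, hid]
  · subst h
    rw [pth_self, hid]
  · have h1 := pth_dn Q r I1 I2 (m' := m' + 1) (m := m) (by omega)
    rw [add_sub_cancel_right] at h1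
    rw [h1, ← mul_assoc, ← mul_assoc, hid]

/-- The polynomial of a step up and down. -/
noncomputable def pu (m : ℤ) : F[X] :=
  C ((Q.qp 1 - Q.qp (-1)) ^ 2 * cu Q m * cu Q (m + 1))⁻¹ * (C (cj Q m) - X)

/-- The polynomial of a step down and up. -/
noncomputable def pn (m : ℤ) : F[X] :=
  C ((Q.qp 1 - Q.qp (-1)) ^ 2 * cu Q m * cu Q (m - 1))⁻¹ * (C (cj Q (m - 1)) - X)

/-- The property of a word. -/
def S (w : FreeAlgebra F Bool) : Prop :=
  ∃ p : ℤ → ℤ → F[X], ∀ (r : ℕ) (E : Type) [Ring E] [Algebra F E] (I1 I2 : E),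
    Rels Q r I1 I2 → ∀ m' m : ℤ, em Q r I2 m' * evf F I1 I2 w * em Q r I2 m =
      aeval (cas Q r I1 I2) (p m' m) * pth Q r I1 I2 m' m

end defs

section main

variable {F : Type} [Field F] [CharZero F] (Q : QP F) (hQ : Nru Q)

omit [CharZero F] in
theorem em_comm {E : Type} [Ring E] [Algebra F E] {r : ℕ} {I2 c : E} (h : c * I2 = I2 * c)
    (m : ℤ) : c * em Q r I2 m = em Q r I2 m * c := by
  rw [em]
  split_ifs
  · induction (Q.basis r m) using Polynomial.induction_on' with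
    | add p q hp hq => rw [map_add, mul_add, add_mul, hp, hq]
    | monomial n a =>
      rw [aeval_monomial, ← mul_assoc, ← Algebra.commutes, mul_assoc, mul_assoc]
      congr 1
      exact ((show Commute c I2 from h).pow_right n).eq
  · rw [mul_zero, zero_mul]

omit [CharZero F] in
theorem aeval_comm {E : Type} [Ring E] [Algebra F E] {c y : E} (h : c * y = y * c)
    (p : F[X]) : aeval c p * y = y * aeval c p := by
  induction p using Polynomial.induction_on' with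
  | add p q hp hq => rw [map_add, mul_add, add_mul, hp, hq]
  | monomial n a =>
    rw [aeval_monomial, mul_assoc, ← mul_assoc y, ← Algebra.commutes a y, mul_assoc]
    congr 1
    exact ((show Commute c y from h).pow_left n).eq

include hQ in
theorem step_up (h1 : GENF_Stmt) (h2 : ADJ_Stmt) (h3 : CAS_Stmt) {r : ℕ} {E : Type} [Ring E]
    [Algebra F E] {I1 I2 : E} (h : Rels Q r I1 I2) (m' m : ℤ) :
    em Q r I2 m' * I1 * pth Q r I1 I2 (m' + 1) m =
      aeval (cas Q r I1 I2) (if m ≤ m' then pu Q m' else 1) * pth Q r I1 I2 m' m := by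
  obtain ⟨-, -, hcu, hq, -, -⟩ := h1 F Q hQ
  obtain ⟨hid, -⟩ := h2 F Q hQ r E I1 I2 h
  obtain ⟨-, -, hX, -⟩ := h3 F Q hQ r E I1 I2 h
  split_ifs with hm
  · rw [pth_up Q r I1 I2 hm]
    nth_rewrite 1 [← em_pth Q r I1 I2 hid m' m]
    have e1 : em Q r I2 m' * I1 * (em Q r I2 (m' + 1) * I1 *
        (em Q r I2 m' * pth Q r I1 I2 m' m)) = Xp Q r I1 I2 m' * pth Q r I1 I2 m' m := by
      rw [Xp]
      simp only [mul_assoc]
    rw [e1]
    have hk : ((Q.qp 1 - Q.qp (-1)) ^ 2 * cu Q m' * cu Q (m' + 1)) ≠ 0 :=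
      mul_ne_zero (mul_ne_zero (pow_ne_zero 2 hq) (hcu _)) (hcu _)
    have e2 := congrArg (fun y => ((Q.qp 1 - Q.qp (-1)) ^ 2 * cu Q m' * cu Q (m' + 1))⁻¹ • y)
      (hX m')
    simp only [smul_smul, inv_mul_cancel₀ hk, one_smul] at e2
    rw [e2, pu, map_mul, aeval_C, map_sub, aeval_C, aeval_X, Algebra.algebraMap_eq_smul_one,
      Algebra.algebraMap_eq_smul_one, smul_mul_assoc, smul_mul_assoc, smul_mul_assoc, one_mul,
      mul_assoc _ (em Q r I2 m') (pth Q r I1 I2 m' m), em_pth Q r I1 I2 hid]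
  · have h4 := pth_dn Q r I1 I2 (m' := m' + 1) (m := m) (by omega)
    rw [add_sub_cancel_right] at h4
    rw [map_one, one_mul, h4]

include hQ in
theorem step_dn (h1 : GENF_Stmt) (h2 : ADJ_Stmt) (h3 : CAS_Stmt) {r : ℕ} {E : Type} [Ring E]
    [Algebra F E] {I1 I2 : E} (h : Rels Q r I1 I2) (m' m : ℤ) :
    em Q r I2 m' * I1 * pth Q r I1 I2 (m' - 1) m =
      aeval (cas Q r I1 I2) (if m' ≤ m then pn Q m' else 1) * pth Q r I1 I2 m' m := by
  obtain ⟨-, -, hcu, hq, -, -⟩ := h1 F Q hQ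
  obtain ⟨hid, -⟩ := h2 F Q hQ r E I1 I2 h
  obtain ⟨-, -, -, hX⟩ := h3 F Q hQ r E I1 I2 h
  split_ifs with hm
  · rw [pth_dn Q r I1 I2 hm]
    nth_rewrite 1 [← em_pth Q r I1 I2 hid m' m]
    have e1 : em Q r I2 m' * I1 * (em Q r I2 (m' - 1) * I1 *
        (em Q r I2 m' * pth Q r I1 I2 m' m)) = Xn Q r I1 I2 m' * pth Q r I1 I2 m' m := by
      rw [Xn]
      simp only [mul_assoc]
    rw [e1]
    have hk : ((Q.qp 1 - Q.qp (-1)) ^ 2 * cu Q m' * cu Q (m' - 1)) ≠ 0 :=
      mul_ne_zero (mul_ne_zero (pow_ne_zero 2 hq) (hcu _)) (hcu _)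
    have e2 := congrArg (fun y => ((Q.qp 1 - Q.qp (-1)) ^ 2 * cu Q m' * cu Q (m' - 1))⁻¹ • y)
      (hX m')
    simp only [smul_smul, inv_mul_cancel₀ hk, one_smul] at e2
    rw [e2, pn, map_mul, aeval_C, map_sub, aeval_C, aeval_X, Algebra.algebraMap_eq_smul_one,
      Algebra.algebraMap_eq_smul_one, smul_mul_assoc, smul_mul_assoc, smul_mul_assoc, one_mul,
      mul_assoc _ (em Q r I2 m') (pth Q r I1 I2 m' m), em_pth Q r I1 I2 hid]
  · have h4 := pth_up Q r I1 I2 (m' := m' - 1) (m := m) (by omega)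
    rw [sub_add_cancel] at h4
    rw [map_one, one_mul, h4]

include hQ in
theorem em_I1 (h2 : ADJ_Stmt) {r : ℕ} {E : Type} [Ring E]
    [Algebra F E] {I1 I2 : E} (h : Rels Q r I1 I2) (m : ℤ) :
    em Q r I2 m * I1 = em Q r I2 m * I1 * em Q r I2 (m + 1) +
      em Q r I2 m * I1 * em Q r I2 (m - 1) := by
  obtain ⟨-, -, hsum, -, hadj, -⟩ := h2 F Q hQ r E I1 I2 h
  have h0 : ∀ k, k ∉ Finset.Icc (-(r : ℤ)) r → em Q r I2 k = 0 := fun k hk => by
    rw [em, if_neg hk]
  calc em Q r I2 m * I1 = em Q r I2 m * I1 * ∑ k ∈ Finset.Icc (-(r : ℤ)) r, em Q r I2 k := by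
        rw [hsum, mul_one]
    _ = ∑ k ∈ Finset.Icc (-(r : ℤ)) r, em Q r I2 m * I1 * em Q r I2 k := by
        rw [Finset.mul_sum]
    _ = ∑ k ∈ Finset.Icc (-(r : ℤ)) r ∪ {m + 1, m - 1}, em Q r I2 m * I1 * em Q r I2 k := by
        refine Finset.sum_subset Finset.subset_union_left fun k _ hk => ?_
        rw [h0 k hk, mul_zero]
    _ = ∑ k ∈ {m + 1, m - 1}, em Q r I2 m * I1 * em Q r I2 k := by
        refine (Finset.sum_subset Finset.subset_union_right fun k _ hk => ?_).symm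
        rw [Finset.mem_insert, Finset.mem_singleton, not_or] at hk
        exact hadj m k hk.1 hk.2
    _ = _ := by
        rw [Finset.sum_pair (by omega)]

include hQ in
theorem S_one (h2 : ADJ_Stmt) : S Q 1 := by
  refine ⟨fun m' m => if m' = m then 1 else 0, fun r E _ _ I1 I2 h m' m => ?_⟩
  obtain ⟨hid, hort, -⟩ := h2 F Q hQ r E I1 I2 h
  rw [evf, map_one, mul_one]
  dsimp only
  split_ifs with hm
  · subst hm
    rw [hid, map_one, one_mul, pth_self]
  · rw [hort m' m hm, map_zero, zero_mul]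

omit [CharZero F] in
theorem S_add {w w' : FreeAlgebra F Bool} (h : S Q w) (h' : S Q w') : S Q (w + w') := by
  obtain ⟨p, hp⟩ := h
  obtain ⟨p', hp'⟩ := h'
  refine ⟨fun m' m => p m' m + p' m' m, fun r E _ _ I1 I2 h m' m => ?_⟩
  have e1 := hp r E I1 I2 h m' m
  have e2 := hp' r E I1 I2 h m' m
  rw [evf] at e1 e2 ⊢
  rw [map_add, mul_add, add_mul, e1, e2, map_add, add_mul]

omit [CharZero F] in
theorem S_smul (a : F) {w : FreeAlgebra F Bool} (h : S Q w) :
    S Q (algebraMap F (FreeAlgebra F Bool) a * w) := by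
  obtain ⟨p, hp⟩ := h
  refine ⟨fun m' m => C a * p m' m, fun r E _ _ I1 I2 h m' m => ?_⟩
  have e1 := hp r E I1 I2 h m' m
  rw [evf] at e1 ⊢
  rw [map_mul, AlgHom.commutes, ← mul_assoc, ← Algebra.commutes, mul_assoc, mul_assoc,
    ← mul_assoc (em Q r I2 m'), e1, map_mul, aeval_C, mul_assoc]

include hQ in
theorem S_I2 (h2 : ADJ_Stmt) {w : FreeAlgebra F Bool} (h : S Q w) :
    S Q (FreeAlgebra.ι F true * w) := by
  obtain ⟨p, hp⟩ := h
  refine ⟨fun m' m => C (Q.lam m') * p m' m, fun r E _ _ I1 I2 h m' m => ?_⟩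
  obtain ⟨-, -, -, hI2, -⟩ := h2 F Q hQ r E I1 I2 h
  have e1 := hp r E I1 I2 h m' m
  rw [evf] at e1 ⊢
  rw [map_mul, FreeAlgebra.lift_ι_apply, if_pos rfl, ← mul_assoc, (hI2 m').2, smul_mul_assoc,
    smul_mul_assoc, e1, map_mul, aeval_C, Algebra.algebraMap_eq_smul_one, smul_mul_assoc,
    smul_mul_assoc, one_mul]

include hQ in
theorem S_I1 (h1 : GENF_Stmt) (h2 : ADJ_Stmt) (h3 : CAS_Stmt) {w : FreeAlgebra F Bool}
    (h : S Q w) : S Q (FreeAlgebra.ι F false * w) := by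
  obtain ⟨p, hp⟩ := h
  refine ⟨fun m' m => p (m' + 1) m * (if m ≤ m' then pu Q m' else 1) +
    p (m' - 1) m * (if m' ≤ m then pn Q m' else 1), fun r E _ _ I1 I2 h m' m => ?_⟩
  obtain ⟨hid, -⟩ := h2 F Q hQ r E I1 I2 h
  obtain ⟨hC1, hC2, -, -⟩ := h3 F Q hQ r E I1 I2 h
  have hev : evf F I1 I2 (FreeAlgebra.ι F false * w) = I1 * evf F I1 I2 w := by
    rw [evf, evf, map_mul, FreeAlgebra.lift_ι_apply]
    simp
  have key : ∀ k : ℤ, em Q r I2 m' * I1 * em Q r I2 k * evf F I1 I2 w * em Q r I2 m =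
      aeval (cas Q r I1 I2) (p k m) * (em Q r I2 m' * I1 * pth Q r I1 I2 k m) := by
    intro k
    have e1 := hp r E I1 I2 h k m
    have e2 : aeval (cas Q r I1 I2) (p k m) * (em Q r I2 m' * I1) =
        em Q r I2 m' * I1 * aeval (cas Q r I1 I2) (p k m) := by
      apply aeval_comm
      rw [← mul_assoc, em_comm Q hC2, mul_assoc, hC1, mul_assoc]
    rw [← mul_assoc (aeval (cas Q r I1 I2) (p k m)), e2, mul_assoc _ _ (pth Q r I1 I2 k m), ← e1]
    simp only [mul_assoc]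
  rw [hev, ← mul_assoc (em Q r I2 m'), em_I1 Q hQ h2 h m', add_mul, add_mul, key, key,
    step_up Q hQ h1 h2 h3 h, step_dn Q hQ h1 h2 h3 h, map_add, add_mul, map_mul, map_mul]
  simp only [mul_assoc]

include hQ in
theorem S_all (h1 : GENF_Stmt) (h2 : ADJ_Stmt) (h3 : CAS_Stmt) (w : FreeAlgebra F Bool) :
    S Q w := by
  have key : ∀ u : FreeAlgebra F Bool, ∀ w : FreeAlgebra F Bool, S Q w → S Q (u * w) := by
    intro u
    induction u using FreeAlgebra.induction with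
    | grade0 a => exact fun w hw => S_smul Q a hw
    | grade1 b =>
      intro w hw
      cases b with
      | false => exact S_I1 Q hQ h1 h2 h3 hw
      | true => exact S_I2 Q hQ h2 hw
    | mul a b ha hb =>
      intro w hw
      rw [mul_assoc]
      exact ha _ (hb _ hw)
    | add a b ha hb =>
      intro w hw
      rw [add_mul]
      exact S_add Q (ha _ hw) (hb _ hw)
  have := key w 1 (S_one Q hQ h2)
  rwa [mul_one] at this

end main

end PATH

open PATH in
theorem path (h1 : GENF_Stmt) (h2 : ADJ_Stmt) (h3 : CAS_Stmt) : PATH_Stmt := by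
  intro F _ _ Q hQ
  choose p hp using S_all Q hQ h1 h2 h3
  refine ⟨fun w m => p w m m, fun r E _ _ I1 I2 h w m => ?_⟩
  rw [hp w r E I1 I2 h m m, pth_self]

end Pool.Agent.T3
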