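import Pool.Agent.T3.Stmts2
import Pool.Agent.TB.Brk
import Pool.Agent.TB.Zt
import Pool.Agent.TB.Grt
import Pool.Agent.TB.Lft
import Pool.Agent.TB.Eig
import Pool.Agent.TB.Nn
import Pool.Agent.TB.Mu
import Pool.Agent.TB.The
import Pool.Agent.TB.Fc
import Pool.Agent.TB.Tor

/-!
PHI3: the torus model on even functions is isomorphic to `W_r` over the dual numbers.
-/

set_option autoImplicit false

open Polynomial
open scoped BigOperators Real

namespace Pool.Agent.T3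

open Pool.Agent.TB Pool.Agent.LibH11

namespace PHI3

open Pool.Agent.TB.TOR

/-! ### Quantum integers -/

section Br

variable {A : Type} [CommRing A] (Q : QP A)

theorem qpa (a b : ℤ) : Q.qp (a + b) = Q.qp a * Q.qp b := by
  unfold QP.qp
  rw [mul_add, zpow_add, Units.val_mul]

theorem qpn (a : ℤ) : Q.qp a * Q.qp (-a) = 1 := by
  rw [← qpa, add_neg_cancel]
  unfold QP.qp
  simp

/-- `[r+m] + [r-m] = [r] (q^m + q^-m)` -/
theorem br_add (r m : ℤ) : Q.br (r + m) + Q.br (r - m) = Q.br r * (Q.qp m + Q.qp (-m)) := by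
  obtain ⟨b0, b1, bn, b2, b3, b4, _⟩ := brk A Q
  have key : ∀ k : ℕ, (Q.br (r + k) + Q.br (r - k) = Q.br r * (Q.qp k + Q.qp (-(k : ℤ)))) ∧
      (Q.br (r + (k + 1)) + Q.br (r - (k + 1)) =
        Q.br r * (Q.qp (k + 1) + Q.qp (-((k : ℤ) + 1)))) := by
    intro k
    induction k with
    | zero =>
      have q0 : Q.qp 0 = 1 := by unfold QP.qp; simp
      refine ⟨?_, ?_⟩
      · simp only [Nat.cast_zero, add_zero, sub_zero, neg_zero, q0]
        ring
      · have h := b4 r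
        simp only [Nat.cast_zero, zero_add]
        rw [h]
        unfold QP.two
        ring
    | succ k ih =>
      refine ⟨?_, ?_⟩
      · have := ih.2
        push_cast
        exact this
      · have h1 := b4 (r + (k + 1))
        have h2 := b4 (r - (k + 1))
        rw [show r + ((k : ℤ) + 1) + 1 = r + (((k + 1 : ℕ) : ℤ) + 1) by push_cast; ring,
          show r + ((k : ℤ) + 1) - 1 = r + k by ring] at h1
        rw [show r - ((k : ℤ) + 1) + 1 = r - k by ring,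
          show r - ((k : ℤ) + 1) - 1 = r - (((k + 1 : ℕ) : ℤ) + 1) by push_cast; ring] at h2
        have e1 : Q.qp (((k + 1 : ℕ) : ℤ) + 1) = Q.qp (k + 1) * Q.qp 1 := by
          rw [← qpa]
          push_cast
          rfl
        have e2 : Q.qp (-(((k + 1 : ℕ) : ℤ) + 1)) = Q.qp (-((k : ℤ) + 1)) * Q.qp (-1) := by
          rw [← qpa]
          congr 1
        have e3 : Q.qp (k : ℤ) = Q.qp (k + 1) * Q.qp (-1) := by
          rw [← qpa]
          congr 1
          ring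
        have e4 : Q.qp (-(k : ℤ)) = Q.qp (-((k : ℤ) + 1)) * Q.qp 1 := by
          rw [← qpa]
          congr 1
          ring
        have i1 := ih.1
        have i2 := ih.2
        rw [e3, e4] at i1
        rw [e1, e2]
        unfold QP.two at h1 h2
        linear_combination h1 + h2 - i1 + (Q.qp 1 + Q.qp (-1)) * i2
  rcases le_total 0 m with h | h
  · obtain ⟨k, rfl⟩ := Int.eq_ofNat_of_zero_le h
    exact (key k).1
  · obtain ⟨k, hk⟩ := Int.eq_ofNat_of_zero_le (show 0 ≤ -m by omega)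
    have hm : m = -(k : ℤ) := by omega
    have h1 := (key k).1
    rw [hm, neg_neg, ← sub_eq_add_neg, sub_neg_eq_add, add_comm, h1, add_comm (Q.qp _)]

/-- `[r-m][m+1] + [r+m][m-1] = [r-1][m] (q^m + q^-m)` -/
theorem br_mul (r m : ℤ) : Q.br (r - m) * Q.br (m + 1) + Q.br (r + m) * Q.br (m - 1) =
    Q.br (r - 1) * Q.br m * (Q.qp m + Q.qp (-m)) := by
  obtain ⟨b0, b1, bn, b2, b3, b4, _⟩ := brk A Q
  have s1 : ∀ k : ℤ, Q.br (k - 1) = Q.qp (-1) * Q.br k - Q.qp (-k) := BRK.step3 Q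
  have s2 : ∀ k : ℤ, Q.br (k - 1) = Q.qp 1 * Q.br k - Q.qp k := by
    intro k
    have h := b3 (k - 1)
    rw [sub_add_cancel] at h
    have h1 := qpn Q 1
    have h2 : Q.qp k = Q.qp 1 * Q.qp (k - 1) := by rw [← qpa]; congr 1; ring
    rw [h2, h]
    linear_combination (-Q.br (k - 1)) * h1
  have h1 := br_add Q m r
  rw [show m - r = -(r - m) by ring, bn, add_comm m r] at h1
  have h2 := br_add Q (r - 1) m
  have h3 : Q.br (r - 1 + m) = Q.qp (-1) * Q.br (r + m) - Q.qp (-(r + m)) := by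
    rw [← s1]; congr 1; ring
  have h4 : Q.br (r - 1 - m) = Q.qp 1 * Q.br (r - m) - Q.qp (r - m) := by
    rw [← s2]; congr 1; ring
  have h5 : Q.qp (-(r + m)) = Q.qp (-r) * Q.qp (-m) := by rw [← qpa]; congr 1; ring
  have h6 : Q.qp (r - m) = Q.qp r * Q.qp (-m) := by rw [← qpa]; congr 1
  rw [h3, h4, h5, h6] at h2
  rw [b2 m, s1 m]
  linear_combination (-Q.qp (-m)) * h1 + Q.br m * h2

end Br

/-! ### The model -/

/-- the eigenvalues -/
noncomputable def lm (n r : ℕ) [NeZero n] (ι : ℤ) (u : ZMod (2 * n)) : DualNumber ℂ :=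
  (QD (sz n ι)).lam (r - cc n u)

/-- the operator `I_1'` -/
noncomputable def J1' (n r : ℕ) [NeZero n] (ι : ℤ) :
    Module.End (DualNumber ℂ) (ZMod (2 * n) → DualNumber ℂ) :=
  lift2 n 1 (-(Th n ι)) * lift2 n (cono n ι fun u => (lm n r ι u).fst)
    (cono n ι fun u => (lm n r ι u).snd) * lift2 n 1 (Th n ι)

/-- the cyclic vector -/
noncomputable def Om0 (n : ℕ) [NeZero n] (ι : ℤ) : ZMod (2 * n) → DualNumber ℂ :=
  mk n 1 (-(Th n ι 1))

theorem model (n r : ℕ) [NeZero n] (ι : ℤ) (hnr : n = 2 * r) (hr : Even r)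
    (hι : IsCoprime ι (2 * n : ℤ)) :
    J1' n r ι (Om0 n ι) = (QD (sz n ι)).lam r • Om0 n ι ∧
    J1' n r ι (fun u => lm n r ι u * Om0 n ι u) =
      (QD (sz n ι)).lam (r - 1) • (fun u => lm n r ι u * Om0 n ι u) ∧
    ∃ al be : ZMod (2 * n) → DualNumber ℂ, ∀ F : ZMod (2 * n) → DualNumber ℂ,
      (∀ u, F (-u) = F u) → ∀ u, J1' n r ι F u = al u * F (u + 1) + be u * F (u - 1) := by
  have hz := zt_basic
  have hn0 : n ≠ 0 := NeZero.ne n
  have hr0 : 0 < r := by omega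
  have hn1 : 1 < n := by omega
  obtain ⟨hl1, hl2, hl3, hl4, hl5, hl6⟩ := lft hz n ι hι
  obtain ⟨⟨κ, hκ⟩, hGu⟩ := eig brk hz n r ι hnr hr hι
  have hNN := nn hz n ι hn1 hι
  have hMU := mu hz n ι hn1 hι
  -- the eigenvalues
  obtain ⟨lam, hlam⟩ : ∃ lam : ZMod (2 * n) → DualNumber ℂ,
      lam = fun u => (QD (sz n ι)).lam (r - cc n u) := ⟨_, rfl⟩
  have hlamv : ∀ u, lam u = (QD (sz n ι)).lam (r - cc n u) := fun u => by rw [hlam]
  have hlam0 : lam 0 = (QD (sz n ι)).lam r := by rw [hlamv, cc_zero, sub_zero]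
  have hlam1 : lam 1 = (QD (sz n ι)).lam (r - 1) := by rw [hlamv, cc_one hn1]
  have hlamneg : ∀ u, lam (-u) = lam u := fun u => by rw [hlamv, hlamv, cc_neg]
  obtain ⟨c1, hc1⟩ : ∃ c1 : Fn n, c1 = fun k => zt n ι k + zt n ι (-k) := ⟨_, rfl⟩
  obtain ⟨S', hS'⟩ : ∃ S' : Fn n, S' = fun k => saw n (k.val : ℤ) * (zt n ι k - zt n ι (-k)) :=
    ⟨_, rfl⟩
  obtain ⟨g0, hg0⟩ : ∃ g0 : Fn n, g0 = fun u => (lam u).fst := ⟨_, rfl⟩
  obtain ⟨g1, hg1⟩ : ∃ g1 : Fn n, g1 = fun u => (lam u).snd := ⟨_, rfl⟩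
  have hgl : ∀ u, TrivSqZeroExt.inl (g0 u) + TrivSqZeroExt.inr (g1 u) = lam u := by
    intro u
    rw [hg0, hg1]
    exact TrivSqZeroExt.inl_fst_add_inr_snd_eq _
  obtain ⟨k0, hk0⟩ : ∃ k0 : ℂ, k0 = (κ : DualNumber ℂ).fst := ⟨_, rfl⟩
  obtain ⟨k1, hk1⟩ : ∃ k1 : ℂ, k1 = (κ : DualNumber ℂ).snd := ⟨_, rfl⟩
  have hg0' : g0 = k0 • c1 := by
    funext u
    rw [hg0]
    show (lam u).fst = k0 * c1 u
    rw [hlamv, hκ, hc1, hk0, TrivSqZeroExt.fst_mul]
    simp only [TrivSqZeroExt.fst_add, TrivSqZeroExt.fst_inl, TrivSqZeroExt.fst_inr, add_zero]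
  have hg1' : g1 = k0 • ((n : ℂ) • S') + k1 • c1 := by
    funext u
    rw [hg1]
    show (lam u).snd = k0 * (n * S' u) + k1 * c1 u
    rw [hlamv, hκ, hc1, hk0, hk1, hS', DualNumber.snd_mul]
    simp only [TrivSqZeroExt.fst_add, TrivSqZeroExt.fst_inl, TrivSqZeroExt.fst_inr, add_zero,
      TrivSqZeroExt.snd_add, TrivSqZeroExt.snd_inl, TrivSqZeroExt.snd_inr, zero_add]
    ring
  -- the operators
  obtain ⟨Tp, hTp⟩ : ∃ Tp, Tp = lift2 n 1 (Th n ι) := ⟨_, rfl⟩
  obtain ⟨Tm, hTm⟩ : ∃ Tm, Tm = lift2 n 1 (-(Th n ι)) := ⟨_, rfl⟩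
  have hpm : Tp * Tm = 1 := by
    rw [hTp, hTm, hl1]
    simp [hl2]
  have hmp : Tm * Tp = 1 := by
    rw [hTp, hTm, hl1]
    simp [hl2]
  have hpmv : ∀ F, Tp (Tm F) = F := fun F => by
    have := congrArg (fun T => T F) hpm
    simpa using this
  have hmpv : ∀ F, Tm (Tp F) = F := fun F => by
    have := congrArg (fun T => T F) hmp
    simpa using this
  obtain ⟨L, hL⟩ : ∃ L, L = lift2 n (cono n ι g0) (cono n ι g1) := ⟨_, rfl⟩
  obtain ⟨I1, hI1⟩ : ∃ I1, I1 = Tm * L * Tp := ⟨_, rfl⟩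
  obtain ⟨I2, hI2⟩ : ∃ I2, I2 = lift2 n (mulo n g0) (mulo n g1) := ⟨_, rfl⟩
  have hI1v : ∀ F, I1 F = Tm (L (Tp F)) := fun F => by rw [hI1]; rfl
  have hI2v : ∀ F u, I2 F u = lam u * F u := by
    intro F u
    rw [← mk_eta F, hI2, lift2_mk, ← hgl]
    ext
    · simp [mk, mulo_apply]
    · simp [mk, mulo_apply]
  obtain ⟨Om, hOm⟩ : ∃ Om, Om = Tm (mk n 1 0) := ⟨_, rfl⟩
  have hOm' : Om = mk n 1 (-(Th n ι 1)) := by
    rw [hOm, hTm, lift2_mk]
    simp
  -- first eigenvector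
  have e1 : I1 Om = (QD (sz n ι)).lam r • Om := by
    rw [hI1v, hOm, hpmv, hL, lift2_mk, hl6, hl6, map_zero, zero_add, ← map_smul]
    congr 1
    rw [← hlam0, ← hgl 0, smul_mk]
    refine mk_congr ?_ ?_
    · funext u
      simp
    · funext u
      simp
  -- second eigenvector
  have hTIO : Tp (I2 Om) = mk n (k0 • c1) ((k0 * ((n / 2 : ℂ) * hh n ι 1) + k1) • c1) := by
    rw [hOm', hI2, lift2_mk, hTp, lift2_mk]
    have h1 : mulo n g0 1 = k0 • c1 := by
      rw [mulo_apply, mul_one, hg0']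
    have h2 : mulo n g1 1 = k0 • ((n : ℂ) • S') + k1 • c1 := by
      rw [mulo_apply, mul_one, hg1']
    rw [h1, h2, mulo_apply, hg0']
    refine mk_congr rfl ?_
    funext u
    have h3 := hMU u
    have h4 : Th n ι (fun v => zt n ι v + zt n ι (-v)) = Th n ι c1 := by rw [hc1]
    rw [h4] at h3
    have h5 : c1 u = zt n ι u + zt n ι (-u) := by rw [hc1]
    have h6 : S' u = saw n (u.val : ℤ) * (zt n ι u - zt n ι (-u)) := by rw [hS']
    rw [← h5] at h3
    show (1 : Module.End ℂ (Fn n)) ((k0 • c1) * (-(Th n ι 1)) + (k0 • ((n : ℂ) • S') + k1 • c1)) u +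
      Th n ι (k0 • c1) u = (k0 * ((n / 2 : ℂ) * hh n ι 1) + k1) * c1 u
    rw [map_smul]
    show (k0 * c1 u) * (-(Th n ι 1 u)) + (k0 * (n * S' u) + k1 * c1 u) + k0 * Th n ι c1 u = _
    rw [h6]
    linear_combination k0 * h3
  have hgm0 : g0 (-1) = g0 1 := by
    rw [hg0]
    show (lam (-1)).fst = (lam 1).fst
    rw [hlamneg]
  have hgm1 : g1 (-1) = g1 1 := by
    rw [hg1]
    show (lam (-1)).snd = (lam 1).snd
    rw [hlamneg]
  have e2 : I1 (I2 Om) = (QD (sz n ι)).lam (r - 1) • I2 Om := by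
    have h1 : L (Tp (I2 Om)) = lam 1 • Tp (I2 Om) := by
      rw [hTIO, hL, lift2_mk, smul_mk, ← hgl 1]
      have h2 : cono n ι g0 c1 = g0 1 • c1 := by rw [hc1]; exact cono_c1 ι hz hι g0 hgm0
      have h3 : cono n ι g1 c1 = g1 1 • c1 := by rw [hc1]; exact cono_c1 ι hz hι g1 hgm1
      rw [map_smul, map_smul, map_smul, h2, h3]
      refine mk_congr ?_ ?_
      · funext u
        simp
        ring
      · funext u
        simp
        ring
    rw [hI1v, h1, map_smul, hmpv, hlam1]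
  -- nearest neighbour form on even functions
  obtain ⟨al, hal⟩ : ∃ al : ZMod (2 * n) → DualNumber ℂ, al = fun u => (κ : DualNumber ℂ) *
      (1 - TrivSqZeroExt.inr ((n / 2 : ℂ) * (hh n ι u - hh n ι (u + 1)))) := ⟨_, rfl⟩
  obtain ⟨be, hbe⟩ : ∃ be : ZMod (2 * n) → DualNumber ℂ, be = fun u => (κ : DualNumber ℂ) *
      (1 - TrivSqZeroExt.inr ((n / 2 : ℂ) * (hh n ι (u - 1) - hh n ι u))) := ⟨_, rfl⟩
  have hC0 : cono n ι g0 = k0 • Yy n := by
    rw [hg0', cono_smul, hc1, Yy_eq ι hz hι]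
  have hC1 : cono n ι g1 = k0 • ((n : ℂ) • cono n ι S') + k1 • Yy n := by
    rw [hg1', cono_add, cono_smul, cono_smul, cono_smul, hc1, Yy_eq ι hz hι]
  have hnn : ∀ F : ZMod (2 * n) → DualNumber ℂ, (∀ u, F (-u) = F u) → ∀ u,
      I1 F u = al u * F (u + 1) + be u * F (u - 1) := by
    intro F hF u
    obtain ⟨f0, hf0⟩ : ∃ f0 : Fn n, f0 = fun v => (F v).fst := ⟨_, rfl⟩
    obtain ⟨f1, hf1⟩ : ∃ f1 : Fn n, f1 = fun v => (F v).snd := ⟨_, rfl⟩
    have hFm : F = mk n f0 f1 := by rw [hf0, hf1, mk_eta]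
    have hev : ∀ u, f0 (-u) = f0 u := fun u => by
      rw [hf0]
      show (F (-u)).fst = (F u).fst
      rw [hF]
    have h1 := hNN f0 hev u
    have h2 : (cono n ι fun k => saw n (k.val : ℤ) * (zt n ι k - zt n ι (-k))) = cono n ι S' := by
      rw [hS']
    rw [h2] at h1
    have h3 : (n : ℂ) * cono n ι S' f0 u -
        (Th n ι (Yy n f0) u - (Th n ι f0 (u + 1) + Th n ι f0 (u - 1))) =
        -(n / 2 : ℂ) * ((hh n ι u - hh n ι (u + 1)) * f0 (u + 1) +
          (hh n ι (u - 1) - hh n ι u) * f0 (u - 1)) := h1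
    rw [hFm, hI1v, hTp, lift2_mk, hL, lift2_mk, hTm, lift2_mk, hC0, hC1]
    ext
    · rw [hal, hbe, TrivSqZeroExt.fst_add, TrivSqZeroExt.fst_mul, TrivSqZeroExt.fst_mul]
      simp only [mk, TrivSqZeroExt.fst_add, TrivSqZeroExt.fst_inl, TrivSqZeroExt.fst_inr, add_zero,
        TrivSqZeroExt.fst_mul, TrivSqZeroExt.fst_sub, TrivSqZeroExt.fst_one, sub_zero, mul_one]
      rw [← hk0]
      show k0 * (f0 (u + 1) + f0 (u - 1)) = k0 * f0 (u + 1) + k0 * f0 (u - 1)
      ring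
    · rw [hal, hbe, TrivSqZeroExt.snd_add, DualNumber.snd_mul, DualNumber.snd_mul]
      simp only [mk, TrivSqZeroExt.fst_add, TrivSqZeroExt.fst_inl, TrivSqZeroExt.fst_inr, add_zero,
        TrivSqZeroExt.fst_mul, TrivSqZeroExt.fst_sub, TrivSqZeroExt.fst_one, sub_zero, mul_one,
        TrivSqZeroExt.snd_add, TrivSqZeroExt.snd_inl, TrivSqZeroExt.snd_inr, zero_add,
        DualNumber.snd_mul, TrivSqZeroExt.snd_sub, TrivSqZeroExt.snd_one, zero_sub]
      rw [← hk0, ← hk1]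
      have h4 : ((1 : Module.End ℂ (Fn n)) ((k0 • Yy n) ((1 : Module.End ℂ (Fn n)) f1 + Th n ι f0) +
          (k0 • (n : ℂ) • cono n ι S' + k1 • Yy n) ((1 : Module.End ℂ (Fn n)) f0)) +
          (-(Th n ι)) ((k0 • Yy n) ((1 : Module.End ℂ (Fn n)) f0))) u =
          (k0 * ((f1 (u + 1) + Th n ι f0 (u + 1)) + (f1 (u - 1) + Th n ι f0 (u - 1))) +
            (k0 * (n * cono n ι S' f0 u) + k1 * (f0 (u + 1) + f0 (u - 1)))) -
            k0 * Th n ι (Yy n f0) u := by
        have h5 : (-(Th n ι)) ((k0 • Yy n) ((1 : Module.End ℂ (Fn n)) f0)) =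
            -(k0 • Th n ι (Yy n f0)) := by
          show -(Th n ι (k0 • Yy n f0)) = -(k0 • Th n ι (Yy n f0))
          rw [map_smul]
        rw [h5]
        rfl
      rw [h4]
      linear_combination k0 * h3

  have hJ : J1' n r ι = I1 := by
    rw [hI1, hL, hTm, hTp, hg0, hg1, hlam]
    rfl
  have hO : Om0 n ι = Om := by
    rw [hOm']
    rfl
  have hI2O : (fun u => lm n r ι u * Om0 n ι u) = I2 Om := by
    funext u
    rw [hI2v, hO, hlam]
    rfl
  rw [hJ, hI2O, hO]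
  exact ⟨e1, e2, al, be, hnn⟩

/-! ### Representatives -/

section CC

variable {n : ℕ} [NeZero n]

theorem cc_of (u : ZMod (2 * n)) (w : ℤ) (h : u = (w : ZMod (2 * n))) (h1 : -(n : ℤ) < w)
    (h2 : w ≤ n) : cc n u = |w| := by
  have hv : u.valMinAbs = w := by
    rw [ZMod.valMinAbs_spec]
    refine ⟨h, ?_⟩
    rw [Set.mem_Ioc]
    push_cast
    constructor <;> linarith
  unfold cc
  rw [hv, Int.natCast_natAbs]

theorem cc_cases' (hn : 1 < n) (u : ZMod (2 * n)) :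
    (cc n u = 0 ∧ cc n (u + 1) = cc n u + 1 ∧ cc n (u - 1) = cc n u + 1) ∨
    (cc n u = n ∧ cc n (u + 1) = cc n u - 1 ∧ cc n (u - 1) = cc n u - 1) ∨
    (0 < cc n u ∧ cc n u < n ∧ ((cc n (u + 1) = cc n u + 1 ∧ cc n (u - 1) = cc n u - 1) ∨
      (cc n (u + 1) = cc n u - 1 ∧ cc n (u - 1) = cc n u + 1))) := by
  have hn' : (1 : ℤ) < n := by exact_mod_cast hn
  obtain ⟨v, hv⟩ : ∃ v : ℤ, v = u.valMinAbs := ⟨_, rfl⟩
  have h1 := ZMod.valMinAbs_mem_Ioc u
  rw [← hv, Set.mem_Ioc] at h1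
  push_cast at h1
  have hu : u = (v : ZMod (2 * n)) := by rw [hv, ZMod.coe_valMinAbs]
  have hv1 : -(n : ℤ) < v := by linarith [h1.1]
  have hv2 : v ≤ n := by linarith [h1.2]
  have hc := cc_of u v hu hv1 hv2
  have hnn : (((2 * n : ℕ) : ℤ) : ZMod (2 * n)) = 0 := by
    rw [Int.cast_natCast, ZMod.natCast_self]
  have hp : v < n → cc n (u + 1) = |v + 1| := fun h =>
    cc_of _ _ (by rw [hu]; push_cast; rfl) (by omega) (by omega)
  have hm : -(n : ℤ) + 1 < v → cc n (u - 1) = |v - 1| := fun h =>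
    cc_of _ _ (by rw [hu]; push_cast; rfl) (by omega) (by omega)
  have hp' : v = n → cc n (u + 1) = |v + 1 - 2 * n| := fun h =>
    cc_of _ _ (by rw [hu, show v + 1 - 2 * n = (v + 1) - ((2 * n : ℕ) : ℤ) by push_cast; ring,
      Int.cast_sub, hnn]; push_cast; ring) (by omega) (by omega)
  have hm' : v = -(n : ℤ) + 1 → cc n (u - 1) = |v - 1 + 2 * n| := fun h =>
    cc_of _ _ (by rw [hu, show v - 1 + 2 * n = (v - 1) + ((2 * n : ℕ) : ℤ) by push_cast; ring,
      Int.cast_add, hnn]; push_cast; ring) (by omega) (by omega)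
  rw [hc]
  rcases lt_trichotomy v 0 with h | h | h
  · right; right
    rw [abs_of_neg h]
    refine ⟨by omega, by omega, Or.inr ⟨?_, ?_⟩⟩
    · rw [hp (by omega)]
      rw [abs_of_nonpos (by omega)]
      ring
    · rcases eq_or_ne v (-(n : ℤ) + 1) with h2 | h2
      · rw [hm' h2, abs_of_nonneg (by omega)]
        omega
      · rw [hm (by omega), abs_of_nonpos (by omega)]
        ring
  · left
    rw [h] at hp hm ⊢
    rw [hp (by omega), hm (by omega)]
    simp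
  · rcases eq_or_lt_of_le hv2 with h2 | h2
    · right; left
      rw [hp' h2, hm (by omega), h2]
      rw [abs_of_nonneg (by omega), abs_of_nonpos (by omega), abs_of_nonneg (by omega)]
      exact ⟨rfl, by ring, rfl⟩
    · right; right
      rw [hp h2, hm (by omega), abs_of_pos h, abs_of_pos (by omega), abs_of_nonneg (by omega)]
      exact ⟨h, h2, Or.inl ⟨rfl, rfl⟩⟩

theorem cc_cast (u : ZMod (2 * n)) :
    ((cc n u : ℤ) : ZMod (2 * n)) = u ∨ ((cc n u : ℤ) : ZMod (2 * n)) = -u := by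
  unfold cc
  rw [Int.natCast_natAbs]
  rcases abs_choice u.valMinAbs with h | h
  · left
    rw [h, ZMod.coe_valMinAbs]
  · right
    rw [h, Int.cast_neg, ZMod.coe_valMinAbs]

end CC

/-! ### The vector `Ω` -/

section Om

variable {n : ℕ} [NeZero n] (ι : ℤ)

/-- the inverse of `Ω` -/
noncomputable def Omi (n : ℕ) [NeZero n] (ι : ℤ) : ZMod (2 * n) → DualNumber ℂ :=
  mk n 1 (Th n ι 1)

theorem om_mul (u : ZMod (2 * n)) : Om0 n ι u * Omi n ι u = 1 := by
  unfold Om0 Omi mk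
  ext
  · simp
  · simp

theorem om_neg (u : ZMod (2 * n)) : Om0 n ι (-u) = Om0 n ι u := by
  show TrivSqZeroExt.inl 1 + TrivSqZeroExt.inr (-(Th n ι 1 (-u))) =
    TrivSqZeroExt.inl 1 + TrivSqZeroExt.inr (-(Th n ι 1 u))
  rw [the n ι 1 (fun _ => rfl) u]

theorem omi_neg (u : ZMod (2 * n)) : Omi n ι (-u) = Omi n ι u := by
  show TrivSqZeroExt.inl 1 + TrivSqZeroExt.inr (Th n ι 1 (-u)) =
    TrivSqZeroExt.inl 1 + TrivSqZeroExt.inr (Th n ι 1 u)
  rw [the n ι 1 (fun _ => rfl) u]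

end Om

/-! ### Nodes -/

section Nodes

variable {A : Type} [CommRing A] {r : ℕ}

/-- extension by zero -/
noncomputable def ext0 (g : Nd r → A) (m : ℤ) : A :=
  if h : m ∈ Finset.Icc (-(r : ℤ)) r then g ⟨m, h⟩ else 0

theorem ext0_mem (g : Nd r → A) (m : Nd r) : ext0 g (m : ℤ) = g m := by
  unfold ext0
  rw [dif_pos m.2]

theorem sum_ite (g : Nd r → A) (k : ℤ) (c : A) :
    ∑ m' : Nd r, (if (m' : ℤ) = k then c * g m' else 0) = c * ext0 g k := by
  unfold ext0
  split_ifs with h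
  · rw [Finset.sum_eq_single (⟨k, h⟩ : Nd r)]
    · rw [if_pos rfl]
    · intro b _ hb
      rw [if_neg]
      intro hbk
      exact hb (Subtype.ext hbk)
    · intro hcon
      exact absurd (Finset.mem_univ _) hcon
  · rw [mul_zero]
    refine Finset.sum_eq_zero fun b _ => ?_
    rw [if_neg]
    intro hbk
    exact h (hbk ▸ b.2)

theorem mulVec_Iw1 (Q : QP A) (g : Nd r → A) (m : Nd r) :
    Matrix.mulVec (Iw1 Q r) g m = upc Q r m * ext0 g (m + 1) + dnc Q r m * ext0 g (m - 1) := by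
  show ∑ m' : Nd r, Iw1 Q r m m' * g m' = _
  rw [← sum_ite g ((m : ℤ) + 1), ← sum_ite g ((m : ℤ) - 1), ← Finset.sum_add_distrib]
  refine Finset.sum_congr rfl fun m' _ => ?_
  unfold Iw1
  by_cases h1 : (m' : ℤ) = m + 1
  · rw [if_pos h1, if_pos h1, if_neg (by omega), add_zero]
  · rw [if_neg h1, if_neg h1, zero_add]
    by_cases h2 : (m' : ℤ) = m - 1
    · rw [if_pos h2, if_pos h2]
    · rw [if_neg h2, if_neg h2, zero_mul]

/-- the coefficients are determined by the two eigenvectors -/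
theorem coeffs (Q : QP A) (hG : Q.Gen r) {m : ℤ} (h1 : -(r : ℤ) < m) (h2 : m < r) :
    upc Q r m + dnc Q r m = Q.lam r ∧
      upc Q r m * Q.lam (m + 1) + dnc Q r m * Q.lam (m - 1) = Q.lam (r - 1) * Q.lam m := by
  obtain ⟨b0, b1, bn, b2, b3, b4, b5, b6, b7, _⟩ := brk A Q
  have hu : IsUnit (Q.qp m + Q.qp (-m)) := by
    have h := hG (m + 1) (by rw [Finset.mem_Icc]; omega) (m - 1)
      (by rw [Finset.mem_Icc]; omega) (by omega)
    rw [b7] at h
    exact isUnit_of_mul_isUnit_right h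
  have e := Ring.mul_inverse_cancel _ hu
  have hup : upc Q r m = Q.i * Q.br (r - m) * Ring.inverse (Q.qp m + Q.qp (-m)) := by
    unfold upc
    rw [if_neg (by omega), if_neg (by omega)]
  have hdn : dnc Q r m = Q.i * Q.br (r + m) * Ring.inverse (Q.qp m + Q.qp (-m)) := by
    unfold dnc
    rw [if_neg (by omega), if_neg (by omega)]
  have a1 := br_add Q (r : ℤ) m
  have a2 := br_mul Q (r : ℤ) m
  rw [hup, hdn]
  unfold QP.lam
  constructor
  · linear_combination (Q.i : A) * Ring.inverse (Q.qp m + Q.qp (-m)) * a1 + Q.i * Q.br r * e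
  · linear_combination (Q.i : A) * Q.i * Ring.inverse (Q.qp m + Q.qp (-m)) * a2 +
      Q.i * Q.i * Q.br (r - 1) * Q.br m * e

end Nodes

/-! ### The two maps -/

section Maps

variable (n r : ℕ) [NeZero n] (ι : ℤ)

/-- `Φ g (u) = g(r - c(u)) Ω(u)` -/
noncomputable def Phi : (Nd r → DualNumber ℂ) →ₗ[DualNumber ℂ] (ZMod (2 * n) → DualNumber ℂ) where
  toFun g := fun u => ext0 g (r - cc n u) * Om0 n ι u
  map_add' g g' := by
    funext u
    show ext0 (g + g') _ * _ = ext0 g _ * _ + ext0 g' _ * _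
    rw [← add_mul]
    congr 1
    unfold ext0
    split_ifs
    · rfl
    · rw [add_zero]
  map_smul' c g := by
    funext u
    show ext0 (c • g) _ * _ = c * (ext0 g _ * _)
    rw [← mul_assoc]
    congr 1
    unfold ext0
    split_ifs
    · rfl
    · rw [mul_zero]

/-- `Ψ f (m)` is the even part of `f` divided by `Ω`, at `r - m`. -/
noncomputable def Psi' : (ZMod (2 * n) → DualNumber ℂ) →ₗ[DualNumber ℂ] (Nd r → DualNumber ℂ) where
  toFun f := fun m => TrivSqZeroExt.inl (1 / 2 : ℂ) *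
    (f (((r - (m : ℤ) : ℤ)) : ZMod (2 * n)) + f (-(((r - (m : ℤ) : ℤ)) : ZMod (2 * n)))) *
      Omi n ι (((r - (m : ℤ) : ℤ)) : ZMod (2 * n))
  map_add' f g := by
    funext m
    simp only [Pi.add_apply]
    ring
  map_smul' c f := by
    funext m
    simp only [Pi.smul_apply, smul_eq_mul, RingHom.id_apply]
    ring

variable {n r}

theorem Phi_apply (g : Nd r → DualNumber ℂ) (u : ZMod (2 * n)) :
    Phi n r ι g u = ext0 g (r - cc n u) * Om0 n ι u := rfl

theorem Phi_neg (g : Nd r → DualNumber ℂ) (u : ZMod (2 * n)) :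
    Phi n r ι g (-u) = Phi n r ι g u := by
  rw [Phi_apply, Phi_apply, cc_neg, om_neg]

theorem mem_nd (hnr : n = 2 * r) (u : ZMod (2 * n)) :
    (r : ℤ) - cc n u ∈ Finset.Icc (-(r : ℤ)) r := by
  have h1 := cc_le u
  have h2 := cc_nonneg u
  rw [Finset.mem_Icc]
  omega

theorem half_two (z : DualNumber ℂ) : TrivSqZeroExt.inl (1 / 2 : ℂ) * (z + z) = z := by
  ext
  · simp
    ring
  · simp
    ring

theorem Psi_Phi (hnr : n = 2 * r) : Psi' n r ι ∘ₗ Phi n r ι = LinearMap.id := by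
  refine LinearMap.ext fun g => ?_
  funext m
  have hm := m.2
  rw [Finset.mem_Icc] at hm
  have hpos : 0 < n := NeZero.pos n
  have hc : cc n (((r - (m : ℤ) : ℤ)) : ZMod (2 * n)) = r - m := by
    rw [cc_of _ _ rfl (by omega) (by omega), abs_of_nonneg (by omega)]
  show TrivSqZeroExt.inl (1 / 2 : ℂ) * (Phi n r ι g _ + Phi n r ι g (-_)) * Omi n ι _ = g m
  rw [Phi_neg, half_two, Phi_apply, hc, mul_assoc, om_mul, mul_one,
    show (r : ℤ) - (r - m) = m by ring, ext0_mem]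

theorem Phi_Psi (hnr : n = 2 * r) : Phi n r ι ∘ₗ Psi' n r ι = lift2 n (Pev n) 0 := by
  refine LinearMap.ext fun f => ?_
  funext u
  have h1 : (Phi n r ι ∘ₗ Psi' n r ι) f u =
      TrivSqZeroExt.inl (1 / 2 : ℂ) * (f u + f (-u)) := by
    show ext0 (Psi' n r ι f) (r - cc n u) * Om0 n ι u = _
    unfold ext0
    rw [dif_pos (mem_nd hnr u)]
    show TrivSqZeroExt.inl (1 / 2 : ℂ) * (f (((r - ((r : ℤ) - cc n u) : ℤ)) : ZMod (2 * n)) +
      f (-(((r - ((r : ℤ) - cc n u) : ℤ)) : ZMod (2 * n)))) *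
      Omi n ι (((r - ((r : ℤ) - cc n u) : ℤ)) : ZMod (2 * n)) * Om0 n ι u = _
    rw [show (r : ℤ) - ((r : ℤ) - cc n u) = cc n u by ring]
    have ho := om_mul ι u
    rcases cc_cast u with h | h
    · rw [h]
      linear_combination (TrivSqZeroExt.inl (1 / 2 : ℂ) * (f u + f (-u))) * ho
    · rw [h, neg_neg, omi_neg]
      linear_combination (TrivSqZeroExt.inl (1 / 2 : ℂ) * (f u + f (-u))) * ho
  rw [h1]
  have h2 : ∀ φ : Fn n, Pev n φ u = (1 / 2 : ℂ) * (φ u + φ (-u)) := fun φ => rfl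
  have h3 : lift2 n (Pev n) 0 f u = TrivSqZeroExt.inl (Pev n (fun v => (f v).fst) u) +
      TrivSqZeroExt.inr (Pev n (fun v => (f v).snd) u + 0) := rfl
  rw [h3, h2, h2]
  ext
  · simp
  · simp

end Maps

theorem aeval_mulVec {A M : Type} [CommRing A] [AddCommGroup M] [Module A M] {r : ℕ}
    (X : Matrix (Nd r) (Nd r) A) (S : Module.End A M) (φ : (Nd r → A) →ₗ[A] M)
    (h : ∀ g, φ (X.mulVec g) = S (φ g)) (P : A[X]) (g : Nd r → A) :
    φ ((aeval X P).mulVec g) = aeval S P (φ g) := by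
  induction P using Polynomial.induction_on' with
  | add p q hp hq =>
    rw [map_add, map_add, Matrix.add_mulVec, map_add, hp, hq]
    rfl
  | monomial k a =>
    have hk : ∀ g, φ ((X ^ k).mulVec g) = (S ^ k) (φ g) := by
      induction k with
      | zero => intro g; rw [pow_zero, pow_zero, Matrix.one_mulVec]; rfl
      | succ k ih =>
        intro g
        rw [pow_succ, pow_succ, ← Matrix.mulVec_mulVec, ih, h]
        rfl
    rw [aeval_monomial, aeval_monomial, Algebra.algebraMap_eq_smul_one,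
      Algebra.algebraMap_eq_smul_one, smul_mul_assoc, one_mul, smul_mul_assoc, one_mul,
      Matrix.smul_mulVec, map_smul, hk]
    rfl

/-- `Φ` intertwines `I_1` and `I_1'`. -/
theorem inter (n r : ℕ) [NeZero n] (ι : ℤ) (hnr : n = 2 * r) (hr : Even r)
    (hι : IsCoprime ι (2 * n : ℤ)) (hG : (QD (sz n ι)).Gen r) (g : Nd r → DualNumber ℂ) :
    Phi n r ι ((Iw1 (QD (sz n ι)) r).mulVec g) = J1' n r ι (Phi n r ι g) := by
  have hn0 : n ≠ 0 := NeZero.ne n
  have hr0 : 0 < r := by omega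
  have hn1 : 1 < n := by omega
  obtain ⟨e1, e2, al, be, hnn⟩ := model n r ι hnr hr hι
  have hnz : (n : ℤ) = 2 * r := by exact_mod_cast hnr
  funext u
  rw [hnn _ (Phi_neg ι g)]
  have f1 := congrFun e1 u
  rw [hnn _ (om_neg ι)] at f1
  have f2 := congrFun e2 u
  rw [hnn _ (fun v => by
    show lm n r ι (-v) * Om0 n ι (-v) = lm n r ι v * Om0 n ι v
    rw [om_neg]
    unfold lm
    rw [cc_neg])] at f2
  simp only [Pi.smul_apply, smul_eq_mul] at f1 f2
  unfold lm at f2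
  rw [Phi_apply, Phi_apply, Phi_apply]
  have hmem := mem_nd hnr u
  have hx : ext0 ((Iw1 (QD (sz n ι)) r).mulVec g) (r - cc n u) =
      upc (QD (sz n ι)) r (r - cc n u) * ext0 g (r - cc n u + 1) +
        dnc (QD (sz n ι)) r (r - cc n u) * ext0 g (r - cc n u - 1) := by
    have h := ext0_mem ((Iw1 (QD (sz n ι)) r).mulVec g) ⟨r - cc n u, hmem⟩
    rw [mulVec_Iw1] at h
    exact h
  rw [hx]
  rcases cc_cases' hn1 u with ⟨h0, h1, h2⟩ | ⟨h0, h1, h2⟩ | ⟨h0, h0', h | h⟩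
  · rw [h1, h2]
    have hup : upc (QD (sz n ι)) r (r - cc n u) = 0 := by
      unfold upc
      rw [if_neg (by omega), if_pos (by omega)]
    have hdn : dnc (QD (sz n ι)) r (r - cc n u) = (QD (sz n ι)).lam r := by
      unfold dnc
      rw [if_pos (by omega)]
    rw [hup, hdn, show (r : ℤ) - (cc n u + 1) = r - cc n u - 1 by ring]
    linear_combination (-ext0 g (r - cc n u - 1)) * f1
  · rw [h1, h2]
    have hup : upc (QD (sz n ι)) r (r - cc n u) = (QD (sz n ι)).lam r := by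
      unfold upc
      rw [if_pos (by omega)]
    have hdn : dnc (QD (sz n ι)) r (r - cc n u) = 0 := by
      unfold dnc
      rw [if_neg (by omega), if_pos (by omega)]
    rw [hup, hdn, show (r : ℤ) - (cc n u - 1) = r - cc n u + 1 by ring]
    linear_combination (-ext0 g (r - cc n u + 1)) * f1
  · obtain ⟨h1, h2⟩ := h
    obtain ⟨c1, c2⟩ := coeffs (QD (sz n ι)) hG (m := r - cc n u) (by omega) (by omega)
    rw [h1, h2] at f2 ⊢
    rw [show (r : ℤ) - (cc n u + 1) = r - cc n u - 1 by ring,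
      show (r : ℤ) - (cc n u - 1) = r - cc n u + 1 by ring] at f2 ⊢
    have hunit := hG (r - cc n u + 1) (by rw [Finset.mem_Icc]; omega) (r - cc n u - 1)
      (by rw [Finset.mem_Icc]; omega) (by omega)
    have g1 : be u * Om0 n ι (u - 1) = upc (QD (sz n ι)) r (r - cc n u) * Om0 n ι u := by
      refine hunit.mul_left_cancel ?_
      linear_combination f2 - (QD (sz n ι)).lam (r - cc n u - 1) * f1 - Om0 n ι u * c2 +
        Om0 n ι u * (QD (sz n ι)).lam (r - cc n u - 1) * c1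
    have g2 : al u * Om0 n ι (u + 1) = dnc (QD (sz n ι)) r (r - cc n u) * Om0 n ι u := by
      linear_combination f1 - g1 - Om0 n ι u * c1
    linear_combination (-ext0 g (r - cc n u + 1)) * g1 - ext0 g (r - cc n u - 1) * g2
  · obtain ⟨h1, h2⟩ := h
    obtain ⟨c1, c2⟩ := coeffs (QD (sz n ι)) hG (m := r - cc n u) (by omega) (by omega)
    rw [h1, h2] at f2 ⊢
    rw [show (r : ℤ) - (cc n u + 1) = r - cc n u - 1 by ring,
      show (r : ℤ) - (cc n u - 1) = r - cc n u + 1 by ring] at f2 ⊢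
    have hunit := hG (r - cc n u + 1) (by rw [Finset.mem_Icc]; omega) (r - cc n u - 1)
      (by rw [Finset.mem_Icc]; omega) (by omega)
    have g1 : al u * Om0 n ι (u + 1) = upc (QD (sz n ι)) r (r - cc n u) * Om0 n ι u := by
      refine hunit.mul_left_cancel ?_
      linear_combination f2 - (QD (sz n ι)).lam (r - cc n u - 1) * f1 - Om0 n ι u * c2 +
        Om0 n ι u * (QD (sz n ι)).lam (r - cc n u - 1) * c1
    have g2 : be u * Om0 n ι (u - 1) = dnc (QD (sz n ι)) r (r - cc n u) * Om0 n ι u := by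
      linear_combination f1 - g1 - Om0 n ι u * c1
    linear_combination (-ext0 g (r - cc n u + 1)) * g1 - ext0 g (r - cc n u - 1) * g2

theorem lift2_smul (n : ℕ) [NeZero n] (c : DualNumber ℂ) (X Y : Module.End ℂ (Fn n)) :
    lift2 n (c.fst • X) (c.fst • Y + c.snd • X) = c • lift2 n X Y := by
  refine LinearMap.ext fun F => ?_
  rw [← mk_eta F, lift2_mk]
  show _ = c • lift2 n X Y (mk n _ _)
  rw [lift2_mk, smul_mk]
  refine mk_congr rfl ?_
  funext u
  show c.fst * X (fun v => (F v).snd) u + (c.fst * Y (fun v => (F v).fst) u +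
    c.snd * X (fun v => (F v).fst) u) = c.fst * (X (fun v => (F v).snd) u +
      Y (fun v => (F v).fst) u) + c.snd * X (fun v => (F v).fst) u
  ring

end PHI3

open PHI3 Pool.Agent.TB.TOR in
theorem phi3 (h1 : CHF_Stmt) (h2 : EIG3_Stmt) (h3 : EGO3_Stmt) (h4 : WREL_Stmt) : PHI3_Stmt := by
  intro n r _ ι hnr hr hι
  have hn0 : n ≠ 0 := NeZero.ne n
  have hr0 : 0 < r := by omega
  have hn1 : 1 < n := by omega
  have hG : (QD (sz n ι)).Gen r := by
    rw [hnr]
    refine (grt brk r ι hr0 ?_).2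
    rw [hnr] at hι
    push_cast at hι
    have h1 : (4 * r : ℤ) = 2 * (2 * r) := by ring
    rw [h1]
    exact hι
  have hE := h2 n r ι hnr hr hι
  have hz := zt_basic
  obtain ⟨hl1, hl2, hl3, hl4, hl5, hl6⟩ := lft hz n ι hι
  refine ⟨Phi n r ι, Psi' n r ι, Psi_Phi ι hnr, Phi_Psi ι hnr, ?_, ?_⟩
  · intro a g
    funext u
    have hmem := mem_nd hnr u
    have e1 : ext0 (Matrix.mulVec (Matrix.diagonal fun m : Nd r =>
        (((QD (sz n ι)).fu m ^ a : (DualNumber ℂ)ˣ) : DualNumber ℂ)) g) (r - cc n u) =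
        (((QD (sz n ι)).fu (r - cc n u) ^ a : (DualNumber ℂ)ˣ) : DualNumber ℂ) *
          ext0 g (r - cc n u) := by
      unfold ext0
      rw [dif_pos hmem, dif_pos hmem, Matrix.mulVec_diagonal]
    rw [Phi_apply, e1, hE]
    have e2 : LC n ι a (Phi n r ι g) u = TrivSqZeroExt.inl ((chf n ι u ^ a : ℂˣ) : ℂ) *
        (1 + TrivSqZeroExt.inr ((a : ℂ) * bq n u / 2)) * Phi n r ι g u := by
      have e3 : LC n ι a (Phi n r ι g) = lift2 n (Ch n ι a)
        (mulo n fun k => ((chf n ι k ^ a : ℂˣ) : ℂ) * ((a : ℂ) * bq n k / 2))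
          (Phi n r ι g) := rfl
      rw [e3, ← mk_eta (Phi n r ι g), lift2_mk]
      ext
      · simp [mk, mulo_apply, Ch]
      · simp [mk, mulo_apply, Ch]
    show _ = _ * LC n ι a (Phi n r ι g) u
    rw [e2, Phi_apply]
    ring
  · intro a g
    rw [aeval_mulVec (Iw1 (QD (sz n ι)) r) (J1' n r ι) (Phi n r ι) (inter n r ι hnr hr hι hG)]
    have hpm : lift2 n 1 (Th n ι) * lift2 n 1 (-(Th n ι)) = 1 := by
      rw [hl1]
      simp [hl2]
    have hmp : lift2 n 1 (-(Th n ι)) * lift2 n 1 (Th n ι) = 1 := by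
      rw [hl1]
      simp [hl2]
    have hev : ∀ u, ((QD (sz n ι)).interp r fun m => (((QD (sz n ι)).fu m ^ a :
        (DualNumber ℂ)ˣ) : DualNumber ℂ)).eval (TrivSqZeroExt.inl ((lm n r ι u).fst) +
          TrivSqZeroExt.inr ((lm n r ι u).snd)) =
        (((QD (sz n ι)).fu r ^ a : (DualNumber ℂ)ˣ) : DualNumber ℂ) *
          (TrivSqZeroExt.inl ((chf n ι u ^ a : ℂˣ) : ℂ) *
            (1 + TrivSqZeroExt.inr ((a : ℂ) * bq n u / 2))) := by
      intro u
      rw [TrivSqZeroExt.inl_fst_add_inr_snd_eq]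
      unfold lm
      rw [(fc _ (QD (sz n ι)) r hG).1 _ _ (mem_nd hnr u), hE]
    obtain ⟨c, hc⟩ : ∃ c : DualNumber ℂ,
      c = (((QD (sz n ι)).fu r ^ a : (DualNumber ℂ)ˣ) : DualNumber ℂ) := ⟨_, rfl⟩
    rw [← hc] at hev ⊢
    have hL : aeval (J1' n r ι) ((QD (sz n ι)).interp r fun m => (((QD (sz n ι)).fu m ^ a :
        (DualNumber ℂ)ˣ) : DualNumber ℂ)) = c • LD n ι a := by
      have hf0 : (fun u => (((QD (sz n ι)).interp r fun m => (((QD (sz n ι)).fu m ^ a :
          (DualNumber ℂ)ˣ) : DualNumber ℂ)).eval (TrivSqZeroExt.inl ((lm n r ι u).fst) +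
            TrivSqZeroExt.inr ((lm n r ι u).snd))).fst) =
          c.fst • fun k => ((chf n ι k ^ a : ℂˣ) : ℂ) := by
        funext u
        rw [hev]
        simp
      have hf1 : (fun u => (((QD (sz n ι)).interp r fun m => (((QD (sz n ι)).fu m ^ a :
          (DualNumber ℂ)ˣ) : DualNumber ℂ)).eval (TrivSqZeroExt.inl ((lm n r ι u).fst) +
            TrivSqZeroExt.inr ((lm n r ι u).snd))).snd) =
          (c.fst • fun k => ((chf n ι k ^ a : ℂˣ) : ℂ) * ((a : ℂ) * bq n k / 2)) +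
            c.snd • fun k => ((chf n ι k ^ a : ℂˣ) : ℂ) := by
        funext u
        rw [hev]
        simp
      unfold J1'
      rw [aeval_conj' _ _ _ hpm _ hmp, hl4, hf0, hf1, cono_add, cono_smul, cono_smul, cono_smul,
        lift2_smul]
      unfold LD Dh
      rw [mul_smul_comm, smul_mul_assoc]
    rw [hL]
    rfl

end Pool.Agent.T3
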