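import Pool.Agent.T3.Stmts
import Pool.Agent.TB.Brk
import Pool.Agent.TB.Spec

/-!
Finite type invariants separate closed 3-braids: module PTH, the weighted trace over the second
factor of a polynomial in `I`. See PAPER.md in this folder.
-/

set_option autoImplicit false

open Polynomial
open scoped BigOperators

namespace Pool.Agent.T3

open Pool.Agent.TB

namespace PTH

section Ring

variable {A : Type} [CommRing A] (Q : QP A)

/-! ### The last mode -/

/-- The last mode of `I`, if `I` on the other modes is `t`. -/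
def M4 (t : A) : Matrix (Bool × Bool) (Bool × Bool) A := fun e f =>
  (if e = f then kinv Q e.1 e.2 * t else 0) + bm A e.1 e.2 f.1 f.2

/-- The last mode of `I`, if `I` on the other modes is `X`. -/
noncomputable def M4X : Matrix (Bool × Bool) (Bool × Bool) A[X] := fun e f =>
  (if e = f then C (kinv Q e.1 e.2) * X else 0) + C (bm A e.1 e.2 f.1 f.2)

/-- The last modes first. -/
def eqv (r : ℕ) : (Bool × Bool) × (Lb r × Lb r) ≃ Lb (r + 1) × Lb (r + 1) where
  toFun p := ((p.2.1, p.1.1), (p.2.2, p.1.2))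
  invFun p := ((p.1.2, p.2.2), (p.1.1, p.2.1))
  left_inv _ := rfl
  right_inv _ := rfl

/-- Matrices on the last mode with polynomials in `I` as entries. -/
noncomputable def Phi (r : ℕ) : Matrix (Bool × Bool) (Bool × Bool) A[X] →ₐ[A]
    Matrix (Lb (r + 1) × Lb (r + 1)) (Lb (r + 1) × Lb (r + 1)) A :=
  (Matrix.reindexAlgEquiv A A (eqv r)).toAlgHom.comp
    ((Matrix.compAlgEquiv (Bool × Bool) (Lb r × Lb r) A A).toAlgHom.comp
      (aeval (Im Q r)).mapMatrix)

theorem Phi_apply (r : ℕ) (N : Matrix (Bool × Bool) (Bool × Bool) A[X]) (x y z w : Lb r)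
    (a b c d : Bool) :
    Phi Q r N ((x, a), (y, b)) ((z, c), (w, d)) = aeval (Im Q r) (N (a, b) (c, d)) (x, y) (z, w) :=
  rfl

theorem Phi_M4X (r : ℕ) : Phi Q r (M4X Q) = Im Q (r + 1) := by
  ext ⟨⟨x, a⟩, ⟨y, b⟩⟩ ⟨⟨z, c⟩, ⟨w, d⟩⟩
  have h2 : Im Q (r + 1) ((x, a), (y, b)) ((z, c), (w, d)) =
      (if a = c ∧ b = d then kinv Q a b * Im Q r (x, y) (z, w) else 0) +
      (if x = z ∧ y = w then bm A a b c d else 0) := rfl
  rw [Phi_apply, h2, M4X, map_add, Matrix.add_apply]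
  congr 1
  · simp only [Prod.mk.injEq]
    split_ifs
    · rw [map_mul, aeval_X, aeval_C, ← Algebra.smul_def, Matrix.smul_apply, smul_eq_mul]
    · rw [map_zero, Matrix.zero_apply]
  · rw [aeval_C, Matrix.algebraMap_matrix_apply]
    simp only [Prod.mk.injEq, Algebra.algebraMap_self, RingHom.id_apply]

theorem aeval_Im_succ (r : ℕ) (P : A[X]) (x y z w : Lb r) (a b c d : Bool) :
    aeval (Im Q (r + 1)) P ((x, a), (y, b)) ((z, c), (w, d)) =
      aeval (Im Q r) ((aeval (M4X Q) P : Matrix (Bool × Bool) (Bool × Bool) A[X]) (a, b) (c, d))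
        (x, y) (z, w) := by
  rw [← Phi_apply, ← Phi_M4X, aeval_algHom_apply]

theorem eval_M4X (t : A) (P : A[X]) (e f : Bool × Bool) :
    ((aeval (M4X Q) P : Matrix (Bool × Bool) (Bool × Bool) A[X]) e f).eval t =
      (aeval (M4 Q t) P : Matrix (Bool × Bool) (Bool × Bool) A) e f := by
  have h1 : ((aeval t : A[X] →ₐ[A] A).mapMatrix : Matrix (Bool × Bool) (Bool × Bool) A[X] →ₐ[A]
      Matrix (Bool × Bool) (Bool × Bool) A) (M4X Q) = M4 Q t := by
    ext e f
    show (aeval t : A[X] →ₐ[A] A) (M4X Q e f) = _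
    unfold M4X M4
    rw [map_add, aeval_C]
    split_ifs
    · simp
    · simp
  rw [← h1, aeval_algHom_apply]
  show _ = (aeval t : A[X] →ₐ[A] A) ((aeval (M4X Q) P : Matrix (Bool × Bool) (Bool × Bool) A[X]) e f)
  rw [Polynomial.coe_aeval_eq_eval]

/-- The polynomial of the matrix `M4`, up to a factor. -/
def Gm (m : ℤ) (p u v : A) : Matrix (Bool × Bool) (Bool × Bool) A := fun e f =>
  match e, f with
  | (true, true), (true, true) => Q.i * (Q.qp m + Q.qp (-m)) * p
  | (false, false), (false, false) => Q.i * (Q.qp m + Q.qp (-m)) * p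
  | (true, false), (true, false) => Q.i * (Q.qp (-m) * u + Q.qp m * v)
  | (false, true), (false, true) => Q.i * (Q.qp m * u + Q.qp (-m) * v)
  | (true, false), (false, true) => -(u - v)
  | (false, true), (true, false) => u - v
  | _, _ => 0

theorem Gm_add (m : ℤ) (p u v p' u' v' : A) :
    Gm Q m (p + p') (u + u') (v + v') = Gm Q m p u v + Gm Q m p' u' v' := by
  ext ⟨a, b⟩ ⟨c, d⟩
  cases a <;> cases b <;> cases c <;> cases d <;> simp [Gm] <;> ring

theorem Gm_smul (m : ℤ) (c p u v : A) : Gm Q m (c * p) (c * u) (c * v) = c • Gm Q m p u v := by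
  ext ⟨a, b⟩ ⟨c, d⟩
  cases a <;> cases b <;> cases c <;> cases d <;> simp [Gm] <;> ring

/-- the relations of neighbouring values -/
theorem lam_rel (m : ℤ) :
    Q.lam (m + 1) = Q.qp (-1) * Q.lam m + Q.i * Q.qp m ∧
    Q.lam (m + 1) = Q.qp 1 * Q.lam m + Q.i * Q.qp (-m) ∧
    Q.lam (m - 1) = Q.qp (-1) * Q.lam m - Q.i * Q.qp (-m) ∧
    Q.lam (m - 1) = Q.qp 1 * Q.lam m - Q.i * Q.qp m := by
  obtain ⟨b0, b1, bneg, b4, b5, b6, b7, b8, b9, b10⟩ := brk A Q
  have hq1 : Q.qp 1 * Q.qp (-1) = 1 := SPEC.qp_neg Q 1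
  refine ⟨?_, ?_, ?_, ?_⟩
  · rw [QP.lam, QP.lam, b5]
    ring
  · rw [QP.lam, QP.lam, b4]
    ring
  · have h1 := b4 (m - 1)
    rw [sub_add_cancel] at h1
    have h2 : Q.qp (-(m - 1)) = Q.qp 1 * Q.qp (-m) := by
      rw [← SPEC.qp_add]; congr 1; ring
    rw [h2] at h1
    rw [QP.lam, QP.lam, h1]
    linear_combination (-(Q.i * Q.br (m - 1)) - Q.i * Q.qp (-m)) * hq1
  · have h1 := b5 (m - 1)
    rw [sub_add_cancel] at h1
    have h2 : Q.qp (m - 1) = Q.qp m * Q.qp (-1) := by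
      rw [← SPEC.qp_add]; rfl
    rw [h2] at h1
    rw [QP.lam, QP.lam, h1]
    linear_combination (-(Q.i * Q.br (m - 1)) - Q.i * Q.qp m) * hq1

theorem Gm_mul (m : ℤ) (p u v : A) :
    M4 Q (Q.lam m) * Gm Q m p u v =
      Gm Q m (Q.lam m * p) (Q.lam (m + 1) * u) (Q.lam (m - 1) * v) := by
  obtain ⟨h1, h2, h3, h4⟩ := lam_rel Q m
  have hi := Q.hi
  have hqm : Q.qp m * Q.qp (-m) = 1 := SPEC.qp_neg Q m
  ext ⟨a, b⟩ ⟨c, d⟩
  rw [Matrix.mul_apply, Fintype.sum_prod_type, Fintype.sum_bool, Fintype.sum_bool, Fintype.sum_bool]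
  cases a <;> cases b <;> cases c <;> cases d <;> simp [Gm, M4, kinv, bm]
  · ring
  · rw [h2, h4]
    linear_combination (-(Q.qp m * Q.qp (-m)) * (u - v)) * hi + (u - v) * hqm
  · rw [h2, h4]
    ring
  · rw [h1, h3]
    ring
  · rw [h1, h3]
    linear_combination (-(Q.qp m * Q.qp (-m)) * (u - v)) * hi + (u - v) * hqm
  · ring

/-- The functional calculus of the last mode. -/
theorem aeval_M4 (m : ℤ) (P : A[X]) :
    (Q.i * (Q.qp m + Q.qp (-m)) : A) • (aeval (M4 Q (Q.lam m)) P :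
        Matrix (Bool × Bool) (Bool × Bool) A) =
      Gm Q m (P.eval (Q.lam m)) (P.eval (Q.lam (m + 1))) (P.eval (Q.lam (m - 1))) := by
  induction P using Polynomial.induction_on' with
  | add p q hp hq => rw [map_add, smul_add, hp, hq, eval_add, eval_add, eval_add, Gm_add]
  | monomial n a =>
    rw [aeval_monomial, eval_monomial, eval_monomial, eval_monomial, Gm_smul, ← Algebra.smul_def,
      smul_comm]
    congr 1
    induction n with
    | zero =>
      rw [pow_zero, pow_zero, pow_zero, pow_zero]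
      ext ⟨a, b⟩ ⟨c, d⟩
      rw [Matrix.smul_apply, Matrix.one_apply]
      cases a <;> cases b <;> cases c <;> cases d <;> simp [Gm, add_comm]
    | succ n ih =>
      rw [pow_succ', ← mul_smul_comm, ih, Gm_mul, pow_succ', pow_succ', pow_succ']

end Ring

section Field

variable {F : Type} [Field F] (Q : QP F)

theorem cu_def (m : ℤ) : cu Q m = Q.qp m + Q.qp (-m) := rfl

variable [CharZero F]

omit [CharZero F] in
theorem qp_two (hQ : Nru Q) {m : ℤ} (hm : m ≠ 0) : Q.qp m * Q.qp m ≠ 1 := by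
  rw [← SPEC.qp_add]
  exact hQ _ (by omega)

theorem qp_ne (m : ℤ) : Q.qp m ≠ 0 := by
  intro h
  have := SPEC.qp_neg Q m
  rw [h, zero_mul] at this
  exact zero_ne_one this

theorem cu_ne (hQ : Nru Q) (m : ℤ) : cu Q m ≠ 0 := by
  intro h
  rw [cu_def] at h
  have h1 := SPEC.qp_neg Q m
  rcases eq_or_ne m 0 with rfl | hm
  · rw [neg_zero, SPEC.qp_zero] at h
    norm_num at h
  · have h2 : Q.qp m * Q.qp m = -1 := by linear_combination (Q.qp m) * h - h1
    have h3 := qp_two Q hQ (m := m + m) (by omega)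
    rw [SPEC.qp_add, h2] at h3
    exact h3 (by norm_num)

theorem qd_ne (hQ : Nru Q) : Q.qp 1 - Q.qp (-1) ≠ 0 := by
  intro h
  have h1 := SPEC.qp_neg Q 1
  apply qp_two Q hQ (m := 1) (by norm_num)
  linear_combination (Q.qp 1) * h + h1

theorem br_ne (hQ : Nru Q) {m : ℤ} (hm : m ≠ 0) : Q.br m ≠ 0 := by
  intro h
  have h1 := (brk F Q).2.2.2.2.2.2.2.1 m
  rw [h, mul_zero] at h1
  apply qp_two Q hQ hm
  linear_combination (-Q.qp m) * h1 + SPEC.qp_neg Q m

/-- The weights. -/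
noncomputable def w : ℕ → ℤ → F
  | 0, m => if m = 0 then (cu Q 0)⁻¹ else 0
  | r + 1, m => (cu Q m)⁻¹ * (Q.qp (-r) * cu Q m * w r m + Q.qp (r - m + 1) * w r (m - 1) +
      Q.qp (r + m + 1) * w r (m + 1))

theorem w_supp : ∀ (r : ℕ) (m : ℤ), m ∉ Finset.Icc (-(r : ℤ)) r → w Q r m = 0
  | 0, m, hm => by
    rw [Finset.mem_Icc] at hm
    push_cast at hm
    rw [w, if_neg (by omega)]
  | r + 1, m, hm => by
    rw [Finset.mem_Icc] at hm
    push_cast at hm
    have h : ∀ m' : ℤ, (m' = m ∨ m' = m - 1 ∨ m' = m + 1) → w Q r m' = 0 := fun m' hm' =>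
      w_supp r m' (by rw [Finset.mem_Icc]; omega)
    rw [w, h m (by simp), h (m - 1) (by simp), h (m + 1) (by simp)]
    ring

theorem w_rec (hQ : Nru Q) (r : ℕ) (m : ℤ) : cu Q m * w Q (r + 1) m =
    Q.qp (-r) * cu Q m * w Q r m + Q.qp (r - m + 1) * w Q r (m - 1) +
      Q.qp (r + m + 1) * w Q r (m + 1) := by
  rw [w, mul_inv_cancel_left₀ (cu_ne Q hQ m)]

/-- An identity between quantum integers. -/
theorem br_identity (hQ : Nru Q) (r m : ℤ) :
    Q.qp (-r) * cu Q m * (Q.br (r - m + 1) * Q.br (r + m + 1)) +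
      Q.qp (r - m + 1) * (Q.br (r + m) * Q.br (r + m + 1)) +
      Q.qp (r + m + 1) * (Q.br (r - m) * Q.br (r - m + 1)) =
    cu Q m * (Q.br (2 * r + 1) * Q.br (r + 1)) := by
  have hd := qd_ne Q hQ
  have hbr := (brk F Q).2.2.2.2.2.2.2.1
  apply mul_left_cancel₀ (mul_ne_zero hd hd)
  have e : ∀ a b : ℤ, ∀ c : F, (Q.qp 1 - Q.qp (-1)) * (Q.qp 1 - Q.qp (-1)) *
      (c * (Q.br a * Q.br b)) = c * ((Q.qp a - Q.qp (-a)) * (Q.qp b - Q.qp (-b))) := by
    intro a b c
    rw [← hbr a, ← hbr b]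
    ring
  rw [mul_add, mul_add, e, e, e, e, cu_def]
  have e2 : ∀ a b c : ℤ, Q.qp (a + b + c) = Q.qp a * Q.qp b * Q.qp c := by
    intro a b c
    rw [SPEC.qp_add, SPEC.qp_add]
  have x1 : Q.qp (r - m + 1) = Q.qp r * Q.qp (-m) * Q.qp 1 := by rw [← e2]; rfl
  have x2 : Q.qp (-(r - m + 1)) = Q.qp (-r) * Q.qp m * Q.qp (-1) := by
    rw [← e2]; congr 1; ring
  have x3 : Q.qp (r + m + 1) = Q.qp r * Q.qp m * Q.qp 1 := by rw [← e2]
  have x4 : Q.qp (-(r + m + 1)) = Q.qp (-r) * Q.qp (-m) * Q.qp (-1) := by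
    rw [← e2]; congr 1; ring
  have x5 : Q.qp (r + m) = Q.qp r * Q.qp m := SPEC.qp_add Q r m
  have x6 : Q.qp (-(r + m)) = Q.qp (-r) * Q.qp (-m) := by
    rw [← SPEC.qp_add]; congr 1; ring
  have x7 : Q.qp (r - m) = Q.qp r * Q.qp (-m) := by
    rw [← SPEC.qp_add]; rfl
  have x8 : Q.qp (-(r - m)) = Q.qp (-r) * Q.qp m := by
    rw [← SPEC.qp_add]; congr 1; ring
  have x9 : Q.qp (2 * r + 1) = Q.qp r * Q.qp r * Q.qp 1 := by
    rw [← e2]; congr 1; ring
  have x10 : Q.qp (-(2 * r + 1)) = Q.qp (-r) * Q.qp (-r) * Q.qp (-1) := by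
    rw [← e2]; congr 1; ring
  have x11 : Q.qp (r + 1) = Q.qp r * Q.qp 1 := SPEC.qp_add Q r 1
  have x12 : Q.qp (-(r + 1)) = Q.qp (-r) * Q.qp (-1) := by
    rw [← SPEC.qp_add]; congr 1; ring
  rw [x1, x2, x3, x4, x5, x6, x7, x8, x9, x10, x11, x12]
  have y1 : Q.qp (-1) = (Q.qp 1)⁻¹ := eq_inv_of_mul_eq_one_right (SPEC.qp_neg Q 1)
  have y2 : Q.qp (-m) = (Q.qp m)⁻¹ := eq_inv_of_mul_eq_one_right (SPEC.qp_neg Q m)
  have y3 : Q.qp (-r) = (Q.qp r)⁻¹ := eq_inv_of_mul_eq_one_right (SPEC.qp_neg Q r)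
  have z1 := qp_ne Q 1
  have z2 := qp_ne Q m
  have z3 := qp_ne Q r
  rw [y1, y2, y3]
  field_simp
  ring

theorem br_double (hQ : Nru Q) (a : ℤ) : Q.br (2 * a) = Q.br a * cu Q a := by
  have hd := qd_ne Q hQ
  have hbr := (brk F Q).2.2.2.2.2.2.2.1
  apply mul_left_cancel₀ hd
  rw [← mul_assoc, hbr, hbr, cu_def]
  have h1 : Q.qp (2 * a) = Q.qp a * Q.qp a := by rw [← SPEC.qp_add]; congr 1; ring
  have h2 : Q.qp (-(2 * a)) = Q.qp (-a) * Q.qp (-a) := by rw [← SPEC.qp_add]; congr 1; ring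
  rw [h1, h2]
  ring

theorem star (hQ : Nru Q) (r : ℕ)
    (hr : ∀ m : ℤ, Q.br (r + m + 1) * w Q r (m + 1) = Q.br (r - m) * w Q r m) (m : ℤ) :
    Q.br (r - m + 1) * Q.br (r + m + 1) * w Q (r + 1) m =
      Q.br (2 * r + 1) * Q.br (r + 1) * w Q r m := by
  apply mul_left_cancel₀ (cu_ne Q hQ m)
  have h1 := w_rec Q hQ r m
  have h2 := br_identity Q hQ r m
  have h3 := hr m
  have h4 := hr (m - 1)
  have e1 : (r : ℤ) + (m - 1) + 1 = r + m := by ring
  have e2 : (r : ℤ) - (m - 1) = r - m + 1 := by ring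
  rw [e1, e2, sub_add_cancel] at h4
  linear_combination (Q.br (r - m + 1) * Q.br (r + m + 1)) * h1 + (w Q r m) * h2 +
    (Q.qp (r + m + 1) * Q.br (r - m + 1)) * h3 - (Q.qp (r - m + 1) * Q.br (r + m + 1)) * h4

theorem ratio (hQ : Nru Q) : ∀ (r : ℕ) (m : ℤ),
    Q.br (r + m + 1) * w Q r (m + 1) = Q.br (r - m) * w Q r m
  | 0, m => by
    have b0 : Q.br 0 = 0 := (brk F Q).1
    rcases eq_or_ne m 0 with rfl | hm
    · have h1 : w Q 0 (0 + 1) = 0 := w_supp Q 0 _ (by simp)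
      have h2 : ((0 : ℕ) : ℤ) - 0 = 0 := by norm_num
      rw [h1, h2, b0, mul_zero, zero_mul]
    · have h1 : w Q 0 m = 0 := w_supp Q 0 _ (by rw [Finset.mem_Icc]; push_cast; omega)
      rw [h1, mul_zero]
      rcases eq_or_ne m (-1) with rfl | hm'
      · have h2 : ((0 : ℕ) : ℤ) + -1 + 1 = 0 := by norm_num
        rw [h2, b0, zero_mul]
      · rw [w_supp Q 0 _ (by rw [Finset.mem_Icc]; push_cast; omega), mul_zero]
  | r + 1, m => by
    have ih := ratio hQ r
    have b0 : Q.br 0 = 0 := (brk F Q).1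
    have b1 : Q.br 1 = 1 := (brk F Q).2.1
    have hst := star Q hQ r ih
    push_cast
    by_cases c1 : (r : ℤ) + 1 ≤ m
    · rw [w_supp Q (r + 1) (m + 1) (by rw [Finset.mem_Icc]; push_cast; omega), mul_zero]
      rcases eq_or_ne m (r + 1) with rfl | hm
      · rw [sub_self, b0, zero_mul]
      · rw [w_supp Q (r + 1) m (by rw [Finset.mem_Icc]; push_cast; omega), mul_zero]
    by_cases c2 : m ≤ -(r : ℤ) - 2
    · rw [w_supp Q (r + 1) m (by rw [Finset.mem_Icc]; push_cast; omega), mul_zero]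
      rcases eq_or_ne m (-(r : ℤ) - 2) with rfl | hm
      · have e : (r : ℤ) + 1 + (-(r : ℤ) - 2) + 1 = 0 := by ring
        rw [e, b0, zero_mul]
      · rw [w_supp Q (r + 1) (m + 1) (by rw [Finset.mem_Icc]; push_cast; omega), mul_zero]
    rcases eq_or_ne m r with rfl | c3
    · have h1 := w_rec Q hQ r (r + 1)
      rw [w_supp Q r (r + 1) (by rw [Finset.mem_Icc]; omega),
        w_supp Q r (r + 1 + 1) (by rw [Finset.mem_Icc]; omega)] at h1
      have e1 : (r : ℤ) - (r + 1) + 1 = 0 := by ring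
      have e2 : (r : ℤ) + 1 - 1 = r := by ring
      rw [e1, e2, SPEC.qp_zero] at h1
      have h2 := hst r
      have e3 : (r : ℤ) - r + 1 = 1 := by ring
      have e4 : (r : ℤ) + r + 1 = 2 * r + 1 := by ring
      rw [e3, e4, b1, one_mul, mul_assoc] at h2
      have h3 := mul_left_cancel₀ (br_ne Q hQ (by omega)) h2
      have e5 : (r : ℤ) + 1 + r + 1 = 2 * (r + 1) := by ring
      have e6 : (r : ℤ) + 1 - r = 1 := by ring
      rw [e5, e6, br_double Q hQ, b1, one_mul, h3]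
      linear_combination (Q.br (r + 1)) * h1
    rcases eq_or_ne m (-(r : ℤ) - 1) with rfl | c4
    · have h1 := w_rec Q hQ r (-(r : ℤ) - 1)
      rw [w_supp Q r (-(r : ℤ) - 1) (by rw [Finset.mem_Icc]; omega),
        w_supp Q r (-(r : ℤ) - 1 - 1) (by rw [Finset.mem_Icc]; omega)] at h1
      have e1 : (r : ℤ) + (-(r : ℤ) - 1) + 1 = 0 := by ring
      have e2 : -(r : ℤ) - 1 + 1 = -r := by ring
      rw [e1, e2, SPEC.qp_zero] at h1
      have h2 := hst (-r)
      have e3 : (r : ℤ) - -r + 1 = 2 * r + 1 := by ring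
      have e4 : (r : ℤ) + -r + 1 = 1 := by ring
      rw [e3, e4, b1, mul_one, mul_assoc] at h2
      have h3 := mul_left_cancel₀ (br_ne Q hQ (by omega)) h2
      have e5 : (r : ℤ) + 1 + (-(r : ℤ) - 1) + 1 = 1 := by ring
      have e6 : (r : ℤ) + 1 - (-(r : ℤ) - 1) = 2 * (r + 1) := by ring
      have e7 : cu Q (-(r : ℤ) - 1) = cu Q (r + 1) := by
        have e8 : -(r : ℤ) - 1 = -(r + 1) := by ring
        rw [cu_def, cu_def, e8, neg_neg, add_comm]
      rw [e7] at h1
      rw [e5, e6, e2, br_double Q hQ, b1, one_mul, h3]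
      linear_combination (-Q.br (r + 1)) * h1
    · have h1 := hst m
      have h2 := hst (m + 1)
      have h3 := ih m
      have e1 : (r : ℤ) - (m + 1) + 1 = r - m := by ring
      have e2 : (r : ℤ) + (m + 1) + 1 = r + 1 + m + 1 := by ring
      have e3 : (r : ℤ) - m + 1 = r + 1 - m := by ring
      rw [e1, e2] at h2
      rw [e3] at h1
      have n1 : Q.br (r - m) ≠ 0 := br_ne Q hQ (by omega)
      have n2 : Q.br (r + m + 1) ≠ 0 := br_ne Q hQ (by omega)
      apply mul_left_cancel₀ (mul_ne_zero n1 n2)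
      linear_combination (Q.br (r + m + 1)) * h2 +
        (Q.br (2 * r + 1) * Q.br (r + 1)) * h3 - (Q.br (r - m)) * h1

/-- The value of the weighted trace. -/
noncomputable def th (r : ℕ) (g : ℤ → F) : F :=
  ∑ m ∈ Finset.Icc (-(r : ℤ)) r, w Q r m * (cu Q m * g m)

omit [CharZero F] in
theorem sum_two {s t : Finset ℤ} {f : ℤ → F} (h : ∀ m, f m ≠ 0 → m ∈ s ∧ m ∈ t) :
    ∑ m ∈ s, f m = ∑ m ∈ t, f m := by
  have h1 : ∑ m ∈ s ∩ t, f m = ∑ m ∈ s, f m :=
    Finset.sum_subset Finset.inter_subset_left fun m _ hm => by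
      by_contra hne
      exact hm (Finset.mem_inter.2 (h m hne))
  have h2 : ∑ m ∈ s ∩ t, f m = ∑ m ∈ t, f m :=
    Finset.sum_subset Finset.inter_subset_right fun m _ hm => by
      by_contra hne
      exact hm (Finset.mem_inter.2 (h m hne))
  exact h1.symm.trans h2

omit [CharZero F] in
theorem sum_shift (a b e : ℤ) (f : ℤ → F) :
    ∑ m ∈ Finset.Icc a b, f (m + e) = ∑ m ∈ Finset.Icc (a + e) (b + e), f m := by
  rw [← Finset.map_add_right_Icc, Finset.sum_map]
  rfl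

theorem w_mem {r : ℕ} {m : ℤ} (h : w Q r m ≠ 0) : m ∈ Finset.Icc (-(r : ℤ)) r := by
  by_contra hm
  exact h (w_supp Q r m hm)

theorem th_succ (hQ : Nru Q) (r : ℕ) (g : ℤ → F) :
    th Q (r + 1) g = ∑ m ∈ Finset.Icc (-(r : ℤ)) r, w Q r m * (Q.qp (-r) * (cu Q m * g m) +
      Q.qp r * (Q.qp (-m) * g (m + 1) + Q.qp m * g (m - 1))) := by
  have s1 : ∑ m ∈ Finset.Icc (-((r + 1 : ℕ) : ℤ)) ((r + 1 : ℕ) : ℤ),
      w Q r m * (Q.qp (-r) * (cu Q m * g m)) =
      ∑ m ∈ Finset.Icc (-(r : ℤ)) r, w Q r m * (Q.qp (-r) * (cu Q m * g m)) := by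
    refine sum_two fun m hm => ?_
    have h1 := Finset.mem_Icc.1 (w_mem Q (left_ne_zero_of_mul hm))
    rw [Finset.mem_Icc, Finset.mem_Icc]
    push_cast
    omega
  have s2 : ∑ m ∈ Finset.Icc (-((r + 1 : ℕ) : ℤ)) ((r + 1 : ℕ) : ℤ),
      w Q r (m - 1) * (Q.qp (r - m + 1) * g m) =
      ∑ m ∈ Finset.Icc (-(r : ℤ)) r, w Q r m * (Q.qp (r - m) * g (m + 1)) := by
    have h1 := sum_shift (-((r + 1 : ℕ) : ℤ)) ((r + 1 : ℕ) : ℤ) (-1)
      (fun m => w Q r m * (Q.qp (r - m) * g (m + 1)))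
    have h2 : ∀ m : ℤ, w Q r (m - 1) * (Q.qp (r - m + 1) * g m) =
        w Q r (m + -1) * (Q.qp (r - (m + -1)) * g (m + -1 + 1)) := by
      intro m
      have e1 : (r : ℤ) - (m + -1) = r - m + 1 := by ring
      have e2 : m + -1 + 1 = m := by ring
      rw [e1, e2]
      rfl
    rw [Finset.sum_congr rfl fun m _ => h2 m, h1]
    refine sum_two fun m hm => ?_
    have h1 := Finset.mem_Icc.1 (w_mem Q (left_ne_zero_of_mul hm))
    rw [Finset.mem_Icc, Finset.mem_Icc]
    push_cast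
    omega
  have s3 : ∑ m ∈ Finset.Icc (-((r + 1 : ℕ) : ℤ)) ((r + 1 : ℕ) : ℤ),
      w Q r (m + 1) * (Q.qp (r + m + 1) * g m) =
      ∑ m ∈ Finset.Icc (-(r : ℤ)) r, w Q r m * (Q.qp (r + m) * g (m - 1)) := by
    have h1 := sum_shift (-((r + 1 : ℕ) : ℤ)) ((r + 1 : ℕ) : ℤ) 1
      (fun m => w Q r m * (Q.qp (r + m) * g (m - 1)))
    have h2 : ∀ m : ℤ, w Q r (m + 1) * (Q.qp (r + m + 1) * g m) =
        w Q r (m + 1) * (Q.qp (r + (m + 1)) * g (m + 1 - 1)) := by
      intro m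
      have e1 : (r : ℤ) + (m + 1) = r + m + 1 := by ring
      have e2 : m + 1 - 1 = m := by ring
      rw [e1, e2]
    rw [Finset.sum_congr rfl fun m _ => h2 m, h1]
    refine sum_two fun m hm => ?_
    have h1 := Finset.mem_Icc.1 (w_mem Q (left_ne_zero_of_mul hm))
    rw [Finset.mem_Icc, Finset.mem_Icc]
    push_cast
    omega
  have s0 : th Q (r + 1) g = ∑ m ∈ Finset.Icc (-((r + 1 : ℕ) : ℤ)) ((r + 1 : ℕ) : ℤ),
      (w Q r m * (Q.qp (-r) * (cu Q m * g m)) + w Q r (m - 1) * (Q.qp (r - m + 1) * g m) +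
        w Q r (m + 1) * (Q.qp (r + m + 1) * g m)) := by
    unfold th
    refine Finset.sum_congr rfl fun m _ => ?_
    linear_combination (g m) * w_rec Q hQ r m
  rw [s0, Finset.sum_add_distrib, Finset.sum_add_distrib, s1, s2, s3, ← Finset.sum_add_distrib,
    ← Finset.sum_add_distrib]
  refine Finset.sum_congr rfl fun m _ => ?_
  have e1 : Q.qp (r - m) = Q.qp r * Q.qp (-m) := by rw [← SPEC.qp_add]; rfl
  rw [e1, SPEC.qp_add]
  ring

theorem balance (hQ : Nru Q) (r : ℕ) (g : ℤ → F) :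
    ∑ m ∈ Finset.Icc (-(r : ℤ)) r, w Q r m * (Q.qp r * (cu Q m * g m) +
      Q.qp (-r) * (Q.qp m * g (m + 1) + Q.qp (-m) * g (m - 1))) =
    ∑ m ∈ Finset.Icc (-(r : ℤ)) r, w Q r m * (Q.qp (-r) * (cu Q m * g m) +
      Q.qp r * (Q.qp (-m) * g (m + 1) + Q.qp m * g (m - 1))) := by
  have hbr := (brk F Q).2.2.2.2.2.2.2.1
  have b0 : Q.br 0 = 0 := (brk F Q).1
  have s2 : ∑ m ∈ Finset.Icc (-(r : ℤ)) r, Q.br (r - m) * w Q r m * g (m + 1) =
      ∑ m ∈ Finset.Icc (-(r : ℤ)) r, Q.br (r + m) * w Q r m * g m := by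
    have h1 := sum_shift (-(r : ℤ)) r 1 (fun m => Q.br (r + m) * w Q r m * g m)
    have h2 : ∀ m : ℤ, Q.br (r - m) * w Q r m * g (m + 1) =
        Q.br (r + (m + 1)) * w Q r (m + 1) * g (m + 1) := by
      intro m
      have e1 : (r : ℤ) + (m + 1) = r + m + 1 := by ring
      rw [e1, ratio Q hQ]
    rw [Finset.sum_congr rfl fun m _ => h2 m, h1]
    refine sum_two fun m hm => ?_
    have h3 := Finset.mem_Icc.1 (w_mem Q (right_ne_zero_of_mul (left_ne_zero_of_mul hm)))
    have h4 : m ≠ -(r : ℤ) := by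
      rintro rfl
      apply left_ne_zero_of_mul (left_ne_zero_of_mul hm)
      rw [add_neg_cancel, b0]
    rw [Finset.mem_Icc, Finset.mem_Icc]
    omega
  have s3 : ∑ m ∈ Finset.Icc (-(r : ℤ)) r, Q.br (r + m) * w Q r m * g (m - 1) =
      ∑ m ∈ Finset.Icc (-(r : ℤ)) r, Q.br (r - m) * w Q r m * g m := by
    have h1 := sum_shift (-(r : ℤ)) r (-1) (fun m => Q.br (r - m) * w Q r m * g m)
    have h2 : ∀ m : ℤ, Q.br (r + m) * w Q r m * g (m - 1) =
        Q.br (r - (m + -1)) * w Q r (m + -1) * g (m + -1) := by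
      intro m
      have h3 := ratio Q hQ r (m + -1)
      have e1 : (r : ℤ) + (m + -1) + 1 = r + m := by ring
      have e2 : m + -1 + 1 = m := by ring
      rw [e1, e2] at h3
      rw [← h3]
      rfl
    rw [Finset.sum_congr rfl fun m _ => h2 m, h1]
    refine sum_two fun m hm => ?_
    have h3 := Finset.mem_Icc.1 (w_mem Q (right_ne_zero_of_mul (left_ne_zero_of_mul hm)))
    have h4 : m ≠ (r : ℤ) := by
      rintro rfl
      apply left_ne_zero_of_mul (left_ne_zero_of_mul hm)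
      rw [sub_self, b0]
    rw [Finset.mem_Icc, Finset.mem_Icc]
    omega
  have hd := qd_ne Q hQ
  have hsum : ∀ m : ℤ, Q.br (r + m) + Q.br (r - m) = Q.br r * cu Q m := by
    intro m
    apply mul_left_cancel₀ hd
    rw [mul_add, hbr, hbr, ← mul_assoc, hbr, cu_def]
    have x5 : Q.qp (r + m) = Q.qp r * Q.qp m := SPEC.qp_add Q r m
    have x6 : Q.qp (-(r + m)) = Q.qp (-r) * Q.qp (-m) := by
      rw [← SPEC.qp_add]; congr 1; ring
    have x7 : Q.qp (r - m) = Q.qp r * Q.qp (-m) := by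
      rw [← SPEC.qp_add]; rfl
    have x8 : Q.qp (-(r - m)) = Q.qp (-r) * Q.qp m := by
      rw [← SPEC.qp_add]; congr 1; ring
    rw [x5, x6, x7, x8]
    ring
  have key : ∑ m ∈ Finset.Icc (-(r : ℤ)) r, (Q.br (r - m) * w Q r m * g (m + 1) +
      Q.br (r + m) * w Q r m * g (m - 1) - Q.br r * (w Q r m * (cu Q m * g m))) = 0 := by
    rw [Finset.sum_sub_distrib, Finset.sum_add_distrib, s2, s3, ← Finset.sum_add_distrib,
      ← Finset.sum_sub_distrib]
    refine Finset.sum_eq_zero fun m _ => ?_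
    linear_combination (w Q r m * g m) * hsum m
  rw [← sub_eq_zero, ← neg_eq_zero, neg_sub, ← Finset.sum_sub_distrib]
  have h5 : ∀ m : ℤ, w Q r m * (Q.qp (-r) * (cu Q m * g m) +
      Q.qp r * (Q.qp (-m) * g (m + 1) + Q.qp m * g (m - 1))) -
      w Q r m * (Q.qp r * (cu Q m * g m) +
      Q.qp (-r) * (Q.qp m * g (m + 1) + Q.qp (-m) * g (m - 1))) =
      (Q.qp 1 - Q.qp (-1)) * (Q.br (r - m) * w Q r m * g (m + 1) +
        Q.br (r + m) * w Q r m * g (m - 1) - Q.br r * (w Q r m * (cu Q m * g m))) := by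
    intro m
    have y1 := hbr (r - m)
    have y2 := hbr (r + m)
    have y3 := hbr r
    have x5 : Q.qp (r + m) = Q.qp r * Q.qp m := SPEC.qp_add Q r m
    have x6 : Q.qp (-(r + m)) = Q.qp (-r) * Q.qp (-m) := by
      rw [← SPEC.qp_add]; congr 1; ring
    have x7 : Q.qp (r - m) = Q.qp r * Q.qp (-m) := by
      rw [← SPEC.qp_add]; rfl
    have x8 : Q.qp (-(r - m)) = Q.qp (-r) * Q.qp m := by
      rw [← SPEC.qp_add]; congr 1; ring
    rw [x7, x8] at y1
    rw [x5, x6] at y2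
    linear_combination (-(w Q r m * g (m + 1))) * y1 - (w Q r m * g (m - 1)) * y2 +
      (w Q r m * (cu Q m * g m)) * y3
  rw [Finset.sum_congr rfl fun m _ => h5 m, ← Finset.mul_sum, key, mul_zero]

/-- The values on matrices of the last mode. -/
theorem th_M4 (hQ : Nru Q) (r : ℕ) (P : F[X]) (e f : Bool × Bool) :
    Q.i * th Q r (fun m => ((aeval (M4X Q) P : Matrix (Bool × Bool) (Bool × Bool) F[X]) e f).eval
      (Q.lam m)) = ∑ m ∈ Finset.Icc (-(r : ℤ)) r, w Q r m *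
        Gm Q m (P.eval (Q.lam m)) (P.eval (Q.lam (m + 1))) (P.eval (Q.lam (m - 1))) e f := by
  unfold th
  rw [Finset.mul_sum]
  refine Finset.sum_congr rfl fun m _ => ?_
  refine Eq.trans (congrArg (fun t => (Q.i : F) * (w Q r m * (cu Q m * t)))
    (eval_M4X Q (Q.lam m) P e f)) ?_
  rw [← aeval_M4, Matrix.smul_apply, smul_eq_mul, cu_def]
  ring

omit [CharZero F] in
theorem sum_lb_zero (f : Lb 0 → F) : ∑ y, f y = f (Lb.zero 0) := by
  have : Unique (Lb 0) := inferInstanceAs (Unique Unit)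
  exact Fintype.sum_unique f

omit [CharZero F] in
theorem aeval_Im_zero (P : F[X]) (x z : Lb 0 × Lb 0) : aeval (Im Q 0) P x z = P.eval 0 := by
  have h0 : Im Q 0 = 0 := rfl
  have h1 : x = z := by
    have : Subsingleton (Lb 0) := inferInstanceAs (Subsingleton Unit)
    exact Subsingleton.elim _ _
  rw [h0, ← coeff_zero_eq_aeval_zero', Matrix.algebraMap_matrix_apply, if_pos h1,
    coeff_zero_eq_eval_zero]
  rfl

theorem th_zero (hQ : Nru Q) (g : ℤ → F) : th Q 0 g = g 0 := by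
  unfold th
  rw [Finset.sum_eq_single 0]
  · have h3 : w Q 0 0 = (cu Q 0)⁻¹ := by rw [w, if_pos rfl]
    rw [h3, inv_mul_cancel_left₀ (cu_ne Q hQ 0)]
  · intro m hm hm'
    rw [Finset.mem_Icc] at hm
    push_cast at hm
    omega
  · intro h
    simp at h

theorem main (hQ : Nru Q) : ∀ (r : ℕ) (P : F[X]) (x z : Lb r),
    ∑ y, aeval (Im Q r) P (x, y) (z, y) * Kw Q r y =
      if x = z then th Q r (fun m => P.eval (Q.lam m)) else 0
  | 0, P, x, z => by
    have h1 : x = z := rfl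
    rw [if_pos h1, th_zero Q hQ]
    refine (sum_lb_zero _).trans ?_
    have h2 : Kw Q 0 (Lb.zero 0) = 1 := rfl
    have h4 : Q.lam 0 = 0 := by rw [QP.lam, (brk F Q).1, mul_zero]
    rw [h2, h4, mul_one, aeval_Im_zero]
  | r + 1, P, x, z => by
    obtain ⟨x, a⟩ := x
    obtain ⟨z, c⟩ := z
    have hi : (Q.i : F) ≠ 0 := Q.i.ne_zero
    have h1 : ∀ y : Lb r,
        aeval (Im Q (r + 1)) P ((x, a), (y, true)) ((z, c), (y, true)) * Kw Q (r + 1) (y, true) =
        Q.qp (-r) *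
          (aeval (Im Q r) ((aeval (M4X Q) P : Matrix (Bool × Bool) (Bool × Bool) F[X])
            (a, true) (c, true)) (x, y) (z, y) * Kw Q r y) := by
      intro y
      have h2 : Kw Q (r + 1) (y, true) = Q.qp (-r) * Kw Q r y := rfl
      rw [h2, aeval_Im_succ]
      ring
    have h1' : ∀ y : Lb r,
        aeval (Im Q (r + 1)) P ((x, a), (y, false)) ((z, c), (y, false)) * Kw Q (r + 1) (y, false) =
        Q.qp r *
          (aeval (Im Q r) ((aeval (M4X Q) P : Matrix (Bool × Bool) (Bool × Bool) F[X])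
            (a, false) (c, false)) (x, y) (z, y) * Kw Q r y) := by
      intro y
      have h2 : Kw Q (r + 1) (y, false) = Q.qp r * Kw Q r y := rfl
      rw [h2, aeval_Im_succ]
      ring
    have h3 : ∑ y : Lb r, (aeval (Im Q (r + 1)) P ((x, a), (y, true)) ((z, c), (y, true)) *
        Kw Q (r + 1) (y, true) + aeval (Im Q (r + 1)) P ((x, a), (y, false)) ((z, c), (y, false)) *
        Kw Q (r + 1) (y, false)) = if x = z then
          Q.qp (-r) * th Q r (fun m => ((aeval (M4X Q) P :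
            Matrix (Bool × Bool) (Bool × Bool) F[X]) (a, true) (c, true)).eval (Q.lam m)) +
          Q.qp r * th Q r (fun m => ((aeval (M4X Q) P :
            Matrix (Bool × Bool) (Bool × Bool) F[X]) (a, false) (c, false)).eval (Q.lam m))
          else 0 := by
      rw [Finset.sum_add_distrib, Finset.sum_congr rfl fun y _ => h1 y,
        Finset.sum_congr rfl fun y _ => h1' y, ← Finset.mul_sum, ← Finset.mul_sum,
        main hQ r, main hQ r]
      by_cases hxz : x = z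
      · rw [if_pos hxz, if_pos hxz, if_pos hxz]
      · rw [if_neg hxz, if_neg hxz, if_neg hxz, mul_zero, mul_zero, add_zero]
    refine (SPEC.sum_lb _).trans (h3.trans ?_)
    by_cases hxz : x = z
    · rw [if_pos hxz]
      by_cases hac : a = c
      · refine Eq.trans ?_ (if_pos (by rw [hxz, hac])).symm
        subst hac
        apply mul_left_cancel₀ hi
        rw [mul_add, mul_left_comm, th_M4 Q hQ, mul_left_comm, th_M4 Q hQ, th_succ Q hQ]
        cases a
        · rw [← balance Q hQ, Finset.mul_sum, Finset.mul_sum, Finset.mul_sum,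
            ← Finset.sum_add_distrib]
          refine Finset.sum_congr rfl fun m _ => ?_
          simp only [Gm, cu_def]
          ring
        · rw [Finset.mul_sum, Finset.mul_sum, Finset.mul_sum, ← Finset.sum_add_distrib]
          refine Finset.sum_congr rfl fun m _ => ?_
          simp only [Gm, cu_def]
          ring
      · refine Eq.trans ?_ (if_neg (fun h => hac ?_)).symm
        · apply mul_left_cancel₀ hi
          rw [mul_add, mul_left_comm, th_M4 Q hQ, mul_left_comm, th_M4 Q hQ, mul_zero]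
          cases a <;> cases c
          · exact absurd rfl hac
          · simp [Gm]
          · simp [Gm]
          · exact absurd rfl hac
        · exact congrArg (fun p : Lb r × Bool => p.2) h
    · rw [if_neg hxz]
      refine (if_neg (fun h => hxz ?_)).symm
      exact congrArg (fun p : Lb r × Bool => p.1) h

end Field

end PTH

/-- PTH: the weighted trace over the second factor of every polynomial in `I` is a scalar. -/
theorem pth : PTH_Stmt := fun _ _ _ Q hQ r P =>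
  ⟨PTH.th Q r (fun m => P.eval (Q.lam m)), fun x z => PTH.main Q hQ r P x z⟩

end Pool.Agent.T3
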