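import Pool.Agent.T3.Stmts
import Pool.Agent.TB.Brk
import Pool.Agent.TB.Spec

/-!
PTS: the weighted trace over the second factor of the half spin R-matrix and of its inverse.
-/

open Polynomial
open scoped BigOperators

namespace Pool.Agent.T3

open Pool.Agent.TB

namespace PTS

variable {F : Type} [Field F]

theorem exR [CharZero F] (h1 : PTH_Stmt) (h2 : GENF_Stmt) (Q : QP F) (hq : Nru Q) (r : ℕ) :
    ∃ θ : F, ∀ x z : Lb r, ∑ y, Rm Q r (x, y) (z, y) * Kw Q r y = if x = z then θ else 0 := by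
  obtain ⟨θ, hθ⟩ := h1 F Q hq r (Q.interp r fun m => (Q.fu m : F))
  refine ⟨θ, fun x z => ?_⟩
  have h := hθ x z
  rw [(spec brk F Q r ((h2 F Q hq).2.1 r).1).2.1] at h
  exact h

theorem exN [CharZero F] (h1 : PTH_Stmt) (h2 : GENF_Stmt) (Q : QP F) (hq : Nru Q) (r : ℕ) :
    ∃ θ : F, ∀ x z : Lb r, ∑ y, Rn Q r (x, y) (z, y) * Kw Q r y = if x = z then θ else 0 := by
  obtain ⟨θ, hθ⟩ := h1 F Q hq r (Q.interp r fun m => (((Q.fu m)⁻¹ : Fˣ) : F))
  refine ⟨θ, fun x z => ?_⟩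
  have h := hθ x z
  rw [(spec brk F Q r ((h2 F Q hq).2.1 r).1).2.2] at h
  exact h

theorem cr_succ (Q : QP F) (r : ℕ) : (cr Q (r + 1) : F) = Q.qp r * (cr Q r : F) := by
  have h : cr Q (r + 1) = Q.s ^ (2 * (r : ℤ)) * cr Q r := by
    unfold cr
    rw [← zpow_add]
    congr 1
    push_cast
    ring
  rw [h]
  rfl

theorem cr_succ' (Q : QP F) (r : ℕ) :
    (((cr Q (r + 1))⁻¹ : Fˣ) : F) = Q.qp (-(r : ℤ)) * (((cr Q r)⁻¹ : Fˣ) : F) := by
  have h : (cr Q (r + 1))⁻¹ = Q.s ^ (2 * (-(r : ℤ))) * (cr Q r)⁻¹ := by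
    unfold cr
    rw [← zpow_neg, ← zpow_neg, ← zpow_add]
    congr 1
    push_cast
    ring
  rw [h]
  rfl

end PTS

/-- PTS. -/
theorem pts (h1 : PTH_Stmt) (h2 : GENF_Stmt) : PTS_Stmt := by
  intro F _ _ Q hq r
  induction r with
  | zero =>
    intro x z
    have hx : x = z := rfl
    subst hx
    have hU : ∀ f : Lb 0 → F, ∑ y, f y = f x := by
      intro f
      exact Fintype.sum_unique (ι := Unit) f
    rw [hU, hU]
    simp [Rm, Rn, Kw, cr]
  | succ r ih =>
    obtain ⟨θ, hθ⟩ := PTS.exR h1 h2 Q hq (r + 1)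
    obtain ⟨η, hη⟩ := PTS.exN h1 h2 Q hq (r + 1)
    have e1 : θ = (((cr Q (r + 1))⁻¹ : Fˣ) : F) := by
      have h := (hθ (Lb.zero r, true) (Lb.zero r, true)).trans (if_pos rfl)
      rw [SPEC.sum_lb] at h
      rw [← h, PTS.cr_succ', ← (if_pos rfl : (if Lb.zero r = Lb.zero r then
        (((cr Q r)⁻¹ : Fˣ) : F) else 0) = _), ← (ih (Lb.zero r) (Lb.zero r)).1, Finset.mul_sum]
      refine Finset.sum_congr rfl fun y _ => ?_
      have a1 : Rm Q (r + 1) ((Lb.zero r, true), (y, true)) ((Lb.zero r, true), (y, true)) =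
        Rm Q r (Lb.zero r, y) (Lb.zero r, y) := rfl
      have a2 : Rm Q (r + 1) ((Lb.zero r, true), (y, false)) ((Lb.zero r, true), (y, false)) =
        0 := rfl
      have a3 : Kw Q (r + 1) (y, true) = Q.qp (-(r : ℤ)) * Kw Q r y := rfl
      rw [a1, a2, a3]
      ring
    have e2 : η = (cr Q (r + 1) : F) := by
      have h := (hη (Lb.zero r, false) (Lb.zero r, false)).trans (if_pos rfl)
      rw [SPEC.sum_lb] at h
      rw [← h, PTS.cr_succ, ← (if_pos rfl : (if Lb.zero r = Lb.zero r then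
        (cr Q r : F) else 0) = _), ← (ih (Lb.zero r) (Lb.zero r)).2, Finset.mul_sum]
      refine Finset.sum_congr rfl fun y _ => ?_
      have a1 : Rn Q (r + 1) ((Lb.zero r, false), (y, false)) ((Lb.zero r, false), (y, false)) =
        Rn Q r (Lb.zero r, y) (Lb.zero r, y) := rfl
      have a2 : Rn Q (r + 1) ((Lb.zero r, false), (y, true)) ((Lb.zero r, false), (y, true)) =
        0 := rfl
      have a3 : Kw Q (r + 1) (y, false) = Q.qp r * Kw Q r y := rfl
      rw [a1, a2, a3]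
      ring
    intro x z
    rw [hθ x z, hη x z, e1, e2]
    exact ⟨rfl, rfl⟩

end Pool.Agent.T3
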