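import Pool.Agent.T3.Stmts
import Pool.Agent.TB.Emb
import Pool.Agent.TB.Brk
import Pool.Agent.TB.Rel
import Pool.Agent.TB.Spec
import Pool.Agent.TB.Fc
import Pool.Agent.TB.Brd
import Pool.Agent.TB.Rpr
import Pool.Agent.TB.Tdg
import Pool.Agent.TB.Hz
import Pool.Agent.TB.Gps
import Pool.Agent.TB.Nat

/-!
Module RYB: the half spin R-matrices are good, and positive and negative crossings agree
at `h = 0`. See PAPER.md in this folder.
-/

open Polynomial
open scoped BigOperators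

namespace Pool.Agent.T3

open Pool.Agent.TB Pool.Agent.LibH11

namespace RYB

/-! ### Restriction of matrices to a subset of the labels -/

theorem sub_mul {A I J : Type} [CommRing A] [Fintype I] [Fintype J] (e : I → J)
    (he : Function.Injective e) (M N : Matrix J J A)
    (hM : ∀ p c, c ∉ Set.range e → M (e p) c = 0) :
    (M * N).submatrix e e = M.submatrix e e * N.submatrix e e := by
  ext p c
  simp only [Matrix.submatrix_apply, Matrix.mul_apply]
  symm
  refine Fintype.sum_of_injective e he _ _ ?_ ?_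
  · intro i hi
    rw [hM p i hi, zero_mul]
  · intro i
    rfl

/-- even pairs -/
def e2 (r : ℕ) (p : Ev r × Ev r) : Lb r × Lb r := (p.1.1, p.2.1)

/-- even triples -/
def e3 (r : ℕ) (p : Ev r × Ev r × Ev r) : Lb r × Lb r × Lb r := (p.1.1, p.2.1.1, p.2.2.1)

theorem e2_inj (r : ℕ) : Function.Injective (e2 r) := by
  rintro ⟨⟨a, ha⟩, ⟨b, hb⟩⟩ ⟨⟨c, hc⟩, ⟨d, hd⟩⟩ h
  simp only [e2, Prod.mk.injEq] at h
  obtain ⟨h1, h2⟩ := h
  subst h1 h2
  rfl

theorem e3_inj (r : ℕ) : Function.Injective (e3 r) := by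
  rintro ⟨⟨a, ha⟩, ⟨b, hb⟩, ⟨c, hc⟩⟩ ⟨⟨a', ha'⟩, ⟨b', hb'⟩, ⟨c', hc'⟩⟩ h
  simp only [e3, Prod.mk.injEq] at h
  obtain ⟨h1, h2, h3⟩ := h
  subst h1 h2 h3
  rfl

theorem not_range2 {r : ℕ} {c : Lb r × Lb r} (h : c ∉ Set.range (e2 r)) :
    c.1.par = true ∨ c.2.par = true := by
  by_contra hc
  push Not at hc
  obtain ⟨h1, h2⟩ := hc
  exact h ⟨(⟨c.1, by simpa using h1⟩, ⟨c.2, by simpa using h2⟩), rfl⟩

theorem not_range3 {r : ℕ} {c : Lb r × Lb r × Lb r} (h : c ∉ Set.range (e3 r)) :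
    c.1.par = true ∨ c.2.1.par = true ∨ c.2.2.par = true := by
  by_contra hc
  push Not at hc
  obtain ⟨h1, h2, h3⟩ := hc
  exact h ⟨(⟨c.1, by simpa using h1⟩, ⟨c.2.1, by simpa using h2⟩, ⟨c.2.2, by simpa using h3⟩), rfl⟩

theorem emb12_pos {A L : Type} [CommRing A] [DecidableEq L] (M : Matrix (L × L) (L × L) A)
    (p c : L × L × L) (h : p.2.2 = c.2.2) : emb12 M p c = M (p.1, p.2.1) (c.1, c.2.1) := if_pos h

theorem emb12_neg {A L : Type} [CommRing A] [DecidableEq L] (M : Matrix (L × L) (L × L) A)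
    (p c : L × L × L) (h : p.2.2 ≠ c.2.2) : emb12 M p c = 0 := if_neg h

theorem emb23_pos {A L : Type} [CommRing A] [DecidableEq L] (M : Matrix (L × L) (L × L) A)
    (p c : L × L × L) (h : p.1 = c.1) : emb23 M p c = M p.2 c.2 := if_pos h

theorem emb23_neg {A L : Type} [CommRing A] [DecidableEq L] (M : Matrix (L × L) (L × L) A)
    (p c : L × L × L) (h : p.1 ≠ c.1) : emb23 M p c = 0 := if_neg h

section

variable {A : Type} [CommRing A] {r : ℕ}

/-- a matrix exchanging the parities -/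
def Par (M : Matrix (Lb r × Lb r) (Lb r × Lb r) A) : Prop :=
  ∀ x y a b : Lb r, x.par ≠ b.par ∨ y.par ≠ a.par → M (x, y) (a, b) = 0

theorem par2 {M : Matrix (Lb r × Lb r) (Lb r × Lb r) A} (hM : Par M) (p : Ev r × Ev r)
    (c : Lb r × Lb r) (hc : c ∉ Set.range (e2 r)) : M (e2 r p) c = 0 := by
  obtain ⟨a, b⟩ := c
  refine hM _ _ _ _ ?_
  rcases not_range2 hc with h | h
  · right
    rw [p.2.2]
    simp only at h
    rw [h]
    simp
  · left
    rw [p.1.2]
    simp only at h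
    rw [h]
    simp

theorem par12 {M : Matrix (Lb r × Lb r) (Lb r × Lb r) A} (hM : Par M) (p : Ev r × Ev r × Ev r)
    (c : Lb r × Lb r × Lb r) (hc : c ∉ Set.range (e3 r)) : emb12 M (e3 r p) c = 0 := by
  by_cases hd : (e3 r p).2.2 = c.2.2
  · rw [emb12_pos _ _ _ hd]
    refine hM _ _ _ _ ?_
    have h1 : (e3 r p).1.par = false := p.1.2
    have h2 : (e3 r p).2.1.par = false := p.2.1.2
    have h3 : (e3 r p).2.2.par = false := p.2.2.2
    rcases not_range3 hc with h | h | h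
    · right
      rw [h2, h]
      simp
    · left
      rw [h1, h]
      simp
    · rw [← hd, h3] at h
      simp at h
  · exact emb12_neg _ _ _ hd

theorem par23 {M : Matrix (Lb r × Lb r) (Lb r × Lb r) A} (hM : Par M) (p : Ev r × Ev r × Ev r)
    (c : Lb r × Lb r × Lb r) (hc : c ∉ Set.range (e3 r)) : emb23 M (e3 r p) c = 0 := by
  by_cases hd : (e3 r p).1 = c.1
  · rw [emb23_pos _ _ _ hd]
    refine hM _ _ _ _ ?_
    have h1 : (e3 r p).1.par = false := p.1.2
    have h2 : (e3 r p).2.1.par = false := p.2.1.2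
    have h3 : (e3 r p).2.2.par = false := p.2.2.2
    rcases not_range3 hc with h | h | h
    · rw [← hd, h1] at h
      simp at h
    · right
      rw [show (p.2.2.1 : Lb r).par = false from h3, h]
      simp
    · left
      rw [show (p.2.1.1 : Lb r).par = false from h2, h]
      simp
  · exact emb23_neg _ _ _ hd

theorem emb12_sub (M : Matrix (Lb r × Lb r) (Lb r × Lb r) A) :
    emb12 (M.submatrix (e2 r) (e2 r)) = (emb12 M).submatrix (e3 r) (e3 r) := by
  ext p c
  rw [Matrix.submatrix_apply]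
  by_cases h : p.2.2 = c.2.2
  · rw [emb12_pos _ _ _ h, emb12_pos _ _ _ (congrArg Subtype.val h)]
    rfl
  · rw [emb12_neg _ _ _ h, emb12_neg _ _ _ (fun h' => h (Subtype.ext h'))]

theorem emb23_sub (M : Matrix (Lb r × Lb r) (Lb r × Lb r) A) :
    emb23 (M.submatrix (e2 r) (e2 r)) = (emb23 M).submatrix (e3 r) (e3 r) := by
  ext p c
  rw [Matrix.submatrix_apply]
  by_cases h : p.1 = c.1
  · rw [emb23_pos _ _ _ h, emb23_pos _ _ _ (congrArg Subtype.val h)]
    rfl
  · rw [emb23_neg _ _ _ h, emb23_neg _ _ _ (fun h' => h (Subtype.ext h'))]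

theorem one_sub2 : (1 : Matrix (Lb r × Lb r) (Lb r × Lb r) A).submatrix (e2 r) (e2 r) = 1 :=
  Matrix.submatrix_one _ (e2_inj r)

variable (Q : QP A)

theorem par_Rm (r : ℕ) : Par (Rm Q r) := fun x y a b h => ((rpr brk A Q r).2.1 x y a b h).1

theorem par_Rn (r : ℕ) : Par (Rn Q r) := fun x y a b h => ((rpr brk A Q r).2.1 x y a b h).2

theorem R_eq (r : ℕ) : (ybt Q r).R = (cr Q r : A) • (Rm Q r).submatrix (e2 r) (e2 r) := by
  ext p c
  rfl

theorem Ri_eq (r : ℕ) :
    (ybt Q r).Ri = (((cr Q r)⁻¹ : Aˣ) : A) • (Rn Q r).submatrix (e2 r) (e2 r) := by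
  ext p c
  rfl

theorem mul_inv' (r : ℕ) : (ybt Q r).R * (ybt Q r).Ri = 1 := by
  rw [R_eq, Ri_eq, Matrix.smul_mul, Matrix.mul_smul, ← sub_mul _ (e2_inj r) _ _
    (fun p c hc => par2 (par_Rm Q r) p c hc), (rpr brk A Q r).1.2.2.1, one_sub2, smul_smul,
    Units.mul_inv, one_smul]

theorem inv_mul' (r : ℕ) : (ybt Q r).Ri * (ybt Q r).R = 1 := by
  rw [R_eq, Ri_eq, Matrix.smul_mul, Matrix.mul_smul, ← sub_mul _ (e2_inj r) _ _
    (fun p c hc => par2 (par_Rn Q r) p c hc), (rpr brk A Q r).1.2.2.2, one_sub2, smul_smul,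
    Units.inv_mul, one_smul]

theorem braid' [IsDomain A] (r : ℕ) (hg : Q.Gen r) (hreg : Q.Reg r) :
    emb12 (ybt Q r).R * emb23 (ybt Q r).R * emb12 (ybt Q r).R =
      emb23 (ybt Q r).R * emb12 (ybt Q r).R * emb23 (ybt Q r).R := by
  obtain ⟨_, _, _, he4, _⟩ := emb A (Ev r)
  have h1 : emb12 (ybt Q r).R = (cr Q r : A) • (emb12 (Rm Q r)).submatrix (e3 r) (e3 r) := by
    rw [R_eq, (he4 _ _).1, emb12_sub]
  have h2 : emb23 (ybt Q r).R = (cr Q r : A) • (emb23 (Rm Q r)).submatrix (e3 r) (e3 r) := by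
    rw [R_eq, (he4 _ _).2, emb23_sub]
  have hp1 := fun p c hc => par12 (par_Rm Q r) p c hc
  have hp2 := fun p c hc => par23 (par_Rm Q r) p c hc
  have hyb := TDG.ybm (Q := Q) (r := r) emb rel (spec brk) (brd brk fc) hg hreg
  rw [h1, h2]
  simp only [Matrix.smul_mul, Matrix.mul_smul, mul_assoc]
  rw [← sub_mul _ (e3_inj r) _ _ hp2, ← sub_mul _ (e3_inj r) _ _ hp1,
    ← sub_mul _ (e3_inj r) _ _ hp1, ← sub_mul _ (e3_inj r) _ _ hp2, ← mul_assoc, ← mul_assoc, hyb]

end

/-! ### Base change -/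

section Base

variable {A B : Type} [CommRing A] [CommRing B] (φ : A →+* B) (Q : QP A)

theorem s_map : (((Q.map φ).s : Bˣ) : B) = φ (Q.s : A) := rfl

theorem sinv_map : ((((Q.map φ).s)⁻¹ : Bˣ) : B) = φ ((Q.s⁻¹ : Aˣ) : A) := by
  unfold QP.map
  simp only
  rw [← map_inv]
  rfl

theorem kinv_map (u v : Bool) : kinv (Q.map φ) u v = φ (kinv Q u v) := by
  cases u <;> cases v <;> simp [kinv, NAT.qp_map]

theorem bm_map (u v a b : Bool) : bm B u v a b = φ (bm A u v a b) := by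
  cases u <;> cases v <;> cases a <;> cases b <;> simp [bm]

theorem Im_map : ∀ (r : ℕ) (p c : Lb r × Lb r), Im (Q.map φ) r p c = φ (Im Q r p c)
  | 0, p, c => by simp [Im]
  | r + 1, p, c => by
      simp only [Im]
      rw [map_add]
      congr 1
      · split_ifs
        · rw [map_mul, kinv_map, Im_map r]
        · rw [map_zero]
      · split_ifs
        · rw [bm_map φ]
        · rw [map_zero]

theorem Rm_map : ∀ (r : ℕ) (p c : Lb r × Lb r), Rm (Q.map φ) r p c = φ (Rm Q r p c)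
  | 0, p, c => by
      simp only [Rm]
      by_cases h : p = c
      · rw [h, Matrix.one_apply_eq, Matrix.one_apply_eq, map_one]
      · rw [Matrix.one_apply_ne h, Matrix.one_apply_ne h, map_zero]
  | r + 1, p, c => by
      have IH := Rm_map r
      have IM : (Rm (Q.map φ) r * Im (Q.map φ) r) (p.1.1, p.2.1) (c.1.1, c.2.1) =
          φ ((Rm Q r * Im Q r) (p.1.1, p.2.1) (c.1.1, c.2.1)) := by
        rw [Matrix.mul_apply, Matrix.mul_apply, map_sum]
        exact Finset.sum_congr rfl fun u _ => by rw [IH, Im_map, map_mul]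
      obtain ⟨⟨x1, x2⟩, ⟨y1, y2⟩⟩ := p
      obtain ⟨⟨a1, a2⟩, ⟨b1, b2⟩⟩ := c
      simp only at IM
      cases x2 <;> cases y2 <;> cases a2 <;> cases b2 <;>
        simp only [Rm, IM, IH, map_mul, map_neg, map_sub, map_zero, NAT.qp_map, s_map]

theorem Rn_map : ∀ (r : ℕ) (p c : Lb r × Lb r), Rn (Q.map φ) r p c = φ (Rn Q r p c)
  | 0, p, c => by
      simp only [Rn]
      by_cases h : p = c
      · rw [h, Matrix.one_apply_eq, Matrix.one_apply_eq, map_one]
      · rw [Matrix.one_apply_ne h, Matrix.one_apply_ne h, map_zero]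
  | r + 1, p, c => by
      have IH := Rn_map r
      have IM : (Rn (Q.map φ) r * Im (Q.map φ) r) (p.1.1, p.2.1) (c.1.1, c.2.1) =
          φ ((Rn Q r * Im Q r) (p.1.1, p.2.1) (c.1.1, c.2.1)) := by
        rw [Matrix.mul_apply, Matrix.mul_apply, map_sum]
        exact Finset.sum_congr rfl fun u _ => by rw [IH, Im_map, map_mul]
      obtain ⟨⟨x1, x2⟩, ⟨y1, y2⟩⟩ := p
      obtain ⟨⟨a1, a2⟩, ⟨b1, b2⟩⟩ := c
      simp only at IM
      cases x2 <;> cases y2 <;> cases a2 <;> cases b2 <;>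
        simp only [Rn, IM, IH, map_mul, map_neg, map_sub, map_zero, NAT.qp_map, sinv_map]

theorem Kw_map : ∀ (r : ℕ) (x : Lb r), Kw (Q.map φ) r x = φ (Kw Q r x)
  | 0, _ => by simp [Kw]
  | r + 1, x => by
      simp only [Kw]
      rw [map_mul, Kw_map r, NAT.qp_map, NAT.qp_map]
      split_ifs <;> rfl

theorem cr_map (r : ℕ) : cr (Q.map φ) r = Units.map (φ : A →* B) (cr Q r) := by
  unfold cr
  rw [map_zpow]
  rfl

end Base

/-! ### The power series -/

theorem coeff01 (n : ℕ) : PowerSeries.coeff 0 ((1 + PowerSeries.X : PowerSeries ℂ) ^ n) = 1 ∧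
    PowerSeries.coeff 1 ((1 + PowerSeries.X : PowerSeries ℂ) ^ n) = (n : ℂ) := by
  induction n with
  | zero =>
    constructor
    · simp
    · rw [pow_zero, PowerSeries.coeff_one]
      simp
  | succ n ih =>
    obtain ⟨h0, h1⟩ := ih
    constructor
    · rw [pow_succ, mul_add, mul_one, map_add, h0, PowerSeries.coeff_zero_mul_X, add_zero]
    · rw [pow_succ, mul_add, mul_one, map_add, h1, show (1 : ℕ) = 0 + 1 from rfl,
        PowerSeries.coeff_succ_mul_X, h0]
      push_cast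
      ring

theorem qps_nru (m : ℤ) (hm : m ≠ 0) : QPS.qp m ≠ 1 := by
  intro h
  have h1 : QPS.s ^ (2 * m) = 1 := Units.ext h
  have h2 : QPS.s ^ (2 * m).natAbs = 1 := by
    rcases Int.natAbs_eq (2 * m) with h3 | h3
    · rw [← zpow_natCast, ← h3, h1]
    · rw [← zpow_natCast, ← inv_inj, ← zpow_neg, ← h3, h1, inv_one]
  have h4 := congrArg (fun u : (PowerSeries ℂ)ˣ => (u : PowerSeries ℂ)) h2
  simp only [Units.val_pow_eq_pow_val, Units.val_one] at h4
  have h5 : ((QPS.s : (PowerSeries ℂ)ˣ) : PowerSeries ℂ) = 1 + PowerSeries.X := rfl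
  rw [h5] at h4
  have h6 := (coeff01 (2 * m).natAbs).2
  rw [h4, PowerSeries.coeff_one, if_neg one_ne_zero] at h6
  have h7 : (2 * m).natAbs = 0 := by exact_mod_cast h6.symm
  omega

end RYB

open RYB in
/-- Module RYB. -/
theorem ryb (h1 : PTS_Stmt) (h2 : KCOM_Stmt) : RYB_Stmt := by
  intro r
  have hsum : ∀ (M : Matrix (Lb r × Lb r) (Lb r × Lb r) (PowerSeries ℂ)), Par M →
      ∀ x z : Ev r, ∑ y : Ev r, M (x.1, y.1) (z.1, y.1) * Kw QPS r y.1 =
        ∑ y : Lb r, M (x.1, y) (z.1, y) * Kw QPS r y := by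
    intro M hM x z
    refine TDG.sum_ev (fun y : Lb r => M (x.1, y) (z.1, y) * Kw QPS r y) fun u hu => ?_
    rw [hM, zero_mul]
    left
    rw [x.2, hu]
    simp
  let F := FractionRing (PowerSeries ℂ)
  let φ : PowerSeries ℂ →+* F := algebraMap (PowerSeries ℂ) F
  have hφ : Function.Injective φ := IsFractionRing.injective (PowerSeries ℂ) F
  have hchar : CharZero F := charZero_of_injective_ringHom
    (f := φ.comp (PowerSeries.C : ℂ →+* PowerSeries ℂ)) (hφ.comp PowerSeries.C_injective)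
  have hN : Nru (QPS.map φ) := by
    intro m hm h
    rw [NAT.qp_map] at h
    exact qps_nru m hm (hφ (by rw [h, map_one]))
  have hpt := h1 F (QPS.map φ) hN r
  have hm1 : ∀ x z : Lb r, ∑ y, Rm QPS r (x, y) (z, y) * Kw QPS r y =
      if x = z then (((cr QPS r)⁻¹ : (PowerSeries ℂ)ˣ) : PowerSeries ℂ) else 0 := by
    intro x z
    apply hφ
    have h3 := (hpt x z).1
    rw [map_sum]
    simp only [map_mul, ← Rm_map, ← Kw_map]
    rw [h3, cr_map, ← map_inv]
    split_ifs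
    · rfl
    · rw [map_zero]
  have hm2 : ∀ x z : Lb r, ∑ y, Rn QPS r (x, y) (z, y) * Kw QPS r y =
      if x = z then ((cr QPS r : (PowerSeries ℂ)ˣ) : PowerSeries ℂ) else 0 := by
    intro x z
    apply hφ
    have h3 := (hpt x z).2
    rw [map_sum]
    simp only [map_mul, ← Rn_map, ← Kw_map]
    rw [h3, cr_map]
    split_ifs
    · rfl
    · rw [map_zero]
  refine ⟨⟨mul_inv' QPS r, inv_mul' QPS r, braid' QPS r (gps brk r).1 (gps brk r).2, ?_, ?_, ?_⟩,
    ?_⟩
  · intro x y a b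
    have h3 := (h2 (PowerSeries ℂ) QPS r x.1 y.1 a.1 b.1).2.1
    simp only [ybt]
    rw [mul_assoc, mul_assoc, h3]
  · intro x z
    simp only [ybt]
    simp only [mul_assoc]
    rw [← Finset.mul_sum, hsum _ (par_Rm QPS r), hm1]
    by_cases h : x = z
    · rw [if_pos h, if_pos (congrArg Subtype.val h), Units.mul_inv]
    · rw [if_neg h, if_neg (fun h' => h (Subtype.ext h')), mul_zero]
  · intro x z
    simp only [ybt]
    simp only [mul_assoc]
    rw [← Finset.mul_sum, hsum _ (par_Rn QPS r), hm2]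
    by_cases h : x = z
    · rw [if_pos h, if_pos (congrArg Subtype.val h), Units.inv_mul]
    · rw [if_neg h, if_neg (fun h' => h (Subtype.ext h')), mul_zero]
  · intro p c
    have hs' : PowerSeries.constantCoeff ((QPS.s⁻¹ : (PowerSeries ℂ)ˣ) : PowerSeries ℂ) = 1 := by
      rw [HZ.mapv, map_inv, HZ.qps_mapS, inv_one, Units.val_one]
    have hq : PowerSeries.constantCoeff (QPS.qp 1 - QPS.qp (-1)) = 0 := by
      rw [map_sub, HZ.mapQp, HZ.mapQp, sub_self]
    have hk := HZ.key QPS PowerSeries.constantCoeff HZ.qps_s hs' hq r p.1.1 p.2.1 c.1.1 c.2.1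
    rw [c.1.2, c.2.2] at hk
    simp only [Bool.xor_self, Bool.false_eq_true, if_false, one_mul] at hk
    simp only [ybt, cr]
    rw [map_mul, map_mul, hk, HZ.mapv, HZ.mapv, map_inv, map_zpow, HZ.qps_mapS, one_zpow, inv_one]

end Pool.Agent.T3
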