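import Pool.Agent.T3.Stmts2

/-!
TAILA: the sum of the multiplicities over large values of the first coordinate.
-/

namespace Pool.Agent.T3.TAILA

open Finset

/-- The sum of the inverse squares over positive members of one residue class. -/
theorem class_sum (L : ℤ) (hL : 0 < L) (s : Finset ℤ) :
    ∀ x : ℝ, 0 < x → (∀ a ∈ s, x ≤ (a : ℝ)) → (∀ a ∈ s, ∀ b ∈ s, L ∣ a - b) →
    ∑ a ∈ s, 1 / (a : ℝ) ^ 2 ≤ 1 / x ^ 2 + 1 / (L * x) := by
  have hLr : (0 : ℝ) < L := by exact_mod_cast hL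
  induction s using Finset.induction_on_min with
  | empty =>
    intro x hx _ _
    rw [sum_empty]
    positivity
  | insert a s ha ih =>
    intro x hx h1 h2
    have hna : a ∉ s := fun h => lt_irrefl _ (ha a h)
    rw [sum_insert hna]
    have hax : x ≤ (a : ℝ) := h1 a (mem_insert_self _ _)
    have ha0 : (0 : ℝ) < a := lt_of_lt_of_le hx hax
    have h3 : ∑ b ∈ s, 1 / (b : ℝ) ^ 2 ≤ 1 / ((a : ℝ) + L) ^ 2 + 1 / (L * ((a : ℝ) + L)) := by
      apply ih _ (by positivity)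
      · intro b hb
        have h4 : L ∣ b - a := h2 b (mem_insert_of_mem hb) a (mem_insert_self _ _)
        have h5 : 0 < b - a := by linarith [ha b hb]
        have h6 := Int.le_of_dvd h5 h4
        have h7 : a + L ≤ b := by linarith
        exact_mod_cast h7
      · intro b hb b' hb'
        exact h2 b (mem_insert_of_mem hb) b' (mem_insert_of_mem hb')
    have h4 : 1 / ((a : ℝ) + L) ^ 2 + 1 / (L * ((a : ℝ) + L)) ≤ 1 / (L * a) := by
      have h5 : 1 / ((L : ℝ) * a) - (1 / ((a : ℝ) + L) ^ 2 + 1 / (L * ((a : ℝ) + L))) =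
          L / (a * ((a : ℝ) + L) ^ 2) := by
        have h6 : (a : ℝ) + L ≠ 0 := by positivity
        field_simp
        ring
      have h6 : 0 ≤ L / (a * ((a : ℝ) + L) ^ 2) := by positivity
      linarith
    have h5 : 1 / (a : ℝ) ^ 2 ≤ 1 / x ^ 2 :=
      one_div_le_one_div_of_le (by positivity) (by gcongr)
    have h6 : 1 / ((L : ℝ) * a) ≤ 1 / (L * x) :=
      one_div_le_one_div_of_le (by positivity) (by gcongr)
    linarith

theorem coprime_of_odd {u : ℤ} (hu : Odd u) (m : ℕ) : IsCoprime ((4 : ℤ) ^ m) u := by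
  obtain ⟨t, ht⟩ := hu
  have h1 : IsCoprime (2 : ℤ) u := ⟨-t, 1, by rw [ht]; ring⟩
  have h2 : (4 : ℤ) ^ m = 2 ^ (2 * m) := by rw [pow_mul]; norm_num
  rw [h2]
  exact h1.pow_left

theorem half_even {D N a : ℤ} (hD : Odd D) {m : ℕ}
    (ha : (4 : ℤ) ^ (m + 2) ∣ D * a ^ 2 + 4 * N) :
    ∃ a' : ℤ, a = 2 * a' ∧ (4 : ℤ) ^ (m + 1) ∣ D * a' ^ 2 + N := by
  have h1 : Even a := by
    by_contra h
    have h2 : Odd a := Int.not_even_iff_odd.1 h
    have h3 : Odd (D * a ^ 2 + 4 * N) := by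
      apply Odd.add_even (hD.mul (h2.pow))
      exact ⟨2 * N, by ring⟩
    have h4 : (2 : ℤ) ∣ D * a ^ 2 + 4 * N :=
      (Dvd.intro (2 * 4 ^ (m + 1)) (by ring)).trans ha
    exact (Int.not_even_iff_odd.2 h3) (even_iff_two_dvd.2 h4)
  obtain ⟨a', ha'⟩ := h1
  refine ⟨a', by rw [ha']; ring, ?_⟩
  have h2 : D * a ^ 2 + 4 * N = 4 * (D * a' ^ 2 + N) := by rw [ha']; ring
  rw [h2, show (4 : ℤ) ^ (m + 2) = 4 * 4 ^ (m + 1) by ring] at ha
  exact Int.dvd_of_mul_dvd_mul_left (by norm_num) ha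

/-- Two solutions of the congruence agree up to the sign modulo `4 ^ (k - 1)`. -/
theorem classes {D N : ℤ} (hD : Odd D) (hN : Odd N) (k : ℕ) {a b : ℤ}
    (ha : (4 : ℤ) ^ k ∣ D * a ^ 2 + 4 * N) (hb : (4 : ℤ) ^ k ∣ D * b ^ 2 + 4 * N) :
    (4 : ℤ) ^ (k - 1) ∣ a - b ∨ (4 : ℤ) ^ (k - 1) ∣ a + b := by
  match k, ha, hb with
  | 0, _, _ => exact Or.inl (by simp)
  | 1, _, _ => exact Or.inl (by simp)
  | m + 2, ha, hb =>
    obtain ⟨a', rfl, ha'⟩ := half_even hD ha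
    obtain ⟨b', rfl, hb'⟩ := half_even hD hb
    have hodd : ∀ x : ℤ, (4 : ℤ) ^ (m + 1) ∣ D * x ^ 2 + N → Odd x := by
      intro x hx
      by_contra h
      have h2 : Even x := Int.not_odd_iff_even.1 h
      have h3 : Odd (D * x ^ 2 + N) := by
        apply Even.add_odd _ hN
        exact (h2.pow_of_ne_zero (by norm_num)).mul_left D
      have h4 : (2 : ℤ) ∣ D * x ^ 2 + N :=
        (Dvd.intro (2 * 4 ^ m) (by ring)).trans hx
      exact (Int.not_even_iff_odd.2 h3) (even_iff_two_dvd.2 h4)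
    have oa := hodd a' ha'
    have ob := hodd b' hb'
    obtain ⟨u, hu⟩ : ∃ u, a' - b' = 2 * u := by
      obtain ⟨s, hs⟩ := oa
      obtain ⟨t, ht⟩ := ob
      exact ⟨s - t, by rw [hs, ht]; ring⟩
    obtain ⟨w, hw⟩ : ∃ w, a' + b' = 2 * w := by
      obtain ⟨s, hs⟩ := oa
      obtain ⟨t, ht⟩ := ob
      exact ⟨s + t + 1, by rw [hs, ht]; ring⟩
    have h1 : (4 : ℤ) ^ (m + 1) ∣ D * (4 * (u * w)) := by
      have h2 := dvd_sub ha' hb'
      have h3 : D * a' ^ 2 + N - (D * b' ^ 2 + N) = D * (4 * (u * w)) := by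
        have : (4 : ℤ) * (u * w) = (a' - b') * (a' + b') := by rw [hu, hw]; ring
        rw [this]; ring
      rwa [h3] at h2
    have h2 : (4 : ℤ) ^ (m + 1) ∣ 4 * (u * w) := (coprime_of_odd hD (m + 1)).dvd_of_dvd_mul_left h1
    have h3 : (4 : ℤ) ^ m ∣ u * w := by
      rw [pow_succ, mul_comm] at h2
      exact Int.dvd_of_mul_dvd_mul_left (by norm_num) h2
    have h4 : u + w = a' := by linarith
    rcases Int.even_or_odd u with hu' | hu'
    · have hw' : Odd w := by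
        rcases Int.even_or_odd w with h | h
        · exact absurd (h4 ▸ hu'.add h) (Int.not_even_iff_odd.2 oa)
        · exact h
      left
      have h5 : (4 : ℤ) ^ m ∣ u := (coprime_of_odd hw' m).dvd_of_dvd_mul_right h3
      rw [show m + 2 - 1 = m + 1 by omega]
      have h6 : 2 * a' - 2 * b' = 4 * u := by linarith
      rw [h6, pow_succ, mul_comm]
      exact mul_dvd_mul_left 4 h5
    · right
      have h5 : (4 : ℤ) ^ m ∣ w := (coprime_of_odd hu' m).dvd_of_dvd_mul_left h3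
      rw [show m + 2 - 1 = m + 1 by omega]
      have h6 : 2 * a' + 2 * b' = 4 * w := by linarith
      rw [h6, pow_succ, mul_comm]
      exact mul_dvd_mul_left 4 h5

/-- The sum over the solutions of one congruence. -/
theorem level_sum {D N : ℤ} (hD : Odd D) (hN : Odd N) (k : ℕ) (T : Finset ℤ) {Y : ℝ} (hY : 0 < Y)
    (h1 : ∀ a ∈ T, Y ≤ (a : ℝ)) (h2 : ∀ a ∈ T, (4 : ℤ) ^ k ∣ D * a ^ 2 + 4 * N) :
    ∑ a ∈ T, 1 / (a : ℝ) ^ 2 ≤ 2 * (1 / Y ^ 2 + 1 / ((4 : ℝ) ^ (k - 1) * Y)) := by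
  classical
  rcases T.eq_empty_or_nonempty with rfl | ⟨b, hb⟩
  · rw [sum_empty]
    positivity
  · rw [← sum_filter_add_sum_filter_not T (fun a => (4 : ℤ) ^ (k - 1) ∣ a - b)]
    have hL : (0 : ℤ) < 4 ^ (k - 1) := by positivity
    have e1 : ∑ a ∈ T.filter (fun a => (4 : ℤ) ^ (k - 1) ∣ a - b), 1 / (a : ℝ) ^ 2 ≤
        1 / Y ^ 2 + 1 / (((4 ^ (k - 1) : ℤ) : ℝ) * Y) := by
      apply class_sum _ hL _ _ hY
      · intro a ha
        exact h1 a (mem_filter.1 ha).1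
      · intro a ha a' ha'
        have := dvd_sub (mem_filter.1 ha).2 (mem_filter.1 ha').2
        rwa [sub_sub_sub_cancel_right] at this
    have e2 : ∑ a ∈ T.filter (fun a => ¬ (4 : ℤ) ^ (k - 1) ∣ a - b), 1 / (a : ℝ) ^ 2 ≤
        1 / Y ^ 2 + 1 / (((4 ^ (k - 1) : ℤ) : ℝ) * Y) := by
      have key : ∀ a ∈ T.filter (fun a => ¬ (4 : ℤ) ^ (k - 1) ∣ a - b),
          (4 : ℤ) ^ (k - 1) ∣ a + b := by
        intro a ha
        rw [mem_filter] at ha
        exact (classes hD hN k (h2 a ha.1) (h2 b hb)).resolve_left ha.2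
      apply class_sum _ hL _ _ hY
      · intro a ha
        exact h1 a (mem_filter.1 ha).1
      · intro a ha a' ha'
        have := dvd_sub (key a ha) (key a' ha')
        rwa [add_sub_add_right_eq_sub] at this
    push_cast at e1 e2
    linarith

theorem tele {B K : ℝ} (hB : 0 < B) (hK : 0 < K) (m : ℕ) :
    ∑ k ∈ range m, (2 : ℝ) ^ k / (K + 2 ^ k / B) ^ 2 ≤
      2 * B * (1 / K - 1 / (K + 2 ^ m / (2 * B))) := by
  induction m with
  | zero =>
    rw [sum_range_zero]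
    have h1 : 1 / (K + 2 ^ 0 / (2 * B)) ≤ 1 / K :=
      one_div_le_one_div_of_le hK (le_add_of_nonneg_right (by positivity))
    have h2 : 0 ≤ 1 / K - 1 / (K + 2 ^ 0 / (2 * B)) := by linarith
    positivity
  | succ m ih =>
    rw [sum_range_succ]
    have h1 : (2 : ℝ) ^ m / (K + 2 ^ m / B) ^ 2 ≤
        2 * B * (1 / (K + 2 ^ m / (2 * B)) - 1 / (K + 2 ^ (m + 1) / (2 * B))) := by
      have h2 : (2 : ℝ) ^ (m + 1) / (2 * B) = 2 ^ m / B := by
        rw [pow_succ]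
        field_simp
      rw [h2]
      set x : ℝ := 2 ^ m / B with hx
      have hx0 : 0 < x := by positivity
      have h3 : (2 : ℝ) ^ m / (2 * B) = x / 2 := by
        rw [hx]; field_simp
      have h4 : (2 : ℝ) ^ m = x * B := by
        rw [hx]; field_simp
      rw [h3, h4]
      have h5 : 1 / (K + x / 2) - 1 / (K + x) = (x / 2) / ((K + x / 2) * (K + x)) := by
        have : K + x / 2 ≠ 0 := by positivity
        have : K + x ≠ 0 := by positivity
        field_simp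
        ring
      rw [h5]
      have h6 : (x / 2) / (K + x) ^ 2 ≤ (x / 2) / ((K + x / 2) * (K + x)) := by
        apply div_le_div_of_nonneg_left (by positivity) (by positivity)
        nlinarith
      calc x * B / (K + x) ^ 2 = 2 * B * ((x / 2) / (K + x) ^ 2) := by ring
        _ ≤ _ := mul_le_mul_of_nonneg_left h6 (by positivity)
    linarith

theorem geo (m : ℕ) : ∑ k ∈ range m, (1 : ℝ) / 2 ^ k ≤ 2 - 1 / 2 ^ m * 2 := by
  induction m with
  | zero => norm_num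
  | succ m ih =>
    rw [sum_range_succ]
    have h : (1 : ℝ) / 2 ^ (m + 1) = (1 / 2 ^ m) / 2 := by
      rw [pow_succ]; field_simp
    rw [h]
    linarith

/-- The sum over positive integers. -/
theorem pos_sum {D N : ℤ} (hD : Odd D) (hN : Odd N) {B : ℝ} (hB : 0 < B)
    (hBM : ∀ a : ℤ, 1 ≤ a → |((D * a ^ 2 + 4 * N : ℤ) : ℝ)| ≤ (B * a) ^ 2) (K : ℕ) (hK : 1 ≤ K)
    (S : Finset ℤ) (hS : ∀ a ∈ S, (K : ℤ) < a ∧ D * a ^ 2 + 4 * N ≠ 0) :
    ∑ a ∈ S, (2 : ℝ) ^ (padicValInt 2 (D * a ^ 2 + 4 * N) / 2) / (a : ℝ) ^ 2 ≤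
      (16 * B + 32) / K := by
  classical
  have hKr : (1 : ℝ) ≤ K := by exact_mod_cast hK
  have hK0 : (0 : ℝ) < K := by linarith
  set v : ℤ → ℕ := fun a => padicValInt 2 (D * a ^ 2 + 4 * N) / 2 with hv
  set m : ℕ := S.sup v + 1 with hm
  have h1 : ∀ a ∈ S, (2 : ℝ) ^ v a / (a : ℝ) ^ 2 ≤
      ∑ k ∈ range m, if (4 : ℤ) ^ k ∣ D * a ^ 2 + 4 * N then 2 ^ k / (a : ℝ) ^ 2 else 0 := by
    intro a ha
    have h2 : v a ∈ range m := by
      rw [mem_range, hm]
      exact Nat.lt_succ_of_le (le_sup ha)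
    have h3 : (4 : ℤ) ^ v a ∣ D * a ^ 2 + 4 * N := by
      have h4 : (4 : ℤ) ^ v a = 2 ^ (2 * v a) := by rw [pow_mul]; norm_num
      rw [h4]
      have h5 : 2 * v a ≤ padicValInt 2 (D * a ^ 2 + 4 * N) := Nat.mul_div_le _ 2
      have h6 := @padicValInt_dvd 2 (D * a ^ 2 + 4 * N)
      exact (pow_dvd_pow 2 h5).trans (by exact_mod_cast h6)
    have h4 := single_le_sum (f := fun k =>
      if (4 : ℤ) ^ k ∣ D * a ^ 2 + 4 * N then (2 : ℝ) ^ k / (a : ℝ) ^ 2 else 0) (s := range m)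
      (fun k _ => by split_ifs <;> positivity) h2
    simp only [if_pos h3] at h4
    exact h4
  refine (sum_le_sum h1).trans ?_
  rw [sum_comm]
  have h2 : ∀ k ∈ range m, (∑ a ∈ S, if (4 : ℤ) ^ k ∣ D * a ^ 2 + 4 * N then
      (2 : ℝ) ^ k / (a : ℝ) ^ 2 else 0) ≤
        8 * (2 ^ k / (K + 2 ^ k / B) ^ 2) + (16 / K) * (1 / 2 ^ k) := by
    intro k _
    rw [← sum_filter]
    have e1 : ∑ a ∈ S.filter (fun a => (4 : ℤ) ^ k ∣ D * a ^ 2 + 4 * N), (2 : ℝ) ^ k / (a : ℝ) ^ 2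
        = 2 ^ k * ∑ a ∈ S.filter (fun a => (4 : ℤ) ^ k ∣ D * a ^ 2 + 4 * N), 1 / (a : ℝ) ^ 2 := by
      rw [mul_sum]
      exact sum_congr rfl fun a _ => by ring
    rw [e1]
    set Y : ℝ := (K + 2 ^ k / B) / 2 with hYd
    have hY : 0 < Y := by positivity
    have e2 := level_sum hD hN k (S.filter (fun a => (4 : ℤ) ^ k ∣ D * a ^ 2 + 4 * N)) hY
      (by
        intro a ha
        rw [mem_filter] at ha
        have h3 := hS a ha.1
        have h4 : (K : ℝ) < a := by exact_mod_cast h3.1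
        have h5 : (1 : ℤ) ≤ a := by
          have : (1 : ℤ) ≤ K := by exact_mod_cast hK
          linarith [h3.1]
        have h6 : ((4 : ℝ) ^ k) ≤ |((D * a ^ 2 + 4 * N : ℤ) : ℝ)| := by
          have h7 : (4 : ℤ) ^ k ≤ |D * a ^ 2 + 4 * N| :=
            Int.le_of_dvd (abs_pos.2 h3.2) ((dvd_abs _ _).2 ha.2)
          exact_mod_cast h7
        have h7 : (2 : ℝ) ^ k ≤ B * a := by
          have h8 : ((2 : ℝ) ^ k) ^ 2 ≤ (B * a) ^ 2 := by
            calc ((2 : ℝ) ^ k) ^ 2 = 4 ^ k := by rw [← pow_mul, mul_comm, pow_mul]; norm_num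
              _ ≤ _ := h6.trans (hBM a h5)
          have h9 : (0 : ℝ) ≤ B * a := by
            have : (0 : ℝ) < a := by linarith
            positivity
          exact (pow_le_pow_iff_left₀ (by positivity) h9 (by norm_num)).1 h8
        have h8 : (2 : ℝ) ^ k / B ≤ a := by
          rw [div_le_iff₀ hB]; linarith
        rw [hYd]
        linarith)
      (fun a ha => (mem_filter.1 ha).2)
    have e3 : (2 : ℝ) ^ k * (2 * (1 / Y ^ 2)) = 8 * (2 ^ k / (K + 2 ^ k / B) ^ 2) := by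
      rw [hYd]
      have : (K : ℝ) + 2 ^ k / B ≠ 0 := by positivity
      field_simp
      ring
    have e4 : (2 : ℝ) ^ k * (2 * (1 / ((4 : ℝ) ^ (k - 1) * Y))) ≤ (16 / K) * (1 / 2 ^ k) := by
      have e5 : (4 : ℝ) ^ k / 4 ≤ 4 ^ (k - 1) := by
        rcases k with _ | k
        · norm_num
        · rw [Nat.add_sub_cancel, pow_succ]
          linarith
      have e6 : (K : ℝ) / 2 ≤ Y := by
        rw [hYd]
        have : (0 : ℝ) ≤ 2 ^ k / B := by positivity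
        linarith
      have e7 : (4 : ℝ) ^ k / 4 * (K / 2) ≤ 4 ^ (k - 1) * Y :=
        mul_le_mul e5 e6 (by positivity) (by positivity)
      have e8 : 1 / ((4 : ℝ) ^ (k - 1) * Y) ≤ 1 / ((4 : ℝ) ^ k / 4 * (K / 2)) :=
        one_div_le_one_div_of_le (by positivity) e7
      have e9 : (2 : ℝ) ^ k * (2 * (1 / ((4 : ℝ) ^ k / 4 * (K / 2)))) = (16 / K) * (1 / 2 ^ k) := by
        have : (4 : ℝ) ^ k = 2 ^ k * 2 ^ k := by rw [← mul_pow]; norm_num
        rw [this]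
        field_simp
        norm_num
      rw [← e9]
      gcongr
    calc (2 : ℝ) ^ k * ∑ a ∈ S.filter (fun a => (4 : ℤ) ^ k ∣ D * a ^ 2 + 4 * N), 1 / (a : ℝ) ^ 2
        ≤ 2 ^ k * (2 * (1 / Y ^ 2 + 1 / ((4 : ℝ) ^ (k - 1) * Y))) :=
          mul_le_mul_of_nonneg_left e2 (by positivity)
      _ = (2 : ℝ) ^ k * (2 * (1 / Y ^ 2)) + (2 : ℝ) ^ k * (2 * (1 / ((4 : ℝ) ^ (k - 1) * Y))) := by
          ring
      _ ≤ _ := by rw [e3]; linarith
  refine (sum_le_sum h2).trans ?_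
  rw [sum_add_distrib, ← mul_sum, ← mul_sum]
  have h3 := tele hB hK0 m
  have h4 := geo m
  have h5 : (0 : ℝ) ≤ 1 / (K + 2 ^ m / (2 * B)) := by positivity
  have h6 : (0 : ℝ) ≤ 1 / 2 ^ m * 2 := by positivity
  have h7 : 8 * ∑ k ∈ range m, (2 : ℝ) ^ k / (K + 2 ^ k / B) ^ 2 ≤ 16 * B / K := by
    calc 8 * ∑ k ∈ range m, (2 : ℝ) ^ k / (K + 2 ^ k / B) ^ 2
        ≤ 8 * (2 * B * (1 / K - 1 / (K + 2 ^ m / (2 * B)))) := by linarith
      _ ≤ 8 * (2 * B * (1 / K)) := by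
          gcongr
          linarith
      _ = _ := by ring
  have h8 : 16 / (K : ℝ) * ∑ k ∈ range m, (1 : ℝ) / 2 ^ k ≤ 32 / K := by
    calc 16 / (K : ℝ) * ∑ k ∈ range m, (1 : ℝ) / 2 ^ k ≤ 16 / (K : ℝ) * 2 := by
          gcongr
          linarith
      _ = _ := by ring
  calc _ ≤ 16 * B / K + 32 / (K : ℝ) := add_le_add h7 h8
    _ = _ := by ring

end Pool.Agent.T3.TAILA

namespace Pool.Agent.T3

open Finset TAILA

theorem taila : TAILA_Stmt := by
  classical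
  intro D N hD hN
  set B : ℝ := |(D : ℝ)| + 4 * |(N : ℝ)| + 1 with hBd
  have hB1 : 1 ≤ B := by
    have := abs_nonneg (D : ℝ)
    have := abs_nonneg (N : ℝ)
    rw [hBd]
    linarith
  have hB : 0 < B := by linarith
  have hBM : ∀ a : ℤ, 1 ≤ a → |((D * a ^ 2 + 4 * N : ℤ) : ℝ)| ≤ (B * a) ^ 2 := by
    intro a ha
    have ha' : (1 : ℝ) ≤ a := by exact_mod_cast ha
    have ha2 : (1 : ℝ) ≤ (a : ℝ) ^ 2 := one_le_pow₀ ha'
    push_cast
    calc |(D : ℝ) * (a : ℝ) ^ 2 + 4 * N| ≤ |(D : ℝ) * (a : ℝ) ^ 2| + |4 * (N : ℝ)| :=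
          abs_add_le _ _
      _ = |(D : ℝ)| * (a : ℝ) ^ 2 + 4 * |(N : ℝ)| := by
          rw [abs_mul, abs_mul, abs_of_nonneg (by positivity : (0 : ℝ) ≤ (a : ℝ) ^ 2),
            abs_of_nonneg (by norm_num : (0 : ℝ) ≤ 4)]
      _ ≤ |(D : ℝ)| * (a : ℝ) ^ 2 + 4 * |(N : ℝ)| * (a : ℝ) ^ 2 := by
          have := abs_nonneg (N : ℝ)
          nlinarith
      _ ≤ B * (a : ℝ) ^ 2 := by
          rw [hBd]
          nlinarith
      _ ≤ (B * a) ^ 2 := by
          rw [mul_pow]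
          exact mul_le_mul_of_nonneg_right (by nlinarith) (by positivity)
  refine ⟨2 * (16 * B + 32), ?_⟩
  intro K hK S hS
  set f : ℤ → ℝ := fun a =>
    (2 : ℝ) ^ (padicValInt 2 (D * a ^ 2 + 4 * N) / 2) / (a : ℝ) ^ 2 with hf
  have hfneg : ∀ a, f (-a) = f a := by
    intro a
    simp only [hf]
    rw [neg_sq]
    push_cast
    rw [neg_sq]
  change ∑ a ∈ S, f a ≤ _
  rw [← sum_filter_add_sum_filter_not S (fun a => 0 < a)]
  have h1 : ∑ a ∈ S.filter (fun a => 0 < a), f a ≤ (16 * B + 32) / K := by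
    apply pos_sum hD hN hB hBM K hK
    intro a ha
    rw [mem_filter] at ha
    have := hS a ha.1
    rw [abs_of_pos ha.2] at this
    exact this
  have h2 : ∑ a ∈ S.filter (fun a => ¬ 0 < a), f a ≤ (16 * B + 32) / K := by
    have h3 : ∑ a ∈ S.filter (fun a => ¬ 0 < a), f a =
        ∑ a ∈ (S.filter (fun a => ¬ 0 < a)).image (fun a => -a), f a := by
      rw [sum_image (fun x _ y _ h => neg_injective h)]
      exact sum_congr rfl fun a _ => (hfneg a).symm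
    rw [h3]
    apply pos_sum hD hN hB hBM K hK
    intro a ha
    rw [mem_image] at ha
    obtain ⟨b, hb, rfl⟩ := ha
    rw [mem_filter] at hb
    have h4 := hS b hb.1
    rw [abs_of_nonpos (not_lt.1 hb.2)] at h4
    rw [neg_sq]
    exact h4
  calc _ ≤ (16 * B + 32) / K + (16 * B + 32) / K := add_le_add h1 h2
    _ = _ := by ring

end Pool.Agent.T3
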