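import Pool.Agent.T3.Stmts2

/-!
TELO: the summand of the limit is a coboundary.
-/

open Filter Topology

namespace Pool.Agent.T3

open Pool.Agent.TB Pool.Agent.LibH11

namespace TELO

/-! ### The functions `G_j` -/

/-- `⟨v, u⟩` for a real vector `v` and an integral vector `u`. -/
def dR (v : ℝ × ℝ) (u : ℤ × ℤ) : ℝ := v.1 * u.2 - v.2 * u.1

/-- `(1/4) ⟨v, g⟩ / (⟨v, R⟩ ⟨R, g⟩)` -/
noncomputable def Gj (v : ℝ × ℝ) (g R : ℤ × ℤ) : ℝ :=
  (1 / 4) * (dR v g / (dR v R * (det2 R g : ℝ)))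

lemma plucker (v : ℝ × ℝ) (g g' R : ℤ × ℤ) :
    dR v g * (det2 R g' : ℝ) - dR v g' * (det2 R g : ℝ) = dR v R * (det2 g g' : ℝ) := by
  simp only [dR, det2]
  push_cast
  ring

lemma Gj_sub {v : ℝ × ℝ} {g g' R : ℤ × ℤ} (hv : dR v R ≠ 0) (h : (det2 R g : ℝ) ≠ 0)
    (h' : (det2 R g' : ℝ) ≠ 0) :
    Gj v g R - Gj v g' R = (1 / 4) * ((det2 g g' : ℝ) / ((det2 R g : ℝ) * (det2 R g' : ℝ))) := by
  have hp := plucker v g g' R
  have e1 : dR v g / (dR v R * (det2 R g : ℝ)) - dR v g' / (dR v R * (det2 R g' : ℝ))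
      = (det2 g g' : ℝ) / ((det2 R g : ℝ) * (det2 R g' : ℝ)) := by
    rw [div_sub_div _ _ (mul_ne_zero hv h) (mul_ne_zero hv h'),
      div_eq_div_iff (mul_ne_zero (mul_ne_zero hv h) (mul_ne_zero hv h')) (mul_ne_zero h h')]
    linear_combination (dR v R * (det2 R g : ℝ) * (det2 R g' : ℝ)) * hp
  unfold Gj
  rw [← mul_sub, e1]

/-- `G_j`, or `G_(j+1)` if `R` is parallel to `g_j`. -/
noncomputable def Hj (v : ℝ × ℝ) (x : List ℤ) (R : ℤ × ℤ) (j : ℕ) : ℝ :=
  if det2 R (ch3 x j) = 0 then Gj v (ch3 x (j + 1)) R else Gj v (ch3 x j) R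

lemma eq_zero_of {g g' R : ℤ × ℤ} (hg : det2 g g' ≠ 0) (h : det2 R g = 0) (h' : det2 R g' = 0) :
    R = 0 := by
  have e1 : R.1 * det2 g g' = 0 := by
    have : R.1 * det2 g g' = g.1 * det2 R g' - g'.1 * det2 R g := by
      simp only [det2]
      ring
    rw [this, h, h']
    ring
  have e2 : R.2 * det2 g g' = 0 := by
    have : R.2 * det2 g g' = g.2 * det2 R g' - g'.2 * det2 R g := by
      simp only [det2]
      ring
    rw [this, h, h']
    ring
  exact Prod.ext ((mul_eq_zero.mp e1).resolve_right hg) ((mul_eq_zero.mp e2).resolve_right hg)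

lemma ch3_succ (x : List ℤ) (j : ℕ) :
    ch3 x (j + 2) = ch3 x j + ((-1) ^ j * x.getD j 0) • ch3 x (j + 1) := rfl

/-- One step. -/
lemma step {x : List ℤ} (hdet : ∀ j, det2 (ch3 x j) (ch3 x (j + 1)) = (-1) ^ j)
    {α β γ : ℤ} (hQ : ∀ R : ℤ × ℤ, Qw x R = R.1 ^ 2 * α + R.1 * R.2 * β - R.2 ^ 2 * γ)
    {v : ℝ × ℝ} {R : ℤ × ℤ} (hv : dR v R ≠ 0) (hR : Qw x R ≠ 0) (j : ℕ) :
    Hj v x R j - Hj v x R (j + 1) =
      (1 / 4) * ((-1 : ℝ) ^ j / ((det2 R (ch3 x j) : ℝ) * (det2 R (ch3 x (j + 1)) : ℝ)) +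
        if det2 R (ch3 x (j + 1)) = 0 then
          ((x.getD j 0 : ℤ) : ℝ) * (Qw x (ch3 x (j + 1)) : ℝ) / (Qw x R : ℝ) else 0) := by
  have hR0 : R ≠ 0 := by
    rintro rfl
    apply hR
    rw [hQ]
    simp
  have hd := hdet j
  have hdne : det2 (ch3 x j) (ch3 x (j + 1)) ≠ 0 := by
    rw [hd]
    exact pow_ne_zero _ (by norm_num)
  unfold Hj
  by_cases h0 : det2 R (ch3 x j) = 0
  · have h1 : det2 R (ch3 x (j + 1)) ≠ 0 := fun h => hR0 (eq_zero_of hdne h0 h)
    rw [if_pos h0, if_neg h1, if_neg h1, h0]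
    simp
  · have h0' : (det2 R (ch3 x j) : ℝ) ≠ 0 := by exact_mod_cast h0
    by_cases h1 : det2 R (ch3 x (j + 1)) = 0
    · have e2 : det2 R (ch3 x (j + 2)) = det2 R (ch3 x j) := by
        have : det2 R (ch3 x (j + 2)) = det2 R (ch3 x j)
            + ((-1) ^ j * x.getD j 0) * det2 R (ch3 x (j + 1)) := by
          rw [ch3_succ]
          simp only [det2, Prod.fst_add, Prod.snd_add, Prod.smul_fst, Prod.smul_snd, smul_eq_mul]
          ring
        rw [this, h1, mul_zero, add_zero]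
      have h2' : (det2 R (ch3 x (j + 2)) : ℝ) ≠ 0 := by
        rw [e2]
        exact h0'
      have e3 : det2 (ch3 x j) (ch3 x (j + 2)) = x.getD j 0 := by
        have : det2 (ch3 x j) (ch3 x (j + 2)) = ((-1) ^ j * x.getD j 0)
            * det2 (ch3 x j) (ch3 x (j + 1)) := by
          rw [ch3_succ]
          simp only [det2, Prod.fst_add, Prod.snd_add, Prod.smul_fst, Prod.smul_snd, smul_eq_mul]
          ring
        rw [this, hd]
        have h3 : ((-1 : ℤ) ^ j) * (-1) ^ j = 1 := by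
          rw [← mul_pow]
          norm_num
        linear_combination (x.getD j 0) * h3
      -- `Q(R) = ⟨R, g_j⟩² Q(g_(j+1))`
      have e4 : Qw x R = det2 R (ch3 x j) ^ 2 * Qw x (ch3 x (j + 1)) := by
        have hs : det2 (ch3 x j) (ch3 x (j + 1)) ^ 2 = 1 := by
          rw [hd, ← pow_mul, mul_comm j 2, pow_mul]
          norm_num
        have f1 : R.1 * det2 (ch3 x j) (ch3 x (j + 1))
            = -((ch3 x (j + 1)).1 * det2 R (ch3 x j)) := by
          have : R.1 * det2 (ch3 x j) (ch3 x (j + 1)) = (ch3 x j).1 * det2 R (ch3 x (j + 1))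
              - (ch3 x (j + 1)).1 * det2 R (ch3 x j) := by
            simp only [det2]
            ring
          rw [this, h1]
          ring
        have f2 : R.2 * det2 (ch3 x j) (ch3 x (j + 1))
            = -((ch3 x (j + 1)).2 * det2 R (ch3 x j)) := by
          have : R.2 * det2 (ch3 x j) (ch3 x (j + 1)) = (ch3 x j).2 * det2 R (ch3 x (j + 1))
              - (ch3 x (j + 1)).2 * det2 R (ch3 x j) := by
            simp only [det2]
            ring
          rw [this, h1]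
          ring
        have f3 : Qw x R = Qw x R * det2 (ch3 x j) (ch3 x (j + 1)) ^ 2 := by rw [hs, mul_one]
        rw [f3, hQ R, hQ (ch3 x (j + 1))]
        have f4 : (R.1 ^ 2 * α + R.1 * R.2 * β - R.2 ^ 2 * γ)
              * det2 (ch3 x j) (ch3 x (j + 1)) ^ 2
            = (R.1 * det2 (ch3 x j) (ch3 x (j + 1))) ^ 2 * α
              + (R.1 * det2 (ch3 x j) (ch3 x (j + 1)))
                * (R.2 * det2 (ch3 x j) (ch3 x (j + 1))) * β
              - (R.2 * det2 (ch3 x j) (ch3 x (j + 1))) ^ 2 * γ := by ring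
        rw [f4, f1, f2]
        ring
      have hQg : (Qw x (ch3 x (j + 1)) : ℝ) ≠ 0 := by
        have : Qw x (ch3 x (j + 1)) ≠ 0 := by
          intro h
          apply hR
          rw [e4, h, mul_zero]
        exact_mod_cast this
      rw [if_neg h0, if_pos h1, if_pos h1, h1, Gj_sub hv h0' h2', e3, e2, e4]
      push_cast
      rw [mul_zero, div_zero, zero_add]
      field_simp
    · have h1' : (det2 R (ch3 x (j + 1)) : ℝ) ≠ 0 := by exact_mod_cast h1
      rw [if_neg h0, if_neg h1, if_neg h1, Gj_sub hv h0' h1', hd, add_zero]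
      push_cast
      rfl

/-- The telescoping sum. -/
lemma F3_eq {x : List ℤ} (hdet : ∀ j, det2 (ch3 x j) (ch3 x (j + 1)) = (-1) ^ j)
    {α β γ : ℤ} (hQ : ∀ R : ℤ × ℤ, Qw x R = R.1 ^ 2 * α + R.1 * R.2 * β - R.2 ^ 2 * γ)
    {v : ℝ × ℝ} {R : ℤ × ℤ} (hv : dR v R ≠ 0) (hR : Qw x R ≠ 0) :
    F3 x R = Hj v x R 0 - Hj v x R x.length := by
  rw [← Finset.sum_range_sub' (Hj v x R) x.length]
  rw [Finset.sum_congr rfl (fun j _ => step hdet hQ hv hR j)]
  rw [← Finset.mul_sum, Finset.sum_add_distrib]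
  rfl

/-! ### The action -/

lemma act_mul (M N : Matrix.SpecialLinearGroup (Fin 2) ℤ) (R : ℤ × ℤ) :
    act (M * N) R = act M (act N R) := by
  simp only [act, Matrix.SpecialLinearGroup.coe_mul, Matrix.mul_apply, Fin.sum_univ_two]
  refine Prod.ext ?_ ?_
  · simp only
    ring
  · simp only
    ring

lemma act_one (R : ℤ × ℤ) : act 1 R = R := by
  simp [act]

lemma act_inv_self (M : Matrix.SpecialLinearGroup (Fin 2) ℤ) (R : ℤ × ℤ) :
    act M (act M⁻¹ R) = R := by
  rw [← act_mul, mul_inv_cancel, act_one]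

/-! ### Limits -/

lemma tend {c e d μ : ℝ} (hμ0 : 0 ≤ μ) (hμ : μ < 1) (hc : c ≠ 0) :
    Tendsto (fun k : ℕ => d / (c + e * μ ^ k)) atTop (𝓝 (d / c)) := by
  have h1 : Tendsto (fun k : ℕ => μ ^ k) atTop (𝓝 0) := tendsto_pow_atTop_nhds_zero_of_lt_one hμ0 hμ
  have h2 : Tendsto (fun k : ℕ => c + e * μ ^ k) atTop (𝓝 (c + e * 0)) :=
    tendsto_const_nhds.add (h1.const_mul e)
  rw [mul_zero, add_zero] at h2
  exact tendsto_const_nhds.div h2 hc

end TELO

open TELO in
/-- **(TELO)** The summand of the limit is a coboundary. -/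
theorem telo (h : CHN3_Stmt) : TELO_Stmt := by
  intro x hx ht
  obtain ⟨hdet, hact, htr, hqf, hQ, -, -, -, -, ⟨hg0, hg1⟩, -⟩ := h x hx
  set M := mw false x with hM
  set a : ℤ := M.1 0 0 with ha
  set b : ℤ := M.1 0 1 with hb
  set c : ℤ := M.1 1 0 with hc
  set d : ℤ := M.1 1 1 with hd
  have hdetM : a * d - b * c = 1 := by
    have h1 := M.2
    rw [Matrix.det_fin_two] at h1
    exact h1
  have htad : tw3 x = a + d := by
    rw [← htr, Matrix.trace_fin_two]
  -- `Q` in terms of the entries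
  have hQM : ∀ R : ℤ × ℤ, Qw x R = c * R.1 ^ 2 + (d - a) * R.1 * R.2 - b * R.2 ^ 2 := by
    intro R
    have h1 := hqf ![R.1, R.2]
    have h2 : Qw x R = qf M ![R.1, R.2] := by
      rw [h1]
      rfl
    rw [h2]
    simp only [qf, Matrix.mulVec, dotProduct, Fin.sum_univ_two, Matrix.cons_val_zero,
      Matrix.cons_val_one]
    ring
  have hbc : b * c ≠ 0 := by
    intro h0
    have h1 : a * d = 1 := by linarith
    rcases Int.mul_eq_one_iff_eq_one_or_neg_one.mp h1 with ⟨h2, h3⟩ | ⟨h2, h3⟩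
    · rw [htad, h2, h3] at ht
      norm_num at ht
    · rw [htad, h2, h3] at ht
      norm_num at ht
  have hb0 : b ≠ 0 := fun h0 => hbc (by rw [h0, zero_mul])
  -- eigenvalues
  set t : ℤ := tw3 x with htdef
  set δ : ℝ := dl t with hδ
  have ht4 : (4 : ℝ) < (t : ℝ) ^ 2 := by
    have h1 : (2 : ℤ) < |t| := ht
    have h2 : (2 : ℝ) < |(t : ℝ)| := by exact_mod_cast h1
    have h3 : |(t : ℝ)| ^ 2 = (t : ℝ) ^ 2 := sq_abs _
    nlinarith
  have ht0 : t ≠ 0 := by
    rintro h0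
    rw [h0] at ht
    norm_num at ht
  have hs2 : ((Int.sign t : ℤ) : ℝ) ^ 2 = 1 := by
    have h1 : (Int.sign t) ^ 2 = 1 := by
      rcases lt_or_gt_of_ne ht0 with h2 | h2
      · rw [Int.sign_eq_neg_one_of_neg h2]
        norm_num
      · rw [Int.sign_eq_one_of_pos h2]
        norm_num
    exact_mod_cast h1
  have hδ2 : δ ^ 2 = (t : ℝ) ^ 2 - 4 := by
    rw [hδ, dl, mul_pow, hs2, one_mul, Real.sq_sqrt (by linarith)]
  have hδ0 : δ ≠ 0 := by
    intro h0
    rw [h0] at hδ2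
    nlinarith
  have hδt : 0 < δ * t := by
    have h1 : (Int.sign t : ℝ) * t = |(t : ℝ)| := by
      have h2 : Int.sign t * t = |t| := Int.sign_mul_self_eq_abs t
      exact_mod_cast h2
    have h3 : δ * t = |(t : ℝ)| * Real.sqrt ((t : ℝ) ^ 2 - 4) := by
      rw [hδ, dl, ← h1]
      ring
    rw [h3]
    have h4 : (t : ℝ) ≠ 0 := by exact_mod_cast ht0
    have h5 : 0 < Real.sqrt ((t : ℝ) ^ 2 - 4) := Real.sqrt_pos.mpr (by linarith)
    have h6 : 0 < |(t : ℝ)| := abs_pos.mpr h4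
    positivity
  set L : ℝ := ((t : ℝ) + δ) / 2 with hL
  set L' : ℝ := ((t : ℝ) - δ) / 2 with hL'
  have hLL : L * L' = 1 := by
    rw [hL, hL']
    nlinarith
  have hsum : L + L' = t := by
    rw [hL, hL']
    ring
  have hdif : L - L' = δ := by
    rw [hL, hL']
    ring
  have hL0 : L ≠ 0 := fun h0 => by
    rw [h0, zero_mul] at hLL
    exact zero_ne_one hLL
  have hL0' : L' ≠ 0 := fun h0 => by
    rw [h0, mul_zero] at hLL
    exact zero_ne_one hLL
  have hμ : L' ^ 2 < 1 := by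
    by_contra h1
    have h1' : 1 ≤ L' ^ 2 := not_lt.mp h1
    have h2 : L ^ 2 - L' ^ 2 = δ * t := by
      rw [← hdif, ← hsum]
      ring
    have h3 : 1 < L ^ 2 := by linarith
    have h4 : L ^ 2 * L' ^ 2 = 1 := by
      rw [← mul_pow, hLL, one_pow]
    nlinarith
  have htadR : (t : ℝ) = a + d := by
    rw [htad]
    push_cast
    ring
  have hdetR : (a : ℝ) * d - b * c = 1 := by exact_mod_cast hdetM
  have hbR : (b : ℝ) ≠ 0 := by exact_mod_cast hb0
  have hbcR : (b : ℝ) * c ≠ 0 := by exact_mod_cast hbc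
  -- `(λ - a)(λ' - a) = - b c`
  have hprod : (L - a) * (L' - a) = -(b * c) := by
    have : (L - a) * (L' - a) = L * L' - a * (L + L') + a ^ 2 := by ring
    rw [this, hLL, hsum, htadR]
    linear_combination (-1 : ℝ) * hdetR
  have hLa : L - a ≠ 0 := fun h0 => by
    rw [h0, zero_mul] at hprod
    exact hbcR (by linarith)
  have hLa' : L' - a ≠ 0 := fun h0 => by
    rw [h0, mul_zero] at hprod
    exact hbcR (by linarith)
  -- the eigenvector and its linear form
  set v : ℝ × ℝ := ((b : ℝ), L - a) with hv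
  set v' : ℝ × ℝ := ((b : ℝ), L' - a) with hv'
  have hchar : L ^ 2 - t * L + 1 = 0 := by
    rw [← hsum]
    linear_combination (1 : ℝ) - hLL - 1
  have hchar' : L' ^ 2 - t * L' + 1 = 0 := by
    rw [← hsum]
    linear_combination (1 : ℝ) - hLL - 1
  have hpA : ∀ R : ℤ × ℤ, dR v (act M R) = L' * dR v R := by
    intro R
    simp only [dR, act, hv]
    push_cast
    rw [← ha, ← hb, ← hc, ← hd]
    have h1 : L' = t - L := by linarith
    rw [h1, htadR]
    have h2 : L ^ 2 - (a + d) * L + 1 = 0 := by rw [← htadR]; exact hchar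
    linear_combination (-(R.1 : ℝ)) * hdetR - (R.1 : ℝ) * h2
  have hpA' : ∀ R : ℤ × ℤ, dR v' (act M R) = L * dR v' R := by
    intro R
    simp only [dR, act, hv']
    push_cast
    rw [← ha, ← hb, ← hc, ← hd]
    have h1 : L = t - L' := by linarith
    rw [h1, htadR]
    have h2 : L' ^ 2 - (a + d) * L' + 1 = 0 := by rw [← htadR]; exact hchar'
    linear_combination (-(R.1 : ℝ)) * hdetR - (R.1 : ℝ) * h2
  have hpp : ∀ R : ℤ × ℤ, dR v R * dR v' R = -(b * (Qw x R : ℝ)) := by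
    intro R
    rw [hQM R]
    simp only [dR, hv, hv']
    push_cast
    have h1 : (L - a) + (L' - a) = d - a := by
      rw [htadR] at hsum
      linarith
    linear_combination (R.1 : ℝ) ^ 2 * hprod - (b : ℝ) * R.1 * R.2 * h1
  have hp0 : ∀ R : ℤ × ℤ, Qw x R ≠ 0 → dR v R ≠ 0 := by
    intro R hR h0
    have h1 := hpp R
    rw [h0, zero_mul] at h1
    have h2 : (b : ℝ) * (Qw x R : ℝ) = 0 := by linarith
    rcases mul_eq_zero.mp h2 with h3 | h3
    · exact hbR h3
    · exact hR (by exact_mod_cast h3)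
  have hR2 : ∀ R : ℤ × ℤ, (b : ℝ) * δ * R.2 = (L - a) * dR v' R - (L' - a) * dR v R := by
    intro R
    simp only [dR, hv, hv']
    rw [← hdif]
    ring
  -- invariance of `Q`
  have hdetA : ∀ R R' : ℤ × ℤ, det2 (act M R) (act M R') = det2 R R' := by
    intro R R'
    simp only [det2, act]
    rw [← ha, ← hb, ← hc, ← hd]
    linear_combination (R.1 * R'.2 - R.2 * R'.1) * hdetM
  have hGA : ∀ g R : ℤ × ℤ, Gj v (act M g) (act M R) = Gj v g R := by
    intro g R
    unfold Gj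
    rw [hpA, hpA, hdetA, mul_assoc, mul_div_mul_left _ _ hL0']
  -- the function
  refine ⟨fun R => Hj v x R 0, fun R hR => ⟨?_, ?_, ?_⟩⟩
  · rw [F3_eq hdet hQ (hp0 R hR) hR]
    congr 1
    set R' := act M⁻¹ R with hR'
    have hRR : R = act M R' := (act_inv_self M R).symm
    have e0 : ch3 x x.length = act M (ch3 x 0) := by rw [hact, hg0]
    have e1 : ch3 x (x.length + 1) = act M (ch3 x 1) := by rw [hact, hg1]
    unfold Hj
    rw [e0, e1, hRR, hdetA, hGA, hGA]
  · -- forward limit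
    have hpk : ∀ k : ℕ, dR v (act (M ^ k) R) = L' ^ k * dR v R ∧
        dR v' (act (M ^ k) R) = L ^ k * dR v' R := by
      intro k
      induction k with
      | zero => simp [act_one]
      | succ k ih =>
        rw [pow_succ', act_mul, hpA, hpA', ih.1, ih.2]
        constructor
        · ring
        · ring
    have hLLk : ∀ k : ℕ, L ^ k * L' ^ k = 1 := fun k => by rw [← mul_pow, hLL, one_pow]
    set Qr : ℝ := (Qw x R : ℝ) with hQr
    have hQr0 : Qr ≠ 0 := by
      rw [hQr]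
      exact_mod_cast hR
    have hy : ∀ k : ℕ, (b : ℝ) * δ * (act (M ^ k) R).2 * dR v (act (M ^ k) R)
        = -((L - a) * (b * Qr)) + (-((L' - a) * dR v R ^ 2)) * (L' ^ 2) ^ k := by
      intro k
      rw [hR2, (hpk k).1, (hpk k).2]
      have h1 := hpp R
      have h2 := hLLk k
      rw [← hQr] at h1
      have h3 : (L' ^ 2) ^ k = L' ^ k * L' ^ k := by rw [← pow_mul, mul_comm 2 k, pow_mul, sq]
      rw [h3]
      linear_combination ((L - a) * (dR v R * dR v' R)) * h2 + (L - a) * h1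
    have hC : -((L - a) * (b * Qr)) ≠ 0 := neg_ne_zero.mpr (mul_ne_zero hLa (mul_ne_zero hbR hQr0))
    have hT := tend (d := (1 / 4) * ((L - a) * (b * δ))) (e := -((L' - a) * dR v R ^ 2))
      (sq_nonneg L') hμ hC
    have hval : (1 / 4) * ((L - a) * (b * δ)) / -((L - a) * (b * Qr)) = -(δ / (4 * Qr)) := by
      field_simp
    rw [hval] at hT
    refine hT.congr' ?_
    have hne : ∀ᶠ k : ℕ in atTop, -((L - a) * (b * Qr))
        + (-((L' - a) * dR v R ^ 2)) * (L' ^ 2) ^ k ≠ 0 := by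
      have h1 : Tendsto (fun k : ℕ => (L' ^ 2) ^ k) atTop (𝓝 0) :=
        tendsto_pow_atTop_nhds_zero_of_lt_one (sq_nonneg L') hμ
      have h2 : Tendsto (fun k : ℕ => -((L - a) * (b * Qr))
          + (-((L' - a) * dR v R ^ 2)) * (L' ^ 2) ^ k) atTop
          (𝓝 (-((L - a) * (b * Qr)) + (-((L' - a) * dR v R ^ 2)) * 0)) :=
        tendsto_const_nhds.add (h1.const_mul _)
      rw [mul_zero, add_zero] at h2
      exact h2.eventually_ne hC
    filter_upwards [hne] with k hk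
    rw [← hy k] at hk ⊢
    have h2 : ((act (M ^ k) R).2 : ℝ) ≠ 0 := by
      intro h0
      apply hk
      rw [h0]
      ring
    have h3 : dR v (act (M ^ k) R) ≠ 0 := by
      intro h0
      apply hk
      rw [h0]
      ring
    have h4 : det2 (act (M ^ k) R) (ch3 x 0) = -(act (M ^ k) R).2 := by
      simp [det2, ch3]
    have h5 : det2 (act (M ^ k) R) (ch3 x 0) ≠ 0 := by
      rw [h4]
      intro h0
      apply h2
      have h6 : (act (M ^ k) R).2 = 0 := by linarith
      exact_mod_cast h6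
    unfold Hj
    rw [if_neg h5]
    unfold Gj
    rw [h4]
    have h6 : dR v (ch3 x 0) = -(L - a) := by
      simp [dR, ch3, hv]
    rw [h6]
    push_cast
    field_simp
  · -- backward limit
    have hpi : ∀ R : ℤ × ℤ, dR v (act M⁻¹ R) = L * dR v R ∧
        dR v' (act M⁻¹ R) = L' * dR v' R := by
      intro R
      have h1 := hpA (act M⁻¹ R)
      have h2 := hpA' (act M⁻¹ R)
      rw [act_inv_self] at h1 h2
      rw [h1, h2]
      constructor
      · linear_combination (-(dR v (act M⁻¹ R))) * hLL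
      · linear_combination (-(dR v' (act M⁻¹ R))) * hLL
    have hpk : ∀ k : ℕ, dR v (act (M⁻¹ ^ k) R) = L ^ k * dR v R ∧
        dR v' (act (M⁻¹ ^ k) R) = L' ^ k * dR v' R := by
      intro k
      induction k with
      | zero => simp [act_one]
      | succ k ih =>
        rw [pow_succ', act_mul, (hpi _).1, (hpi _).2, ih.1, ih.2]
        constructor
        · ring
        · ring
    have hLLk : ∀ k : ℕ, L ^ k * L' ^ k = 1 := fun k => by rw [← mul_pow, hLL, one_pow]
    set Qr : ℝ := (Qw x R : ℝ) with hQr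
    have hy : ∀ k : ℕ, ((b : ℝ) * δ * (act (M⁻¹ ^ k) R).2 * dR v (act (M⁻¹ ^ k) R))
          * (L' ^ 2) ^ k
        = -((L' - a) * dR v R ^ 2) + (-((L - a) * (b * Qr))) * (L' ^ 2) ^ k := by
      intro k
      rw [hR2, (hpk k).1, (hpk k).2]
      have h1 := hpp R
      have h2 := hLLk k
      rw [← hQr] at h1
      have h3 : (L' ^ 2) ^ k = L' ^ k * L' ^ k := by rw [← pow_mul, mul_comm 2 k, pow_mul, sq]
      rw [h3]
      linear_combination ((L - a) * (dR v R * dR v' R) * L' ^ k * L' ^ k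
          - (L' - a) * dR v R ^ 2 * (L ^ k * L' ^ k + 1)) * h2
        + (L - a) * (L' ^ k * L' ^ k) * h1
    have hC : -((L' - a) * dR v R ^ 2) ≠ 0 :=
      neg_ne_zero.mpr (mul_ne_zero hLa' (pow_ne_zero 2 (hp0 R hR)))
    have h1 : Tendsto (fun k : ℕ => (L' ^ 2) ^ k) atTop (𝓝 0) :=
      tendsto_pow_atTop_nhds_zero_of_lt_one (sq_nonneg L') hμ
    have h2 : Tendsto (fun k : ℕ => -((L' - a) * dR v R ^ 2)
        + (-((L - a) * (b * Qr))) * (L' ^ 2) ^ k) atTop
        (𝓝 (-((L' - a) * dR v R ^ 2) + (-((L - a) * (b * Qr))) * 0)) :=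
      tendsto_const_nhds.add (h1.const_mul _)
    rw [mul_zero, add_zero] at h2
    have hT : Tendsto (fun k : ℕ => (1 / 4) * ((L - a) * (b * δ)) * (L' ^ 2) ^ k /
        (-((L' - a) * dR v R ^ 2) + (-((L - a) * (b * Qr))) * (L' ^ 2) ^ k)) atTop
        (𝓝 ((1 / 4) * ((L - a) * (b * δ)) * 0 / -((L' - a) * dR v R ^ 2))) :=
      (h1.const_mul _).div h2 hC
    rw [mul_zero, zero_div] at hT
    refine hT.congr' ?_
    filter_upwards [h2.eventually_ne hC] with k hk
    rw [← hy k] at hk ⊢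
    have h2 : ((act (M⁻¹ ^ k) R).2 : ℝ) ≠ 0 := by
      intro h0
      apply hk
      rw [h0]
      ring
    have h3 : dR v (act (M⁻¹ ^ k) R) ≠ 0 := by
      intro h0
      apply hk
      rw [h0]
      ring
    have h4 : det2 (act (M⁻¹ ^ k) R) (ch3 x 0) = -(act (M⁻¹ ^ k) R).2 := by
      simp [det2, ch3]
    have h5 : det2 (act (M⁻¹ ^ k) R) (ch3 x 0) ≠ 0 := by
      rw [h4]
      intro h0
      apply h2
      have h6 : (act (M⁻¹ ^ k) R).2 = 0 := by linarith
      exact_mod_cast h6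
    unfold Hj
    rw [if_neg h5]
    unfold Gj
    rw [h4]
    have h6 : dR v (ch3 x 0) = -(L - a) := by
      simp [dR, ch3, hv]
    rw [h6]
    push_cast
    have h7 : (L' ^ 2) ^ k ≠ 0 := pow_ne_zero _ (pow_ne_zero _ hL0')
    field_simp

end Pool.Agent.T3
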