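import Pool.Agent.T3.Stmts2

/-!
TRD: traces over the dual numbers.
-/

open scoped BigOperators

namespace Pool.Agent.T3

open Pool.Agent.TB

theorem trd : TRD_Stmt := by
  intro n _ T0 T1
  rw [LinearMap.trace_eq_matrix_trace (DualNumber ℂ) (Pi.basisFun (DualNumber ℂ) (ZMod (2 * n))),
    LinearMap.trace_eq_matrix_trace ℂ (Pi.basisFun ℂ (ZMod (2 * n))),
    LinearMap.trace_eq_matrix_trace ℂ (Pi.basisFun ℂ (ZMod (2 * n)))]
  simp only [Matrix.trace, Matrix.diag_apply, LinearMap.toMatrix_apply, Pi.basisFun_apply,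
    Pi.basisFun_repr]
  have h0 : ∀ k : ZMod (2 * n), (fun v : ZMod (2 * n) =>
      ((Pi.single k (1 : DualNumber ℂ) : ZMod (2 * n) → DualNumber ℂ) v).fst) =
      (Pi.single k (1 : ℂ) : ZMod (2 * n) → ℂ) := by
    intro k
    funext v
    by_cases hv : v = k
    · subst hv; simp
    · simp [Pi.single_eq_of_ne hv]
  have h1 : ∀ k : ZMod (2 * n), (fun v : ZMod (2 * n) =>
      ((Pi.single k (1 : DualNumber ℂ) : ZMod (2 * n) → DualNumber ℂ) v).snd) = 0 := by
    intro k
    funext v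
    by_cases hv : v = k
    · subst hv; simp
    · simp [Pi.single_eq_of_ne hv]
  have h2 : ∀ k : ZMod (2 * n), lift2 n T0 T1
      (Pi.single k (1 : DualNumber ℂ) : ZMod (2 * n) → DualNumber ℂ) k =
      TrivSqZeroExt.inl (T0 (Pi.single k (1 : ℂ)) k) +
        TrivSqZeroExt.inr (T1 (Pi.single k (1 : ℂ)) k) := by
    intro k
    show TrivSqZeroExt.inl (T0 (fun v => _) k) + TrivSqZeroExt.inr (T0 (fun v => _) k +
      T1 (fun v => _) k) = _
    rw [h0, h1, map_zero]
    simp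
  simp only [h2, Finset.sum_add_distrib]
  congr 1
  · exact (map_sum (TrivSqZeroExt.inlHom ℂ ℂ) _ _).symm
  · exact (map_sum (TrivSqZeroExt.inrHom ℂ ℂ) _ _).symm

end Pool.Agent.T3
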