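import Pool.Agent.T3.Stmts

/-!
# Module TRF: trace functionals are combinations of the traces on the modules `W_j`
-/

open Polynomial
open scoped BigOperators Real

namespace Pool.Agent.T3

open Pool.Agent.TB Pool.Agent.LibH11

namespace TRF

section Gen

variable {F : Type} [Field F] {E : Type} [Ring E] [Algebra F E]

theorem aeval_mem {S : Subalgebra F E} {x : E} (hx : x ∈ S) (P : F[X]) : aeval x P ∈ S :=
  (Algebra.adjoin_le (Set.singleton_subset_iff.mpr hx))
    (Polynomial.aeval_mem_adjoin_singleton F (p := P) x)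

theorem evf_mem (I1 I2 : E) (w : FreeAlgebra F Bool) :
    evf F I1 I2 w ∈ Algebra.adjoin F {I1, I2} := by
  unfold evf
  induction w using FreeAlgebra.induction with
  | grade0 a => rw [AlgHom.commutes]; exact Subalgebra.algebraMap_mem _ _
  | grade1 b =>
    rw [FreeAlgebra.lift_ι_apply]
    cases b
    · exact Algebra.subset_adjoin (by simp)
    · exact Algebra.subset_adjoin (by simp)
  | mul a b ha hb => rw [map_mul]; exact mul_mem ha hb
  | add a b ha hb => rw [map_add]; exact add_mem ha hb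

theorem comm_all {I1 I2 z : E} (h1 : z * I1 = I1 * z) (h2 : z * I2 = I2 * z) {x : E}
    (hx : x ∈ Algebra.adjoin F {I1, I2}) : z * x = x * z := by
  have h3 : Algebra.adjoin F {I1, I2} ≤ Subalgebra.centralizer F {z} := by
    apply Algebra.adjoin_le
    rintro y (rfl | rfl)
    · exact (Subalgebra.mem_centralizer_iff F).mpr (by rintro _ rfl; exact h1)
    · exact (Subalgebra.mem_centralizer_iff F).mpr (by rintro _ rfl; exact h2)
  exact (Subalgebra.mem_centralizer_iff F).mp (h3 hx) z rfl

theorem comm_aeval {z x : E} (h : z * x = x * z) (P : F[X]) : aeval z P * x = x * aeval z P := by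
  have h1 : z ∈ Subalgebra.centralizer F {x} :=
    (Subalgebra.mem_centralizer_iff F).mpr (by rintro _ rfl; exact h.symm)
  exact ((Subalgebra.mem_centralizer_iff F).mp (aeval_mem h1 P) x rfl).symm

theorem prod_dvd {c : ℕ → F} (hc : Function.Injective c) (S : Finset ℕ) {P : F[X]}
    (hP : ∀ i ∈ S, P.eval (c i) = 0) : ∏ i ∈ S, (X - C (c i)) ∣ P := by
  apply Finset.prod_dvd_of_coprime
  · intro i _ j _ hij
    apply Polynomial.isCoprime_X_sub_C_of_isUnit_sub
    exact IsUnit.mk0 _ (sub_ne_zero.mpr fun h => hij (hc h))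
  · intro i hi
    exact Polynomial.dvd_iff_isRoot.mpr (hP i hi)

end Gen

section Main

variable {F : Type} [Field F] (Q : QP F) {E : Type} [Ring E] [Algebra F E]

/-- The Lagrange polynomial. -/
noncomputable def P (r j : ℕ) : F[X] :=
  Lagrange.basis (Finset.range (r + 1)) (fun i : ℕ => cj Q (i : ℤ)) j

theorem em_mem (r : ℕ) {I2 : E} {S : Subalgebra F E} (hS : I2 ∈ S) (m : ℤ) :
    em Q r I2 m ∈ S := by
  unfold em
  split_ifs
  · exact aeval_mem hS _
  · exact zero_mem _

theorem cas_mem (r : ℕ) {I1 I2 : E} {S : Subalgebra F E} (h1 : I1 ∈ S) (h2 : I2 ∈ S) :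
    cas Q r I1 I2 ∈ S := by
  unfold cas Xp
  apply sum_mem
  intro m _
  have hm := em_mem Q r h2
  exact sub_mem (S.smul_mem (hm m) _) (S.smul_mem
    (mul_mem (mul_mem (mul_mem (mul_mem (hm _) h1) (hm _)) h1) (hm _)) _)

end Main

end TRF

open TRF in
theorem trf (h1 : GENF_Stmt) (h2 : ADJ_Stmt) (h3 : CAS_Stmt) (h4 : CVAL_Stmt) (h5 : PATH_Stmt)
    (h6 : CASW_Stmt) (h7 : WREL_Stmt) : TRF_Stmt := by
  intro F _ _ Q hQ r E _ _ I1 I2 hR τ hτ
  obtain ⟨-, hgen, -, hq1, hcj, hcjs⟩ := h1 F Q hQ
  obtain ⟨hid, hort, hsum, -, -, -⟩ := h2 F Q hQ r E I1 I2 hR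
  obtain ⟨hc1, hc2, hXp, hXn⟩ := h3 F Q hQ r E I1 I2 hR
  have hcv := h4 F Q hQ r E I1 I2 hR
  obtain ⟨p, hp⟩ := h5 F Q hQ
  set c : ℕ → F := fun i => cj Q (i : ℤ) with hc
  have hcinj : Function.Injective c := fun i j h => by
    by_contra hij
    exact hcj i j hij h
  set K := cas Q r I1 I2 with hK
  set e : ℤ → E := em Q r I2 with he
  set S := Algebra.adjoin F {I1, I2} with hS
  have hI1 : I1 ∈ S := Algebra.subset_adjoin (by simp)
  have hI2 : I2 ∈ S := Algebra.subset_adjoin (by simp)
  have heS : ∀ m, e m ∈ S := em_mem Q r hI2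
  have hKS : K ∈ S := cas_mem Q r hI1 hI2
  have hcomm : ∀ (g : F[X]) (x : E), x ∈ S → aeval K g * x = x * aeval K g := fun g x hx =>
    comm_aeval (comm_all hc1 hc2 hx) g
  -- the polynomial of the Casimir element
  have hkill : aeval K (∏ j ∈ Finset.Icc 0 r, (X - C (c j))) = 0 := by
    have h8 : aeval K (∏ j ∈ Finset.Icc 0 r, (X - C (c j))) *
        ∑ m ∈ Finset.Icc (-(r : ℤ)) r, e m = 0 := by
      rw [Finset.mul_sum]
      exact Finset.sum_eq_zero fun m _ => hcv 0 m (by simp)
    rwa [hsum, mul_one] at h8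
  have hPe : ∀ i ∈ Finset.range (r + 1), ∀ j ∈ Finset.range (r + 1),
      (P Q r j).eval (c i) = if i = j then 1 else 0 := by
    intro i hi j hj
    by_cases hij : i = j
    · subst hij
      rw [if_pos rfl]
      exact Lagrange.eval_basis_self (hcinj.injOn) hi
    · rw [if_neg hij]
      exact Lagrange.eval_basis_of_ne (fun h => hij h.symm) hi
  have hb : ∀ j ∈ Finset.range (r + 1), ∀ g : F[X],
      aeval K g * aeval K (P Q r j) = g.eval (c j) • aeval K (P Q r j) := by
    intro j hj g
    have h8 : ∏ i ∈ Finset.Icc 0 r, (X - C (c i)) ∣ (g - C (g.eval (c j))) * P Q r j := by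
      apply prod_dvd hcinj
      intro i hi
      have hi' : i ∈ Finset.range (r + 1) := by
        rw [Finset.mem_range]
        have := (Finset.mem_Icc.mp hi).2
        omega
      rw [eval_mul, hPe i hi' j hj]
      split_ifs with hij
      · rw [hij, eval_sub, eval_C, sub_self, zero_mul]
      · rw [mul_zero]
    obtain ⟨d, hd⟩ := h8
    have h9 := congrArg (aeval K) hd
    rw [map_mul, map_mul, hkill, zero_mul, map_sub, aeval_C, sub_mul, sub_eq_zero] at h9
    rw [h9, Algebra.smul_def]
  have hcz : ∀ j ∈ Finset.range (r + 1), ∀ m : ℤ, (j : ℤ) < |m| →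
      aeval K (P Q r j) * e m = 0 := by
    intro j hj m hm
    have h8 : ∏ i ∈ Finset.Icc (j + 1) r, (X - C (c i)) ∣ P Q r j := by
      apply prod_dvd hcinj
      intro i hi
      have hi1 := Finset.mem_Icc.mp hi
      rw [hPe i (Finset.mem_range.mpr (by omega)) j hj, if_neg (by omega)]
    obtain ⟨d, hd⟩ := h8
    rw [hd, mul_comm, map_mul, mul_assoc, hcv (j + 1) m (by push_cast; omega), mul_zero]
  have hsumP : ∑ j ∈ Finset.range (r + 1), aeval K (P Q r j) = 1 := by
    rw [← map_sum]
    unfold P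
    rw [Lagrange.sum_basis (hcinj.injOn) ⟨0, by simp⟩, map_one]
  -- the values on the idempotents
  have hstep : ∀ j ∈ Finset.range (r + 1), ∀ m : ℤ, -(j : ℤ) ≤ m → m < j →
      τ (aeval K (P Q r j) * e m) = τ (aeval K (P Q r j) * e (m + 1)) := by
    intro j hj m hm1 hm2
    set pj := aeval K (P Q r j) with hpj
    have hpjS : pj ∈ S := aeval_mem hKS _
    have hne : cj Q m ≠ cj Q (j : ℤ) := by
      rcases le_or_gt 0 m with h0 | h0
      · obtain ⟨n, rfl⟩ := Int.eq_ofNat_of_zero_le h0
        exact hcj n j (by omega)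
      · rw [hcjs m]
        obtain ⟨n, hn⟩ := Int.eq_ofNat_of_zero_le (by omega : 0 ≤ -m - 1)
        rw [hn]
        exact hcj n j (by omega)
    have hKp : pj * K = c j • pj := by
      have h8 := hb j hj X
      rw [aeval_X, eval_X] at h8
      rw [← h8]
      have h9 := hcomm (P Q r j) K hKS
      exact h9
    have hA : ∀ (a : F) (m : ℤ), pj * ((a • (1 : E) - K) * e m) = (a - c j) • (pj * e m) := by
      intro a m
      rw [← mul_assoc, mul_sub, hKp, mul_smul_comm, mul_one, ← sub_smul, smul_mul_assoc]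
    have hXS : I1 * e (m + 1) * I1 ∈ S := mul_mem (mul_mem hI1 (heS _)) hI1
    have hcyc : τ (pj * Xp Q r I1 I2 m) = τ (pj * Xn Q r I1 I2 (m + 1)) := by
      have e1 : pj * Xp Q r I1 I2 m = (pj * e m * I1 * e (m + 1)) * (e (m + 1) * I1 * e m) := by
        unfold Xp
        have h8 := hid (m + 1)
        calc pj * (e m * I1 * e (m + 1) * I1 * e m) =
            pj * e m * I1 * e (m + 1) * I1 * e m := by simp only [mul_assoc]
          _ = pj * e m * I1 * (e (m + 1) * e (m + 1)) * I1 * e m := by rw [h8]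
          _ = _ := by simp only [mul_assoc]
      have e2 : (e (m + 1) * I1 * e m) * (pj * e m * I1 * e (m + 1)) =
          pj * Xn Q r I1 I2 (m + 1) := by
        unfold Xn
        have h8 := hid m
        have h9 : m + 1 - 1 = m := by ring
        have h10 : pj * (e (m + 1) * I1 * e m) = (e (m + 1) * I1 * e m) * pj :=
          hcomm _ _ (mul_mem (mul_mem (heS _) hI1) (heS _))
        rw [h9]
        calc (e (m + 1) * I1 * e m) * (pj * e m * I1 * e (m + 1)) =
            ((e (m + 1) * I1 * e m) * pj) * (e m * I1 * e (m + 1)) := by simp only [mul_assoc]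
          _ = (pj * (e (m + 1) * I1 * e m)) * (e m * I1 * e (m + 1)) := by rw [h10]
          _ = pj * (e (m + 1) * I1 * (e m * e m) * I1 * e (m + 1)) := by simp only [mul_assoc]
          _ = _ := by rw [h8]
      rw [e1, hτ _ (mul_mem (mul_mem (mul_mem hpjS (heS _)) hI1) (heS _)) _
        (mul_mem (mul_mem (heS _) hI1) (heS _)), e2]
    have hk1 := congrArg (fun x => τ (pj * x)) (hXp m)
    have hk2 := congrArg (fun x => τ (pj * x)) (hXn (m + 1))
    have h9 : m + 1 - 1 = m := by ring
    rw [hA, mul_smul_comm, map_smul, map_smul, smul_eq_mul, smul_eq_mul] at hk1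
    rw [h9, hA, mul_smul_comm, map_smul, map_smul, smul_eq_mul, smul_eq_mul] at hk2
    have h10 : (cj Q m - c j) * τ (pj * e m) = (cj Q m - c j) * τ (pj * e (m + 1)) := by
      rw [← hk1, ← hk2, hcyc]
      ring
    exact mul_left_cancel₀ (sub_ne_zero.mpr hne) h10
  have hval : ∀ j ∈ Finset.range (r + 1), ∀ (k : ℕ), k ≤ 2 * j →
      τ (aeval K (P Q r j) * e (j - k)) = τ (aeval K (P Q r j) * e j) := by
    intro j hj k
    induction k with
    | zero => intro _; simp
    | succ k ih =>
      intro hk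
      rw [← ih (by omega)]
      have h8 := hstep j hj ((j : ℤ) - (k + 1 : ℕ)) (by push_cast; omega) (by push_cast; omega)
      rw [h8]
      congr 3
      push_cast
      ring
  have hval' : ∀ j ∈ Finset.range (r + 1), ∀ m ∈ Finset.Icc (-(j : ℤ)) j,
      τ (aeval K (P Q r j) * e m) = τ (aeval K (P Q r j) * e j) := by
    intro j hj m hm
    rw [Finset.mem_Icc] at hm
    obtain ⟨k, hk⟩ := Int.eq_ofNat_of_zero_le (by omega : 0 ≤ (j : ℤ) - m)
    have h8 := hval j hj k (by omega)
    have h9 : (j : ℤ) - k = m := by omega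
    rwa [h9] at h8
  -- the traces on the modules
  have hW : ∀ (j : ℕ) (w : FreeAlgebra F Bool), (evf F (Iw1 Q j) (Iw2 Q j) w).trace =
      ∑ m ∈ Finset.Icc (-(j : ℤ)) j, (p w m).eval (c j) := by
    intro j w
    obtain ⟨hr1, hr2, hr3, -⟩ := h7 F Q j (hgen j).1
    obtain ⟨hcas, hem⟩ := h6 F Q hQ j
    have hRj : Rels Q j (Iw1 Q j) (Iw2 Q j) := ⟨hr1, hr2, hr3⟩
    have h8 : ∀ m : Nd j, evf F (Iw1 Q j) (Iw2 Q j) w m m = (p w m).eval (c j) := by
      intro m
      have h9 := hp j (Matrix (Nd j) (Nd j) F) (Iw1 Q j) (Iw2 Q j) hRj w m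
      rw [hcas, hem m] at h9
      have h10 : aeval (cj Q (j : ℤ) • (1 : Matrix (Nd j) (Nd j) F)) (p w m) =
          (p w m).eval (c j) • (1 : Matrix (Nd j) (Nd j) F) := by
        have h11 : cj Q (j : ℤ) • (1 : Matrix (Nd j) (Nd j) F) =
            algebraMap F (Matrix (Nd j) (Nd j) F) (c j) := by
          rw [Algebra.algebraMap_eq_smul_one]
        rw [h11, Polynomial.aeval_algebraMap_apply, Polynomial.aeval_def, Algebra.algebraMap_self,
          Polynomial.eval₂_id, Algebra.algebraMap_eq_smul_one]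
      rw [h10] at h9
      have h11 := congrFun (congrFun h9 m) m
      simpa [Matrix.mul_apply, Matrix.single_apply] using h11
    unfold Matrix.trace
    simp only [Matrix.diag_apply]
    rw [Finset.sum_congr rfl fun m _ => h8 m]
    exact Finset.sum_coe_sort (Finset.Icc (-(j : ℤ)) j) (fun m => (p w m).eval (c j))
  refine ⟨fun j => τ (aeval K (P Q r j) * e j), ?_, ?_⟩
  · -- the top coefficient
    change τ (aeval K (P Q r r) * e r) = τ (e r)
    congr 1
    have h8 : ∑ j ∈ Finset.range (r + 1), aeval K (P Q r j) * e r = e r := by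
      rw [← Finset.sum_mul, hsumP, one_mul]
    rw [Finset.sum_range_succ, Finset.sum_eq_zero, zero_add] at h8
    · exact h8
    · intro j hj
      rw [Finset.mem_range] at hj
      apply hcz j (Finset.mem_range.mpr (by omega))
      rw [Nat.abs_cast]
      exact_mod_cast hj
  · intro w
    have hwS := evf_mem I1 I2 w
    have h8 : τ (evf F I1 I2 w) = ∑ m ∈ Finset.Icc (-(r : ℤ)) r,
        τ (aeval K (p w m) * e m) := by
      calc τ (evf F I1 I2 w) = τ (evf F I1 I2 w * ∑ m ∈ Finset.Icc (-(r : ℤ)) r, e m) := by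
            rw [hsum, mul_one]
        _ = ∑ m ∈ Finset.Icc (-(r : ℤ)) r, τ (evf F I1 I2 w * e m) := by
            rw [Finset.mul_sum, map_sum]
        _ = _ := by
            refine Finset.sum_congr rfl fun m _ => ?_
            rw [← hp r E I1 I2 hR w m]
            change τ (evf F I1 I2 w * e m) = τ (e m * evf F I1 I2 w * e m)
            rw [mul_assoc (e m), hτ _ (heS m) _ (mul_mem hwS (heS m)), mul_assoc, hid m]
    rw [h8]
    have h9 : ∀ m : ℤ, τ (aeval K (p w m) * e m) = ∑ j ∈ Finset.range (r + 1),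
        (p w m).eval (c j) * τ (aeval K (P Q r j) * e m) := by
      intro m
      calc τ (aeval K (p w m) * e m) =
          τ (∑ j ∈ Finset.range (r + 1), aeval K (p w m) * aeval K (P Q r j) * e m) := by
            rw [← Finset.sum_mul, ← Finset.mul_sum, hsumP, mul_one]
        _ = _ := by
            rw [map_sum]
            refine Finset.sum_congr rfl fun j hj => ?_
            rw [hb j hj, smul_mul_assoc, map_smul, smul_eq_mul]
    rw [Finset.sum_congr rfl fun m _ => h9 m, Finset.sum_comm]
    refine Finset.sum_congr rfl fun j hj => ?_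
    have hjr : j ≤ r := by
      have := Finset.mem_range.mp hj
      omega
    rw [hW j w, Finset.mul_sum]
    have hsub : Finset.Icc (-(j : ℤ)) j ⊆ Finset.Icc (-(r : ℤ)) r := by
      apply Finset.Icc_subset_Icc <;> omega
    rw [← Finset.sum_subset hsub]
    · refine Finset.sum_congr rfl fun m hm => ?_
      rw [hval' j hj m hm, mul_comm]
    · intro m _ hm
      rw [Finset.mem_Icc, not_and_or] at hm
      rw [hcz j hj m (lt_abs.mpr (by omega)), map_zero, mul_zero]

end Pool.Agent.T3
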