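import Pool.Agent.T3.Stmts2
import Pool.Agent.TB.Emb
import Pool.Agent.TB.Rel
import Pool.Agent.TB.Spec
import Pool.Agent.TB.Fc
import Pool.Agent.TB.Brk

/-!
Finite type invariants of closed 3-braids (MP_31fd3b_gt), module TRL: the weighted trace of words on
all labels, in terms of the traces on the modules `W_j`.
-/

open Polynomial
open scoped BigOperators

namespace Pool.Agent.T3

open Pool.Agent.TB

namespace TRL

section Comm

variable {F : Type} [Field F] (Q : QP F) (r : ℕ)

/-- The diagonal matrix of the weights. -/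
def Dg : Matrix (Lb r × Lb r × Lb r) (Lb r × Lb r × Lb r) F := Matrix.diagonal (K3 Q r)

theorem comm12 (h3 : KCOM_Stmt) : emb12 (Im Q r) * Dg Q r = Dg Q r * emb12 (Im Q r) := by
  ext ⟨x1, x2, x3⟩ ⟨a1, a2, a3⟩
  rw [Dg, Matrix.mul_diagonal, Matrix.diagonal_mul]
  obtain ⟨k1, -, k3⟩ := h3 F Q r x1 x2 a1 a2
  simp only [emb12]
  by_cases h : x3 = a3
  · subst h
    rw [if_pos rfl]
    by_cases h0 : Im Q r (x1, x2) (a1, a2) = 0
    · rw [h0, zero_mul, mul_zero]
    · obtain ⟨p1, p2⟩ := k3 h0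
      simp only [K3]
      rw [p1, p2]
      have hx : (xor (!a1.par) (xor (!a2.par) x3.par)) = xor a1.par (xor a2.par x3.par) := by
        cases a1.par <;> cases a2.par <;> cases x3.par <;> rfl
      rw [hx]
      split_ifs with hpar
      · linear_combination (Kw Q r x3) * k1
      · rw [mul_zero, zero_mul]
  · rw [if_neg h, zero_mul, mul_zero]

theorem comm23 (h3 : KCOM_Stmt) : emb23 (Im Q r) * Dg Q r = Dg Q r * emb23 (Im Q r) := by
  ext ⟨x1, x2, x3⟩ ⟨a1, a2, a3⟩
  rw [Dg, Matrix.mul_diagonal, Matrix.diagonal_mul]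
  obtain ⟨k1, -, k3⟩ := h3 F Q r x2 x3 a2 a3
  simp only [emb23]
  by_cases h : x1 = a1
  · subst h
    rw [if_pos rfl]
    by_cases h0 : Im Q r (x2, x3) (a2, a3) = 0
    · rw [h0, zero_mul, mul_zero]
    · obtain ⟨p1, p2⟩ := k3 h0
      simp only [K3]
      rw [p1, p2]
      have hx : (xor x1.par (xor (!a2.par) (!a3.par))) = xor x1.par (xor a2.par a3.par) := by
        cases x1.par <;> cases a2.par <;> cases a3.par <;> rfl
      rw [hx]
      split_ifs with hpar
      · linear_combination (Kw Q r x1) * k1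
      · rw [mul_zero, zero_mul]
  · rw [if_neg h, zero_mul, mul_zero]

/-- The weighted trace. -/
def tau : Matrix (Lb r × Lb r × Lb r) (Lb r × Lb r × Lb r) F →ₗ[F] F where
  toFun M := ∑ l, M l l * K3 Q r l
  map_add' M N := by
    rw [← Finset.sum_add_distrib]
    refine Finset.sum_congr rfl fun l _ => ?_
    rw [Matrix.add_apply]; ring
  map_smul' c M := by
    rw [RingHom.id_apply, smul_eq_mul, Finset.mul_sum]
    refine Finset.sum_congr rfl fun l _ => ?_
    rw [Matrix.smul_apply, smul_eq_mul]; ring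

theorem tau_apply (M : Matrix (Lb r × Lb r × Lb r) (Lb r × Lb r × Lb r) F) :
    tau Q r M = ∑ l, M l l * K3 Q r l := rfl

theorem tau_eq (M : Matrix (Lb r × Lb r × Lb r) (Lb r × Lb r × Lb r) F) :
    tau Q r M = (M * Dg Q r).trace := by
  rw [tau_apply, Matrix.trace]
  refine Finset.sum_congr rfl fun l _ => ?_
  rw [Matrix.diag_apply, Dg, Matrix.mul_diagonal]

theorem adjoin_comm (h3 : KCOM_Stmt) {x : Matrix (Lb r × Lb r × Lb r) (Lb r × Lb r × Lb r) F}
    (hx : x ∈ Algebra.adjoin F {emb12 (Im Q r), emb23 (Im Q r)}) :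
    x * Dg Q r = Dg Q r * x := by
  have hle : Algebra.adjoin F {emb12 (Im Q r), emb23 (Im Q r)} ≤
      Subalgebra.centralizer F {Dg Q r} := by
    rw [Algebra.adjoin_le_iff]
    rintro z (rfl | rfl)
    · rw [SetLike.mem_coe, Subalgebra.mem_centralizer_iff]
      intro g hg
      rw [Set.mem_singleton_iff] at hg
      subst hg
      exact (comm12 Q r h3).symm
    · rw [SetLike.mem_coe, Subalgebra.mem_centralizer_iff]
      intro g hg
      rw [Set.mem_singleton_iff] at hg
      subst hg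
      exact (comm23 Q r h3).symm
  have h := hle hx
  rw [Subalgebra.mem_centralizer_iff] at h
  exact (h _ rfl).symm

theorem isTr (h3 : KCOM_Stmt) : IsTr (emb12 (Im Q r)) (emb23 (Im Q r)) (tau Q r) := by
  intro x _ y hy
  rw [tau_eq, tau_eq, mul_assoc, adjoin_comm Q r h3 hy, ← mul_assoc, Matrix.trace_mul_comm,
    ← mul_assoc]

theorem rels (h1 : GENF_Stmt) [CharZero F] (hQ : Nru Q) :
    Rels Q r (emb12 (Im Q r)) (emb23 (Im Q r)) := by
  obtain ⟨e1, e2⟩ := rel F Q r
  refine ⟨e1, e2, ?_⟩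
  obtain ⟨-, -, -, hs, he⟩ := emb F (Lb r)
  rw [(he _ _).2, (spec brk F Q r ((h1 F Q hQ).2.1 r).1).1]
  have h0 := (hs 0 0).2
  rw [zero_smul, zero_smul] at h0
  exact h0

end Comm

section Word

variable {F : Type} [Field F] (Q : QP F) (r : ℕ)

/-- The word in the free algebra. -/
noncomputable def wf : Bool → List ℤ → FreeAlgebra F Bool
  | _, [] => 1
  | false, a :: l =>
      aeval (FreeAlgebra.ι F false) (Q.interp r fun m => ((Q.fu m ^ a : Fˣ) : F)) * wf true l
  | true, a :: l =>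
      aeval (FreeAlgebra.ι F true) (Q.interp r fun m => ((Q.fu m ^ a : Fˣ) : F)) * wf false l

variable {E : Type} [Ring E] [Algebra F E] (I1 I2 : E)

theorem evf_one : evf F I1 I2 1 = 1 := map_one _

theorem evf_mul (v w : FreeAlgebra F Bool) : evf F I1 I2 (v * w) = evf F I1 I2 v * evf F I1 I2 w :=
  map_mul _ v w

theorem evf_false (P : F[X]) : evf F I1 I2 (aeval (FreeAlgebra.ι F false) P) = aeval I1 P := by
  unfold evf
  rw [← Polynomial.aeval_algHom_apply, FreeAlgebra.lift_ι_apply]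
  simp

theorem evf_true (P : F[X]) : evf F I1 I2 (aeval (FreeAlgebra.ι F true) P) = aeval I2 P := by
  unfold evf
  rw [← Polynomial.aeval_algHom_apply, FreeAlgebra.lift_ι_apply]
  simp

theorem evf_wl (x : List ℤ) : ∀ b : Bool,
    evf F (emb12 (Im Q r)) (emb23 (Im Q r)) (wf Q r b x) = wl Q r b x := by
  induction x with
  | nil => intro b; cases b <;> simp only [wf, wl] <;> exact evf_one _ _
  | cons a l ih =>
    intro b
    cases b
    · simp only [wf, wl]
      rw [evf_mul, evf_false, ih]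
    · simp only [wf, wl]
      rw [evf_mul, evf_true, ih]

theorem evf_wm (h4 : WREL_Stmt) (h5 : WPOL_Stmt) (hG : ∀ r, Q.Gen r) {j : ℕ} (hj : j ≤ r)
    (x : List ℤ) : ∀ b : Bool,
    evf F (Iw1 Q j) (Iw2 Q j) (wf Q r b x) = wm Q j b x := by
  have hsub : ∀ m ∈ Finset.Icc (-(j : ℤ)) j, m ∈ Finset.Icc (-(r : ℤ)) r := by
    intro m hm
    rw [Finset.mem_Icc] at hm ⊢
    have : (j : ℤ) ≤ r := by exact_mod_cast hj
    omega
  induction x with
  | nil => intro b; cases b <;> simp only [wf, wm] <;> exact evf_one _ _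
  | cons a l ih =>
    intro b
    cases b
    · simp only [wf, wm]
      rw [evf_mul, evf_false, ih]
      congr 1
      refine (fc F Q j (hG j)).2 _ (Iw1 Q j) (h5 F Q j (hG j)) _ _ fun m hm => ?_
      rw [(fc F Q r (hG r)).1 _ m (hsub m hm), (fc F Q j (hG j)).1 _ m hm]
    · simp only [wf, wm]
      rw [evf_mul, evf_true, ih]
      congr 1
      rw [(h4 F Q j (hG j)).2.2.2]
      congr 1
      funext m
      exact (fc F Q r (hG r)).1 _ m (hsub m m.2)

end Word

end TRL

open TRL in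
/-- TRL: the weighted trace of words on all labels, in terms of the traces on the `W_j`. -/
theorem trl (h1 : GENF_Stmt) (h2 : TRF_Stmt) (h3 : KCOM_Stmt) (h4 : WREL_Stmt)
    (h5 : WPOL_Stmt) : TRL_Stmt := by
  intro F _ _ Q hQ r
  obtain ⟨D, hD, hw⟩ := h2 F Q hQ r _ _ _ (rels Q r h1 hQ) (tau Q r) (isTr Q r h3)
  refine ⟨D, hD, fun x => ?_⟩
  have h := hw (wf Q r false x)
  rw [evf_wl, tau_apply] at h
  rw [h]
  refine Finset.sum_congr rfl fun j hj => ?_
  rw [Finset.mem_range] at hj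
  rw [evf_wm Q r h4 h5 (fun r => ((h1 F Q hQ).2.1 r).1) (by omega)]
  rfl

end Pool.Agent.T3
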