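import Pool.Agent.T3.Stmts2
import Pool.Agent.TB.Zt

/-!
Finite type invariants of closed 3-braids: module TRN, the absolute value of the trace.
See PAPER.md in this folder.
-/

open Polynomial
open scoped BigOperators Real ComplexConjugate

namespace Pool.Agent.T3

open Pool.Agent.TB

namespace TRN

/-! ### The action of the letters on the integral vectors -/

/-- `(1 0; x 1)` -/
def mDz (x : ℤ) : Matrix.SpecialLinearGroup (Fin 2) ℤ :=
  ⟨!![1, 0; x, 1], by simp [Matrix.det_fin_two]⟩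

/-- `(1 -x; 0 1)` -/
def mCz (x : ℤ) : Matrix.SpecialLinearGroup (Fin 2) ℤ :=
  ⟨!![1, -x; 0, 1], by simp [Matrix.det_fin_two]⟩

theorem mDz_mul (x y : ℤ) : mDz (x + y) = mDz x * mDz y := by
  apply Subtype.ext
  change !![1, 0; x + y, 1] = !![1, 0; x, 1] * !![1, 0; y, 1]
  ext i j
  fin_cases i <;> fin_cases j <;> simp [Matrix.mul_apply, Fin.sum_univ_two]

theorem mCz_mul (x y : ℤ) : mCz (x + y) = mCz x * mCz y := by
  apply Subtype.ext
  change !![1, -(x + y); 0, 1] = !![1, -x; 0, 1] * !![1, -y; 0, 1]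
  ext i j
  fin_cases i <;> fin_cases j <;> simp [Matrix.mul_apply, Fin.sum_univ_two]

theorem mDz_zero : mDz 0 = 1 := by
  apply Subtype.ext
  change !![1, 0; 0, 1] = 1
  ext i j
  fin_cases i <;> fin_cases j <;> simp

theorem mCz_zero : mCz 0 = 1 := by
  apply Subtype.ext
  change !![1, -(0 : ℤ); 0, 1] = 1
  ext i j
  fin_cases i <;> fin_cases j <;> simp

/-- the homomorphism -/
def hD : Multiplicative ℤ →* Matrix.SpecialLinearGroup (Fin 2) ℤ where
  toFun x := mDz x.toAdd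
  map_one' := mDz_zero
  map_mul' _ _ := mDz_mul _ _

/-- the homomorphism -/
def hC : Multiplicative ℤ →* Matrix.SpecialLinearGroup (Fin 2) ℤ where
  toFun x := mCz x.toAdd
  map_one' := mCz_zero
  map_mul' _ _ := mCz_mul _ _

theorem mD_zpow (x : ℤ) : mD ^ x = mDz x := by
  have h1 : hD (Multiplicative.ofAdd 1) = mD := rfl
  rw [← h1, ← map_zpow, ← ofAdd_zsmul]
  change mDz (x • (1 : ℤ)) = mDz x
  rw [smul_eq_mul, mul_one]

theorem mC_zpow (x : ℤ) : mC ^ x = mCz x := by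
  have h1 : hC (Multiplicative.ofAdd 1) = mC := rfl
  rw [← h1, ← map_zpow, ← ofAdd_zsmul]
  change mCz (x • (1 : ℤ)) = mCz x
  rw [smul_eq_mul, mul_one]

section

variable {N : ℕ}

/-- the action modulo `N` -/
def am (A : Matrix.SpecialLinearGroup (Fin 2) ℤ) (S : ZMod N × ZMod N) : ZMod N × ZMod N :=
  ((A.1 0 0 : ZMod N) * S.1 + (A.1 0 1 : ZMod N) * S.2,
    (A.1 1 0 : ZMod N) * S.1 + (A.1 1 1 : ZMod N) * S.2)

theorem am_mul (A B : Matrix.SpecialLinearGroup (Fin 2) ℤ) (S : ZMod N × ZMod N) :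
    am (A * B) S = am A (am B S) := by
  unfold am
  have h : ∀ i j, (A * B).1 i j = A.1 i 0 * B.1 0 j + A.1 i 1 * B.1 1 j := by
    intro i j
    change (A.1 * B.1) i j = _
    rw [Matrix.mul_apply, Fin.sum_univ_two]
  rw [h, h, h, h]
  ext <;> push_cast <;> ring

theorem am_one (S : ZMod N × ZMod N) : am 1 S = S := by
  unfold am
  ext <;> simp

theorem am_D (x : ℤ) (S : ZMod N × ZMod N) : am (mD ^ x) S = (S.1, S.2 + x * S.1) := by
  rw [mD_zpow]
  unfold am mDz
  ext <;> simp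
  ring

theorem am_C (x : ℤ) (S : ZMod N × ZMod N) : am (mC ^ x) S = (S.1 - x * S.2, S.2) := by
  rw [mC_zpow]
  unfold am mCz
  ext <;> simp
  ring

theorem am_fix {A : Matrix.SpecialLinearGroup (Fin 2) ℤ} (hA : IsUnit ((2 - A.1.trace : ℤ) : ZMod N))
    {S : ZMod N × ZMod N} (h : am A S = S) : S = 0 := by
  have h1 : (A.1 0 0 : ZMod N) * S.1 + (A.1 0 1 : ZMod N) * S.2 = S.1 := congrArg Prod.fst h
  have h2 : (A.1 1 0 : ZMod N) * S.1 + (A.1 1 1 : ZMod N) * S.2 = S.2 := congrArg Prod.snd h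
  have h3 : (A.1 0 0 : ZMod N) * (A.1 1 1 : ZMod N) - (A.1 0 1 : ZMod N) * (A.1 1 0 : ZMod N) = 1 := by
    have h4 := A.2
    rw [Matrix.det_fin_two] at h4
    exact_mod_cast congrArg (Int.cast : ℤ → ZMod N) h4
  have h5 : ((2 - A.1.trace : ℤ) : ZMod N) = 2 - (A.1 0 0 : ZMod N) - (A.1 1 1 : ZMod N) := by
    rw [Matrix.trace_fin_two]
    push_cast
    ring
  rw [h5] at hA
  have h6 : (2 - (A.1 0 0 : ZMod N) - (A.1 1 1 : ZMod N)) * S.1 = 0 := by
    linear_combination ((A.1 1 1 : ZMod N) - 1) * h1 - (A.1 0 1 : ZMod N) * h2 - S.1 * h3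
  have h7 : (2 - (A.1 0 0 : ZMod N) - (A.1 1 1 : ZMod N)) * S.2 = 0 := by
    linear_combination ((A.1 0 0 : ZMod N) - 1) * h2 - (A.1 1 0 : ZMod N) * h1 - S.2 * h3
  ext
  · exact (hA.mul_right_eq_zero).mp h6
  · exact (hA.mul_right_eq_zero).mp h7

end

/-! ### Weyl matrices -/

section

variable (n : ℕ) [NeZero n] (ι : ℤ)

/-- the Weyl matrix -/
noncomputable def Tm (S : ZMod (2 * n) × ZMod (2 * n)) :
    Matrix (ZMod (2 * n)) (ZMod (2 * n)) ℂ :=
  fun u v => if v = u + S.2 then zt n ι (S.1 * u) else 0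

/-- the matrix of an operator -/
noncomputable def mt (W : Module.End ℂ (Fn n)) : Matrix (ZMod (2 * n)) (ZMod (2 * n)) ℂ :=
  LinearMap.toMatrix' W

theorem mt_mul (V W : Module.End ℂ (Fn n)) : mt n (V * W) = mt n V * mt n W :=
  LinearMap.toMatrix'_mul V W

theorem mt_one : mt n 1 = 1 := LinearMap.toMatrix'_one

theorem trace_mt (W : Module.End ℂ (Fn n)) : LinearMap.trace ℂ (Fn n) W = (mt n W).trace := by
  rw [LinearMap.trace_eq_matrix_trace ℂ (Pi.basisFun ℂ (ZMod (2 * n))) W]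
  rw [LinearMap.toMatrix_eq_toMatrix']
  rfl

/-- the properties of `ζ` that are used -/
structure ZF : Prop where
  zero : zt n ι 0 = 1
  add : ∀ a b, zt n ι (a + b) = zt n ι a * zt n ι b
  sum : ∀ u : ZMod (2 * n), ∑ k, zt n ι (k * u) = if u = 0 then (2 * n : ℂ) else 0
  star : ∀ u, conj (zt n ι u) = zt n ι (-u)

variable {n ι}

theorem zf (hι : IsCoprime ι (2 * n : ℤ)) : ZF n ι := by
  obtain ⟨h0, h1, _, _, h2, _, _, h3⟩ := zt_basic n ι hι
  exact ⟨h0, h1, h2, h3⟩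

theorem Tm_zero (hZ : ZF n ι) : Tm n ι 0 = 1 := by
  ext u v
  unfold Tm
  rw [Matrix.one_apply]
  simp only [Prod.snd_zero, add_zero, Prod.fst_zero, zero_mul, hZ.zero]
  by_cases h : v = u
  · rw [if_pos h, if_pos h.symm]
  · rw [if_neg h, if_neg fun h' => h h'.symm]

theorem Tm_star (S : ZMod (2 * n) × ZMod (2 * n)) (u v : ZMod (2 * n)) :
    (star (Tm n ι S)) u v = if u = v + S.2 then conj (zt n ι (S.1 * v)) else 0 := by
  rw [Matrix.star_apply]
  unfold Tm
  by_cases h : u = v + S.2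
  · rw [if_pos h, if_pos h]
    rfl
  · rw [if_neg h, if_neg h, star_zero]

/-- the sum over all conjugates -/
theorem twirl (hZ : ZF n ι) (X : Matrix (ZMod (2 * n)) (ZMod (2 * n)) ℂ) :
    ∑ S : ZMod (2 * n) × ZMod (2 * n), Tm n ι S * X * star (Tm n ι S) =
      (2 * n * X.trace : ℂ) • (1 : Matrix (ZMod (2 * n)) (ZMod (2 * n)) ℂ) := by
  ext u w
  rw [Matrix.sum_apply]
  have h1 : ∀ S : ZMod (2 * n) × ZMod (2 * n), (Tm n ι S * X * star (Tm n ι S)) u w =
      zt n ι (S.1 * (u - w)) * X (u + S.2) (w + S.2) := by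
    intro S
    rw [Matrix.mul_apply, Finset.sum_eq_single (w + S.2)]
    · rw [Tm_star, if_pos rfl, Matrix.mul_apply, Finset.sum_eq_single (u + S.2)]
      · unfold Tm
        rw [if_pos rfl, hZ.star, mul_right_comm, ← hZ.add]
        congr 2
        ring
      · intro v _ hv
        unfold Tm
        rw [if_neg hv, zero_mul]
      · intro h
        exact absurd (Finset.mem_univ _) h
    · intro v _ hv
      rw [Tm_star, if_neg hv, mul_zero]
    · intro h
      exact absurd (Finset.mem_univ _) h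
  rw [Finset.sum_congr rfl fun S _ => h1 S, Fintype.sum_prod_type]
  have h2 : ∀ a : ZMod (2 * n), ∑ b : ZMod (2 * n), zt n ι (a * (u - w)) * X (u + b) (w + b) =
      zt n ι (a * (u - w)) * ∑ b : ZMod (2 * n), X (u + b) (w + b) := by
    intro a
    rw [Finset.mul_sum]
  rw [Finset.sum_congr rfl fun a _ => h2 a, ← Finset.sum_mul, hZ.sum, Matrix.smul_apply,
    Matrix.one_apply, smul_eq_mul]
  by_cases h : u = w
  · subst h
    rw [sub_self, if_pos rfl, if_pos rfl, mul_one]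
    congr 1
    rw [Matrix.trace]
    exact Fintype.sum_equiv (Equiv.addLeft u) _ _ fun b => rfl
  · rw [if_neg h, if_neg (sub_ne_zero.mpr h), zero_mul, mul_zero]

theorem trace_TT (hZ : ZF n ι) (S S' : ZMod (2 * n) × ZMod (2 * n)) :
    (Tm n ι S * star (Tm n ι S')).trace = if S = S' then (2 * n : ℂ) else 0 := by
  rw [Matrix.trace]
  have h1 : ∀ u, (Tm n ι S * star (Tm n ι S')).diag u =
      if S.2 = S'.2 then zt n ι (u * (S.1 - S'.1)) else 0 := by
    intro u
    rw [Matrix.diag_apply, Matrix.mul_apply, Finset.sum_eq_single (u + S.2)]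
    · rw [Tm_star]
      unfold Tm
      rw [if_pos rfl]
      by_cases h : S.2 = S'.2
      · rw [if_pos h, if_pos (by rw [h]), hZ.star, ← hZ.add]
        congr 1
        ring
      · rw [if_neg h, if_neg fun h' => h (add_left_cancel h'), mul_zero]
    · intro v _ hv
      unfold Tm
      rw [if_neg hv, zero_mul]
    · intro h
      exact absurd (Finset.mem_univ _) h
  rw [Finset.sum_congr rfl fun u _ => h1 u]
  by_cases h : S.2 = S'.2
  · simp only [if_pos h]
    rw [hZ.sum]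
    by_cases h' : S.1 = S'.1
    · rw [if_pos (sub_eq_zero.mpr h'), if_pos (Prod.ext h' h)]
    · rw [if_neg (sub_ne_zero.mpr h'), if_neg fun hh => h' (congrArg Prod.fst hh)]
  · simp only [if_neg h]
    rw [Finset.sum_const_zero, if_neg fun hh => h (congrArg Prod.snd hh)]

/-- the main computation -/
theorem norm_trace (hZ : ZF n ι) (X : Matrix (ZMod (2 * n)) (ZMod (2 * n)) ℂ)
    (hX : X ∈ Matrix.unitaryGroup (ZMod (2 * n)) ℂ) (A : Matrix.SpecialLinearGroup (Fin 2) ℤ)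
    (hA : IsUnit ((2 - A.1.trace : ℤ) : ZMod (2 * n)))
    (hc : ∀ S, ∃ c : ℂ, X * Tm n ι S = c • (Tm n ι (am A S) * X)) : ‖X.trace‖ = 1 := by
  have hn : (2 * n : ℂ) ≠ 0 := by
    have h : (n : ℂ) ≠ 0 := Nat.cast_ne_zero.mpr (NeZero.ne n)
    exact mul_ne_zero two_ne_zero h
  have hXs : X * star X = 1 := Matrix.mem_unitaryGroup_iff.mp hX
  have hsX : star X * X = 1 := Matrix.mem_unitaryGroup_iff'.mp hX
  have hT : ∀ S, Tm n ι S * star (Tm n ι S) = 1 := by
    intro S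
    ext u w
    rw [Matrix.mul_apply, Finset.sum_eq_single (u + S.2)]
    · rw [Tm_star]
      unfold Tm
      rw [if_pos rfl, Matrix.one_apply]
      by_cases h : u = w
      · subst h
        rw [if_pos rfl, if_pos rfl, hZ.star, ← hZ.add, add_neg_cancel, hZ.zero]
      · rw [if_neg fun h' => h (add_right_cancel h'), if_neg h, mul_zero]
    · intro v _ hv
      unfold Tm
      rw [if_neg hv, zero_mul]
    · intro h
      exact absurd (Finset.mem_univ _) h
  have hT' : ∀ S, star (Tm n ι S) * Tm n ι S = 1 := fun S => mul_eq_one_comm.mp (hT S)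
  have h1 : ∀ S : ZMod (2 * n) × ZMod (2 * n),
      (Tm n ι S * X * star (Tm n ι S) * star X).trace = if S = 0 then (2 * n : ℂ) else 0 := by
    intro S
    obtain ⟨c, hc⟩ := hc S
    have hc0 : c ≠ 0 := by
      rintro rfl
      rw [zero_smul] at hc
      have h2 : (1 : Matrix (ZMod (2 * n)) (ZMod (2 * n)) ℂ) = 0 := by
        calc (1 : Matrix (ZMod (2 * n)) (ZMod (2 * n)) ℂ)
            = star X * (X * Tm n ι S) * star (Tm n ι S) := by
              rw [← Matrix.mul_assoc, hsX, Matrix.one_mul, hT]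
          _ = 0 := by rw [hc, Matrix.mul_zero, Matrix.zero_mul]
      have h3 := congrFun (congrFun h2 0) 0
      simp at h3
    -- `X T_S⁻¹ = c⁻¹ T_AS⁻¹ X`
    have h4 : X * star (Tm n ι S) = c⁻¹ • (star (Tm n ι (am A S)) * X) := by
      have h5 : star (Tm n ι (am A S)) * X = c • (X * star (Tm n ι S)) := by
        calc star (Tm n ι (am A S)) * X
            = star (Tm n ι (am A S)) * (X * Tm n ι S) * star (Tm n ι S) := by
              rw [Matrix.mul_assoc, Matrix.mul_assoc, hT, Matrix.mul_one]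
          _ = c • (X * star (Tm n ι S)) := by
              rw [hc, Matrix.mul_smul, ← Matrix.mul_assoc, hT', Matrix.one_mul,
                Matrix.smul_mul]
      rw [h5, smul_smul, inv_mul_cancel₀ hc0, one_smul]
    have h6 : Tm n ι S * X * star (Tm n ι S) * star X =
        c⁻¹ • (Tm n ι S * star (Tm n ι (am A S))) := by
      rw [Matrix.mul_assoc (Tm n ι S) X, h4, Matrix.mul_smul, Matrix.smul_mul,
        Matrix.mul_assoc, Matrix.mul_assoc, hXs, Matrix.mul_one]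
    rw [h6, Matrix.trace_smul, trace_TT hZ]
    by_cases hS : S = 0
    · subst hS
      have h7 : am A (0 : ZMod (2 * n) × ZMod (2 * n)) = 0 := by
        unfold am
        ext <;> simp
      rw [h7] at hc ⊢
      rw [if_pos rfl]
      have h8 : c = 1 := by
        rw [Tm_zero hZ, Matrix.mul_one, Matrix.one_mul] at hc
        have h9 : (1 : Matrix (ZMod (2 * n)) (ZMod (2 * n)) ℂ) = c • 1 := by
          calc (1 : Matrix (ZMod (2 * n)) (ZMod (2 * n)) ℂ) = X * star X := hXs.symm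
            _ = (c • X) * star X := by rw [← hc]
            _ = c • 1 := by rw [Matrix.smul_mul, hXs]
        have h10 := congrFun (congrFun h9 0) 0
        simpa using h10.symm
      rw [h8, inv_one, one_smul]
    · rw [if_neg hS, if_neg, smul_zero]
      intro h
      exact hS (am_fix hA h.symm)
  have h2 : (∑ S : ZMod (2 * n) × ZMod (2 * n), Tm n ι S * X * star (Tm n ι S) * star X).trace =
      2 * n := by
    rw [Matrix.trace_sum, Finset.sum_congr rfl fun S _ => h1 S]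
    simp
  rw [← Finset.sum_mul, twirl hZ, Matrix.smul_mul, Matrix.one_mul, Matrix.trace_smul] at h2
  have h3 : (star X).trace = conj X.trace := Matrix.trace_conjTranspose X
  rw [h3, smul_eq_mul, mul_assoc, Complex.mul_conj'] at h2
  have h4 : ((‖X.trace‖ : ℂ)) ^ 2 = 1 := by
    have h5 : (2 * n : ℂ) * ((‖X.trace‖ : ℂ) ^ 2) = 2 * n * 1 := by rw [h2, mul_one]
    exact mul_left_cancel₀ hn h5
  have h5 : ‖X.trace‖ ^ 2 = 1 := by exact_mod_cast h4
  have h6 : 0 ≤ ‖X.trace‖ := norm_nonneg _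
  nlinarith [h5, h6, sq_nonneg (‖X.trace‖ - 1)]

/-! ### The letters -/

/-- the properties of the chirp function that are used -/
structure CF (n : ℕ) [NeZero n] (ι : ℤ) : Prop where
  add : ∀ u v : ZMod (2 * n), (chf n ι (u + v) : ℂ) = chf n ι u * chf n ι v * zt n ι (u * v)
  nrm : ∀ u : ZMod (2 * n), ‖(chf n ι u : ℂ)‖ = 1

theorem zt_zpow (a : ZMod (2 * n)) (x : ℤ) : zt n ι a ^ x = zt n ι ((x : ZMod (2 * n)) * a) := by
  unfold zt
  rw [← AddChar.map_zsmul_eq_zpow]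
  congr 1
  rw [zsmul_eq_mul]
  ring

theorem chf_zpow_add (hF : CF n ι) (u v : ZMod (2 * n)) (x : ℤ) :
    ((chf n ι (u + v) ^ x : ℂˣ) : ℂ) = ((chf n ι u ^ x : ℂˣ) : ℂ) * ((chf n ι v ^ x : ℂˣ) : ℂ) *
      zt n ι ((x : ZMod (2 * n)) * (u * v)) := by
  rw [Units.val_zpow_eq_zpow_val, Units.val_zpow_eq_zpow_val, Units.val_zpow_eq_zpow_val,
    hF.add, mul_zpow, mul_zpow, zt_zpow]

theorem conj_chf (hF : CF n ι) (u : ZMod (2 * n)) (x : ℤ) :
    conj ((chf n ι u ^ x : ℂˣ) : ℂ) = ((chf n ι u ^ (-x) : ℂˣ) : ℂ) := by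
  rw [zpow_neg, Units.val_inv_eq_inv_val, Units.val_zpow_eq_zpow_val]
  refine (Complex.inv_eq_conj ?_).symm
  rw [norm_zpow, hF.nrm, one_zpow]

theorem mt_Ch (x : ℤ) (u v : ZMod (2 * n)) :
    mt n (Ch n ι x) u v = if u = v then ((chf n ι u ^ x : ℂˣ) : ℂ) else 0 := by
  unfold mt
  rw [LinearMap.toMatrix'_apply]
  change ((chf n ι u ^ x : ℂˣ) : ℂ) * (Pi.single v 1 : Fn n) u = _
  rw [Pi.single_apply, mul_ite, mul_one, mul_zero]

theorem mt_Dh (x : ℤ) (u v : ZMod (2 * n)) :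
    mt n (Dh n ι x) u v =
      (1 / (2 * n : ℂ)) * ∑ k, ((chf n ι k ^ x : ℂˣ) : ℂ) * zt n ι (k * (u - v)) := by
  unfold mt
  rw [LinearMap.toMatrix'_apply]
  change (1 / (2 * n : ℂ)) * ∑ k, ∑ w, ((chf n ι k ^ x : ℂˣ) : ℂ) * zt n ι (k * (u - w)) *
    (Pi.single v 1 : Fn n) w = _
  congr 1
  refine Finset.sum_congr rfl fun k _ => ?_
  rw [Finset.sum_eq_single v]
  · rw [Pi.single_eq_same, mul_one]
  · intro w _ hw
    rw [Pi.single_eq_of_ne hw, mul_zero]
  · intro h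
    exact absurd (Finset.mem_univ _) h

theorem star_Ch (hF : CF n ι) (x : ℤ) : star (mt n (Ch n ι x)) = mt n (Ch n ι (-x)) := by
  ext u v
  rw [Matrix.star_apply, mt_Ch, mt_Ch]
  by_cases h : u = v
  · subst h
    rw [if_pos rfl, if_pos rfl]
    exact conj_chf hF u x
  · rw [if_neg h, if_neg fun h' => h h'.symm, star_zero]

theorem star_Dh (hZ : ZF n ι) (hF : CF n ι) (x : ℤ) :
    star (mt n (Dh n ι x)) = mt n (Dh n ι (-x)) := by
  ext u v
  rw [Matrix.star_apply, mt_Dh, mt_Dh]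
  change conj _ = _
  rw [map_mul, map_sum]
  have h5 : conj (1 / (2 * n : ℂ)) = 1 / (2 * n : ℂ) := by
    rw [map_div₀, map_mul, map_one, Complex.conj_natCast, Complex.conj_ofNat]
  rw [h5]
  congr 1
  refine Finset.sum_congr rfl fun k _ => ?_
  rw [map_mul, conj_chf hF, hZ.star]
  congr 2
  ring

theorem Ch_comm (hZ : ZF n ι) (hF : CF n ι) (x : ℤ) (S : ZMod (2 * n) × ZMod (2 * n)) :
    mt n (Ch n ι x) * Tm n ι S =
      ((chf n ι S.2 ^ (-x) : ℂˣ) : ℂ) • (Tm n ι (S.1 - x * S.2, S.2) * mt n (Ch n ι x)) := by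
  ext u v
  rw [Matrix.smul_apply, Matrix.mul_apply, Matrix.mul_apply, smul_eq_mul,
    Finset.sum_eq_single u, Finset.sum_eq_single v]
  · rw [mt_Ch, mt_Ch, if_pos rfl, if_pos rfl]
    unfold Tm
    by_cases h : v = u + S.2
    · rw [if_pos h, if_pos h, h, chf_zpow_add hF]
      have h1 : ((chf n ι S.2 ^ (-x) : ℂˣ) : ℂ) * ((chf n ι S.2 ^ x : ℂˣ) : ℂ) = 1 := by
        rw [← Units.val_mul, ← zpow_add, neg_add_cancel, zpow_zero, Units.val_one]
      have h2 : zt n ι (S.1 * u) = zt n ι ((S.1 - x * S.2) * u) *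
          zt n ι ((x : ZMod (2 * n)) * (u * S.2)) := by
        rw [← hZ.add]
        congr 1
        ring
      rw [h2]
      linear_combination (-(((chf n ι u ^ x : ℂˣ) : ℂ) * zt n ι ((S.1 - x * S.2) * u) *
          zt n ι ((x : ZMod (2 * n)) * (u * S.2)))) * h1
    · rw [if_neg h, if_neg h, mul_zero, zero_mul, mul_zero]
  · intro w _ hw
    rw [mt_Ch, if_neg hw, mul_zero]
  · intro h
    exact absurd (Finset.mem_univ _) h
  · intro w _ hw
    rw [mt_Ch, if_neg hw.symm, zero_mul]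
  · intro h
    exact absurd (Finset.mem_univ _) h

theorem Dh_comm (hZ : ZF n ι) (hF : CF n ι) (x : ℤ) (S : ZMod (2 * n) × ZMod (2 * n)) :
    mt n (Dh n ι x) * Tm n ι S =
      ((chf n ι S.1 ^ x : ℂˣ) : ℂ) • (Tm n ι (S.1, S.2 + x * S.1) * mt n (Dh n ι x)) := by
  ext u w
  rw [Matrix.smul_apply, Matrix.mul_apply, Matrix.mul_apply, smul_eq_mul,
    Finset.sum_eq_single (w - S.2), Finset.sum_eq_single (u + (S.2 + x * S.1))]
  · rw [mt_Dh, mt_Dh]
    unfold Tm
    rw [if_pos (by ring), if_pos rfl]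
    have h1 : ∑ k, ((chf n ι k ^ x : ℂˣ) : ℂ) * zt n ι (k * (u - (w - S.2))) =
        ∑ k, ((chf n ι (k + S.1) ^ x : ℂˣ) : ℂ) * zt n ι ((k + S.1) * (u - (w - S.2))) :=
      (Fintype.sum_equiv (Equiv.addRight S.1) _ _ fun k => rfl).symm
    rw [h1]
    have h2 : ∀ k, ((chf n ι (k + S.1) ^ x : ℂˣ) : ℂ) * zt n ι ((k + S.1) * (u - (w - S.2))) *
        zt n ι (S.1 * (w - S.2)) = ((chf n ι S.1 ^ x : ℂˣ) : ℂ) * (zt n ι (S.1 * u) *
          (((chf n ι k ^ x : ℂˣ) : ℂ) * zt n ι (k * (u + (S.2 + x * S.1) - w)))) := by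
      intro k
      rw [chf_zpow_add hF]
      have h3 : zt n ι ((x : ZMod (2 * n)) * (k * S.1)) * zt n ι ((k + S.1) * (u - (w - S.2))) *
          zt n ι (S.1 * (w - S.2)) = zt n ι (S.1 * u) *
            zt n ι (k * (u + (S.2 + x * S.1) - w)) := by
        rw [← hZ.add, ← hZ.add, ← hZ.add]
        congr 1
        ring
      linear_combination (((chf n ι k ^ x : ℂˣ) : ℂ) * ((chf n ι S.1 ^ x : ℂˣ) : ℂ)) * h3
    rw [mul_assoc, Finset.sum_mul, Finset.sum_congr rfl fun k _ => h2 k, ← Finset.mul_sum,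
      ← Finset.mul_sum]
    ring
  · intro v _ hv
    unfold Tm
    rw [if_neg hv, zero_mul]
  · intro h
    exact absurd (Finset.mem_univ _) h
  · intro v _ hv
    unfold Tm
    rw [if_neg, mul_zero]
    intro h
    apply hv
    rw [h]
    ring
  · intro h
    exact absurd (Finset.mem_univ _) h

/-- the properties of a word -/
theorem word (hZ : ZF n ι) (hF : CF n ι)
    (hC : ∀ x : ℤ, Ch n ι x * Ch n ι (-x) = 1) (hD : ∀ x : ℤ, Dh n ι x * Dh n ι (-x) = 1) :
    ∀ (e : Bool) (l : List ℤ), mt n (ww n ι e l) ∈ Matrix.unitaryGroup (ZMod (2 * n)) ℂ ∧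
      ∀ S, ∃ c : ℂ, mt n (ww n ι e l) * Tm n ι S = c • (Tm n ι (am (mw e l) S) *
        mt n (ww n ι e l))
  | e, [] => by
      have h1 : ww n ι e [] = 1 := by cases e <;> rfl
      have h2 : mw e [] = 1 := by cases e <;> rfl
      rw [h1, h2, mt_one]
      refine ⟨one_mem _, fun S => ⟨1, ?_⟩⟩
      rw [Matrix.one_mul, Matrix.mul_one, am_one, one_smul]
  | false, a :: l => by
      obtain ⟨h1, h2⟩ := word hZ hF hC hD true l
      have h3 : ww n ι false (a :: l) = Dh n ι a * ww n ι true l := rfl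
      have h4 : mw false (a :: l) = mD ^ a * mw true l := rfl
      rw [h3, h4, mt_mul]
      refine ⟨mul_mem ?_ h1, fun S => ?_⟩
      · rw [Matrix.mem_unitaryGroup_iff, star_Dh hZ hF, ← mt_mul, hD, mt_one]
      · obtain ⟨c, hc⟩ := h2 S
        refine ⟨((chf n ι (am (mw true l) S).1 ^ a : ℂˣ) : ℂ) * c, ?_⟩
        rw [Matrix.mul_assoc, hc, Matrix.mul_smul, ← Matrix.mul_assoc, Dh_comm hZ hF,
          am_mul, am_D, Matrix.smul_mul, smul_smul, Matrix.mul_assoc, mul_comm c]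
  | true, a :: l => by
      obtain ⟨h1, h2⟩ := word hZ hF hC hD false l
      have h3 : ww n ι true (a :: l) = Ch n ι a * ww n ι false l := rfl
      have h4 : mw true (a :: l) = mC ^ a * mw false l := rfl
      rw [h3, h4, mt_mul]
      refine ⟨mul_mem ?_ h1, fun S => ?_⟩
      · rw [Matrix.mem_unitaryGroup_iff, star_Ch hF, ← mt_mul, hC, mt_one]
      · obtain ⟨c, hc⟩ := h2 S
        refine ⟨((chf n ι (am (mw false l) S).2 ^ (-a) : ℂˣ) : ℂ) * c, ?_⟩
        rw [Matrix.mul_assoc, hc, Matrix.mul_smul, ← Matrix.mul_assoc, Ch_comm hZ hF,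
          am_mul, am_C, Matrix.smul_mul, smul_smul, Matrix.mul_assoc, mul_comm c]

end

end TRN

open TRN in
/-- **Module TRN.** -/
theorem trn (h1 : CHF_Stmt) (h2 : EGO3_Stmt) (h3 : CHN3_Stmt) : TRN_Stmt := by
  intro n _ ι hι hn x hx hcop
  obtain ⟨_, _, ha, _, hb, _⟩ := h1 n ι hι hn
  obtain ⟨_, _, hm, hC0, hD0, _⟩ := h2 n ι hι hn
  obtain ⟨_, _, htr, _⟩ := h3 x hx
  have hZ : ZF n ι := zf hι
  have hF : CF n ι := ⟨ha, hb⟩
  have hC : ∀ x : ℤ, Ch n ι x * Ch n ι (-x) = 1 := by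
    intro x
    rw [(hm x (-x)).1, add_neg_cancel, hC0]
  have hD : ∀ x : ℤ, Dh n ι x * Dh n ι (-x) = 1 := by
    intro x
    rw [(hm x (-x)).2, add_neg_cancel, hD0]
  obtain ⟨hu, hc⟩ := word hZ hF hC hD false x
  rw [trace_mt]
  refine norm_trace hZ _ hu (mw false x) ?_ hc
  rw [htr, ZMod.coe_int_isUnit_iff_isCoprime]
  have h4 : ((2 * n : ℕ) : ℤ) = 2 * n := by push_cast; rfl
  rw [h4]
  exact hcop.symm

end Pool.Agent.T3
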