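import Pool.Agent.T3.Stmts2
import Pool.Agent.TB.Ego
import Pool.Agent.TB.Zt

/-!
Finite type invariants of closed 3-braids: traces of Weyl operators inserted into a word
(module TRT).
-/

open Polynomial
open scoped BigOperators Real

namespace Pool.Agent.T3.TRT

open Pool.Agent.TB

section

variable (n : ℕ) [NeZero n] (ι : ℤ)

/-- the vector of the operator inserted at position `j`, moved to the left end -/
def Fv (x : List ℤ) (j : ℕ) (a b : ℤ) : ℤ × ℤ :=
  if Even j then a • ch3 x j + b • ch3 x (j + 1) else a • ch3 x (j + 1) + b • ch3 x j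

/-- the action of one letter -/
def Lv (c : Bool) (z a b : ℤ) : ℤ × ℤ := if c then (a - z * b, b) else (a, b + z * a)

/-- moving an inserted Weyl operator one step to the left -/
theorem wi_succ
    (hC : ∀ x a b : ℤ, Ch n ι x * Tt n ι a b = Tt n ι (a - x * b) b * Ch n ι x)
    (hD : ∀ x a b : ℤ, Dh n ι x * Tt n ι a b = Tt n ι a (b + x * a) * Dh n ι x) :
    ∀ (j : ℕ) (c : Bool) (x : List ℤ), j < x.length → ∀ a b : ℤ,
      wi n ι (Tt n ι a b) c x (j + 1) =
        wi n ι (Tt n ι (Lv (xor c (decide (Odd j))) (x.getD j 0) a b).1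
          (Lv (xor c (decide (Odd j))) (x.getD j 0) a b).2) c x j := by
  intro j
  induction j with
  | zero =>
    intro c x hx a b
    cases x with
    | nil => simp at hx
    | cons z l =>
      cases c with
      | false =>
        simp only [wi, ww, Lv, List.getD_cons_zero]
        rw [← mul_assoc, hD]
        simp [mul_assoc]
      | true =>
        simp only [wi, ww, Lv, List.getD_cons_zero]
        rw [← mul_assoc, hC]
        simp [mul_assoc]
  | succ j ih =>
    intro c x hx a b
    cases x with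
    | nil => simp at hx
    | cons z l =>
      have hl : j < l.length := by simpa using hx
      have hpar : decide (Odd (j + 1)) = !decide (Odd j) := by
        rw [← decide_not]
        congr 1
        rw [Nat.odd_add_one]
      cases c with
      | false =>
        have h1 := ih true l hl a b
        have e : xor false (decide (Odd (j + 1))) = xor true (decide (Odd j)) := by
          rw [hpar]; cases decide (Odd j) <;> rfl
        rw [e, List.getD_cons_succ]
        simp only [wi]
        rw [h1]
      | true =>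
        have h1 := ih false l hl a b
        have e : xor true (decide (Odd (j + 1))) = xor false (decide (Odd j)) := by
          rw [hpar]; cases decide (Odd j) <;> rfl
        rw [e, List.getD_cons_succ]
        simp only [wi]
        rw [h1]

theorem Fv_succ (x : List ℤ) (j : ℕ) (a b : ℤ) :
    Fv x (j + 1) a b = Fv x j (Lv (xor false (decide (Odd j))) (x.getD j 0) a b).1
      (Lv (xor false (decide (Odd j))) (x.getD j 0) a b).2 := by
  have hch : ch3 x (j + 2) = ch3 x j + ((-1) ^ j * x.getD j 0) • ch3 x (j + 1) := rfl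
  unfold Fv Lv
  by_cases hj : Even j
  · have hj1 : ¬ Even (j + 1) := by rw [Nat.even_add_one]; exact fun h => h hj
    have hj2 : decide (Odd j) = false := by
      rw [decide_eq_false_iff_not, Nat.not_odd_iff_even]; exact hj
    rw [if_neg hj1, if_pos hj, hj2]
    simp only [Bool.xor_false, Bool.false_eq_true, if_false]
    rw [hch, hj.neg_one_pow]
    ext <;> simp <;> ring
  · have hj1 : Even (j + 1) := by rw [Nat.even_add_one]; exact hj
    have hj3 : Odd j := Nat.not_even_iff_odd.1 hj
    have hj2 : decide (Odd j) = true := by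
      rw [decide_eq_true_iff]; exact hj3
    rw [if_pos hj1, if_neg hj, hj2]
    simp only [Bool.false_xor, if_true]
    rw [hch, hj3.neg_one_pow]
    ext <;> simp <;> ring

/-- an inserted Weyl operator moved to the left end -/
theorem wi_eq
    (hC : ∀ x a b : ℤ, Ch n ι x * Tt n ι a b = Tt n ι (a - x * b) b * Ch n ι x)
    (hD : ∀ x a b : ℤ, Dh n ι x * Tt n ι a b = Tt n ι a (b + x * a) * Dh n ι x)
    (x : List ℤ) (j : ℕ) : j ≤ x.length → ∀ a b : ℤ,
      wi n ι (Tt n ι a b) false x j = Tt n ι (Fv x j a b).1 (Fv x j a b).2 * ww n ι false x := by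
  induction j with
  | zero =>
    intro _ a b
    have h : Fv x 0 a b = (a, b) := by
      unfold Fv
      rw [if_pos (by simp)]
      ext <;> simp [ch3]
    rw [h, wi]
  | succ j ih =>
    intro hj a b
    rw [wi_succ n ι hC hD j false x hj a b, ih (by omega), ← Fv_succ]

theorem wi_length (O : Module.End ℂ (Fn n)) : ∀ (c : Bool) (x : List ℤ),
    wi n ι O c x x.length = ww n ι c x * O := by
  intro c x
  induction x generalizing c with
  | nil => cases c <;> simp [wi, ww]
  | cons z l ih =>
    cases c with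
    | false => rw [List.length_cons, wi, ww, ih, mul_assoc]
    | true => rw [List.length_cons, wi, ww, ih, mul_assoc]

theorem Tt_zero (hz : zt n ι 0 = 1) : Tt n ι 0 0 = 1 := by
  apply EGO.ext_end
  intro f u
  rw [EGO.Tt_apply, Module.End.one_apply]
  simp [hz]

end

end Pool.Agent.T3.TRT

namespace Pool.Agent.T3

open TRT Pool.Agent.TB

theorem trt (h1 : EGO3_Stmt) (h2 : CHN3_Stmt) : TRT_Stmt := by
  intro n _ ι hι hn x hx j hj a b
  obtain ⟨hC, hD, -, -, -, -, hP, -, -, -, -, -, -, -⟩ := h1 n ι hι hn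
  obtain ⟨hdet, -⟩ := h2 x hx
  obtain ⟨hT, -, -, -, hmod, -, -⟩ := ego zt_basic n ι hι
  obtain ⟨hz0, hadd, -, -, -, -, -, -⟩ := zt_basic n ι hι
  rw [wi_eq n ι hC hD x j hj a b]
  have hF : (if Even j then a • ch3 x j + b • ch3 x (j + 1)
      else a • ch3 x (j + 1) + b • ch3 x j) = Fv x j a b := rfl
  rw [hF]
  set R := Fv x j a b with hR
  clear_value R
  set W := ww n ι false x with hW
  -- the entries of the matrix
  set p := (ch3 x x.length).1 with hp
  set q := (ch3 x x.length).2 with hq
  set r := (ch3 x (x.length + 1)).1 with hr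
  set s := (ch3 x (x.length + 1)).2 with hs
  have hd : p * s - q * r = 1 := by
    have := hdet x.length
    rw [hx.neg_one_pow, det2] at this
    exact this
  have ht : tw3 x = p + s := rfl
  have hQ : Qw x R = R.1 * (R.1 * q + R.2 * s) - R.2 * (R.1 * p + R.2 * r) := by
    simp only [Qw, det2, Aw, Prod.fst_add, Prod.snd_add, Prod.smul_fst, Prod.smul_snd, smul_eq_mul,
      hp, hq, hr, hs]
  have hWT : ∀ c d : ℤ, W * Tt n ι c d = Tt n ι (c * p + d * r) (c * q + d * s) * W := by
    intro c d
    rw [hW, ← wi_length, wi_eq n ι hC hD x x.length le_rfl]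
    simp only [Fv, if_pos hx, Prod.fst_add, Prod.snd_add, Prod.smul_fst, Prod.smul_snd,
      smul_eq_mul, hp, hq, hr, hs]
  have hT0 := Tt_zero n ι hz0
  have hinv : ∀ c d : ℤ, Tt n ι (-c) (-d) * Tt n ι c d = 1 := by
    intro c d
    rw [hT, show -c + c = 0 by ring, show -d + d = 0 by ring, hT0]
    have : (-2 * (-c * d - -d * c) : ℤ) = 0 := by ring
    rw [this]
    simp [hz0]
  have hzmod : ∀ u v : ℤ, (2 * n : ℤ) ∣ u - v → zt n ι (u : ZMod (2 * n)) = zt n ι (v : ZMod (2 * n)) := by
    intro u v h
    congr 1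
    rw [← sub_eq_zero, ← Int.cast_sub, ZMod.intCast_zmod_eq_zero_iff_dvd]
    exact_mod_cast h
  constructor
  · intro δ hδ
    have hk : (n : ℤ) ∣ δ * (2 - (p + s)) - 1 := by
      rw [← ZMod.intCast_zmod_eq_zero_iff_dvd, ← ht]
      push_cast
      rw [hδ, sub_self]
    obtain ⟨k, hk⟩ := hk
    -- S = δ (A⁻¹ R - R)
    set S1 := δ * ((s - 1) * R.1 - r * R.2) with hS1
    set S2 := δ * (-q * R.1 + (p - 1) * R.2) with hS2
    have hA : Tt n ι S1 S2 * (Tt n ι R.1 R.2 * W) * Tt n ι (-S1) (-S2) =
        zt n ι (-2 * δ * Qw x R : ℤ) • W := by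
      rw [mul_assoc, mul_assoc, hWT, ← mul_assoc, ← mul_assoc, hT, smul_mul_assoc, hT, smul_smul,
        ← hadd, ← Int.cast_add]
      have e1 : Tt n ι (S1 + R.1 + (-S1 * p + -S2 * r)) (S2 + R.2 + (-S1 * q + -S2 * s)) = 1 := by
        rw [← hT0]
        apply hmod
        · have : S1 + R.1 + (-S1 * p + -S2 * r) = -(n : ℤ) * k * R.1 := by
            rw [hS1, hS2]
            linear_combination (-R.1) * hk + (-δ * R.1) * hd
          rw [this]
          simp
        · have : S2 + R.2 + (-S1 * q + -S2 * s) = -(n : ℤ) * k * R.2 := by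
            rw [hS1, hS2]
            linear_combination (-R.2) * hk + (-δ * R.2) * hd
          rw [this]
          simp
      rw [e1, smul_mul_assoc, one_mul]
      congr 1
      apply hzmod
      refine ⟨δ * Qw x R * k, ?_⟩
      rw [hQ, hS1, hS2]
      linear_combination (2 * δ ^ 2 * (R.1 * (R.1 * q + R.2 * s) - R.2 * (R.1 * p + R.2 * r))) * hd
        + (2 * δ * (R.1 * (R.1 * q + R.2 * s) - R.2 * (R.1 * p + R.2 * r))) * hk
    have hB := congrArg (LinearMap.trace ℂ (Fn n)) hA
    rw [LinearMap.trace_mul_comm, ← mul_assoc, hinv, one_mul, map_smul, smul_eq_mul] at hB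
    rw [hB, mul_comm]
  · intro δ hδ
    have hk : (n : ℤ) ∣ δ * (2 + (p + s)) - 1 := by
      rw [← ZMod.intCast_zmod_eq_zero_iff_dvd, ← ht]
      push_cast
      rw [hδ, sub_self]
    obtain ⟨k, hk⟩ := hk
    set S1 := δ * ((s + 1) * R.1 - r * R.2) with hS1
    set S2 := δ * (-q * R.1 + (p + 1) * R.2) with hS2
    have hSP : Tt n ι S1 S2 * par0 n = par0 n * Tt n ι (-S1) (-S2) := by
      rw [hP, neg_neg, neg_neg]
    have hA : Tt n ι S1 S2 * (par0 n * (Tt n ι R.1 R.2 * W)) * Tt n ι (-S1) (-S2) =
        zt n ι (2 * δ * Qw x R : ℤ) • (par0 n * W) := by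
      rw [← mul_assoc (Tt n ι S1 S2), hSP, mul_assoc, mul_assoc, mul_assoc, hWT,
        ← mul_assoc (Tt n ι (-S1) (-S2)), ← mul_assoc (Tt n ι (-S1) (-S2) * Tt n ι R.1 R.2), hT,
        smul_mul_assoc, hT, smul_smul,
        ← hadd, ← Int.cast_add]
      have e1 : Tt n ι (-S1 + R.1 + (-S1 * p + -S2 * r)) (-S2 + R.2 + (-S1 * q + -S2 * s)) = 1 := by
        rw [← hT0]
        apply hmod
        · have : -S1 + R.1 + (-S1 * p + -S2 * r) = -(n : ℤ) * k * R.1 := by
            rw [hS1, hS2]
            linear_combination (-R.1) * hk + (-δ * R.1) * hd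
          rw [this]
          simp
        · have : -S2 + R.2 + (-S1 * q + -S2 * s) = -(n : ℤ) * k * R.2 := by
            rw [hS1, hS2]
            linear_combination (-R.2) * hk + (-δ * R.2) * hd
          rw [this]
          simp
      rw [e1, smul_mul_assoc, one_mul, mul_smul_comm]
      congr 1
      apply hzmod
      refine ⟨-(δ * Qw x R * k), ?_⟩
      rw [hQ, hS1, hS2]
      linear_combination (-2 * δ ^ 2 * (R.1 * (R.1 * q + R.2 * s) - R.2 * (R.1 * p + R.2 * r))) * hd
        - (2 * δ * (R.1 * (R.1 * q + R.2 * s) - R.2 * (R.1 * p + R.2 * r))) * hk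
    have hB := congrArg (LinearMap.trace ℂ (Fn n)) hA
    rw [LinearMap.trace_mul_comm, ← mul_assoc, hinv, one_mul, map_smul, smul_eq_mul] at hB
    rw [hB, mul_comm]

end Pool.Agent.T3
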