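import Pool.Agent.T3.Stmts
import Pool.Agent.TB.Brk
import Pool.Agent.TB.Fc

/-!
Module WPOL: the spectrum of `I_1` in the modules `W_r`.
-/

open Polynomial
open scoped BigOperators

namespace Pool.Agent.T3

open Pool.Agent.TB

namespace WPOL

variable {A : Type} [CommRing A] (Q : QP A)

/-! ### Identities for quantum integers -/

/-- Solutions of the recurrence are determined by two consecutive values. -/
theorem rec_unique (t : A) (x y : ℤ → A) (hx : ∀ r, x (r + 1) + x (r - 1) = t * x r)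
    (hy : ∀ r, y (r + 1) + y (r - 1) = t * y r) (h0 : x 0 = y 0) (h1 : x 1 = y 1) (r : ℤ) :
    x r = y r := by
  have key : ∀ r : ℤ, x r = y r ∧ x (r + 1) = y (r + 1) := by
    intro r
    induction r using Int.induction_on with
    | zero => exact ⟨h0, by rw [zero_add]; exact h1⟩
    | succ n ih =>
      refine ⟨ih.2, ?_⟩
      have e1 := hx ((n : ℤ) + 1)
      have e2 := hy ((n : ℤ) + 1)
      rw [add_sub_cancel_right] at e1 e2
      rw [ih.1, ih.2] at e1
      exact add_right_cancel (e1.trans e2.symm)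
    | pred n ih =>
      have e1 := hx (-(n : ℤ))
      have e2 := hy (-(n : ℤ))
      rw [ih.2, ih.1] at e1
      refine ⟨add_left_cancel (e1.trans e2.symm), ?_⟩
      rw [sub_add_cancel]
      exact ih.1
  exact (key r).1

theorem br_rec (m : ℤ) : Q.br (m + 1) + Q.br (m - 1) = Q.two * Q.br m :=
  (brk A Q).2.2.2.2.2.1 m

theorem br_zero : Q.br 0 = 0 := (brk A Q).1

theorem br_one : Q.br 1 = 1 := (brk A Q).2.1

theorem br_neg (m : ℤ) : Q.br (-m) = -Q.br m := (brk A Q).2.2.1 m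

theorem lam_diff (m : ℤ) : Q.lam (m + 1) - Q.lam (m - 1) = Q.i * (Q.qp m + Q.qp (-m)) :=
  (brk A Q).2.2.2.2.2.2.2.2.1 m

theorem br_diff (m : ℤ) : Q.br (m + 1) - Q.br (m - 1) = Q.qp m + Q.qp (-m) := by
  have h := lam_diff Q m
  unfold QP.lam at h
  rw [← mul_sub] at h
  exact (Units.mul_right_inj Q.i).1 h

theorem id1 (r m : ℤ) : Q.br (r - m) + Q.br (r + m) = Q.br r * (Q.qp m + Q.qp (-m)) := by
  refine rec_unique Q.two (fun r => Q.br (r - m) + Q.br (r + m))
    (fun r => Q.br r * (Q.qp m + Q.qp (-m))) ?_ ?_ ?_ ?_ r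
  · intro r
    have e1 := br_rec Q (r - m)
    have e2 := br_rec Q (r + m)
    show Q.br (r + 1 - m) + Q.br (r + 1 + m) + (Q.br (r - 1 - m) + Q.br (r - 1 + m)) = _
    rw [show r + 1 - m = r - m + 1 by ring, show r + 1 + m = r + m + 1 by ring,
      show r - 1 - m = r - m - 1 by ring, show r - 1 + m = r + m - 1 by ring]
    linear_combination e1 + e2
  · intro r
    have e1 := br_rec Q r
    show Q.br (r + 1) * _ + Q.br (r - 1) * _ = _
    linear_combination (Q.qp m + Q.qp (-m)) * e1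
  · show Q.br (0 - m) + Q.br (0 + m) = Q.br 0 * _
    rw [zero_sub, zero_add, br_neg, br_zero]
    ring
  · show Q.br (1 - m) + Q.br (1 + m) = Q.br 1 * _
    rw [show (1 : ℤ) - m = -(m - 1) by ring, show (1 : ℤ) + m = m + 1 by ring, br_neg, br_one]
    linear_combination br_diff Q m

theorem id2 (r m : ℤ) : Q.br (r - m) * Q.br (m + 1) + Q.br (r + m) * Q.br (m - 1)
    = Q.br (r - 1) * (Q.br m * (Q.qp m + Q.qp (-m))) := by
  refine rec_unique Q.two (fun r => Q.br (r - m) * Q.br (m + 1) + Q.br (r + m) * Q.br (m - 1))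
    (fun r => Q.br (r - 1) * (Q.br m * (Q.qp m + Q.qp (-m)))) ?_ ?_ ?_ ?_ r
  · intro r
    have e1 := br_rec Q (r - m)
    have e2 := br_rec Q (r + m)
    show Q.br (r + 1 - m) * Q.br (m + 1) + Q.br (r + 1 + m) * Q.br (m - 1)
      + (Q.br (r - 1 - m) * Q.br (m + 1) + Q.br (r - 1 + m) * Q.br (m - 1))
      = Q.two * (Q.br (r - m) * Q.br (m + 1) + Q.br (r + m) * Q.br (m - 1))
    rw [show r + 1 - m = r - m + 1 by ring, show r + 1 + m = r + m + 1 by ring,
      show r - 1 - m = r - m - 1 by ring, show r - 1 + m = r + m - 1 by ring]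
    linear_combination Q.br (m + 1) * e1 + Q.br (m - 1) * e2
  · intro r
    have e1 := br_rec Q (r - 1)
    show Q.br (r + 1 - 1) * _ + Q.br (r - 1 - 1) * _ = _
    rw [show r + 1 - 1 = r - 1 + 1 by ring]
    linear_combination (Q.br m * (Q.qp m + Q.qp (-m))) * e1
  · show Q.br (0 - m) * Q.br (m + 1) + Q.br (0 + m) * Q.br (m - 1) = Q.br (0 - 1) * _
    rw [zero_sub, zero_add, zero_sub, br_neg, br_neg, br_one]
    linear_combination (-Q.br m) * br_diff Q m
  · show Q.br (1 - m) * Q.br (m + 1) + Q.br (1 + m) * Q.br (m - 1) = Q.br (1 - 1) * _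
    rw [show (1 : ℤ) - m = -(m - 1) by ring, show (1 : ℤ) + m = m + 1 by ring, br_neg, sub_self,
      br_zero]
    ring

/-! ### The operators on the power vectors -/

/-- The vectors `(λ_m^k)_m`. -/
def vv (r k : ℕ) : Nd r → A := fun m => Q.lam m ^ k

/-- `I_1` as an endomorphism. -/
noncomputable def L1 (r : ℕ) : (Nd r → A) →ₗ[A] (Nd r → A) := Matrix.toLinAlgEquiv' (Iw1 Q r)

/-- `I_2` as an endomorphism. -/
noncomputable def L2 (r : ℕ) : (Nd r → A) →ₗ[A] (Nd r → A) := Matrix.toLinAlgEquiv' (Iw2 Q r)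

theorem L1_apply (r : ℕ) (f : ℤ → A) (m : Nd r) :
    L1 Q r (fun m' => f m') m = (if (m : ℤ) = r then 0 else upc Q r m * f (m + 1))
      + (if (m : ℤ) = -r then 0 else dnc Q r m * f (m - 1)) := by
  show (Matrix.toLinAlgEquiv' (Iw1 Q r) (fun m' => f m')) m = _
  rw [Matrix.toLinAlgEquiv'_apply]
  unfold Matrix.mulVec dotProduct
  have hm := m.2
  rw [Finset.mem_Icc] at hm
  have h1 : ∑ m' : Nd r, Iw1 Q r m m' * f m'
      = ∑ m' ∈ Finset.Icc (-(r : ℤ)) r,
        ((if m' = (m : ℤ) + 1 then upc Q r m * f (m + 1) else 0)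
          + (if m' = (m : ℤ) - 1 then dnc Q r m * f (m - 1) else 0)) := by
    rw [← Finset.sum_coe_sort (Finset.Icc (-(r : ℤ)) r)]
    refine Finset.sum_congr rfl fun m' _ => ?_
    unfold Iw1
    by_cases ha : (m' : ℤ) = m + 1
    · have hb : ¬ (m' : ℤ) = m - 1 := by omega
      rw [if_pos ha, if_pos ha, if_neg hb, ha, add_zero]
    · by_cases hb : (m' : ℤ) = m - 1
      · rw [if_neg ha, if_pos hb, if_neg ha, if_pos hb, hb, zero_add]
      · rw [if_neg ha, if_neg hb, if_neg ha, if_neg hb, zero_mul, add_zero]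
  rw [h1, Finset.sum_add_distrib, Finset.sum_ite_eq', Finset.sum_ite_eq']
  congr 1
  · by_cases h : (m : ℤ) = r
    · rw [if_neg (by rw [Finset.mem_Icc]; omega), if_pos h]
    · rw [if_pos (by rw [Finset.mem_Icc]; omega), if_neg h]
  · by_cases h : (m : ℤ) = -r
    · rw [if_neg (by rw [Finset.mem_Icc]; omega), if_pos h]
    · rw [if_pos (by rw [Finset.mem_Icc]; omega), if_neg h]

theorem L2_vv (r k : ℕ) : L2 Q r (vv Q r k) = vv Q r (k + 1) := by
  show Matrix.toLinAlgEquiv' (Iw2 Q r) (vv Q r k) = _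
  rw [Matrix.toLinAlgEquiv'_apply]
  unfold Iw2 vv
  funext m
  rw [Matrix.mulVec_diagonal, pow_succ']

/-- `{m}` is a unit for `|m| < r`. -/
theorem unit_mid {r : ℕ} (hg : Q.Gen r) {m : ℤ} (h1 : -(r : ℤ) < m) (h2 : m < r) :
    IsUnit (Q.qp m + Q.qp (-m)) := by
  have h := hg (m + 1) (by rw [Finset.mem_Icc]; omega) (m - 1) (by rw [Finset.mem_Icc]; omega)
    (by omega)
  rw [lam_diff] at h
  exact isUnit_of_mul_isUnit_right h

theorem L1_v0 {r : ℕ} (hg : Q.Gen r) : L1 Q r (vv Q r 0) = Q.lam r • vv Q r 0 := by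
  funext m
  have hm := m.2
  rw [Finset.mem_Icc] at hm
  have e : vv Q r 0 = fun m' : Nd r => (fun _ : ℤ => (1 : A)) m' := by
    funext m'
    exact pow_zero _
  rw [e]
  refine (L1_apply Q r (fun _ => (1 : A)) m).trans ?_
  show _ = Q.lam r * 1
  by_cases h1 : (m : ℤ) = r
  · by_cases h2 : (m : ℤ) = -r
    · have hr : (r : ℤ) = 0 := by omega
      rw [if_pos h1, if_pos h2, hr]
      unfold QP.lam
      rw [br_zero]
      ring
    · rw [if_pos h1, if_neg h2]
      unfold dnc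
      rw [if_pos h1]
      ring
  · by_cases h2 : (m : ℤ) = -r
    · rw [if_neg h1, if_pos h2]
      unfold upc
      rw [if_pos h2]
      ring
    · rw [if_neg h1, if_neg h2]
      unfold upc dnc
      rw [if_neg h2, if_neg h1, if_neg h1, if_neg h2]
      have hu := unit_mid Q hg (m := m) (by omega) (by omega)
      have h3 := Ring.mul_inverse_cancel _ hu
      have h4 := id1 Q r m
      unfold QP.lam
      linear_combination (Q.i * Ring.inverse (Q.qp m + Q.qp (-m))) * h4 + (Q.i * Q.br r) * h3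

theorem L1_v1 {r : ℕ} (hg : Q.Gen r) : L1 Q r (vv Q r 1) = Q.lam (r - 1) • vv Q r 1 := by
  funext m
  have hm := m.2
  rw [Finset.mem_Icc] at hm
  have e : vv Q r 1 = fun m' : Nd r => (fun k : ℤ => Q.lam k) m' := by
    funext m'
    exact pow_one _
  have e2 : (Q.lam (r - 1) • vv Q r 1) m = Q.lam (r - 1) * Q.lam m := by
    rw [e]
    rfl
  rw [e2, e]
  refine (L1_apply Q r (fun k => Q.lam k) m).trans ?_
  by_cases h1 : (m : ℤ) = r
  · by_cases h2 : (m : ℤ) = -r
    · have hr : (r : ℤ) = 0 := by omega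
      rw [if_pos h1, if_pos h2, h1, hr]
      unfold QP.lam
      rw [br_zero]
      ring
    · rw [if_pos h1, if_neg h2]
      unfold dnc
      rw [if_pos h1, h1]
      ring
  · by_cases h2 : (m : ℤ) = -r
    · rw [if_neg h1, if_pos h2]
      unfold upc
      rw [if_pos h2, h2, show (-(r : ℤ) + 1) = -((r : ℤ) - 1) by ring]
      unfold QP.lam
      rw [br_neg, br_neg]
      ring
    · rw [if_neg h1, if_neg h2]
      unfold upc dnc
      rw [if_neg h2, if_neg h1, if_neg h1, if_neg h2]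
      have hu := unit_mid Q hg (m := m) (by omega) (by omega)
      have h3 := Ring.mul_inverse_cancel _ hu
      have h4 := id2 Q r m
      unfold QP.lam
      linear_combination (Q.i * Q.i * Ring.inverse (Q.qp m + Q.qp (-m))) * h4
        + (Q.i * Q.i * Q.br (r - 1) * Q.br m) * h3

/-- The span of the first `k` power vectors. -/
def VV (r k : ℕ) : Submodule A (Nd r → A) := Submodule.span A (vv Q r '' Set.Iio k)

theorem vv_mem {r j k : ℕ} (h : j < k) : vv Q r j ∈ VV Q r k :=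
  Submodule.subset_span ⟨j, h, rfl⟩

theorem VV_mono {r j k : ℕ} (h : j ≤ k) : VV Q r j ≤ VV Q r k :=
  Submodule.span_mono (Set.image_mono (Set.Iio_subset_Iio h))

theorem L2_mem {r k : ℕ} {w : Nd r → A} (hw : w ∈ VV Q r k) : L2 Q r w ∈ VV Q r (k + 1) := by
  have h : VV Q r k ≤ (VV Q r (k + 1)).comap (L2 Q r) := by
    refine Submodule.span_le.2 ?_
    rintro _ ⟨j, hj, rfl⟩
    show L2 Q r (vv Q r j) ∈ VV Q r (k + 1)
    rw [L2_vv]
    exact vv_mem Q (Nat.succ_lt_succ hj)
  exact h hw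

theorem VV_succ {r k : ℕ} {w : Nd r → A} (hw : w ∈ VV Q r (k + 1)) :
    ∃ a : A, ∃ w' ∈ VV Q r k, w = a • vv Q r k + w' := by
  have e : vv Q r '' Set.Iio (k + 1) = insert (vv Q r k) (vv Q r '' Set.Iio k) := by
    rw [← Set.image_insert_eq]
    congr 1
    ext j
    simp only [Set.mem_Iio, Set.mem_insert_iff]
    omega
  unfold VV at hw
  rw [e, Submodule.mem_span_insert] at hw
  obtain ⟨a, z, hz, h⟩ := hw
  exact ⟨a, z, hz, h⟩

variable {Q}

theorem main_step {r : ℕ} (hg : Q.Gen r)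
    (hrel : ∀ v, L2 Q r (L2 Q r (L1 Q r v)) - Q.two • L2 Q r (L1 Q r (L2 Q r v))
      + L1 Q r (L2 Q r (L2 Q r v)) = -L1 Q r v) (k : ℕ) :
    L1 Q r (vv Q r k) - Q.lam (r - k) • vv Q r k ∈ VV Q r k := by
  have key : ∀ k : ℕ, (L1 Q r (vv Q r k) - Q.lam (r - k) • vv Q r k ∈ VV Q r k) ∧
      (L1 Q r (vv Q r (k + 1)) - Q.lam (r - (k + 1 : ℕ)) • vv Q r (k + 1) ∈ VV Q r (k + 1)) := by
    intro k
    induction k with
    | zero =>
      refine ⟨?_, ?_⟩
      · rw [L1_v0 Q hg, Nat.cast_zero, sub_zero, sub_self]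
        exact zero_mem _
      · rw [zero_add, L1_v1 Q hg, Nat.cast_one, sub_self]
        exact zero_mem _
    | succ k ih =>
      refine ⟨ih.2, ?_⟩
      obtain ⟨h1, h2⟩ := ih
      set w := L1 Q r (vv Q r k) - Q.lam (r - k) • vv Q r k with hw
      set w' := L1 Q r (vv Q r (k + 1)) - Q.lam (r - (k + 1 : ℕ)) • vv Q r (k + 1) with hw'
      have e1 : L1 Q r (vv Q r k) = Q.lam (r - k) • vv Q r k + w := by
        rw [hw]
        abel
      have e2 : L1 Q r (vv Q r (k + 1)) = Q.lam (r - (k + 1 : ℕ)) • vv Q r (k + 1) + w' := by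
        rw [hw']
        abel
      have h3 := hrel (vv Q r k)
      rw [L2_vv, L2_vv, e2, e1, map_add, map_add, map_add, map_smul, map_smul, map_smul, L2_vv,
        L2_vv] at h3
      have e3 : L1 Q r (vv Q r (k + 1 + 1))
          = Q.two • (Q.lam (r - (k + 1 : ℕ)) • vv Q r (k + 1 + 1) + L2 Q r w')
            - (Q.lam (r - k) • vv Q r (k + 1 + 1) + L2 Q r (L2 Q r w))
            - (Q.lam (r - k) • vv Q r k + w) := by
        have h4 : L1 Q r (vv Q r (k + 1 + 1))
            = -(Q.lam (r - k) • vv Q r k + w)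
              - ((Q.lam (r - k) • vv Q r (k + 1 + 1) + L2 Q r (L2 Q r w))
              - Q.two • (Q.lam (r - (k + 1 : ℕ)) • vv Q r (k + 1 + 1) + L2 Q r w')) := by
          rw [← h3]
          abel
        rw [h4]
        abel
      have e4 : Q.lam (r - (k + 1 + 1 : ℕ)) = Q.two * Q.lam (r - (k + 1 : ℕ)) - Q.lam (r - k) := by
        have h5 := br_rec Q (r - (k + 1 : ℕ))
        unfold QP.lam
        have a1 : (r : ℤ) - ((k + 1 : ℕ) : ℤ) + 1 = r - k := by
          push_cast
          ring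
        have a2 : (r : ℤ) - ((k + 1 : ℕ) : ℤ) - 1 = r - ((k + 1 + 1 : ℕ) : ℤ) := by
          push_cast
          ring
        rw [a1, a2] at h5
        linear_combination (Q.i : A) * h5
      have e5 : L1 Q r (vv Q r (k + 1 + 1)) - Q.lam (r - (k + 1 + 1 : ℕ)) • vv Q r (k + 1 + 1)
          = Q.two • L2 Q r w' - L2 Q r (L2 Q r w) - (Q.lam (r - k) • vv Q r k + w) := by
        rw [e3, e4, sub_smul, smul_add, mul_smul]
        abel
      rw [e5]
      refine sub_mem (sub_mem (Submodule.smul_mem _ _ (L2_mem Q h2)) (L2_mem Q (L2_mem Q h1)))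
        (add_mem (Submodule.smul_mem _ _ (vv_mem Q (by omega))) (VV_mono Q (by omega) h1))
  exact (key k).1

theorem L1_mem {r : ℕ} (hs : ∀ k : ℕ, L1 Q r (vv Q r k) - Q.lam (r - k) • vv Q r k ∈ VV Q r k)
    (k : ℕ) : ∀ w ∈ VV Q r k, L1 Q r w ∈ VV Q r k := by
  intro w hw
  have h : VV Q r k ≤ (VV Q r k).comap (L1 Q r) := by
    refine Submodule.span_le.2 ?_
    rintro _ ⟨j, hj, rfl⟩
    show L1 Q r (vv Q r j) ∈ VV Q r k
    have e : L1 Q r (vv Q r j)
        = (L1 Q r (vv Q r j) - Q.lam (r - j) • vv Q r j) + Q.lam (r - j) • vv Q r j := by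
      rw [sub_add_cancel]
    rw [e]
    exact add_mem (VV_mono Q (le_of_lt hj) (hs j)) (Submodule.smul_mem _ _ (vv_mem Q hj))
  exact h hw

theorem kill {r : ℕ} (hs : ∀ k : ℕ, L1 Q r (vv Q r k) - Q.lam (r - k) • vv Q r k ∈ VV Q r k)
    (n : ℕ) : ∀ w ∈ VV Q r n,
    aeval (L1 Q r) (∏ k ∈ Finset.range n, (X - C (Q.lam (r - k)))) w = 0 := by
  induction n with
  | zero =>
    intro w hw
    have e : VV Q r 0 = ⊥ := by
      unfold VV
      have : Set.Iio 0 = (∅ : Set ℕ) := by
        ext j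
        simp
      rw [this, Set.image_empty, Submodule.span_empty]
    rw [e, Submodule.mem_bot] at hw
    rw [hw, map_zero]
  | succ n ih =>
    intro w hw
    rw [Finset.prod_range_succ, map_mul, Module.End.mul_apply]
    refine ih _ ?_
    rw [map_sub, aeval_X, aeval_C, LinearMap.sub_apply, Module.algebraMap_end_apply]
    obtain ⟨a, w', hw', rfl⟩ := VV_succ Q hw
    have e : L1 Q r (a • vv Q r n + w') - Q.lam (r - n) • (a • vv Q r n + w')
        = a • (L1 Q r (vv Q r n) - Q.lam (r - n) • vv Q r n)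
          + (L1 Q r w' - Q.lam (r - n) • w') := by
      rw [map_add, map_smul, smul_add, smul_sub, smul_comm (Q.lam (r - n)) a]
      abel
    rw [e]
    exact add_mem (Submodule.smul_mem _ _ (hs n))
      (sub_mem (L1_mem hs n w' hw') (Submodule.smul_mem _ _ hw'))

/-- The power vectors span everything. -/
theorem VV_top {r : ℕ} (hg : Q.Gen r) (f : Nd r → A) : f ∈ VV Q r (2 * r + 1) := by
  classical
  set g : ℤ → A := fun m => if h : m ∈ Finset.Icc (-(r : ℤ)) r then f ⟨m, h⟩ else 0 with hgdef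
  have hint := (fc A Q r hg).1 g
  have hdeg : (Q.interp r g).natDegree < 2 * r + 1 := by
    refine Nat.lt_succ_of_le ?_
    unfold QP.interp
    refine natDegree_sum_le_of_forall_le _ _ fun m hm => ?_
    refine (natDegree_C_mul_le _ _).trans ?_
    unfold QP.basis
    refine (natDegree_prod_le _ _).trans ?_
    have h1 : ∀ m' ∈ (Finset.Icc (-(r : ℤ)) r).erase m,
        (C (Ring.inverse (Q.lam m - Q.lam m')) * (X - C (Q.lam m'))).natDegree ≤ 1 :=
      fun m' _ => (natDegree_C_mul_le _ _).trans (natDegree_X_sub_C_le _)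
    refine (Finset.sum_le_card_nsmul _ _ 1 h1).trans ?_
    rw [Finset.card_erase_of_mem hm, Int.card_Icc, smul_eq_mul, mul_one]
    omega
  have e : f = ∑ k ∈ Finset.range (2 * r + 1), (Q.interp r g).coeff k • vv Q r k := by
    funext m
    have h1 := hint m m.2
    rw [eval_eq_sum_range' hdeg] at h1
    have h2 : g m = f m := by
      rw [hgdef]
      show (if h : (m : ℤ) ∈ Finset.Icc (-(r : ℤ)) r then f ⟨m, h⟩ else 0) = f m
      rw [dif_pos m.2]
    rw [← h2, ← h1, Finset.sum_apply]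
    rfl
  rw [e]
  exact Submodule.sum_mem _ fun k hk =>
    Submodule.smul_mem _ _ (vv_mem Q (Finset.mem_range.1 hk))

theorem pol_eq (Q : QP A) (r : ℕ) :
    Q.pol r = ∏ k ∈ Finset.range (2 * r + 1), (X - C (Q.lam ((r : ℤ) - k))) := by
  unfold QP.pol
  symm
  refine Finset.prod_bij (fun (k : ℕ) _ => (r : ℤ) - k) ?_ ?_ ?_ ?_
  · intro k hk
    rw [Finset.mem_range] at hk
    rw [Finset.mem_Icc]
    omega
  · intro k hk k' hk' h
    omega
  · intro m hm
    rw [Finset.mem_Icc] at hm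
    refine ⟨(r - m).toNat, ?_, ?_⟩
    · rw [Finset.mem_range]
      omega
    · omega
  · intro k hk
    rfl

end WPOL

open WPOL in
theorem wpol (h : WREL_Stmt) : WPOL_Stmt := by
  intro A _ Q r hg
  obtain ⟨-, hrel, -, -⟩ := h A Q r hg
  have hrel' : ∀ v, L2 Q r (L2 Q r (L1 Q r v)) - Q.two • L2 Q r (L1 Q r (L2 Q r v))
      + L1 Q r (L2 Q r (L2 Q r v)) = -L1 Q r v := by
    intro v
    have h1 := congrArg (Matrix.toLinAlgEquiv' : _ ≃ₐ[A] _) hrel
    rw [map_add, map_sub, map_smul, map_mul, map_mul, map_mul, map_mul, map_mul, map_mul,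
      map_neg] at h1
    exact congrArg (fun T : (Nd r → A) →ₗ[A] (Nd r → A) => T v) h1
  have hs := main_step hg hrel'
  have h2 : aeval (L1 Q r) (Q.pol r) = 0 := by
    rw [pol_eq]
    refine LinearMap.ext fun w => ?_
    exact kill hs (2 * r + 1) w (VV_top hg w)
  have h3 : Matrix.toLinAlgEquiv' (aeval (Iw1 Q r) (Q.pol r)) = aeval (L1 Q r) (Q.pol r) := by
    unfold L1
    exact (aeval_algHom_apply (Matrix.toLinAlgEquiv' : _ ≃ₐ[A] _).toAlgHom (Iw1 Q r)
      (Q.pol r)).symm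
  rw [h2] at h3
  exact (map_eq_zero_iff _ (Matrix.toLinAlgEquiv' : _ ≃ₐ[A] _).injective).1 h3

end Pool.Agent.T3
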