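import Pool.Agent.T3.Stmts
import Pool.Agent.TB.Brk

/-!
Module T3_WREL: the relations of `U'_q(so_3)` in the modules `W_r`.
-/

open Polynomial
open scoped BigOperators

namespace Pool.Agent.T3

open Pool.Agent.TB

namespace WREL

variable {A : Type} [CommRing A] (Q : QP A)

/-- The entries of `I_1`, with integers as indices. -/
noncomputable def Iz (r : ℕ) (m m' : ℤ) : A :=
  if m' = m + 1 then upc Q r m else if m' = m - 1 then dnc Q r m else 0

theorem Iw1_apply (r : ℕ) (m m' : Nd r) : Iw1 Q r m m' = Iz Q r m m' := rfl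

theorem Iz_succ (r : ℕ) (m : ℤ) : Iz Q r m (m + 1) = upc Q r m := by
  rw [Iz, if_pos rfl]

theorem Iz_pred (r : ℕ) (m : ℤ) : Iz Q r m (m - 1) = dnc Q r m := by
  rw [Iz, if_neg (by omega), if_pos rfl]

theorem Iz_zero (r : ℕ) {m m' : ℤ} (h1 : m' ≠ m + 1) (h2 : m' ≠ m - 1) : Iz Q r m m' = 0 := by
  rw [Iz, if_neg h1, if_neg h2]

/-- `2 λ_m - [2] λ_(m+1) = -i {m+1}` -/
theorem lam_up (m : ℤ) : 2 * Q.lam m - Q.two * Q.lam (m + 1) =
    -(Q.i * (Q.qp (m + 1) + Q.qp (-(m + 1)))) := by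
  obtain ⟨_, _, _, b1, b2, b3, _, _, _, _⟩ := brk A Q
  have h1 := b3 (m + 1)
  rw [add_sub_cancel_right] at h1
  have h2 := b1 (m + 1)
  have h3 := b2 (m + 1)
  have h4 : Q.two = Q.qp 1 + Q.qp (-1) := rfl
  unfold QP.lam
  rw [h4] at h1 ⊢
  linear_combination (2 * (Q.i : A)) * h1 - (Q.i : A) * h2 - (Q.i : A) * h3

/-- `2 λ_m - [2] λ_(m-1) = i {m-1}` -/
theorem lam_down (m : ℤ) : 2 * Q.lam m - Q.two * Q.lam (m - 1) =
    Q.i * (Q.qp (m - 1) + Q.qp (-(m - 1))) := by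
  obtain ⟨_, _, _, b1, b2, _, _, _, _, _⟩ := brk A Q
  have h2 := b1 (m - 1)
  have h3 := b2 (m - 1)
  rw [sub_add_cancel] at h2 h3
  have h4 : Q.two = Q.qp 1 + Q.qp (-1) := rfl
  unfold QP.lam
  rw [h4]
  linear_combination (Q.i : A) * h2 + (Q.i : A) * h3

theorem lam_step (m : ℤ) : Q.lam (m + 1) + Q.lam (m - 1) = Q.two * Q.lam m := by
  obtain ⟨_, _, _, _, _, b3, _, _, _, _⟩ := brk A Q
  unfold QP.lam
  linear_combination (Q.i : A) * b3 m

/-- `[a+b] = q^a [b] + q^(-b) [a]` -/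
theorem br_add (a b : ℤ) : Q.br (a + b) = Q.qp a * Q.br b + Q.qp (-b) * Q.br a := by
  induction a using Int.induction_on with
  | zero => rw [zero_add, BRK.qp_zero, BRK.br_zero, one_mul, mul_zero, add_zero]
  | succ n ih =>
    have h1 := BRK.step1 Q ((n : ℤ) + b)
    have h2 := BRK.step1 Q (n : ℤ)
    have h3 := BRK.qp_add Q (n : ℤ) 1
    have h4 := BRK.qp_add Q (-b) (-(n : ℤ))
    have e1 : (n : ℤ) + 1 + b = n + b + 1 := by ring
    have e2 : -((n : ℤ) + b) = -b + -(n : ℤ) := by ring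
    rw [e1, h1, e2, h4, ih, h3, h2]
    ring
  | pred n ih =>
    have h1 := BRK.step1 Q (-(n : ℤ) - 1 + b)
    have h2 := BRK.step1 Q (-(n : ℤ) - 1)
    have h3 := BRK.qp_add Q (-(n : ℤ) - 1) 1
    have h4 := BRK.qp_add Q (-b) (-(-(n : ℤ) - 1))
    have h5 := BRK.qp_neg Q 1
    have e1 : -(n : ℤ) - 1 + b + 1 = -n + b := by ring
    have e2 : -(-(n : ℤ) - 1 + b) = -b + -(-(n : ℤ) - 1) := by ring
    rw [e1, e2, h4, ih] at h1
    rw [sub_add_cancel] at h2 h3
    rw [h2, h3] at h1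
    linear_combination (-Q.qp (-1)) * h1 + (-Q.br (-(n : ℤ) - 1 + b) +
      Q.qp (-(n : ℤ) - 1) * Q.br b + Q.qp (-b) * Q.br (-(n : ℤ) - 1)) * h5

/-- `[m]{m} = [2m]` -/
theorem br_two (m : ℤ) : Q.br m * (Q.qp m + Q.qp (-m)) = Q.br (2 * m) := by
  rw [two_mul, br_add]
  ring

/-- `{m}` is a unit for `|m| < r` -/
theorem unit_cu {r : ℕ} (hr : Q.Gen r) {m : ℤ} (h1 : -(r : ℤ) < m) (h2 : m < r) :
    IsUnit (Q.qp m + Q.qp (-m)) := by
  obtain ⟨_, _, _, _, _, _, _, _, b4, _⟩ := brk A Q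
  have h := hr (m + 1) (Finset.mem_Icc.2 ⟨by omega, by omega⟩) (m - 1)
    (Finset.mem_Icc.2 ⟨by omega, by omega⟩) (by omega)
  rw [b4] at h
  exact isUnit_of_mul_isUnit_right h

theorem up_mul {r : ℕ} (hr : Q.Gen r) {m : ℤ} (h1 : -(r : ℤ) ≤ m) (h2 : m < r) :
    upc Q r m * (Q.qp m + Q.qp (-m)) = Q.i * Q.br (r - m) := by
  unfold upc
  by_cases h : m = -(r : ℤ)
  · rw [if_pos h, h]
    have h3 := br_two Q r
    unfold QP.lam
    rw [neg_neg, mul_assoc, add_comm (Q.qp (-(r : ℤ))), h3]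
    congr 2
    ring
  · rw [if_neg h, if_neg (by omega), mul_assoc,
      Ring.inverse_mul_cancel _ (unit_cu Q hr (by omega) h2), mul_one]

theorem dn_mul {r : ℕ} (hr : Q.Gen r) {m : ℤ} (h1 : -(r : ℤ) < m) (h2 : m ≤ r) :
    dnc Q r m * (Q.qp m + Q.qp (-m)) = Q.i * Q.br (r + m) := by
  unfold dnc
  by_cases h : m = (r : ℤ)
  · rw [if_pos h, h]
    have h3 := br_two Q r
    unfold QP.lam
    rw [mul_assoc, h3]
    congr 2
    ring
  · rw [if_neg h, if_neg (by omega), mul_assoc,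
      Ring.inverse_mul_cancel _ (unit_cu Q hr h1 (by omega)), mul_one]

/-- `[r+m][r-m+1] - [r-m][r+m+1] = [2m]` -/
theorem br_quad (r m : ℤ) : Q.br (r + m) * Q.br (r - m + 1) - Q.br (r - m) * Q.br (r + m + 1) =
    Q.br (2 * m) := by
  have h1 := BRK.step1 Q (r + m)
  have h2 := BRK.step1 Q (r - m)
  have h3 := br_add Q (-(r - m)) (r + m)
  rw [BRK.br_neg] at h3
  have e1 : -(r - m) + (r + m) = 2 * m := by ring
  rw [e1] at h3
  rw [h1, h2, h3]
  ring

/-- The two steps from `m` and back. -/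
theorem diag_sum {r : ℕ} (hr : Q.Gen r) {m : ℤ} (h1 : -(r : ℤ) ≤ m) (h2 : m ≤ r) :
    (if m < r then upc Q r m * dnc Q r (m + 1) * (2 * Q.lam m - Q.two * Q.lam (m + 1)) else 0) +
      (if -(r : ℤ) < m then dnc Q r m * upc Q r (m - 1) *
        (2 * Q.lam m - Q.two * Q.lam (m - 1)) else 0) = -Q.lam m := by
  have hi := Q.hi
  have t1 : (if m < r then upc Q r m * dnc Q r (m + 1) * (2 * Q.lam m - Q.two * Q.lam (m + 1))
      else 0) = if m < r then upc Q r m * Q.br (r + m + 1) else 0 := by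
    by_cases h : m < r
    · rw [if_pos h, if_pos h, lam_up]
      have h3 := dn_mul Q hr (m := m + 1) (by omega) (by omega)
      have e : (r : ℤ) + (m + 1) = r + m + 1 := by ring
      rw [e] at h3
      linear_combination (-(upc Q r m * Q.i)) * h3 - (upc Q r m * Q.br (r + m + 1)) * hi
    · rw [if_neg h, if_neg h]
  have t2 : (if -(r : ℤ) < m then dnc Q r m * upc Q r (m - 1) *
      (2 * Q.lam m - Q.two * Q.lam (m - 1)) else 0) =
      if -(r : ℤ) < m then -(dnc Q r m * Q.br (r - m + 1)) else 0 := by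
    by_cases h : -(r : ℤ) < m
    · rw [if_pos h, if_pos h, lam_down]
      have h3 := up_mul Q hr (m := m - 1) (by omega) (by omega)
      have e : (r : ℤ) - (m - 1) = r - m + 1 := by ring
      rw [e] at h3
      linear_combination (dnc Q r m * Q.i) * h3 + (dnc Q r m * Q.br (r - m + 1)) * hi
    · rw [if_neg h, if_neg h]
  have hb1 : Q.br 1 = 1 := (brk A Q).2.1
  rw [t1, t2]
  by_cases h3 : m < r
  · by_cases h4 : -(r : ℤ) < m
    · rw [if_pos h3, if_pos h4]
      have hu := unit_cu Q hr h4 h3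
      apply hu.mul_right_cancel
      have h5 := up_mul Q hr h1 h3
      have h6 := dn_mul Q hr h4 h2
      have h7 := br_quad Q r m
      have h8 := br_two Q m
      unfold QP.lam
      linear_combination (Q.br (r + m + 1)) * h5 - (Q.br (r - m + 1)) * h6 - (Q.i : A) * h7 +
        (Q.i : A) * h8
    · have hm : m = -(r : ℤ) := by omega
      rw [if_pos h3, if_neg h4, hm]
      have e : (r : ℤ) + -(r : ℤ) + 1 = 1 := by ring
      have h5 : upc Q r (-(r : ℤ)) = Q.lam r := by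
        unfold upc
        rw [if_pos rfl]
      rw [e, hb1, h5]
      unfold QP.lam
      rw [BRK.br_neg]
      ring
  · have hm : m = (r : ℤ) := by omega
    by_cases h4 : -(r : ℤ) < m
    · rw [if_neg h3, if_pos h4, hm]
      have e : (r : ℤ) - (r : ℤ) + 1 = 1 := by ring
      have h5 : dnc Q r (r : ℤ) = Q.lam r := by
        unfold dnc
        rw [if_pos rfl]
      rw [e, hb1, h5]
      ring
    · have h0 : m = 0 := by omega
      rw [if_neg h3, if_neg h4, h0]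
      unfold QP.lam
      rw [BRK.br_zero]
      ring

/-- The sum over the nodes. -/
theorem sum_nd (r : ℕ) (F : ℤ → A) (m : ℤ) (h1 : -(r : ℤ) ≤ m) (h2 : m ≤ r)
    (hF : ∀ k, k ≠ m + 1 → k ≠ m - 1 → F k = 0) :
    ∑ k : Nd r, F k = (if m < r then F (m + 1) else 0) + if -(r : ℤ) < m then F (m - 1) else 0 := by
  have e1 : ∑ k : Nd r, F k = ∑ k ∈ Finset.Icc (-(r : ℤ)) r, F k :=
    Finset.sum_coe_sort (Finset.Icc (-(r : ℤ)) r) F
  have e2 : ∀ k, F k = (if k = m + 1 then F (m + 1) else 0) + if k = m - 1 then F (m - 1) else 0 := by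
    intro k
    by_cases h3 : k = m + 1
    · rw [if_pos h3, if_neg (by omega), h3, add_zero]
    · by_cases h4 : k = m - 1
      · rw [if_neg h3, if_pos h4, h4, zero_add]
      · rw [if_neg h3, if_neg h4, hF k h3 h4, add_zero]
  rw [e1, Finset.sum_congr rfl fun k _ => e2 k, Finset.sum_add_distrib, Finset.sum_ite_eq',
    Finset.sum_ite_eq']
  congr 1
  · by_cases h : m < r
    · rw [if_pos h, if_pos (Finset.mem_Icc.2 ⟨by omega, by omega⟩)]
    · rw [if_neg h, if_neg (by rw [Finset.mem_Icc]; omega)]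
  · by_cases h : -(r : ℤ) < m
    · rw [if_pos h, if_pos (Finset.mem_Icc.2 ⟨by omega, by omega⟩)]
    · rw [if_neg h, if_neg (by rw [Finset.mem_Icc]; omega)]

theorem rel1 {r : ℕ} (hr : Q.Gen r) :
    Iw1 Q r * Iw1 Q r * Iw2 Q r - Q.two • (Iw1 Q r * Iw2 Q r * Iw1 Q r) +
      Iw2 Q r * Iw1 Q r * Iw1 Q r = -Iw2 Q r := by
  ext m m'
  have e1 : (Iw1 Q r * Iw1 Q r * Iw2 Q r) m m' =
      ∑ k : Nd r, Iz Q r m k * Iz Q r k m' * Q.lam m' := by
    rw [Iw2, Matrix.mul_diagonal, Matrix.mul_apply, Finset.sum_mul]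
    rfl
  have e2 : (Iw1 Q r * Iw2 Q r * Iw1 Q r) m m' =
      ∑ k : Nd r, Iz Q r m k * Q.lam k * Iz Q r k m' := by
    rw [Matrix.mul_apply]
    refine Finset.sum_congr rfl fun k _ => ?_
    rw [Iw2, Matrix.mul_diagonal]
    rfl
  have e3 : (Iw2 Q r * Iw1 Q r * Iw1 Q r) m m' =
      ∑ k : Nd r, Q.lam m * Iz Q r m k * Iz Q r k m' := by
    rw [Matrix.mul_apply]
    refine Finset.sum_congr rfl fun k _ => ?_
    rw [Iw2, Matrix.diagonal_mul]
    rfl
  have e4 : (Iw1 Q r * Iw1 Q r * Iw2 Q r - Q.two • (Iw1 Q r * Iw2 Q r * Iw1 Q r) +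
      Iw2 Q r * Iw1 Q r * Iw1 Q r) m m' = ∑ k : Nd r, (fun k : ℤ => Iz Q r m k * Iz Q r k m' *
        (Q.lam m' - Q.two * Q.lam k + Q.lam m)) k := by
    rw [Matrix.add_apply, Matrix.sub_apply, Matrix.smul_apply, smul_eq_mul, e1, e2, e3,
      Finset.mul_sum, ← Finset.sum_sub_distrib, ← Finset.sum_add_distrib]
    refine Finset.sum_congr rfl fun k _ => ?_
    ring
  obtain ⟨hm1, hm2⟩ := Finset.mem_Icc.1 m.2
  refine (e4.trans (sum_nd r (fun k : ℤ => Iz Q r m k * Iz Q r k m' *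
    (Q.lam m' - Q.two * Q.lam k + Q.lam m)) m hm1 hm2 fun k h1 h2 => ?_)).trans ?_
  · change Iz Q r m k * _ * _ = 0
    rw [Iz_zero Q r h1 h2]
    ring
  by_cases hmm : m = m'
  · subst hmm
    have h := diag_sum Q hr hm1 hm2
    have h3 : (-Iw2 Q r) m m = -Q.lam m := by
      rw [Matrix.neg_apply, Iw2, Matrix.diagonal_apply_eq]
    rw [h3, ← h]
    congr 1
    · by_cases h4 : (m : ℤ) < r
      · rw [if_pos h4, if_pos h4]
        have h5 : Iz Q r ((m : ℤ) + 1) m = dnc Q r ((m : ℤ) + 1) := by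
          have h6 := Iz_pred Q r ((m : ℤ) + 1)
          rwa [add_sub_cancel_right] at h6
        rw [Iz_succ, h5]
        ring
      · rw [if_neg h4, if_neg h4]
    · by_cases h4 : -(r : ℤ) < m
      · rw [if_pos h4, if_pos h4]
        have h5 : Iz Q r ((m : ℤ) - 1) m = upc Q r ((m : ℤ) - 1) := by
          have h6 := Iz_succ Q r ((m : ℤ) - 1)
          rwa [sub_add_cancel] at h6
        rw [Iz_pred, h5]
        ring
      · rw [if_neg h4, if_neg h4]
  · have hne : (m : ℤ) ≠ m' := fun h => hmm (Subtype.ext h)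
    have h3 : (-Iw2 Q r) m m' = 0 := by
      rw [Matrix.neg_apply, Iw2, Matrix.diagonal_apply_ne _ hmm, neg_zero]
    rw [h3]
    have h4 : Iz Q r m ((m : ℤ) + 1) * Iz Q r ((m : ℤ) + 1) m' *
        (Q.lam m' - Q.two * Q.lam ((m : ℤ) + 1) + Q.lam m) = 0 := by
      by_cases h5 : (m' : ℤ) = m + 1 + 1
      · have h6 := lam_step Q ((m : ℤ) + 1)
        rw [add_sub_cancel_right] at h6
        rw [h5]
        linear_combination (Iz Q r m ((m : ℤ) + 1) * Iz Q r ((m : ℤ) + 1) ((m : ℤ) + 1 + 1)) * h6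
      · rw [Iz_zero Q r (m := (m : ℤ) + 1) (m' := m') h5 (by omega)]
        ring
    have h4' : Iz Q r m ((m : ℤ) - 1) * Iz Q r ((m : ℤ) - 1) m' *
        (Q.lam m' - Q.two * Q.lam ((m : ℤ) - 1) + Q.lam m) = 0 := by
      by_cases h5 : (m' : ℤ) = m - 1 - 1
      · have h6 := lam_step Q ((m : ℤ) - 1)
        rw [sub_add_cancel] at h6
        rw [h5]
        linear_combination (Iz Q r m ((m : ℤ) - 1) * Iz Q r ((m : ℤ) - 1) ((m : ℤ) - 1 - 1)) * h6
      · rw [Iz_zero Q r (m := (m : ℤ) - 1) (m' := m') (by omega) h5]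
        ring
    change (if (m : ℤ) < r then Iz Q r m ((m : ℤ) + 1) * Iz Q r ((m : ℤ) + 1) m' *
        (Q.lam m' - Q.two * Q.lam ((m : ℤ) + 1) + Q.lam m) else 0) +
      (if -(r : ℤ) < m then Iz Q r m ((m : ℤ) - 1) * Iz Q r ((m : ℤ) - 1) m' *
        (Q.lam m' - Q.two * Q.lam ((m : ℤ) - 1) + Q.lam m) else 0) = 0
    rw [h4, h4']
    simp

theorem rel2 (r : ℕ) :
    Iw2 Q r * Iw2 Q r * Iw1 Q r - Q.two • (Iw2 Q r * Iw1 Q r * Iw2 Q r) +
      Iw1 Q r * Iw2 Q r * Iw2 Q r = -Iw1 Q r := by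
  ext m m'
  have e4 : (Iw2 Q r * Iw2 Q r * Iw1 Q r - Q.two • (Iw2 Q r * Iw1 Q r * Iw2 Q r) +
      Iw1 Q r * Iw2 Q r * Iw2 Q r) m m' =
      Iz Q r m m' * (Q.lam m ^ 2 - Q.two * Q.lam m * Q.lam m' + Q.lam m' ^ 2) := by
    rw [Matrix.add_apply, Matrix.sub_apply, Matrix.smul_apply, smul_eq_mul, Iw2,
      Matrix.diagonal_mul_diagonal, Matrix.diagonal_mul, Matrix.mul_diagonal,
      Matrix.diagonal_mul, Matrix.mul_diagonal, Matrix.mul_diagonal, Iw1_apply]
    ring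
  rw [e4, Matrix.neg_apply, Iw1_apply]
  have h := (brk A Q).2.2.2.2.2.2.2.2.2 m m'
  by_cases h1 : (m' : ℤ) = m + 1
  · have e : (m : ℤ) = m' - 1 := by omega
    rw [← e, sub_self, mul_zero] at h
    linear_combination (Iz Q r m m') * h
  · by_cases h2 : (m' : ℤ) = m - 1
    · have e : (m : ℤ) = m' + 1 := by omega
      rw [← e, sub_self, zero_mul] at h
      linear_combination (Iz Q r m m') * h
    · rw [Iz_zero Q r h1 h2]
      ring

theorem aeval_diag (r : ℕ) (P : A[X]) :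
    aeval (Iw2 Q r) P = Matrix.diagonal fun m : Nd r => P.eval (Q.lam m) := by
  induction P using Polynomial.induction_on' with
  | add p q hp hq =>
    rw [map_add, hp, hq, Matrix.diagonal_add]
    congr 1
    funext m
    rw [eval_add]
  | monomial n a =>
    rw [aeval_monomial, Iw2, Matrix.diagonal_pow, Algebra.algebraMap_eq_smul_one, smul_mul_assoc,
      one_mul]
    ext i j
    by_cases hij : i = j
    · subst hij
      rw [Matrix.smul_apply, Matrix.diagonal_apply_eq, Matrix.diagonal_apply_eq, smul_eq_mul,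
        eval_monomial]
      rfl
    · rw [Matrix.smul_apply, Matrix.diagonal_apply_ne _ hij, Matrix.diagonal_apply_ne _ hij,
        smul_zero]

end WREL

open WREL in
theorem wrel : WREL_Stmt := by
  intro A _ Q r hr
  refine ⟨rel1 Q hr, rel2 Q r, ?_, aeval_diag Q r⟩
  rw [aeval_diag]
  ext i j
  by_cases hij : i = j
  · subst hij
    rw [Matrix.diagonal_apply_eq, Matrix.zero_apply]
    unfold QP.pol
    rw [eval_prod]
    apply Finset.prod_eq_zero i.2
    rw [eval_sub, eval_X, eval_C, sub_self]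
  · rw [Matrix.diagonal_apply_ne _ hij, Matrix.zero_apply]

end Pool.Agent.T3
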