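import Pool.Agent.T3.Stmts
import Pool.Agent.LibH11.Vanish

/-!
YFT: the coefficients of the weighted trace are of finite type.
-/

open Polynomial
open scoped BigOperators Real

namespace Pool.Agent.T3

open Pool.Agent.TB Pool.Agent.LibH11

namespace YFT

section Op

variable {A L : Type} [CommRing A] [Fintype L] [DecidableEq L] {n : ℕ}

/-- replace the labels of the strands `i`, `i + 1` -/
def upd (i : Fin n) (s : Fin (n + 1) → L) (p : L × L) : Fin (n + 1) → L :=
  Function.update (Function.update s i.castSucc p.1) i.succ p.2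

theorem ne_cs (i : Fin n) : i.castSucc ≠ i.succ := by
  intro h
  have := congrArg Fin.val h
  simp at this

theorem upd_cast (i : Fin n) (s : Fin (n + 1) → L) (p : L × L) : upd i s p i.castSucc = p.1 := by
  unfold upd
  rw [Function.update_of_ne (ne_cs i), Function.update_self]

theorem upd_succ (i : Fin n) (s : Fin (n + 1) → L) (p : L × L) : upd i s p i.succ = p.2 := by
  unfold upd
  rw [Function.update_self]

theorem upd_ne (i : Fin n) (s : Fin (n + 1) → L) (p : L × L) (j : Fin (n + 1))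
    (h1 : j ≠ i.castSucc) (h2 : j ≠ i.succ) : upd i s p j = s j := by
  unfold upd
  rw [Function.update_of_ne h2, Function.update_of_ne h1]

theorem opm_mul (M N : Matrix (L × L) (L × L) A) (i : Fin n) :
    opm M i * opm N i = opm (M * N) i := by
  ext s t
  rw [Matrix.mul_apply]
  have h1 : ∑ u, opm M i s u * opm N i u t
      = ∑ p : L × L, opm M i s (upd i s p) * opm N i (upd i s p) t := by
    symm
    refine Finset.sum_of_injOn (upd i s) ?_ (fun _ _ => Finset.mem_univ _) ?_ (fun _ _ => rfl)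
    · intro p _ p' _ h
      have e1 := congrFun h i.castSucc
      have e2 := congrFun h i.succ
      rw [upd_cast, upd_cast] at e1
      rw [upd_succ, upd_succ] at e2
      exact Prod.ext e1 e2
    · intro u _ hu
      have : ¬ ∀ j, j ≠ i.castSucc → j ≠ i.succ → s j = u j := by
        intro h
        apply hu
        refine ⟨(u i.castSucc, u i.succ), by simp, ?_⟩
        funext j
        by_cases hj1 : j = i.castSucc
        · subst hj1; rw [upd_cast]
        by_cases hj2 : j = i.succ
        · subst hj2; rw [upd_succ]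
        rw [upd_ne i s _ j hj1 hj2, h j hj1 hj2]
      unfold opm
      rw [if_neg this, zero_mul]
  rw [h1]
  unfold opm
  by_cases hst : ∀ j, j ≠ i.castSucc → j ≠ i.succ → s j = t j
  · rw [if_pos hst, Matrix.mul_apply]
    refine Finset.sum_congr rfl fun p _ => ?_
    have h2 : ∀ j, j ≠ i.castSucc → j ≠ i.succ → s j = upd i s p j := fun j h1 h2 =>
      (upd_ne i s p j h1 h2).symm
    have h3 : ∀ j, j ≠ i.castSucc → j ≠ i.succ → upd i s p j = t j := fun j h1 h2 => by
      rw [upd_ne i s p j h1 h2]; exact hst j h1 h2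
    rw [if_pos h2, if_pos h3, upd_cast, upd_succ]
  · rw [if_neg hst]
    refine Finset.sum_eq_zero fun p _ => ?_
    have h3 : ¬ ∀ j, j ≠ i.castSucc → j ≠ i.succ → upd i s p j = t j := by
      intro h
      apply hst
      intro j h1 h2
      rw [← upd_ne i s p j h1 h2]; exact h j h1 h2
    rw [if_neg h3, mul_zero]

theorem opm_one (i : Fin n) : opm (1 : Matrix (L × L) (L × L) A) i = 1 := by
  ext s t
  unfold opm
  rw [Matrix.one_apply, Matrix.one_apply]
  by_cases h : s = t
  · subst h
    simp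
  · rw [if_neg h]
    by_cases h1 : ∀ j, j ≠ i.castSucc → j ≠ i.succ → s j = t j
    · rw [if_pos h1, if_neg]
      intro h2
      apply h
      funext j
      by_cases hj1 : j = i.castSucc
      · subst hj1; exact congrArg Prod.fst h2
      by_cases hj2 : j = i.succ
      · subst hj2; exact congrArg Prod.snd h2
      exact h1 j hj1 hj2
    · rw [if_neg h1]

theorem inv_sg (T : YB A L) (hT : T.Good)
    (ρ : Br n →* (Matrix (Fin (n + 1) → L) (Fin (n + 1) → L) A)ˣ) (hρ : IsRep T ρ) (i : Fin n) :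
    ((ρ (sg i)⁻¹ : (Matrix (Fin (n + 1) → L) (Fin (n + 1) → L) A)ˣ) :
      Matrix (Fin (n + 1) → L) (Fin (n + 1) → L) A) = opm T.Ri i := by
  rw [map_inv]
  have h1 : ((ρ (sg i) : (Matrix (Fin (n + 1) → L) (Fin (n + 1) → L) A)ˣ) :
      Matrix (Fin (n + 1) → L) (Fin (n + 1) → L) A) * opm T.Ri i = 1 := by
    rw [hρ i, opm_mul, hT.mul_inv, opm_one]
  calc (((ρ (sg i))⁻¹ : (Matrix (Fin (n + 1) → L) (Fin (n + 1) → L) A)ˣ) :
      Matrix (Fin (n + 1) → L) (Fin (n + 1) → L) A)
      = (((ρ (sg i))⁻¹ : (Matrix (Fin (n + 1) → L) (Fin (n + 1) → L) A)ˣ) :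
        Matrix (Fin (n + 1) → L) (Fin (n + 1) → L) A) *
        (((ρ (sg i) : (Matrix (Fin (n + 1) → L) (Fin (n + 1) → L) A)ˣ) :
        Matrix (Fin (n + 1) → L) (Fin (n + 1) → L) A) * opm T.Ri i) := by rw [h1, mul_one]
    _ = opm T.Ri i := by rw [← mul_assoc, Units.inv_mul, one_mul]

end Op

section Fin

variable {L : Type} [Fintype L] [DecidableEq L] {n : ℕ}

/-- Abbreviation for the matrices. -/
abbrev Mt (L : Type) (n : ℕ) : Type :=
  Matrix (Fin (n + 1) → L) (Fin (n + 1) → L) (PowerSeries ℂ)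

/-- the functional -/
noncomputable def fn (T : YB (PowerSeries ℂ) L) (ρ : Br n →* (Mt L n)ˣ) (X : Mt L n) (j : ℕ)
    (b : Br n) : ℂ :=
  PowerSeries.coeff j (∑ s, (X * ((ρ b : (Mt L n)ˣ) : Mt L n)) s s * ∏ i, T.K (s i))

open Classical in
/-- the functional, cut off -/
noncomputable def fk (T : YB (PowerSeries ℂ) L) (ρ : Br n →* (Mt L n)ˣ) (X : Mt L n) (c : Br n)
    (j : ℕ) (b : Br n) : ℂ :=
  if IsKnot (c * b) then fn T ρ X j b else 0

theorem fn_zero (T : YB (PowerSeries ℂ) L) (ρ : Br n →* (Mt L n)ˣ) (X : Mt L n) {l j : ℕ}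
    (hX : ∀ s t, (PowerSeries.X : PowerSeries ℂ) ^ l ∣ X s t) (hj : j < l) (b : Br n) :
    fn T ρ X j b = 0 := by
  unfold fn
  have h1 : (PowerSeries.X : PowerSeries ℂ) ^ l ∣
      ∑ s, (X * ((ρ b : (Mt L n)ˣ) : Mt L n)) s s * ∏ i, T.K (s i) := by
    refine Finset.dvd_sum fun s _ => Dvd.dvd.mul_right ?_ _
    rw [Matrix.mul_apply]
    exact Finset.dvd_sum fun t _ => (hX s t).mul_right _
  exact PowerSeries.X_pow_dvd_iff.1 h1 j hj

theorem fn_sub (T : YB (PowerSeries ℂ) L) (ρ : Br n →* (Mt L n)ˣ) (X : Mt L n) (j : ℕ)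
    (a b c d : Br n) (Y : Mt L n)
    (h : X * ((ρ a : (Mt L n)ˣ) : Mt L n) - X * ((ρ c : (Mt L n)ˣ) : Mt L n)
      = Y * ((ρ d : (Mt L n)ˣ) : Mt L n)) (hb : b = d) :
    fn T ρ X j a - fn T ρ X j c = fn T ρ Y j b := by
  subst hb
  unfold fn
  rw [← map_sub, ← Finset.sum_sub_distrib, ← h]
  congr 1
  refine Finset.sum_congr rfl fun s _ => ?_
  rw [Matrix.sub_apply]
  ring

theorem isKnot_congr {a b : Br n} (h : perm a = perm b) : IsKnot a ↔ IsKnot b := by
  unfold IsKnot
  rw [h]

theorem main (T : YB (PowerSeries ℂ) L) (hT : T.Good)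
    (hc : ∀ p c, PowerSeries.constantCoeff (T.R p c) = PowerSeries.constantCoeff (T.Ri p c))
    (ρ : Br n →* (Mt L n)ˣ) (hρ : IsRep T ρ) : ∀ (k l j : ℕ) (X : Mt L n) (c : Br n),
      (∀ s t, (PowerSeries.X : PowerSeries ℂ) ^ l ∣ X s t) → j < k + l →
      Vanishes k (fk T ρ X c j) := by
  intro k
  induction k with
  | zero =>
    intro l j X c hX hj x
    unfold fk
    rw [fn_zero T ρ X hX (by omega) x, ite_self]
  | succ k ih =>
    intro l j X c hX hj
    rw [vanishes_succ]
    intro a i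
    set Y : Mt L n := X * ((ρ a : (Mt L n)ˣ) : Mt L n) * (opm T.R i - opm T.Ri i) with hY
    have hdiv : ∀ s t, (PowerSeries.X : PowerSeries ℂ) ∣ (opm T.R i - opm T.Ri i : Mt L n) s t := by
      intro s t
      rw [Matrix.sub_apply]
      unfold opm
      split_ifs with h
      · rw [PowerSeries.X_dvd_iff, map_sub, hc, sub_self]
      · rw [sub_zero]; exact dvd_zero _
    have hYd : ∀ s t, (PowerSeries.X : PowerSeries ℂ) ^ (l + 1) ∣ Y s t := by
      intro s t
      rw [hY, Matrix.mul_apply]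
      refine Finset.dvd_sum fun u _ => ?_
      rw [pow_succ]
      refine mul_dvd_mul ?_ (hdiv u t)
      rw [Matrix.mul_apply]
      exact Finset.dvd_sum fun v _ => (hX s v).mul_right _
    have h1 := ih (l + 1) j Y (c * a * sg i) hYd (by omega)
    have h2 : dif a i (fk T ρ X c j) = fk T ρ Y (c * a * sg i) j := by
      funext x
      unfold dif fk
      have e1 : IsKnot (c * (a * (sg i)⁻¹ * x)) ↔ IsKnot (c * (a * sg i * x)) := by
        apply isKnot_congr
        simp only [map_mul, map_inv, perm_sg, Equiv.swap_inv]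
      have e2 : c * a * sg i * x = c * (a * sg i * x) := by group
      rw [e2]
      by_cases hk : IsKnot (c * (a * sg i * x))
      · rw [if_pos hk, if_pos (e1.2 hk), if_pos hk]
        refine fn_sub T ρ X j _ _ _ x Y ?_ rfl
        rw [map_mul, map_mul, map_mul, map_mul, Units.val_mul, Units.val_mul, Units.val_mul,
          Units.val_mul, hρ i, inv_sg T hT ρ hρ i, hY]
        noncomm_ring
      · rw [if_neg hk, if_neg (fun h => hk (e1.1 h)), if_neg hk, sub_zero]
    rw [h2]
    exact h1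

end Fin

end YFT

open YFT in
/-- the coefficients of the weighted trace are of finite type -/
theorem yft : YFT_Stmt := by
  intro L _ _ T hT hc n ρ hρ k
  have h := main T hT hc ρ hρ (k + 1) 0 k 1 1 (fun s t => by rw [pow_zero]; exact one_dvd _)
    (by omega)
  refine (congrArg (Vanishes (k + 1)) ?_).mp h
  funext b
  unfold fk fn trw
  rw [one_mul]
  congr 1
  congr 1
  refine Finset.sum_congr rfl fun s _ => ?_
  rw [one_mul]

end Pool.Agent.T3
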