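import Pool.Agent.T3.Stmts

/-!
If all complex valued finite type invariants agree, so do the weighted traces (module YFTM).
-/

namespace Pool.Agent.T3

open Pool.Agent.TB Pool.Agent.LibH11

namespace YFTM

/-- A representation is determined by its values on the generators. -/
theorem isRep_unique {A L : Type} [CommRing A] [Fintype L] [DecidableEq L] {T : YB A L} {n : ℕ}
    {ρ ρ' : Br n →* (Matrix (Fin (n + 1) → L) (Fin (n + 1) → L) A)ˣ} (h : IsRep T ρ)
    (h' : IsRep T ρ') : ρ = ρ' := by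
  refine PresentedGroup.ext fun i => ?_
  apply Units.ext
  exact (h i).trans (h' i).symm

end YFTM

open YFTM in
theorem yftm (h1 : YREP_Stmt) (h2 : YMRK_Stmt) (h3 : YFT_Stmt) : YFTM_Stmt := by
  classical
  intro L _ _ T hT hc n n' b b' h h' hft ρ ρ' hρ hρ'
  -- the representations
  have hex : ∀ m : ℕ, ∃ σ : Br m →* (Matrix (Fin (m + 1) → L) (Fin (m + 1) → L)
      (PowerSeries ℂ))ˣ, IsRep T σ := fun m => by
    obtain ⟨σ, hσ, -⟩ := h1 (PowerSeries ℂ) L T hT m
    exact ⟨σ, hσ⟩
  choose R hR using hex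
  -- the invariant
  have hinv : ∀ x y : KnotBraid, MarkovMove x.1 y.1 →
      trw T (R x.1.1) x.1.2 = trw T (R y.1.1) y.1.2 := by
    rintro ⟨⟨m, c⟩, hx⟩ ⟨⟨m', c'⟩, hy⟩ hM
    change MarkovMove ⟨m, c⟩ ⟨m', c'⟩ at hM
    change trw T (R m) c = trw T (R m') c'
    cases hM with
    | conj _ a _ =>
      exact ((h2 _ L T hT m (R m) (hR m) (R (m + 1)) (hR (m + 1)) c).1 a).symm
    | stabPos _ _ =>
      exact ((h2 _ L T hT m (R m) (hR m) (R (m + 1)) (hR (m + 1)) c).2.1).symm
    | stabNeg _ _ =>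
      exact ((h2 _ L T hT m (R m) (hR m) (R (m + 1)) (hR (m + 1)) c).2.2).symm
  let V : Knot → PowerSeries ℂ := Quot.lift (fun x => trw T (R x.1.1) x.1.2)
    fun x y hxy => hinv x y hxy
  have hV : ∀ (m : ℕ) (c : Br m) (hc : IsKnot c), V (closure c hc) = trw T (R m) c :=
    fun m c hc => rfl
  have hfin : ∀ k : ℕ, IsFiniteType (fun K => PowerSeries.coeff k (V K)) := by
    intro k
    refine ⟨k, fun m => ?_⟩
    have h4 := h3 L T hT hc m (R m) (hR m) k
    have h5 : onBraids (fun K => PowerSeries.coeff k (V K)) m =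
        fun c : Br m => if IsKnot c then PowerSeries.coeff k (trw T (R m) c) else 0 := by
      funext c
      unfold onBraids
      by_cases hk : IsKnot c
      · rw [dif_pos hk, if_pos hk]
        exact congrArg _ (hV m c hk)
      · rw [dif_neg hk, if_neg hk]
    rw [h5]
    exact h4
  rw [isRep_unique hρ (hR n), isRep_unique hρ' (hR n')]
  ext k
  have h6 := hft _ (hfin k)
  simpa [hV] using h6

end Pool.Agent.T3
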