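import Pool.Agent.T3.Stmts

/-!
YMRK: invariance of the weighted trace under the Markov moves.
-/

open scoped BigOperators

set_option linter.unusedSectionVars false

namespace Pool.Agent.T3

open Pool.Agent.TB Pool.Agent.LibH11

namespace YMRK

theorem br_ind {n : ℕ} {P : Br n → Prop} (h1 : P 1) (hs : ∀ i, P (sg i))
    (hm : ∀ x y, P x → P y → P (x * y)) (hi : ∀ x, P x → P x⁻¹) (b : Br n) : P b := by
  have : b ∈ Subgroup.closure (Set.range (PresentedGroup.of (rels := braidRels n))) := by
    rw [PresentedGroup.closure_range_of]; trivial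
  induction this using Subgroup.closure_induction with
  | mem x hx => obtain ⟨i, rfl⟩ := hx; exact hs i
  | one => exact h1
  | mul x y _ _ hx hy => exact hm x y hx hy
  | inv x _ hx => exact hi x hx

variable {A L : Type} [CommRing A] [Fintype L] [DecidableEq L] {n : ℕ}

/-! ### The operators of two neighbouring strands -/

/-- replace the two labels -/
def upd (s : Fin (n + 1) → L) (i : Fin n) (p : L × L) : Fin (n + 1) → L :=
  Function.update (Function.update s i.castSucc p.1) i.succ p.2

lemma cs_ne (i : Fin n) : i.castSucc ≠ i.succ := Fin.castSucc_lt_succ.ne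

lemma upd_cs (s : Fin (n + 1) → L) (i : Fin n) (p : L × L) : upd s i p i.castSucc = p.1 := by
  unfold upd
  rw [Function.update_of_ne (cs_ne i), Function.update_self]

lemma upd_su (s : Fin (n + 1) → L) (i : Fin n) (p : L × L) : upd s i p i.succ = p.2 := by
  unfold upd
  rw [Function.update_self]

lemma upd_ne (s : Fin (n + 1) → L) (i : Fin n) (p : L × L) {j : Fin (n + 1)}
    (h1 : j ≠ i.castSucc) (h2 : j ≠ i.succ) : upd s i p j = s j := by
  unfold upd
  rw [Function.update_of_ne h2, Function.update_of_ne h1]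

/-- agreement outside the two strands -/
def Ag (i : Fin n) (s u : Fin (n + 1) → L) : Prop := ∀ j, j ≠ i.castSucc → j ≠ i.succ → s j = u j

lemma eq_upd {i : Fin n} {s u : Fin (n + 1) → L} (h : Ag i s u) :
    u = upd s i (u i.castSucc, u i.succ) := by
  funext j
  by_cases h1 : j = i.castSucc
  · subst h1; rw [upd_cs]
  · by_cases h2 : j = i.succ
    · subst h2; rw [upd_su]
    · rw [upd_ne _ _ _ h1 h2, h j h1 h2]

lemma sum_pair (i : Fin n) (s : Fin (n + 1) → L) (F : (Fin (n + 1) → L) → A)
    (hF : ∀ u, ¬ Ag i s u → F u = 0) : ∑ u, F u = ∑ p : L × L, F (upd s i p) := by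
  symm
  refine Finset.sum_of_injOn (fun p => upd s i p) ?_ (fun _ _ => Finset.mem_coe.2 (Finset.mem_univ _))
    ?_ (fun _ _ => rfl)
  · intro p _ p' _ h
    have h1 := congrFun h i.castSucc
    have h2 := congrFun h i.succ
    simp only [upd_cs, upd_su] at h1 h2
    exact Prod.ext h1 h2
  · intro u _ hu
    apply hF
    intro hA
    apply hu
    rw [eq_upd hA]
    exact ⟨_, Finset.mem_coe.2 (Finset.mem_univ _), rfl⟩

lemma opm_upd (M : Matrix (L × L) (L × L) A) (i : Fin n) (s : Fin (n + 1) → L) (p : L × L) :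
    opm M i s (upd s i p) = M (s i.castSucc, s i.succ) p := by
  unfold opm
  rw [if_pos (fun j h1 h2 => (upd_ne s i p h1 h2).symm), upd_cs, upd_su]

lemma opm_not {M : Matrix (L × L) (L × L) A} {i : Fin n} {s u : Fin (n + 1) → L}
    (h : ¬ Ag i s u) : opm M i s u = 0 := by
  unfold opm
  exact if_neg h

lemma opm_pos {M : Matrix (L × L) (L × L) A} {i : Fin n} {s u : Fin (n + 1) → L}
    (h : Ag i s u) : opm M i s u = M (s i.castSucc, s i.succ) (u i.castSucc, u i.succ) := by
  unfold opm
  exact if_pos h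

lemma Ag_upd {i : Fin n} {s t : Fin (n + 1) → L} (p : L × L) : Ag i (upd s i p) t ↔ Ag i s t := by
  unfold Ag
  constructor
  · intro h j h1 h2
    rw [← h j h1 h2, upd_ne _ _ _ h1 h2]
  · intro h j h1 h2
    rw [upd_ne _ _ _ h1 h2, h j h1 h2]

lemma opm_mul (M N : Matrix (L × L) (L × L) A) (i : Fin n) :
    opm M i * opm N i = opm (M * N) i := by
  ext s t
  rw [Matrix.mul_apply, sum_pair i s _ (fun u hu => by rw [opm_not hu, zero_mul])]
  by_cases h : Ag i s t
  · rw [opm_pos h, Matrix.mul_apply]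
    apply Finset.sum_congr rfl
    intro p _
    rw [opm_upd, opm_pos ((Ag_upd p).2 h), upd_cs, upd_su]
  · rw [opm_not h]
    apply Finset.sum_eq_zero
    intro p _
    rw [opm_not (fun h' => h ((Ag_upd p).1 h')), mul_zero]

lemma opm_one (i : Fin n) : opm (1 : Matrix (L × L) (L × L) A) i = 1 := by
  ext s t
  by_cases h : Ag i s t
  · rw [opm_pos h, Matrix.one_apply, Matrix.one_apply]
    congr 1
    apply propext
    constructor
    · intro h1
      rw [eq_upd h, ← h1]
      funext j
      by_cases h2 : j = i.castSucc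
      · subst h2; rw [upd_cs]
      · by_cases h3 : j = i.succ
        · subst h3; rw [upd_su]
        · rw [upd_ne _ _ _ h2 h3]
    · rintro rfl; rfl
  · rw [opm_not h, Matrix.one_apply, if_neg]
    rintro rfl
    exact h (fun _ _ _ => rfl)

lemma inv_opm {T : YB A L} (hT : T.Good)
    (ρ : Br n →* (Matrix (Fin (n + 1) → L) (Fin (n + 1) → L) A)ˣ) (hρ : IsRep T ρ) (i : Fin n) :
    (((ρ (sg i))⁻¹ : (Matrix (Fin (n + 1) → L) (Fin (n + 1) → L) A)ˣ) :
      Matrix (Fin (n + 1) → L) (Fin (n + 1) → L) A) = opm T.Ri i := by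
  have h1 : ((ρ (sg i) : (Matrix (Fin (n + 1) → L) (Fin (n + 1) → L) A)ˣ) :
      Matrix (Fin (n + 1) → L) (Fin (n + 1) → L) A) * opm T.Ri i = 1 := by
    rw [hρ i, opm_mul, hT.mul_inv, opm_one]
  exact Units.inv_eq_of_mul_eq_one_right h1

/-! ### Weights and conjugation -/

/-- the weight of a state -/
def wt (T : YB A L) (s : Fin (n + 1) → L) : A := ∏ i, T.K (s i)

/-- the diagonal matrix of the weights -/
def D (T : YB A L) (n : ℕ) : Matrix (Fin (n + 1) → L) (Fin (n + 1) → L) A :=
  Matrix.diagonal (wt T)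

lemma wt_split (T : YB A L) (i : Fin n) (s : Fin (n + 1) → L) :
    wt T s = (T.K (s i.castSucc) * T.K (s i.succ)) *
      ∏ j ∈ (Finset.univ.erase i.castSucc).erase i.succ, T.K (s j) := by
  unfold wt
  rw [mul_assoc, Finset.mul_prod_erase (Finset.univ.erase i.castSucc) (fun j => T.K (s j))
    (Finset.mem_erase.2 ⟨(cs_ne i).symm, Finset.mem_univ _⟩),
    Finset.mul_prod_erase Finset.univ (fun j => T.K (s j)) (Finset.mem_univ _)]

lemma D_opm {T : YB A L} (hT : T.Good) (i : Fin n) : D T n * opm T.R i = opm T.R i * D T n := by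
  ext s t
  unfold D
  rw [Matrix.diagonal_mul, Matrix.mul_diagonal]
  by_cases h : Ag i s t
  · rw [opm_pos h, wt_split T i s, wt_split T i t]
    have h1 : ∏ j ∈ (Finset.univ.erase i.castSucc).erase i.succ, T.K (s j)
        = ∏ j ∈ (Finset.univ.erase i.castSucc).erase i.succ, T.K (t j) := by
      apply Finset.prod_congr rfl
      intro j hj
      rw [Finset.mem_erase, Finset.mem_erase] at hj
      rw [h j hj.2.1 hj.1]
    rw [h1]
    have h2 := hT.wt (s i.castSucc) (s i.succ) (t i.castSucc) (t i.succ)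
    linear_combination (-(∏ j ∈ (Finset.univ.erase i.castSucc).erase i.succ, T.K (t j))) * h2
  · rw [opm_not h, mul_zero, zero_mul]

lemma D_rho {T : YB A L} (hT : T.Good)
    (ρ : Br n →* (Matrix (Fin (n + 1) → L) (Fin (n + 1) → L) A)ˣ) (hρ : IsRep T ρ) (b : Br n) :
    D T n * (ρ b).val = (ρ b).val * D T n := by
  induction b using br_ind with
  | h1 => simp
  | hs i => rw [hρ i]; exact D_opm hT i
  | hm x y hx hy =>
    rw [map_mul, Units.val_mul, ← mul_assoc, hx, mul_assoc, hy, mul_assoc]
  | hi x hx =>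
    rw [map_inv]
    calc D T n * (ρ x)⁻¹.val = (ρ x)⁻¹.val * ((ρ x).val * D T n) * (ρ x)⁻¹.val := by
          rw [← mul_assoc, Units.inv_mul, one_mul]
      _ = (ρ x)⁻¹.val * D T n := by
          rw [← hx, mul_assoc, mul_assoc, Units.mul_inv, mul_one]

lemma trw_eq (T : YB A L) (ρ : Br n →* (Matrix (Fin (n + 1) → L) (Fin (n + 1) → L) A)ˣ)
    (b : Br n) : trw T ρ b = ((ρ b).val * D T n).trace := by
  unfold trw D
  rw [Matrix.trace]
  apply Finset.sum_congr rfl
  intro s _
  rw [Matrix.diag_apply, Matrix.mul_diagonal]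
  rfl

lemma trw_conj {T : YB A L} (hT : T.Good)
    (ρ : Br n →* (Matrix (Fin (n + 1) → L) (Fin (n + 1) → L) A)ˣ) (hρ : IsRep T ρ) (a b : Br n) :
    trw T ρ (a * b * a⁻¹) = trw T ρ b := by
  rw [trw_eq, trw_eq, map_mul, map_mul, Units.val_mul, Units.val_mul]
  calc ((ρ a).val * (ρ b).val * (ρ a⁻¹).val * D T n).trace
      = ((ρ a).val * (ρ b).val * (D T n * (ρ a⁻¹).val)).trace := by
        rw [D_rho hT ρ hρ a⁻¹, ← mul_assoc]
    _ = (((ρ a).val * (ρ b).val * D T n) * (ρ a⁻¹).val).trace := by rw [← mul_assoc]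
    _ = ((ρ a⁻¹).val * ((ρ a).val * (ρ b).val * D T n)).trace := Matrix.trace_mul_comm _ _
    _ = ((ρ b).val * D T n).trace := by
        congr 1
        rw [← mul_assoc, ← mul_assoc, ← Units.val_mul, ← map_mul, inv_mul_cancel, map_one,
          Units.val_one, one_mul]

/-! ### The last strand -/

lemma snoc_inj {t t' : Fin (n + 1) → L} {c c' : L} :
    (Fin.snoc t c : Fin (n + 2) → L) = Fin.snoc t' c' ↔ t = t' ∧ c = c' := by
  constructor
  · intro h
    constructor
    · funext i
      have := congrFun h i.castSucc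
      simpa only [Fin.snoc_castSucc] using this
    · have := congrFun h (Fin.last (n + 1))
      simpa only [Fin.snoc_last] using this
  · rintro ⟨rfl, rfl⟩; rfl

lemma sum_snoc (F : (Fin (n + 2) → L) → A) :
    ∑ s, F s = ∑ t : Fin (n + 1) → L, ∑ c : L, F (Fin.snoc t c) := by
  rw [← Equiv.sum_comp (Fin.snocEquiv (fun _ : Fin (n + 2) => L)) F]
  rw [Fintype.sum_prod_type, Finset.sum_comm]
  rfl

lemma exists_snoc (u : Fin (n + 2) → L) : ∃ (t : Fin (n + 1) → L) (c : L), u = Fin.snoc t c :=
  ⟨Fin.init u, u (Fin.last (n + 1)), (Fin.snoc_init_self u).symm⟩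

/-- the matrix with an additional strand -/
def phi (M : Matrix (Fin (n + 1) → L) (Fin (n + 1) → L) A) :
    Matrix (Fin (n + 2) → L) (Fin (n + 2) → L) A :=
  fun u w => if u (Fin.last (n + 1)) = w (Fin.last (n + 1)) then
    M (fun i => u i.castSucc) (fun i => w i.castSucc) else 0

lemma phi_snoc (M : Matrix (Fin (n + 1) → L) (Fin (n + 1) → L) A) (s t : Fin (n + 1) → L)
    (y z : L) : phi M (Fin.snoc s y) (Fin.snoc t z) = if y = z then M s t else 0 := by
  unfold phi
  simp only [Fin.snoc_last, Fin.snoc_castSucc]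

/-- the same as a monoid homomorphism -/
def phiHom : Matrix (Fin (n + 1) → L) (Fin (n + 1) → L) A →*
    Matrix (Fin (n + 2) → L) (Fin (n + 2) → L) A where
  toFun := phi
  map_one' := by
    ext u w
    obtain ⟨s, y, rfl⟩ := exists_snoc u
    obtain ⟨t, z, rfl⟩ := exists_snoc w
    rw [phi_snoc, Matrix.one_apply, Matrix.one_apply]
    by_cases h1 : y = z
    · subst h1
      rw [if_pos rfl]
      congr 1
      rw [snoc_inj]
      simp
    · rw [if_neg h1, if_neg (fun h => h1 (snoc_inj.1 h).2)]
  map_mul' M N := by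
    ext u w
    obtain ⟨s, y, rfl⟩ := exists_snoc u
    obtain ⟨t, z, rfl⟩ := exists_snoc w
    rw [phi_snoc, Matrix.mul_apply, Matrix.mul_apply, sum_snoc]
    by_cases h1 : y = z
    · subst h1
      rw [if_pos rfl]
      apply Finset.sum_congr rfl
      intro r _
      rw [Finset.sum_eq_single y]
      · rw [phi_snoc, phi_snoc, if_pos rfl, if_pos rfl]
      · intro c _ hc
        rw [phi_snoc, if_neg (Ne.symm hc), zero_mul]
      · intro h; exact absurd (Finset.mem_univ _) h
    · rw [if_neg h1]
      symm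
      apply Finset.sum_eq_zero
      intro r _
      apply Finset.sum_eq_zero
      intro c _
      rw [phi_snoc, phi_snoc]
      by_cases h2 : y = c
      · subst h2; rw [if_neg h1, mul_zero]
      · rw [if_neg h2, zero_mul]

lemma opm_snoc (M : Matrix (L × L) (L × L) A) (i : Fin n) :
    opm M i.castSucc = phi (opm M i) := by
  ext u w
  obtain ⟨s, y, rfl⟩ := exists_snoc u
  obtain ⟨t, z, rfl⟩ := exists_snoc w
  rw [phi_snoc]
  have hsu : (i.castSucc).succ = (i.succ).castSucc := Fin.succ_castSucc i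
  have key : Ag i.castSucc (Fin.snoc s y : Fin (n + 2) → L) (Fin.snoc t z) ↔ y = z ∧ Ag i s t := by
    unfold Ag
    rw [hsu]
    constructor
    · intro h
      constructor
      · have := h (Fin.last (n + 1)) (Fin.castSucc_lt_last _).ne' (Fin.castSucc_lt_last _).ne'
        simpa only [Fin.snoc_last] using this
      · intro j h1 h2
        have := h j.castSucc (fun e => h1 (Fin.castSucc_injective _ e))
          (fun e => h2 (Fin.castSucc_injective _ e))
        simpa only [Fin.snoc_castSucc] using this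
    · rintro ⟨rfl, h⟩ j
      refine Fin.lastCases ?_ (fun j => ?_) j
      · intro _ _; simp only [Fin.snoc_last]
      · intro h1 h2
        simp only [Fin.snoc_castSucc]
        exact h j (fun e => h1 (by rw [e])) (fun e => h2 (by rw [e]))
  by_cases h : y = z
  · rw [if_pos h]
    by_cases h' : Ag i s t
    · rw [opm_pos (key.2 ⟨h, h'⟩), opm_pos h', hsu]
      simp only [Fin.snoc_castSucc]
    · rw [opm_not (fun e => h' (key.1 e).2), opm_not h']
  · rw [if_neg h, opm_not (fun e => h (key.1 e).1)]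

lemma incl_sg' (i : Fin n) : incl (sg i) = (sg i.castSucc : Br (n + 1)) := by
  unfold incl
  rw [liftBr_sg]

lemma rho_incl {T : YB A L}
    (ρ : Br n →* (Matrix (Fin (n + 1) → L) (Fin (n + 1) → L) A)ˣ) (hρ : IsRep T ρ)
    (ρ' : Br (n + 1) →* (Matrix (Fin (n + 2) → L) (Fin (n + 2) → L) A)ˣ) (hρ' : IsRep T ρ')
    (b : Br n) : (ρ' (incl b)).val = phi (ρ b).val := by
  have h : ρ'.comp incl = (Units.map (phiHom (A := A) (L := L) (n := n))).comp ρ := by
    apply PresentedGroup.ext
    intro i
    apply Units.ext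
    show (ρ' (incl (sg i))).val = phi (ρ (sg i)).val
    rw [incl_sg', hρ' i.castSucc, hρ i, opm_snoc]
  have h2 := DFunLike.congr_fun h b
  have h3 := congrArg Units.val h2
  exact h3

lemma opm_last (M : Matrix (L × L) (L × L) A) (s t : Fin (n + 1) → L) (y : L) :
    opm M (Fin.last n) (Fin.snoc t y : Fin (n + 2) → L) (Fin.snoc s y) =
      if ∀ j : Fin (n + 1), j ≠ Fin.last n → t j = s j then
        M (t (Fin.last n), y) (s (Fin.last n), y) else 0 := by
  have hsu : (Fin.last n).succ = Fin.last (n + 1) := Fin.succ_last n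
  have key : Ag (Fin.last n) (Fin.snoc t y : Fin (n + 2) → L) (Fin.snoc s y) ↔
      ∀ j : Fin (n + 1), j ≠ Fin.last n → t j = s j := by
    unfold Ag
    rw [hsu]
    constructor
    · intro h j hj
      have := h j.castSucc (fun e => hj (Fin.castSucc_injective _ e)) (Fin.castSucc_lt_last _).ne
      simpa only [Fin.snoc_castSucc] using this
    · intro h j
      refine Fin.lastCases ?_ (fun j => ?_) j
      · intro _ h2; exact absurd rfl h2
      · intro h1 _
        simp only [Fin.snoc_castSucc]
        exact h j (fun e => h1 (by rw [e]))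
  by_cases h : ∀ j : Fin (n + 1), j ≠ Fin.last n → t j = s j
  · rw [if_pos h, opm_pos (key.2 h), hsu]
    simp only [Fin.snoc_castSucc, Fin.snoc_last]
  · rw [if_neg h, opm_not (fun e => h (key.1 e))]

lemma wt_snoc (T : YB A L) (s : Fin (n + 1) → L) (y : L) :
    ∏ i, T.K ((Fin.snoc s y : Fin (n + 2) → L) i) = wt T s * T.K y := by
  unfold wt
  rw [Fin.prod_univ_castSucc]
  simp only [Fin.snoc_castSucc, Fin.snoc_last]

/-- the trace over the last strand -/
lemma last_tr (T : YB A L) (M : Matrix (L × L) (L × L) A)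
    (hM : ∀ x z, ∑ y, M (x, y) (z, y) * T.K y = if x = z then 1 else 0)
    (X : Matrix (Fin (n + 1) → L) (Fin (n + 1) → L) A) :
    ∑ u : Fin (n + 2) → L, (phi X * opm M (Fin.last n)) u u * ∏ i, T.K (u i) =
      ∑ s, X s s * wt T s := by
  rw [sum_snoc]
  apply Finset.sum_congr rfl
  intro s _
  have h1 : ∀ y : L, (phi X * opm M (Fin.last n) : Matrix (Fin (n + 2) → L) (Fin (n + 2) → L) A)
      (Fin.snoc s y) (Fin.snoc s y) * ∏ i, T.K ((Fin.snoc s y : Fin (n + 2) → L) i)
      = ∑ t : Fin (n + 1) → L, X s t * wt T s *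
        (if ∀ j : Fin (n + 1), j ≠ Fin.last n → t j = s j then
          M (t (Fin.last n), y) (s (Fin.last n), y) * T.K y else 0) := by
    intro y
    rw [wt_snoc, Matrix.mul_apply, sum_snoc, Finset.sum_mul]
    apply Finset.sum_congr rfl
    intro t _
    rw [Finset.sum_eq_single y]
    · rw [phi_snoc, if_pos rfl, opm_last]
      split_ifs <;> ring
    · intro c _ hc
      rw [phi_snoc, if_neg (Ne.symm hc), zero_mul]
    · intro h; exact absurd (Finset.mem_univ _) h
  rw [Finset.sum_congr rfl (fun y _ => h1 y), Finset.sum_comm]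
  rw [Finset.sum_eq_single s]
  · rw [← Finset.mul_sum]
    have h2 : ∑ y : L, (if ∀ j : Fin (n + 1), j ≠ Fin.last n → s j = s j then
          M (s (Fin.last n), y) (s (Fin.last n), y) * T.K y else 0) = 1 := by
      rw [← if_pos (c := s (Fin.last n) = s (Fin.last n)) rfl (t := (1 : A)) (e := 0), ← hM]
      apply Finset.sum_congr rfl
      intro y _
      rw [if_pos (fun _ _ => rfl)]
    rw [h2, mul_one]
  · intro t _ ht
    rw [← Finset.mul_sum]
    by_cases h : ∀ j : Fin (n + 1), j ≠ Fin.last n → t j = s j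
    · have h3 : t (Fin.last n) ≠ s (Fin.last n) := by
        intro e
        apply ht
        funext j
        by_cases hj : j = Fin.last n
        · rw [hj]; exact e
        · exact h j hj
      have h4 := hM (t (Fin.last n)) (s (Fin.last n))
      rw [if_neg h3] at h4
      have h5 : ∑ y : L, (if ∀ j : Fin (n + 1), j ≠ Fin.last n → t j = s j then
          M (t (Fin.last n), y) (s (Fin.last n), y) * T.K y else 0) = 0 := by
        rw [← h4]
        apply Finset.sum_congr rfl
        intro y _
        rw [if_pos h]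
      rw [h5, mul_zero]
    · rw [Finset.sum_eq_zero (fun y _ => if_neg h), mul_zero]
  · intro h; exact absurd (Finset.mem_univ _) h

end YMRK

open YMRK in
/-- YMRK: invariance of the weighted trace under the Markov moves. -/
theorem ymrk : YMRK_Stmt := by
  intro A L _ _ _ T hT n ρ hρ ρ' hρ' b
  refine ⟨fun a => trw_conj hT ρ hρ a b, ?_, ?_⟩
  · have h := last_tr T T.R hT.ptr (ρ b).val
    unfold trw
    rw [map_mul, Units.val_mul, rho_incl ρ hρ ρ' hρ', hρ' (Fin.last n)]
    exact h
  · have h := last_tr T T.Ri hT.ptri (ρ b).val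
    unfold trw
    rw [map_mul, map_inv, Units.val_mul, rho_incl ρ hρ ρ' hρ', inv_opm hT ρ' hρ' (Fin.last n)]
    exact h

end Pool.Agent.T3
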