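import Pool.Agent.T3.YREP
import Pool.Agent.T3.YMRK
import Pool.Agent.T3.YFT
import Pool.Agent.T3.YFTM
import Pool.Agent.T3.PTH
import Pool.Agent.T3.PTS
import Pool.Agent.T3.KCOM
import Pool.Agent.T3.RYB
import Pool.Agent.T3.LINK
import Pool.Agent.T3.WREL
import Pool.Agent.T3.WPOL
import Pool.Agent.T3.GENF
import Pool.Agent.T3.ADJ
import Pool.Agent.T3.CAS
import Pool.Agent.T3.CVAL
import Pool.Agent.T3.PATH
import Pool.Agent.T3.CASW
import Pool.Agent.T3.TRF
import Pool.Agent.T3.TRL
import Pool.Agent.T3.DRR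
import Pool.Agent.T3.NAT3
import Pool.Agent.T3.IND
import Pool.Agent.T3.OT3
import Pool.Agent.T3.KEQ
import Pool.Agent.T3.BURA
import Pool.Agent.T3.BURT
import Pool.Agent.T3.BURE
import Pool.Agent.T3.CHF
import Pool.Agent.T3.EIG3
import Pool.Agent.T3.EGO3
import Pool.Agent.T3.PHI3
import Pool.Agent.T3.TRD
import Pool.Agent.T3.DER3
import Pool.Agent.T3.CHID
import Pool.Agent.T3.CHN3
import Pool.Agent.T3.TRT
import Pool.Agent.T3.GAU
import Pool.Agent.T3.GAU2
import Pool.Agent.T3.TRN
import Pool.Agent.T3.TRE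
import Pool.Agent.T3.LAM3
import Pool.Agent.T3.FOU3
import Pool.Agent.T3.MULT
import Pool.Agent.T3.TAILA
import Pool.Agent.T3.FIX
import Pool.Agent.T3.LIM3
import Pool.Agent.T3.CSC3
import Pool.Agent.T3.LIMZ
import Pool.Agent.T3.TELO
import Pool.Agent.T3.ORB3
import Pool.Agent.T3.ISO3
import Pool.Agent.T3.WORD
import Pool.Agent.T3.ODD3
import Pool.Agent.T3.KER3
import Pool.Agent.T3.CNJ3
import Pool.Agent.T3.ELL3
import Pool.Agent.T3.Fin3
import Pool.Agent.T3.ARI3
import Pool.Agent.C3A.Fin
import Pool.Agent.TB.Final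

/-!
Finite type invariants determine a closed 3-braid of given exponent sum up to reversal: all modules
together.
-/

namespace Pool.Agent.T3

open Pool.Agent.TB Pool.Agent.LibH11

theorem all_cas : CAS_Stmt := cas_thm genf (adj genf)

theorem all_cval : CVAL_Stmt := cval genf (adj genf) all_cas

theorem all_path : PATH_Stmt := path genf (adj genf) all_cas

theorem all_casw : CASW_Stmt := casw genf wrel

theorem all_trf : TRF_Stmt := trf genf (adj genf) all_cas all_cval all_path all_casw wrel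

theorem all_trl : TRL_Stmt := trl genf all_trf kcom wrel (wpol wrel)

theorem all_ind : IND_Stmt := ind all_trl (drr kcom) nat3

theorem all_ryb : RYB_Stmt := ryb (pts pth genf) kcom

theorem all_yftm : YFTM_Stmt := yftm yrep ymrk yft

theorem all_keq : KEQ_Stmt := keq all_ryb yrep all_yftm link all_ind

theorem all_bure : BURE_Stmt := bure all_ryb yrep all_yftm bura burt

theorem all_ego : EGO3_Stmt := ego3 chf_thm

theorem all_chid : CHID_Stmt :=
  chid (phi3 chf_thm (eig3 chf_thm) all_ego wrel) trd (der3 chf_thm all_ego) all_ego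

theorem all_tre : TRE_Stmt :=
  tre_thm all_ego chn3 (trt all_ego chn3) gau (trn chf_thm all_ego chn3)

theorem all_lam : LAM3_Stmt := lam3 all_tre (gau2 gau chn3) chn3 all_ego

theorem all_limz : LIMZ_Stmt := limz (lim3 mult taila (fix mult)) (csc3 mult) chn3

theorem all_iso : ISO3_Stmt := iso3 all_limz (telo chn3) orb3 chn3

theorem fin_all3 : FIN3_Stmt :=
  FIN3.fin3 (grt brk) all_bure odd3 (ell3 ker3 word) word all_keq (ot3 nat3) all_chid all_tre
    all_lam fou3 all_iso chn3 (ari3 Pool.Agent.C3A.arith_all) (cnj3 ker3 word)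

end Pool.Agent.T3
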