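import Pool.Agent.T3.Defs2

/-!
Finite type invariants of closed 3-braids: statements of the modules, first part
(Markov traces, label model, trace functionals, transfer). See PAPER.md in this folder.
-/

open Polynomial
open scoped BigOperators Real

namespace Pool.Agent.T3

open Pool.Agent.TB Pool.Agent.LibH11

/-! ### A. Markov traces and finite type invariants -/

/-- YREP: a good matrix gives representations of all braid groups. -/
def YREP_Stmt : Prop :=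
  ∀ (A L : Type) [CommRing A] [Fintype L] [DecidableEq L] (T : YB A L), T.Good → ∀ n : ℕ,
    ∃ ρ : Br n →* (Matrix (Fin (n + 1) → L) (Fin (n + 1) → L) A)ˣ, IsRep T ρ ∧
      ∀ i, (((ρ (sg i))⁻¹ : (Matrix (Fin (n + 1) → L) (Fin (n + 1) → L) A)ˣ) :
        Matrix (Fin (n + 1) → L) (Fin (n + 1) → L) A) = opm T.Ri i

/-- YMRK: invariance of the weighted trace under the Markov moves. -/
def YMRK_Stmt : Prop :=
  ∀ (A L : Type) [CommRing A] [Fintype L] [DecidableEq L] (T : YB A L), T.Good → ∀ n : ℕ,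
    ∀ ρ : Br n →* (Matrix (Fin (n + 1) → L) (Fin (n + 1) → L) A)ˣ, IsRep T ρ →
    ∀ ρ' : Br (n + 1) →* (Matrix (Fin (n + 2) → L) (Fin (n + 2) → L) A)ˣ, IsRep T ρ' →
    ∀ b : Br n, (∀ a : Br n, trw T ρ (a * b * a⁻¹) = trw T ρ b) ∧
      trw T ρ' (incl b * sg (Fin.last n)) = trw T ρ b ∧
      trw T ρ' (incl b * (sg (Fin.last n))⁻¹) = trw T ρ b

open Classical in
/-- YFT: the coefficients of the weighted trace are of finite type. -/
def YFT_Stmt : Prop :=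
  ∀ (L : Type) [Fintype L] [DecidableEq L] (T : YB (PowerSeries ℂ) L), T.Good →
    (∀ p c, PowerSeries.constantCoeff (T.R p c) = PowerSeries.constantCoeff (T.Ri p c)) →
    ∀ (n : ℕ) (ρ : Br n →* (Matrix (Fin (n + 1) → L) (Fin (n + 1) → L) (PowerSeries ℂ))ˣ),
      IsRep T ρ → ∀ k : ℕ,
        Vanishes (k + 1) (fun b : Br n => if IsKnot b then PowerSeries.coeff k (trw T ρ b) else 0)

/-- YFTM: if all complex valued finite type invariants agree, so do the weighted traces. -/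
def YFTM_Stmt : Prop :=
  ∀ (L : Type) [Fintype L] [DecidableEq L] (T : YB (PowerSeries ℂ) L), T.Good →
    (∀ p c, PowerSeries.constantCoeff (T.R p c) = PowerSeries.constantCoeff (T.Ri p c)) →
    ∀ (n n' : ℕ) (b : Br n) (b' : Br n') (h : IsKnot b) (h' : IsKnot b'),
      (∀ v : Knot → ℂ, IsFiniteType v → v (closure b h) = v (closure b' h')) →
      ∀ (ρ : Br n →* (Matrix (Fin (n + 1) → L) (Fin (n + 1) → L) (PowerSeries ℂ))ˣ)
        (ρ' : Br n' →* (Matrix (Fin (n' + 1) → L) (Fin (n' + 1) → L) (PowerSeries ℂ))ˣ),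
        IsRep T ρ → IsRep T ρ' → trw T ρ b = trw T ρ' b'

/-- PTH: the weighted trace over the second factor of every polynomial in `I` is a scalar. -/
def PTH_Stmt : Prop :=
  ∀ (F : Type) [Field F] [CharZero F] (Q : QP F), Nru Q → ∀ (r : ℕ) (P : F[X]), ∃ θ : F,
    ∀ x z : Lb r, ∑ y, aeval (Im Q r) P (x, y) (z, y) * Kw Q r y = if x = z then θ else 0

/-- PTS: the weighted trace over the second factor of the half spin R-matrix and of its inverse. -/
def PTS_Stmt : Prop :=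
  ∀ (F : Type) [Field F] [CharZero F] (Q : QP F), Nru Q → ∀ (r : ℕ) (x z : Lb r),
    (∑ y, Rm Q r (x, y) (z, y) * Kw Q r y =
      if x = z then (((cr Q r)⁻¹ : Fˣ) : F) else 0) ∧
    (∑ y, Rn Q r (x, y) (z, y) * Kw Q r y = if x = z then (cr Q r : F) else 0)

/-- KCOM: the weights commute with `I` and with the R-matrix. -/
def KCOM_Stmt : Prop :=
  ∀ (A : Type) [CommRing A] (Q : QP A) (r : ℕ), ∀ x y a b : Lb r,
    Im Q r (x, y) (a, b) * (Kw Q r a * Kw Q r b) =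
        Im Q r (x, y) (a, b) * (Kw Q r x * Kw Q r y) ∧
      Rm Q r (x, y) (a, b) * (Kw Q r a * Kw Q r b) =
        Rm Q r (x, y) (a, b) * (Kw Q r x * Kw Q r y) ∧
      (Im Q r (x, y) (a, b) ≠ 0 → x.par = !a.par ∧ y.par = !b.par)

/-- RYB: the half spin R-matrices are good, and positive and negative crossings agree at `h = 0`. -/
def RYB_Stmt : Prop :=
  ∀ r : ℕ, (ybt QPS r).Good ∧ ∀ p c, PowerSeries.constantCoeff ((ybt QPS r).R p c) =
    PowerSeries.constantCoeff ((ybt QPS r).Ri p c)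

/-- LINK: for knots, the weighted trace on even labels is the weighted trace of the word on all
labels of total even parity. -/
def LINK_Stmt : Prop :=
  ∀ (r : ℕ) (x : List ℤ), IsKnot (bw false x) →
    ∀ ρ : Br 2 →* (Matrix (Fin 3 → Ev r) (Fin 3 → Ev r) (PowerSeries ℂ))ˣ,
      IsRep (ybt QPS r) ρ →
      trw (ybt QPS r) ρ (bw false x) =
        ((cr QPS r ^ x.sum : (PowerSeries ℂ)ˣ) : PowerSeries ℂ) *
          ∑ l, wl QPS r false x l l * K3 QPS r l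

/-! ### B. Trace functionals -/

/-- WREL: the relations in the modules `W_r`. -/
def WREL_Stmt : Prop :=
  ∀ (A : Type) [CommRing A] (Q : QP A) (r : ℕ), Q.Gen r →
    Iw1 Q r * Iw1 Q r * Iw2 Q r - Q.two • (Iw1 Q r * Iw2 Q r * Iw1 Q r) +
      Iw2 Q r * Iw1 Q r * Iw1 Q r = -Iw2 Q r ∧
    Iw2 Q r * Iw2 Q r * Iw1 Q r - Q.two • (Iw2 Q r * Iw1 Q r * Iw2 Q r) +
      Iw1 Q r * Iw2 Q r * Iw2 Q r = -Iw1 Q r ∧
    aeval (Iw2 Q r) (Q.pol r) = 0 ∧
    ∀ P : A[X], aeval (Iw2 Q r) P = Matrix.diagonal fun m : Nd r => P.eval (Q.lam m)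

/-- WPOL: the spectrum of `I_1` in the modules `W_r`. -/
def WPOL_Stmt : Prop :=
  ∀ (A : Type) [CommRing A] (Q : QP A) (r : ℕ), Q.Gen r → aeval (Iw1 Q r) (Q.pol r) = 0

/-- GENF: genericity over a field when `q` is not a root of unity. -/
def GENF_Stmt : Prop :=
  ∀ (F : Type) [Field F] [CharZero F] (Q : QP F), Nru Q → (∀ m m' : ℤ, m ≠ m' → Q.lam m ≠ Q.lam m') ∧
    (∀ r, Q.Gen r ∧ Q.Reg r) ∧ (∀ m, cu Q m ≠ 0) ∧ Q.qp 1 - Q.qp (-1) ≠ 0 ∧
    (∀ i j : ℕ, i ≠ j → cj Q i ≠ cj Q j) ∧ (∀ m : ℤ, cj Q m = cj Q (-m - 1))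

/-- ADJ: spectral idempotents of `I_2` and the quadratic relation of the steps. -/
def ADJ_Stmt : Prop :=
  ∀ (F : Type) [Field F] [CharZero F] (Q : QP F), Nru Q → ∀ (r : ℕ) (E : Type) [Ring E] [Algebra F E]
    (I1 I2 : E), Rels Q r I1 I2 →
    (∀ m, em Q r I2 m * em Q r I2 m = em Q r I2 m) ∧
    (∀ m m', m ≠ m' → em Q r I2 m * em Q r I2 m' = 0) ∧
    (∑ m ∈ Finset.Icc (-(r : ℤ)) r, em Q r I2 m = 1) ∧
    (∀ m, I2 * em Q r I2 m = Q.lam m • em Q r I2 m ∧ em Q r I2 m * I2 = Q.lam m • em Q r I2 m) ∧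
    (∀ m m', m' ≠ m + 1 → m' ≠ m - 1 → em Q r I2 m * I1 * em Q r I2 m' = 0) ∧
    (∀ m, cu Q (m + 1) • Xp Q r I1 I2 m - cu Q (m - 1) • Xn Q r I1 I2 m =
      Q.br m • em Q r I2 m)

/-- CAS: the Casimir element is central and determines the steps. -/
def CAS_Stmt : Prop :=
  ∀ (F : Type) [Field F] [CharZero F] (Q : QP F), Nru Q → ∀ (r : ℕ) (E : Type) [Ring E] [Algebra F E]
    (I1 I2 : E), Rels Q r I1 I2 →
    cas Q r I1 I2 * I1 = I1 * cas Q r I1 I2 ∧ cas Q r I1 I2 * I2 = I2 * cas Q r I1 I2 ∧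
    (∀ m, ((Q.qp 1 - Q.qp (-1)) ^ 2 * cu Q m * cu Q (m + 1)) • Xp Q r I1 I2 m =
      (cj Q m • (1 : E) - cas Q r I1 I2) * em Q r I2 m) ∧
    (∀ m, ((Q.qp 1 - Q.qp (-1)) ^ 2 * cu Q m * cu Q (m - 1)) • Xn Q r I1 I2 m =
      (cj Q (m - 1) • (1 : E) - cas Q r I1 I2) * em Q r I2 m)

/-- CVAL: the spectrum of the Casimir element. -/
def CVAL_Stmt : Prop :=
  ∀ (F : Type) [Field F] [CharZero F] (Q : QP F), Nru Q → ∀ (r : ℕ) (E : Type) [Ring E] [Algebra F E]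
    (I1 I2 : E), Rels Q r I1 I2 → ∀ (k : ℕ) (m : ℤ), (k : ℤ) ≤ |m| →
      aeval (cas Q r I1 I2) (∏ j ∈ Finset.Icc k r, (X - C (cj Q (j : ℤ)))) * em Q r I2 m = 0

/-- PATH: universal reduction of words to polynomials in the Casimir element. -/
def PATH_Stmt : Prop :=
  ∀ (F : Type) [Field F] [CharZero F] (Q : QP F), Nru Q →
    ∃ p : FreeAlgebra F Bool → ℤ → F[X], ∀ (r : ℕ) (E : Type) [Ring E] [Algebra F E]
      (I1 I2 : E), Rels Q r I1 I2 → ∀ (w : FreeAlgebra F Bool) (m : ℤ),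
        em Q r I2 m * evf F I1 I2 w * em Q r I2 m =
          aeval (cas Q r I1 I2) (p w m) * em Q r I2 m

/-- CASW: in the modules `W_j` the Casimir element is the scalar `c_j`, the idempotents are the
matrix units. -/
def CASW_Stmt : Prop :=
  ∀ (F : Type) [Field F] [CharZero F] (Q : QP F), Nru Q → ∀ j : ℕ,
    cas Q j (Iw1 Q j) (Iw2 Q j) = cj Q (j : ℤ) • (1 : Matrix (Nd j) (Nd j) F) ∧
    ∀ m : Nd j, em Q j (Iw2 Q j) m = Matrix.single m m 1

/-- TRF: trace functionals are combinations of the traces on the modules `W_j`. -/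
def TRF_Stmt : Prop :=
  ∀ (F : Type) [Field F] [CharZero F] (Q : QP F), Nru Q → ∀ (r : ℕ) (E : Type) [Ring E]
    [Algebra F E] (I1 I2 : E), Rels Q r I1 I2 → ∀ τ : E →ₗ[F] F, IsTr I1 I2 τ →
    ∃ D : ℕ → F, D r = τ (em Q r I2 r) ∧ ∀ w : FreeAlgebra F Bool,
      τ (evf F I1 I2 w) =
        ∑ j ∈ Finset.range (r + 1), D j * (evf F (Iw1 Q j) (Iw2 Q j) w).trace

/-- TRL: the weighted trace of words on all labels, in terms of the traces on the `W_j`. -/
def TRL_Stmt : Prop :=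
  ∀ (F : Type) [Field F] [CharZero F] (Q : QP F), Nru Q → ∀ r : ℕ,
    ∃ D : ℕ → F, D r = ∑ l, em Q r (emb23 (Im Q r)) r l l * K3 Q r l ∧
      ∀ x : List ℤ, ∑ l, wl Q r false x l l * K3 Q r l =
        ∑ j ∈ Finset.range (r + 1), D j * chi Q j x

/-- DRR: the top coefficient does not vanish. -/
def DRR_Stmt : Prop :=
  ∀ r : ℕ, ∑ l, aeval (emb23 (Im QPS r)) (QPS.basis r r) l l * K3 QPS r l ≠ 0

/-- NAT3: base change. -/
def NAT3_Stmt : Prop :=
  ∀ (A B : Type) [CommRing A] [CommRing B] (φ : A →+* B) (Q : QP A) (r : ℕ), Q.Gen r →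
    (Q.map φ).Gen r ∧ (∀ x : List ℤ, φ (chi Q r x) = chi (Q.map φ) r x) ∧
    (∀ x : List ℤ, φ (∑ l, wl Q r false x l l * K3 Q r l) =
      ∑ l, wl (Q.map φ) r false x l l * K3 (Q.map φ) r l) ∧
    φ (∑ l, aeval (emb23 (Im Q r)) (Q.basis r r) l l * K3 Q r l) =
      ∑ l, aeval (emb23 (Im (Q.map φ) r)) ((Q.map φ).basis r r) l l * K3 (Q.map φ) r l

/-- IND: from the weighted traces to the traces on the `W_r`. -/
def IND_Stmt : Prop :=
  ∀ x y : List ℤ,
    (∀ r : ℕ, ∑ l, wl QPS r false x l l * K3 QPS r l = ∑ l, wl QPS r false y l l * K3 QPS r l) →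
    ∀ r : ℕ, chi QPS r x = chi QPS r y

/-- OT3: transfer from the power series to the dual numbers. -/
def OT3_Stmt : Prop :=
  ∀ (r : ℕ) (s0 : ℂˣ), (QC s0).Gen r → ∀ x y : List ℤ, chi QPS r x = chi QPS r y →
    chi (QD s0) r x = chi (QD s0) r y

/-- KEQ: finite type invariants and the exponent sum determine all traces `χ_r`. -/
def KEQ_Stmt : Prop :=
  ∀ x y : List ℤ, ∀ (hx : IsKnot (bw false x)) (hy : IsKnot (bw false y)), x.sum = y.sum →
    (∀ v : Knot → ℂ, IsFiniteType v → v (closure (bw false x) hx) = v (closure (bw false y) hy)) →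
    ∀ r : ℕ, chi QPS r x = chi QPS r y

/-! ### C. The Burau trace -/

/-- BURA: for `r = 2` the weighted trace is given by the Burau matrices. -/
def BURA_Stmt : Prop :=
  ∀ (A : Type) [CommRing A] (Q : QP A)
    (ρ : Br 2 →* (Matrix (Fin 3 → Ev 2) (Fin 3 → Ev 2) A)ˣ)
    (β : Br 2 →* (Matrix (Fin 2) (Fin 2) A)ˣ), IsRep (ybt Q 2) ρ →
    ((β (sg 0) : (Matrix (Fin 2) (Fin 2) A)ˣ) : Matrix (Fin 2) (Fin 2) A) =
      !![-Q.qp 2, 1; 0, 1] →
    ((β (sg 1) : (Matrix (Fin 2) (Fin 2) A)ˣ) : Matrix (Fin 2) (Fin 2) A) =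
      !![1, 0; Q.qp 2, -Q.qp 2] →
    ∀ b : Br 2, trw (ybt Q 2) ρ b = ((cr Q 2 ^ expSum b : Aˣ) : A) * (Q.two *
      (Q.qp 2 + Q.qp (-2) +
        ((β b : (Matrix (Fin 2) (Fin 2) A)ˣ) : Matrix (Fin 2) (Fin 2) A).trace))

/-- BURT: the Burau trace in the power series determines the trace in `SL(2,ℤ)`. -/
def BURT_Stmt : Prop :=
  ∀ b b' : Br 2,
    (∀ β : Br 2 →* (Matrix (Fin 2) (Fin 2) (PowerSeries ℂ))ˣ,
      ((β (sg 0) : (Matrix (Fin 2) (Fin 2) (PowerSeries ℂ))ˣ) :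
        Matrix (Fin 2) (Fin 2) (PowerSeries ℂ)) = !![-QPS.qp 2, 1; 0, 1] →
      ((β (sg 1) : (Matrix (Fin 2) (Fin 2) (PowerSeries ℂ))ˣ) :
        Matrix (Fin 2) (Fin 2) (PowerSeries ℂ)) = !![1, 0; QPS.qp 2, -QPS.qp 2] →
      ((β b : (Matrix (Fin 2) (Fin 2) (PowerSeries ℂ))ˣ) :
        Matrix (Fin 2) (Fin 2) (PowerSeries ℂ)).trace =
      ((β b' : (Matrix (Fin 2) (Fin 2) (PowerSeries ℂ))ˣ) :
        Matrix (Fin 2) (Fin 2) (PowerSeries ℂ)).trace) →
    (rho b).1.trace = (rho b').1.trace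

/-- BURE: finite type invariants and the exponent sum determine the trace in `SL(2,ℤ)`. -/
def BURE_Stmt : Prop :=
  ∀ b b' : Br 2, ∀ (h : IsKnot b) (h' : IsKnot b'), expSum b = expSum b' →
    (∀ v : Knot → ℂ, IsFiniteType v → v (closure b h) = v (closure b' h')) →
    (rho b).1.trace = (rho b').1.trace

end Pool.Agent.T3
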