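import Pool.Agent.T3.Stmts

/-!
Finite type invariants of closed 3-braids: statements of the modules, second part
(the model at a root of unity, traces of Weyl operators, limits, orbits, assembly).
See PAPER.md in this folder.
-/

open Polynomial Filter Topology
open scoped BigOperators Real

namespace Pool.Agent.T3

open Pool.Agent.TB Pool.Agent.LibH11

/-! ### D. The model at a root of unity -/

/-- CHF: the chirp function. -/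
def CHF_Stmt : Prop :=
  ∀ (n : ℕ) [NeZero n] (ι : ℤ), IsCoprime ι (2 * n : ℤ) → Even n →
    (∀ k : ℤ, chf n ι (k : ZMod (2 * n)) = s1 n ι ^ (k ^ 2)) ∧
    (∀ u : ZMod (2 * n), (chf n ι u : ℂ) ^ 2 = zt n ι (u ^ 2)) ∧
    (∀ u v : ZMod (2 * n), (chf n ι (u + v) : ℂ) = chf n ι u * chf n ι v * zt n ι (u * v)) ∧
    (∀ u : ZMod (2 * n), chf n ι (-u) = chf n ι u) ∧
    (∀ u : ZMod (2 * n), ‖(chf n ι u : ℂ)‖ = 1) ∧ chf n ι 0 = 1

/-- EIG3: the eigenvalues `f_(r-c)` over the dual numbers. -/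
def EIG3_Stmt : Prop :=
  ∀ (n r : ℕ) [NeZero n] (ι : ℤ), n = 2 * r → Even r → IsCoprime ι (2 * n : ℤ) →
    ∀ (u : ZMod (2 * n)) (a : ℤ),
      (((QD (sz n ι)).fu (r - cc n u) ^ a : (DualNumber ℂ)ˣ) : DualNumber ℂ) =
        (((QD (sz n ι)).fu r ^ a : (DualNumber ℂ)ˣ) : DualNumber ℂ) *
          (TrivSqZeroExt.inl ((chf n ι u ^ a : ℂˣ) : ℂ) *
            (1 + TrivSqZeroExt.inr ((a : ℂ) * bq n u / 2)))

/-- EGO3: chirps, Weyl operators, parity. -/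
def EGO3_Stmt : Prop :=
  ∀ (n : ℕ) [NeZero n] (ι : ℤ), IsCoprime ι (2 * n : ℤ) → Even n →
    (∀ x a b : ℤ, Ch n ι x * Tt n ι a b = Tt n ι (a - x * b) b * Ch n ι x) ∧
    (∀ x a b : ℤ, Dh n ι x * Tt n ι a b = Tt n ι a (b + x * a) * Dh n ι x) ∧
    (∀ x y : ℤ, Ch n ι x * Ch n ι y = Ch n ι (x + y) ∧ Dh n ι x * Dh n ι y = Dh n ι (x + y)) ∧
    Ch n ι 0 = 1 ∧ Dh n ι 0 = 1 ∧
    (∀ x : ℤ, par0 n * Ch n ι x = Ch n ι x * par0 n ∧ par0 n * Dh n ι x = Dh n ι x * par0 n) ∧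
    (∀ a b : ℤ, par0 n * Tt n ι a b = Tt n ι (-a) (-b) * par0 n) ∧
    (∀ x : ℤ, Ch n ι x * mulo n (bq n) = mulo n (bq n) * Ch n ι x ∧
      Dh n ι x * cono n ι (bq n) = cono n ι (bq n) * Dh n ι x) ∧
    par0 n * Th n ι = Th n ι * par0 n ∧ par0 n * par0 n = 1 ∧
    par0 n * mulo n (bq n) = mulo n (bq n) * par0 n ∧
    par0 n * cono n ι (bq n) = cono n ι (bq n) * par0 n ∧
    Pev n * Pev n = Pev n ∧
    (n : ℂ) • par0 n = ∑ a ∈ Finset.range n, ∑ b ∈ Finset.range n, Tt n ι a b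

/-- PHI3: the torus model on even functions is isomorphic to `W_r` over the dual numbers. -/
def PHI3_Stmt : Prop :=
  ∀ (n r : ℕ) [NeZero n] (ι : ℤ), n = 2 * r → Even r → IsCoprime ι (2 * n : ℤ) →
    ∃ (Φ : (Nd r → DualNumber ℂ) →ₗ[DualNumber ℂ] (ZMod (2 * n) → DualNumber ℂ))
      (Ψ : (ZMod (2 * n) → DualNumber ℂ) →ₗ[DualNumber ℂ] (Nd r → DualNumber ℂ)),
      Ψ ∘ₗ Φ = LinearMap.id ∧ Φ ∘ₗ Ψ = lift2 n (Pev n) 0 ∧
      (∀ (a : ℤ) (g : Nd r → DualNumber ℂ),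
        Φ (Matrix.mulVec (Matrix.diagonal fun m : Nd r =>
            (((QD (sz n ι)).fu m ^ a : (DualNumber ℂ)ˣ) : DualNumber ℂ)) g) =
          (((QD (sz n ι)).fu r ^ a : (DualNumber ℂ)ˣ) : DualNumber ℂ) • LC n ι a (Φ g)) ∧
      (∀ (a : ℤ) (g : Nd r → DualNumber ℂ),
        Φ (Matrix.mulVec (aeval (Iw1 (QD (sz n ι)) r) ((QD (sz n ι)).interp r fun m =>
            (((QD (sz n ι)).fu m ^ a : (DualNumber ℂ)ˣ) : DualNumber ℂ))) g) =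
          (((QD (sz n ι)).fu r ^ a : (DualNumber ℂ)ˣ) : DualNumber ℂ) • LD n ι a (Φ g))

/-- TRD: traces over the dual numbers. -/
def TRD_Stmt : Prop :=
  ∀ (n : ℕ) [NeZero n] (T0 T1 : Module.End ℂ (Fn n)),
    LinearMap.trace (DualNumber ℂ) (ZMod (2 * n) → DualNumber ℂ) (lift2 n T0 T1) =
      TrivSqZeroExt.inl (LinearMap.trace ℂ (Fn n) T0) +
        TrivSqZeroExt.inr (LinearMap.trace ℂ (Fn n) T1)

/-- DER3: the product of the letters over the dual numbers. -/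
def DER3_Stmt : Prop :=
  ∀ (n : ℕ) [NeZero n] (ι : ℤ), IsCoprime ι (2 * n : ℤ) → Even n → ∀ x : List ℤ,
    Even x.length → wd n ι false x = lift2 n (ww n ι false x) (w1 n ι x)

/-- CHID: the trace on `W_r` over the dual numbers in the torus model. -/
def CHID_Stmt : Prop :=
  ∀ (n r : ℕ) [NeZero n] (ι : ℤ), n = 2 * r → Even r → IsCoprime ι (2 * n : ℤ) →
    ∀ x : List ℤ, Even x.length →
      chi (QD (sz n ι)) r x =
        (((QD (sz n ι)).fu r ^ x.sum : (DualNumber ℂ)ˣ) : DualNumber ℂ) *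
          (TrivSqZeroExt.inl (J0 n ι x) + TrivSqZeroExt.inr (J1 n ι x))

/-! ### E. Chains -/

/-- CHN3: elementary facts on the chain, the matrix and the quadratic form of a word. -/
def CHN3_Stmt : Prop :=
  ∀ x : List ℤ, Even x.length →
    (∀ j, det2 (ch3 x j) (ch3 x (j + 1)) = (-1) ^ j) ∧
    (∀ R, act (mw false x) R = Aw x R) ∧ (mw false x).1.trace = tw3 x ∧
    (∀ R : Fin 2 → ℤ, qf (mw false x) R = Qw x (R 0, R 1)) ∧
    (∀ R, Qw x R = R.1 ^ 2 * (ch3 x x.length).2 +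
      R.1 * R.2 * ((ch3 x (x.length + 1)).2 - (ch3 x x.length).1) -
        R.2 ^ 2 * (ch3 x (x.length + 1)).1) ∧
    (∀ (n : ℕ) (R : ℤ × ℤ), ((Qw x R : ℤ) : ZMod n) = Qm n x ((R.1 : ZMod n), (R.2 : ZMod n))) ∧
    (∀ R, Qw x (Aw x R) = Qw x R) ∧
    (∀ j (a b : ℤ), Qw x (b • ch3 x j - a • ch3 x (j + 1)) =
      b ^ 2 * Qw x (ch3 x j) + a ^ 2 * Qw x (ch3 x (j + 1)) -
        a * b * (Qw x (ch3 x j + ch3 x (j + 1)) - Qw x (ch3 x j) - Qw x (ch3 x (j + 1)))) ∧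
    (Odd (tw3 x) → ∀ j, Odd (Qw x (ch3 x j)) ∧
      Odd (Qw x (ch3 x j + ch3 x (j + 1)) - Qw x (ch3 x j) - Qw x (ch3 x (j + 1)))) ∧
    (Aw x (ch3 x 0) = ch3 x x.length ∧ Aw x (ch3 x 1) = ch3 x (x.length + 1)) ∧
    (∀ R R' : ℤ × ℤ, det2 (Aw x R) (Aw x R') = det2 R R')

/-! ### F. Traces of Weyl operators -/

/-- TRT: the trace of a Weyl operator inserted into a word. -/
def TRT_Stmt : Prop :=
  ∀ (n : ℕ) [NeZero n] (ι : ℤ), IsCoprime ι (2 * n : ℤ) → Even n →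
    ∀ (x : List ℤ), Even x.length → ∀ j ≤ x.length, ∀ a b : ℤ,
      (∀ δ : ℤ, (δ * (2 - tw3 x) : ZMod n) = 1 →
        LinearMap.trace ℂ (Fn n) (wi n ι (Tt n ι a b) false x j) =
          LinearMap.trace ℂ (Fn n) (ww n ι false x) *
            zt n ι (-2 * δ * Qw x (if Even j then a • ch3 x j + b • ch3 x (j + 1)
              else a • ch3 x (j + 1) + b • ch3 x j) : ℤ)) ∧
      (∀ δ : ℤ, (δ * (2 + tw3 x) : ZMod n) = 1 →
        LinearMap.trace ℂ (Fn n) (par0 n * wi n ι (Tt n ι a b) false x j) =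
          LinearMap.trace ℂ (Fn n) (par0 n * ww n ι false x) *
            zt n ι (2 * δ * Qw x (if Even j then a • ch3 x j + b • ch3 x (j + 1)
              else a • ch3 x (j + 1) + b • ch3 x j) : ℤ))

/-- GAU: the Gauss sum of a binary form with odd coefficients. -/
def GAU_Stmt : Prop :=
  ∀ (k : ℕ) (A B C κ : ℤ), Odd A → Odd B → Odd C → Odd κ →
    ∑ R : ZMod (4 ^ k) × ZMod (4 ^ k), (ZMod.stdAddChar
      ((κ : ZMod (4 ^ k)) * ((A : ZMod (4 ^ k)) * R.1 ^ 2 + (B : ZMod (4 ^ k)) * R.1 * R.2 +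
        (C : ZMod (4 ^ k)) * R.2 ^ 2)) : ℂ) = (4 : ℂ) ^ k

/-- GAU2: the Gauss sum of the form of a word with a linear term. -/
def GAU2_Stmt : Prop :=
  ∀ (k : ℕ) (x : List ℤ), Even x.length → Odd (tw3 x) → ∀ κ κ' : ZMod (4 ^ k), IsUnit κ →
    κ * κ' * (4 - (tw3 x : ZMod (4 ^ k)) ^ 2) = 1 → ∀ R : ZMod (4 ^ k) × ZMod (4 ^ k),
    ∑ S : ZMod (4 ^ k) × ZMod (4 ^ k), (ZMod.stdAddChar
      (κ * Qm (4 ^ k) x S + (R.1 * S.2 - R.2 * S.1)) : ℂ) =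
        (4 : ℂ) ^ k * ZMod.stdAddChar (-(κ' * Qm (4 ^ k) x R))

/-- TRN: absolute value of the trace. -/
def TRN_Stmt : Prop :=
  ∀ (n : ℕ) [NeZero n] (ι : ℤ), IsCoprime ι (2 * n : ℤ) → Even n →
    ∀ (x : List ℤ), Even x.length → IsCoprime (2 - tw3 x) (2 * n : ℤ) →
      ‖LinearMap.trace ℂ (Fn n) (ww n ι false x)‖ = 1

/-- TRE: traces on the even functions, `n = 4^k`. -/
def TRE_Stmt : Prop :=
  ∀ (k : ℕ), 0 < k → ∀ (ι : ℤ), Odd ι → ∀ (x : List ℤ), Even x.length → Odd (tw3 x) →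
    J0 (4 ^ k) ι x ≠ 0 ∧
    ∀ δ δ' : ℤ, (δ * (2 - tw3 x) : ZMod (4 ^ k)) = 1 → (δ' * (2 + tw3 x) : ZMod (4 ^ k)) = 1 →
      ∀ j ≤ x.length, ∀ a b : ℤ,
        tre (4 ^ k) (wi (4 ^ k) ι (Tt (4 ^ k) ι a b) false x j) = J0 (4 ^ k) ι x *
          ((zt (4 ^ k) ι (-2 * δ * Qw x (if Even j then a • ch3 x j + b • ch3 x (j + 1)
              else a • ch3 x (j + 1) + b • ch3 x j) : ℤ) +
            zt (4 ^ k) ι (2 * δ' * Qw x (if Even j then a • ch3 x j + b • ch3 x (j + 1)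
              else a • ch3 x (j + 1) + b • ch3 x j) : ℤ)) / 2)

/-- LAM3: the logarithmic derivative. -/
def LAM3_Stmt : Prop :=
  ∀ (k : ℕ), 0 < k → ∀ (ι : ℤ), Odd ι → ∀ (x : List ℤ), Even x.length → Odd (tw3 x) →
    ∀ κ κ' : ZMod (4 ^ k), κ * ι * (2 + tw3 x) = 1 → κ' * ι * (2 - tw3 x) = -1 →
      J1 (4 ^ k) ι x = J0 (4 ^ k) ι x *
        (-(((4 ^ k : ℕ) : ℂ) ^ 2 - 1) / 12 * (x.sum : ℤ) +
          (Psi3 (4 ^ k) x κ + Psi3 (4 ^ k) x κ') / 2)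

/-! ### G. Fourier inversion -/

/-- FOU3: from the logarithmic derivatives to the sums over `Q(R) = N`. -/
def FOU3_Stmt : Prop :=
  ∀ (k : ℕ), 0 < k → ∀ (x y : List ℤ) (t : ℤ), Odd t →
    (∀ (ι : ℤ), Odd ι → ∀ κ κ' : ZMod (4 ^ k), κ * ι * (2 + t) = 1 → κ' * ι * (2 - t) = -1 →
      Psi3 (4 ^ k) x κ + Psi3 (4 ^ k) x κ' = Psi3 (4 ^ k) y κ + Psi3 (4 ^ k) y κ') →
    ∀ ν : ZMod (4 ^ k),
      Zo (4 ^ k) x (ν * (t + 2)) + Zo (4 ^ k) x (ν * (t - 2)) =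
        Zo (4 ^ k) y (ν * (t + 2)) + Zo (4 ^ k) y (ν * (t - 2))

/-! ### H. The limit -/

/-- MULT: multiplicities. -/
def MULT_Stmt : Prop :=
  ∀ (s : ℕ) (A B C N a : ℤ), Odd A → Odd B → Odd C → Odd N →
    (B ^ 2 - 4 * A * C) * a ^ 2 + 4 * (C * N) ≠ 0 →
    Nat.card {b : ZMod (2 ^ s) //
        2 * ((A : ZMod (2 ^ s)) * a ^ 2 + B * a * b + C * b ^ 2 - N) = 0} ≤
      4 * 2 ^ (padicValInt 2 ((B ^ 2 - 4 * A * C) * a ^ 2 + 4 * (C * N)) / 2)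

/-- TAILA: the sum of the multiplicities over large `a`. -/
def TAILA_Stmt : Prop :=
  ∀ D N : ℤ, Odd D → Odd N → ∃ c : ℝ, ∀ K : ℕ, 1 ≤ K → ∀ S : Finset ℤ,
    (∀ a ∈ S, (K : ℤ) < |a| ∧ D * a ^ 2 + 4 * N ≠ 0) →
    ∑ a ∈ S, (2 : ℝ) ^ (padicValInt 2 (D * a ^ 2 + 4 * N) / 2) / (a : ℝ) ^ 2 ≤ c / K

/-- FIX: the solutions with a fixed coordinate that are not integral solutions. -/
def FIX_Stmt : Prop :=
  ∀ A B C N b : ℤ, Odd A → Odd B → Odd C → Odd N →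
    Tendsto (fun s : ℕ => (π / 2 ^ s) * ∑ a : ZMod (2 ^ s),
      if 2 * ((A : ZMod (2 ^ s)) * a ^ 2 + B * a * b + C * b ^ 2 - N) = 0 ∧
          A * a.valMinAbs ^ 2 + B * a.valMinAbs * b + C * b ^ 2 ≠ N then
        |Real.cot (π * a.val / 2 ^ s)| else 0) atTop (𝓝 0)

/-- LIM3: the limit of the cot sums of one quadratic form with odd coefficients. -/
def LIM3_Stmt : Prop :=
  ∀ A B C N : ℤ, Odd A → Odd B → Odd C → Odd N →
    Summable (fun p : {p : ℤ × ℤ // A * p.1 ^ 2 + B * p.1 * p.2 + C * p.2 ^ 2 = N} =>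
      (1 / ((p.1.1 : ℂ) * p.1.2) : ℂ)) ∧
    Tendsto (fun s : ℕ => ((π : ℂ) / 2 ^ s) ^ 2 * ∑ a : ZMod (2 ^ s), ∑ b : ZMod (2 ^ s),
        if (A : ZMod (2 ^ s)) * a ^ 2 + B * a * b + C * b ^ 2 = N then
          ct (2 ^ s) a * ct (2 ^ s) b else 0) atTop
      (𝓝 (∑' p : {p : ℤ × ℤ // A * p.1 ^ 2 + B * p.1 * p.2 + C * p.2 ^ 2 = N},
        1 / ((p.1.1 : ℂ) * p.1.2))) ∧
    Tendsto (fun s : ℕ => ((π : ℂ) / 2 ^ s) ^ 2 * ∑ a : ZMod (2 ^ s), ∑ b : ZMod (2 ^ s),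
        if (A : ZMod (2 ^ s)) * a ^ 2 + B * a * b + C * b ^ 2 = N + ((2 ^ s / 2 : ℕ) : ZMod (2 ^ s))
          then ct (2 ^ s) a * ct (2 ^ s) b else 0) atTop (𝓝 0)

/-- CSC3: the limit of the sums of `1/sin²`. -/
def CSC3_Stmt : Prop :=
  ∀ q N : ℤ, Odd q → Odd N →
    Tendsto (fun s : ℕ => ((π : ℂ) / 2 ^ s) ^ 2 * ∑ ρ ∈ Finset.Ico 1 ((2 : ℕ) ^ s),
        if ((ρ : ℕ) : ZMod (2 ^ s)) ^ 2 * (q : ZMod (2 ^ s)) = N then
          ((1 / Real.sin (π * ρ / (2 ^ s : ℕ)) ^ 2 : ℝ) : ℂ) else 0) atTop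
      (𝓝 (∑' ρ : {ρ : ℤ // ρ ^ 2 * q = N}, 1 / (ρ.1 : ℂ) ^ 2)) ∧
    Tendsto (fun s : ℕ => ((π : ℂ) / 2 ^ s) ^ 2 * ∑ ρ ∈ Finset.Ico 1 ((2 : ℕ) ^ s),
        if ((ρ : ℕ) : ZMod (2 ^ s)) ^ 2 * (q : ZMod (2 ^ s)) = N + ((2 ^ s / 2 : ℕ) : ZMod (2 ^ s)) then
          ((1 / Real.sin (π * ρ / (2 ^ s : ℕ)) ^ 2 : ℝ) : ℂ) else 0) atTop (𝓝 0)

/-- LIMZ: the limit of the sums over `d Q(R) = N`. -/
def LIMZ_Stmt : Prop :=
  ∀ (x : List ℤ), Even x.length → Odd (tw3 x) → ∀ d N : ℤ, Odd d → Odd N →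
    Summable (fun p : {p : ℤ × ℤ // d * Qw x p = N} => F3 x p.1) ∧
    Tendsto (fun k : ℕ => ((π : ℂ) / 4 ^ k) ^ 2 *
      Zo (4 ^ k) x ((N : ZMod (4 ^ k)) * (d : ZMod (4 ^ k))⁻¹)) atTop
      (𝓝 ((∑' p : {p : ℤ × ℤ // d * Qw x p = N}, F3 x p.1 : ℝ) : ℂ))

/-- TELO: the summand of the limit is a coboundary. -/
def TELO_Stmt : Prop :=
  ∀ (x : List ℤ), Even x.length → 2 < |tw3 x| →
    ∃ G : ℤ × ℤ → ℝ, ∀ R : ℤ × ℤ, Qw x R ≠ 0 →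
      F3 x R = G R - G (act (mw false x)⁻¹ R) ∧
      Tendsto (fun k : ℕ => G (act (mw false x ^ k) R)) atTop
        (𝓝 (-(dl (tw3 x) / (4 * Qw x R)))) ∧
      Tendsto (fun k : ℕ => G (act ((mw false x)⁻¹ ^ k) R)) atTop (𝓝 0)

/-- ORB3: the sum over all orbits. -/
def ORB3_Stmt : Prop :=
  ∀ (M : Matrix.SpecialLinearGroup (Fin 2) ℤ), 2 < |M.1.trace| → ∀ N : ℤ, N ≠ 0 →
    ∀ (F G : ℤ × ℤ → ℝ) (c : ℝ), c ≠ 0 →
      (∀ R : Fin 2 → ℤ, qf M R = N → F (R 0, R 1) = G (R 0, R 1) - G (act M⁻¹ (R 0, R 1)) ∧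
        Tendsto (fun k : ℕ => G (act (M ^ k) (R 0, R 1))) atTop (𝓝 c) ∧
        Tendsto (fun k : ℕ => G (act (M⁻¹ ^ k) (R 0, R 1))) atTop (𝓝 0)) →
      Summable (fun R : {R : Fin 2 → ℤ // qf M R = N} => F (R.1 0, R.1 1)) →
      {S : Set (Fin 2 → ℤ) | ∃ R, qf M R = N ∧ S = orb M R}.Finite ∧
      ∑' R : {R : Fin 2 → ℤ // qf M R = N}, F (R.1 0, R.1 1) = cnt M N * c

/-- ISO3: the counting functions agree. -/
def ISO3_Stmt : Prop :=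
  ∀ (x y : List ℤ), Even x.length → Even y.length → Odd (tw3 x) → tw3 x = tw3 y →
    2 < |tw3 x| →
    (∀ k : ℕ, 0 < k → ∀ ν : ZMod (4 ^ k),
      Zo (4 ^ k) x (ν * (tw3 x + 2)) + Zo (4 ^ k) x (ν * (tw3 x - 2)) =
        Zo (4 ^ k) y (ν * (tw3 x + 2)) + Zo (4 ^ k) y (ν * (tw3 x - 2))) →
    ∀ N : ℤ, Odd N → cnt (mw false x) N = cnt (mw false y) N

/-! ### I. The group `B_3` -/

/-- WORD: every braid is a word; exponent sum, matrix, reversal. -/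
def WORD_Stmt : Prop :=
  (∀ b : Br 2, ∃ x : List ℤ, Even x.length ∧ b = bw false x) ∧
  (∀ x : List ℤ, expSum (bw false x) = x.sum) ∧ (∀ x : List ℤ, rho (bw false x) = mw false x) ∧
  (∀ b : Br 2, expSum (rev b) = expSum b) ∧ (∀ b : Br 2, rho (rev b) = revM (rho b)) ∧
  (∀ b b' : Br 2, expSum (b * b') = expSum b + expSum b')

/-- ODD3: the trace of the matrix of a knot is odd. -/
def ODD3_Stmt : Prop := ∀ b : Br 2, IsKnot b → Odd (rho b).1.trace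

/-- KER3: the kernel of `B_3 → SL(2,ℤ)`. -/
def KER3_Stmt : Prop :=
  (∀ b : Br 2, rho b = 1 → ∃ k : ℤ, b = (sg 0 * sg 1) ^ (6 * k)) ∧
  (∀ b : Br 2, (sg 0 * sg 1) ^ 3 * b = b * (sg 0 * sg 1) ^ 3) ∧ Function.Surjective rho

/-- CNJ3: conjugacy in `B_3` from conjugacy in `SL(2,ℤ)`. -/
def CNJ3_Stmt : Prop :=
  ∀ b b' : Br 2, expSum b = expSum b' → IsConj (rho b) (rho b') → IsConj b b'

/-- ELL3: the elliptic case. -/
def ELL3_Stmt : Prop :=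
  ∀ b b' : Br 2, expSum b = expSum b' → |(rho b).1.trace| = 1 →
    (rho b').1.trace = (rho b).1.trace → IsConj b b'

/-- ARI3 (arithmetic half, helper16): the counting function determines the matrix. -/
def ARI3_Stmt : Prop :=
  ∀ A A' : Matrix.SpecialLinearGroup (Fin 2) ℤ, A.1.trace = A'.1.trace → Odd A.1.trace →
    2 < |A.1.trace| → (∀ N : ℤ, Odd N → cnt A N = cnt A' N) →
    ∃ g, A' = g * A * g⁻¹ ∨ A' = g * revM A * g⁻¹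

/-! ### J. Final theorem -/

/-- FIN3: finite type invariants determine a closed 3-braid of given exponent sum up to
reversal. -/
def FIN3_Stmt : Prop :=
  ∀ (b b' : Br 2) (h : IsKnot b) (h' : IsKnot b'), expSum b = expSum b' →
    (∀ v : Knot → ℂ, IsFiniteType v → v (closure b h) = v (closure b' h')) →
    IsConj b b' ∨ IsConj (rev b) b'

end Pool.Agent.T3
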