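import Pool.Agent.T3.Stmts2
import Pool.Agent.TB.Zt

/-!
# Traces on the even functions, `n = 4^k`
-/

open Polynomial Filter Topology
open scoped BigOperators Real

namespace Pool.Agent.T3

open Pool.Agent.TB Pool.Agent.LibH11

namespace TRE

theorem sum_range_zmod {n : ℕ} [NeZero n] (f : ZMod n → ℂ) :
    ∑ a ∈ Finset.range n, f (a : ZMod n) = ∑ x, f x := by
  refine Finset.sum_nbij' (fun a => (a : ZMod n)) (fun x => x.val) ?_ ?_ ?_ ?_ ?_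
  · intro a _
    exact Finset.mem_univ _
  · intro x _
    exact Finset.mem_range.mpr (ZMod.val_lt x)
  · intro a ha
    exact ZMod.val_cast_of_lt (Finset.mem_range.mp ha)
  · intro x _
    exact ZMod.natCast_zmod_val x
  · intro a _
    rfl

theorem cop_four {a : ℤ} (ha : Odd a) (k : ℕ) : IsCoprime a (((4 ^ k : ℕ) : ℤ)) := by
  have h1 : IsCoprime a 2 := Int.isCoprime_two_right.mpr ha
  have h2 : IsCoprime a 4 := by
    have : (4 : ℤ) = 2 * 2 := by norm_num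
    rw [this]
    exact h1.mul_right h1
  push_cast
  exact h2.pow_right

theorem cop_pow {a : ℤ} (ha : Odd a) (k : ℕ) : IsCoprime a ((2 * (4 ^ k : ℕ) : ℤ)) :=
  (Int.isCoprime_two_right.mpr ha).mul_right (cop_four ha k)

theorem wi_zero (n : ℕ) [NeZero n] (ι : ℤ) (O : Module.End ℂ (Fn n)) (b : Bool) (x : List ℤ) :
    wi n ι O b x 0 = O * ww n ι b x := by
  cases b <;> cases x <;> rfl

theorem odd_two_sub {t : ℤ} (ht : Odd t) : Odd (2 - t) := by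
  obtain ⟨m, hm⟩ := ht
  exact ⟨-m, by omega⟩

/-- The inverse modulo `4^k` is odd. -/
theorem odd_of_inv {k : ℕ} (hk : 0 < k) {δ c : ℤ} (h : ((δ * c : ℤ) : ZMod (4 ^ k)) = 1) :
    Odd δ := by
  by_contra hc
  rw [Int.not_odd_iff_even] at hc
  obtain ⟨m, hm⟩ := hc
  have h1 : ((δ * c - 1 : ℤ) : ZMod (4 ^ k)) = 0 := by
    rw [Int.cast_sub, h, Int.cast_one, sub_self]
  rw [ZMod.intCast_zmod_eq_zero_iff_dvd] at h1
  have h2 : (2 : ℤ) ∣ ((4 ^ k : ℕ) : ℤ) := by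
    push_cast
    exact dvd_pow (by norm_num) hk.ne'
  have h3 := h2.trans h1
  obtain ⟨q, hq⟩ := h3
  rw [hm, show (m + m) * c = 2 * (m * c) by ring] at hq
  generalize m * c = z at hq
  omega

theorem exists_inv {k : ℕ} {c : ℤ} (hc : Odd c) :
    ∃ δ : ℤ, ((δ * c : ℤ) : ZMod (4 ^ k)) = 1 := by
  obtain ⟨u, v, h⟩ := cop_four hc k
  refine ⟨u, ?_⟩
  have h1 : ((u * c + v * ((4 ^ k : ℕ) : ℤ) : ℤ) : ZMod (4 ^ k)) = 1 := by
    rw [h]
    simp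
  push_cast at h1
  have h2 : ((4 : ZMod (4 ^ k)) ^ k) = 0 := by
    have := ZMod.natCast_self (4 ^ k)
    push_cast at this
    exact this
  rw [h2, mul_zero, add_zero] at h1
  push_cast
  exact h1

theorem even_four {k : ℕ} (hk : 0 < k) : Even (4 ^ k) :=
  (by decide : Even 4).pow_of_ne_zero hk.ne'

/-- The trace with parity is the trace. -/
theorem tr_par (h1 : EGO3_Stmt) (h2 : CHN3_Stmt) (h3 : TRT_Stmt) (h4 : GAU_Stmt) {k : ℕ}
    (hk : 0 < k) {ι : ℤ} (hι : Odd ι) {x : List ℤ} (hx : Even x.length) (ht : Odd (tw3 x)) :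
    LinearMap.trace ℂ (Fn (4 ^ k)) (par0 (4 ^ k) * ww (4 ^ k) ι false x) =
      LinearMap.trace ℂ (Fn (4 ^ k)) (ww (4 ^ k) ι false x) := by
  have hcι := cop_pow hι k
  have hev := even_four hk
  obtain ⟨-, -, -, -, -, -, -, -, -, -, -, -, -, hpar⟩ := h1 (4 ^ k) ι hcι hev
  obtain ⟨-, -, -, -, hQ, -, -, -, hodd, -, -⟩ := h2 x hx
  obtain ⟨δ, hδ⟩ := exists_inv (k := k) (c := 2 - tw3 x) (odd_two_sub ht)
  have hδo : Odd δ := odd_of_inv hk hδ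
  have hn : ((4 ^ k : ℕ) : ℂ) ≠ 0 := Nat.cast_ne_zero.mpr (by positivity)
  -- the coefficients
  have hA := (hodd ht 0).1
  have hC := (hodd ht 1).1
  have hB := (hodd ht 0).2
  have g0 : ch3 x 0 = (1, 0) := rfl
  have g1 : ch3 x 1 = (0, 1) := rfl
  rw [g0] at hA
  rw [g1] at hC
  rw [zero_add, g0, g1] at hB
  have hQ' : ∀ a b : ℤ, Qw x (a, b) = Qw x (1, 0) * a ^ 2
      + (Qw x ((1, 0) + (0, 1)) - Qw x (1, 0) - Qw x (0, 1)) * a * b + Qw x (0, 1) * b ^ 2 := by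
    intro a b
    rw [hQ (a, b), hQ (1, 0), hQ (0, 1), hQ ((1, 0) + (0, 1))]
    simp only [Prod.mk_add_mk]
    ring
  obtain ⟨A, hAe⟩ : ∃ A, A = Qw x (1, 0) := ⟨_, rfl⟩
  obtain ⟨C, hCe⟩ : ∃ C, C = Qw x (0, 1) := ⟨_, rfl⟩
  obtain ⟨B, hBe⟩ : ∃ B, B = Qw x ((1, 0) + (0, 1)) - Qw x (1, 0) - Qw x (0, 1) := ⟨_, rfl⟩
  rw [← hBe, ← hAe, ← hCe] at hQ'
  rw [← hBe] at hB
  rw [← hAe] at hA
  rw [← hCe] at hC
  have hzt := (zt_basic (4 ^ k) ι hcι).2.2.2.2.2.2.1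
  -- the traces
  have key : ∀ a b : ℕ, LinearMap.trace ℂ (Fn (4 ^ k)) (Tt (4 ^ k) ι a b * ww (4 ^ k) ι false x)
      = LinearMap.trace ℂ (Fn (4 ^ k)) (ww (4 ^ k) ι false x) *
        ZMod.stdAddChar (((-(δ * ι) : ℤ) : ZMod (4 ^ k)) * ((A : ZMod (4 ^ k)) * (a : ZMod (4 ^ k)) ^ 2
          + (B : ZMod (4 ^ k)) * (a : ZMod (4 ^ k)) * (b : ZMod (4 ^ k))
          + (C : ZMod (4 ^ k)) * (b : ZMod (4 ^ k)) ^ 2)) := by
    intro a b
    have e1 := (h3 (4 ^ k) ι hcι hev x hx 0 (Nat.zero_le _) a b).1 δ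
      (by push_cast at hδ; exact hδ)
    rw [wi_zero] at e1
    rw [e1]
    congr 1
    have e2 : (if Even 0 then (a : ℤ) • ch3 x 0 + (b : ℤ) • ch3 x (0 + 1)
        else (a : ℤ) • ch3 x (0 + 1) + (b : ℤ) • ch3 x 0) = ((a : ℤ), (b : ℤ)) := by
      rw [if_pos (by decide), zero_add, g0, g1]
      simp
    rw [e2, hQ']
    have e3 : ((-2 * δ * (A * (a : ℤ) ^ 2 + B * a * b + C * (b : ℤ) ^ 2) : ℤ) : ZMod (2 * 4 ^ k))
        = 2 * ((-(δ * (A * (a : ℤ) ^ 2 + B * a * b + C * (b : ℤ) ^ 2)) : ℤ) :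
          ZMod (2 * 4 ^ k)) := by
      push_cast
      ring
    rw [e3, hzt]
    congr 1
    push_cast
    ring
  have hsum : ((4 ^ k : ℕ) : ℂ) * LinearMap.trace ℂ (Fn (4 ^ k))
      (par0 (4 ^ k) * ww (4 ^ k) ι false x)
      = ((4 ^ k : ℕ) : ℂ) * LinearMap.trace ℂ (Fn (4 ^ k)) (ww (4 ^ k) ι false x) := by
    rw [← smul_eq_mul, ← map_smul, ← smul_mul_assoc, hpar, Finset.sum_mul, map_sum]
    have e1 : ∀ a ∈ Finset.range (4 ^ k), LinearMap.trace ℂ (Fn (4 ^ k))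
        ((∑ b ∈ Finset.range (4 ^ k), Tt (4 ^ k) ι a b) * ww (4 ^ k) ι false x)
        = ∑ b ∈ Finset.range (4 ^ k), LinearMap.trace ℂ (Fn (4 ^ k)) (ww (4 ^ k) ι false x) *
        ZMod.stdAddChar (((-(δ * ι) : ℤ) : ZMod (4 ^ k)) * ((A : ZMod (4 ^ k)) * (a : ZMod (4 ^ k)) ^ 2
          + (B : ZMod (4 ^ k)) * (a : ZMod (4 ^ k)) * (b : ZMod (4 ^ k))
          + (C : ZMod (4 ^ k)) * (b : ZMod (4 ^ k)) ^ 2)) := by
      intro a _
      rw [Finset.sum_mul, map_sum]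
      exact Finset.sum_congr rfl fun b _ => key a b
    rw [Finset.sum_congr rfl e1]
    have e2 : ∀ a : ZMod (4 ^ k), ∑ b ∈ Finset.range (4 ^ k),
        LinearMap.trace ℂ (Fn (4 ^ k)) (ww (4 ^ k) ι false x) *
        ZMod.stdAddChar (((-(δ * ι) : ℤ) : ZMod (4 ^ k)) * ((A : ZMod (4 ^ k)) * a ^ 2
          + (B : ZMod (4 ^ k)) * a * (b : ZMod (4 ^ k))
          + (C : ZMod (4 ^ k)) * (b : ZMod (4 ^ k)) ^ 2))
        = ∑ b : ZMod (4 ^ k), LinearMap.trace ℂ (Fn (4 ^ k)) (ww (4 ^ k) ι false x) *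
        ZMod.stdAddChar (((-(δ * ι) : ℤ) : ZMod (4 ^ k)) * ((A : ZMod (4 ^ k)) * a ^ 2
          + (B : ZMod (4 ^ k)) * a * b + (C : ZMod (4 ^ k)) * b ^ 2)) := fun a =>
      sum_range_zmod (n := 4 ^ k) fun b => LinearMap.trace ℂ (Fn (4 ^ k)) (ww (4 ^ k) ι false x) *
        ZMod.stdAddChar (((-(δ * ι) : ℤ) : ZMod (4 ^ k)) * ((A : ZMod (4 ^ k)) * a ^ 2
          + (B : ZMod (4 ^ k)) * a * b + (C : ZMod (4 ^ k)) * b ^ 2))
    refine (Finset.sum_congr (s₁ := Finset.range (4 ^ k)) rfl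
      fun (a : ℕ) _ => e2 (a : ZMod (4 ^ k))).trans ?_
    refine (sum_range_zmod (n := 4 ^ k) fun a => ∑ b : ZMod (4 ^ k),
        LinearMap.trace ℂ (Fn (4 ^ k)) (ww (4 ^ k) ι false x) *
        ZMod.stdAddChar (((-(δ * ι) : ℤ) : ZMod (4 ^ k)) * ((A : ZMod (4 ^ k)) * a ^ 2
          + (B : ZMod (4 ^ k)) * a * b + (C : ZMod (4 ^ k)) * b ^ 2))).trans ?_
    have e3 := h4 k A B C (-(δ * ι)) hA hB hC (hδo.mul hι).neg
    rw [Fintype.sum_prod_type] at e3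
    simp only [← Finset.mul_sum]
    rw [e3]
    push_cast
    ring
  exact mul_left_cancel₀ hn hsum

end TRE

open TRE in
/-- TRE: traces on the even functions, `n = 4^k`. -/
theorem tre_thm (h1 : EGO3_Stmt) (h2 : CHN3_Stmt) (h3 : TRT_Stmt) (h4 : GAU_Stmt)
    (h5 : TRN_Stmt) : TRE_Stmt := by
  intro k hk ι hι x hx ht
  have hcι := cop_pow hι k
  have hev := even_four hk
  have hp := tr_par h1 h2 h3 h4 hk hι hx ht
  have ht2 : Odd (2 - tw3 x) := odd_two_sub ht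
  have hT : ∀ T : Module.End ℂ (Fn (4 ^ k)), tre (4 ^ k) T =
      (LinearMap.trace ℂ (Fn (4 ^ k)) T + LinearMap.trace ℂ (Fn (4 ^ k)) (par0 (4 ^ k) * T)) / 2 :=
    fun T => by
    unfold tre Pev
    rw [smul_mul_assoc, map_smul, add_mul, one_mul, map_add, smul_eq_mul]
    ring
  have hJ : J0 (4 ^ k) ι x = LinearMap.trace ℂ (Fn (4 ^ k)) (ww (4 ^ k) ι false x) := by
    unfold J0
    rw [hT, hp]
    ring
  refine ⟨?_, ?_⟩
  · rw [hJ]
    intro h0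
    have := h5 (4 ^ k) ι hcι hev x hx (cop_pow ht2 k)
    rw [h0] at this
    simp at this
  · intro δ δ' hδ hδ' j hj a b
    obtain ⟨e1, e2⟩ := h3 (4 ^ k) ι hcι hev x hx j hj a b
    rw [hT, e1 δ hδ, e2 δ' hδ', hp, hJ]
    ring

end Pool.Agent.T3
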