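import Pool.Agent.T3.Stmts

/-!
# Closed 3-braids, module YREP: a good matrix gives representations of all braid groups
-/

namespace Pool.Agent.T3
open Pool.Agent.TB Pool.Agent.LibH11
open scoped BigOperators

namespace YREP


variable {A : Type} [CommRing A] {L : Type} [Fintype L] [DecidableEq L] {P : Type} [Fintype P]
  [DecidableEq P]

open Classical in
/-- The matrix that acts by `R` on the positions `x`, `y`. -/
noncomputable def atp {P : Type} (R : Matrix (L × L) (L × L) A) (x y : P) :
    Matrix (P → L) (P → L) A :=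
  fun s t => if ∀ z, z ≠ x → z ≠ y → s z = t z then R (s x, s y) (t x, t y) else 0

/-- the function with the values `p` at `x` and `y` -/
def u2 (s : P → L) (x y : P) (p : L × L) : P → L :=
  Function.update (Function.update s x p.1) y p.2

omit [Fintype L] [DecidableEq L] [Fintype P] in
theorem u2_x (s : P → L) {x y : P} (h : x ≠ y) (p : L × L) : u2 s x y p x = p.1 := by
  unfold u2
  rw [Function.update_of_ne h, Function.update_self]

omit [Fintype L] [DecidableEq L] [Fintype P] in
theorem u2_y (s : P → L) (x y : P) (p : L × L) : u2 s x y p y = p.2 := by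
  unfold u2
  rw [Function.update_self]

omit [Fintype L] [DecidableEq L] [Fintype P] in
theorem u2_of (s : P → L) {x y z : P} (h : z ≠ x) (h' : z ≠ y) (p : L × L) :
    u2 s x y p z = s z := by
  unfold u2
  rw [Function.update_of_ne h', Function.update_of_ne h]

omit [CommRing A] [Fintype L] [DecidableEq L] [Fintype P] [DecidableEq P] in
theorem atp_pos [CommRing A] (R : Matrix (L × L) (L × L) A) (x y : P) {s t : P → L}
    (h : ∀ z, z ≠ x → z ≠ y → s z = t z) : atp R x y s t = R (s x, s y) (t x, t y) := by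
  unfold atp
  rw [if_pos h]

omit [Fintype L] [DecidableEq L] [Fintype P] [DecidableEq P] in
theorem atp_neg (R : Matrix (L × L) (L × L) A) (x y : P) {s t : P → L}
    (h : ¬ ∀ z, z ≠ x → z ≠ y → s z = t z) : atp R x y s t = 0 := by
  unfold atp
  rw [if_neg h]

theorem atp_mul (R : Matrix (L × L) (L × L) A) {x y : P} (hxy : x ≠ y)
    (M : Matrix (P → L) (P → L) A) (s t : P → L) :
    (atp R x y * M) s t = ∑ p : L × L, R (s x, s y) p * M (u2 s x y p) t := by
  rw [Matrix.mul_apply]
  symm
  refine Finset.sum_of_injOn (fun p => u2 s x y p) ?_ ?_ ?_ ?_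
  · intro p _ p' _ h
    have h1 := congrFun h x
    have h2 := congrFun h y
    simp only [u2_x s hxy, u2_y] at h1 h2
    exact Prod.ext h1 h2
  · intro p _
    simp
  · intro u _ hu
    rw [atp_neg, zero_mul]
    intro h
    apply hu
    refine ⟨(u x, u y), by simp, ?_⟩
    funext z
    simp only
    by_cases hzy : z = y
    · subst hzy
      exact u2_y s x z _
    · by_cases hzx : z = x
      · subst hzx
        exact u2_x s hzy _
      · rw [u2_of s hzx hzy]
        exact h z hzx hzy
  · intro p _
    rw [atp_pos R x y (fun z hz hz' => (u2_of s hz hz' p).symm), u2_x s hxy, u2_y]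

theorem mul1 (R S : Matrix (L × L) (L × L) A) {x y : P} (hxy : x ≠ y) :
    atp (R * S) x y = atp R x y * atp S x y := by
  ext s t
  rw [atp_mul R hxy]
  by_cases h : ∀ z, z ≠ x → z ≠ y → s z = t z
  · rw [atp_pos _ x y h, Matrix.mul_apply]
    refine Finset.sum_congr rfl fun p _ => ?_
    rw [atp_pos S x y, u2_x s hxy, u2_y]
    intro z hz hz'
    rw [u2_of s hz hz']
    exact h z hz hz'
  · rw [atp_neg _ x y h]
    symm
    refine Finset.sum_eq_zero fun p _ => ?_
    rw [atp_neg S x y, mul_zero]
    intro h'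
    apply h
    intro z hz hz'
    have := h' z hz hz'
    rwa [u2_of s hz hz'] at this

theorem one1 (x y : P) : atp (1 : Matrix (L × L) (L × L) A) x y = 1 := by
  classical
  ext s t
  by_cases h : ∀ z, z ≠ x → z ≠ y → s z = t z
  · rw [atp_pos _ x y h, Matrix.one_apply, Matrix.one_apply]
    congr 1
    rw [Prod.mk.injEq, eq_iff_iff]
    constructor
    · rintro ⟨h1, h2⟩
      funext z
      by_cases hzx : z = x
      · rw [hzx]
        exact h1
      · by_cases hzy : z = y
        · rw [hzy]
          exact h2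
        · exact h z hzx hzy
    · rintro rfl
      exact ⟨rfl, rfl⟩
  · rw [atp_neg _ x y h, Matrix.one_apply, if_neg]
    rintro rfl
    exact h fun _ _ _ => rfl

theorem far_apply (R S : Matrix (L × L) (L × L) A) {x y z w : P} (hxy : x ≠ y) (hxz : x ≠ z)
    (hxw : x ≠ w) (hyz : y ≠ z) (hyw : y ≠ w) (s t : P → L)
    (C : Prop) [Decidable C] (hC : C ↔ ∀ v, v ≠ x → v ≠ y → v ≠ z → v ≠ w → s v = t v) :
    (atp R x y * atp S z w) s t =
      if C then R (s x, s y) (t x, t y) * S (s z, s w) (t z, t w) else 0 := by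
  rw [atp_mul R hxy]
  by_cases h : C
  · rw [if_pos h, Finset.sum_eq_single (t x, t y)]
    · rw [atp_pos S z w, u2_of s hxz.symm hyz.symm, u2_of s hxw.symm hyw.symm]
      intro v hv hv'
      by_cases hvx : v = x
      · rw [hvx, u2_x s hxy]
      · by_cases hvy : v = y
        · rw [hvy, u2_y]
        · rw [u2_of s hvx hvy]
          exact hC.1 h v hvx hvy hv hv'
    · intro p _ hp
      rw [atp_neg S z w, mul_zero]
      intro h'
      apply hp
      have h1 := h' x hxz hxw
      have h2 := h' y hyz hyw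
      rw [u2_x s hxy] at h1
      rw [u2_y] at h2
      exact Prod.ext h1 h2
    · intro h'
      exact absurd (Finset.mem_univ _) h'
  · rw [if_neg h]
    refine Finset.sum_eq_zero fun p _ => ?_
    rw [atp_neg S z w, mul_zero]
    intro h'
    apply h
    rw [hC]
    intro v hvx hvy hvz hvw
    have := h' v hvz hvw
    rwa [u2_of s hvx hvy] at this

theorem far (R S : Matrix (L × L) (L × L) A) {x y z w : P} (hxy : x ≠ y) (hxz : x ≠ z)
    (hxw : x ≠ w) (hyz : y ≠ z) (hyw : y ≠ w) (hzw : z ≠ w) :
    Commute (atp R x y) (atp S z w) := by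
  classical
  rw [commute_iff_eq]
  ext s t
  rw [far_apply R S hxy hxz hxw hyz hyw s t
      (∀ v, v ≠ x → v ≠ y → v ≠ z → v ≠ w → s v = t v) Iff.rfl,
    far_apply S R hzw hxz.symm hyz.symm hxw.symm hyw.symm s t
      (∀ v, v ≠ x → v ≠ y → v ≠ z → v ≠ w → s v = t v)
      ⟨fun h v h1 h2 h3 h4 => h v h3 h4 h1 h2, fun h v h1 h2 h3 h4 => h v h3 h4 h1 h2⟩,
    mul_comm]

/-- the left side of the braid relation -/
theorem left_apply (R : Matrix (L × L) (L × L) A) {x y z : P} (hxy : x ≠ y) (hxz : x ≠ z)
    (hyz : y ≠ z) (s t : P → L) (C : Prop) [Decidable C]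
    (hC : C ↔ ∀ v, v ≠ x → v ≠ y → v ≠ z → s v = t v) :
    (atp R x y * atp R y z * atp R x y) s t = if C then
      ∑ a, ∑ b, ∑ c, R (s x, s y) (a, b) * R (b, s z) (c, t z) * R (a, c) (t x, t y) else 0 := by
  rw [mul_assoc, atp_mul R hxy]
  have h1 : ∀ p : L × L, (atp R y z * atp R x y) (u2 s x y p) t = if C then
      ∑ c, R (p.2, s z) (c, t z) * R (p.1, c) (t x, t y) else 0 := by
    intro p
    rw [atp_mul R hyz, u2_y, u2_of s hxz.symm hyz.symm]
    by_cases h : C
    · rw [if_pos h, Fintype.sum_prod_type]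
      refine Finset.sum_congr rfl fun c _ => ?_
      rw [Finset.sum_eq_single (t z)]
      · rw [atp_pos R x y, u2_of _ hxy hxz, u2_x _ hyz, u2_x s hxy]
        intro v hv hv'
        by_cases hvz : v = z
        · rw [hvz, u2_y]
        · rw [u2_of _ hv' hvz, u2_of s hv hv']
          exact hC.1 h v hv hv' hvz
      · intro d _ hd
        rw [atp_neg R x y, mul_zero]
        intro h'
        apply hd
        have h2 := h' z hxz.symm hyz.symm
        rwa [u2_y] at h2
      · intro h'
        exact absurd (Finset.mem_univ _) h'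
    · rw [if_neg h]
      refine Finset.sum_eq_zero fun q _ => ?_
      rw [atp_neg R x y, mul_zero]
      intro h'
      apply h
      rw [hC]
      intro v hvx hvy hvz
      have := h' v hvx hvy
      rwa [u2_of _ hvy hvz, u2_of s hvx hvy] at this
  simp only [h1]
  by_cases h : C
  · simp only [if_pos h]
    rw [Fintype.sum_prod_type]
    refine Finset.sum_congr rfl fun a _ => Finset.sum_congr rfl fun b _ => ?_
    rw [Finset.mul_sum]
    exact Finset.sum_congr rfl fun c _ => by ring
  · simp only [if_neg h, mul_zero, Finset.sum_const_zero]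

/-- the right side of the braid relation -/
theorem right_apply (R : Matrix (L × L) (L × L) A) {x y z : P} (hxy : x ≠ y) (hxz : x ≠ z)
    (hyz : y ≠ z) (s t : P → L) (C : Prop) [Decidable C]
    (hC : C ↔ ∀ v, v ≠ x → v ≠ y → v ≠ z → s v = t v) :
    (atp R y z * atp R x y * atp R y z) s t = if C then
      ∑ a, ∑ b, ∑ c, R (s y, s z) (b, c) * R (s x, b) (t x, a) * R (a, c) (t y, t z) else 0 := by
  rw [mul_assoc, atp_mul R hyz]
  have h1 : ∀ p : L × L, (atp R x y * atp R y z) (u2 s y z p) t = if C then
      ∑ a, R (s x, p.1) (t x, a) * R (a, p.2) (t y, t z) else 0 := by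
    intro p
    rw [atp_mul R hxy, u2_of s hxy hxz, u2_x s hyz]
    by_cases h : C
    · rw [if_pos h, Fintype.sum_prod_type, Finset.sum_eq_single (t x)]
      · refine Finset.sum_congr rfl fun a _ => ?_
        rw [atp_pos R y z, u2_y, u2_of _ hxz.symm hyz.symm, u2_y]
        intro v hv hv'
        by_cases hvx : v = x
        · rw [hvx, u2_x _ hxy]
        · rw [u2_of _ hvx hv, u2_of s hv hv']
          exact hC.1 h v hvx hv hv'
      · intro d _ hd
        refine Finset.sum_eq_zero fun q _ => ?_
        rw [atp_neg R y z, mul_zero]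
        intro h'
        apply hd
        have h2 := h' x hxy hxz
        rwa [u2_x _ hxy] at h2
      · intro h'
        exact absurd (Finset.mem_univ _) h'
    · rw [if_neg h]
      refine Finset.sum_eq_zero fun q _ => ?_
      rw [atp_neg R y z, mul_zero]
      intro h'
      apply h
      rw [hC]
      intro v hvx hvy hvz
      have := h' v hvy hvz
      rwa [u2_of _ hvx hvy, u2_of s hvy hvz] at this
  simp only [h1]
  by_cases h : C
  · simp only [if_pos h]
    rw [Fintype.sum_prod_type]
    simp only [Finset.mul_sum]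
    have e1 : ∀ b : L, ∑ c, ∑ a, R (s y, s z) (b, c) * (R (s x, b) (t x, a) *
        R (a, c) (t y, t z)) = ∑ a, ∑ c, R (s y, s z) (b, c) * (R (s x, b) (t x, a) *
        R (a, c) (t y, t z)) := fun b => Finset.sum_comm
    simp only [e1]
    rw [Finset.sum_comm]
    refine Finset.sum_congr rfl fun a _ => Finset.sum_congr rfl fun b _ =>
      Finset.sum_congr rfl fun c _ => by ring
  · simp only [if_neg h, mul_zero, Finset.sum_const_zero]




/-! ### The braid relation on three strands -/

theorem emb12_mul (M : Matrix (L × L) (L × L) A) (X : Matrix (L × L × L) (L × L × L) A)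
    (a b c : L) (t : L × L × L) :
    (emb12 M * X) (a, b, c) t = ∑ x, ∑ y, M (a, b) (x, y) * X (x, y, c) t := by
  rw [Matrix.mul_apply, Fintype.sum_prod_type]
  refine Finset.sum_congr rfl fun x _ => ?_
  rw [Fintype.sum_prod_type]
  refine Finset.sum_congr rfl fun y _ => ?_
  rw [Finset.sum_eq_single c]
  · simp [emb12]
  · intro z _ hz
    simp [emb12, hz.symm]
  · intro h
    exact absurd (Finset.mem_univ _) h

theorem emb23_mul (M : Matrix (L × L) (L × L) A) (X : Matrix (L × L × L) (L × L × L) A)
    (a b c : L) (t : L × L × L) :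
    (emb23 M * X) (a, b, c) t = ∑ y, ∑ z, M (b, c) (y, z) * X (a, y, z) t := by
  rw [Matrix.mul_apply, Fintype.sum_prod_type, Finset.sum_eq_single a]
  · rw [Fintype.sum_prod_type]
    refine Finset.sum_congr rfl fun y _ => Finset.sum_congr rfl fun z _ => ?_
    simp [emb23]
  · intro x _ hx
    rw [Fintype.sum_prod_type]
    refine Finset.sum_eq_zero fun y _ => Finset.sum_eq_zero fun z _ => ?_
    simp [emb23, hx.symm]
  · intro h
    exact absurd (Finset.mem_univ _) h

theorem entries {R : Matrix (L × L) (L × L) A}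
    (h : emb12 R * emb23 R * emb12 R = emb23 R * emb12 R * emb23 R) (a b c a' b' c' : L) :
    ∑ x, ∑ y, ∑ z, R (a, b) (x, y) * R (y, c) (z, c') * R (x, z) (a', b') =
      ∑ x, ∑ y, ∑ z, R (b, c) (y, z) * R (a, y) (a', x) * R (x, z) (b', c') := by
  have h1 := congrFun (congrFun h (a, b, c)) (a', b', c')
  rw [mul_assoc, mul_assoc, emb12_mul, emb23_mul] at h1
  simp only [emb12_mul, emb23_mul] at h1
  have e1 : ∀ x y : L, (∑ y', ∑ z, R (y, c) (y', z) * emb12 R (x, y', z) (a', b', c'))
      = ∑ z, R (y, c) (z, c') * R (x, z) (a', b') := by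
    intro x y
    refine Finset.sum_congr rfl fun y' _ => ?_
    rw [Finset.sum_eq_single c']
    · simp [emb12]
    · intro z _ hz
      simp [emb12, hz]
    · intro h
      exact absurd (Finset.mem_univ _) h
  have e2 : ∀ y z : L, (∑ x, ∑ y', R (a, y) (x, y') * emb23 R (x, y', z) (a', b', c'))
      = ∑ x, R (a, y) (a', x) * R (x, z) (b', c') := by
    intro y z
    rw [Finset.sum_eq_single a']
    · refine Finset.sum_congr rfl fun y' _ => ?_
      simp [emb23]
    · intro x _ hx
      refine Finset.sum_eq_zero fun y' _ => ?_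
      simp [emb23, hx]
    · intro h
      exact absurd (Finset.mem_univ _) h
  simp only [e1, e2, Finset.mul_sum] at h1
  have e3 : ∑ x, ∑ y, ∑ z, R (b, c) (y, z) * R (a, y) (a', x) * R (x, z) (b', c')
      = ∑ y, ∑ z, ∑ x, R (b, c) (y, z) * (R (a, y) (a', x) * R (x, z) (b', c')) := by
    rw [Finset.sum_comm]
    refine Finset.sum_congr rfl fun y _ => ?_
    rw [Finset.sum_comm]
    exact Finset.sum_congr rfl fun z _ => Finset.sum_congr rfl fun x _ => mul_assoc _ _ _
  rw [e3, ← h1]
  exact Finset.sum_congr rfl fun x _ => Finset.sum_congr rfl fun y _ =>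
    Finset.sum_congr rfl fun z _ => mul_assoc _ _ _

theorem cs_ne {n : ℕ} (i : Fin n) : i.castSucc ≠ i.succ := by
  rw [Ne, Fin.ext_iff]
  simp

theorem opm_eq {n : ℕ} (M : Matrix (L × L) (L × L) A) (i : Fin n) :
    opm M i = atp M i.castSucc i.succ := by
  ext s t
  unfold opm atp
  congr

/-- The image of a generator. -/
noncomputable def unitAt (T : YB A L) (hT : T.Good) {n : ℕ} (i : Fin n) :
    (Matrix (Fin (n + 1) → L) (Fin (n + 1) → L) A)ˣ where
  val := opm T.R i
  inv := opm T.Ri i
  val_inv := by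
    rw [opm_eq, opm_eq, ← mul1 _ _ (cs_ne i), hT.mul_inv, one1]
  inv_val := by
    rw [opm_eq, opm_eq, ← mul1 _ _ (cs_ne i), hT.inv_mul, one1]

end YREP

open YREP in
/-- YREP: a good matrix gives representations of all braid groups. -/
theorem yrep : YREP_Stmt := by
  classical
  intro A L _ _ _ T hT n
  let f : Fin n → (Matrix (Fin (n + 1) → L) (Fin (n + 1) → L) A)ˣ := fun i => unitAt T hT i
  have hf : ∀ i, (f i).val = atp T.R i.castSucc i.succ := fun i => opm_eq T.R i
  have h1 : ∀ i j : Fin n, (i : ℕ) + 2 ≤ (j : ℕ) → f i * f j = f j * f i := by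
    intro i j hij
    apply Units.ext
    rw [Units.val_mul, Units.val_mul, hf, hf]
    refine (far T.R T.R (cs_ne i) ?_ ?_ ?_ ?_ (cs_ne j)).eq <;>
    · rw [Ne, Fin.ext_iff]
      simp only [Fin.val_castSucc, Fin.val_succ]
      omega
  have h2 : ∀ i j : Fin n, (i : ℕ) + 1 = (j : ℕ) → f i * f j * f i = f j * f i * f j := by
    intro i j hij
    have hij' : i.succ = j.castSucc := by
      simp only [Fin.ext_iff, Fin.val_castSucc, Fin.val_succ]
      omega
    have hxz : i.castSucc ≠ j.succ := by
      rw [Ne, Fin.ext_iff]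
      simp only [Fin.val_castSucc, Fin.val_succ]
      omega
    have hyz : i.succ ≠ j.succ := by
      rw [hij']
      exact cs_ne j
    apply Units.ext
    rw [Units.val_mul, Units.val_mul, Units.val_mul, Units.val_mul, hf, hf, ← hij']
    ext s t
    rw [left_apply T.R (cs_ne i) hxz hyz s t
        (∀ v, v ≠ i.castSucc → v ≠ i.succ → v ≠ j.succ → s v = t v) Iff.rfl,
      right_apply T.R (cs_ne i) hxz hyz s t
        (∀ v, v ≠ i.castSucc → v ≠ i.succ → v ≠ j.succ → s v = t v) Iff.rfl]
    rw [entries hT.braid]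
  refine ⟨liftBr f h1 h2, fun i => ?_, fun i => ?_⟩
  · rw [liftBr_sg]
    rfl
  · rw [liftBr_sg]
    rfl

end Pool.Agent.T3
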